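import Pool.Agent.Work.MP_56b8f5_nt.HN.StmtsB
import Pool.Agent.Work.MP_56b8f5_nt.HZ.B_Loc

/-!
MP_56b8f5_nt, block HN, part (III), item CoL: one prime, the coefficients of the truncated exponential.
-/

set_option autoImplicit false

open MeasureTheory Set Filter Topology

noncomputable section

namespace Pool.Agent.Work.MP_56b8f5_nt.HN

open Pool.Agent.Work.MP_56b8f5_nt.SH Pool.Agent.Work.MP_56b8f5_nt.HZ Pool.Agent.Work.MP_56b8f5_nt.HZB

namespace B_CoL

open Polynomial

/-- nonnegative coefficients, at most those of the second polynomial scaled by `y` -/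
def Rel (y : ℝ) (P Q : ℝ[X]) : Prop := ∀ e, 0 ≤ P.coeff e ∧ P.coeff e ≤ y ^ e * Q.coeff e

theorem Rel.add {y : ℝ} {P Q P' Q' : ℝ[X]} (h : Rel y P Q) (h' : Rel y P' Q') :
    Rel y (P + P') (Q + Q') := by
  intro e
  rw [coeff_add, coeff_add, mul_add]
  exact ⟨add_nonneg (h e).1 (h' e).1, add_le_add (h e).2 (h' e).2⟩

theorem Rel.mul {y : ℝ} {P Q P' Q' : ℝ[X]} (h : Rel y P Q) (h' : Rel y P' Q') :
    Rel y (P * P') (Q * Q') := by
  intro e
  rw [coeff_mul, coeff_mul]
  refine ⟨Finset.sum_nonneg fun x _ => mul_nonneg (h _).1 (h' _).1, ?_⟩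
  rw [Finset.mul_sum]
  refine Finset.sum_le_sum fun x hx => ?_
  rw [Finset.HasAntidiagonal.mem_antidiagonal] at hx
  calc P.coeff x.1 * P'.coeff x.2 ≤ (y ^ x.1 * Q.coeff x.1) * (y ^ x.2 * Q'.coeff x.2) :=
        mul_le_mul (h _).2 (h' _).2 (h' _).1 ((h _).1.trans (h _).2)
    _ = y ^ e * (Q.coeff x.1 * Q'.coeff x.2) := by
        rw [← hx, pow_add]
        ring

theorem relC {y r : ℝ} (hr : 0 ≤ r) : Rel y (C r) (C r) := by
  intro e
  rw [coeff_C]
  split_ifs with h
  · rw [h, pow_zero, one_mul]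
    exact ⟨hr, le_refl _⟩
  · rw [mul_zero]
    exact ⟨le_refl _, le_refl _⟩

theorem Rel.pow {y : ℝ} {P Q : ℝ[X]} (h : Rel y P Q) (m : ℕ) : Rel y (P ^ m) (Q ^ m) := by
  induction m with
  | zero =>
    rw [pow_zero, pow_zero]
    have := relC (y := y) (r := 1) zero_le_one
    rwa [C_1] at this
  | succ m ih =>
    rw [pow_succ, pow_succ]
    exact ih.mul h

theorem Rel.sum {y : ℝ} {ι : Type} (s : Finset ι) (f g : ι → ℝ[X]) (h : ∀ i ∈ s, Rel y (f i) (g i)) :
    Rel y (∑ i ∈ s, f i) (∑ i ∈ s, g i) := by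
  intro e
  rw [finsetSum_coeff, finsetSum_coeff, Finset.mul_sum]
  exact ⟨Finset.sum_nonneg fun i hi => (h i hi e).1, Finset.sum_le_sum fun i hi => (h i hi e).2⟩

theorem Rel.base {y a b : ℝ} (ha : 0 ≤ a) (hb : 0 ≤ b) (ha1 : a ≤ y) (hb1 : b ≤ y ^ 2 / 2) :
    Rel y (C a * X + C b * X ^ 2) (C 1 * X + C (1 / 2) * X ^ 2) := by
  intro e
  rw [coeff_add, coeff_C_mul, coeff_C_mul, coeff_X, coeff_X_pow, coeff_add, coeff_C_mul,
    coeff_C_mul, coeff_X, coeff_X_pow]
  rcases e with _ | e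
  · simp
  · rcases e with _ | e
    · simp
      exact ⟨ha, ha1⟩
    · rcases e with _ | e
      · simp
        exact ⟨hb, by linarith⟩
      · rw [if_neg (by omega), if_neg (by omega), mul_zero, mul_zero, mul_zero, mul_zero, add_zero,
          mul_zero]
        exact ⟨le_refl _, le_refl _⟩

theorem Rel.plq {y a b : ℝ} (l : ℕ) (ha : 0 ≤ a) (hb : 0 ≤ b) (ha1 : a ≤ y) (hb1 : b ≤ y ^ 2 / 2) :
    Rel y (AuxLoc.Plq l 1 a b) (AuxLoc.Plq l 1 1 (1 / 2)) := by
  refine Rel.sum _ _ _ fun m _ => ?_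
  exact (relC (by positivity)).mul ((Rel.base ha hb ha1 hb1).pow m)

theorem der (l : ℕ) : derivative (AuxLoc.Plq (l + 1) 1 1 (1 / 2)) =
    (1 + X) * AuxLoc.Plq l 1 1 (1 / 2) := by
  unfold AuxLoc.Plq
  rw [Finset.sum_range_succ', derivative_add, derivative_sum, pow_zero, pow_zero, mul_one, derivative_C,
    add_zero, Finset.mul_sum]
  refine Finset.sum_congr rfl fun m _ => ?_
  have hQ : derivative (C 1 * X + C (1 / 2) * X ^ 2 : ℝ[X]) = 1 + X := by
    rw [derivative_add, derivative_C_mul, derivative_C_mul, derivative_X, derivative_X_pow, C_1,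
      one_mul, ← mul_assoc, ← C_mul]
    norm_num
  rw [derivative_C_mul, derivative_pow, hQ, Nat.add_sub_cancel, one_pow, one_pow]
  have h3 : (C (1 / ((m + 1).factorial : ℝ)) * C ((m + 1 : ℕ) : ℝ) : ℝ[X]) =
      C (1 / (m.factorial : ℝ)) := by
    rw [← C_mul]
    congr 1
    rw [Nat.factorial_succ]
    have h1 : (m.factorial : ℝ) ≠ 0 := by exact_mod_cast m.factorial_ne_zero
    have h2 : ((m : ℝ) + 1) ≠ 0 := by positivity
    push_cast
    field_simp
  rw [← h3]
  ring

theorem le_one (l : ℕ) : ∀ e, (AuxLoc.Plq l 1 1 (1 / 2)).coeff e ≤ 1 := by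
  induction l with
  | zero =>
    intro e
    unfold AuxLoc.Plq
    rw [zero_add, Finset.sum_range_one, pow_zero, pow_zero, Nat.factorial_zero, Nat.cast_one,
      div_one, C_1, one_mul, coeff_one]
    split_ifs
    · exact le_refl _
    · exact zero_le_one
  | succ l ih =>
    intro e
    rcases e with _ | e
    · exact AuxLoc.Plq_zero.le
    · have h1 : (AuxLoc.Plq (l + 1) 1 1 (1 / 2)).coeff (e + 1) * ((e : ℝ) + 1) =
          ((1 + X) * AuxLoc.Plq l 1 1 (1 / 2)).coeff e := by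
        rw [← der, coeff_derivative]
      rw [add_mul, one_mul, coeff_add] at h1
      rcases e with _ | e
      · rw [mul_coeff_zero, coeff_X_zero, zero_mul, add_zero, AuxLoc.Plq_zero, Nat.cast_zero] at h1
        linarith
      · rw [coeff_X_mul] at h1
        have h2 := ih (e + 1)
        have h3 := ih e
        have h4 : (2 : ℝ) ≤ ((e + 1 : ℕ) : ℝ) + 1 := by
          push_cast
          have : (0 : ℝ) ≤ (e : ℝ) := Nat.cast_nonneg e
          linarith
        by_contra hcon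
        push Not at hcon
        have h5 : ((e + 1 : ℕ) : ℝ) + 1 < (AuxLoc.Plq (l + 1) 1 1 (1 / 2)).coeff (e + 1 + 1) *
            (((e + 1 : ℕ) : ℝ) + 1) := by
          have h6 : 0 < ((e + 1 : ℕ) : ℝ) + 1 := by linarith
          nlinarith
        linarith

end B_CoL

theorem CoL_pf : S_CoL := by
  intro q l η a b hq ha ha1 hb hb1
  set y : ℝ := pe1 η q with hy
  have hy0 : 0 ≤ y := Real.rpow_nonneg (Nat.cast_nonneg q) _
  have hpow : ∀ i : ℕ, pe1 η (q ^ i) = y ^ i := by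
    intro i
    rw [hy, pe1, pe1, Nat.cast_pow, ← Real.rpow_natCast, ← Real.rpow_natCast,
      ← Real.rpow_mul (Nat.cast_nonneg q), ← Real.rpow_mul (Nat.cast_nonneg q), mul_comm]
  rw [hpow 2] at hb1
  have hrel := B_CoL.Rel.plq l ha hb ha1 hb1
  rw [AuxLoc.tx_eq]
  intro n
  set P := AuxLoc.Plq l 1 a b with hP
  have hcf : (∑ i ∈ Finset.range (P.natDegree + 1),
      (MonoidAlgebra.single (q ^ i) ((P.coeff i : ℝ) : ℂ) : DA)).coeff n =
      ∑ i ∈ Finset.range (P.natDegree + 1), if q ^ i = n then ((P.coeff i : ℝ) : ℂ) else 0 := by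
    rw [MonoidAlgebra.coeff_sum, Finsupp.finsetSum_apply]
    refine Finset.sum_congr rfl fun i _ => ?_
    rw [MonoidAlgebra.coeff_single, Finsupp.single_apply]
  by_cases h : ∃ i ∈ Finset.range (P.natDegree + 1), q ^ i = n
  · obtain ⟨i, hi, hin⟩ := h
    refine ⟨P.coeff i, (hrel i).1, ?_, ?_⟩
    · rw [← hin, hpow i]
      refine (hrel i).2.trans ?_
      have := mul_le_mul_of_nonneg_left (B_CoL.le_one l i) (pow_nonneg hy0 i)
      rwa [mul_one] at this
    · rw [hcf, Finset.sum_eq_single i]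
      · rw [if_pos hin]
      · intro j _ hji
        rw [if_neg]
        intro h'
        exact hji (Nat.pow_right_injective hq.two_le (h'.trans hin.symm))
      · intro h'
        exact absurd hi h'
  · refine ⟨0, le_refl _, Real.rpow_nonneg (Nat.cast_nonneg n) _, ?_⟩
    rw [hcf, Complex.ofReal_zero]
    refine Finset.sum_eq_zero fun i hi => ?_
    rw [if_neg]
    intro h'
    exact h ⟨i, hi, h'⟩

end Pool.Agent.Work.MP_56b8f5_nt.HN
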