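import Pool.Agent.Work.MP_56b8f5_nt.HN.StmtsB

/-!
MP_56b8f5_nt, block HN, part (III), item CoP: powers.
-/

set_option autoImplicit false

open MeasureTheory Set Filter Topology

noncomputable section

namespace Pool.Agent.Work.MP_56b8f5_nt.HN

open Pool.Agent.Work.MP_56b8f5_nt.SH Pool.Agent.Work.MP_56b8f5_nt.HZ Pool.Agent.Work.MP_56b8f5_nt.HZB

namespace B_CoP

theorem pe1_mul (η : ℝ) (a b : ℕ) : pe1 η (a * b) = pe1 η a * pe1 η b := by
  unfold pe1
  rw [Nat.cast_mul, Real.mul_rpow (Nat.cast_nonneg _) (Nat.cast_nonneg _)]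

theorem pe1_nonneg (η : ℝ) (a : ℕ) : 0 ≤ pe1 η a := Real.rpow_nonneg (Nat.cast_nonneg _) _

theorem dk_zero_arg (k : ℕ) : dk k 0 = 0 := by
  unfold dk
  rw [ArithmeticFunction.map_zero]
  norm_num

theorem dk_zero (n : ℕ) : dk 0 n = if n = 1 then 1 else 0 := by
  unfold dk
  rw [pow_zero, ArithmeticFunction.one_apply]
  split_ifs <;> norm_num

theorem dk_succ (k n : ℕ) : dk (k + 1) n = ∑ p ∈ n.divisorsAntidiagonal, dk k p.1 := by
  unfold dk
  rw [pow_succ, ArithmeticFunction.mul_apply]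
  push_cast
  apply Finset.sum_congr rfl
  intro p hp
  have h2 : p.2 ≠ 0 := by
    intro h
    obtain ⟨h3, h4⟩ := Nat.mem_divisorsAntidiagonal.1 hp
    rw [h, mul_zero] at h3
    exact h4 h3.symm
  rw [ArithmeticFunction.zeta_apply, if_neg h2]
  push_cast
  rw [mul_one]

theorem coeff_zero_mul (α β : DA) (h1 : α.coeff 0 = 0) (h2 : β.coeff 0 = 0) :
    (α * β).coeff 0 = 0 := by
  rw [MonoidAlgebra.coeff_mul]
  unfold Finsupp.sum
  apply Finset.sum_eq_zero
  intro a ha
  apply Finset.sum_eq_zero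
  intro b hb
  beta_reduce
  rw [if_neg]
  intro h
  rcases Nat.mul_eq_zero.1 h with h | h
  · rw [h] at ha
    exact (Finsupp.mem_support_iff.1 ha) h1
  · rw [h] at hb
    exact (Finsupp.mem_support_iff.1 hb) h2

end B_CoP

open B_CoP in
theorem CoP_pf : S_CoP := by
  intro k η α h0 hα
  induction k with
  | zero =>
    intro n
    refine ⟨if n = 1 then 1 else 0, ?_, ?_, ?_⟩
    · split_ifs <;> norm_num
    · change (if n = 1 then (1 : ℝ) else 0) ≤ dk 0 n * pe1 η n
      rw [dk_zero]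
      split_ifs with h
      · rw [h]
        simp [pe1]
      · simp
    · rw [pow_zero]
      by_cases h : n = 1
      · rw [if_pos h, h, MonoidAlgebra.coeff_one_one]
        norm_num
      · rw [if_neg h, MonoidAlgebra.one_def]
        rw [MonoidAlgebra.coeff_single, Finsupp.single_apply, if_neg (Ne.symm h)]
        norm_num
  | succ k ih =>
    intro n
    have hk0 : (α ^ k).coeff 0 = 0 := by
      obtain ⟨x, hx0, hx1, hx⟩ := ih 0
      have hx1' : x ≤ dk k 0 * pe1 η 0 := hx1
      rw [dk_zero_arg, zero_mul] at hx1'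
      have : x = 0 := le_antisymm hx1' hx0
      rw [hx, this]
      norm_num
    rcases Nat.eq_zero_or_pos n with hn | hn
    · subst hn
      refine ⟨0, le_refl _, ?_, ?_⟩
      · change (0 : ℝ) ≤ dk (k + 1) 0 * pe1 η 0
        rw [dk_zero_arg, zero_mul]
      · rw [pow_succ, coeff_zero_mul _ _ hk0 h0]
        norm_num
    · choose x hx0 hx1 hx using ih
      choose y hy0 hy1 hy using hα
      refine ⟨∑ p ∈ n.divisorsAntidiagonal, x p.1 * y p.2, ?_, ?_, ?_⟩
      · exact Finset.sum_nonneg fun p _ => mul_nonneg (hx0 _) (hy0 _)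
      · change _ ≤ dk (k + 1) n * pe1 η n
        rw [dk_succ, Finset.sum_mul]
        apply Finset.sum_le_sum
        intro p hp
        obtain ⟨h3, h4⟩ := Nat.mem_divisorsAntidiagonal.1 hp
        rw [← h3, pe1_mul, ← mul_assoc]
        have h5 : x p.1 ≤ dk k p.1 * pe1 η p.1 := hx1 _
        exact mul_le_mul h5 (hy1 _) (hy0 _) (le_trans (hx0 _) h5)
      · rw [pow_succ, MonoidAlgebra.coeff_mul_antidiag (α ^ k) α n n.divisorsAntidiagonal
          (by intro p; rw [Nat.mem_divisorsAntidiagonal]; exact ⟨fun h => h.1, fun h => ⟨h, by omega⟩⟩)]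
        push_cast
        apply Finset.sum_congr rfl
        intro p _
        rw [hx, hy]

end Pool.Agent.Work.MP_56b8f5_nt.HN
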