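import Pool.Agent.Work.MP_56b8f5_nt.HN.StmtsB

/-!
MP_56b8f5_nt, block HN, part (III), item CoS: the coefficients of the truncated exponential of one level.
-/

set_option autoImplicit false

open MeasureTheory Set Filter Topology

noncomputable section

namespace Pool.Agent.Work.MP_56b8f5_nt.HN

open Pool.Agent.Work.MP_56b8f5_nt.SH Pool.Agent.Work.MP_56b8f5_nt.HZ Pool.Agent.Work.MP_56b8f5_nt.HZB

namespace B_CoS

/-- the truncated exponential of `0` is `1` -/
theorem tx_zero (l : ℕ) (k : ℝ) : tx l k (0 : DA) = 1 := by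
  unfold tx
  rw [Finset.sum_eq_single 0]
  · simp
  · intro m _ hm
    rw [zero_pow hm, smul_zero]
  · intro h
    exact absurd (Finset.mem_range.2 (Nat.succ_pos l)) h

theorem pw_single (a b : ℕ → ℝ) (q : ℕ) : pw a b {q} =
    MonoidAlgebra.single q (a q : ℂ) + MonoidAlgebra.single (q ^ 2) (b q : ℂ) := by
  simp [pw]

theorem pw_insert (a b : ℕ → ℝ) (q : ℕ) (S : Finset ℕ) (hq : q ∉ S) :
    pw a b (insert q S) = pw a b {q} + pw a b S := by
  rw [pw_single]
  unfold pw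
  rw [Finset.sum_insert hq]

theorem pe1_nonneg (η : ℝ) (n : ℕ) : 0 ≤ pe1 η n := Real.rpow_nonneg n.cast_nonneg _

theorem Co_one (η : ℝ) : Co (pe1 η) (1 : DA) := by
  intro n
  rw [MonoidAlgebra.one_def, MonoidAlgebra.coeff_single]
  by_cases h : (1 : ℕ) = n
  · refine ⟨1, zero_le_one, ?_, ?_⟩
    · rw [← h]
      simp [pe1]
    · rw [h, Finsupp.single_eq_same]
      simp
  · refine ⟨0, le_rfl, pe1_nonneg η n, ?_⟩
    rw [Finsupp.single_eq_of_ne (Ne.symm h)]
    simp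

theorem Co_of_Mj {f : ℕ → ℝ} {α β : DA} (h : Mj α β) (hβ : Co f β) : Co f α := by
  intro n
  obtain ⟨x, y, h0, h1, h2, h3⟩ := h n
  obtain ⟨z, _, h5, h6⟩ := hβ n
  refine ⟨x, h0, ?_, h2⟩
  have h7 : y = z := by
    rw [h3] at h6
    exact_mod_cast h6
  rw [← h7] at h5
  exact h1.trans h5

end B_CoS

open B_CoS in
/-- CoS. -/
theorem CoS_pf (hL : S_CoL) (hC : S_CoC) (hM : HZB.S_MjL) (hS' : HZB.S_SupL) : S_CoS := by
  obtain ⟨s1, -, -, s4, -, -⟩ := hS'
  obtain ⟨-, -, -, m4, -, m6⟩ := hM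
  intro S l η a b hS hc
  induction S using Finset.induction_on with
  | empty =>
    have e : pw a b ∅ = 0 := by simp [pw]
    rw [e, tx_zero]
    exact Co_one η
  | insert q S hq ih =>
    have hS' : ∀ p ∈ S, p.Prime := fun p hp => hS p (Finset.mem_insert_of_mem hp)
    have hqp : q.Prime := hS q (Finset.mem_insert_self q S)
    have hq1 : ∀ p ∈ ({q} : Finset ℕ), p.Prime := by
      intro p hp
      rw [Finset.mem_singleton] at hp
      rw [hp]
      exact hqp
    have hab : ∀ p, 0 ≤ a p ∧ 0 ≤ b p := fun p => ⟨(hc p).1, (hc p).2.2.1⟩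
    have ih' := ih hS'
    have hdis : Disjoint ({q} : Finset ℕ) S := Finset.disjoint_singleton_left.2 hq
    have h1 := hL q l η (a q) (b q) hqp (hc q).1 (hc q).2.1 (hc q).2.2.1 (hc q).2.2.2
    rw [← pw_single] at h1
    rw [pw_insert a b q S hq]
    refine Co_of_Mj (m6 l 1 (pw a b {q}) (pw a b S) zero_le_one (m4 a b {q} hab)
      (m4 a b S hab)) ?_
    exact hC {q} S η _ _ hdis (s4 _ _ l 1 (s1 {q} a b hq1)) (s4 _ _ l 1 (s1 S a b hS')) h1 ih'

end Pool.Agent.Work.MP_56b8f5_nt.HN
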