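import Pool.Agent.Work.MP_56b8f5_nt.HN.StmtsB

/-!
Block HN, part (III), item CoT: the truncated exponential with an integer exponent is majorised by
the power.
-/

set_option autoImplicit false

open MeasureTheory Set Filter Topology

noncomputable section

namespace Pool.Agent.Work.MP_56b8f5_nt.HN

open Pool.Agent.Work.MP_56b8f5_nt.SH Pool.Agent.Work.MP_56b8f5_nt.HZ Pool.Agent.Work.MP_56b8f5_nt.HZB

namespace B_CoT

theorem tx_smul (l : ℕ) (c : ℝ) (α : DA) : tx l 1 ((c : ℂ) • α) = tx l c α := by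
  unfold tx
  refine Finset.sum_congr rfl fun m _ => ?_
  rw [smul_pow, smul_smul]
  congr 1
  push_cast
  ring

theorem tx_zero (l : ℕ) (α : DA) : tx l 0 α = 1 := by
  unfold tx
  rw [Finset.sum_eq_single 0]
  · simp
  · intro m _ hm
    rw [zero_pow hm, zero_div, Complex.ofReal_zero, zero_smul]
  · intro h
    exact absurd (Finset.mem_range.2 (Nat.succ_pos l)) h

theorem mj_smul (c : ℝ) (hc : 0 ≤ c) (α : DA) (h : Mj α α) :
    Mj ((c : ℂ) • α) ((c : ℂ) • α) := by
  intro n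
  obtain ⟨x, _, h1, _, h3, _⟩ := h n
  have h4 : ((c : ℂ) • α).coeff n = ((c * x : ℝ) : ℂ) := by
    rw [MonoidAlgebra.coeff_smul, Finsupp.smul_apply, h3, smul_eq_mul]
    push_cast
    ring
  exact ⟨c * x, c * x, mul_nonneg hc h1, le_refl _, h4, h4⟩

end B_CoT

open B_CoT in
theorem CoT_pf (hMj : HZB.S_MjL) : S_CoT := by
  obtain ⟨_, htr, hmul, _, htx, hadd⟩ := hMj
  intro l k α hα
  induction k with
  | zero =>
    rw [Nat.cast_zero, tx_zero, pow_zero]
    have h := htx l 0 α le_rfl hα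
    rwa [tx_zero] at h
  | succ k ih =>
    have e1 : tx l ((k + 1 : ℕ) : ℝ) α = tx l 1 ((((k : ℕ) : ℝ) : ℂ) • α + α) := by
      rw [← tx_smul]
      congr 1
      push_cast
      rw [add_smul, one_smul]
    have h1 := hadd l 1 ((((k : ℕ) : ℝ) : ℂ) • α) α zero_le_one
      (mj_smul _ (Nat.cast_nonneg k) α hα) hα
    rw [tx_smul] at h1
    rw [e1, pow_succ]
    exact htr _ _ _ h1 (hmul _ _ _ _ ih (htx l 1 α zero_le_one hα))

end Pool.Agent.Work.MP_56b8f5_nt.HN
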