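import Pool.Agent.Work.MP_56b8f5_nt.HN.StmtsM

/-!
MP_56b8f5_nt, block HN: the final theorem with explicit error terms, uniform in `A`. Interfaces (uniform versions) and the proof of the final
statement.

THEOREM HN+. For every `k ≥ 1` and `C₀ ≥ 400` there are `c > 0`, `C`, `T₀` such that for `T ≥ T₀`, `σ ≤ 3/5` and all `A` with `1 ≤ A ≤ c min((σ-1/2) log T, log T/log log T)`: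
`|∫_{GG T A C₀} |ζ(σ+it)|^{2k} dt - T ∑ d_k(n)² n^{-2σ}| ≤ C e^{-A/200} T ∑ d_k(n)² n^{-2σ}`.
-/

set_option autoImplicit false

open MeasureTheory Set Filter Topology

noncomputable section

namespace Pool.Agent.Work.MP_56b8f5_nt.HN

open Pool.Agent.Work.MP_56b8f5_nt.EM Pool.Agent.Work.MP_56b8f5_nt.WM Pool.Agent.Work.MP_56b8f5_nt.SH
open Pool.Agent.Work.MP_56b8f5_nt.HZ

/-- **PWU, the pointwise inequality, uniform in `A`** (helper61: `HZ.S_PWs`). -/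
def S_PWU : Prop := ∃ c : ℝ → ℕ → ℝ, (∀ x n, 0 ≤ c x n ∧ c x n ≤ 1) ∧ ∀ C₀ : ℝ, 0 ≤ C₀ →
  ∃ m₀ X₀ K : ℝ, 1 ≤ m₀ ∧ 1 ≤ X₀ ∧ 0 ≤ K ∧ ∀ T : ℝ, 100 ≤ T → ∀ A : ℝ, 0 ≤ A → ∀ t ∈ GG T A C₀, ∀ η : ℝ, 0 ≤ η → η ≤ 1 / 8 →
    ∀ x : ℝ, Real.exp X₀ ≤ x → m₀ * (1 + A) * Real.log x ≤ Real.log T →
    ‖riemannZeta (sp η t)‖ ≤
      Real.exp ((Dx (fun n => c x n * (n : ℝ) ^ (-η)) x t).re + K * (Real.log T / Real.log x))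

/-- **HN4, Harper's splitting with constants independent of `b₀`**: as `S_HN3`, the pointwise bound is only used for `x ≤ T^b`. (helper77.) -/
def S_HN4 : Prop := ∀ (k : ℕ) (K : ℝ), 0 ≤ K → ∃ C₂ b₁ T₀ : ℝ, 1 ≤ C₂ ∧ 0 < b₁ ∧ 3 ≤ T₀ ∧
  ∀ T : ℝ, T₀ ≤ T → ∀ b : ℝ, Real.log (Real.log T) / Real.log T ≤ b → b ≤ b₁ → ∀ η : ℝ, 0 ≤ η → η ≤ 1 / 8 →
  ∀ v : ℝ → ℕ → ℝ, (∀ x n, 0 ≤ v x n ∧ v x n ≤ (n : ℝ) ^ (-η)) → ∀ z : ℝ → ℝ, Continuous z → (∀ t, 0 ≤ z t) →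
  ∀ E : Set ℝ, MeasurableSet E → E ⊆ Icc T (2 * T) → HypN v K b T E z →
  ∃ (N' : ℕ) (q : ℕ → ℝ) (F : Set ℝ), IsDk k η T N' q ∧ MeasurableSet F ∧
    (∀ t ∈ E, t ∉ F → z t ^ (2 * k) ≤ Real.exp (C₂ / b) * ‖De N' q t‖ ^ 2) ∧
    ∫ t in E ∩ F, z t ^ (2 * (k + 1)) ≤ C₂ * Real.exp (-(1 / b)) * (T * Real.log T ^ (k + 1) ^ 2)

/-- **MnE, the mean of `‖DN^{k+1}‖²`, explicit** (`S_MnD` with `δ = 2/√T`: `2 (N^{k+1})² ≤ 2 T^{1/50} ≤ 2 √T`). -/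
def S_MnE : Prop := ∀ k : ℕ, ∃ C : ℝ, 1 ≤ C ∧ ∀ T : ℝ, 4 ≤ T → ∀ η : ℝ, 0 < η → η ≤ 1 / 8 →
  ∀ N : ℕ, 1 ≤ N → ((N ^ (k + 1) : ℕ) : ℝ) ^ 100 ≤ T →
  (∫ t in T..(2 * T), ‖DN N η t ^ (k + 1)‖ ^ 2) ≤ (1 + 2 / Real.sqrt T) * (T * SS (k + 1) η) ∧
  (1 - 2 / Real.sqrt T - C * (N : ℝ) ^ (-η)) * (T * SS (k + 1) η) ≤ ∫ t in T..(2 * T), ‖DN N η t ^ (k + 1)‖ ^ 2

/-- **UpE, the upper bound, explicit.** `L = log T`, `X = ηL`, `γ = 1/(100(k+1))`, `β = γ/(4C₂)`, `1/b = min(βX, L/log L)`, `δ = e^{-γX/8}`. Conditions of HN4: `b ≥ log L/L`; `1/b ≥ 1/b₁` since `X ≥ A/c ≥ 1/c`, `c ≤ β b₁`, and `L/log L ≥ 1/b₁` for `T ≥ T₀`. HypN (`z t = ‖ζ(sp η t)‖`,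
`v x n = c x n n^{-η}`, `x ≤ T^b`): PWU, `m₀(1+A) log x ≤ 2 m₀ A b L ≤ L` as `2 m₀ A ≤ 1/b` (`c ≤ β/(2m₀)`, `c ≤ 1/(2m₀)`), `x ≥ log T ≥ e^{X₀}`. DeU with `D = DN N η` (`N` from NNp with `k+1`), `Q = De N' q`, `M = e^{C₂/b} ≤ e^{γX/4}`:
first term `(1+δ)^{2(k+1)} (1+2/√T) T SS ≤ (1 + C e^{-A/200}) T SS` (MnE; `(1+δ)^{2(k+1)} ≤ 1 + 4^{k+1} δ`); second: TwA, `≤ e^{γX/4} 4 e^{γX/4} C T L^{(k+1)²} 2 e^{-γX} ≤ C' X^{(k+1)²} e^{-γX/2} T SS` (`L^{(k+1)²} = X^{(k+1)²} (1/η)^{(k+1)²} ≤ X^{(k+1)²} C SS`); third: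
`C₂ e^{-1/b} T L^{(k+1)²}`, at most `C X^{(k+1)²} e^{-βX} T SS` if `1/b = βX`, at most `C L^{(k+1)²} e^{-L/log L} T SS` if `1/b = L/log L`. All are `≤ C e^{-A/200} T SS`. -/
def S_UpE : Prop := ∀ (k : ℕ) (C₀ : ℝ), 0 ≤ C₀ → ∃ c C T₀ : ℝ, 0 < c ∧ 1 ≤ C ∧ 3 ≤ T₀ ∧
  ∀ T : ℝ, T₀ ≤ T → ∀ η A : ℝ, η ≤ 1 / 8 → 1 ≤ A → A ≤ c * (η * Real.log T) → A ≤ c * (Real.log T / Real.log (Real.log T)) →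
    ∫ t in GG T A C₀, ‖riemannZeta (sp η t)‖ ^ (2 * (k + 1)) ≤ (1 + C * Real.exp (-(A / 200))) * (T * SS (k + 1) η)

/-- **LoE, the lower bound, explicit.** `δ = e^{-γX/8}`, DeL with `D = DN N η`, `E = GG T A C₀`. `(1-δ)^{2(k+1)} ≥ 1 - 2(k+1) δ`; first integral MnE; second: CmN with `q` from Dpw (`k+1`), at most `C e^{-A/200} T SS`
(`GG T A 400 ⊆ GG T A C₀`); third: TwA with `q` from Dpw (`k`), `e^{γX/4} C X^{(k+1)²} 2 e^{-γX} T SS ≤ C e^{-γX/2} T SS`. -/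
def S_LoE : Prop := ∀ (k : ℕ) (C₀ : ℝ), 400 ≤ C₀ → ∃ c C T₀ : ℝ, 0 < c ∧ 1 ≤ C ∧ 3 ≤ T₀ ∧
  ∀ T : ℝ, T₀ ≤ T → ∀ η A : ℝ, η ≤ 1 / 8 → 1 ≤ A → A ≤ c * (η * Real.log T) →
    (1 - C * Real.exp (-(A / 200))) * (T * SS (k + 1) η) ≤ ∫ t in GG T A C₀, ‖riemannZeta (sp η t)‖ ^ (2 * (k + 1))

/-- **HNF, THE FINAL STATEMENT.** From UpE and LoE. -/
def S_HNF : Prop := ∀ k : ℕ, 1 ≤ k → ∀ C₀ : ℝ, 400 ≤ C₀ → ∃ c C T₀ : ℝ, 0 < c ∧ 1 ≤ C ∧ 3 ≤ T₀ ∧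
  ∀ T : ℝ, T₀ ≤ T → ∀ σ A : ℝ, σ ≤ 5 / 8 → 1 ≤ A → A ≤ c * ((σ - 1 / 2) * Real.log T) →
    A ≤ c * (Real.log T / Real.log (Real.log T)) →
    |(∫ t in GG T A C₀, ‖riemannZeta (σ + t * Complex.I)‖ ^ (2 * k)) - T * ∑' n : ℕ, dk k n ^ 2 * (n : ℝ) ^ (-(2 * σ))| ≤
      C * Real.exp (-(A / 200)) * (T * ∑' n : ℕ, dk k n ^ 2 * (n : ℝ) ^ (-(2 * σ)))

end Pool.Agent.Work.MP_56b8f5_nt.HN
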