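import Pool.Agent.Work.MP_56b8f5_nt.HN.StmtsB
import Pool.Agent.Work.MP_56b8f5_nt.HN.StmtsF
import Pool.Agent.Work.MP_56b8f5_nt.HZ.B_HarT

/-!
MP_56b8f5_nt, block HN, part (III): the assembly `S_HN4` (constants independent of `b₀`).
-/

set_option autoImplicit false

open MeasureTheory Set Filter Topology

noncomputable section

namespace Pool.Agent.Work.MP_56b8f5_nt.HN

open Pool.Agent.Work.MP_56b8f5_nt.SH Pool.Agent.Work.MP_56b8f5_nt.HZ Pool.Agent.Work.MP_56b8f5_nt.HZB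

namespace B_HN4

theorem pe_le_one (η : ℝ) (hη : 0 ≤ η) (n : ℕ) : (n : ℝ) ^ (-η) ≤ 1 := by
  rcases Nat.eq_zero_or_pos n with rfl | hn
  · rw [Nat.cast_zero]
    exact Real.zero_rpow_le_one _
  · exact Real.rpow_le_one_of_one_le_of_nonpos (by exact_mod_cast hn) (by linarith)

theorem cf (v : ℝ → ℕ → ℝ) (hv : ∀ x n, 0 ≤ v x n ∧ v x n ≤ 1) (T : ℝ) (l : ℕ) :
    Cf (av v T l) (bv v T l) := by
  intro p
  unfold av bv
  refine ⟨(hv _ _).1, (hv _ _).2, ?_, ?_⟩
  · split_ifs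
    · have := (hv (Real.exp (yv T l)) (p ^ 2)).1
      linarith
    · exact le_rfl
  · split_ifs
    · have := (hv (Real.exp (yv T l)) (p ^ 2)).2
      linarith
    · norm_num

theorem cfe (v : ℝ → ℕ → ℝ) (η : ℝ) (hv : ∀ x n, 0 ≤ v x n ∧ v x n ≤ (n : ℝ) ^ (-η)) (T : ℝ) (l : ℕ) :
    Cfe η (av v T l) (bv v T l) := by
  intro p
  unfold av bv pe1
  refine ⟨(hv _ _).1, (hv _ _).2, ?_, ?_⟩
  · split_ifs
    · have := (hv (Real.exp (yv T l)) (p ^ 2)).1
      linarith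
    · exact le_rfl
  · split_ifs
    · have := (hv (Real.exp (yv T l)) (p ^ 2)).2
      linarith
    · have : 0 ≤ ((p ^ 2 : ℕ) : ℝ) ^ (-η) := Real.rpow_nonneg (Nat.cast_nonneg _) _
      linarith

end B_HN4

open AuxHarT in
theorem HN4_pf (hInt : HZB.S_IntD) (hSp : HZB.S_SpS) (hMer : HZB.S_Mer) (hFst : HZB.S_Fst)
    (hLevB : HZB.S_LevB) (hNmL : HZB.S_NmL) (hNmP : HZB.S_NmP) (hLevU : S_LevU) (hLnQ : S_LnQ)
    (hNmB : S_NmB) (hPwN : S_PwN) (hFbM : S_FbM) (hSpB : S_SpB) (hQDk : S_QDk) : S_HN4 := by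
  intro k K hK
  obtain ⟨C₀, hC₀, hZ⟩ := hPwN
  obtain ⟨C₁, hC₁, hM⟩ := hMer
  have hk0 : (0 : ℝ) ≤ (k : ℝ) := Nat.cast_nonneg k
  obtain ⟨κ, hκd⟩ : ∃ κ : ℝ, κ = (k : ℝ) + 1 := ⟨_, rfl⟩
  have hκ : 0 < κ := by linarith
  obtain ⟨b1, hb1, hb1', hL⟩ := hNmL κ hκ.le
  obtain ⟨b2, hb2, hb2', hS⟩ := hNmB κ K C₁ hκ hK hC₁
  obtain ⟨b3, hb3, hb3', hQ⟩ := hLnQ (k : ℝ) hk0
  obtain ⟨b₁, hb₁, h1, h2, h3⟩ : ∃ b : ℝ, 0 < b ∧ b ≤ b1 ∧ b ≤ b2 ∧ b ≤ b3 :=
    ⟨min b1 (min b2 b3), by positivity, min_le_left _ _, (min_le_right _ _).trans (min_le_left _ _),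
      (min_le_right _ _).trans (min_le_right _ _)⟩
  obtain ⟨T2, hT2⟩ := hFst
  set Y : ℝ := Real.exp (κ ^ 2 * C₁ + Real.exp (3 * κ)) with hY
  set D₁ : ℝ := 2 * k * C₀ + 40 * k * K + 4 with hD₁
  set D₂ : ℝ := Real.exp (2 * κ * C₀) * (Real.exp 4 * 3 * Y) * 8 with hD₂
  have hD₁1 : 1 ≤ D₁ := by
    have : 0 ≤ 2 * (k : ℝ) * C₀ + 40 * k * K := by positivity
    rw [hD₁]; linarith
  have hD₂0 : 0 ≤ D₂ := by rw [hD₂]; positivity
  refine ⟨D₁ + D₂, b₁, max 3 (max (Real.exp (Real.exp 1)) T2), by linarith, hb₁, le_max_left _ _, ?_⟩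
  intro T hT b hlb hbb η hη hη1 v hv z hzc hz0 E hE hET hHyp
  have hTe : Real.exp (Real.exp 1) ≤ T := (le_max_left _ _).trans ((le_max_right _ _).trans hT)
  have hTT2 : T2 ≤ T := (le_max_right _ _).trans ((le_max_right _ _).trans hT)
  have hT3 : 3 ≤ T := (le_max_left _ _).trans hT
  have hBig : Big T := ⟨by linarith, by
    rw [Real.le_log_iff_exp_le (by linarith)]; exact hTe⟩
  have hlog : 0 < Real.log T := (Real.exp_pos 1).trans_le hBig.2
  have hc : 1 ≤ Real.log (Real.log T) := by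
    rw [Real.le_log_iff_exp_le hlog]
    exact hBig.2
  have hb : 0 < b := lt_of_lt_of_le (by positivity) hlb
  have hlgb : Real.log (Real.log T) ≤ b * Real.log T := by
    rwa [div_le_iff₀ hlog] at hlb
  have hb1e : b ≤ 1 := (hbb.trans h1).trans hb1'
  obtain ⟨M, hLev⟩ := hLevU T b hBig hb1e hlgb
  have hTp : 1 ≤ T := hBig.1
  obtain ⟨-, hall, hlt⟩ := hLevB T b M hLev hb1e
  obtain ⟨hL1, hL2⟩ := hL T b M hb (hbb.trans h1) hLev
  have hM1 : 1 ≤ M := hLev.one
  have hv1 : ∀ x n, 0 ≤ v x n ∧ v x n ≤ 1 := fun x n =>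
    ⟨(hv x n).1, (hv x n).2.trans (B_HN4.pe_le_one η hη n)⟩
  have hCf : ∀ (T : ℝ) (l : ℕ), Cf (av v T l) (bv v T l) := fun T l => B_HN4.cf v hv1 T l
  obtain ⟨hs1, hs2, -⟩ := hSp T hBig
  obtain ⟨N', q, hq, hev⟩ := hQDk k M η T (Sp T) (lv k T) (av v T (M - 1)) (bv v T (M - 1)) (yv T) hTp
    (fun i _ => ⟨(hall i).2.1.le, hs1 i⟩) (fun i _ i' _ hii => hs2 i i' hii)
    (B_HN4.cfe v η hv T (M - 1)) (hQ T b M hb (hbb.trans h3) hLev)
  have hpz : ∀ t ∈ E, ∀ l < M, z t ≤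
      Real.exp ((∑ i ∈ Finset.range (l + 1), ev t (Pv v T i l)).re + C₀ + K / be T l) := by
    intro t ht l hl
    exact hZ v hv1 K b T E z hBig hHyp l (hlt l hl).2.1 t ht
  have hSt : ∀ t ∈ E, _ := fun t (ht : t ∈ E) => hSpB v K C₀ T b M t (z t) hLev hb1e
    (fun l _ => hT2 T hTT2 _ _ (hCf T l) t) (hz0 t) (hpz t ht)
  refine ⟨N', q, Fb v T M, hq, hFbM v T M, ?_, ?_⟩
  · -- outside the bad set
    intro t ht htF
    have h4 := (hSt t ht).1 htF (k : ℝ) hk0
    have h5 : z t ^ (2 * k) = z t ^ (2 * (k : ℝ)) := by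
      rw [← Real.rpow_natCast]
      congr 1
      push_cast
      ring
    rw [h5]
    refine h4.trans ?_
    unfold Gt
    rw [Finset.prod_mul_distrib]
    have h6 := hNmP (k : ℝ) T b M hk0 hLev hb1e (M - 1) (by omega)
    have h7 : ∏ i ∈ Finset.range (M - 1 + 1), ‖ev t (tx (lv k T i) k (Pv v T i (M - 1)))‖ ^ 2 =
        ‖De N' q t‖ ^ 2 := by
      rw [← hev t, map_prod, norm_prod, Finset.prod_pow, show M - 1 + 1 = M by omega]
      rfl
    rw [h7]
    have h8 : Real.exp (2 * k * (C₀ + K / be T (M - 1))) * Real.exp 4 ≤ Real.exp ((D₁ + D₂) / b) := by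
      rw [← Real.exp_add]
      refine Real.exp_le_exp.2 ?_
      have h9 := (hall (M - 1)).1
      have h10 : K / be T (M - 1) ≤ 20 * K / b := by
        rw [div_le_div_iff₀ h9 hb]
        have h5 := hLev.lo
        nlinarith
      have h11 : 2 * k * (C₀ + K / be T (M - 1)) + 4 ≤ 2 * k * (C₀ + 20 * K / b) + 4 := by
        have := mul_le_mul_of_nonneg_left (add_le_add_right h10 C₀) (by positivity : 0 ≤ 2 * (k : ℝ))
        linarith
      refine h11.trans ?_
      rw [le_div_iff₀ hb]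
      have h12 : (2 * k * (C₀ + 20 * K / b) + 4) * b = 2 * k * C₀ * b + 40 * k * K + 4 * b := by
        field_simp
        ring
      rw [h12, hD₁]
      have h13 : 2 * k * C₀ * b ≤ 2 * k * C₀ := mul_le_of_le_one_right (by positivity) hb1e
      linarith
    calc Real.exp (2 * k * (C₀ + K / be T (M - 1))) *
          ((∏ i ∈ Finset.range (M - 1 + 1), (1 + 2 * Real.exp (-(lv k T i : ℝ))) ^ 2) * ‖De N' q t‖ ^ 2)
        ≤ Real.exp (2 * k * (C₀ + K / be T (M - 1))) * (Real.exp 4 * ‖De N' q t‖ ^ 2) := by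
          gcongr
      _ = (Real.exp (2 * k * (C₀ + K / be T (M - 1))) * Real.exp 4) * ‖De N' q t‖ ^ 2 := by ring
      _ ≤ _ := by gcongr
  -- the bad set
  set H : ℝ → ℝ := fun t =>
    ∑ j ∈ Finset.range (M - 1), ∑ l ∈ Finset.Ico (j + 1) M,
      (Vv T (j + 1) ^ (2 * nv T (j + 1)))⁻¹ *
        (Gt v κ K C₀ T j t * ‖ev t (Pv v T (j + 1) l)‖ ^ (2 * nv T (j + 1))) with hH
  have hHc : Continuous H := by
    rw [hH]
    refine continuous_finset_sum _ fun j _ => continuous_finset_sum _ fun l _ => ?_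
    exact continuous_const.mul ((continuous_Gt v κ K C₀ T j).mul ((continuous_ev _).norm.pow _))
  have hH0 : ∀ t, 0 ≤ H t := by
    intro t
    rw [hH]
    refine Finset.sum_nonneg fun j _ => Finset.sum_nonneg fun l _ => ?_
    have := (hall (j + 1)).2.2.2.2
    exact mul_nonneg (by positivity) (mul_nonneg (Gt_nonneg v κ K C₀ T j t) (by positivity))
  have hpt : ∀ t ∈ E ∩ Fb v T M, z t ^ (2 * (k + 1)) ≤ H t := by
    intro t ht
    have h4 := (hSt t ht.1).2 ht.2 κ hκ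
    have h5 : z t ^ (2 * (k + 1)) = z t ^ (2 * κ) := by
      rw [← Real.rpow_natCast, hκd]
      congr 1
      push_cast
      ring
    rw [h5]
    refine h4.trans (le_of_eq ?_)
    rw [hH]
    refine Finset.sum_congr rfl fun j _ => Finset.sum_congr rfl fun l _ => ?_
    rw [div_pow]
    ring
  have hEF : MeasurableSet (E ∩ Fb v T M) := hE.inter (hFbM v T M)
  have hEFT : E ∩ Fb v T M ⊆ Icc T (2 * T) := inter_subset_left.trans hET
  have hzcc : Continuous fun t : ℝ => z t ^ (2 * (k + 1)) := hzc.pow _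
  have hTle : T ≤ 2 * T := by linarith
  have hint1 : IntegrableOn (fun t : ℝ => z t ^ (2 * (k + 1))) (E ∩ Fb v T M) :=
    (hzcc.continuousOn.integrableOn_compact isCompact_Icc).mono_set hEFT
  have hint2 : IntegrableOn H (Icc T (2 * T)) :=
    hHc.continuousOn.integrableOn_compact isCompact_Icc
  have hstep1 : ∫ t in E ∩ Fb v T M, z t ^ (2 * (k + 1)) ≤ ∫ t in T..(2 * T), H t := by
    calc ∫ t in E ∩ Fb v T M, z t ^ (2 * (k + 1)) ≤ ∫ t in E ∩ Fb v T M, H t :=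
          setIntegral_mono_on hint1 (hint2.mono_set hEFT) hEF hpt
      _ ≤ ∫ t in Icc T (2 * T), H t :=
          setIntegral_mono_set hint2 (ae_of_all _ hH0) (HasSubset.Subset.eventuallyLE hEFT)
      _ = ∫ t in T..(2 * T), H t := by
          rw [intervalIntegral.integral_of_le hTle, integral_Icc_eq_integral_Ioc]
  have hstep2 : ∫ t in T..(2 * T), H t =
      ∑ j ∈ Finset.range (M - 1), ∑ l ∈ Finset.Ico (j + 1) M,
        (Vv T (j + 1) ^ (2 * nv T (j + 1)))⁻¹ *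
          ∫ t in T..(2 * T), Gt v κ K C₀ T j t * ‖ev t (Pv v T (j + 1) l)‖ ^ (2 * nv T (j + 1)) := by
    rw [hH]
    rw [intervalIntegral.integral_finset_sum]
    · refine Finset.sum_congr rfl fun j _ => ?_
      rw [intervalIntegral.integral_finset_sum]
      · refine Finset.sum_congr rfl fun l _ => ?_
        rw [intervalIntegral.integral_const_mul]
      · intro l _
        exact (continuous_const.mul ((continuous_Gt v κ K C₀ T j).mul
          ((continuous_ev _).norm.pow _))).intervalIntegrable _ _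
    · intro j _
      exact (continuous_finset_sum _ fun l _ => continuous_const.mul
        ((continuous_Gt v κ K C₀ T j).mul ((continuous_ev _).norm.pow _))).intervalIntegrable _ _
  set X : ℝ := Real.exp (κ ^ 2 * (Real.log (Real.log T) + C₁) + Real.exp (3 * κ)) with hX
  have hXe : X = Y * Real.log T ^ (k + 1) ^ 2 := by
    rw [hX, hY]
    have e1 : Real.log T ^ (k + 1) ^ 2 = Real.exp (κ ^ 2 * Real.log (Real.log T)) := by
      rw [← Real.rpow_natCast, Real.rpow_def_of_pos hlog, hκd]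
      congr 1
      push_cast
      ring
    rw [e1, ← Real.exp_add]
    congr 1
    ring
  have hoth : ∑ j ∈ Finset.range (M - 1), ∑ l ∈ Finset.Ico (j + 1) M,
        (Vv T (j + 1) ^ (2 * nv T (j + 1)))⁻¹ *
          ∫ t in T..(2 * T), Gt v κ K C₀ T j t * ‖ev t (Pv v T (j + 1) l)‖ ^ (2 * nv T (j + 1)) ≤
      Real.exp (2 * κ * C₀) * (Real.exp 4 * (3 * T * X)) * (8 * Real.exp (-(1 / b))) := by
    have h1 := hS T b M hb (hbb.trans h2) hLev
    have h0 : 0 ≤ Real.exp (2 * κ * C₀) * (Real.exp 4 * (3 * T * X)) := by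
      have : 0 ≤ 3 * T := by linarith
      positivity
    refine le_trans ?_ (mul_le_mul_of_nonneg_left h1 h0)
    rw [Finset.mul_sum]
    refine Finset.sum_le_sum fun j hj => ?_
    rw [Finset.mul_sum]
    refine Finset.sum_le_sum fun l _ => ?_
    rw [Finset.mem_range] at hj
    have h2 := intG hInt hSp hNmP hM hLevB hCf (C₀ := C₀) (K := K) hκ hLev hb1e j (nv T (j + 1)) l
      (by omega) (by
        have h3 := hL1 (j + 1) (by omega)
        have h4 := hL2 (j + 1) (by omega)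
        linarith)
    have hV : 0 < Vv T (j + 1) := (hall (j + 1)).2.2.2.2
    refine (mul_le_mul_of_nonneg_left h2 (by positivity)).trans ?_
    obtain ⟨-, hm2, -⟩ := hM T hBig
    have hse : 0 ≤ se (Sp T (j + 1)) := by
      unfold se
      exact Finset.sum_nonneg fun p _ => by positivity
    have h5 : se (Sp T (j + 1)) ^ nv T (j + 1) ≤ C₁ ^ nv T (j + 1) :=
      pow_le_pow_left₀ hse (hm2 (j + 1) (by omega)) _
    have h6 : (2 * 4 ^ nv T (j + 1) * ((nv T (j + 1)).factorial * se (Sp T (j + 1)) ^ nv T (j + 1)) : ℝ)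
        ≤ 2 * 4 ^ nv T (j + 1) * ((nv T (j + 1)).factorial * C₁ ^ nv T (j + 1)) := by
      gcongr
    have h7 : 0 ≤ Real.exp (2 * κ * (C₀ + K / be T j)) * (Real.exp 4 * (3 * T * X)) := by
      have : 0 ≤ 3 * T := by linarith
      positivity
    have h8 := mul_le_mul_of_nonneg_left h6 h7
    refine (mul_le_mul_of_nonneg_left h8 (by positivity)).trans (le_of_eq ?_)
    have h9 : Real.exp (2 * κ * (C₀ + K / be T j)) =
        Real.exp (2 * κ * C₀) * Real.exp (2 * κ * (K / be T j)) := by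
      rw [← Real.exp_add]; congr 1; ring
    rw [h9]
    ring
  refine hstep1.trans ?_
  rw [hstep2]
  refine hoth.trans ?_
  rw [hXe]
  have h20 : Real.exp (2 * κ * C₀) * (Real.exp 4 * (3 * T * (Y * Real.log T ^ (k + 1) ^ 2))) *
      (8 * Real.exp (-(1 / b))) = D₂ * Real.exp (-(1 / b)) * (T * Real.log T ^ (k + 1) ^ 2) := by
    rw [hD₂]
    ring
  rw [h20]
  have h21 : 0 ≤ Real.exp (-(1 / b)) * (T * Real.log T ^ (k + 1) ^ 2) := by positivity
  have h22 : D₂ ≤ D₁ + D₂ := by linarith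
  calc D₂ * Real.exp (-(1 / b)) * (T * Real.log T ^ (k + 1) ^ 2)
      = D₂ * (Real.exp (-(1 / b)) * (T * Real.log T ^ (k + 1) ^ 2)) := by ring
    _ ≤ (D₁ + D₂) * (Real.exp (-(1 / b)) * (T * Real.log T ^ (k + 1) ^ 2)) :=
        mul_le_mul_of_nonneg_right h22 h21
    _ = _ := by ring

end Pool.Agent.Work.MP_56b8f5_nt.HN
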