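import Pool.Agent.Work.MP_56b8f5_nt.HN.StmtsB
import Pool.Agent.Work.MP_56b8f5_nt.HZ.B_LevE
import Pool.Agent.Work.MP_56b8f5_nt.HZ.B_Spl
import Pool.Agent.Work.MP_56b8f5_nt.HZ.B_HarT

/-!
MP_56b8f5_nt, block HN, part (III), items LnQ, LevU, NmB, FbM, SpB.
-/

set_option autoImplicit false

open MeasureTheory Set Filter Topology

noncomputable section

namespace Pool.Agent.Work.MP_56b8f5_nt.HN

open Pool.Agent.Work.MP_56b8f5_nt.SH Pool.Agent.Work.MP_56b8f5_nt.HZ Pool.Agent.Work.MP_56b8f5_nt.HZB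

theorem LnQ_pf (hNmL : HZB.S_NmL) (hLevB : HZB.S_LevB) : S_LnQ := by
  intro k hk
  obtain ⟨b₁, hb₁, hb₁1, hL⟩ := hNmL (55 / 2 * (k + 1) - 1) (by linarith)
  refine ⟨b₁, hb₁, hb₁1, ?_⟩
  intro T b M hb hbb hLev
  have h1 := (hL T b M hb hbb hLev).1 M le_rfl
  obtain ⟨hlog, hall, hlt⟩ := hLevB T b M hLev (hbb.trans hb₁1)
  have h2 : ∑ i ∈ Finset.range M, 2 * (lv k T i : ℝ) * yv T i ≤
      (1 / 25) * ∑ i ∈ Finset.range M, 2 * (lv (55 / 2 * (k + 1) - 1) T i : ℝ) * yv T i := by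
    rw [Finset.mul_sum]
    refine Finset.sum_le_sum fun i hi => ?_
    have hV : 1 ≤ Vv T i := (hlt i (Finset.mem_range.1 hi)).2.2.1
    have hy : 0 < yv T i := (hall i).2.1
    have h3 : (lv k T i : ℝ) ≤ 11 * (k + 1) * Vv T i := by
      have h4 : (lv k T i : ℝ) < 10 * (k + 1) * Vv T i + 1 := by
        unfold lv
        exact Nat.ceil_lt_add_one (by positivity)
      have h5 : 1 ≤ (k + 1) * Vv T i := by nlinarith
      linarith
    have h6 : 10 * (55 / 2 * (k + 1) - 1 + 1) * Vv T i ≤ (lv (55 / 2 * (k + 1) - 1) T i : ℝ) := by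
      unfold lv
      exact Nat.le_ceil _
    have h7 : (lv k T i : ℝ) ≤ (1 / 25) * (lv (55 / 2 * (k + 1) - 1) T i : ℝ) := by
      linarith
    calc 2 * (lv k T i : ℝ) * yv T i ≤ 2 * ((1 / 25) * (lv (55 / 2 * (k + 1) - 1) T i : ℝ)) * yv T i := by
          gcongr
      _ = (1 / 25) * (2 * (lv (55 / 2 * (k + 1) - 1) T i : ℝ) * yv T i) := by ring
  linarith

theorem LevU_pf : S_LevU := by
  intro T b hBig hb1 hlgb
  obtain ⟨h1, h2⟩ := hBig
  have hL : 0 < Real.log T := (Real.exp_pos 1).trans_le h2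
  have hc : 1 ≤ Real.log (Real.log T) := by
    rw [Real.le_log_iff_exp_le hL]
    exact h2
  obtain ⟨n, h4, h5⟩ := AuxLevE.first _ _ hc hlgb
  refine ⟨n + 1, ⟨by omega, ⟨h1, h2⟩, ?_, ?_⟩⟩
  · rw [Nat.add_sub_cancel]
    unfold be yv
    rw [div_le_iff₀ hL]
    exact h4
  · rw [Nat.add_sub_cancel]
    unfold be yv
    rw [le_div_iff₀ hL]
    rw [pow_succ] at h5
    linarith

theorem NmB_pf (hNmS : HZB.S_NmS) (hLevB : HZB.S_LevB) : S_NmB := by
  intro k K C₁ hk hK hC₁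
  have hK' : 0 ≤ K + 1 / (40 * k) := by positivity
  obtain ⟨b₁, hb₁, hb₁1, hS⟩ := hNmS k (K + 1 / (40 * k)) C₁ hk.le hK' hC₁
  refine ⟨b₁, hb₁, hb₁1, ?_⟩
  intro T b M hb hbb hLev
  have h1 := hS T b M hb hbb hLev
  obtain ⟨hlog, hall, hlt⟩ := hLevB T b M hLev (hbb.trans hb₁1)
  have h2 : Real.exp (1 / b) * ∑ j ∈ Finset.range (M - 1), ∑ _l ∈ Finset.Ico (j + 1) M,
      Real.exp (2 * k * (K / be T j)) *
      (2 * 4 ^ nv T (j + 1) * ((nv T (j + 1)).factorial * C₁ ^ nv T (j + 1)) /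
        Vv T (j + 1) ^ (2 * nv T (j + 1))) ≤
      ∑ j ∈ Finset.range (M - 1), ∑ _l ∈ Finset.Ico (j + 1) M,
      Real.exp (2 * k * ((K + 1 / (40 * k)) / be T j)) *
      (2 * 4 ^ nv T (j + 1) * ((nv T (j + 1)).factorial * C₁ ^ nv T (j + 1)) /
        Vv T (j + 1) ^ (2 * nv T (j + 1))) := by
    rw [Finset.mul_sum]
    refine Finset.sum_le_sum fun j hj => ?_
    rw [Finset.mul_sum]
    refine Finset.sum_le_sum fun l _ => ?_
    have hj' := Finset.mem_range.1 hj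
    have hβ : 0 < be T j := (hall j).1
    have hβ2 : be T (j + 1) = 20 * be T j := (hall j).2.2.2.1
    have hβb : be T (j + 1) ≤ b := (hlt (j + 1) (by omega)).2.1
    have hV : 0 < Vv T (j + 1) := (hall (j + 1)).2.2.2.2
    rw [← mul_assoc, ← Real.exp_add]
    refine mul_le_mul_of_nonneg_right (Real.exp_le_exp.2 ?_) (by positivity)
    have e1 : 2 * k * ((K + 1 / (40 * k)) / be T j) = 1 / (20 * be T j) + 2 * k * (K / be T j) := by
      field_simp
      ring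
    rw [e1, ← hβ2]
    have e2 : 1 / b ≤ 1 / be T (j + 1) := one_div_le_one_div_of_le (by rw [hβ2]; positivity) hβb
    linarith
  rw [Real.exp_neg, ← div_eq_mul_inv, le_div_iff₀ (Real.exp_pos _), mul_comm]
  exact h2.trans h1

theorem FbM_pf : S_FbM := by
  intro v T M
  unfold Fb
  have h1 : {t : ℝ | ∃ j, j + 1 < M ∧ ∃ l, j + 1 ≤ l ∧ l < M ∧ Vv T (j + 1) < ‖ev t (Pv v T (j + 1) l)‖} =
      ⋃ j : ℕ, ⋃ l : ℕ, {t : ℝ | j + 1 < M ∧ j + 1 ≤ l ∧ l < M ∧ Vv T (j + 1) < ‖ev t (Pv v T (j + 1) l)‖} := by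
    ext t
    simp only [mem_ofPred_eq, mem_iUnion]
    constructor
    · rintro ⟨j, hj, l, h2, h3, h4⟩
      exact ⟨j, l, hj, h2, h3, h4⟩
    · rintro ⟨j, l, hj, h2, h3, h4⟩
      exact ⟨j, hj, l, h2, h3, h4⟩
  rw [h1]
  refine MeasurableSet.iUnion fun j => MeasurableSet.iUnion fun l => ?_
  have h2 : MeasurableSet {t : ℝ | Vv T (j + 1) < ‖ev t (Pv v T (j + 1) l)‖} :=
    measurableSet_lt measurable_const (AuxHarT.continuous_ev _).norm.measurable
  by_cases h3 : j + 1 < M ∧ j + 1 ≤ l ∧ l < M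
  · have h4 : {t : ℝ | j + 1 < M ∧ j + 1 ≤ l ∧ l < M ∧ Vv T (j + 1) < ‖ev t (Pv v T (j + 1) l)‖} =
        {t : ℝ | Vv T (j + 1) < ‖ev t (Pv v T (j + 1) l)‖} := by
      ext t
      simp only [mem_ofPred_eq]
      exact ⟨fun h => h.2.2.2, fun h => ⟨h3.1, h3.2.1, h3.2.2, h⟩⟩
    rw [h4]
    exact h2
  · have h4 : {t : ℝ | j + 1 < M ∧ j + 1 ≤ l ∧ l < M ∧ Vv T (j + 1) < ‖ev t (Pv v T (j + 1) l)‖} = ∅ := by
      ext t
      simp only [mem_ofPred_eq, mem_empty_iff_false, iff_false]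
      exact fun h => h3 ⟨h.1, h.2.1, h.2.2.1⟩
    rw [h4]
    exact MeasurableSet.empty

theorem SpB_pf (hE : HZB.S_EvT) (hB : HZB.S_LevB) (hT : HZB.S_Tay) : S_SpB := by
  classical
  intro v K C₀ T b M t z hL hb h0 hz hzl
  have hM : 1 ≤ M := hL.one
  obtain ⟨-, hB2, -⟩ := hB T b M hL hb
  constructor
  · intro hF k hk
    rcases hk.eq_or_lt with hk0 | hk0
    · subst hk0
      have h1 : z ^ (2 * (0 : ℝ)) = 1 := by simp
      rw [h1]
      unfold Gt
      have h2 : ∀ i, ev t (tx (lv 0 T i) 0 (Pv v T i (M - 1))) = 1 := by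
        intro i
        rw [hE]
        unfold TE
        rw [Finset.sum_eq_single 0]
        · simp
        · intro m _ hm
          simp [hm]
        · intro h
          exact absurd (Finset.mem_range.2 (Nat.succ_pos _)) h
      have h3 : Real.exp (2 * 0 * (C₀ + K / be T (M - 1))) = 1 := by simp
      rw [h3, one_mul]
      have h4 : ∏ i ∈ Finset.range (M - 1 + 1), (1 : ℝ) ≤ ∏ i ∈ Finset.range (M - 1 + 1),
          ((1 + 2 * Real.exp (-(lv 0 T i : ℝ))) ^ 2 *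
          ‖ev t (tx (lv 0 T i) 0 (Pv v T i (M - 1)))‖ ^ 2) := by
        refine Finset.prod_le_prod (fun i _ => zero_le_one) (fun i _ => ?_)
        rw [h2]
        simp only [norm_one, one_pow, mul_one]
        have := Real.exp_pos (-(lv 0 T i : ℝ))
        exact one_le_pow₀ (by linarith)
      rwa [Finset.prod_const_one] at h4
    · refine AuxSpl.main hE hB hT v k K C₀ T b M t z hk0 hL hb hz hzl (M - 1) (by omega) ?_
      intro i hi
      rcases i with _ | i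
      · exact h0 (M - 1) (by omega)
      · by_contra hc
        exact hF ⟨i, by omega, M - 1, hi, by omega, not_le.1 hc⟩
  · intro hbad k hk
    have hG := AuxSpl.Gt_nonneg v k K C₀ T
    have hterm : ∀ j l, 0 ≤ Gt v k K C₀ T j t *
        (‖ev t (Pv v T (j + 1) l)‖ / Vv T (j + 1)) ^ (2 * nv T (j + 1)) := by
      intro j l
      have hV : 0 < Vv T (j + 1) := (hB2 (j + 1)).2.2.2.2
      exact mul_nonneg (hG j t) (by positivity)
    have hbad' : ∃ j, j + 1 < M ∧ ∃ l, j + 1 ≤ l ∧ l < M ∧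
      Vv T (j + 1) < ‖ev t (Pv v T (j + 1) l)‖ := hbad
    obtain ⟨hj1, l, hl1, hl2, hl3⟩ := Nat.find_spec hbad'
    have hmin := fun m (hm : m < Nat.find hbad') => Nat.find_min hbad' hm
    generalize Nat.find hbad' = j at hj1 hl1 hl2 hl3 hmin
    have h1 : z ^ (2 * k) ≤ Gt v k K C₀ T j t := by
      refine AuxSpl.main hE hB hT v k K C₀ T b M t z hk hL hb hz hzl j (by omega) ?_
      intro i hi
      rcases i with _ | i
      · exact h0 j (by omega)
      · by_contra hc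
        exact hmin i (by omega) ⟨by omega, j, hi, by omega, not_le.1 hc⟩
    have hV : 0 < Vv T (j + 1) := (hB2 (j + 1)).2.2.2.2
    have h2 : 1 ≤ (‖ev t (Pv v T (j + 1) l)‖ / Vv T (j + 1)) ^ (2 * nv T (j + 1)) :=
      one_le_pow₀ ((one_le_div hV).2 hl3.le)
    have h3 : Gt v k K C₀ T j t ≤ Gt v k K C₀ T j t *
        (‖ev t (Pv v T (j + 1) l)‖ / Vv T (j + 1)) ^ (2 * nv T (j + 1)) :=
      le_mul_of_one_le_right (hG j t) h2
    have h4 : Gt v k K C₀ T j t *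
        (‖ev t (Pv v T (j + 1) l)‖ / Vv T (j + 1)) ^ (2 * nv T (j + 1)) ≤
        ∑ l ∈ Finset.Ico (j + 1) M, Gt v k K C₀ T j t *
          (‖ev t (Pv v T (j + 1) l)‖ / Vv T (j + 1)) ^ (2 * nv T (j + 1)) :=
      Finset.single_le_sum (f := fun l => Gt v k K C₀ T j t *
          (‖ev t (Pv v T (j + 1) l)‖ / Vv T (j + 1)) ^ (2 * nv T (j + 1)))
        (fun l _ => hterm j l) (Finset.mem_Ico.2 ⟨hl1, hl2⟩)
    have h5 : ∑ l ∈ Finset.Ico (j + 1) M, Gt v k K C₀ T j t *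
          (‖ev t (Pv v T (j + 1) l)‖ / Vv T (j + 1)) ^ (2 * nv T (j + 1)) ≤
        ∑ j ∈ Finset.range (M - 1), ∑ l ∈ Finset.Ico (j + 1) M, Gt v k K C₀ T j t *
          (‖ev t (Pv v T (j + 1) l)‖ / Vv T (j + 1)) ^ (2 * nv T (j + 1)) :=
      Finset.single_le_sum (f := fun j => ∑ l ∈ Finset.Ico (j + 1) M, Gt v k K C₀ T j t *
          (‖ev t (Pv v T (j + 1) l)‖ / Vv T (j + 1)) ^ (2 * nv T (j + 1)))
        (fun j _ => Finset.sum_nonneg fun l _ => hterm j l) (Finset.mem_range.2 (by omega))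
    linarith

end Pool.Agent.Work.MP_56b8f5_nt.HN
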