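import Pool.Agent.Work.MP_56b8f5_nt.HN.StmtsB
import Pool.Agent.Work.MP_56b8f5_nt.HZ.B_PwZ

/-!
Item PwN of the block HN (helper59): from the hypothesis to the levels, for an abstract function `z`
(copy of `HZ/B_PwZ.lean`; the auxiliary lemmas there are used).
-/

set_option autoImplicit false

open MeasureTheory Set Filter Topology

noncomputable section

namespace Pool.Agent.Work.MP_56b8f5_nt.HN

open Pool.Agent.Work.MP_56b8f5_nt.SH Pool.Agent.Work.MP_56b8f5_nt.HZ Pool.Agent.Work.MP_56b8f5_nt.HZB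

open Pool.Agent.Work.MP_56b8f5_nt.HZB.AuxPwZ in
theorem PwN_pf (h : S_SpS) : S_PwN := by
  classical
  refine ⟨CC, CC_nonneg, fun v hv => ?_⟩
  intro K b₀ T E z hT hE l hl t ht
  obtain ⟨hS1, hS2, hS3⟩ := h T hT
  have hL1 : Real.exp 1 ≤ Real.log T := hT.2
  have hL0 : 0 < Real.log T := lt_of_lt_of_le (Real.exp_pos 1) hL1
  have hT0 : 0 < T := lt_of_lt_of_le one_pos hT.1
  have hLL : 1 ≤ Real.log (Real.log T) := by
    rw [Real.le_log_iff_exp_le hL0]
    exact hL1
  have hy0 : Real.log (Real.log T) ≤ yv T l := by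
    unfold yv
    have : (1 : ℝ) ≤ 20 ^ l := one_le_pow₀ (by norm_num)
    nlinarith
  have hypos : 0 < yv T l := by linarith
  set x : ℝ := Real.exp (yv T l) with hx
  have hx0 : 0 < x := Real.exp_pos _
  have hx1 : Real.log T ≤ x := by
    rw [hx, ← Real.exp_log hL0]
    exact Real.exp_le_exp.mpr hy0
  have hx2 : x ≤ T ^ b₀ := by
    rw [hx, Real.rpow_def_of_pos hT0]
    apply Real.exp_le_exp.mpr
    unfold be at hl
    rw [div_le_iff₀ hL0] at hl
    linarith
  have hlogx : Real.log x = yv T l := Real.log_exp _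
  have hmain := hE t ht x hx1 hx2
  refine hmain.trans (Real.exp_le_exp.mpr ?_)
  have hbe : K * (Real.log T / Real.log x) = K / be T l := by
    rw [hlogx, be, div_div_eq_mul_div, mul_div_assoc]
  rw [hbe]
  set g : ℕ → ℂ := fun n =>
    ((ArithmeticFunction.vonMangoldt n / Real.log n * v x n : ℝ) : ℂ) * chi t n with hg
  set N : ℕ := ⌊x⌋₊ with hN
  have hg0 : ∀ n, ¬ IsPrimePow n → g n = 0 := by
    intro n hn
    have e1 : ArithmeticFunction.vonMangoldt n = 0 :=
      ArithmeticFunction.vonMangoldt_eq_zero_iff.mpr hn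
    simp only [hg, e1, zero_div, zero_mul, Complex.ofReal_zero]
  have hg1 : ∀ n, 0 < n → ‖g n‖ ≤ (n : ℝ) ^ (-(1 / 2) : ℝ) := by
    intro n hn
    have e1 := lam_le n
    have e2 := hv x n
    have e3 : 0 ≤ ArithmeticFunction.vonMangoldt n / Real.log n * v x n :=
      mul_nonneg e1.1 e2.1
    have e4 : ArithmeticFunction.vonMangoldt n / Real.log n * v x n ≤ 1 :=
      mul_le_one₀ e1.2 e2.1 e2.2
    rw [hg]
    change ‖((ArithmeticFunction.vonMangoldt n / Real.log n * v x n : ℝ) : ℂ) * chi t n‖ ≤ _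
    rw [norm_mul, norm_chi t n hn, Complex.norm_real, Real.norm_of_nonneg e3]
    exact mul_le_of_le_one_left (Real.rpow_nonneg (Nat.cast_nonneg n) _) e4
  have hsplit := split N g hg0 hg1
  have hfil : ∑ p ∈ (Finset.Icc 1 N).filter Nat.Prime,
      (g p + if p ^ 2 ≤ N then g (p ^ 2) else 0) =
      ∑ i ∈ Finset.range (l + 1), ev t (Pv v T i l) := by
    have hU : (Finset.Icc 1 N).filter Nat.Prime =
        (Finset.range (l + 1)).biUnion (Sp T) := by
      ext p
      rw [Finset.mem_filter, Finset.mem_Icc, Finset.mem_biUnion]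
      constructor
      · rintro ⟨⟨_, hp2⟩, hp⟩
        have e1 : Real.log p ≤ yv T l := by
          rw [Real.log_le_iff_le_exp (by exact_mod_cast hp.pos)]
          exact (Nat.le_floor_iff hx0.le).mp hp2
        obtain ⟨i, hi, hpi⟩ := (hS3 l p hp).mp e1
        exact ⟨i, Finset.mem_range.mpr (by omega), hpi⟩
      · rintro ⟨i, hi, hpi⟩
        have hp : p.Prime := (hS1 i p hpi).1
        have e1 : Real.log p ≤ yv T l :=
          (hS3 l p hp).mpr ⟨i, by rw [Finset.mem_range] at hi; omega, hpi⟩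
        refine ⟨⟨hp.pos, ?_⟩, hp⟩
        rw [hN, Nat.le_floor_iff hx0.le]
        rwa [Real.log_le_iff_le_exp (by exact_mod_cast hp.pos)] at e1
    rw [hU, Finset.sum_biUnion (fun i _ j _ hij => hS2 i j hij)]
    refine Finset.sum_congr rfl fun i _ => ?_
    unfold Pv pw
    rw [map_sum]
    refine Finset.sum_congr rfl fun p hp => ?_
    have hpr : p.Prime := (hS1 i p hp).1
    have hlogp : 0 < Real.log p := Real.log_pos (by exact_mod_cast hpr.one_lt)
    have hev : ∀ (n : ℕ) (c : ℂ), ev t (MonoidAlgebra.single n c) = c * chi t n := by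
      intro n c
      unfold ev
      rw [MonoidAlgebra.lift_single, smul_eq_mul]
    rw [map_add, hev, hev]
    congr 1
    · have e1 : ArithmeticFunction.vonMangoldt p = Real.log p :=
        ArithmeticFunction.vonMangoldt_apply_prime hpr
      simp only [hg, e1, av]
      rw [div_self hlogp.ne', one_mul]
    · have e2 : p ^ 2 ≤ N ↔ (p : ℝ) ^ 2 ≤ Real.exp (yv T l) := by
        rw [hN, Nat.le_floor_iff hx0.le, Nat.cast_pow]
      unfold bv
      by_cases hc : (p : ℝ) ^ 2 ≤ Real.exp (yv T l)
      · rw [if_pos (e2.mpr hc), if_pos hc]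
        have e3 : ArithmeticFunction.vonMangoldt (p ^ 2) = Real.log p := by
          rw [ArithmeticFunction.vonMangoldt_apply_pow two_ne_zero,
            ArithmeticFunction.vonMangoldt_apply_prime hpr]
        have e4 : Real.log ((p ^ 2 : ℕ) : ℝ) = 2 * Real.log p := by
          rw [Nat.cast_pow, Real.log_pow]
          norm_num
        simp only [hg, e3, e4]
        congr 2
        rw [hx]
        field_simp
      · rw [if_neg (fun h' => hc (e2.mp h')), if_neg hc]
        simp
  rw [hfil] at hsplit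
  have hre := (Complex.abs_re_le_norm _).trans hsplit
  rw [Complex.sub_re] at hre
  have := (abs_le.mp hre).2
  linarith

end Pool.Agent.Work.MP_56b8f5_nt.HN
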