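import Pool.Agent.Work.MP_56b8f5_nt.HN.StmtsB

/-!
MP_56b8f5_nt, block HN, part (III), item QDk (helper63): the Dirichlet polynomial of the splitting.
-/

set_option autoImplicit false

open MeasureTheory Set Filter Topology

noncomputable section

namespace Pool.Agent.Work.MP_56b8f5_nt.HN

open Pool.Agent.Work.MP_56b8f5_nt.SH Pool.Agent.Work.MP_56b8f5_nt.HZ Pool.Agent.Work.MP_56b8f5_nt.HZB

namespace B_QDk

/-- majorants of products over a range -/
theorem mj_prod (hm : ∀ α β γ δ : DA, Mj α β → Mj γ δ → Mj (α * γ) (β * δ)) (f g : ℕ → DA) (M : ℕ)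
    (h : ∀ i < M, Mj (f i) (g i)) :
    Mj (∏ i ∈ Finset.range M, f i) (∏ i ∈ Finset.range M, g i) := by
  induction M with
  | zero =>
    rw [Finset.prod_range_zero, Finset.prod_range_zero]
    intro n
    classical
    rw [MonoidAlgebra.one_def, MonoidAlgebra.coeff_single, Finsupp.single_apply]
    split_ifs
    · exact ⟨1, 1, zero_le_one, le_rfl, by simp, by simp⟩
    · exact ⟨0, 0, le_rfl, le_rfl, by simp, by simp⟩
  | succ M ih =>
    rw [Finset.prod_range_succ, Finset.prod_range_succ]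
    exact hm _ _ _ _ (ih fun i hi => h i (Nat.lt_succ_of_lt hi)) (h M (Nat.lt_succ_self M))

/-- a polynomial majorised by one with bounded coefficients has bounded coefficients -/
theorem co_of_mj {f : ℕ → ℝ} {α β : DA} (h : Mj α β) (hβ : Co f β) : Co f α := by
  intro n
  obtain ⟨x, y, h0, hxy, hx, hy⟩ := h n
  obtain ⟨z, hz0, hz, hz'⟩ := hβ n
  have h1 : y = z := by
    have h2 : (y : ℂ) = (z : ℂ) := hy.symm.trans hz'
    exact_mod_cast h2
  exact ⟨x, h0, hxy.trans (h1.le.trans hz), hx⟩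

/-- lengths of products over a range -/
theorem ln_prod (h1 : Ln 0 (1 : DA))
    (hm : ∀ (Y Y' : ℝ) (α β : DA), Ln Y α → Ln Y' β → Ln (Y + Y') (α * β)) (f : ℕ → DA) (Y : ℕ → ℝ)
    (M : ℕ) (h : ∀ i < M, Ln (Y i) (f i)) :
    Ln (∑ i ∈ Finset.range M, Y i) (∏ i ∈ Finset.range M, f i) := by
  induction M with
  | zero =>
    rw [Finset.prod_range_zero, Finset.sum_range_zero]
    exact h1
  | succ M ih =>
    rw [Finset.prod_range_succ, Finset.sum_range_succ]
    exact hm _ _ _ _ (ih fun i hi => h i (Nat.lt_succ_of_lt hi)) (h M (Nat.lt_succ_self M))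

/-- the value of a Dirichlet polynomial -/
theorem ev_eq (t : ℝ) (α : DA) (A : Finset ℕ) (hA : α.coeff.support ⊆ A) :
    ev t α = ∑ n ∈ A, α.coeff n * (n : ℂ) ^ (-(1 / 2 + t * Complex.I)) := by
  have h1 : ev t α = α.coeff.sum fun n x => x * chi t n := by
    unfold ev
    rw [MonoidAlgebra.lift_apply]
    rfl
  rw [h1, Finsupp.sum_of_support_subset _ hA _ (by simp)]
  rfl

/-- supports and coefficients of the product of the levels -/
theorem co_prod (hSup : HZB.S_SupL) (hCoS : S_CoS) (hCoC : S_CoC) (η : ℝ) (S : ℕ → Finset ℕ)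
    (l : ℕ → ℕ) (a b : ℕ → ℝ) (hc : Cfe η a b) (M : ℕ) (hp : ∀ i < M, ∀ p ∈ S i, p.Prime)
    (hd : ∀ i < M, ∀ i' < M, i ≠ i' → Disjoint (S i) (S i')) :
    Sup ((Finset.range M).biUnion S) (∏ i ∈ Finset.range M, tx (l i) 1 (pw a b (S i))) ∧
    Co (pe1 η) (∏ i ∈ Finset.range M, tx (l i) 1 (pw a b (S i))) := by
  obtain ⟨s1, s2, -, s4, s5, s6⟩ := hSup
  induction M with
  | zero =>
    rw [Finset.prod_range_zero, Finset.range_zero, Finset.biUnion_empty]
    refine ⟨s6, fun n => ?_⟩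
    classical
    rw [MonoidAlgebra.one_def, MonoidAlgebra.coeff_single, Finsupp.single_apply]
    split_ifs with h
    · subst h
      exact ⟨1, zero_le_one, by unfold pe1; simp, by simp⟩
    · exact ⟨0, le_rfl, Real.rpow_nonneg (Nat.cast_nonneg n) _, by simp⟩
  | succ M ih =>
    obtain ⟨h1, h2⟩ := ih (fun i hi => hp i (Nat.lt_succ_of_lt hi))
      fun i hi i' hi' h => hd i (Nat.lt_succ_of_lt hi) i' (Nat.lt_succ_of_lt hi') h
    have h3 : Sup (S M) (tx (l M) 1 (pw a b (S M))) :=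
      s4 _ _ _ _ (s1 (S M) a b (hp M (Nat.lt_succ_self M)))
    have h4 : Co (pe1 η) (tx (l M) 1 (pw a b (S M))) :=
      hCoS (S M) (l M) η a b (hp M (Nat.lt_succ_self M)) hc
    have h5 : Disjoint ((Finset.range M).biUnion S) (S M) := by
      rw [Finset.disjoint_biUnion_left]
      intro i hi
      have hi' := Finset.mem_range.1 hi
      exact hd i (Nat.lt_succ_of_lt hi') M (Nat.lt_succ_self M) (by omega)
    rw [Finset.prod_range_succ]
    refine ⟨?_, hCoC _ _ η _ _ h5 h1 h3 h2 h4⟩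
    refine (s2 _ _ _ (s5 _ _ _ h1 ?_) (s5 _ _ _ h3 ?_)).2
    · exact Finset.biUnion_subset_biUnion_of_subset_left _
        (Finset.range_subset_range.2 (Nat.le_succ M))
    · exact Finset.subset_biUnion_of_mem S (Finset.mem_range.2 (Nat.lt_succ_self M))

end B_QDk

open B_QDk in
theorem QDk_pf (hCoS : S_CoS) (hCoC : S_CoC) (hCoP : S_CoP) (hCoT : S_CoT) (hMjL : HZB.S_MjL)
    (hSup : HZB.S_SupL) (hLn : HZB.S_LnL) : S_QDk := by
  intro k M η T S l a b y hT hy hd hc hlen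
  obtain ⟨-, -, m3, m4, -, -⟩ := hMjL
  obtain ⟨n1, n2, -, n4, -, n6, n7⟩ := hLn
  have hT0 : 0 < T := lt_of_lt_of_le one_pos hT
  have hab : ∀ p, 0 ≤ a p ∧ 0 ≤ b p := fun p => ⟨(hc p).1, (hc p).2.2.1⟩
  set Q : DA := ∏ i ∈ Finset.range M, tx (l i) (k : ℝ) (pw a b (S i)) with hQ
  set R : DA := ∏ i ∈ Finset.range M, tx (l i) 1 (pw a b (S i)) with hR
  obtain ⟨hRs, hRc⟩ := co_prod hSup hCoS hCoC η S l a b hc M
    (fun i hi p hp => ((hy i hi).2 p hp).1) hd
  have hR0 : R.coeff 0 = 0 := by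
    by_contra h
    exact (hRs 0 (Finsupp.mem_support_iff.2 h)).1 rfl
  have hQR : Mj Q (R ^ k) := by
    rw [hQ, hR, ← Finset.prod_pow]
    exact mj_prod m3 _ _ M fun i _ => hCoT (l i) k _ (m4 a b (S i) hab)
  have hQc : Co (fun n => dk k n * pe1 η n) Q := co_of_mj hQR (hCoP k η R hR0 hRc)
  have hQl : Ln (Real.log T / 100) Q := by
    refine n1 _ _ _ (ln_prod n2 n4 _ (fun i => (l i : ℝ) * (2 * y i)) M fun i hi => ?_) ?_
    · exact n6 (2 * y i) k _ (l i) (by linarith [(hy i hi).1]) (n7 (y i) a b (S i) (hy i hi).2)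
    · refine le_trans (le_of_eq ?_) hlen
      exact Finset.sum_congr rfl fun i _ => by ring
  have hr1 : (1 : ℝ) ≤ T ^ (1 / 100 : ℝ) := Real.one_le_rpow hT (by norm_num)
  have hr0 : (0 : ℝ) ≤ T ^ (1 / 100 : ℝ) := zero_le_one.trans hr1
  have hsupp : ∀ n ∈ Q.coeff.support, 1 ≤ n ∧ n ≤ ⌊T ^ (1 / 100 : ℝ)⌋₊ := by
    intro n hn
    obtain ⟨hn0, hnl⟩ := hQl n hn
    refine ⟨Nat.one_le_iff_ne_zero.2 hn0, Nat.le_floor ?_⟩
    have hnp : (0 : ℝ) < n := by exact_mod_cast Nat.pos_of_ne_zero hn0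
    rw [← Real.exp_log hnp, Real.rpow_def_of_pos hT0]
    exact Real.exp_le_exp.2 (hnl.trans (le_of_eq (by ring)))
  have hre : ∀ n, Q.coeff n = (((Q.coeff n).re : ℝ) : ℂ) := fun n => by
    obtain ⟨x, -, -, hx⟩ := hQc n
    rw [hx, Complex.ofReal_re]
  refine ⟨⌊T ^ (1 / 100 : ℝ)⌋₊, fun n => (Q.coeff n).re, ⟨fun n => ?_, fun n => ?_, fun n hn => ?_,
    Nat.le_floor (by simpa using hr1), ?_⟩, fun t => ?_⟩
  · obtain ⟨x, hx0, -, hx⟩ := hQc n
    simp only [hx, Complex.ofReal_re]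
    exact hx0
  · obtain ⟨x, -, hx1, hx⟩ := hQc n
    simp only [hx, Complex.ofReal_re]
    exact hx1
  · refine hsupp n (Finsupp.mem_support_iff.2 fun h => hn ?_)
    simp only [h, Complex.zero_re]
  · calc ((⌊T ^ (1 / 100 : ℝ)⌋₊ : ℕ) : ℝ) ^ 100 ≤ (T ^ (1 / 100 : ℝ)) ^ 100 :=
          pow_le_pow_left₀ (Nat.cast_nonneg _) (Nat.floor_le hr0) 100
      _ = T := by
          rw [← Real.rpow_natCast, ← Real.rpow_mul hT0.le]
          norm_num
  · rw [ev_eq t Q (Finset.Icc 1 ⌊T ^ (1 / 100 : ℝ)⌋₊) fun n hn => Finset.mem_Icc.2 (hsupp n hn)]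
    unfold De Ds
    exact Finset.sum_congr rfl fun n _ =>
      congrArg (fun z => z * (n : ℂ) ^ (-(1 / 2 + t * Complex.I))) (hre n)

end Pool.Agent.Work.MP_56b8f5_nt.HN
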