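import Pool.Agent.Work.MP_56b8f5_nt.HN.B_CoC
import Pool.Agent.Work.MP_56b8f5_nt.HN.B_CoL
import Pool.Agent.Work.MP_56b8f5_nt.HN.B_CoP
import Pool.Agent.Work.MP_56b8f5_nt.HN.B_CoS
import Pool.Agent.Work.MP_56b8f5_nt.HN.B_CoT
import Pool.Agent.Work.MP_56b8f5_nt.HN.B_HN4
import Pool.Agent.Work.MP_56b8f5_nt.HN.B_Lev
import Pool.Agent.Work.MP_56b8f5_nt.HN.B_PwN
import Pool.Agent.Work.MP_56b8f5_nt.HN.B_QDk
import Pool.Agent.Work.MP_56b8f5_nt.HZ.B_All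

/-!
MP_56b8f5_nt, block HN, part (III): the assembly. `HN4_all : S_HN4`, Harper's splitting for an abstract function with
constants independent of the range of the hypothesis.
-/

set_option autoImplicit false

namespace Pool.Agent.Work.MP_56b8f5_nt.HN

open Pool.Agent.Work.MP_56b8f5_nt.SH Pool.Agent.Work.MP_56b8f5_nt.HZ Pool.Agent.Work.MP_56b8f5_nt.HZB

theorem CoS_all : S_CoS := CoS_pf CoL_pf CoC_pf pf_MjL pf_SupL

theorem QDk_all : S_QDk := QDk_pf CoS_all CoC_pf CoP_pf (CoT_pf pf_MjL) pf_MjL pf_SupL pf_LnL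

theorem HN4_all : S_HN4 :=
  HN4_pf IntD_all pf_SpS Mer_all pf_Fst pf_LevB (pf_NmL pf_LevB) (pf_NmP pf_LevB) LevU_pf
    (LnQ_pf (pf_NmL pf_LevB) pf_LevB) (NmB_pf (pf_NmS pf_LevB) pf_LevB) (PwN_pf pf_SpS) FbM_pf
    (SpB_pf pf_EvT pf_LevB pf_Tay) QDk_all

end Pool.Agent.Work.MP_56b8f5_nt.HN
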