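import Pool.Agent.Work.MP_56b8f5_nt.HN.StmtsM

/-!
MP_56b8f5_nt, block HN, item DeL: decomposition, lower bound.
-/

set_option autoImplicit false

open MeasureTheory Set Filter Topology

noncomputable section

namespace Pool.Agent.Work.MP_56b8f5_nt.HN

open Pool.Agent.Work.MP_56b8f5_nt.EM Pool.Agent.Work.MP_56b8f5_nt.WM Pool.Agent.Work.MP_56b8f5_nt.SH
open Pool.Agent.Work.MP_56b8f5_nt.HZ

namespace AuxDeL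

/-- the pointwise inequality -/
theorem ptw (k : ℕ) (δ : ℝ) (hδ : 0 < δ) (hδ1 : δ ≤ 1) (z D : ℂ) :
    (1 - δ) ^ (2 * (k + 1)) * (‖D ^ (k + 1)‖ ^ 2 - (1 / δ) ^ 2 * (‖z - D‖ ^ 2 * ‖D ^ k‖ ^ 2)) ≤
      ‖z‖ ^ (2 * (k + 1)) := by
  have h1δ : 0 ≤ 1 - δ := by linarith
  have hp : 0 ≤ (1 - δ) ^ (2 * (k + 1)) := pow_nonneg h1δ _
  have hf : ‖D ^ (k + 1)‖ ^ 2 = ‖D‖ ^ (2 * (k + 1)) := by
    rw [norm_pow, ← pow_mul, mul_comm]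
  have hg : 0 ≤ (1 / δ) ^ 2 * (‖z - D‖ ^ 2 * ‖D ^ k‖ ^ 2) := by positivity
  rcases le_or_gt ‖z - D‖ (δ * ‖D‖) with h | h
  · have h1 : (1 - δ) * ‖D‖ ≤ ‖z‖ := by
      have h2 : ‖D‖ - ‖z - D‖ ≤ ‖z‖ := by
        have h3 : ‖D‖ ≤ ‖z‖ + ‖z - D‖ := by
          calc ‖D‖ = ‖z - (z - D)‖ := by congr 1; ring
            _ ≤ ‖z‖ + ‖z - D‖ := norm_sub_le _ _
        linarith
      linarith
    calc (1 - δ) ^ (2 * (k + 1)) * (‖D ^ (k + 1)‖ ^ 2 - (1 / δ) ^ 2 * (‖z - D‖ ^ 2 * ‖D ^ k‖ ^ 2))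
        ≤ (1 - δ) ^ (2 * (k + 1)) * ‖D ^ (k + 1)‖ ^ 2 :=
          mul_le_mul_of_nonneg_left (by linarith) hp
      _ = ((1 - δ) * ‖D‖) ^ (2 * (k + 1)) := by rw [hf, mul_pow]
      _ ≤ ‖z‖ ^ (2 * (k + 1)) := pow_le_pow_left₀ (mul_nonneg h1δ (norm_nonneg _)) h1 _
  · have h1 : ‖D‖ ≤ 1 / δ * ‖z - D‖ := by
      rw [one_div, ← div_eq_inv_mul, le_div_iff₀ hδ, mul_comm]
      exact h.le
    have h2 : ‖D ^ (k + 1)‖ ^ 2 ≤ (1 / δ) ^ 2 * (‖z - D‖ ^ 2 * ‖D ^ k‖ ^ 2) := by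
      have e0 : D ^ (k + 1) = D ^ k * D := pow_succ D k
      have e1 : ‖D ^ (k + 1)‖ ^ 2 = ‖D‖ ^ 2 * ‖D ^ k‖ ^ 2 := by
        rw [e0, norm_mul, mul_pow, mul_comm]
      calc ‖D ^ (k + 1)‖ ^ 2 = ‖D‖ ^ 2 * ‖D ^ k‖ ^ 2 := e1
        _ ≤ (1 / δ * ‖z - D‖) ^ 2 * ‖D ^ k‖ ^ 2 :=
          mul_le_mul_of_nonneg_right (pow_le_pow_left₀ (norm_nonneg _) h1 2) (by positivity)
        _ = (1 / δ) ^ 2 * (‖z - D‖ ^ 2 * ‖D ^ k‖ ^ 2) := by rw [mul_pow, mul_assoc]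
    have h3 : (1 - δ) ^ (2 * (k + 1)) *
        (‖D ^ (k + 1)‖ ^ 2 - (1 / δ) ^ 2 * (‖z - D‖ ^ 2 * ‖D ^ k‖ ^ 2)) ≤ 0 :=
      mul_nonpos_of_nonneg_of_nonpos hp (by linarith)
    exact h3.trans (by positivity)

end AuxDeL

/-- DeL -/
theorem DeL_pf : S_DeL := by
  intro k δ T z D E hδ hδ1 hT hz hD hE hEI
  have hTT : T ≤ 2 * T := by linarith
  have hcf : Continuous fun t => ‖D t ^ (k + 1)‖ ^ 2 := (hD.pow _).norm.pow _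
  have hcg : Continuous fun t => ‖z t - D t‖ ^ 2 * ‖D t ^ k‖ ^ 2 :=
    ((hz.sub hD).norm.pow _).mul ((hD.pow _).norm.pow _)
  have hcz : Continuous fun t => ‖z t‖ ^ (2 * (k + 1)) := hz.norm.pow _
  have hf := hcf.integrableOn_Icc (a := T) (b := 2 * T) (μ := volume)
  have hg := hcg.integrableOn_Icc (a := T) (b := 2 * T) (μ := volume)
  have hzi := hcz.integrableOn_Icc (a := T) (b := 2 * T) (μ := volume)
  have e1 : ∫ t in T..(2 * T), ‖D t ^ (k + 1)‖ ^ 2 = ∫ t in Icc T (2 * T), ‖D t ^ (k + 1)‖ ^ 2 := by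
    rw [intervalIntegral.integral_of_le hTT, integral_Icc_eq_integral_Ioc]
  have e2 : ∫ t in T..(2 * T), ‖z t - D t‖ ^ 2 * ‖D t ^ k‖ ^ 2 =
      ∫ t in Icc T (2 * T), ‖z t - D t‖ ^ 2 * ‖D t ^ k‖ ^ 2 := by
    rw [intervalIntegral.integral_of_le hTT, integral_Icc_eq_integral_Ioc]
  have e3 := setIntegral_sdiff hE hf hEI
  have e4 : ∫ t in E, ‖z t - D t‖ ^ 2 * ‖D t ^ k‖ ^ 2 ≤
      ∫ t in Icc T (2 * T), ‖z t - D t‖ ^ 2 * ‖D t ^ k‖ ^ 2 :=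
    setIntegral_mono_set hg (Filter.Eventually.of_forall fun t => by positivity)
      (LE.le.eventuallyLE hEI)
  have hp : 0 ≤ (1 - δ) ^ (2 * (k + 1)) := pow_nonneg (by linarith) _
  rw [e1, e2, e3]
  have e5 : ∫ t in E, (1 - δ) ^ (2 * (k + 1)) *
      (‖D t ^ (k + 1)‖ ^ 2 - (1 / δ) ^ 2 * (‖z t - D t‖ ^ 2 * ‖D t ^ k‖ ^ 2)) =
      (1 - δ) ^ (2 * (k + 1)) * ((∫ t in E, ‖D t ^ (k + 1)‖ ^ 2) -
        (1 / δ) ^ 2 * ∫ t in E, ‖z t - D t‖ ^ 2 * ‖D t ^ k‖ ^ 2) := by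
    rw [integral_const_mul, integral_sub (hf.mono_set hEI) ((hg.mono_set hEI).const_mul _),
      integral_const_mul]
  have e6 : ∫ t in E, (1 - δ) ^ (2 * (k + 1)) *
      (‖D t ^ (k + 1)‖ ^ 2 - (1 / δ) ^ 2 * (‖z t - D t‖ ^ 2 * ‖D t ^ k‖ ^ 2)) ≤
      ∫ t in E, ‖z t‖ ^ (2 * (k + 1)) := by
    refine setIntegral_mono_on ?_ (hzi.mono_set hEI) hE fun t _ => AuxDeL.ptw k δ hδ hδ1 (z t) (D t)
    exact ((hf.mono_set hEI).sub ((hg.mono_set hEI).const_mul _)).const_mul _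
  refine le_trans ?_ e6
  rw [e5]
  refine mul_le_mul_of_nonneg_left ?_ hp
  have hd : 0 ≤ (1 / δ) ^ 2 := by positivity
  nlinarith [mul_le_mul_of_nonneg_left e4 hd]

end Pool.Agent.Work.MP_56b8f5_nt.HN
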