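import Pool.Agent.Work.MP_56b8f5_nt.HN.StmtsM

/-!
MP_56b8f5_nt, block HN, item DeU: decomposition, upper bound.
-/

set_option autoImplicit false

open MeasureTheory Set Filter Topology

noncomputable section

namespace Pool.Agent.Work.MP_56b8f5_nt.HN

open Pool.Agent.Work.MP_56b8f5_nt.EM Pool.Agent.Work.MP_56b8f5_nt.WM Pool.Agent.Work.MP_56b8f5_nt.SH
open Pool.Agent.Work.MP_56b8f5_nt.HZ

namespace AuxDeU

/-- The pointwise inequality outside `F`. -/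
theorem pw (k : ℕ) (δ M : ℝ) (z D Q : ℂ) (hδ : 0 < δ) (hM : 0 ≤ M)
    (h : ‖z‖ ^ (2 * k) ≤ M * ‖Q‖ ^ 2) :
    ‖z‖ ^ (2 * (k + 1)) ≤ (1 + δ) ^ (2 * (k + 1)) * ‖D ^ (k + 1)‖ ^ 2 +
      M * (1 + 1 / δ) ^ 2 * (‖z - D‖ ^ 2 * ‖Q‖ ^ 2) := by
  have hz : ‖z‖ ≤ ‖z - D‖ + ‖D‖ := by
    have := norm_add_le (z - D) D
    rwa [sub_add_cancel] at this
  have h1 : 0 ≤ M * (1 + 1 / δ) ^ 2 * (‖z - D‖ ^ 2 * ‖Q‖ ^ 2) := by positivity
  have h2 : 0 ≤ (1 + δ) ^ (2 * (k + 1)) * ‖D ^ (k + 1)‖ ^ 2 := by positivity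
  rcases le_or_gt ‖z - D‖ (δ * ‖D‖) with hc | hc
  · have h3 : ‖z‖ ≤ (1 + δ) * ‖D‖ := by linarith
    have h4 : ‖z‖ ^ (2 * (k + 1)) ≤ ((1 + δ) * ‖D‖) ^ (2 * (k + 1)) :=
      pow_le_pow_left₀ (norm_nonneg _) h3 _
    have h5 : ((1 + δ) * ‖D‖) ^ (2 * (k + 1)) = (1 + δ) ^ (2 * (k + 1)) * ‖D ^ (k + 1)‖ ^ 2 := by
      rw [mul_pow, norm_pow, ← pow_mul, mul_comm (k + 1) 2]
    linarith
  · have h3 : ‖z‖ ≤ (1 + 1 / δ) * ‖z - D‖ := by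
      have h6 : ‖D‖ ≤ 1 / δ * ‖z - D‖ := by
        rw [div_mul_eq_mul_div, one_mul, le_div_iff₀ hδ]
        linarith
      linarith
    have h4 : ‖z‖ ^ 2 ≤ ((1 + 1 / δ) * ‖z - D‖) ^ 2 :=
      pow_le_pow_left₀ (norm_nonneg _) h3 _
    have h5 : ‖z‖ ^ (2 * (k + 1)) = ‖z‖ ^ (2 * k) * ‖z‖ ^ 2 := by
      rw [← pow_add]
      congr 1
    have h6 : ‖z‖ ^ (2 * k) * ‖z‖ ^ 2 ≤ (M * ‖Q‖ ^ 2) * ((1 + 1 / δ) * ‖z - D‖) ^ 2 :=
      mul_le_mul h h4 (by positivity) (by positivity)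
    have h7 : (M * ‖Q‖ ^ 2) * ((1 + 1 / δ) * ‖z - D‖) ^ 2 =
        M * (1 + 1 / δ) ^ 2 * (‖z - D‖ ^ 2 * ‖Q‖ ^ 2) := by ring
    linarith

/-- A nonnegative continuous function: the integral over a part of `[T, 2T]`. -/
theorem part (f : ℝ → ℝ) (hf : Continuous f) (h0 : ∀ t, 0 ≤ f t) (T : ℝ) (hT : 1 ≤ T)
    (E : Set ℝ) (hE : E ⊆ Icc T (2 * T)) :
    ∫ t in E, f t ≤ ∫ t in T..(2 * T), f t := by
  rw [intervalIntegral.integral_of_le (by linarith), ← integral_Icc_eq_integral_Ioc]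
  exact setIntegral_mono_set (hf.integrableOn_Icc) (Eventually.of_forall fun t => h0 t)
    (HasSubset.Subset.eventuallyLE hE)

end AuxDeU

open AuxDeU in
theorem DeU_pf : S_DeU := by
  intro k δ T M z D Q E F hδ hT hM hz hD hQ hEm hE hFm h
  have hcz : Continuous fun t => ‖z t‖ ^ (2 * (k + 1)) := hz.norm.pow _
  have hcD : Continuous fun t => ‖D t ^ (k + 1)‖ ^ 2 := (hD.pow _).norm.pow _
  have hcQ : Continuous fun t => ‖z t - D t‖ ^ 2 * ‖Q t‖ ^ 2 :=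
    ((hz.sub hD).norm.pow _).mul (hQ.norm.pow _)
  have hI : ∀ f : ℝ → ℝ, Continuous f → IntegrableOn f E := fun f hf =>
    hf.integrableOn_Icc.mono_set hE
  have e : ∀ f : ℝ → ℝ, ∫ t in E, F.indicator f t = ∫ t in E ∩ F, f t := fun f =>
    setIntegral_indicator hFm
  have h1 : ∫ t in E, ‖z t‖ ^ (2 * (k + 1)) ≤
      ∫ t in E, ((1 + δ) ^ (2 * (k + 1)) * ‖D t ^ (k + 1)‖ ^ 2 +
        M * (1 + 1 / δ) ^ 2 * (‖z t - D t‖ ^ 2 * ‖Q t‖ ^ 2) +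
        F.indicator (fun t => ‖z t‖ ^ (2 * (k + 1))) t) := by
    refine setIntegral_mono_on (hI _ hcz) ?_ hEm ?_
    · exact (((hI _ hcD).const_mul _).add ((hI _ hcQ).const_mul _)).add
        ((hI _ hcz).indicator hFm)
    · intro t ht
      by_cases hF : t ∈ F
      · rw [indicator_of_mem hF]
        have h2 : 0 ≤ (1 + δ) ^ (2 * (k + 1)) * ‖D t ^ (k + 1)‖ ^ 2 := by positivity
        have h3 : 0 ≤ M * (1 + 1 / δ) ^ 2 * (‖z t - D t‖ ^ 2 * ‖Q t‖ ^ 2) := by positivity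
        linarith
      · rw [indicator_of_notMem hF, add_zero]
        exact pw k δ M (z t) (D t) (Q t) hδ hM (h t ht hF)
  rw [integral_add, integral_add, integral_const_mul, integral_const_mul, e] at h1
  · have h2 := part _ hcD (fun t => by positivity) T hT E hE
    have h3 := part _ hcQ (fun t => by positivity) T hT E hE
    have h4 : (1 + δ) ^ (2 * (k + 1)) * (∫ t in E, ‖D t ^ (k + 1)‖ ^ 2) ≤
        (1 + δ) ^ (2 * (k + 1)) * (∫ t in T..(2 * T), ‖D t ^ (k + 1)‖ ^ 2) :=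
      mul_le_mul_of_nonneg_left h2 (by positivity)
    have h5 : M * (1 + 1 / δ) ^ 2 * (∫ t in E, ‖z t - D t‖ ^ 2 * ‖Q t‖ ^ 2) ≤
        M * (1 + 1 / δ) ^ 2 * (∫ t in T..(2 * T), ‖z t - D t‖ ^ 2 * ‖Q t‖ ^ 2) :=
      mul_le_mul_of_nonneg_left h3 (by positivity)
    linarith
  · exact (hI _ hcD).const_mul _
  · exact (hI _ hcQ).const_mul _
  · exact ((hI _ hcD).const_mul _).add ((hI _ hcQ).const_mul _)
  · exact (hI _ hcz).indicator hFm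

end Pool.Agent.Work.MP_56b8f5_nt.HN
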