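import Pool.Agent.Work.MP_56b8f5_nt.HN.StmtsE

/-!
MP_56b8f5_nt, block HN, item Dpw: the coefficients of the powers of `DN`.
-/

set_option autoImplicit false

open MeasureTheory Set Filter Topology

noncomputable section

namespace Pool.Agent.Work.MP_56b8f5_nt.HN

open Pool.Agent.Work.MP_56b8f5_nt.EM Pool.Agent.Work.MP_56b8f5_nt.WM Pool.Agent.Work.MP_56b8f5_nt.SH
open Pool.Agent.Work.MP_56b8f5_nt.HZ

namespace AuxDpw

/-- The coefficients of `DN` on the line `1/2`. -/
def f (N : ℕ) (η : ℝ) (n : ℕ) : ℝ := if 1 ≤ n ∧ n ≤ N then (n : ℝ) ^ (-η) else 0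

lemma f_nonneg (N : ℕ) (η : ℝ) (n : ℕ) : 0 ≤ f N η n := by
  unfold f
  split_ifs
  · positivity
  · exact le_rfl

lemma f_le (N : ℕ) (η : ℝ) (n : ℕ) : f N η n ≤ (n : ℝ) ^ (-η) := by
  unfold f
  split_ifs
  · exact le_rfl
  · positivity

lemma f_supp (N : ℕ) (η : ℝ) (n : ℕ) (h : f N η n ≠ 0) : 1 ≤ n ∧ n ≤ N := by
  by_contra hc
  exact h (if_neg hc)

lemma DN_eq (N : ℕ) (η t : ℝ) : DN N η t = De N (f N η) t := by
  unfold DN De Ds
  refine Finset.sum_congr rfl fun n hn => ?_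
  rw [Finset.mem_Icc] at hn
  have hn0 : (n : ℂ) ≠ 0 := Nat.cast_ne_zero.2 (by omega)
  have hf : f N η n = (n : ℝ) ^ (-η) := if_pos hn
  simp only [hf]
  rw [Complex.ofReal_cpow (by positivity), one_mul, Complex.ofReal_natCast, ← Complex.cpow_add _ _ hn0]
  congr 1
  unfold sp
  push_cast
  ring

/-- The step of the induction. -/
lemma rpow_div {n d : ℕ} (η : ℝ) (hn : n ≠ 0) (hd : d ∣ n) :
    (d : ℝ) ^ (-η) * ((n / d : ℕ) : ℝ) ^ (-η) = (n : ℝ) ^ (-η) := by
  rw [← Real.mul_rpow (by positivity) (by positivity), ← Nat.cast_mul, Nat.mul_div_cancel' hd]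

lemma core (h1 : S_dkB) (h2 : HZ.S_DsM) (N : ℕ) (η : ℝ) (hN : 1 ≤ N) : ∀ k : ℕ,
    ∃ q : ℕ → ℝ, (∀ n, 0 ≤ q n) ∧ (∀ n, q n ≤ dk k n * (n : ℝ) ^ (-η)) ∧
      (∀ n, q n ≠ 0 → 1 ≤ n ∧ n ≤ N ^ k) ∧ (∀ t : ℝ, DN N η t ^ k = De (N ^ k) q t) ∧
      ∀ n : ℕ, 1 ≤ n → n ≤ N → q n = dk k n * (n : ℝ) ^ (-η) := by
  obtain ⟨hb0, hbn, hbz, -, hbs, -⟩ := h1
  intro k
  induction k with
  | zero =>
    refine ⟨fun n => if n = 1 then 1 else 0, ?_, ?_, ?_, ?_, ?_⟩
    · intro n
      dsimp only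
      split_ifs <;> norm_num
    · intro n
      dsimp only
      rw [hbz]
      split_ifs with h
      · subst h
        simp
      · simp
    · intro n hn
      by_cases h : n = 1
      · subst h
        simp
      · exact absurd (if_neg h) hn
    · intro t
      simp [De, Ds]
    · intro n _ _
      dsimp only
      rw [hbz]
      split_ifs with h
      · subst h
        simp
      · simp
  | succ k ih =>
    obtain ⟨q, q0, qle, qs, qD, qe⟩ := ih
    have hsupp : ∀ n, (∑ d ∈ n.divisors, q d * f N η (n / d)) ≠ 0 → 1 ≤ n ∧ n ≤ N ^ (k + 1) := by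
      intro n hn
      obtain ⟨d, hd, hne⟩ := Finset.exists_ne_zero_of_sum_ne_zero hn
      have hq : q d ≠ 0 := fun h => hne (by simp [h])
      have hf : f N η (n / d) ≠ 0 := fun h => hne (by simp [h])
      have h3 := qs d hq
      have h4 := f_supp N η _ hf
      have hdn := Nat.dvd_of_mem_divisors hd
      have hmul : d * (n / d) = n := Nat.mul_div_cancel' hdn
      constructor
      · rw [← hmul]
        exact Nat.mul_pos h3.1 h4.1
      · rw [← hmul, pow_succ]
        exact Nat.mul_le_mul h3.2 h4.2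
    refine ⟨fun n => ∑ d ∈ n.divisors, q d * f N η (n / d), ?_, ?_, hsupp, ?_, ?_⟩
    · intro n
      exact Finset.sum_nonneg fun d _ => mul_nonneg (q0 d) (f_nonneg N η _)
    · intro n
      rcases Nat.eq_zero_or_pos n with rfl | hn
      · simp [(hb0 (k + 1)).1]
      · have hn0 : n ≠ 0 := by omega
        dsimp only
        rw [hbs k n hn0, Finset.sum_mul]
        refine Finset.sum_le_sum fun d hd => ?_
        have hdn := Nat.dvd_of_mem_divisors hd
        calc q d * f N η (n / d) ≤ (dk k d * (d : ℝ) ^ (-η)) * ((n / d : ℕ) : ℝ) ^ (-η) :=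
              mul_le_mul (qle d) (f_le N η _) (f_nonneg N η _)
                (mul_nonneg (hbn k d) (by positivity))
          _ = dk k d * (n : ℝ) ^ (-η) := by
              rw [mul_assoc, rpow_div η hn0 hdn]
    · intro t
      rw [pow_succ, qD t, DN_eq]
      unfold De
      rw [h2.1 (N ^ k) N (fun n => (q n : ℂ)) (fun n => (f N η n : ℂ)) ?_ ?_ _, pow_succ]
      · congr 1
        funext n
        unfold cvl
        push_cast
        rfl
      · intro n hn
        exact qs n (by exact_mod_cast hn)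
      · intro n hn
        exact f_supp N η n (by exact_mod_cast hn)
    · intro n hn hnN
      have hn0 : n ≠ 0 := by omega
      dsimp only
      rw [hbs k n hn0, Finset.sum_mul]
      refine Finset.sum_congr rfl fun d hd => ?_
      have hdn := Nat.dvd_of_mem_divisors hd
      have hd1 : 1 ≤ d := Nat.pos_of_mem_divisors hd
      have hdl : d ≤ n := Nat.divisor_le hd
      have he1 : 1 ≤ n / d := Nat.div_pos hdl hd1
      have hel : n / d ≤ N := (Nat.div_le_self n d).trans hnN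
      have hf : f N η (n / d) = ((n / d : ℕ) : ℝ) ^ (-η) := if_pos ⟨he1, hel⟩
      rw [qe d hd1 (hdl.trans hnN), hf, mul_assoc, rpow_div η hn0 hdn]

end AuxDpw

theorem Dpw_pf (h1 : S_dkB) (h2 : HZ.S_DsM) : S_Dpw := by
  intro k N η T hN _ hT
  obtain ⟨q, q0, qle, qs, qD, qe⟩ := AuxDpw.core h1 h2 N η hN k
  exact ⟨q, ⟨q0, qle, qs, Nat.one_le_pow k N hN, hT⟩, qD, qe⟩

end Pool.Agent.Work.MP_56b8f5_nt.HN
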