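import Pool.Agent.Work.MP_56b8f5_nt.HN.StmtsE
import Pool.Agent.Work.MP_56b8f5_nt.HZ.I_Em

/-!
MP_56b8f5_nt, block HN, item EmN (helper17): Euler product for the majorant with the divisor
function `dk k n n^(-η)` (after HZ/I_Em.lean by helper24).
-/

set_option autoImplicit false

open MeasureTheory Set Filter Topology

noncomputable section

namespace Pool.Agent.Work.MP_56b8f5_nt.HN

open Pool.Agent.Work.MP_56b8f5_nt.EM Pool.Agent.Work.MP_56b8f5_nt.WM Pool.Agent.Work.MP_56b8f5_nt.SH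
open Pool.Agent.Work.MP_56b8f5_nt.HZ

namespace AuxEmN

open Pool.Agent.Work.MP_56b8f5_nt.HZ.I_Em

/-- the twisted divisor function -/
def qk (k : ℕ) (η : ℝ) (n : ℕ) : ℝ := dk k n * (n : ℝ) ^ (-η)

/-- the same as an arithmetic function -/
def qA (k : ℕ) (η : ℝ) : ArithmeticFunction ℝ := ⟨fun n => if n = 0 then 0 else qk k η n, if_pos rfl⟩

lemma qA_apply (k : ℕ) (η : ℝ) (n : ℕ) : qA k η n = if n = 0 then 0 else qk k η n := rfl

lemma qk_one (h1 : S_dkB) (k : ℕ) (η : ℝ) : qk k η 1 = 1 := by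
  unfold qk
  rw [(h1.1 k).2, Nat.cast_one, Real.one_rpow, one_mul]

lemma qk_mul (h1 : S_dkB) (k : ℕ) (η : ℝ) {m n : ℕ} (h : Nat.Coprime m n) :
    qk k η (m * n) = qk k η m * qk k η n := by
  obtain ⟨_, _, _, _, _, _, h7, _⟩ := h1
  unfold qk
  rw [h7 k m n h, Nat.cast_mul, Real.mul_rpow (Nat.cast_nonneg m) (Nat.cast_nonneg n)]
  ring

lemma qA_mult (h1 : S_dkB) (k : ℕ) (η : ℝ) : (qA k η).IsMultiplicative := by
  refine ⟨?_, fun {m n} hmn => ?_⟩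
  · rw [qA_apply, if_neg one_ne_zero, qk_one h1]
  · rcases Nat.eq_zero_or_pos m with hm | hm
    · subst hm
      rw [zero_mul, qA_apply, if_pos rfl, zero_mul]
    rcases Nat.eq_zero_or_pos n with hn | hn
    · subst hn
      rw [mul_zero, qA_apply, if_pos rfl, mul_zero]
    rw [qA_apply, qA_apply, qA_apply, if_neg (Nat.mul_pos hm hn).ne', if_neg hm.ne', if_neg hn.ne']
    exact qk_mul h1 k η hmn

/-- the convolution -/
def hN (c : ℕ → ℝ) (k : ℕ) (η : ℝ) (n : ℕ) : ℝ :=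
  ∑ d ∈ n.divisors, fp c d * (dk k (n / d) * ((n / d : ℕ) : ℝ) ^ (-η))

lemma hN_eq (c : ℕ → ℝ) (k : ℕ) (η : ℝ) (n : ℕ) : hN c k η n = (fA c * qA k η) n := by
  rw [ArithmeticFunction.mul_apply,
    Nat.sum_divisorsAntidiagonal (f := fun x y => fA c x * qA k η y)]
  refine Finset.sum_congr rfl fun d hd => ?_
  rw [Nat.mem_divisors] at hd
  have hd0 : 0 < d := Nat.pos_of_dvd_of_pos hd.1 (Nat.pos_of_ne_zero hd.2)
  have hnd : n / d ≠ 0 := (Nat.div_pos (Nat.le_of_dvd (Nat.pos_of_ne_zero hd.2) hd.1) hd0).ne'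
  rw [fA_apply, if_neg hd0.ne', qA_apply, if_neg hnd]
  rfl

lemma hN_one (h1 : S_dkB) (c : ℕ → ℝ) (k : ℕ) (η : ℝ) : hN c k η 1 = 1 := by
  rw [hN_eq]
  exact ((fA_mult c).mul (qA_mult h1 k η)).1

lemma hN_mul (h1 : S_dkB) (c : ℕ → ℝ) (k : ℕ) (η : ℝ) {m n : ℕ} (h : Nat.Coprime m n) :
    hN c k η (m * n) = hN c k η m * hN c k η n := by
  rw [hN_eq, hN_eq, hN_eq]
  exact ((fA_mult c).mul (qA_mult h1 k η)).2 h

lemma hN_pow (c : ℕ → ℝ) (k : ℕ) (η : ℝ) {p : ℕ} (hp : p.Prime) (v : ℕ) :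
    hN c k η (p ^ v) = ∑ x ∈ Finset.range (v + 1), (if x = 0 then 1 else c p) *
      (dk k (p ^ (v - x)) * ((p ^ (v - x) : ℕ) : ℝ) ^ (-η)) := by
  unfold hN
  rw [Nat.sum_divisors_prime_pow hp]
  refine Finset.sum_congr rfl fun x hx => ?_
  have hxv : x ≤ v := Nat.lt_succ_iff.1 (Finset.mem_range.1 hx)
  rw [fp_pow c hp, Nat.pow_div hxv hp.pos]

lemma hN_p (h1 : S_dkB) (c : ℕ → ℝ) (k : ℕ) (η : ℝ) {p : ℕ} (hp : p.Prime) :
    hN c k η p = k * (p : ℝ) ^ (-η) + c p := by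
  have h := hN_pow c k η hp 1
  rw [pow_one] at h
  obtain ⟨h2, _, _, _, _, _, _, _, h9, _⟩ := h1
  rw [h, Finset.sum_range_succ, Finset.sum_range_one]
  simp [h9 k p hp, (h2 k).2]

variable {c : ℕ → ℝ} {k : ℕ} {η : ℝ}

lemma hN_pow_nonneg (h1 : S_dkB) (hc : ∀ p, 0 ≤ c p) {p : ℕ} (hp : p.Prime) (v : ℕ) :
    0 ≤ hN c k η (p ^ v) := by
  rw [hN_pow c k η hp]
  refine Finset.sum_nonneg fun x _ => mul_nonneg ?_ (mul_nonneg (h1.2.1 k _) (by positivity))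
  split_ifs
  · exact zero_le_one
  · exact hc p

/-- `dk k (p ^ v) ≤ (v + 1) ^ k` -/
lemma dk_pow_le (h1 : S_dkB) {p : ℕ} (hp : p.Prime) (k v : ℕ) :
    dk k (p ^ v) ≤ ((v : ℝ) + 1) ^ k := by
  induction k generalizing v with
  | zero =>
    rw [h1.2.2.1, pow_zero]
    split_ifs
    · exact le_rfl
    · exact zero_le_one
  | succ k ih =>
    rw [h1.2.2.2.2.1 k _ (pow_ne_zero _ hp.ne_zero), Nat.sum_divisors_prime_pow hp]
    calc ∑ x ∈ Finset.range (v + 1), dk k (p ^ x)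
        ≤ ∑ x ∈ Finset.range (v + 1), ((v : ℝ) + 1) ^ k := by
          refine Finset.sum_le_sum fun x hx => (ih x).trans ?_
          have hxv : (x : ℝ) ≤ v := by
            exact_mod_cast Nat.lt_succ_iff.1 (Finset.mem_range.1 hx)
          exact pow_le_pow_left₀ (by positivity) (by linarith) k
      _ = ((v : ℝ) + 1) ^ (k + 1) := by
          rw [Finset.sum_const, Finset.card_range, nsmul_eq_mul, pow_succ]
          push_cast
          ring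

lemma hN_pow_le (h1 : S_dkB) (hc : ∀ p, 0 ≤ c p) (hc2 : ∀ p, c p ≤ 2) (hη : 0 ≤ η) {p : ℕ}
    (hp : p.Prime) (v : ℕ) : hN c k η (p ^ v) ≤ 2 * ((v : ℝ) + 1) ^ (k + 1) := by
  rw [hN_pow c k η hp]
  calc ∑ x ∈ Finset.range (v + 1), (if x = 0 then 1 else c p) *
        (dk k (p ^ (v - x)) * ((p ^ (v - x) : ℕ) : ℝ) ^ (-η))
      ≤ ∑ x ∈ Finset.range (v + 1), 2 * ((v : ℝ) + 1) ^ k := by
        refine Finset.sum_le_sum fun x _ => ?_
        have hp1 : (1 : ℝ) ≤ ((p ^ (v - x) : ℕ) : ℝ) := by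
          exact_mod_cast Nat.one_le_pow _ _ hp.pos
        have e1 : ((p ^ (v - x) : ℕ) : ℝ) ^ (-η) ≤ 1 :=
          Real.rpow_le_one_of_one_le_of_nonpos hp1 (by linarith)
        have e2 : dk k (p ^ (v - x)) ≤ ((v : ℝ) + 1) ^ k := by
          refine (dk_pow_le h1 hp k (v - x)).trans ?_
          have : ((v - x : ℕ) : ℝ) ≤ v := by exact_mod_cast Nat.sub_le v x
          exact pow_le_pow_left₀ (by positivity) (by linarith) k
        have e3 : dk k (p ^ (v - x)) * ((p ^ (v - x) : ℕ) : ℝ) ^ (-η) ≤ ((v : ℝ) + 1) ^ k := by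
          calc dk k (p ^ (v - x)) * ((p ^ (v - x) : ℕ) : ℝ) ^ (-η)
              ≤ dk k (p ^ (v - x)) * 1 := mul_le_mul_of_nonneg_left e1 (h1.2.1 k _)
            _ ≤ ((v : ℝ) + 1) ^ k := by rw [mul_one]; exact e2
        have e4 : (0 : ℝ) ≤ dk k (p ^ (v - x)) * ((p ^ (v - x) : ℕ) : ℝ) ^ (-η) :=
          mul_nonneg (h1.2.1 k _) (by positivity)
        have e5 : (if x = 0 then (1 : ℝ) else c p) ≤ 2 := by
          split_ifs
          · norm_num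
          · exact hc2 p
        exact mul_le_mul e5 e3 e4 (by norm_num)
    _ = 2 * ((v : ℝ) + 1) ^ (k + 1) := by
        rw [Finset.sum_const, Finset.card_range, nsmul_eq_mul, pow_succ]
        push_cast
        ring

/-- the summand -/
def fN (c : ℕ → ℝ) (k : ℕ) (η : ℝ) (n : ℕ) : ℝ := hN c k η n ^ 2 / (n : ℝ)

lemma fN_one (h1 : S_dkB) (c : ℕ → ℝ) (k : ℕ) (η : ℝ) : fN c k η 1 = 1 := by
  unfold fN
  rw [hN_one h1]
  simp

lemma fN_mul (h1 : S_dkB) (c : ℕ → ℝ) (k : ℕ) (η : ℝ) {m n : ℕ} (h : Nat.Coprime m n) :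
    fN c k η (m * n) = fN c k η m * fN c k η n := by
  unfold fN
  rw [hN_mul h1 c k η h, mul_pow, Nat.cast_mul, mul_div_mul_comm]

lemma fN_nonneg (c : ℕ → ℝ) (k : ℕ) (η : ℝ) (n : ℕ) : 0 ≤ fN c k η n := by
  unfold fN
  positivity

lemma fN_pow_le (h1 : S_dkB) (hc : ∀ p, 0 ≤ c p) (hc2 : ∀ p, c p ≤ 2) (hη : 0 ≤ η)
    {p : ℕ} (hp : p.Prime) (v : ℕ) :
    fN c k η (p ^ v) ≤ 4 * ((v : ℝ) + 1) ^ (2 * (k + 1)) * (1 / (p : ℝ)) ^ v := by
  unfold fN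
  have h2 := hN_pow_le (k := k) h1 hc hc2 hη hp v
  have h3 : hN c k η (p ^ v) ^ 2 ≤ (2 * ((v : ℝ) + 1) ^ (k + 1)) ^ 2 :=
    pow_le_pow_left₀ (hN_pow_nonneg h1 hc hp v) h2 2
  have h4 : (2 * ((v : ℝ) + 1) ^ (k + 1)) ^ 2 = 4 * ((v : ℝ) + 1) ^ (2 * (k + 1)) := by
    rw [mul_pow, ← pow_mul, mul_comm (k + 1) 2]
    norm_num
  rw [h4] at h3
  rw [Nat.cast_pow, one_div, inv_pow, div_eq_mul_inv]
  exact mul_le_mul_of_nonneg_right h3 (by positivity)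

/-- polynomials times a geometric series -/
lemma pg_summable (a m : ℕ) : Summable fun v : ℕ => ((v : ℝ) + a) ^ m * (1 / 2 : ℝ) ^ v := by
  have h1 : Summable fun n : ℕ => (n : ℝ) ^ m * (1 / 2 : ℝ) ^ n :=
    summable_pow_mul_geometric_of_norm_lt_one m (by norm_num)
  have h2 : Summable fun n : ℕ => ((n + a : ℕ) : ℝ) ^ m * (1 / 2 : ℝ) ^ (n + a) :=
    (summable_nat_add_iff a).2 h1
  have h3 := h2.mul_left ((2 : ℝ) ^ a)
  refine h3.congr fun v => ?_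
  rw [pow_add]
  push_cast
  have h4 : (2 : ℝ) ^ a * (1 / 2 : ℝ) ^ a = 1 := by
    rw [← mul_pow]
    norm_num
  calc (2 : ℝ) ^ a * (((v : ℝ) + a) ^ m * ((1 / 2 : ℝ) ^ v * (1 / 2 : ℝ) ^ a))
      = ((v : ℝ) + a) ^ m * (1 / 2 : ℝ) ^ v * ((2 : ℝ) ^ a * (1 / 2 : ℝ) ^ a) := by ring
    _ = _ := by rw [h4, mul_one]

lemma inv_le_half {p : ℕ} (hp : p.Prime) : (1 / (p : ℝ)) ≤ 1 / 2 := by
  have hp2 : (2 : ℝ) ≤ p := by exact_mod_cast hp.two_le
  rw [div_le_div_iff₀ (by linarith) (by norm_num)]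
  linarith

lemma fN_summable (h1 : S_dkB) (hc : ∀ p, 0 ≤ c p) (hc2 : ∀ p, c p ≤ 2) (hη : 0 ≤ η) {p : ℕ}
    (hp : p.Prime) : Summable fun v : ℕ => fN c k η (p ^ v) := by
  refine Summable.of_nonneg_of_le (fun v => fN_nonneg c k η _)
    (fun v => ?_) ((pg_summable 1 (2 * (k + 1))).mul_left 4)
  refine (fN_pow_le h1 hc hc2 hη hp v).trans ?_
  rw [mul_assoc]
  refine mul_le_mul_of_nonneg_left ?_ (by norm_num)
  rw [Nat.cast_one]
  refine mul_le_mul_of_nonneg_left ?_ (by positivity)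
  exact pow_le_pow_left₀ (by positivity) (inv_le_half hp) v

/-- the constant -/
def cA (k : ℕ) : ℝ := 4 * ∑' v : ℕ, ((v : ℝ) + 3) ^ (2 * (k + 1)) * (1 / 2 : ℝ) ^ v

lemma cA_nonneg (k : ℕ) : 0 ≤ cA k := by
  unfold cA
  exact mul_nonneg (by norm_num) (tsum_nonneg fun v => by positivity)

lemma fN_tsum_le (h1 : S_dkB) (hc : ∀ p, 0 ≤ c p) (hc2 : ∀ p, c p ≤ 2) (hη : 0 ≤ η) {p : ℕ}
    (hp : p.Prime) :
    ∑' v : ℕ, fN c k η (p ^ v) ≤
      Real.exp ((k : ℝ) ^ 2 * (p : ℝ) ^ (-(1 + 2 * η)) + (2 + 2 * k) * (c p / p) +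
        cA k * (1 / (p : ℝ) ^ 2)) := by
  have hp2 : (2 : ℝ) ≤ p := by exact_mod_cast hp.two_le
  have hp0 : (0 : ℝ) < p := by linarith
  have hS := fN_summable (k := k) h1 hc hc2 hη hp
  rw [← hS.sum_add_tsum_nat_add 2, Finset.sum_range_succ, Finset.sum_range_one, pow_zero, pow_one,
    fN_one h1]
  have h2 : fN c k η p = (k * (p : ℝ) ^ (-η) + c p) ^ 2 / p := by
    unfold fN
    rw [hN_p h1 c k η hp]
  -- the tail
  have hP : Summable fun v : ℕ => ((v : ℝ) + 3) ^ (2 * (k + 1)) * (1 / 2 : ℝ) ^ v := by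
    have := pg_summable 3 (2 * (k + 1))
    push_cast at this
    exact this
  have h3 : ∑' v : ℕ, fN c k η (p ^ (v + 2)) ≤ cA k * (1 / (p : ℝ) ^ 2) := by
    have e1 : cA k * (1 / (p : ℝ) ^ 2) = ∑' v : ℕ, (4 * (1 / (p : ℝ) ^ 2)) *
        (((v : ℝ) + 3) ^ (2 * (k + 1)) * (1 / 2 : ℝ) ^ v) := by
      rw [tsum_mul_left]
      unfold cA
      ring
    rw [e1]
    refine Summable.tsum_le_tsum (fun v => ?_) ((summable_nat_add_iff 2).2 hS) (hP.mul_left _)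
    refine (fN_pow_le h1 hc hc2 hη hp (v + 2)).trans ?_
    have e2 : (1 / (p : ℝ)) ^ (v + 2) ≤ (1 / 2 : ℝ) ^ v * (1 / (p : ℝ) ^ 2) := by
      rw [pow_add, one_div_pow (p : ℝ) 2]
      exact mul_le_mul_of_nonneg_right (pow_le_pow_left₀ (by positivity) (inv_le_half hp) v)
        (by positivity)
    have e3 : (((v + 2 : ℕ) : ℝ) + 1) = (v : ℝ) + 3 := by push_cast; ring
    rw [e3]
    calc 4 * ((v : ℝ) + 3) ^ (2 * (k + 1)) * (1 / (p : ℝ)) ^ (v + 2)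
        ≤ 4 * ((v : ℝ) + 3) ^ (2 * (k + 1)) * ((1 / 2 : ℝ) ^ v * (1 / (p : ℝ) ^ 2)) :=
          mul_le_mul_of_nonneg_left e2 (by positivity)
      _ = (4 * (1 / (p : ℝ) ^ 2)) * (((v : ℝ) + 3) ^ (2 * (k + 1)) * (1 / 2 : ℝ) ^ v) := by ring
  -- the term `p`
  have h9 : (k * (p : ℝ) ^ (-η) + c p) ^ 2 / p ≤
      (k : ℝ) ^ 2 * (p : ℝ) ^ (-(1 + 2 * η)) + (2 + 2 * k) * (c p / p) := by
    have hx0 : 0 ≤ (p : ℝ) ^ (-η) := by positivity
    have hx1 : (p : ℝ) ^ (-η) ≤ 1 := Real.rpow_le_one_of_one_le_of_nonpos (by linarith) (by linarith)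
    have hk0 : (0 : ℝ) ≤ k := Nat.cast_nonneg k
    have e0 : (p : ℝ) ^ (-(1 + 2 * η)) = ((p : ℝ) ^ (-η)) ^ 2 / p := by
      rw [← Real.rpow_natCast, ← Real.rpow_mul hp0.le, div_eq_mul_inv, ← Real.rpow_neg_one (p : ℝ),
        ← Real.rpow_add hp0]
      congr 1
      push_cast
      ring
    have h10 : (k * (p : ℝ) ^ (-η) + c p) ^ 2 ≤
        (k : ℝ) ^ 2 * ((p : ℝ) ^ (-η)) ^ 2 + (2 + 2 * k) * c p := by
      have e1 : (p : ℝ) ^ (-η) * c p ≤ 1 * c p := mul_le_mul_of_nonneg_right hx1 (hc p)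
      have e2 : c p * c p ≤ 2 * c p := mul_le_mul_of_nonneg_right (hc2 p) (hc p)
      have e3 : (k * (p : ℝ) ^ (-η) + c p) ^ 2 = (k : ℝ) ^ 2 * ((p : ℝ) ^ (-η)) ^ 2 +
          2 * k * ((p : ℝ) ^ (-η) * c p) + c p * c p := by ring
      have e4 : 2 * (k : ℝ) * ((p : ℝ) ^ (-η) * c p) ≤ 2 * k * (1 * c p) :=
        mul_le_mul_of_nonneg_left e1 (by positivity)
      rw [e3]
      linarith
    rw [e0]
    calc (k * (p : ℝ) ^ (-η) + c p) ^ 2 / p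
        ≤ ((k : ℝ) ^ 2 * ((p : ℝ) ^ (-η)) ^ 2 + (2 + 2 * k) * c p) / p :=
          div_le_div_of_nonneg_right h10 hp0.le
      _ = _ := by ring
  rw [h2]
  calc 1 + (k * (p : ℝ) ^ (-η) + c p) ^ 2 / p + ∑' v : ℕ, fN c k η (p ^ (v + 2))
      ≤ ((k : ℝ) ^ 2 * (p : ℝ) ^ (-(1 + 2 * η)) + (2 + 2 * k) * (c p / p) +
        cA k * (1 / (p : ℝ) ^ 2)) + 1 := by
        linarith
    _ ≤ _ := Real.add_one_le_exp _

end AuxEmN

open AuxEmN Pool.Agent.Work.MP_56b8f5_nt.HZ.I_Em in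
/-- **EmN.** -/
theorem EmN_pf (h1 : S_dkB) : S_EmN := by
  classical
  intro k
  refine ⟨Real.exp (cA k * 2), Real.one_le_exp (mul_nonneg (cA_nonneg k) (by norm_num)),
    fun Y c η hη hc => ?_⟩
  have hc0 : ∀ p, 0 ≤ c p := fun p => (hc p).1
  have hc2 : ∀ p, c p ≤ 2 := fun p => (hc p).2
  obtain ⟨-, hS⟩ := EulerProduct.summable_and_hasSum_smoothNumbers_prod_primesBelow_tsum
    (f := fN c k η) (fN_one h1 c k η) (fun {m n} h => fN_mul h1 c k η h) (fun {p} hp => by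
      refine (fN_summable (k := k) h1 hc0 hc2 hη hp).congr fun n => ?_
      rw [Real.norm_of_nonneg (fN_nonneg c k η _)]) (Y + 1)
  have hS' : HasSum (fun n : ℕ => (open Classical in if Smo Y n then
      (∑ d ∈ n.divisors, fp c d * (dk k (n / d) * ((n / d : ℕ) : ℝ) ^ (-η))) ^ 2 / (n : ℝ) else 0))
      (∏ p ∈ (Y + 1).primesBelow, ∑' v : ℕ, fN c k η (p ^ v)) := by
    have h2 : HasSum ((Y + 1).smoothNumbers.indicator (fN c k η)) _ :=
      hasSum_subtype_iff_indicator.1 (show HasSum (fN c k η ∘ Subtype.val) _ from hS)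
    have e1 : (fun n : ℕ => (open Classical in if Smo Y n then
        (∑ d ∈ n.divisors, fp c d * (dk k (n / d) * ((n / d : ℕ) : ℝ) ^ (-η))) ^ 2 / (n : ℝ)
          else 0)) =
        (Y + 1).smoothNumbers.indicator (fN c k η) := by
      funext n
      by_cases h : n ∈ (Y + 1).smoothNumbers
      · rw [if_pos ((smo_iff Y n).2 h), Set.indicator_of_mem h]
        rfl
      · rw [if_neg (fun h' => h ((smo_iff Y n).1 h')), Set.indicator_of_notMem h]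
    rw [e1]
    exact h2
  refine ⟨hS'.summable, ?_⟩
  rw [hS'.tsum_eq]
  have hprod : ∏ p ∈ (Y + 1).primesBelow, ∑' v : ℕ, fN c k η (p ^ v) ≤
      ∏ p ∈ pr Y, Real.exp ((k : ℝ) ^ 2 * (p : ℝ) ^ (-(1 + 2 * η)) + (2 + 2 * k) * (c p / p) +
        cA k * (1 / (p : ℝ) ^ 2)) := by
    refine Finset.prod_le_prod (fun p _ => tsum_nonneg fun v => fN_nonneg c k η _) fun p hp => ?_
    exact fN_tsum_le h1 hc0 hc2 hη (Finset.mem_filter.1 hp).2
  refine hprod.trans ?_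
  rw [← Real.exp_sum, ← Real.exp_add]
  refine Real.exp_le_exp.2 ?_
  rw [Finset.sum_add_distrib, Finset.sum_add_distrib, ← Finset.mul_sum, ← Finset.mul_sum,
    ← Finset.mul_sum]
  have h2 := sum_sq_le Y
  have h3 : cA k * ∑ p ∈ pr Y, 1 / (p : ℝ) ^ 2 ≤ cA k * 2 :=
    mul_le_mul_of_nonneg_left h2 (cA_nonneg k)
  linarith

end Pool.Agent.Work.MP_56b8f5_nt.HN
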