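import Pool.Agent.Work.MP_56b8f5_nt.HN.StmtsE
import Pool.Agent.Work.MP_56b8f5_nt.HZ.I_Em

/-!
MP_56b8f5_nt, block HN, item EuN (helper37): lower bound of the sum of squares of divisor functions
by the Euler product over small primes.
-/

set_option autoImplicit false

open MeasureTheory Set Filter Topology

noncomputable section

namespace Pool.Agent.Work.MP_56b8f5_nt.HN

open Pool.Agent.Work.MP_56b8f5_nt.EM Pool.Agent.Work.MP_56b8f5_nt.WM Pool.Agent.Work.MP_56b8f5_nt.SH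
open Pool.Agent.Work.MP_56b8f5_nt.HZ

namespace AuxEuN

/-- the summand -/
def ff (k : ℕ) (η : ℝ) (n : ℕ) : ℝ := dk k n ^ 2 * (n : ℝ) ^ (-(1 + 2 * η))

lemma ff_nonneg (k : ℕ) (η : ℝ) (n : ℕ) : 0 ≤ ff k η n := by
  unfold ff
  positivity

lemma ff_one (h1 : S_dkB) (k : ℕ) (η : ℝ) : ff k η 1 = 1 := by
  unfold ff
  rw [(h1.1 k).2]
  simp

lemma ff_mul (h1 : S_dkB) (k : ℕ) (η : ℝ) {m n : ℕ} (h : Nat.Coprime m n) :
    ff k η (m * n) = ff k η m * ff k η n := by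
  unfold ff
  have h2 : dk k (m * n) = dk k m * dk k n := h1.2.2.2.2.2.2.1 k m n h
  rw [h2, Nat.cast_mul, Real.mul_rpow (Nat.cast_nonneg m) (Nat.cast_nonneg n)]
  ring

lemma exp_le (u : ℝ) (hu : 0 ≤ u) : Real.exp (u - u ^ 2) ≤ 1 + u := by
  have h1 : 0 < 1 - (u - u ^ 2) := by nlinarith [sq_nonneg (u - 1 / 2)]
  have h2 : 1 - (u - u ^ 2) ≤ Real.exp (-(u - u ^ 2)) := by
    have := Real.add_one_le_exp (-(u - u ^ 2))
    linarith
  rw [Real.exp_neg] at h2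
  have h3 : Real.exp (u - u ^ 2) ≤ (1 - (u - u ^ 2))⁻¹ := by
    have h4 := inv_anti₀ h1 h2
    rwa [inv_inv] at h4
  refine h3.trans ?_
  rw [inv_le_iff_one_le_mul₀ h1]
  nlinarith [pow_nonneg hu 3]

lemma x_le (p : ℕ) (hp : p.Prime) (η : ℝ) (hη : 0 < η) :
    (p : ℝ) ^ (-(1 + 2 * η)) ≤ 1 / (p : ℝ) := by
  have h1 : (1 : ℝ) ≤ p := by exact_mod_cast hp.one_lt.le
  calc (p : ℝ) ^ (-(1 + 2 * η)) ≤ (p : ℝ) ^ (-1 : ℝ) :=
        Real.rpow_le_rpow_of_exponent_le h1 (by linarith)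
    _ = 1 / (p : ℝ) := by rw [Real.rpow_neg_one, one_div]

end AuxEuN

open AuxEuN in
theorem EuN_pf (h1 : S_dkB) (h2 : S_SSu) : S_EuN := by
  intro k
  refine ⟨Real.exp ((k : ℝ) ^ 4 * 2), ?_, ?_⟩
  · exact Real.one_le_exp (by positivity)
  intro η hη hη1 Y
  obtain ⟨C, -, hC⟩ := h2 k
  have hS : Summable (ff k η) := (hC η hη hη1).1
  have hSn : Summable (fun n => ‖ff k η n‖) := by
    refine hS.congr fun n => ?_
    rw [Real.norm_of_nonneg (ff_nonneg k η n)]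
  have hprod := EulerProduct.prod_primesBelow_tsum_eq_tsum_smoothNumbers
    (f := ff k η) (ff_one h1 k η) (fun {m n} h => ff_mul h1 k η h) hSn (Y + 1)
  have hle : ∑' m : (Y + 1).smoothNumbers, ff k η m ≤ SS k η :=
    hS.tsum_subtype_le (ff k η) _ (ff_nonneg k η)
  have hfac : ∀ p ∈ pr Y, Real.exp ((k : ℝ) ^ 2 * (p : ℝ) ^ (-(1 + 2 * η)) -
      ((k : ℝ) ^ 2 * (p : ℝ) ^ (-(1 + 2 * η))) ^ 2) ≤ ∑' n : ℕ, ff k η (p ^ n) := by
    intro p hp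
    have hpp : p.Prime := (Finset.mem_filter.1 hp).2
    refine (exp_le _ (by positivity)).trans ?_
    have hs : Summable fun n : ℕ => ff k η (p ^ n) :=
      hS.comp_injective (Nat.pow_right_injective hpp.two_le)
    have h3 := hs.sum_le_tsum (Finset.range 2) (fun n _ => ff_nonneg k η _)
    rw [Finset.sum_range_succ, Finset.sum_range_one, pow_zero, pow_one, ff_one h1] at h3
    have h4 : ff k η p = (k : ℝ) ^ 2 * (p : ℝ) ^ (-(1 + 2 * η)) := by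
      unfold ff
      have h5 : dk k p = k := h1.2.2.2.2.2.2.2.2.1 k p hpp
      rw [h5]
    rw [h4] at h3
    exact h3
  have h6 : ∏ p ∈ pr Y, Real.exp ((k : ℝ) ^ 2 * (p : ℝ) ^ (-(1 + 2 * η)) -
      ((k : ℝ) ^ 2 * (p : ℝ) ^ (-(1 + 2 * η))) ^ 2) ≤ SS k η := by
    refine (Finset.prod_le_prod (fun p _ => (Real.exp_pos _).le) hfac).trans ?_
    exact hprod.le.trans hle
  rw [← Real.exp_sum, Finset.sum_sub_distrib, ← Finset.mul_sum] at h6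
  have h7 : ∑ p ∈ pr Y, ((k : ℝ) ^ 2 * (p : ℝ) ^ (-(1 + 2 * η))) ^ 2 ≤ (k : ℝ) ^ 4 * 2 := by
    have h8 : ∑ p ∈ pr Y, ((k : ℝ) ^ 2 * (p : ℝ) ^ (-(1 + 2 * η))) ^ 2 ≤
        ∑ p ∈ pr Y, (k : ℝ) ^ 4 * (1 / (p : ℝ) ^ 2) := by
      refine Finset.sum_le_sum fun p hp => ?_
      have hpp : p.Prime := (Finset.mem_filter.1 hp).2
      have h9 := pow_le_pow_left₀ (by positivity) (x_le p hpp η hη) 2
      rw [mul_pow]
      calc ((k : ℝ) ^ 2) ^ 2 * ((p : ℝ) ^ (-(1 + 2 * η))) ^ 2 ≤ ((k : ℝ) ^ 2) ^ 2 * (1 / (p : ℝ)) ^ 2 :=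
            mul_le_mul_of_nonneg_left h9 (by positivity)
        _ = (k : ℝ) ^ 4 * (1 / (p : ℝ) ^ 2) := by rw [← pow_mul]; ring
    refine h8.trans ?_
    rw [← Finset.mul_sum]
    exact mul_le_mul_of_nonneg_left (I_Em.sum_sq_le Y) (by positivity)
  calc Real.exp ((k : ℝ) ^ 2 * ∑ p ∈ pr Y, (p : ℝ) ^ (-(1 + 2 * η)))
      = Real.exp (∑ p ∈ pr Y, ((k : ℝ) ^ 2 * (p : ℝ) ^ (-(1 + 2 * η))) ^ 2) *
        Real.exp ((k : ℝ) ^ 2 * ∑ p ∈ pr Y, (p : ℝ) ^ (-(1 + 2 * η)) -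
          ∑ p ∈ pr Y, ((k : ℝ) ^ 2 * (p : ℝ) ^ (-(1 + 2 * η))) ^ 2) := by
        rw [← Real.exp_add]
        congr 1
        ring
    _ ≤ Real.exp ((k : ℝ) ^ 4 * 2) * SS k η :=
        mul_le_mul (Real.exp_le_exp.2 h7) h6 (Real.exp_pos _).le (Real.exp_pos _).le

end Pool.Agent.Work.MP_56b8f5_nt.HN
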