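import Pool.Agent.Work.MP_56b8f5_nt.HN.StmtsA

/-!
MP_56b8f5_nt, block HN, part A, item Fob: the form of a divisor bounded polynomial.
-/

set_option autoImplicit false

open MeasureTheory Set Filter Topology

noncomputable section

namespace Pool.Agent.Work.MP_56b8f5_nt.HN

open Pool.Agent.Work.MP_56b8f5_nt.EM Pool.Agent.Work.MP_56b8f5_nt.WM Pool.Agent.Work.MP_56b8f5_nt.SH
open Pool.Agent.Work.MP_56b8f5_nt.HZ

namespace AuxFob

theorem term (h1 : S_dkB) (k n : ℕ) (hn : n ≠ 0) (D : ℕ → ℂ) (hD : ∀ n, ‖D n‖ ≤ dk k n) :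
    ‖∑ d ∈ n.divisors, D d‖ ^ 2 / (n : ℝ) ≤ dk (k + 1) n ^ 2 / (n : ℝ) := by
  obtain ⟨-, -, -, -, h5, -⟩ := h1
  have h : ‖∑ d ∈ n.divisors, D d‖ ≤ dk (k + 1) n := by
    rw [h5 k n hn]
    exact (norm_sum_le _ _).trans (Finset.sum_le_sum fun d _ => hD d)
  exact div_le_div_of_nonneg_right (pow_le_pow_left₀ (norm_nonneg _) h 2) (Nat.cast_nonneg n)

end AuxFob

theorem Fob_pf (h1 : S_dkB) (h2 : S_SmN) (h3 : HZ.S_FoV) (h4 : HZ.S_Msu) : S_Fob := by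
  intro k
  obtain ⟨C1, hC1, hS⟩ := h2.2 (k + 1)
  obtain ⟨C2, hC2, -, hV⟩ := h4
  refine ⟨100 * (C1 * C2), 3 ^ 100, ?_, by norm_num, ?_⟩
  · nlinarith
  intro T hT N' D hN hNT hD hsupp
  have hT0 : 0 < T := by
    have : (0 : ℝ) < 3 ^ 100 := by positivity
    linarith
  have hT1 : 1 ≤ T := by
    have : (1 : ℝ) ≤ 3 ^ 100 := one_le_pow₀ (by norm_num)
    linarith
  have hY3 : (3 : ℝ) ≤ T ^ (1 / 100 : ℝ) := by
    have e : ((3 : ℝ) ^ 100) ^ (1 / 100 : ℝ) = 3 := by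
      rw [← Real.rpow_natCast, ← Real.rpow_mul (by norm_num)]
      norm_num
    rw [← e]
    exact Real.rpow_le_rpow (by positivity) hT (by norm_num)
  have hNY : (N' : ℝ) ≤ T ^ (1 / 100 : ℝ) := by
    have e : ((N' : ℝ) ^ 100) ^ (1 / 100 : ℝ) = N' := by
      rw [← Real.rpow_natCast, ← Real.rpow_mul (Nat.cast_nonneg _)]
      norm_num
    rw [← e]
    exact Real.rpow_le_rpow (by positivity) hNT (by norm_num)
  have hNf : N' ≤ ⌊T ^ (1 / 100 : ℝ)⌋₊ := Nat.le_floor hNY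
  have hY3' : 3 ≤ ⌊T ^ (1 / 100 : ℝ)⌋₊ := Nat.le_floor (by exact_mod_cast hY3)
  obtain ⟨hVV, hsum⟩ := h3 ⌊T ^ (1 / 100 : ℝ)⌋₊ N' D (fun n hn => by
    obtain ⟨a, b⟩ := hsupp n hn
    refine ⟨b, by omega, fun p _ hpn => ?_⟩
    exact (Nat.le_of_dvd (by omega) hpn).trans (b.trans hNf))
  obtain ⟨hsm, hle⟩ := hS ⌊T ^ (1 / 100 : ℝ)⌋₊ (by omega)
  have hlog0 : 0 < Real.log T := Real.log_pos (by linarith [show (1 : ℝ) < 3 ^ 100 by norm_num])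
  have hlogY : Real.log (T ^ (1 / 100 : ℝ)) = Real.log T / 100 := by
    rw [Real.log_rpow hT0]
    ring
  have hV' := hV _ hY3
  rw [hlogY] at hV'
  have hYT : (⌊T ^ (1 / 100 : ℝ)⌋₊ : ℝ) ≤ T := by
    refine (Nat.floor_le (Real.rpow_nonneg hT0.le _)).trans ?_
    calc T ^ (1 / 100 : ℝ) ≤ T ^ (1 : ℝ) :=
          Real.rpow_le_rpow_of_exponent_le hT1 (by norm_num)
      _ = T := Real.rpow_one T
  have hY3r : (3 : ℝ) ≤ (⌊T ^ (1 / 100 : ℝ)⌋₊ : ℝ) := by exact_mod_cast hY3'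
  have hlogle : Real.log (⌊T ^ (1 / 100 : ℝ)⌋₊ : ℝ) ≤ Real.log T :=
    Real.log_le_log (by linarith) hYT
  have hlogn : 0 ≤ Real.log (⌊T ^ (1 / 100 : ℝ)⌋₊ : ℝ) := Real.log_nonneg (by linarith)
  have hfo : Fo N' D / VV ⌊T ^ (1 / 100 : ℝ)⌋₊ ≤ C1 * Real.log T ^ (k + 1) ^ 2 := by
    rw [← hsum.tsum_eq]
    refine (Summable.tsum_le_tsum ?_ hsum.summable hsm).trans (hle.trans ?_)
    · intro n
      split_ifs with hn
      · exact AuxFob.term h1 k n hn.1 D hD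
      · exact le_refl _
    · exact mul_le_mul_of_nonneg_left (pow_le_pow_left₀ hlogn hlogle _) (by linarith)
  rw [div_le_iff₀ hVV] at hfo
  have hp : 0 ≤ Real.log T ^ (k + 1) ^ 2 := pow_nonneg hlog0.le _
  calc Real.log T * Fo N' D
      ≤ Real.log T * (C1 * Real.log T ^ (k + 1) ^ 2 * VV ⌊T ^ (1 / 100 : ℝ)⌋₊) :=
        mul_le_mul_of_nonneg_left hfo hlog0.le
    _ ≤ Real.log T * (C1 * Real.log T ^ (k + 1) ^ 2 * (C2 / (Real.log T / 100))) := by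
        refine mul_le_mul_of_nonneg_left (mul_le_mul_of_nonneg_left hV' ?_) hlog0.le
        exact mul_nonneg (by linarith) hp
    _ = 100 * (C1 * C2) * Real.log T ^ (k + 1) ^ 2 := by
        field_simp

end Pool.Agent.Work.MP_56b8f5_nt.HN
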