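import Pool.Agent.Work.MP_56b8f5_nt.HN.StmtsT
import Pool.Agent.Work.MP_56b8f5_nt.HZ.I_Gro

/-!
MP_56b8f5_nt, block HN, item GrN: growth of `(zeta M - 1) Qt` for divisor bounded coefficients.
-/

set_option autoImplicit false

open MeasureTheory Set Filter Topology

noncomputable section

namespace Pool.Agent.Work.MP_56b8f5_nt.HN

open Pool.Agent.Work.MP_56b8f5_nt.EM Pool.Agent.Work.MP_56b8f5_nt.WM Pool.Agent.Work.MP_56b8f5_nt.SH
open Pool.Agent.Work.MP_56b8f5_nt.HZ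

namespace AuxGrN

lemma dk_nonneg (k n : ℕ) : 0 ≤ dk k n := by
  unfold dk
  exact Nat.cast_nonneg _

lemma Qt_norm (hdk : S_dkS) {k : ℕ} {η T : ℝ} {N : ℕ} {q : ℕ → ℝ} (hη : 0 < η)
    (hq : IsDk k η T N q) {b τ : ℝ} (hb : b ≤ 3 / 2) {s : ℂ} (hs : 1 / 2 ≤ s.re) :
    ‖Ds N (qt q b τ) s‖ ≤ 2 ^ k * T := by
  have hN1 : (1 : ℝ) ≤ N := by exact_mod_cast hq.one
  have hN0 : (0 : ℝ) ≤ N := by linarith
  have hN3 : (N : ℝ) ^ 3 ≤ T := (pow_le_pow_right₀ hN1 (by norm_num)).trans hq.len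
  have hsum : ∑ n ∈ Finset.Icc 1 N, q n ≤ 2 ^ k * (N : ℝ) ^ 2 := by
    refine le_trans (Finset.sum_le_sum fun n hn => ?_) (hdk k N hq.one).1
    obtain ⟨hn1, -⟩ := Finset.mem_Icc.1 hn
    have hn1' : (1 : ℝ) ≤ n := by exact_mod_cast hn1
    refine (hq.le n).trans ?_
    calc dk k n * (n : ℝ) ^ (-η) ≤ dk k n * 1 := by
          refine mul_le_mul_of_nonneg_left ?_ (dk_nonneg k n)
          exact Real.rpow_le_one_of_one_le_of_nonpos hn1' (by linarith)
      _ = dk k n := mul_one _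
  refine (HZ.I_Gro.Ds_norm _ _ _).trans ?_
  calc ∑ n ∈ Finset.Icc 1 N, ‖qt q b τ n‖ * (n : ℝ) ^ (-s.re)
      ≤ ∑ n ∈ Finset.Icc 1 N, q n * (N : ℝ) := by
        refine Finset.sum_le_sum fun n hn => ?_
        obtain ⟨hn1, hn2⟩ := Finset.mem_Icc.1 hn
        have hn1' : (1 : ℝ) ≤ n := by exact_mod_cast hn1
        have hn0 : (0 : ℝ) < n := by linarith
        have hnN : (n : ℝ) ≤ N := by exact_mod_cast hn2
        unfold qt
        rw [norm_mul, Complex.norm_real, Real.norm_eq_abs, abs_of_nonneg (hq.nonneg n),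
          Complex.norm_natCast_cpow_of_pos hn1, mul_assoc, ← Real.rpow_add hn0]
        refine mul_le_mul_of_nonneg_left ?_ (hq.nonneg n)
        have hre : ((b : ℂ) - τ * Complex.I).re = b := by simp
        rw [hre]
        calc (n : ℝ) ^ (b + -s.re) ≤ (n : ℝ) ^ (1 : ℝ) :=
              Real.rpow_le_rpow_of_exponent_le hn1' (by linarith)
          _ = n := Real.rpow_one _
          _ ≤ N := hnN
    _ = (∑ n ∈ Finset.Icc 1 N, q n) * (N : ℝ) := (Finset.sum_mul _ _ _).symm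
    _ ≤ (2 ^ k * (N : ℝ) ^ 2) * N := mul_le_mul_of_nonneg_right hsum hN0
    _ = 2 ^ k * (N : ℝ) ^ 3 := by ring
    _ ≤ 2 ^ k * T := mul_le_mul_of_nonneg_left hN3 (by positivity)

end AuxGrN

open AuxGrN in
theorem GrN_pf (hdk : S_dkS) : S_GrN := by
  intro k P hP
  obtain ⟨K, hK⟩ := hP.smooth.continuous.bounded_above_of_compact_support hP.supp
  have hK' : ∀ x, |P x| ≤ K := fun x => by
    rw [← Real.norm_eq_abs]
    exact hK x
  have hK0 : 0 ≤ K := (abs_nonneg _).trans (hK' 0)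
  refine ⟨(6 * K + 1) * 2 ^ k + 4, ?_, fun T hT η hη _ N q hq b τ hb0 hb => ?_⟩
  · have : 0 ≤ (6 * K + 1) * 2 ^ k := by positivity
    linarith
  have hKk : 0 ≤ (6 * K + 1) * 2 ^ k := by positivity
  have hT4 : 4 ≤ T := by linarith
  have hTk : (6 * K + 1) * 2 ^ k ≤ T := by linarith
  have hT1 : 1 ≤ T := by linarith
  refine ⟨fun s => (riemannZeta₁ s * MM P (T ^ (1 / 10 : ℝ)) s - (s - 1)) * Ds N (qt q b τ) s,
    ?_, fun s h1 h2 => ?_, fun s hs => ?_⟩
  · refine Differentiable.mul (Differentiable.sub (differentiable_riemannZeta₁.mul ?_) ?_)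
      (HZ.I_Gro.Ds_diff _ _)
    · exact HZ.I_Gro.Ds_diff _ _
    · exact differentiable_id.sub_const 1
  · obtain ⟨ha, hc⟩ := HZ.I_Gro.z1_norm h1 h2
    have hMM := HZ.I_Gro.MM_norm hK' hT1 (show 0 ≤ s.re by linarith)
    have hQ := Qt_norm hdk hη hq (τ := τ) hb h1
    have hv : 0 ≤ |s.im| := abs_nonneg _
    set v := 1 + |s.im| with hvd
    have hv1 : 1 ≤ v := by linarith
    have e1 : ‖riemannZeta₁ s * MM P (T ^ (1 / 10 : ℝ)) s - (s - 1)‖ ≤ (6 * K + 1) * T * v ^ 2 := by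
      calc ‖riemannZeta₁ s * MM P (T ^ (1 / 10 : ℝ)) s - (s - 1)‖
          ≤ ‖riemannZeta₁ s * MM P (T ^ (1 / 10 : ℝ)) s‖ + ‖s - 1‖ := norm_sub_le _ _
        _ ≤ 6 * v ^ 2 * (K * T) + v := by
            rw [norm_mul]
            refine add_le_add (mul_le_mul ha hMM (norm_nonneg _) (by positivity)) hc
        _ ≤ 6 * v ^ 2 * (K * T) + T * v ^ 2 := by
            have : v ≤ v ^ 2 := by nlinarith
            have : v ^ 2 ≤ T * v ^ 2 := by nlinarith [sq_nonneg v]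
            linarith
        _ = (6 * K + 1) * T * v ^ 2 := by ring
    rw [norm_mul]
    calc ‖riemannZeta₁ s * MM P (T ^ (1 / 10 : ℝ)) s - (s - 1)‖ * ‖Ds N (qt q b τ) s‖
        ≤ ((6 * K + 1) * T * v ^ 2) * (2 ^ k * T) := by
          refine mul_le_mul e1 hQ (norm_nonneg _) (by positivity)
      _ = ((6 * K + 1) * 2 ^ k * T ^ 2) * v ^ 2 := by ring
      _ ≤ (T * T ^ 2) * v ^ 2 := by
          refine mul_le_mul_of_nonneg_right (mul_le_mul_of_nonneg_right hTk (by positivity))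
            (by positivity)
      _ = T ^ 3 * v ^ 2 := by ring
      _ ≤ T ^ 10 * v ^ 10 := by
          refine mul_le_mul (pow_le_pow_right₀ hT1 (by norm_num))
            (pow_le_pow_right₀ hv1 (by norm_num)) (by positivity) (by positivity)
  · have hs0 : s - 1 ≠ 0 := sub_ne_zero.2 hs
    show (riemannZeta s * MM P (T ^ (1 / 10 : ℝ)) s - 1) * Ds N (qt q b τ) s =
      (riemannZeta₁ s * MM P (T ^ (1 / 10 : ℝ)) s - (s - 1)) * Ds N (qt q b τ) s / (s - 1)
    rw [riemannZeta_eq_inv_sub_mul hs]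
    field_simp

end Pool.Agent.Work.MP_56b8f5_nt.HN
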