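import Pool.Agent.Work.MP_56b8f5_nt.HN.StmtsF

/-!
MP_56b8f5_nt, block HN: the final statement with explicit error from the upper and the lower bound.
-/

set_option autoImplicit false

open MeasureTheory Set Filter Topology

noncomputable section

namespace Pool.Agent.Work.MP_56b8f5_nt.HN

open Pool.Agent.Work.MP_56b8f5_nt.EM Pool.Agent.Work.MP_56b8f5_nt.WM Pool.Agent.Work.MP_56b8f5_nt.SH
open Pool.Agent.Work.MP_56b8f5_nt.HZ

theorem HNF_pf (hU : S_UpE) (hL : S_LoE) (h3 : S_SSb) : S_HNF := by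
  intro k hk C₀ hC₀
  obtain ⟨k, rfl⟩ : ∃ j, k = j + 1 := ⟨k - 1, by omega⟩
  obtain ⟨c₁, C₁, T₁, hc₁, hC₁, hT₁, h1⟩ := hL k C₀ hC₀
  obtain ⟨c₂, C₂, T₂, hc₂, hC₂, hT₂, h2⟩ := hU k C₀ (by linarith)
  obtain ⟨C3, hC3, H3⟩ := h3 (k + 1)
  refine ⟨min c₁ c₂, max C₁ C₂, max T₁ T₂, lt_min hc₁ hc₂, hC₁.trans (le_max_left _ _),
    hT₁.trans (le_max_left _ _), fun T hT σ A hσ hA h4 h5 => ?_⟩
  have hTT₁ : T₁ ≤ T := (le_max_left _ _).trans hT
  have hTT₂ : T₂ ≤ T := (le_max_right _ _).trans hT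
  have hT0 : 0 < T := by linarith
  have hlog : 0 < Real.log T := Real.log_pos (by linarith)
  have hη0 : 0 < σ - 1 / 2 := by
    by_contra hcon
    have e1 : (σ - 1 / 2) * Real.log T ≤ 0 :=
      mul_nonpos_of_nonpos_of_nonneg (not_lt.1 hcon) hlog.le
    have e2 : min c₁ c₂ * ((σ - 1 / 2) * Real.log T) ≤ 0 :=
      mul_nonpos_of_nonneg_of_nonpos (lt_min hc₁ hc₂).le e1
    linarith
  have hX0 : 0 < (σ - 1 / 2) * Real.log T := mul_pos hη0 hlog
  have hLL : 0 < Real.log T / Real.log (Real.log T) := by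
    by_contra hcon
    have := mul_nonpos_of_nonneg_of_nonpos (lt_min hc₁ hc₂).le (not_lt.1 hcon)
    linarith
  have e1 : A ≤ c₁ * ((σ - 1 / 2) * Real.log T) :=
    h4.trans (mul_le_mul_of_nonneg_right (min_le_left _ _) hX0.le)
  have e2 : A ≤ c₂ * ((σ - 1 / 2) * Real.log T) :=
    h4.trans (mul_le_mul_of_nonneg_right (min_le_right _ _) hX0.le)
  have e3 : σ - 1 / 2 ≤ 1 / 8 := by linarith
  have e4 : A ≤ c₂ * (Real.log T / Real.log (Real.log T)) :=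
    h5.trans (mul_le_mul_of_nonneg_right (min_le_right _ _) hLL.le)
  have a1 := h1 T hTT₁ (σ - 1 / 2) A e3 hA e1
  have a2 := h2 T hTT₂ (σ - 1 / 2) A e3 hA e2 e4
  have hS : 1 ≤ SS (k + 1) (σ - 1 / 2) := (H3 _ hη0 e3).2.1
  have es : ∀ t : ℝ, sp (σ - 1 / 2) t = (σ : ℂ) + t * Complex.I := by
    intro t
    unfold sp
    congr 2
    ring
  have eS : SS (k + 1) (σ - 1 / 2) = ∑' n : ℕ, dk (k + 1) n ^ 2 * (n : ℝ) ^ (-(2 * σ)) := by
    unfold SS
    refine tsum_congr fun n => ?_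
    have : -(1 + 2 * (σ - 1 / 2)) = -(2 * σ) := by ring
    rw [this]
  simp only [es] at a1 a2
  rw [eS] at a1 a2 hS
  have hB : 0 ≤ T * ∑' n : ℕ, dk (k + 1) n ^ 2 * (n : ℝ) ^ (-(2 * σ)) :=
    mul_nonneg hT0.le (by linarith)
  have hE : 0 < Real.exp (-(A / 200)) := Real.exp_pos _
  have m1 : C₁ * Real.exp (-(A / 200)) ≤ max C₁ C₂ * Real.exp (-(A / 200)) :=
    mul_le_mul_of_nonneg_right (le_max_left _ _) hE.le
  have m2 : C₂ * Real.exp (-(A / 200)) ≤ max C₁ C₂ * Real.exp (-(A / 200)) :=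
    mul_le_mul_of_nonneg_right (le_max_right _ _) hE.le
  have n1 := mul_le_mul_of_nonneg_right m1 hB
  have n2 := mul_le_mul_of_nonneg_right m2 hB
  rw [abs_le]
  constructor <;> linarith

end Pool.Agent.Work.MP_56b8f5_nt.HN
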