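import Pool.Agent.Work.MP_56b8f5_nt.HN.StmtsT
import Pool.Agent.Work.MP_56b8f5_nt.HZ.I_Lh

/-!
MP_56b8f5_nt, block HN, item LhN: the mean squares on the line `1/2`.
-/

set_option autoImplicit false

open MeasureTheory Set Filter Topology

noncomputable section

namespace Pool.Agent.Work.MP_56b8f5_nt.HN

open Pool.Agent.Work.MP_56b8f5_nt.EM Pool.Agent.Work.MP_56b8f5_nt.WM Pool.Agent.Work.MP_56b8f5_nt.SH
open Pool.Agent.Work.MP_56b8f5_nt.HZ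

namespace AuxLhN

open Pool.Agent.Work.MP_56b8f5_nt.HZ.I_Lh

lemma dk_nonneg (k n : ℕ) : 0 ≤ dk k n := Nat.cast_nonneg _

lemma le_Y (N : ℕ) (T Y : ℝ) (hN1 : 1 ≤ N) (hY0 : 0 < Y) (hTY : T = Y ^ 10)
    (hN : (N : ℝ) ^ 100 ≤ T) : (N : ℝ) ≤ Y := by
  have hN1' : (1 : ℝ) ≤ N := by exact_mod_cast hN1
  have h1 : ((N : ℝ) ^ 10) ^ 10 ≤ Y ^ 10 := by
    rw [← pow_mul, ← hTY]
    exact hN
  have h2 : (N : ℝ) ^ 10 ≤ Y := le_of_pow_le_pow_left₀ (by norm_num) hY0.le h1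
  exact (le_self_pow₀ hN1' (by norm_num)).trans h2

/-- the sum of the squares of the coefficients -/
lemma sq_sumN (k N : ℕ) (η : ℝ) (q : ℕ → ℝ) (h0 : ∀ n, 0 ≤ q n)
    (hle : ∀ n, q n ≤ dk k n * (n : ℝ) ^ (-η))
    (hsm : Summable (fun n : ℕ => dk k n ^ 2 * (n : ℝ) ^ (-(1 + 2 * η)))) :
    ∑ n ∈ Finset.Icc 1 N, q n ^ 2 / (n : ℝ) ≤ SS k η := by
  have h1 : ∑ n ∈ Finset.Icc 1 N, q n ^ 2 / (n : ℝ) ≤
      ∑ n ∈ Finset.Icc 1 N, dk k n ^ 2 * (n : ℝ) ^ (-(1 + 2 * η)) := by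
    refine Finset.sum_le_sum fun n hn => ?_
    have hn0 : (0 : ℝ) < n := by exact_mod_cast (Finset.mem_Icc.1 hn).1
    have h2 : (n : ℝ) ^ (-(1 + 2 * η)) = ((n : ℝ) ^ (-η)) ^ 2 / n := by
      rw [← Real.rpow_natCast, ← Real.rpow_mul hn0.le, div_eq_mul_inv, ← Real.rpow_neg_one,
        ← Real.rpow_add hn0]
      congr 1
      push_cast
      ring
    rw [h2, ← mul_div_assoc, ← mul_pow]
    exact div_le_div_of_nonneg_right (pow_le_pow_left₀ (h0 n) (hle n) 2) hn0.le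
  refine h1.trans ?_
  exact hsm.sum_le_tsum _ fun n _ => by positivity

/-- the sum of the coefficients -/
lemma sumq (h6 : S_dkS) (k N : ℕ) (η T : ℝ) (q : ℕ → ℝ) (hη : 0 ≤ η) (hN1 : 1 ≤ N)
    (hle : ∀ n, q n ≤ dk k n * (n : ℝ) ^ (-η)) (hN : (N : ℝ) ^ 100 ≤ 2 * T) :
    ∑ n ∈ Finset.Icc 1 N, q n ≤ 2 ^ k * (2 * T) ^ (1 / 50 : ℝ) := by
  have h1 : ∑ n ∈ Finset.Icc 1 N, q n ≤ ∑ n ∈ Finset.Icc 1 N, dk k n := by
    refine Finset.sum_le_sum fun n hn => (hle n).trans ?_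
    have hn1 : (1 : ℝ) ≤ n := by exact_mod_cast (Finset.mem_Icc.1 hn).1
    refine mul_le_of_le_one_right (dk_nonneg k n) ?_
    exact Real.rpow_le_one_of_one_le_of_nonpos hn1 (by linarith)
  have h2 := (h6 k N hN1).1
  have h3 : (N : ℝ) ^ 2 ≤ (2 * T) ^ (1 / 50 : ℝ) := by
    have hN0 : (0 : ℝ) ≤ N := Nat.cast_nonneg N
    have h4 : (N : ℝ) ^ 2 = ((N : ℝ) ^ 100) ^ (1 / 50 : ℝ) := by
      rw [← Real.rpow_natCast, ← Real.rpow_natCast (N : ℝ) 100, ← Real.rpow_mul hN0]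
      norm_num
    rw [h4]
    exact Real.rpow_le_rpow (by positivity) hN (by norm_num)
  exact h1.trans (h2.trans (mul_le_mul_of_nonneg_left h3 (by positivity)))

/-- the second integral -/
lemma secondN (T : ℝ) (hT : 0 < T) (N : ℕ) (q : ℕ → ℝ) (b τ X : ℝ)
    (hb : 0 ≤ b) (hb' : b ≤ 3 / 2) (hN : (N : ℝ) ^ 100 ≤ 2 * T) (hN2 : (N : ℝ) ^ 2 ≤ 2 * T)
    (h0 : ∀ n, 0 ≤ q n) (hs : ∀ n, q n ≠ 0 → 1 ≤ n ∧ n ≤ N)
    (hX : ∑ n ∈ Finset.Icc 1 N, q n ^ 2 / (n : ℝ) ≤ X) :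
    ∫ v in (T / 4)..(5 * T), ‖Ds N (qt q b τ) (1 / 2 + (v : ℂ) * Complex.I)‖ ^ 2 ≤
      34 * (T ^ (1 + b / 50 : ℝ) * X) := by
  have h1 : ∑ n ∈ Finset.Icc 1 N, ‖qt q b τ n‖ ^ 2 / (n : ℝ) ≤
      ((N : ℝ) ^ b) ^ 2 * ∑ n ∈ Finset.Icc 1 N, q n ^ 2 / (n : ℝ) := by
    rw [Finset.mul_sum]
    refine Finset.sum_le_sum fun n _ => ?_
    rw [← mul_div_assoc, ← mul_pow]
    refine div_le_div_of_nonneg_right ?_ (Nat.cast_nonneg n)
    exact pow_le_pow_left₀ (norm_nonneg _) (qt_le q b τ N hb h0 hs n) 2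
  have h3 := R2 N T b hT hN hb hb'
  have h4 : ∑ n ∈ Finset.Icc 1 N, ‖qt q b τ n‖ ^ 2 / (n : ℝ) ≤ 2 * T ^ (b / 50) * X := by
    refine h1.trans ?_
    exact mul_le_mul h3 hX (Finset.sum_nonneg fun n _ => by positivity) (by positivity)
  calc ∫ v in (T / 4)..(5 * T), ‖Ds N (qt q b τ) (1 / 2 + (v : ℂ) * Complex.I)‖ ^ 2
      ≤ 17 * T * ∑ n ∈ Finset.Icc 1 N, ‖qt q b τ n‖ ^ 2 / (n : ℝ) := mv N _ T hT.le hN2
    _ ≤ 17 * T * (2 * T ^ (b / 50) * X) := mul_le_mul_of_nonneg_left h4 (by positivity)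
    _ = 34 * (T ^ (1 + b / 50 : ℝ) * X) := by
        rw [Real.rpow_add hT, Real.rpow_one]
        ring

end AuxLhN

open Pool.Agent.Work.MP_56b8f5_nt.HZ.I_Lh AuxLhN in
/-- **LhN.** -/
theorem LhN_pf (h1 : HZ.S_FoP) (h2 : HZ.S_Q2) (h3 : S_FbN) (h4 : HZ.S_Wt) (h5 : HZ.S_DsM)
    (h6 : S_dkS) (h7 : S_SSb) : S_LhN := by
  intro k P hP
  obtain ⟨w, hw, hw1⟩ := h4
  obtain ⟨C₂, T₂, hC₂, hT₂, hQ2⟩ := h2 w hw
  obtain ⟨C₃, hC₃, hF3⟩ := h3 k P hP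
  obtain ⟨C₄, hC₄, hF4⟩ := h3 k _ (IsP1 hP)
  obtain ⟨C₇, hC₇, hSS⟩ := h7 k
  obtain ⟨K, hK0, hK⟩ := bdd hP
  have hC5 : 0 ≤ 30 * C₂ * (3 * C₃ + 2 * C₄) + 8 * C₂ * K ^ 2 * 4 ^ k := by positivity
  refine ⟨12 * (30 * C₂ * (3 * C₃ + 2 * C₄) + 8 * C₂ * K ^ 2 * 4 ^ k) + 34, max T₂ (256 ^ 10),
    by linarith, le_max_of_le_left hT₂, ?_⟩
  intro T hT η hη0 hη1 N q hq b τ hb hb'
  obtain ⟨hsm, hX1, -, -⟩ := hSS η hη0 hη1
  have hTT₂ : T₂ ≤ T := (le_max_left _ _).trans hT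
  have hT256 : (256 : ℝ) ^ 10 ≤ T := (le_max_right _ _).trans hT
  have hT0 : 0 < T := by
    have : (0 : ℝ) < 256 ^ 10 := by positivity
    linarith
  have hT1 : 1 ≤ T := by
    have : (1 : ℝ) ≤ 256 ^ 10 := by norm_num
    linarith
  set Y : ℝ := T ^ (1 / 10 : ℝ) with hYd
  have hTY : T = Y ^ 10 := by
    rw [hYd, ← Real.rpow_natCast, ← Real.rpow_mul hT0.le]
    norm_num
  have hY0 : 0 < Y := Real.rpow_pos_of_pos hT0 _
  have hY : 256 ≤ Y := by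
    rw [hTY] at hT256
    exact le_of_pow_le_pow_left₀ (by norm_num) hY0.le hT256
  have hlen2 : (N : ℝ) ^ 100 ≤ 2 * T := by
    have := hq.len
    linarith
  obtain ⟨n1, n2, n3⟩ := nums T Y N hY hTY hq.one hlen2
  have hNY : (N : ℝ) ≤ Y := le_Y N T Y hq.one hY0 hTY hq.len
  obtain ⟨X, hX⟩ : ∃ X : ℝ, X = SS k η := ⟨_, rfl⟩
  have hsec := secondN T hT0 N q b τ X hb hb' hlen2 n3 hq.nonneg hq.supp
    (by rw [hX]; exact sq_sumN k N η q hq.nonneg hq.le hsm)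
  rw [← hX] at hX1 ⊢
  have hTX : 0 ≤ T ^ (1 + b / 50 : ℝ) * X := by positivity
  constructor
  swap
  · refine hsec.trans ?_
    rw [mul_assoc]
    exact mul_le_mul_of_nonneg_right (by linarith) hTX
  -- the first integral
  set L := Real.log T with hL
  have hLY : L = 10 * Real.log Y := by
    rw [hL, hTY, Real.log_pow]
    push_cast
    rfl
  have hlY : 0 < Real.log Y := Real.log_pos (by linarith)
  have hL0 : 0 < L := by rw [hLY]; positivity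
  set R : ℝ := (N : ℝ) ^ b with hR
  have hR0 : 0 ≤ R := by rw [hR]; positivity
  set Q : ℕ → ℂ := qt q b τ with hQ
  have hQle : ∀ n, ‖Q n‖ ≤ R * q n := qt_le q b τ N hb hq.nonneg hq.supp
  have hQs : ∀ n, Q n ≠ 0 → 1 ≤ n ∧ n ≤ N := fun n hn => hq.supp n (qt_ne q b τ n hn)
  set Q' : ℕ → ℂ := fun m => -((Real.log m / (10 * Real.log Y) : ℝ) : ℂ) * Q m with hQ'
  have hQs' : ∀ n, Q' n ≠ 0 → 1 ≤ n ∧ n ≤ N := fun n hn => hQs n fun hc => hn (by simp [hQ', hc])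
  have hQle' : ∀ n, ‖Q' n‖ ≤ R * q n := by
    intro n
    by_cases hc : Q n = 0
    · have : Q' n = 0 := by simp [hQ', hc]
      rw [this, norm_zero]
      exact mul_nonneg hR0 (hq.nonneg n)
    · obtain ⟨a1, a2⟩ := hQs n hc
      have a3 : (1 : ℝ) ≤ n := by exact_mod_cast a1
      have a4 : (n : ℝ) ≤ T := by
        have : (n : ℝ) ≤ N := by exact_mod_cast a2
        linarith
      have a5 : |Real.log n / (10 * Real.log Y)| ≤ 1 := by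
        rw [← hLY, abs_of_nonneg (div_nonneg (Real.log_nonneg a3) hL0.le), div_le_one hL0, hL]
        exact Real.log_le_log (by linarith) a4
      rw [hQ']
      simp only
      rw [norm_mul, norm_neg, Complex.norm_real, Real.norm_eq_abs]
      calc |Real.log n / (10 * Real.log Y)| * ‖Q n‖ ≤ 1 * ‖Q n‖ :=
            mul_le_mul_of_nonneg_right a5 (norm_nonneg _)
        _ ≤ R * q n := by rw [one_mul]; exact hQle n
  set Yn : ℕ := ⌈Y⌉₊ with hYn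
  have hYYn : Y ≤ (Yn : ℝ) := Nat.le_ceil Y
  set D : ℕ → ℂ := cvl (muP P Y) Q with hD
  have hmu : ∀ n, muP P Y n ≠ 0 → 1 ≤ n ∧ n ≤ Yn := fun n hn =>
    ⟨(muP_ne P hP Y (by linarith) n hn).1,
      (muP_ne P hP Y (by linarith) n hn).2.trans (Nat.floor_le_ceil Y)⟩
  have hlen : Y * (N : ℕ) ≤ ((Yn * N : ℕ) : ℝ) := by
    push_cast
    exact mul_le_mul_of_nonneg_right hYYn (Nat.cast_nonneg N)
  have hQp : ∀ n, ‖Q n‖ ≤ R * (dk k n * (n : ℝ) ^ (-η)) := fun n =>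
    (hQle n).trans (mul_le_mul_of_nonneg_left (hq.le n) hR0)
  have hQp' : ∀ n, ‖Q' n‖ ≤ R * (dk k n * (n : ℝ) ^ (-η)) := fun n =>
    (hQle' n).trans (mul_le_mul_of_nonneg_left (hq.le n) hR0)
  have f1 := hF3 Y R η Q N (Yn * N) (by linarith) hR0 hη0 hη1 hQp hQs hNY hlen
  have f2 := hF3 Y R η Q' N (Yn * N) (by linarith) hR0 hη0 hη1 hQp' hQs' hNY hlen
  have f3 := hF4 Y R η Q N (Yn * N) (by linarith) hR0 hη0 hη1 hQp hQs hNY hlen
  rw [← hX] at f1 f2 f3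
  have f4 : Fo (Yn * N) (fun n => ((1 - Real.log n / L : ℝ) : ℂ) * D n) ≤
      2 * (C₄ * R ^ 2 / Real.log Y * X) + 2 * (C₃ * R ^ 2 / Real.log Y * X) := by
    have g1 : (fun n : ℕ => ((1 - Real.log n / L : ℝ) : ℂ) * D n) = fun n =>
        cvl (muP (fun ξ => P ξ * (1 - ξ / 10)) Y) Q n + cvl (muP P Y) Q' n := by
      funext n
      rw [hLY, hD, hQ']
      exact D1_eq P Y (by linarith) Q n
    rw [g1]
    refine (h1.2.1 _ _ _).trans ?_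
    linarith
  have f5 : 0 ≤ Fo (Yn * N) D := h1.1 _ _
  have f6 : 0 ≤ Fo (Yn * N) (fun n => ((1 - Real.log n / L : ℝ) : ℂ) * D n) := h1.1 _ _
  have hq2 := hQ2 (6 * T) (by linarith) (Yn * N) (Nat.one_le_iff_ne_zero.2 (by
    have hYn0 : 0 < Yn := Nat.ceil_pos.2 hY0
    exact (Nat.mul_pos hYn0 hq.one).ne')) n1 D L hL0
  -- the sum of the absolute values
  have s1 : ∑ n ∈ Finset.Icc 1 (Yn * N), ‖D n‖ ≤ 2 * Y * K * (R * (2 ^ k * (2 * T) ^ (1 / 50 : ℝ))) := by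
    refine (sum_cvl h5 Yn N (muP P Y) Q hmu hQs).trans ?_
    have t1 : ∑ n ∈ Finset.Icc 1 Yn, ‖muP P Y n‖ ≤ 2 * Y * K := by
      calc ∑ n ∈ Finset.Icc 1 Yn, ‖muP P Y n‖ ≤ ∑ n ∈ Finset.Icc 1 Yn, K := by
            refine Finset.sum_le_sum fun n _ => ?_
            unfold muP
            rw [norm_mul, Complex.norm_real, Real.norm_eq_abs]
            have u1 : ‖((ArithmeticFunction.moebius n : ℤ) : ℂ)‖ ≤ 1 := by
              rw [Complex.norm_intCast]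
              exact_mod_cast ArithmeticFunction.abs_moebius_le_one
            calc ‖((ArithmeticFunction.moebius n : ℤ) : ℂ)‖ * |P (Real.log n / Real.log Y)|
                ≤ 1 * K := mul_le_mul u1 (hK _) (abs_nonneg _) zero_le_one
              _ = K := one_mul K
        _ = Yn * K := by simp
        _ ≤ 2 * Y * K := by
            refine mul_le_mul_of_nonneg_right ?_ hK0
            have := Nat.ceil_lt_add_one hY0.le
            rw [← hYn] at this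
            linarith
    have t2 : ∑ n ∈ Finset.Icc 1 N, ‖Q n‖ ≤ R * (2 ^ k * (2 * T) ^ (1 / 50 : ℝ)) := by
      calc ∑ n ∈ Finset.Icc 1 N, ‖Q n‖ ≤ ∑ n ∈ Finset.Icc 1 N, R * q n :=
            Finset.sum_le_sum fun n _ => hQle n
        _ = R * ∑ n ∈ Finset.Icc 1 N, q n := by rw [Finset.mul_sum]
        _ ≤ R * (2 ^ k * (2 * T) ^ (1 / 50 : ℝ)) :=
            mul_le_mul_of_nonneg_left (sumq h6 k N η T q hη0.le hq.one hq.le hlen2) hR0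
    exact mul_le_mul t1 t2 (Finset.sum_nonneg fun n _ => norm_nonneg _) (by positivity)
  have s2 : C₂ / (6 * T) ^ (1 / 4 : ℝ) * (∑ n ∈ Finset.Icc 1 (Yn * N), ‖D n‖) ^ 2 ≤
      8 * C₂ * K ^ 2 * 4 ^ k * (R ^ 2 * X) := by
    have t1 : (∑ n ∈ Finset.Icc 1 (Yn * N), ‖D n‖) ^ 2 ≤
        (2 * Y * K * (R * (2 ^ k * (2 * T) ^ (1 / 50 : ℝ)))) ^ 2 :=
      pow_le_pow_left₀ (Finset.sum_nonneg fun n _ => norm_nonneg _) s1 2
    have t2 : (0 : ℝ) < (6 * T) ^ (1 / 4 : ℝ) := by positivity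
    have t3 := tail T hT1
    rw [← hYd] at t3
    calc C₂ / (6 * T) ^ (1 / 4 : ℝ) * (∑ n ∈ Finset.Icc 1 (Yn * N), ‖D n‖) ^ 2
        ≤ C₂ / (6 * T) ^ (1 / 4 : ℝ) * (2 * Y * K * (R * (2 ^ k * (2 * T) ^ (1 / 50 : ℝ)))) ^ 2 :=
          mul_le_mul_of_nonneg_left t1 (by positivity)
      _ = C₂ / (6 * T) ^ (1 / 4 : ℝ) * (4 * K ^ 2 * 4 ^ k * R ^ 2) *
            (Y ^ 2 * ((2 * T) ^ (1 / 50 : ℝ)) ^ 2) := by
          have e4 : (4 : ℝ) ^ k = (2 ^ k) ^ 2 := by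
            rw [← pow_mul, mul_comm k 2, pow_mul]
            norm_num
          rw [e4]
          ring
      _ ≤ C₂ / (6 * T) ^ (1 / 4 : ℝ) * (4 * K ^ 2 * 4 ^ k * R ^ 2) * (2 * (6 * T) ^ (1 / 4 : ℝ)) :=
          mul_le_mul_of_nonneg_left t3 (by positivity)
      _ = 8 * C₂ * K ^ 2 * 4 ^ k * R ^ 2 := by
          field_simp
          ring
      _ ≤ 8 * C₂ * K ^ 2 * 4 ^ k * (R ^ 2 * X) := by
          refine mul_le_mul_of_nonneg_left ?_ (by positivity)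
          exact le_mul_of_one_le_right (by positivity) hX1
  have s3 : C₂ * ((Real.log (6 * T) + L) * (Fo (Yn * N) D +
      Fo (Yn * N) (fun n => ((1 - Real.log n / L : ℝ) : ℂ) * D n))) ≤
      30 * C₂ * (3 * C₃ + 2 * C₄) * (R ^ 2 * X) := by
    have t1 : Real.log (6 * T) + L ≤ 3 * L := by
      rw [Real.log_mul (by norm_num) hT0.ne', ← hL]
      have : Real.log 6 ≤ L := by
        rw [hL]
        refine Real.log_le_log (by norm_num) ?_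
        have : (6 : ℝ) ≤ 256 ^ 10 := by norm_num
        linarith
      linarith
    have t2 : Fo (Yn * N) D + Fo (Yn * N) (fun n => ((1 - Real.log n / L : ℝ) : ℂ) * D n) ≤
        (3 * C₃ + 2 * C₄) * (R ^ 2 * X) / Real.log Y := by
      have e : (3 * C₃ + 2 * C₄) * (R ^ 2 * X) / Real.log Y = C₃ * R ^ 2 / Real.log Y * X +
          (2 * (C₄ * R ^ 2 / Real.log Y * X) + 2 * (C₃ * R ^ 2 / Real.log Y * X)) := by ring
      rw [e]
      exact add_le_add f1 f4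
    calc C₂ * ((Real.log (6 * T) + L) * (Fo (Yn * N) D +
          Fo (Yn * N) (fun n => ((1 - Real.log n / L : ℝ) : ℂ) * D n)))
        ≤ C₂ * ((3 * L) * ((3 * C₃ + 2 * C₄) * (R ^ 2 * X) / Real.log Y)) := by
          refine mul_le_mul_of_nonneg_left ?_ (by linarith)
          exact mul_le_mul t1 t2 (by linarith) (by positivity)
      _ = 30 * C₂ * (3 * C₃ + 2 * C₄) * (R ^ 2 * X) := by
          rw [hLY]
          field_simp
          ring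
  -- the conclusion
  have hG : ∀ v : ℝ, ‖riemannZeta (1 / 2 + (v : ℂ) * Complex.I) * MM P Y (1 / 2 + (v : ℂ) * Complex.I) *
      Ds N Q (1 / 2 + (v : ℂ) * Complex.I)‖ ^ 2 =
      az v ^ 2 * ‖Ds (Yn * N) D (1 / 2 + (v : ℂ) * Complex.I)‖ ^ 2 := by
    intro v
    have e1 : MM P Y (1 / 2 + (v : ℂ) * Complex.I) = Ds Yn (muP P Y) (1 / 2 + (v : ℂ) * Complex.I) := by
      unfold MM
      exact Ds_ext _ _ _ (Nat.floor_le_ceil Y) (fun n hn => (muP_ne P hP Y (by linarith) n hn).2) _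
    rw [mul_assoc, e1, h5.1 Yn N (muP P Y) Q hmu hQs, norm_mul, mul_pow]
    rfl
  have hGc : Continuous fun v : ℝ => az v ^ 2 * ‖Ds (Yn * N) D (1 / 2 + (v : ℂ) * Complex.I)‖ ^ 2 :=
    (az_cont.pow 2).mul ((Ds_cont _ _).norm.pow 2)
  have hfin := scale w hw hw1 T hT0 _ hGc (fun v => by positivity)
  calc ∫ v in (T / 4)..(5 * T), ‖riemannZeta (1 / 2 + (v : ℂ) * Complex.I) *
        MM P Y (1 / 2 + (v : ℂ) * Complex.I) * Ds N Q (1 / 2 + (v : ℂ) * Complex.I)‖ ^ 2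
      = ∫ v in (T / 4)..(5 * T), az v ^ 2 * ‖Ds (Yn * N) D (1 / 2 + (v : ℂ) * Complex.I)‖ ^ 2 := by
        simp_rw [hG]
    _ ≤ 6 * T * ∫ u : ℝ, w u * (az (6 * T * u) ^ 2 *
          ‖Ds (Yn * N) D (1 / 2 + ((6 * T * u : ℝ) : ℂ) * Complex.I)‖ ^ 2) := hfin
    _ ≤ 6 * T * (C₂ * ((Real.log (6 * T) + L) * (Fo (Yn * N) D +
          Fo (Yn * N) (fun n => ((1 - Real.log n / L : ℝ) : ℂ) * D n))) +
          C₂ / (6 * T) ^ (1 / 4 : ℝ) * (∑ n ∈ Finset.Icc 1 (Yn * N), ‖D n‖) ^ 2) :=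
        mul_le_mul_of_nonneg_left hq2 (by positivity)
    _ ≤ 6 * T * (30 * C₂ * (3 * C₃ + 2 * C₄) * (R ^ 2 * X) + 8 * C₂ * K ^ 2 * 4 ^ k * (R ^ 2 * X)) :=
        mul_le_mul_of_nonneg_left (add_le_add s3 s2) (by positivity)
    _ = 6 * T * (30 * C₂ * (3 * C₃ + 2 * C₄) + 8 * C₂ * K ^ 2 * 4 ^ k) * X * R ^ 2 := by ring
    _ ≤ 6 * T * (30 * C₂ * (3 * C₃ + 2 * C₄) + 8 * C₂ * K ^ 2 * 4 ^ k) * X * (2 * T ^ (b / 50)) :=
        mul_le_mul_of_nonneg_left (R2 N T b hT0 hlen2 hb hb') (by positivity)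
    _ = 12 * (30 * C₂ * (3 * C₃ + 2 * C₄) + 8 * C₂ * K ^ 2 * 4 ^ k) * (T ^ (1 + b / 50 : ℝ) * X) := by
        rw [Real.rpow_add hT0, Real.rpow_one]
        ring
    _ ≤ (12 * (30 * C₂ * (3 * C₃ + 2 * C₄) + 8 * C₂ * K ^ 2 * 4 ^ k) + 34) *
          (T ^ (1 + b / 50 : ℝ) * X) := mul_le_mul_of_nonneg_right (by linarith) hTX
    _ = (12 * (30 * C₂ * (3 * C₃ + 2 * C₄) + 8 * C₂ * K ^ 2 * 4 ^ k) + 34) *
          T ^ (1 + b / 50 : ℝ) * X := by ring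

end Pool.Agent.Work.MP_56b8f5_nt.HN
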