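import Pool.Agent.Work.MP_56b8f5_nt.HN.StmtsE

/-!
MP_56b8f5_nt, block HN, item Low (helper42): the lower bound for the moments on the set `GG T A C₀`.
-/

set_option autoImplicit false

open MeasureTheory Set Filter Topology

noncomputable section

namespace Pool.Agent.Work.MP_56b8f5_nt.HN

open Pool.Agent.Work.MP_56b8f5_nt.EM Pool.Agent.Work.MP_56b8f5_nt.WM Pool.Agent.Work.MP_56b8f5_nt.SH
open Pool.Agent.Work.MP_56b8f5_nt.HZ

namespace AuxLow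

/-- The choice of `δ`. -/
theorem delta (m : ℕ) (ε : ℝ) (hε : 0 < ε) :
    ∃ δ : ℝ, 0 < δ ∧ δ ≤ 1 / 8 ∧ 1 - ε ≤ (1 - δ) ^ m * (1 - 4 * δ) := by
  obtain ⟨δ, hδ⟩ : ∃ δ : ℝ, δ = min (1 / 8) (ε / (m + 4)) := ⟨_, rfl⟩
  have h0 : 0 < δ := by
    rw [hδ]
    exact lt_min (by norm_num) (by positivity)
  have h1 : δ ≤ 1 / 8 := hδ.le.trans (min_le_left _ _)
  have h2 : δ ≤ ε / (m + 4) := hδ.le.trans (min_le_right _ _)
  have h3 : δ * (m + 4) ≤ ε := (le_div_iff₀ (by positivity)).1 h2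
  have h4 : 1 + (m : ℝ) * (-δ) ≤ (1 + -δ) ^ m := one_add_mul_le_pow (by linarith) m
  rw [← sub_eq_add_neg] at h4
  have h5 := mul_le_mul_of_nonneg_right h4 (show 0 ≤ 1 - 4 * δ by linarith)
  have h6 : 0 ≤ (m : ℝ) * δ * (4 * δ) := by positivity
  refine ⟨δ, h0, h1, ?_⟩
  nlinarith

/-- Powers against exponentials. -/
theorem small (m : ℕ) (a C δ : ℝ) (ha : 0 < a) (hδ : 0 < δ) :
    ∃ Φ : ℝ, 1 ≤ Φ ∧ ∀ X : ℝ, Φ ≤ X → C * (X ^ m * Real.exp (-(a * X))) ≤ δ := by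
  have h := (tendsto_rpow_mul_exp_neg_mul_atTop_nhds_zero (m : ℝ) a ha).const_mul C
  rw [mul_zero] at h
  obtain ⟨Φ, hΦ⟩ := eventually_atTop.1 (h.eventually (gt_mem_nhds hδ))
  refine ⟨max 1 Φ, le_max_left _ _, fun X hX => ?_⟩
  have h1 := hΦ X ((le_max_right _ _).trans hX)
  rw [Real.rpow_natCast, neg_mul] at h1
  exact h1.le

theorem GG_mono {T A C C' : ℝ} (hT : 1 ≤ T) (hC : C ≤ C') : GG T A C ⊆ GG T A C' := by
  intro t ht
  refine ⟨ht.1, ht.2.1, fun ρ h1 h2 h3 => (ht.2.2 ρ h1 h2 h3).trans ?_⟩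
  have hL : 0 ≤ Real.log T := Real.log_nonneg hT
  have h4 : 0 ≤ Real.log (1 + |ρ.im - t| * Real.log T) :=
    Real.log_nonneg (by nlinarith [mul_nonneg (abs_nonneg (ρ.im - t)) hL])
  nlinarith [mul_le_mul_of_nonneg_right hC h4]

theorem GG_sub (T A C : ℝ) : GG T A C ⊆ Icc T (2 * T) := fun _ ht => ⟨ht.1, ht.2.1⟩

theorem cont_DN (N : ℕ) (η : ℝ) : Continuous fun t : ℝ => DN N η t := by
  unfold DN Ds
  refine continuous_finsetSum _ fun n hn => ?_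
  have hn1 : (n : ℂ) ≠ 0 := by
    have := (Finset.mem_Icc.1 hn).1
    exact_mod_cast (by omega : n ≠ 0)
  have h1 : Continuous fun t : ℝ => -sp η t := by
    unfold sp
    fun_prop
  exact continuous_const.mul (h1.const_cpow (Or.inl hn1))

theorem cont_zeta {η : ℝ} (hη : η ≤ 1 / 8) : Continuous fun t : ℝ => riemannZeta (sp η t) := by
  have h1 : Continuous fun t : ℝ => sp η t := by
    unfold sp
    fun_prop
  refine continuous_iff_continuousAt.2 fun t => ?_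
  have h2 : sp η t ≠ 1 := by
    intro h
    have h3 := congrArg Complex.re h
    unfold sp at h3
    simp at h3
    linarith
  exact ContinuousAt.comp (f := fun t : ℝ => sp η t) (g := riemannZeta)
    (differentiableAt_riemannZeta h2).continuousAt h1.continuousAt

/-- The algebra at the end. -/
theorem fin {δ ε B M1 M2 M3 J c P : ℝ} (hB : 0 ≤ B) (hP : 0 ≤ P)
    (hδ : 1 - ε ≤ P * (1 - 4 * δ)) (hc : c ≤ δ) (h1 : (1 - δ - c) * B ≤ M1) (h2 : M2 ≤ δ * B)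
    (h3 : M3 ≤ δ * B) (h : P * (M1 - M2 - M3) ≤ J) : (1 - ε) * B ≤ J := by
  have h4 : (1 - 4 * δ) * B ≤ M1 - M2 - M3 := by
    nlinarith [mul_le_mul_of_nonneg_right hc hB]
  have h5 := mul_le_mul_of_nonneg_left h4 hP
  have h6 := mul_le_mul_of_nonneg_right hδ hB
  calc (1 - ε) * B ≤ P * (1 - 4 * δ) * B := h6
    _ = P * ((1 - 4 * δ) * B) := by ring
    _ ≤ P * (M1 - M2 - M3) := h5
    _ ≤ J := h

/-- The third term. -/
theorem third {δ C1 C3 L η X S E T M : ℝ} {m : ℕ} (hδ0 : 0 < δ) (hC1 : 1 ≤ C1) (hT : 0 < T)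
    (hη : 0 < η) (hX0 : 0 ≤ X) (hX : X = η * L) (hS : 0 ≤ S) (hm : (1 / η) ^ m ≤ C3 * S)
    {n : ℝ} (hn0 : 0 ≤ n) (hn : n ≤ 2 * E) (hM : M ≤ C1 * (T * L ^ m) * n)
    (hsm : 2 * C1 * C3 / δ ^ 2 * (X ^ m * E) ≤ δ) : (1 / δ) ^ 2 * M ≤ δ * (T * S) := by
  have hL : L = X * (1 / η) := by
    rw [hX]
    field_simp
  have hLm : L ^ m ≤ X ^ m * (C3 * S) := by
    rw [hL, mul_pow]
    exact mul_le_mul_of_nonneg_left hm (by positivity)
  have hXS : 0 ≤ X ^ m * (C3 * S) := by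
    refine le_trans ?_ hLm
    rw [hL]
    positivity
  have h1 : C1 * (T * L ^ m) * n ≤ C1 * (T * (X ^ m * (C3 * S))) * (2 * E) := by
    refine mul_le_mul ?_ hn hn0 (by positivity)
    exact mul_le_mul_of_nonneg_left (mul_le_mul_of_nonneg_left hLm hT.le) (by linarith)
  calc (1 / δ) ^ 2 * M ≤ (1 / δ) ^ 2 * (C1 * (T * (X ^ m * (C3 * S))) * (2 * E)) :=
        mul_le_mul_of_nonneg_left (hM.trans h1) (by positivity)
    _ = 2 * C1 * C3 / δ ^ 2 * (X ^ m * E) * (T * S) := by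
        field_simp
    _ ≤ δ * (T * S) := mul_le_mul_of_nonneg_right hsm (by positivity)

end AuxLow

open AuxLow in
theorem Low_pf (h1 : S_TwA) (h2 : S_CmN) (h3 : S_SSb) (h4 : S_DeL) (h5 : S_NNp) (h6 : S_MnD)
    (h7 : S_Dpw) (h8 : HZ.S_GGm) : S_Low := by
  intro k ε hε
  obtain ⟨δ, hδ0, hδ1, hδ⟩ := delta (2 * (k + 1)) ε hε
  obtain ⟨C1, T1, hC1, hT1, H1⟩ := h1 k
  obtain ⟨C2, T2, hC2, hT2, H2⟩ := h2 (k + 1)
  obtain ⟨C3, hC3, H3⟩ := h3 (k + 1)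
  obtain ⟨C6, hC6, H6'⟩ := h6 k
  obtain ⟨T6, hT6, H6⟩ := H6' δ hδ0 (by linarith)
  refine ⟨max 1 (200 * Real.log (C2 / δ)), le_max_left _ _, fun A hA C₀ hC₀ => ?_⟩
  have hA1 : 1 ≤ A := (le_max_left _ _).trans hA
  have hA2 : C2 * Real.exp (-(A / 200)) ≤ δ := by
    have e1 : Real.log (C2 / δ) ≤ A / 200 := by
      have := (le_max_right 1 (200 * Real.log (C2 / δ))).trans hA
      linarith
    have e2 : C2 / δ ≤ Real.exp (A / 200) := (Real.log_le_iff_le_exp (by positivity)).1 e1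
    rw [Real.exp_neg, ← div_eq_mul_inv, div_le_iff₀ (Real.exp_pos _)]
    rw [div_le_iff₀ hδ0] at e2
    linarith
  obtain ⟨a, ha⟩ : ∃ a : ℝ, a = 1 / (100 * ((k + 1 : ℕ) : ℝ)) := ⟨_, rfl⟩
  have ha0 : 0 < a := by
    rw [ha]
    positivity
  obtain ⟨Φ1, hΦ1, S1⟩ := small 0 a (2 * C6) δ ha0 hδ0
  obtain ⟨Φ2, hΦ2, S2⟩ := small ((k + 1) ^ 2) a (2 * C1 * C3 / δ ^ 2) δ ha0 hδ0
  refine ⟨max Φ1 Φ2, max (max T1 T2) T6, hΦ1.trans (le_max_left _ _),
    hT6.trans (le_max_right _ _), fun T hT η hη hη1 => ?_⟩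
  have hTT1 : T1 ≤ T := (le_max_left _ _).trans ((le_max_left _ _).trans hT)
  have hTT2 : T2 ≤ T := (le_max_right _ _).trans ((le_max_left _ _).trans hT)
  have hTT6 : T6 ≤ T := (le_max_right _ _).trans hT
  have hT3 : 3 ≤ T := hT6.trans hTT6
  have hL : 0 < Real.log T := Real.log_pos (by linarith)
  have hXΦ : max Φ1 Φ2 ≤ η * Real.log T := (div_le_iff₀ hL).1 hη
  have hX1 : Φ1 ≤ η * Real.log T := (le_max_left _ _).trans hXΦ
  have hX2 : Φ2 ≤ η * Real.log T := (le_max_right _ _).trans hXΦ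
  have hη0 : 0 < η := by
    by_contra hcon
    have : η * Real.log T ≤ 0 := mul_nonpos_of_nonpos_of_nonneg (not_lt.1 hcon) hL.le
    linarith
  obtain ⟨N, hN1, hNT, hNe⟩ := h5 (k + 1) (by omega) T hT3
  obtain ⟨q, hq, hqD, -⟩ := h7 (k + 1) N η T hN1 hη0.le hNT
  have hNk : ((N ^ k : ℕ) : ℝ) ^ 100 ≤ T := by
    refine le_trans (pow_le_pow_left₀ (by positivity) ?_ _) hNT
    exact_mod_cast Nat.pow_le_pow_right hN1 (Nat.le_succ k)
  have hN100 : (N : ℝ) ^ 100 ≤ T := by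
    refine le_trans (pow_le_pow_left₀ (by positivity) ?_ _) hNT
    have : N ^ 1 ≤ N ^ (k + 1) := Nat.pow_le_pow_right hN1 (by omega)
    rw [pow_one] at this
    exact_mod_cast this
  obtain ⟨q', hq', hqD', -⟩ := h7 k N η T hN1 hη0.le hNk
  have hEn : (N : ℝ) ^ (-η) ≤ 2 * Real.exp (-(a * (η * Real.log T))) := by
    refine (hNe η hη0.le (by linarith)).trans (le_of_eq ?_)
    rw [ha]
    congr 3
    ring
  have hn0 : (0 : ℝ) ≤ (N : ℝ) ^ (-η) := by positivity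
  obtain ⟨hsum, hSS1, hSS2, -⟩ := H3 η hη0 hη1
  have I1 := (H6 T hTT6 η hη0 hη1 N hN1 hNT).2
  have I2 := H2 T hTT2 η hη0 hη1 (N ^ (k + 1)) q hq A hA1
  have I3 := H1 T hTT1 η hη0.le hη1 N hN1 hN100 (N ^ k) q' hq'
  have D := h4 k δ T (fun t => riemannZeta (sp η t)) (fun t => DN N η t) (GG T A C₀) hδ0
    (by linarith) (by linarith) (cont_zeta hη1) (cont_DN N η) (h8 T A C₀ (by linarith))
    (GG_sub T A C₀)
  have I2' : ∫ t in Icc T (2 * T) \ GG T A C₀, ‖DN N η t ^ (k + 1)‖ ^ 2 ≤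
      δ * (T * SS (k + 1) η) := by
    have e1 : ∫ t in Icc T (2 * T) \ GG T A C₀, ‖DN N η t ^ (k + 1)‖ ^ 2 ≤
        ∫ t in Icc T (2 * T) \ GG T A 400, ‖DN N η t ^ (k + 1)‖ ^ 2 := by
      refine setIntegral_mono_set ?_ (Eventually.of_forall fun t => by positivity) ?_
      · have hc : Continuous fun t => ‖DN N η t ^ (k + 1)‖ ^ 2 := ((cont_DN N η).pow _).norm.pow _
        exact (hc.continuousOn.integrableOn_compact isCompact_Icc).mono_set sdiff_subset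
      · exact (sdiff_subset_sdiff_right (GG_mono (by linarith) hC₀)).eventuallyLE
    refine e1.trans ?_
    have e2 : ∫ t in Icc T (2 * T) \ GG T A 400, ‖DN N η t ^ (k + 1)‖ ^ 2 =
        ∫ t in Icc T (2 * T) \ GG T A 400, ‖De (N ^ (k + 1)) q t‖ ^ 2 := by
      refine integral_congr_ae (Eventually.of_forall fun t => ?_)
      simp only [hqD t]
    rw [e2]
    exact I2.trans (mul_le_mul_of_nonneg_right hA2 (by positivity))
  have e3 : ∫ t in T..(2 * T), ‖riemannZeta (sp η t) - DN N η t‖ ^ 2 * ‖DN N η t ^ k‖ ^ 2 =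
      ∫ t in T..(2 * T), ‖riemannZeta (sp η t) - DN N η t‖ ^ 2 * ‖De (N ^ k) q' t‖ ^ 2 := by
    refine intervalIntegral.integral_congr fun t _ => ?_
    simp only [hqD' t]
  have I3' := third hδ0 hC1 (by linarith : 0 < T) hη0 (by linarith) rfl (by linarith) hSS2
    hn0 hEn I3 (S2 _ hX2)
  rw [← e3] at I3'
  refine fin (by positivity) (pow_nonneg (by linarith) _) hδ ?_ I1 I2' I3' D
  have e4 := S1 _ hX1
  rw [pow_zero, one_mul] at e4
  refine le_trans ?_ e4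
  calc C6 * (N : ℝ) ^ (-η) ≤ C6 * (2 * Real.exp (-(a * (η * Real.log T)))) :=
        mul_le_mul_of_nonneg_left hEn (by linarith)
    _ = 2 * C6 * Real.exp (-(a * (η * Real.log T))) := by ring

end Pool.Agent.Work.MP_56b8f5_nt.HN
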