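import Pool.Agent.Work.MP_56b8f5_nt.HN.StmtsF
import Pool.Agent.Work.MP_56b8f5_nt.HN.I_Low

/-!
MP_56b8f5_nt, block HN, item LoE: the lower bound with explicit error.
-/

set_option autoImplicit false

open MeasureTheory Set Filter Topology

noncomputable section

namespace Pool.Agent.Work.MP_56b8f5_nt.HN

open Pool.Agent.Work.MP_56b8f5_nt.EM Pool.Agent.Work.MP_56b8f5_nt.WM Pool.Agent.Work.MP_56b8f5_nt.SH
open Pool.Agent.Work.MP_56b8f5_nt.HZ

namespace AuxLoE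

/-- Powers against exponentials. -/
theorem powexp (m : ℕ) (a : ℝ) (ha : 0 < a) :
    ∃ C : ℝ, 1 ≤ C ∧ ∀ X : ℝ, 0 ≤ X → X ^ m ≤ C * Real.exp (a * X) := by
  refine ⟨max 1 (m.factorial / a ^ m), le_max_left _ _, fun X hX => ?_⟩
  have h1 := Real.pow_div_factorial_le_exp (a * X) (by positivity) m
  have h2 : X ^ m = m.factorial / a ^ m * ((a * X) ^ m / m.factorial) := by
    have : (m.factorial : ℝ) ≠ 0 := by positivity
    rw [mul_pow]
    field_simp
  rw [h2]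
  refine mul_le_mul (le_max_right _ _) h1 (by positivity) (by positivity)

/-- `L^m` against `SS`. -/
theorem Lm {C3 L η X S a C5 : ℝ} {m : ℕ} (hη : 0 < η) (hX0 : 0 ≤ X) (hX : X = η * L)
    (hm : (1 / η) ^ m ≤ C3 * S) (hC : 0 ≤ C3 * S) (h5 : X ^ m ≤ C5 * Real.exp (a * X)) :
    L ^ m ≤ C5 * Real.exp (a * X) * (C3 * S) := by
  have hL : L = X * (1 / η) := by
    rw [hX]
    field_simp
  rw [hL, mul_pow]
  refine (mul_le_mul_of_nonneg_left hm (by positivity)).trans ?_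
  exact mul_le_mul_of_nonneg_right h5 hC

/-- The algebra at the end. -/
theorem fin {E p q B P M J : ℝ} (hB : 0 ≤ B) (hE : 0 ≤ E) (hp : 0 ≤ p) (hq : 0 ≤ q)
    (hP : 1 - p * E ≤ P) (hM : (1 - q * E) * B ≤ M) (h : P * M ≤ J) (hJ : 0 ≤ J) :
    (1 - (p + q) * E) * B ≤ J := by
  by_cases h0 : 1 - (p + q) * E ≤ 0
  · exact (mul_nonpos_of_nonpos_of_nonneg h0 hB).trans hJ
  · have hpE : 0 ≤ p * E := by positivity
    have hqE : 0 ≤ q * E := by positivity
    have h1 : 0 ≤ 1 - p * E := by nlinarith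
    have h2 : 0 ≤ 1 - q * E := by nlinarith
    calc (1 - (p + q) * E) * B ≤ ((1 - p * E) * (1 - q * E)) * B := by
          refine mul_le_mul_of_nonneg_right ?_ hB
          nlinarith [mul_nonneg hpE hqE]
      _ = (1 - p * E) * ((1 - q * E) * B) := by ring
      _ ≤ P * M := mul_le_mul hP hM (mul_nonneg h2 hB) (h1.trans hP)
      _ ≤ J := h

end AuxLoE

open AuxLow AuxLoE in
theorem LoE_pf (h1 : S_TwA) (h2 : S_CmN) (h3 : S_SSb) (h4 : S_DeL) (h5 : S_NNp) (h6 : S_MnE)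
    (h7 : S_Dpw) (h8 : HZ.S_GGm) : S_LoE := by
  intro k C₀ hC₀
  obtain ⟨C1, T1, hC1, hT1, H1⟩ := h1 k
  obtain ⟨C2, T2, hC2, hT2, H2⟩ := h2 (k + 1)
  obtain ⟨C3, hC3, H3⟩ := h3 (k + 1)
  obtain ⟨C6, hC6, H6⟩ := h6 k
  obtain ⟨a, ha⟩ : ∃ a : ℝ, a = 1 / (100 * ((k + 1 : ℕ) : ℝ)) := ⟨_, rfl⟩
  have ha0 : 0 < a := by
    rw [ha]
    positivity
  have ha1 : a ≤ 1 := by
    rw [ha, div_le_one (by positivity)]
    have : (1 : ℝ) ≤ ((k + 1 : ℕ) : ℝ) := by exact_mod_cast Nat.succ_le_succ (Nat.zero_le k)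
    linarith
  obtain ⟨C5, hC5, H5⟩ := powexp ((k + 1) ^ 2) (a / 4) (by positivity)
  refine ⟨a, 2 * (k + 1) + (2 + 2 * C6 + C2 + 2 * C1 * C3 * C5), max (max T1 T2) 4, ha0, ?_,
    le_trans (by norm_num) (le_max_right _ _), fun T hT η A hη1 hA1 hA => ?_⟩
  · have : 0 ≤ C1 * C3 * C5 := by positivity
    have hk : (0 : ℝ) ≤ (k : ℝ) := Nat.cast_nonneg k
    nlinarith
  have hTT1 : T1 ≤ T := (le_max_left _ _).trans ((le_max_left _ _).trans hT)
  have hTT2 : T2 ≤ T := (le_max_right _ _).trans ((le_max_left _ _).trans hT)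
  have hT4 : 4 ≤ T := (le_max_right _ _).trans hT
  have hT3 : 3 ≤ T := by linarith
  have hT0 : 0 < T := by linarith
  have hL : 0 < Real.log T := Real.log_pos (by linarith)
  obtain ⟨X, hXd⟩ : ∃ X : ℝ, X = η * Real.log T := ⟨_, rfl⟩
  rw [← hXd] at hA
  have hX0 : 0 < X := by
    by_contra hcon
    have : a * X ≤ 0 := mul_nonpos_of_nonneg_of_nonpos ha0.le (not_lt.1 hcon)
    linarith
  have hη0 : 0 < η := by
    by_contra hcon
    have : η * Real.log T ≤ 0 := mul_nonpos_of_nonpos_of_nonneg (not_lt.1 hcon) hL.le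
    linarith
  have hXL : X ≤ Real.log T := by
    rw [hXd]
    nlinarith
  obtain ⟨E, hE⟩ : ∃ E : ℝ, E = Real.exp (-(A / 200)) := ⟨_, rfl⟩
  have hE0 : 0 < E := by rw [hE]; exact Real.exp_pos _
  obtain ⟨δ, hδ⟩ : ∃ δ : ℝ, δ = Real.exp (-(a * X / 8)) := ⟨_, rfl⟩
  have hδ0 : 0 < δ := by rw [hδ]; exact Real.exp_pos _
  have hδ1 : δ ≤ 1 := by
    rw [hδ]
    exact Real.exp_le_one_iff.2 (by have := mul_pos ha0 hX0; linarith)
  have hδE : δ ≤ E := by
    rw [hδ, hE]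
    exact Real.exp_le_exp.2 (by linarith)
  have haX : Real.exp (-(a * X)) ≤ E := by
    rw [hE]
    exact Real.exp_le_exp.2 (by linarith)
  have haX2 : Real.exp (-(a * X / 2)) ≤ E := by
    rw [hE]
    exact Real.exp_le_exp.2 (by linarith)
  have hsT : 2 / Real.sqrt T ≤ 2 * E := by
    have e1 : Real.sqrt T = Real.exp (Real.log T / 2) := by
      rw [Real.sqrt_eq_rpow, Real.rpow_def_of_pos hT0]
      congr 1
      ring
    rw [e1, div_eq_mul_inv, ← Real.exp_neg, hE]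
    refine mul_le_mul_of_nonneg_left (Real.exp_le_exp.2 ?_) (by norm_num)
    nlinarith
  obtain ⟨N, hN1, hNT, hNe⟩ := h5 (k + 1) (by omega) T hT3
  obtain ⟨q, hq, hqD, -⟩ := h7 (k + 1) N η T hN1 hη0.le hNT
  have hNk : ((N ^ k : ℕ) : ℝ) ^ 100 ≤ T := by
    refine le_trans (pow_le_pow_left₀ (by positivity) ?_ _) hNT
    exact_mod_cast Nat.pow_le_pow_right hN1 (Nat.le_succ k)
  have hN100 : (N : ℝ) ^ 100 ≤ T := by
    refine le_trans (pow_le_pow_left₀ (by positivity) ?_ _) hNT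
    have : N ^ 1 ≤ N ^ (k + 1) := Nat.pow_le_pow_right hN1 (by omega)
    rw [pow_one] at this
    exact_mod_cast this
  obtain ⟨q', hq', hqD', -⟩ := h7 k N η T hN1 hη0.le hNk
  have hEn : (N : ℝ) ^ (-η) ≤ 2 * Real.exp (-(a * X)) := by
    refine (hNe η hη0.le (by linarith)).trans (le_of_eq ?_)
    rw [ha, hXd]
    congr 3
    ring
  have hn0 : (0 : ℝ) ≤ (N : ℝ) ^ (-η) := by positivity
  obtain ⟨hsum, hSS1, hSS2, -⟩ := H3 η hη0 hη1
  have I1 := (H6 T hT4 η hη0 hη1 N hN1 hNT).2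
  have I2 := H2 T hTT2 η hη0 hη1 (N ^ (k + 1)) q hq A hA1
  have I3 := H1 T hTT1 η hη0.le hη1 N hN1 hN100 (N ^ k) q' hq'
  have D := h4 k δ T (fun t => riemannZeta (sp η t)) (fun t => DN N η t) (GG T A C₀) hδ0
    hδ1 (by linarith) (cont_zeta hη1) (cont_DN N η) (h8 T A C₀ (by linarith))
    (GG_sub T A C₀)
  obtain ⟨B, hB⟩ : ∃ B : ℝ, B = T * SS (k + 1) η := ⟨_, rfl⟩
  have hB0 : 0 ≤ B := by rw [hB]; positivity
  have I2' : ∫ t in Icc T (2 * T) \ GG T A C₀, ‖DN N η t ^ (k + 1)‖ ^ 2 ≤ C2 * E * B := by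
    have e1 : ∫ t in Icc T (2 * T) \ GG T A C₀, ‖DN N η t ^ (k + 1)‖ ^ 2 ≤
        ∫ t in Icc T (2 * T) \ GG T A 400, ‖DN N η t ^ (k + 1)‖ ^ 2 := by
      refine setIntegral_mono_set ?_ (Eventually.of_forall fun t => by positivity) ?_
      · have hc : Continuous fun t => ‖DN N η t ^ (k + 1)‖ ^ 2 := ((cont_DN N η).pow _).norm.pow _
        exact (hc.continuousOn.integrableOn_compact isCompact_Icc).mono_set sdiff_subset
      · exact (sdiff_subset_sdiff_right (GG_mono (by linarith) hC₀)).eventuallyLE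
    refine e1.trans ?_
    have e2 : ∫ t in Icc T (2 * T) \ GG T A 400, ‖DN N η t ^ (k + 1)‖ ^ 2 =
        ∫ t in Icc T (2 * T) \ GG T A 400, ‖De (N ^ (k + 1)) q t‖ ^ 2 := by
      refine integral_congr_ae (Eventually.of_forall fun t => ?_)
      simp only [hqD t]
    rw [e2, hE, hB]
    exact I2
  have e3 : ∫ t in T..(2 * T), ‖riemannZeta (sp η t) - DN N η t‖ ^ 2 * ‖DN N η t ^ k‖ ^ 2 =
      ∫ t in T..(2 * T), ‖riemannZeta (sp η t) - DN N η t‖ ^ 2 * ‖De (N ^ k) q' t‖ ^ 2 := by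
    refine intervalIntegral.integral_congr fun t _ => ?_
    simp only [hqD' t]
  have hLm := Lm hη0 hX0.le hXd hSS2 (by positivity) (H5 X hX0.le)
  have I3' : (1 / δ) ^ 2 * (∫ t in T..(2 * T), ‖riemannZeta (sp η t) - DN N η t‖ ^ 2 *
      ‖DN N η t ^ k‖ ^ 2) ≤ 2 * C1 * C3 * C5 * E * B := by
    rw [e3]
    have e4 : (1 / δ) ^ 2 = Real.exp (a * X / 4) := by
      rw [hδ, one_div, ← Real.exp_neg, ← Real.exp_nat_mul]
      congr 1
      push_cast
      ring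
    have e5 : C1 * (T * Real.log T ^ (k + 1) ^ 2) * (N : ℝ) ^ (-η) ≤
        C1 * (T * (C5 * Real.exp (a / 4 * X) * (C3 * SS (k + 1) η))) * (2 * Real.exp (-(a * X))) := by
      refine mul_le_mul ?_ hEn hn0 (by positivity)
      exact mul_le_mul_of_nonneg_left (mul_le_mul_of_nonneg_left hLm hT0.le) (by linarith)
    rw [e4]
    calc Real.exp (a * X / 4) * (∫ t in T..(2 * T), ‖riemannZeta (sp η t) - DN N η t‖ ^ 2 *
          ‖De (N ^ k) q' t‖ ^ 2)
        ≤ Real.exp (a * X / 4) * (C1 * (T * (C5 * Real.exp (a / 4 * X) * (C3 * SS (k + 1) η))) *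
            (2 * Real.exp (-(a * X)))) :=
          mul_le_mul_of_nonneg_left (I3.trans e5) (Real.exp_pos _).le
      _ = 2 * C1 * C3 * C5 * (Real.exp (a * X / 4) * Real.exp (a / 4 * X) *
            Real.exp (-(a * X))) * B := by
          rw [hB]
          ring
      _ = 2 * C1 * C3 * C5 * Real.exp (-(a * X / 2)) * B := by
          rw [← Real.exp_add, ← Real.exp_add]
          congr 3
          ring
      _ ≤ 2 * C1 * C3 * C5 * E * B := by gcongr
  have hP : 1 - (2 * ((k : ℝ) + 1)) * E ≤ (1 - δ) ^ (2 * (k + 1)) := by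
    have e1 : 1 + ((2 * (k + 1) : ℕ) : ℝ) * (-δ) ≤ (1 + -δ) ^ (2 * (k + 1)) :=
      one_add_mul_le_pow (by linarith) _
    rw [← sub_eq_add_neg] at e1
    refine le_trans ?_ e1
    push_cast
    have hk : (0 : ℝ) ≤ (k : ℝ) := Nat.cast_nonneg k
    nlinarith
  have hM : (1 - (2 + 2 * C6 + C2 + 2 * C1 * C3 * C5) * E) * B ≤
      (∫ t in T..(2 * T), ‖DN N η t ^ (k + 1)‖ ^ 2) -
      (∫ t in Icc T (2 * T) \ GG T A C₀, ‖DN N η t ^ (k + 1)‖ ^ 2) -
      (1 / δ) ^ 2 * (∫ t in T..(2 * T), ‖riemannZeta (sp η t) - DN N η t‖ ^ 2 *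
        ‖DN N η t ^ k‖ ^ 2) := by
    have e1 : (1 - (2 + 2 * C6) * E) * B ≤
        (1 - 2 / Real.sqrt T - C6 * (N : ℝ) ^ (-η)) * (T * SS (k + 1) η) := by
      rw [← hB]
      refine mul_le_mul_of_nonneg_right ?_ hB0
      have e2 : C6 * (N : ℝ) ^ (-η) ≤ C6 * (2 * E) :=
        mul_le_mul_of_nonneg_left (hEn.trans (by linarith)) (by linarith)
      linarith
    have e3 := e1.trans I1
    linarith
  have hres := fin hB0 hE0.le (by positivity) (by positivity) hP hM D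
    (integral_nonneg fun t => by positivity)
  rw [hE, hB] at hres
  exact hres

end Pool.Agent.Work.MP_56b8f5_nt.HN
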