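import Pool.Agent.Work.MP_56b8f5_nt.HN.StmtsM

/-! MP_56b8f5_nt, block HN, item MnD: the mean of the square of `DN^(k+1)`. -/

set_option autoImplicit false

open MeasureTheory Set Filter Topology

noncomputable section

namespace Pool.Agent.Work.MP_56b8f5_nt.HN

open Pool.Agent.Work.MP_56b8f5_nt.EM Pool.Agent.Work.MP_56b8f5_nt.WM Pool.Agent.Work.MP_56b8f5_nt.SH
open Pool.Agent.Work.MP_56b8f5_nt.HZ

namespace AuxMnD

theorem small {δ T P : ℝ} (hδ : 0 < δ) (hδ1 : δ ≤ 1) (hT : (2 / δ) ^ 2 ≤ T) (hP : 0 ≤ P)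
    (h : P ^ 100 ≤ T) : 2 * P ^ 2 ≤ δ * T := by
  set a : ℝ := δ / 2 with ha
  have ha0 : 0 < a := by positivity
  have ha1 : a ≤ 1 := by linarith
  have e1 : 2 / δ = 1 / a := by rw [ha]; field_simp
  rw [e1] at hT
  have h1 : 1 ≤ a ^ 2 * T := by
    have : a ^ 2 * (1 / a) ^ 2 = 1 := by field_simp
    rw [← this]
    exact mul_le_mul_of_nonneg_left hT (by positivity)
  have hT0 : 0 < T := by
    by_contra h0
    nlinarith [mul_nonneg (sq_nonneg a) (neg_nonneg.2 (not_lt.1 h0))]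
  have h2 : 1 ≤ a * T := by nlinarith
  have h3 : T ≤ (a * T) ^ 2 := by nlinarith
  by_contra hc
  have h4 : a * T < P ^ 2 := by
    rw [ha]
    linarith
  have h5 : (a * T) ^ 50 < (P ^ 2) ^ 50 := pow_lt_pow_left₀ h4 (by positivity) (by norm_num)
  rw [← pow_mul, show 2 * 50 = 100 from rfl] at h5
  have h6 : (a * T) ^ 2 ≤ (a * T) ^ 50 := pow_le_pow_right₀ h2 (by norm_num)
  linarith

theorem term_eq {d η : ℝ} {n : ℕ} (hn : 1 ≤ n) :
    (d * (n : ℝ) ^ (-η)) ^ 2 / n = d ^ 2 * (n : ℝ) ^ (-(1 + 2 * η)) := by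
  have h0 : (0 : ℝ) < n := by exact_mod_cast hn
  have e : (n : ℝ) ^ (-(1 + 2 * η)) = (n : ℝ) ^ (-η) * (n : ℝ) ^ (-η) * (n : ℝ)⁻¹ := by
    rw [← Real.rpow_add h0, ← Real.rpow_neg_one, ← Real.rpow_add h0]
    congr 1
    ring
  rw [e]
  ring

end AuxMnD

open AuxMnD in
theorem MnD_pf (h1 : S_Dpw) (h2 : S_MvN) (h3 : S_SSb) : S_MnD := by
  intro k
  obtain ⟨C, hC, hS⟩ := h3 (k + 1)
  refine ⟨C, hC, fun δ hδ hδ1 => ⟨max 3 ((2 / δ) ^ 2), le_max_left _ _, ?_⟩⟩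
  intro T hT η hη hη1 N hN hNT
  have hT3 : 3 ≤ T := (le_max_left _ _).trans hT
  have hT2 : (2 / δ) ^ 2 ≤ T := (le_max_right _ _).trans hT
  obtain ⟨hsum, hSS1, -, hlow⟩ := hS η hη hη1
  have hlow := hlow N hN
  obtain ⟨q, hq, hpow, heq⟩ := h1 (k + 1) N η T hN hη.le hNT
  set P : ℕ := N ^ (k + 1) with hPd
  have hNP : N ≤ P := Nat.le_self_pow (Nat.succ_ne_zero k) N
  have hI : (∫ t in T..(2 * T), ‖DN N η t ^ (k + 1)‖ ^ 2) = ∫ t in T..(2 * T), ‖De P q t‖ ^ 2 := by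
    refine intervalIntegral.integral_congr fun t _ => ?_
    rw [hpow t]
  rw [hI]
  have hM := h2 T (2 * T) P q (by linarith)
  have e2 : 2 * T - T = T := by ring
  rw [e2] at hM
  set I : ℝ := ∫ t in T..(2 * T), ‖De P q t‖ ^ 2
  set Q : ℝ := ∑ n ∈ Finset.Icc 1 P, q n ^ 2 / (n : ℝ) with hQd
  have hQ0 : 0 ≤ Q := Finset.sum_nonneg fun n _ => by positivity
  have hsm : 2 * (P : ℝ) ^ 2 ≤ δ * T := small hδ hδ1 hT2 (Nat.cast_nonneg _) hNT
  have hM2 : 2 * (P : ℝ) ^ 2 * Q ≤ δ * T * Q := mul_le_mul_of_nonneg_right hsm hQ0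
  obtain ⟨m1, m2⟩ := abs_le.1 hM
  have hnn : ∀ n : ℕ, 0 ≤ dk (k + 1) n ^ 2 * (n : ℝ) ^ (-(1 + 2 * η)) := fun n => by positivity
  have hup : Q ≤ SS (k + 1) η := by
    refine le_trans (Finset.sum_le_sum fun n hn => ?_) (hsum.sum_le_tsum (Finset.Icc 1 P)
      fun n _ => hnn n)
    have hn1 : 1 ≤ n := (Finset.mem_Icc.1 hn).1
    rw [← term_eq hn1]
    exact div_le_div_of_nonneg_right (pow_le_pow_left₀ (hq.nonneg n) (hq.le n) 2)
      (Nat.cast_nonneg _)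
  have hlo : (∑ n ∈ Finset.Icc 1 N, dk (k + 1) n ^ 2 * (n : ℝ) ^ (-(1 + 2 * η))) ≤ Q := by
    have hsub : Finset.Icc 1 N ⊆ Finset.Icc 1 P := Finset.Icc_subset_Icc_right hNP
    refine le_trans (le_of_eq (Finset.sum_congr rfl fun n hn => ?_))
      (Finset.sum_le_sum_of_subset_of_nonneg hsub fun n _ _ => by positivity)
    have hn1 := Finset.mem_Icc.1 hn
    rw [heq n hn1.1 hn1.2, term_eq hn1.1]
  have hT0 : 0 < T := by linarith
  have hx0 : 0 ≤ C * (N : ℝ) ^ (-η) := by positivity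
  constructor
  · have : (1 + δ) * (T * Q) ≤ (1 + δ) * (T * SS (k + 1) η) := by gcongr
    linarith
  · have a1 : (1 - C * (N : ℝ) ^ (-η)) * SS (k + 1) η ≤ Q := by linarith
    have a2 : (1 - δ) * T * ((1 - C * (N : ℝ) ^ (-η)) * SS (k + 1) η) ≤ (1 - δ) * T * Q :=
      mul_le_mul_of_nonneg_left a1 (mul_nonneg (by linarith) hT0.le)
    have a3 : 0 ≤ δ * (C * (N : ℝ) ^ (-η)) * (T * SS (k + 1) η) := by positivity
    linarith

end Pool.Agent.Work.MP_56b8f5_nt.HN
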