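import Pool.Agent.Work.MP_56b8f5_nt.HN.StmtsF
import Pool.Agent.Work.MP_56b8f5_nt.HN.I_MnD

/-! MP_56b8f5_nt, block HN, item MnE: the mean of the square of `DN^(k+1)`, explicit error. -/

set_option autoImplicit false

open MeasureTheory Set Filter Topology

noncomputable section

namespace Pool.Agent.Work.MP_56b8f5_nt.HN

open Pool.Agent.Work.MP_56b8f5_nt.EM Pool.Agent.Work.MP_56b8f5_nt.WM Pool.Agent.Work.MP_56b8f5_nt.SH
open Pool.Agent.Work.MP_56b8f5_nt.HZ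

open AuxMnD in
theorem MnE_pf (h1 : S_Dpw) (h2 : S_MvN) (h3 : S_SSb) : S_MnE := by
  intro k
  obtain ⟨C, hC, hS⟩ := h3 (k + 1)
  refine ⟨C, hC, ?_⟩
  intro T hT η hη hη1 N hN hNT
  have hT3 : 3 ≤ T := by linarith
  have hsq : 0 < Real.sqrt T := Real.sqrt_pos.2 (by linarith)
  obtain ⟨δ, hδe⟩ : ∃ δ : ℝ, δ = 2 / Real.sqrt T := ⟨_, rfl⟩
  rw [← hδe]
  have hδ : 0 < δ := by rw [hδe]; positivity
  have hs2 : 2 ≤ Real.sqrt T := by
    rw [show (2 : ℝ) = Real.sqrt 4 by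
      rw [show (4 : ℝ) = 2 ^ 2 by norm_num]; exact (Real.sqrt_sq (by norm_num)).symm]
    exact Real.sqrt_le_sqrt hT
  have hδ1 : δ ≤ 1 := by
    rw [hδe, div_le_one hsq]
    exact hs2
  have hT2 : (2 / δ) ^ 2 ≤ T := by
    have : 2 / δ = Real.sqrt T := by
      rw [hδe]
      field_simp
    rw [this, Real.sq_sqrt (by linarith)]
  obtain ⟨hsum, hSS1, -, hlow⟩ := hS η hη hη1
  have hlow := hlow N hN
  obtain ⟨q, hq, hpow, heq⟩ := h1 (k + 1) N η T hN hη.le hNT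
  set P : ℕ := N ^ (k + 1) with hPd
  have hNP : N ≤ P := Nat.le_self_pow (Nat.succ_ne_zero k) N
  have hI : (∫ t in T..(2 * T), ‖DN N η t ^ (k + 1)‖ ^ 2) = ∫ t in T..(2 * T), ‖De P q t‖ ^ 2 := by
    refine intervalIntegral.integral_congr fun t _ => ?_
    rw [hpow t]
  rw [hI]
  have hM := h2 T (2 * T) P q (by linarith)
  have e2 : 2 * T - T = T := by ring
  rw [e2] at hM
  set I : ℝ := ∫ t in T..(2 * T), ‖De P q t‖ ^ 2
  set Q : ℝ := ∑ n ∈ Finset.Icc 1 P, q n ^ 2 / (n : ℝ) with hQd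
  have hQ0 : 0 ≤ Q := Finset.sum_nonneg fun n _ => by positivity
  have hsm : 2 * (P : ℝ) ^ 2 ≤ δ * T := small hδ hδ1 hT2 (Nat.cast_nonneg _) hNT
  have hM2 : 2 * (P : ℝ) ^ 2 * Q ≤ δ * T * Q := mul_le_mul_of_nonneg_right hsm hQ0
  obtain ⟨m1, m2⟩ := abs_le.1 hM
  have hnn : ∀ n : ℕ, 0 ≤ dk (k + 1) n ^ 2 * (n : ℝ) ^ (-(1 + 2 * η)) := fun n => by positivity
  have hup : Q ≤ SS (k + 1) η := by
    refine le_trans (Finset.sum_le_sum fun n hn => ?_) (hsum.sum_le_tsum (Finset.Icc 1 P)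
      fun n _ => hnn n)
    have hn1 : 1 ≤ n := (Finset.mem_Icc.1 hn).1
    rw [← term_eq hn1]
    exact div_le_div_of_nonneg_right (pow_le_pow_left₀ (hq.nonneg n) (hq.le n) 2)
      (Nat.cast_nonneg _)
  have hlo : (∑ n ∈ Finset.Icc 1 N, dk (k + 1) n ^ 2 * (n : ℝ) ^ (-(1 + 2 * η))) ≤ Q := by
    have hsub : Finset.Icc 1 N ⊆ Finset.Icc 1 P := Finset.Icc_subset_Icc_right hNP
    refine le_trans (le_of_eq (Finset.sum_congr rfl fun n hn => ?_))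
      (Finset.sum_le_sum_of_subset_of_nonneg hsub fun n _ _ => by positivity)
    have hn1 := Finset.mem_Icc.1 hn
    rw [heq n hn1.1 hn1.2, term_eq hn1.1]
  have hT0 : 0 < T := by linarith
  have hx0 : 0 ≤ C * (N : ℝ) ^ (-η) := by positivity
  constructor
  · have : (1 + δ) * (T * Q) ≤ (1 + δ) * (T * SS (k + 1) η) := by gcongr
    linarith
  · have a1 : (1 - C * (N : ℝ) ^ (-η)) * SS (k + 1) η ≤ Q := by linarith
    have a2 : (1 - δ) * T * ((1 - C * (N : ℝ) ^ (-η)) * SS (k + 1) η) ≤ (1 - δ) * T * Q :=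
      mul_le_mul_of_nonneg_left a1 (mul_nonneg (by linarith) hT0.le)
    have a3 : 0 ≤ δ * (C * (N : ℝ) ^ (-η)) * (T * SS (k + 1) η) := by positivity
    linarith

end Pool.Agent.Work.MP_56b8f5_nt.HN
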