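import Pool.Agent.Work.MP_56b8f5_nt.HN.StmtsM
import Pool.Agent.Work.MP_56b8f5_nt.HZ.B_MVa

/-!
MP_56b8f5_nt, block HN, item MvN: mean value theorem for Dirichlet polynomials with real coefficients.
-/

set_option autoImplicit false

open MeasureTheory Set Filter Topology

noncomputable section

namespace Pool.Agent.Work.MP_56b8f5_nt.HN

open Pool.Agent.Work.MP_56b8f5_nt.EM Pool.Agent.Work.MP_56b8f5_nt.WM Pool.Agent.Work.MP_56b8f5_nt.SH
open Pool.Agent.Work.MP_56b8f5_nt.HZ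

namespace AuxMvN

open Pool.Agent.Work.MP_56b8f5_nt.HZB

theorem De_eq (N : ℕ) (c : ℕ → ℝ) (t : ℝ) :
    De N c t = ∑ n ∈ Finset.Icc 1 N, (c n : ℂ) * chi t n := by
  unfold De Ds
  rfl

theorem term {a b M : ℝ} (hM : 0 < M) {h l : ℕ} (hh : h ≠ 0) (hl : l ≠ 0)
    (hhN : (h : ℝ) ≤ M) (hlN : (l : ℝ) ≤ M) :
    ‖(∫ t in a..b, chi t h * (starRingEnd ℂ) (chi t l)) -
      (if h = l then (((b - a) / h : ℝ) : ℂ) else 0)‖ ≤
      2 * M * (1 / Real.sqrt h * (1 / Real.sqrt l)) := by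
  have e : (∫ t in a..b, chi t h * (starRingEnd ℂ) (chi t l)) =
      ((1 / Real.sqrt h * (1 / Real.sqrt l) : ℝ) : ℂ) *
        ∫ t in a..b, Complex.exp (((Real.log l - Real.log h : ℝ) : ℂ) * Complex.I * t) := by
    rw [← intervalIntegral.integral_const_mul]
    exact intervalIntegral.integral_congr fun t _ => AuxMVa.pair t hh hl
  have hr : 0 ≤ 1 / Real.sqrt h * (1 / Real.sqrt l) := by positivity
  rw [e]
  by_cases hne : h = l
  · subst hne
    rw [if_pos rfl, sub_self]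
    have h1 : (∫ t in a..b, Complex.exp (((0 : ℝ) : ℂ) * Complex.I * t)) = ((b - a : ℝ) : ℂ) := by
      have h2 : (fun t : ℝ => Complex.exp (((0 : ℝ) : ℂ) * Complex.I * t)) = fun _ => (1 : ℂ) := by
        funext t
        simp
      rw [h2, intervalIntegral.integral_const]
      simp
    have h3 : 1 / Real.sqrt h * (1 / Real.sqrt h) = 1 / (h : ℝ) := by
      rw [div_mul_div_comm, Real.mul_self_sqrt (Nat.cast_nonneg h), one_mul]
    have h5 : 1 / (h : ℝ) * (b - a) = (b - a) / h := by ring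
    rw [h1, ← Complex.ofReal_mul, h3, h5, sub_self, norm_zero]
    positivity
  · rw [if_neg hne, sub_zero, norm_mul, Complex.norm_real, Real.norm_of_nonneg hr]
    obtain ⟨h1, h2⟩ := AuxMVa.log_ne hM hh hl hhN hlN hne
    rw [mul_comm (2 * M)]
    exact mul_le_mul_of_nonneg_left ((AuxMVa.int_exp _ _ _ h1).trans h2) hr

theorem expand (a b : ℝ) (N : ℕ) (c : ℕ → ℝ) :
    ((∫ t in a..b, ‖De N c t‖ ^ 2 : ℝ) : ℂ) =
      ∑ h ∈ Finset.Icc 1 N, ∑ l ∈ Finset.Icc 1 N,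
        ((c h : ℂ) * (c l : ℂ)) * ∫ t in a..b, chi t h * (starRingEnd ℂ) (chi t l) := by
  have hne : ∀ n ∈ Finset.Icc 1 N, n ≠ 0 := fun n hn => by
    have := (Finset.mem_Icc.1 hn).1
    omega
  have hc : ∀ h ∈ Finset.Icc 1 N, ∀ l ∈ Finset.Icc 1 N,
      Continuous fun t : ℝ => ((c h : ℂ) * (c l : ℂ)) *
        (chi t h * (starRingEnd ℂ) (chi t l)) := fun h hh l hl =>
    continuous_const.mul ((AuxMVa.cont_chi (hne h hh)).mul
      (Complex.continuous_conj.comp (AuxMVa.cont_chi (hne l hl))))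
  have e1 : ∀ t : ℝ, ((‖De N c t‖ ^ 2 : ℝ) : ℂ) = ∑ h ∈ Finset.Icc 1 N, ∑ l ∈ Finset.Icc 1 N,
      ((c h : ℂ) * (c l : ℂ)) * (chi t h * (starRingEnd ℂ) (chi t l)) := by
    intro t
    rw [Complex.ofReal_pow, ← Complex.mul_conj', De_eq, map_sum, Finset.sum_mul_sum]
    refine Finset.sum_congr rfl fun h _ => Finset.sum_congr rfl fun l _ => ?_
    rw [map_mul, Complex.conj_ofReal]
    ring
  rw [← intervalIntegral.integral_ofReal]
  simp only [e1]
  rw [intervalIntegral.integral_finsetSum]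
  · refine Finset.sum_congr rfl fun h hh => ?_
    rw [intervalIntegral.integral_finsetSum]
    · refine Finset.sum_congr rfl fun l hl => ?_
      rw [intervalIntegral.integral_const_mul]
    · intro l hl
      exact (hc h hh l hl).intervalIntegrable _ _
  · intro h hh
    exact (continuous_finsetSum _ fun l hl => hc h hh l hl).intervalIntegrable _ _

theorem diag (a b : ℝ) (N : ℕ) (c : ℕ → ℝ) :
    (((b - a) * ∑ n ∈ Finset.Icc 1 N, c n ^ 2 / (n : ℝ) : ℝ) : ℂ) =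
      ∑ h ∈ Finset.Icc 1 N, ∑ l ∈ Finset.Icc 1 N,
        ((c h : ℂ) * (c l : ℂ)) * (if h = l then (((b - a) / h : ℝ) : ℂ) else 0) := by
  rw [Finset.mul_sum, Complex.ofReal_sum]
  refine Finset.sum_congr rfl fun h hh => ?_
  have h1 : ∀ l ∈ Finset.Icc 1 N,
      ((c h : ℂ) * (c l : ℂ)) * (if h = l then (((b - a) / h : ℝ) : ℂ) else 0) =
      if h = l then (((b - a) * (c h ^ 2 / (h : ℝ)) : ℝ) : ℂ) else 0 := by
    intro l _
    by_cases hl : h = l
    · subst hl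
      rw [if_pos rfl, if_pos rfl]
      push_cast
      ring
    · rw [if_neg hl, if_neg hl, mul_zero]
  rw [Finset.sum_congr rfl h1, Finset.sum_ite_eq, if_pos hh]

end AuxMvN

open AuxMvN in
theorem MvN_pf : S_MvN := by
  intro a b N c _
  have hne : ∀ n ∈ Finset.Icc 1 N, n ≠ 0 := fun n hn => by
    have := (Finset.mem_Icc.1 hn).1
    omega
  have hle : ∀ n ∈ Finset.Icc 1 N, (n : ℝ) ≤ (N : ℝ) := fun n hn => by
    exact_mod_cast (Finset.mem_Icc.1 hn).2
  have h0 : |(∫ t in a..b, ‖De N c t‖ ^ 2) - (b - a) * ∑ n ∈ Finset.Icc 1 N, c n ^ 2 / (n : ℝ)| =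
      ‖∑ h ∈ Finset.Icc 1 N, ∑ l ∈ Finset.Icc 1 N, ((c h : ℂ) * (c l : ℂ)) *
        ((∫ t in a..b, chi t h * (starRingEnd ℂ) (chi t l)) -
          (if h = l then (((b - a) / h : ℝ) : ℂ) else 0))‖ := by
    rw [← Real.norm_eq_abs, ← Complex.norm_real, Complex.ofReal_sub, expand, diag,
      ← Finset.sum_sub_distrib]
    congr 1
    refine Finset.sum_congr rfl fun h _ => ?_
    rw [← Finset.sum_sub_distrib]
    refine Finset.sum_congr rfl fun l _ => ?_
    rw [mul_sub]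
  rw [h0]
  have h1 : ∀ h ∈ Finset.Icc 1 N, ∀ l ∈ Finset.Icc 1 N, ‖((c h : ℂ) * (c l : ℂ)) *
      ((∫ t in a..b, chi t h * (starRingEnd ℂ) (chi t l)) -
        (if h = l then (((b - a) / h : ℝ) : ℂ) else 0))‖ ≤
      2 * N * ((|c h| * (1 / Real.sqrt h)) * (|c l| * (1 / Real.sqrt l))) := by
    intro h hh l hl
    have hN : (0 : ℝ) < N := lt_of_lt_of_le (by exact_mod_cast Nat.pos_of_ne_zero (hne h hh))
      (hle h hh)
    rw [norm_mul, norm_mul, Complex.norm_real, Complex.norm_real, Real.norm_eq_abs,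
      Real.norm_eq_abs]
    refine (mul_le_mul_of_nonneg_left (term hN (hne h hh) (hne l hl) (hle h hh) (hle l hl))
      (by positivity)).trans (le_of_eq ?_)
    ring
  refine (norm_sum_le _ _).trans ((Finset.sum_le_sum fun h hh => (norm_sum_le _ _).trans
    (Finset.sum_le_sum fun l hl => h1 h hh l hl)).trans ?_)
  have h2 : ∑ h ∈ Finset.Icc 1 N, ∑ l ∈ Finset.Icc 1 N,
      2 * (N : ℝ) * ((|c h| * (1 / Real.sqrt h)) * (|c l| * (1 / Real.sqrt l))) =
      2 * N * (∑ n ∈ Finset.Icc 1 N, |c n| * (1 / Real.sqrt n)) ^ 2 := by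
    rw [sq, Finset.sum_mul_sum, Finset.mul_sum]
    refine Finset.sum_congr rfl fun h _ => ?_
    rw [Finset.mul_sum]
  rw [h2]
  have h4 := sq_sum_le_card_mul_sum_sq (s := Finset.Icc 1 N)
    (f := fun n : ℕ => |c n| * (1 / Real.sqrt n))
  have h5 : ∑ n ∈ Finset.Icc 1 N, (|c n| * (1 / Real.sqrt n)) ^ 2 =
      ∑ n ∈ Finset.Icc 1 N, c n ^ 2 / (n : ℝ) := by
    refine Finset.sum_congr rfl fun n _ => ?_
    rw [mul_pow, div_pow, one_pow, Real.sq_sqrt (Nat.cast_nonneg n), sq_abs]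
    ring
  rw [h5, Nat.card_Icc, Nat.add_sub_cancel] at h4
  calc 2 * (N : ℝ) * (∑ n ∈ Finset.Icc 1 N, |c n| * (1 / Real.sqrt n)) ^ 2
      ≤ 2 * (N : ℝ) * ((N : ℝ) * ∑ n ∈ Finset.Icc 1 N, c n ^ 2 / (n : ℝ)) :=
        mul_le_mul_of_nonneg_left h4 (by positivity)
    _ = 2 * (N : ℝ) ^ 2 * ∑ n ∈ Finset.Icc 1 N, c n ^ 2 / (n : ℝ) := by ring

end Pool.Agent.Work.MP_56b8f5_nt.HN
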