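import Pool.Agent.Work.MP_56b8f5_nt.HN.StmtsE

/-!
MP_56b8f5_nt, block HN, item Pri: the prime zeta function near `1`.
-/

set_option autoImplicit false

open MeasureTheory Set Filter Topology

noncomputable section

namespace Pool.Agent.Work.MP_56b8f5_nt.HN

open Pool.Agent.Work.MP_56b8f5_nt.EM Pool.Agent.Work.MP_56b8f5_nt.WM Pool.Agent.Work.MP_56b8f5_nt.SH
open Pool.Agent.Work.MP_56b8f5_nt.HZ

namespace AuxPri

/-- `log |u ζ(1+u)|` is bounded for `0 < u ≤ 1/4` -/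
theorem zb : ∃ C : ℝ, 0 ≤ C ∧ ∀ u : ℝ, 0 < u → u ≤ 1 / 4 →
    |Real.log ‖(u : ℂ) * riemannZeta (1 + u)‖| ≤ C := by
  have h1 : Tendsto (fun u : ℝ => (u : ℂ) * riemannZeta (1 + u)) (𝓝[>] 0) (𝓝 1) := by
    have h2 : Tendsto (fun u : ℝ => (1 + (u : ℂ))) (𝓝[>] 0) (𝓝[≠] 1) := by
      apply tendsto_nhdsWithin_iff.mpr
      constructor
      · have h3 : Continuous (fun u : ℝ => (1 + (u : ℂ))) := by fun_prop
        have h4 := (h3.tendsto 0).mono_left (nhdsWithin_le_nhds (s := Ioi 0))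
        simpa using h4
      · filter_upwards [self_mem_nhdsWithin] with u hu
        have hu0 : u ≠ 0 := ne_of_gt hu
        simp only [mem_compl_iff, mem_singleton_iff, add_eq_left, Complex.ofReal_eq_zero]
        exact hu0
    refine (riemannZeta_residue_one.comp h2).congr ?_
    intro u
    simp
  have h4 : Tendsto (fun u : ℝ => Real.log ‖(u : ℂ) * riemannZeta (1 + u)‖) (𝓝[>] 0) (𝓝 0) := by
    have h5 := (continuous_norm.tendsto _).comp h1
    have h6 := (Real.continuousAt_log (x := ‖(1 : ℂ)‖) (by simp)).tendsto.comp h5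
    rw [norm_one, Real.log_one] at h6
    exact h6
  have h7 : ∀ᶠ u : ℝ in 𝓝[>] 0, |Real.log ‖(u : ℂ) * riemannZeta (1 + u)‖| < 1 := by
    have h8 := h4.abs
    rw [abs_zero] at h8
    exact h8.eventually (gt_mem_nhds zero_lt_one)
  obtain ⟨δ, hδ, h9⟩ := mem_nhdsGT_iff_exists_Ioo_subset.mp h7
  have hδ0 : 0 < δ := hδ
  have hc : ContinuousOn (fun u : ℝ => Real.log ‖(u : ℂ) * riemannZeta (1 + u)‖) (Icc (δ / 2) (1 / 4)) := by
    intro u hu
    have hu0 : 0 < u := by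
      have := hu.1
      linarith
    have hne : (1 + (u : ℂ)) ≠ 1 := by
      simp only [ne_eq, add_eq_left, Complex.ofReal_eq_zero]
      exact ne_of_gt hu0
    have hz : ContinuousAt (fun u : ℝ => riemannZeta (1 + (u : ℂ))) u := by
      have h10 : ContinuousAt riemannZeta (1 + (u : ℂ)) := (differentiableAt_riemannZeta hne).continuousAt
      exact ContinuousAt.comp (f := fun u : ℝ => (1 + (u : ℂ))) h10 (by fun_prop)
    have hz2 : ContinuousAt (fun u : ℝ => ‖(u : ℂ) * riemannZeta (1 + (u : ℂ))‖) u := by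
      apply ContinuousAt.norm
      exact ContinuousAt.mul (by fun_prop) hz
    refine ContinuousAt.continuousWithinAt (ContinuousAt.log hz2 ?_)
    rw [norm_ne_zero_iff, mul_ne_zero_iff]
    refine ⟨?_, riemannZeta_ne_zero_of_one_le_re ?_⟩
    · exact_mod_cast ne_of_gt hu0
    · simp
      linarith
  obtain ⟨C, hC⟩ := isCompact_Icc.exists_bound_of_continuousOn hc
  refine ⟨max C 1, le_trans zero_le_one (le_max_right _ _), ?_⟩
  intro u hu0 hu1
  rcases lt_or_ge u δ with h | h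
  · exact le_trans (le_of_lt (h9 ⟨hu0, h⟩)) (le_max_right _ _)
  · have := hC u ⟨by linarith, hu1⟩
    rw [Real.norm_eq_abs] at this
    exact le_trans this (le_max_left _ _)

/-- the logarithm of `ζ(s)` as a sum over the primes -/
theorem logz (s : ℝ) (hs : 1 < s) :
    Summable (fun p : Nat.Primes => -Real.log (1 - ((p : ℕ) : ℝ) ^ (-s))) ∧
    Real.log ‖riemannZeta (s : ℂ)‖ = ∑' p : Nat.Primes, -Real.log (1 - ((p : ℕ) : ℝ) ^ (-s)) := by
  have hs' : 1 < ((s : ℂ)).re := by simpa using hs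
  have hS : Summable fun p : Nat.Primes => -Complex.log (1 - ((p : ℕ) : ℂ) ^ (-(s : ℂ))) := by
    have h := DirichletCharacter.summable_neg_log_one_sub_mul_prime_cpow (1 : DirichletCharacter ℂ 1) hs'
    refine h.congr ?_
    intro p
    rw [MulChar.one_apply <| isUnit_of_subsingleton _, one_mul]
  have hre : ∀ p : Nat.Primes, (-Complex.log (1 - ((p : ℕ) : ℂ) ^ (-(s : ℂ)))).re =
      -Real.log (1 - ((p : ℕ) : ℝ) ^ (-s)) := by
    intro p
    have hp : (2 : ℝ) ≤ ((p : ℕ) : ℝ) := by exact_mod_cast p.2.two_le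
    have h1 : ((p : ℕ) : ℂ) ^ (-(s : ℂ)) = ((((p : ℕ) : ℝ) ^ (-s) : ℝ) : ℂ) := by
      rw [Complex.ofReal_cpow (by positivity)]
      push_cast
      rfl
    have h2 : ((p : ℕ) : ℝ) ^ (-s) < 1 := Real.rpow_lt_one_of_one_lt_of_neg (by linarith) (by linarith)
    rw [Complex.neg_re, Complex.log_re, h1, ← Complex.ofReal_one, ← Complex.ofReal_sub, Complex.norm_real,
      Real.norm_of_nonneg (by linarith)]
  have hsum : Summable (fun p : Nat.Primes => -Real.log (1 - ((p : ℕ) : ℝ) ^ (-s))) := by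
    have := (Complex.hasSum_re hS.hasSum).summable
    exact this.congr (fun p => hre p)
  refine ⟨hsum, ?_⟩
  rw [← riemannZeta_eulerProduct_exp_log hs', Complex.norm_exp, Real.log_exp, Complex.re_tsum hS]
  exact tsum_congr hre

end AuxPri

open AuxPri in
/-- ITEM Pri. -/
theorem Pri_pf : S_Pri := by
  obtain ⟨C, hC0, hC⟩ := zb
  have hP : Summable (fun p : Nat.Primes => ((p : ℕ) : ℝ) ^ (-2 : ℝ)) :=
    Nat.Primes.summable_rpow.mpr (by norm_num)
  set D : ℝ := ∑' p : Nat.Primes, ((p : ℕ) : ℝ) ^ (-2 : ℝ) with hD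
  have hD0 : 0 ≤ D := tsum_nonneg (fun p => by positivity)
  refine ⟨C + 2 * D + 2, by linarith, ?_⟩
  intro η h0 h1
  have hS : Summable (fun p : Nat.Primes => ((p : ℕ) : ℝ) ^ (-(1 + 2 * η))) :=
    Nat.Primes.summable_rpow.mpr (by linarith)
  refine ⟨hS, ?_⟩
  obtain ⟨hL, hlog⟩ := logz (1 + 2 * η) (by linarith)
  -- compare the two sums
  have hterm : ∀ p : Nat.Primes, |-Real.log (1 - ((p : ℕ) : ℝ) ^ (-(1 + 2 * η))) - ((p : ℕ) : ℝ) ^ (-(1 + 2 * η))| ≤
      2 * ((p : ℕ) : ℝ) ^ (-2 : ℝ) := by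
    intro p
    have hp : (2 : ℝ) ≤ ((p : ℕ) : ℝ) := by exact_mod_cast p.2.two_le
    have hp0 : (0 : ℝ) < ((p : ℕ) : ℝ) := by linarith
    set x : ℝ := ((p : ℕ) : ℝ) ^ (-(1 + 2 * η)) with hx
    have hx0 : 0 ≤ x := by positivity
    have hx1 : x ≤ ((p : ℕ) : ℝ)⁻¹ := by
      rw [← Real.rpow_neg_one]
      exact Real.rpow_le_rpow_of_exponent_le (by linarith) (by linarith)
    have hx2 : x ≤ 1 / 2 := by
      refine le_trans hx1 ?_
      rw [inv_le_comm₀ hp0 (by norm_num)]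
      linarith
    have h3 := Real.abs_log_sub_add_sum_range_le (x := x) (by rw [abs_of_nonneg hx0]; linarith) 1
    simp only [Finset.range_one, Finset.sum_singleton, Nat.cast_zero, zero_add, pow_one, div_one, abs_of_nonneg hx0]
      at h3
    have h4 : |-Real.log (1 - x) - x| = |x + Real.log (1 - x)| := by
      rw [← abs_neg]
      congr 1
      ring
    rw [h4]
    refine le_trans h3 ?_
    have h5 : x ^ 2 ≤ ((p : ℕ) : ℝ) ^ (-2 : ℝ) := by
      have h6 : ((p : ℕ) : ℝ) ^ (-2 : ℝ) = (((p : ℕ) : ℝ)⁻¹) ^ 2 := by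
        rw [Real.rpow_neg hp0.le, inv_pow]
        norm_num
      rw [h6]
      exact pow_le_pow_left₀ hx0 hx1 2
    rw [div_le_iff₀ (by linarith)]
    have h7 : x ^ (1 + 1) = x ^ 2 := by norm_num
    rw [h7]
    have h8 : 0 ≤ ((p : ℕ) : ℝ) ^ (-2 : ℝ) := by positivity
    nlinarith
  have hdiff : Summable (fun p : Nat.Primes => -Real.log (1 - ((p : ℕ) : ℝ) ^ (-(1 + 2 * η))) -
      ((p : ℕ) : ℝ) ^ (-(1 + 2 * η))) := hL.sub hS
  have hcmp : |(∑' p : Nat.Primes, -Real.log (1 - ((p : ℕ) : ℝ) ^ (-(1 + 2 * η)))) -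
      ∑' p : Nat.Primes, ((p : ℕ) : ℝ) ^ (-(1 + 2 * η))| ≤ 2 * D := by
    rw [← hL.tsum_sub hS, hD, ← tsum_mul_left]
    have h9 : Summable (fun p : Nat.Primes => ‖-Real.log (1 - ((p : ℕ) : ℝ) ^ (-(1 + 2 * η))) -
        ((p : ℕ) : ℝ) ^ (-(1 + 2 * η))‖) :=
      Summable.of_nonneg_of_le (fun p => norm_nonneg _) (fun p => hterm p) (hP.mul_left 2)
    have h10 := norm_tsum_le_tsum_norm h9
    rw [Real.norm_eq_abs] at h10
    exact le_trans h10 (h9.tsum_le_tsum (fun p => hterm p) (hP.mul_left 2))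
  rw [← hlog] at hcmp
  have hz := hC (2 * η) (by linarith) (by linarith)
  have hzn : riemannZeta (1 + ((2 * η : ℝ) : ℂ)) ≠ 0 := by
    apply riemannZeta_ne_zero_of_one_le_re
    rw [Complex.add_re, Complex.one_re, Complex.ofReal_re]
    linarith
  have hcast : ((1 + 2 * η : ℝ) : ℂ) = 1 + ((2 * η : ℝ) : ℂ) := by push_cast; ring
  rw [hcast] at hcmp
  rw [norm_mul, Real.log_mul (by rw [norm_ne_zero_iff]; exact_mod_cast (by linarith : (2 * η) ≠ 0))
    (norm_ne_zero_iff.mpr hzn), Complex.norm_real, Real.norm_of_nonneg (by linarith),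
    Real.log_mul (by norm_num) (ne_of_gt h0)] at hz
  have hl2 : Real.log 2 ≤ 1 := by
    have := Real.log_two_lt_d9
    linarith
  have hl20 : 0 ≤ Real.log 2 := Real.log_nonneg (by norm_num)
  rw [one_div, Real.log_inv]
  rw [abs_le] at hz hcmp ⊢
  constructor <;> linarith [hz.1, hz.2, hcmp.1, hcmp.2]

end Pool.Agent.Work.MP_56b8f5_nt.HN
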