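import Pool.Agent.Work.MP_56b8f5_nt.HN.StmtsE

/-!
MP_56b8f5_nt, block HN, item SSc: the size of `SS`.
-/

set_option autoImplicit false

open MeasureTheory Set Filter Topology

noncomputable section

namespace Pool.Agent.Work.MP_56b8f5_nt.HN

open Pool.Agent.Work.MP_56b8f5_nt.EM Pool.Agent.Work.MP_56b8f5_nt.WM Pool.Agent.Work.MP_56b8f5_nt.SH
open Pool.Agent.Work.MP_56b8f5_nt.HZ

namespace AuxSSc

theorem dk_zero (k : ℕ) : dk k 0 = 0 := by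
  unfold dk
  simp

theorem dk_one (k : ℕ) : dk k 1 = 1 := by
  unfold dk
  induction k with
  | zero => simp
  | succ k ih =>
    rw [pow_succ, ArithmeticFunction.mul_apply_one]
    push_cast
    rw [ih]
    simp

theorem pow_eq (k : ℕ) {η : ℝ} (hη : 0 < η) :
    (1 / η) ^ k ^ 2 = Real.exp ((k : ℝ) ^ 2 * Real.log (1 / η)) := by
  have h := Real.exp_nat_mul (Real.log (1 / η)) (k ^ 2)
  rw [Real.exp_log (by positivity)] at h
  push_cast at h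
  rw [h]

/-- a sum over a finite set of primes is at most the sum over all primes up to a bound -/
theorem sum_primes (x : ℕ → ℝ) (hx : ∀ n, 0 ≤ x n) (s : Finset Nat.Primes) :
    ∃ Y : ℕ, ∑ p ∈ s, x (p : ℕ) ≤ ∑ p ∈ pr Y, x p := by
  refine ⟨s.sup (fun p => (p : ℕ)), ?_⟩
  have h1 : ∑ p ∈ s, x (p : ℕ) = ∑ p ∈ s.map ⟨fun p : Nat.Primes => (p : ℕ), Subtype.val_injective⟩, x p := by
    rw [Finset.sum_map]
    rfl
  rw [h1]
  refine Finset.sum_le_sum_of_subset_of_nonneg ?_ (fun i _ _ => hx i)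
  intro p hp
  rw [Finset.mem_map] at hp
  obtain ⟨q, hq, rfl⟩ := hp
  unfold pr
  rw [Finset.mem_filter, Finset.mem_range]
  refine ⟨?_, q.2⟩
  have := Finset.le_sup (f := fun p : Nat.Primes => (p : ℕ)) hq
  exact Nat.lt_succ_of_le this

/-- the lower bound of `SS` -/
theorem lower {CE CP : ℝ} {k : ℕ} {η S : ℝ} (hη : 0 < η) (hCE : 0 < CE) (hS : 0 < S)
    (hE : ∀ Y : ℕ, Real.exp ((k : ℝ) ^ 2 * ∑ p ∈ pr Y, (p : ℝ) ^ (-(1 + 2 * η))) ≤ CE * S)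
    (hsum : Summable (fun p : Nat.Primes => ((p : ℕ) : ℝ) ^ (-(1 + 2 * η))))
    (hP : |(∑' p : Nat.Primes, ((p : ℕ) : ℝ) ^ (-(1 + 2 * η))) - Real.log (1 / η)| ≤ CP) :
    (1 / η) ^ k ^ 2 ≤ Real.exp ((k : ℝ) ^ 2 * CP) * CE * S := by
  have h1 : (k : ℝ) ^ 2 * (∑' p : Nat.Primes, ((p : ℕ) : ℝ) ^ (-(1 + 2 * η))) ≤ Real.log (CE * S) := by
    rw [← tsum_mul_left]
    refine (hsum.mul_left _).tsum_le_of_sum_le (fun s => ?_)
    obtain ⟨Y, hY⟩ := sum_primes (fun n => (n : ℝ) ^ (-(1 + 2 * η)))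
      (fun n => Real.rpow_nonneg (Nat.cast_nonneg n) _) s
    rw [Real.le_log_iff_exp_le (by positivity), ← Finset.mul_sum]
    refine le_trans (Real.exp_le_exp.2 (mul_le_mul_of_nonneg_left hY (by positivity))) (hE Y)
  rw [pow_eq k hη]
  have h2 : (k : ℝ) ^ 2 * Real.log (1 / η) ≤ (k : ℝ) ^ 2 * CP + Real.log (CE * S) := by
    have h3 := (abs_le.1 hP).1
    have h4 : Real.log (1 / η) ≤ CP + (∑' p : Nat.Primes, ((p : ℕ) : ℝ) ^ (-(1 + 2 * η))) := by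
      linarith
    have h5 := mul_le_mul_of_nonneg_left h4 (sq_nonneg (k : ℝ))
    linarith
  refine (Real.exp_le_exp.2 h2).trans_eq ?_
  rw [Real.exp_add, Real.exp_log (by positivity), mul_assoc]

/-- the tail of `SS` -/
theorem tail {k : ℕ} {η : ℝ} (hη : 0 < η) (N : ℕ) (hN : 1 ≤ N)
    (hs1 : Summable (fun n : ℕ => dk k n ^ 2 * (n : ℝ) ^ (-(1 + 2 * η))))
    (hs2 : Summable (fun n : ℕ => dk k n ^ 2 * (n : ℝ) ^ (-(1 + 2 * (η / 2))))) :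
    SS k η ≤ (∑ n ∈ Finset.Icc 1 N, dk k n ^ 2 * (n : ℝ) ^ (-(1 + 2 * η))) +
      (N : ℝ) ^ (-η) * SS k (η / 2) := by
  classical
  have h1 : HasSum (fun n : ℕ => if n ∈ Finset.Icc 1 N then
      dk k n ^ 2 * (n : ℝ) ^ (-(1 + 2 * η)) else 0)
      (∑ n ∈ Finset.Icc 1 N, dk k n ^ 2 * (n : ℝ) ^ (-(1 + 2 * η))) := by
    have h : HasSum (fun n : ℕ => if n ∈ Finset.Icc 1 N then
        dk k n ^ 2 * (n : ℝ) ^ (-(1 + 2 * η)) else 0)
        (∑ n ∈ Finset.Icc 1 N, if n ∈ Finset.Icc 1 N then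
          dk k n ^ 2 * (n : ℝ) ^ (-(1 + 2 * η)) else 0) :=
      hasSum_sum_of_ne_finset_zero (fun b hb => if_neg hb)
    have e : (∑ n ∈ Finset.Icc 1 N, if n ∈ Finset.Icc 1 N then
          dk k n ^ 2 * (n : ℝ) ^ (-(1 + 2 * η)) else 0) =
        ∑ n ∈ Finset.Icc 1 N, dk k n ^ 2 * (n : ℝ) ^ (-(1 + 2 * η)) :=
      Finset.sum_congr rfl (fun n hn => if_pos hn)
    rw [e] at h
    exact h
  have h2 := h1.add (hs2.hasSum.mul_left ((N : ℝ) ^ (-η)))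
  refine hasSum_le (fun n => ?_) hs1.hasSum h2
  have h0 : ∀ r : ℝ, 0 ≤ dk k n ^ 2 * (n : ℝ) ^ r := fun r =>
    mul_nonneg (sq_nonneg _) (Real.rpow_nonneg (Nat.cast_nonneg n) _)
  have hN0 : (0 : ℝ) ≤ (N : ℝ) ^ (-η) := Real.rpow_nonneg (Nat.cast_nonneg N) _
  by_cases hn : n ∈ Finset.Icc 1 N
  · rw [if_pos hn]
    have := mul_nonneg hN0 (h0 (-(1 + 2 * (η / 2))))
    linarith
  · rw [if_neg hn, zero_add]
    rcases Nat.eq_zero_or_pos n with h | h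
    · rw [h, dk_zero]
      simp
    · have hnN : N < n := by
        by_contra hc
        exact hn (Finset.mem_Icc.2 ⟨h, not_lt.1 hc⟩)
      have hnpos : (0 : ℝ) < n := Nat.cast_pos.2 h
      have hNpos : (0 : ℝ) < N := Nat.cast_pos.2 hN
      have h3 : (n : ℝ) ^ (-(1 + 2 * η)) = (n : ℝ) ^ (-η) * (n : ℝ) ^ (-(1 + 2 * (η / 2))) := by
        rw [← Real.rpow_add hnpos]
        congr 1
        ring
      have h4 : (n : ℝ) ^ (-η) ≤ (N : ℝ) ^ (-η) :=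
        Real.rpow_le_rpow_of_nonpos hNpos (by exact_mod_cast hnN.le) (by linarith)
      rw [h3]
      calc dk k n ^ 2 * ((n : ℝ) ^ (-η) * (n : ℝ) ^ (-(1 + 2 * (η / 2))))
          = (n : ℝ) ^ (-η) * (dk k n ^ 2 * (n : ℝ) ^ (-(1 + 2 * (η / 2)))) := by ring
        _ ≤ (N : ℝ) ^ (-η) * (dk k n ^ 2 * (n : ℝ) ^ (-(1 + 2 * (η / 2)))) :=
          mul_le_mul_of_nonneg_right h4 (h0 _)

end AuxSSc

theorem SSc_pf (h1 : S_SSu) (h2 : S_EuN) (h3 : S_Pri) : S_SSc := by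
  intro k
  obtain ⟨CS, hCS, hS⟩ := h1 k
  obtain ⟨CE, hCE, hE⟩ := h2 k
  obtain ⟨CP, hCP, hP⟩ := h3
  obtain ⟨C3, hC3⟩ : ∃ C3 : ℝ, C3 = Real.exp ((k : ℝ) ^ 2 * CP) * CE := ⟨_, rfl⟩
  have hC31 : 1 ≤ C3 := by
    rw [hC3]
    have h : 1 ≤ Real.exp ((k : ℝ) ^ 2 * CP) := Real.one_le_exp (by positivity)
    nlinarith
  have hM : 0 ≤ CS * 2 ^ k ^ 2 * C3 := by positivity
  refine ⟨CS * 2 ^ k ^ 2 * C3 + C3, by linarith, fun η hη hη1 => ?_⟩
  obtain ⟨hs1, -⟩ := hS η hη hη1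
  obtain ⟨hs2, hb2⟩ := hS (η / 2) (by linarith) (by linarith)
  obtain ⟨hp1, hp2⟩ := hP η hη hη1
  have hone : 1 ≤ SS k η := by
    have h := hs1.le_tsum 1 (fun n _ => mul_nonneg (sq_nonneg _)
      (Real.rpow_nonneg (Nat.cast_nonneg n) _))
    rw [AuxSSc.dk_one, Nat.cast_one, Real.one_rpow, one_pow, one_mul] at h
    exact h
  have hpos : 0 < SS k η := by linarith
  have hlow : (1 / η) ^ k ^ 2 ≤ C3 * SS k η := by
    rw [hC3]
    exact AuxSSc.lower hη (by linarith) hpos (hE η hη hη1) hp1 hp2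
  refine ⟨hs1, hone, hlow.trans ?_, fun N hN => ?_⟩
  · refine mul_le_mul_of_nonneg_right ?_ hpos.le
    linarith
  · refine (AuxSSc.tail hη N hN hs1 hs2).trans ?_
    have hN0 : (0 : ℝ) ≤ (N : ℝ) ^ (-η) := Real.rpow_nonneg (Nat.cast_nonneg N) _
    have h4 : SS k (η / 2) ≤ (CS * 2 ^ k ^ 2 * C3) * SS k η := by
      refine hb2.trans ?_
      have h5 : 1 / (η / 2) = 2 * (1 / η) := by
        field_simp
      rw [h5, mul_pow]
      calc CS * (2 ^ k ^ 2 * (1 / η) ^ k ^ 2) ≤ CS * (2 ^ k ^ 2 * (C3 * SS k η)) := by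
            refine mul_le_mul_of_nonneg_left (mul_le_mul_of_nonneg_left hlow ?_) ?_
            · positivity
            · linarith
        _ = (CS * 2 ^ k ^ 2 * C3) * SS k η := by ring
    have h6 : (N : ℝ) ^ (-η) * SS k (η / 2) ≤ (N : ℝ) ^ (-η) * ((CS * 2 ^ k ^ 2 * C3) * SS k η) :=
      mul_le_mul_of_nonneg_left h4 hN0
    have h7 : 0 ≤ (N : ℝ) ^ (-η) * (C3 * SS k η) := by positivity
    nlinarith

end Pool.Agent.Work.MP_56b8f5_nt.HN
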