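import Pool.Agent.Work.MP_56b8f5_nt.HN.StmtsE

/-!
MP_56b8f5_nt, block HN, item SSu: upper bound for the Dirichlet series of the squares of the divisor functions.
-/

set_option autoImplicit false

open MeasureTheory Set Filter Topology

noncomputable section

namespace Pool.Agent.Work.MP_56b8f5_nt.HN

open Pool.Agent.Work.MP_56b8f5_nt.EM Pool.Agent.Work.MP_56b8f5_nt.WM Pool.Agent.Work.MP_56b8f5_nt.SH
open Pool.Agent.Work.MP_56b8f5_nt.HZ

namespace AuxSSu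

theorem term_eq (k n : ℕ) (hn : n ≠ 0) (η : ℝ) :
    dk k n ^ 2 * (n : ℝ) ^ (-(1 + 2 * η)) = (dk k n * (n : ℝ) ^ (-η)) ^ 2 / (n : ℝ) := by
  have hn' : (0 : ℝ) < n := by exact_mod_cast Nat.pos_of_ne_zero hn
  rw [mul_pow, mul_div_assoc]
  congr 1
  rw [← Real.rpow_natCast ((n : ℝ) ^ (-η)) 2, ← Real.rpow_mul hn'.le, eq_div_iff hn'.ne']
  nth_rewrite 2 [← Real.rpow_one (n : ℝ)]
  rw [← Real.rpow_add hn']
  congr 1
  push_cast
  ring

theorem smo_of_le {Y n : ℕ} (hn : n ≠ 0) (h : n ≤ Y) : Smo Y n :=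
  ⟨hn, fun _ _ hd => (Nat.le_of_dvd (Nat.pos_of_ne_zero hn) hd).trans h⟩

theorem pr_le (Y : ℕ) (f : ℕ → ℝ) (h0 : ∀ n, 0 ≤ f n) (hs : Summable fun p : Nat.Primes => f p) :
    ∑ p ∈ pr Y, f p ≤ ∑' p : Nat.Primes, f p := by
  have h1 : ∀ x ∈ pr Y, Nat.Prime x := fun x hx => (Finset.mem_filter.mp hx).2
  rw [← Finset.sum_subtype_of_mem f h1]
  have hs' : Summable fun p : {n : ℕ // Nat.Prime n} => f p := hs
  have h2 : ∑ p ∈ Finset.subtype Nat.Prime (pr Y), f p ≤ ∑' p : {n : ℕ // Nat.Prime n}, f p :=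
    hs'.sum_le_tsum (Finset.subtype Nat.Prime (pr Y)) fun p _ => h0 p
  exact h2

theorem part_le (k : ℕ) (C1 η : ℝ) (hη : 0 ≤ η) (Y : ℕ)
    (h : Summable (fun n : ℕ => (open Classical in if Smo Y n then (dk k n * (n : ℝ) ^ (-η)) ^ 2 / (n : ℝ) else 0)) ∧
    ∑' n : ℕ, (open Classical in if Smo Y n then (dk k n * (n : ℝ) ^ (-η)) ^ 2 / (n : ℝ) else 0) ≤
      C1 * Real.exp ((k : ℝ) ^ 2 * ∑ p ∈ pr Y, (p : ℝ) ^ (-(1 + 2 * η)))) :
    ∑ n ∈ Finset.range (Y + 1), dk k n ^ 2 * (n : ℝ) ^ (-(1 + 2 * η)) ≤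
      C1 * Real.exp ((k : ℝ) ^ 2 * ∑ p ∈ pr Y, (p : ℝ) ^ (-(1 + 2 * η))) := by
  classical
  refine le_trans ?_ h.2
  refine le_trans (Finset.sum_le_sum fun n hn => ?_) (h.1.sum_le_tsum (Finset.range (Y + 1)) fun n _ => ?_)
  · rcases eq_or_ne n 0 with rfl | h0
    · have e : (-(1 + 2 * η)) ≠ 0 := by
        have : 0 < 1 + 2 * η := by linarith
        linarith
      rw [Nat.cast_zero, Real.zero_rpow e, mul_zero]
      split_ifs
      · positivity
      · exact le_rfl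
    · rw [if_pos (smo_of_le h0 (Nat.lt_succ_iff.mp (Finset.mem_range.mp hn))), term_eq k n h0 η]
  · split_ifs
    · positivity
    · exact le_rfl

end AuxSSu

open AuxSSu in
theorem SSu_pf (h1 : S_SmN) (h2 : S_Pri) : S_SSu := by
  intro k
  obtain ⟨C1, hC1, hS⟩ := h1.1 k
  obtain ⟨C2, hC2, hP⟩ := h2
  refine ⟨C1 * Real.exp ((k : ℝ) ^ 2 * C2), ?_, fun η hη hη' => ?_⟩
  · have : 1 ≤ Real.exp ((k : ℝ) ^ 2 * C2) := Real.one_le_exp (by positivity)
    nlinarith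
  · obtain ⟨hs, hb⟩ := hP η hη hη'
    have hf : ∀ n : ℕ, 0 ≤ dk k n ^ 2 * (n : ℝ) ^ (-(1 + 2 * η)) := fun n => by positivity
    have key : ∀ Y : ℕ, ∑ n ∈ Finset.range Y, dk k n ^ 2 * (n : ℝ) ^ (-(1 + 2 * η)) ≤
        C1 * Real.exp ((k : ℝ) ^ 2 * C2) * (1 / η) ^ k ^ 2 := by
      intro Y
      refine le_trans (Finset.sum_le_sum_of_subset_of_nonneg
        (Finset.range_mono (Nat.le_succ Y)) fun n _ _ => hf n) ?_
      refine le_trans (part_le k C1 η hη.le Y (hS Y η hη.le)) ?_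
      rw [mul_assoc]
      refine mul_le_mul_of_nonneg_left ?_ (by linarith)
      have hp : ∑ p ∈ pr Y, (p : ℝ) ^ (-(1 + 2 * η)) ≤ Real.log (1 / η) + C2 := by
        have e1 := pr_le Y (fun n => (n : ℝ) ^ (-(1 + 2 * η))) (fun n => by positivity) hs
        have e2 := (abs_le.mp hb).2
        linarith
      have h3 : Real.exp ((k : ℝ) ^ 2 * C2) * (1 / η) ^ k ^ 2 =
          Real.exp ((k : ℝ) ^ 2 * (Real.log (1 / η) + C2)) := by
        have hpos : 0 < 1 / η := by positivity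
        have e3 : (k : ℝ) ^ 2 * (Real.log (1 / η) + C2) =
            (k : ℝ) ^ 2 * C2 + ((k ^ 2 : ℕ) : ℝ) * Real.log (1 / η) := by
          push_cast
          ring
        rw [e3, Real.exp_add, Real.exp_nat_mul, Real.exp_log hpos]
      rw [h3]
      exact Real.exp_le_exp.mpr (mul_le_mul_of_nonneg_left hp (by positivity))
    exact ⟨summable_of_sum_range_le hf key, Real.tsum_le_of_sum_range_le hf key⟩

end Pool.Agent.Work.MP_56b8f5_nt.HN
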