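import Pool.Agent.Work.MP_56b8f5_nt.HN.StmtsE

/-!
MP_56b8f5_nt, block HN, item SmN: sums of divisor functions over smooth numbers.
-/

set_option autoImplicit false

open MeasureTheory Set Filter Topology

noncomputable section

namespace Pool.Agent.Work.MP_56b8f5_nt.HN

open Pool.Agent.Work.MP_56b8f5_nt.EM Pool.Agent.Work.MP_56b8f5_nt.WM Pool.Agent.Work.MP_56b8f5_nt.SH
open Pool.Agent.Work.MP_56b8f5_nt.HZ

namespace AuxSmN

theorem fp_zero {d : ℕ} (hd : d ≠ 0) (hd1 : d ≠ 1) : fp (fun _ => 0) d = 0 := by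
  unfold fp
  have hne : d.primeFactors.Nonempty := by
    rw [Nat.nonempty_primeFactors]
    omega
  obtain ⟨p, hp⟩ := hne
  exact Finset.prod_eq_zero hp rfl

theorem fp_one : fp (fun _ => 0) 1 = 1 := by
  unfold fp
  rw [Nat.primeFactors_one, Finset.prod_empty]

theorem inner (g : ℕ → ℝ) {n : ℕ} (hn : n ≠ 0) :
    ∑ d ∈ n.divisors, fp (fun _ => 0) d * g (n / d) = g n := by
  rw [Finset.sum_eq_single 1]
  · rw [fp_one, one_mul, Nat.div_one]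
  · intro d hd hd1
    rw [fp_zero (Nat.pos_of_mem_divisors hd).ne' hd1, zero_mul]
  · intro h
    exact absurd (Nat.one_mem_divisors.2 hn) h

open Classical in
theorem fun_eq (Y k : ℕ) (η : ℝ) :
    (fun n : ℕ => (if Smo Y n then
      (∑ d ∈ n.divisors, fp (fun _ => 0) d * (dk k (n / d) * ((n / d : ℕ) : ℝ) ^ (-η))) ^ 2 / (n : ℝ) else 0)) =
    (fun n : ℕ => (if Smo Y n then (dk k n * (n : ℝ) ^ (-η)) ^ 2 / (n : ℝ) else 0)) := by
  funext n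
  by_cases h : Smo Y n
  · rw [if_pos h, if_pos h, inner (fun m => dk k m * (m : ℝ) ^ (-η)) h.1]
  · rw [if_neg h, if_neg h]

end AuxSmN

theorem SmN_pf (h1 : S_EmN) (h2 : WM.S_Mert) : S_SmN := by
  classical
  have hfirst : ∀ k : ℕ, ∃ C : ℝ, 1 ≤ C ∧ ∀ (Y : ℕ) (η : ℝ), 0 ≤ η →
    Summable (fun n : ℕ => (open Classical in if Smo Y n then (dk k n * (n : ℝ) ^ (-η)) ^ 2 / (n : ℝ) else 0)) ∧
    ∑' n : ℕ, (open Classical in if Smo Y n then (dk k n * (n : ℝ) ^ (-η)) ^ 2 / (n : ℝ) else 0) ≤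
      C * Real.exp ((k : ℝ) ^ 2 * ∑ p ∈ pr Y, (p : ℝ) ^ (-(1 + 2 * η))) := by
    intro k
    obtain ⟨C, hC1, hC⟩ := h1 k
    refine ⟨C, hC1, fun Y η hη => ?_⟩
    have h := hC Y (fun _ => 0) η hη (fun _ => ⟨le_refl _, by norm_num⟩)
    rw [AuxSmN.fun_eq Y k η] at h
    refine ⟨h.1, h.2.trans (le_of_eq ?_)⟩
    have h0 : ∑ p ∈ pr Y, (0 : ℝ) / (p : ℝ) = 0 := Finset.sum_eq_zero fun p _ => zero_div _
    rw [h0, mul_zero, add_zero]
  refine ⟨hfirst, fun k => ?_⟩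
  obtain ⟨C, hC1, hC⟩ := hfirst k
  obtain ⟨D, hD1, hD⟩ := h2
  refine ⟨C * D ^ k ^ 2, ?_, fun Y hY => ?_⟩
  · have : 1 ≤ D ^ k ^ 2 := one_le_pow₀ hD1
    nlinarith
  have h := hC Y 0 (le_refl _)
  have hf : (fun n : ℕ => (open Classical in if Smo Y n then (dk k n * (n : ℝ) ^ (-(0 : ℝ))) ^ 2 / (n : ℝ) else 0)) =
      (fun n : ℕ => (open Classical in if Smo Y n then dk k n ^ 2 / (n : ℝ) else 0)) := by
    funext n
    rw [neg_zero, Real.rpow_zero, mul_one]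
  rw [hf] at h
  refine ⟨h.1, h.2.trans ?_⟩
  have hS : ∑ p ∈ pr Y, (p : ℝ) ^ (-(1 + 2 * (0 : ℝ))) = WM.S1 Y := by
    unfold WM.S1
    refine Finset.sum_congr rfl fun p _ => ?_
    rw [mul_zero, add_zero, Real.rpow_neg_one, one_div]
  have hlog : 0 ≤ Real.log Y := Real.log_nonneg (by exact_mod_cast (by omega : 1 ≤ Y))
  have hexp : Real.exp ((k : ℝ) ^ 2 * WM.S1 Y) = Real.exp (WM.S1 Y) ^ k ^ 2 := by
    rw [← Real.exp_nat_mul]
    push_cast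
    rfl
  rw [hS, hexp]
  have h3 : Real.exp (WM.S1 Y) ^ k ^ 2 ≤ (D * Real.log Y) ^ k ^ 2 :=
    pow_le_pow_left₀ (Real.exp_pos _).le (hD Y hY).1 _
  calc C * Real.exp (WM.S1 Y) ^ k ^ 2 ≤ C * (D * Real.log Y) ^ k ^ 2 :=
        mul_le_mul_of_nonneg_left h3 (by linarith)
    _ = C * D ^ k ^ 2 * Real.log Y ^ k ^ 2 := by rw [mul_pow]; ring

end Pool.Agent.Work.MP_56b8f5_nt.HN
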