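import Pool.Agent.Work.MP_56b8f5_nt.HN.StmtsA
import Pool.Agent.Work.MP_56b8f5_nt.HZ.I_Lh

/-!
MP_56b8f5_nt, block HN, item Tw1: zeta times a polynomial on the line `1/2`.
-/

set_option autoImplicit false

open MeasureTheory Set Filter Topology

noncomputable section

namespace Pool.Agent.Work.MP_56b8f5_nt.HN

open Pool.Agent.Work.MP_56b8f5_nt.EM Pool.Agent.Work.MP_56b8f5_nt.WM Pool.Agent.Work.MP_56b8f5_nt.SH
open Pool.Agent.Work.MP_56b8f5_nt.HZ Pool.Agent.Work.MP_56b8f5_nt.HZ.I_Lh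

/-- **Tw1.** -/
theorem Tw1_pf (hF : S_Fob) (hS : S_dkS) (h2 : HZ.S_Q2) (h4 : HZ.S_Wt) : S_Tw1 := by
  intro k
  obtain ⟨w, hw, hw1⟩ := h4
  obtain ⟨C₂, T₂, hC₂, hT₂, hQ2⟩ := h2 w hw
  obtain ⟨C₃, T₃, hC₃, hT₃, hFo⟩ := hF k
  refine ⟨6 * C₂ * (6 * C₃ + 4 ^ k), max (max T₂ T₃) 6, ?_, ?_, ?_⟩
  · have h4k : (0 : ℝ) ≤ 4 ^ k := by positivity
    nlinarith [mul_nonneg (sub_nonneg.2 hC₂) h4k, mul_nonneg (sub_nonneg.2 hC₂) (sub_nonneg.2 hC₃)]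
  · exact le_max_of_le_right (by norm_num)
  intro T hT N' b hb
  have hTT₂ : T₂ ≤ T := ((le_max_left _ _).trans (le_max_left _ _)).trans hT
  have hTT₃ : T₃ ≤ T := ((le_max_right _ _).trans (le_max_left _ _)).trans hT
  have hT6 : (6 : ℝ) ≤ T := (le_max_right _ _).trans hT
  have hT0 : 0 < T := by linarith
  set L := Real.log T with hL
  have hL1 : 1 ≤ L := by
    rw [hL, Real.le_log_iff_exp_le hT0]
    exact (Real.exp_one_lt_d9.le).trans (by linarith)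
  have hL0 : 0 < L := by linarith
  have hlog6 : Real.log (6 * T) + L ≤ 3 * L := by
    rw [Real.log_mul (by norm_num) hT0.ne']
    have : Real.log 6 ≤ Real.log T := Real.log_le_log (by norm_num) hT6
    rw [← hL] at this
    linarith
  have hN1 : (1 : ℝ) ≤ N' := by exact_mod_cast hb.one
  have hN0 : (0 : ℝ) ≤ N' := by linarith
  have hN16 : (N' : ℝ) ^ 16 ≤ 6 * T :=
    (pow_le_pow_right₀ hN1 (by norm_num : 16 ≤ 100)).trans (hb.len.trans (by linarith))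
  have hN8 : (N' : ℝ) ^ 8 ≤ 6 * T :=
    (pow_le_pow_right₀ hN1 (by norm_num : 8 ≤ 16)).trans hN16
  have hNT : (N' : ℝ) ≤ T := (le_self_pow₀ hN1 (by norm_num)).trans hb.len
  have hbk : ∀ n, b n ≤ dk k n := by
    intro n
    have := hb.le n
    rwa [neg_zero, Real.rpow_zero, mul_one] at this
  set D : ℕ → ℂ := fun n => (b n : ℂ) with hD
  set D₁ : ℕ → ℂ := fun n => ((1 - Real.log n / L : ℝ) : ℂ) * D n with hD₁
  have hDn : ∀ n, ‖D n‖ = b n := fun n => by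
    rw [hD]
    simp only
    rw [Complex.norm_real, Real.norm_of_nonneg (hb.nonneg n)]
  have hDne : ∀ n, D n ≠ 0 → b n ≠ 0 := fun n hn hc => hn (by rw [hD]; simp [hc])
  have hDs : ∀ n, D n ≠ 0 → 1 ≤ n ∧ n ≤ N' := fun n hn => hb.supp n (hDne n hn)
  have hDk : ∀ n, ‖D n‖ ≤ dk k n := fun n => by rw [hDn]; exact hbk n
  have hD₁s : ∀ n, D₁ n ≠ 0 → 1 ≤ n ∧ n ≤ N' := fun n hn => hDs n fun hc => hn (by
    rw [hD₁]; simp [hc])
  have hD₁k : ∀ n, ‖D₁ n‖ ≤ dk k n := by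
    intro n
    by_cases hn : D n = 0
    · have : D₁ n = 0 := by rw [hD₁]; simp [hn]
      rw [this, norm_zero]
      exact (norm_nonneg _).trans (hDk n)
    · obtain ⟨n1, n2⟩ := hDs n hn
      have hn1 : (1 : ℝ) ≤ n := by exact_mod_cast n1
      have hn2 : (n : ℝ) ≤ N' := by exact_mod_cast n2
      have l1 : 0 ≤ Real.log n := Real.log_nonneg hn1
      have l2 : Real.log n ≤ L := Real.log_le_log (by linarith) (hn2.trans hNT)
      have l3 : 0 ≤ Real.log n / L := div_nonneg l1 hL0.le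
      have l4 : Real.log n / L ≤ 1 := (div_le_one hL0).2 l2
      have l5 : ‖D₁ n‖ ≤ 1 * ‖D n‖ := by
        rw [hD₁]
        simp only
        rw [norm_mul, Complex.norm_real, Real.norm_eq_abs]
        refine mul_le_mul_of_nonneg_right ?_ (norm_nonneg _)
        rw [abs_le]
        constructor <;> linarith
      rw [one_mul] at l5
      exact l5.trans (hDk n)
  have f1 := hFo T hTT₃ N' D hb.one hb.len hDk hDs
  have f2 := hFo T hTT₃ N' D₁ hb.one hb.len hD₁k hD₁s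
  rw [← hL] at f1 f2
  set X := L ^ (k + 1) ^ 2 with hX
  have hX1 : 1 ≤ X := one_le_pow₀ hL1
  have q1 := hQ2 (6 * T) (by linarith) N' hb.one hN8 D L hL0
  have hG : Continuous fun v : ℝ => az v ^ 2 * ‖Ds N' D (1 / 2 + (v : ℂ) * Complex.I)‖ ^ 2 :=
    (az_cont.pow 2).mul ((Ds_cont N' D).norm.pow 2)
  have sc := scale w hw hw1 T hT0 _ hG (fun v => by positivity)
  have e1 : (fun v : ℝ => ‖riemannZeta (1 / 2 + v * Complex.I)‖ ^ 2 * ‖De N' b v‖ ^ 2) =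
      fun v : ℝ => az v ^ 2 * ‖Ds N' D (1 / 2 + (v : ℂ) * Complex.I)‖ ^ 2 := by
    funext v
    rfl
  rw [e1]
  refine sc.trans ?_
  have s1 : ∑ n ∈ Finset.Icc 1 N', ‖D n‖ ≤ 2 ^ k * (N' : ℝ) ^ 2 :=
    (Finset.sum_le_sum fun n _ => hDk n).trans (hS k N' hb.one).1
  have s0 : 0 ≤ ∑ n ∈ Finset.Icc 1 N', ‖D n‖ := Finset.sum_nonneg fun n _ => norm_nonneg _
  have s2 : (∑ n ∈ Finset.Icc 1 N', ‖D n‖) ^ 2 ≤ 4 ^ k * (6 * T) ^ (1 / 4 : ℝ) := by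
    have h1 : (N' : ℝ) ^ 4 ≤ (6 * T) ^ (1 / 4 : ℝ) := by
      have h2 : (N' : ℝ) ^ 4 = ((N' : ℝ) ^ 16) ^ (1 / 4 : ℝ) := by
        rw [← Real.rpow_natCast (N' : ℝ) 16, ← Real.rpow_mul hN0, ← Real.rpow_natCast]
        congr 1
        norm_num
      rw [h2]
      exact Real.rpow_le_rpow (by positivity) hN16 (by norm_num)
    calc (∑ n ∈ Finset.Icc 1 N', ‖D n‖) ^ 2 ≤ (2 ^ k * (N' : ℝ) ^ 2) ^ 2 :=
          pow_le_pow_left₀ s0 s1 2
      _ = 4 ^ k * (N' : ℝ) ^ 4 := by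
          rw [mul_pow, ← pow_mul, ← pow_mul, mul_comm k 2, pow_mul]
          norm_num
      _ ≤ _ := mul_le_mul_of_nonneg_left h1 (by positivity)
  have s3 : C₂ / (6 * T) ^ (1 / 4 : ℝ) * (∑ n ∈ Finset.Icc 1 N', ‖D n‖) ^ 2 ≤ C₂ * 4 ^ k := by
    have h1 : 0 < (6 * T) ^ (1 / 4 : ℝ) := Real.rpow_pos_of_pos (by linarith) _
    calc C₂ / (6 * T) ^ (1 / 4 : ℝ) * (∑ n ∈ Finset.Icc 1 N', ‖D n‖) ^ 2
        ≤ C₂ / (6 * T) ^ (1 / 4 : ℝ) * (4 ^ k * (6 * T) ^ (1 / 4 : ℝ)) :=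
          mul_le_mul_of_nonneg_left s2 (by positivity)
      _ = C₂ * 4 ^ k := by
          field_simp
  have s4 : (Real.log (6 * T) + L) * (Fo N' D + Fo N' D₁) ≤ 6 * C₃ * X := by
    rcases le_total 0 (Fo N' D + Fo N' D₁) with h | h
    · calc (Real.log (6 * T) + L) * (Fo N' D + Fo N' D₁) ≤ 3 * L * (Fo N' D + Fo N' D₁) :=
            mul_le_mul_of_nonneg_right hlog6 h
        _ = 3 * (L * Fo N' D + L * Fo N' D₁) := by ring
        _ ≤ 3 * (C₃ * X + C₃ * X) := by linarith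
        _ = 6 * C₃ * X := by ring
    · have h1 : 0 ≤ Real.log (6 * T) + L := add_nonneg (Real.log_nonneg (by linarith)) hL0.le
      have h2 : (Real.log (6 * T) + L) * (Fo N' D + Fo N' D₁) ≤ 0 :=
        mul_nonpos_of_nonneg_of_nonpos h1 h
      have h3 : 0 ≤ 6 * C₃ * X := by positivity
      linarith
  have s5 : ∫ u : ℝ, w u * (az (6 * T * u) ^ 2 *
      ‖Ds N' D (1 / 2 + ((6 * T * u : ℝ) : ℂ) * Complex.I)‖ ^ 2) ≤
      C₂ * (6 * C₃ + 4 ^ k) * X := by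
    refine q1.trans ?_
    have h1 : C₂ * ((Real.log (6 * T) + L) * (Fo N' D + Fo N' D₁)) ≤ C₂ * (6 * C₃ * X) :=
      mul_le_mul_of_nonneg_left s4 (by linarith)
    have h2 : C₂ * 4 ^ k ≤ C₂ * 4 ^ k * X := le_mul_of_one_le_right (by positivity) hX1
    calc _ ≤ C₂ * (6 * C₃ * X) + C₂ * 4 ^ k * X := add_le_add h1 (s3.trans h2)
      _ = C₂ * (6 * C₃ + 4 ^ k) * X := by ring
  calc 6 * T * ∫ u : ℝ, w u * (az (6 * T * u) ^ 2 *
      ‖Ds N' D (1 / 2 + ((6 * T * u : ℝ) : ℂ) * Complex.I)‖ ^ 2)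
      ≤ 6 * T * (C₂ * (6 * C₃ + 4 ^ k) * X) := mul_le_mul_of_nonneg_left s5 (by linarith)
    _ = 6 * C₂ * (6 * C₃ + 4 ^ k) * (T * X) := by ring

end Pool.Agent.Work.MP_56b8f5_nt.HN
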