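import Pool.Agent.Work.MP_56b8f5_nt.HN.StmtsA
import Pool.Agent.Work.MP_56b8f5_nt.HZ.I_Lt

/-!
MP_56b8f5_nt, block HN, item Tw3: the mean square on the line `2`.
-/

set_option autoImplicit false

open MeasureTheory Set Filter Topology

noncomputable section

namespace Pool.Agent.Work.MP_56b8f5_nt.HN

open Pool.Agent.Work.MP_56b8f5_nt.EM Pool.Agent.Work.MP_56b8f5_nt.WM Pool.Agent.Work.MP_56b8f5_nt.SH
open Pool.Agent.Work.MP_56b8f5_nt.HZ

namespace AuxTw3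

theorem diff_le {N : ℕ} (hN : 1 ≤ N) (v : ℝ) :
    ‖riemannZeta (2 + v * Complex.I) - Ds N (fun _ => 1) (2 + v * Complex.I)‖ ≤ (N : ℝ)⁻¹ := by
  classical
  set s : ℂ := 2 + v * Complex.I with hs
  have hsre : 1 < s.re := by simp [hs]
  have hs0 : s ≠ 0 := by
    intro h
    rw [h, Complex.zero_re] at hsre
    linarith
  obtain ⟨a, ha, ha'⟩ := I_Lt.tail hN
  have h1 : HasSum (fun n : ℕ => if n ∈ Finset.Icc 1 N then (1 : ℂ) * (n : ℂ) ^ (-s) else 0)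
      (Ds N (fun _ => 1) s) := by
    have h2 := hasSum_sum_of_ne_finset_zero (f := fun n : ℕ => if n ∈ Finset.Icc 1 N then
      (1 : ℂ) * (n : ℂ) ^ (-s) else 0) (s := Finset.Icc 1 N)
      (fun n hn => if_neg hn) (L := SummationFilter.unconditional ℕ)
    have h3 : ∑ n ∈ Finset.Icc 1 N, (if n ∈ Finset.Icc 1 N then
      (1 : ℂ) * (n : ℂ) ^ (-s) else 0) = Ds N (fun _ => 1) s := by
      rw [Ds]
      exact Finset.sum_congr rfl fun n hn => if_pos hn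
    rwa [h3] at h2
  have h2 : HasSum (fun n : ℕ => 1 / (n : ℂ) ^ s) (riemannZeta s) := by
    rw [zeta_eq_tsum_one_div_nat_cpow hsre]
    exact (Complex.summable_one_div_nat_cpow.2 hsre).hasSum
  refine ((h2.sub h1).norm_le_of_bounded ha fun n => ?_).trans ha'
  rcases Nat.eq_zero_or_pos n with rfl | hn
  · have h3 : (0 : ℕ) ∉ Finset.Icc 1 N := by simp
    rw [if_neg h3, Nat.cast_zero, Complex.zero_cpow hs0, div_zero, sub_zero, norm_zero]
    split_ifs <;> positivity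
  have hterm : 1 / (n : ℂ) ^ s = (n : ℂ) ^ (-s) := by
    rw [Complex.cpow_neg, one_div]
  rw [hterm]
  by_cases hNn : N < n
  · have h3 : n ∉ Finset.Icc 1 N := by
      intro h
      have := (Finset.mem_Icc.1 h).2
      omega
    rw [if_pos hNn, if_neg h3, sub_zero, hs, I_Lt.norm_neg_pow hn]
  · have h3 : n ∈ Finset.Icc 1 N := Finset.mem_Icc.2 ⟨hn, by omega⟩
    rw [if_neg hNn, if_pos h3, one_mul, sub_self, norm_zero]

theorem poly_le (h1 : S_dkS) {k N' : ℕ} {T : ℝ} {b : ℕ → ℝ} (hb : IsDk k 0 T N' b) (v : ℝ) :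
    ‖Ds N' (fun n => (b n : ℂ)) (2 + v * Complex.I)‖ ≤ 2 ^ k := by
  refine le_trans ?_ (h1 k N' hb.one).2
  rw [Ds]
  refine (norm_sum_le _ _).trans (Finset.sum_le_sum fun n hn => ?_)
  have hn1 : 0 < n := (Finset.mem_Icc.1 hn).1
  rw [norm_mul, I_Lt.norm_neg_pow hn1, Complex.norm_real, Real.norm_eq_abs,
    abs_of_nonneg (hb.nonneg n), div_eq_mul_inv]
  refine mul_le_mul_of_nonneg_right ?_ (by positivity)
  have h2 := hb.le n
  rwa [neg_zero, Real.rpow_zero, mul_one] at h2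

end AuxTw3

theorem Tw3_pf (h1 : S_dkS) : S_Tw3 := by
  intro k
  refine ⟨5 * (2 ^ k) ^ 2, ?_, ?_⟩
  · have h2 : (1 : ℝ) ≤ 2 ^ k := one_le_pow₀ (by norm_num)
    nlinarith
  intro T hT N' b hb N hN
  have hN0 : (0 : ℝ) < N := by exact_mod_cast hN
  have hpt : ∀ v : ℝ, ‖(riemannZeta (2 + v * Complex.I) -
      Ds N (fun _ => 1) (2 + v * Complex.I)) *
        Ds N' (fun n => (b n : ℂ)) (2 + v * Complex.I)‖ ^ 2 ≤ ((N : ℝ)⁻¹ * 2 ^ k) ^ 2 := by
    intro v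
    refine pow_le_pow_left₀ (norm_nonneg _) ?_ 2
    rw [norm_mul]
    exact mul_le_mul (AuxTw3.diff_le hN v) (AuxTw3.poly_le h1 hb v) (norm_nonneg _)
      (by positivity)
  have hint := intervalIntegral.norm_integral_le_of_norm_le_const (a := T / 4) (b := 5 * T)
    (f := fun v : ℝ => ‖(riemannZeta (2 + v * Complex.I) -
      Ds N (fun _ => 1) (2 + v * Complex.I)) *
        Ds N' (fun n => (b n : ℂ)) (2 + v * Complex.I)‖ ^ 2)
    (C := ((N : ℝ)⁻¹ * 2 ^ k) ^ 2)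
    (fun v _ => by
      rw [Real.norm_eq_abs, abs_of_nonneg (sq_nonneg _)]
      exact hpt v)
  refine (le_abs_self _).trans (hint.trans ?_)
  rw [abs_of_nonneg (by linarith)]
  have h3 : ((N : ℝ)⁻¹ * 2 ^ k) ^ 2 = (2 ^ k) ^ 2 * ((N : ℝ) ^ 2)⁻¹ := by
    rw [mul_pow, inv_pow, mul_comm]
  rw [h3]
  have h4 : 0 ≤ ((2 : ℝ) ^ k) ^ 2 * ((N : ℝ) ^ 2)⁻¹ := by positivity
  calc (2 ^ k) ^ 2 * ((N : ℝ) ^ 2)⁻¹ * (5 * T - T / 4)
      ≤ (2 ^ k) ^ 2 * ((N : ℝ) ^ 2)⁻¹ * (5 * T) :=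
        mul_le_mul_of_nonneg_left (by linarith) h4
    _ = 5 * (2 ^ k) ^ 2 * T * ((N : ℝ) ^ 2)⁻¹ := by ring

end Pool.Agent.Work.MP_56b8f5_nt.HN
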