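import Pool.Agent.Work.MP_56b8f5_nt.HN.StmtsA
import Pool.Agent.Work.MP_56b8f5_nt.HZ.I_Gro

/-!
MP_56b8f5_nt, block HN, part A: item Tw4 (growth).
-/

set_option autoImplicit false

open MeasureTheory Set Filter Topology

noncomputable section

namespace Pool.Agent.Work.MP_56b8f5_nt.HN

open Pool.Agent.Work.MP_56b8f5_nt.EM Pool.Agent.Work.MP_56b8f5_nt.WM Pool.Agent.Work.MP_56b8f5_nt.SH
open Pool.Agent.Work.MP_56b8f5_nt.HZ

namespace AuxTw4

lemma nle {N : ℕ} {T : ℝ} (hN : 1 ≤ N) (hT : (N : ℝ) ^ 100 ≤ T) : (N : ℝ) ≤ T := by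
  have hN1 : (1 : ℝ) ≤ N := by exact_mod_cast hN
  calc (N : ℝ) = (N : ℝ) ^ 1 := (pow_one _).symm
    _ ≤ (N : ℝ) ^ 100 := pow_le_pow_right₀ hN1 (by norm_num)
    _ ≤ T := hT

lemma one_norm (N : ℕ) {s : ℂ} (hs : 1 / 2 ≤ s.re) : ‖Ds N (fun _ => 1) s‖ ≤ N := by
  refine (I_Gro.Ds_norm _ _ _).trans ?_
  calc ∑ n ∈ Finset.Icc 1 N, ‖(1 : ℂ)‖ * (n : ℝ) ^ (-s.re)
      ≤ ∑ n ∈ Finset.Icc 1 N, (1 : ℝ) := by
        refine Finset.sum_le_sum fun n hn => ?_
        have hn1 : (1 : ℝ) ≤ n := by exact_mod_cast (Finset.mem_Icc.1 hn).1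
        have h1 : (n : ℝ) ^ (-s.re) ≤ 1 := Real.rpow_le_one_of_one_le_of_nonpos hn1 (by linarith)
        rw [norm_one, one_mul]
        exact h1
    _ = N := by
        rw [Finset.sum_const, Nat.card_Icc, nsmul_eq_mul]
        simp

lemma b_norm (h1 : S_dkS) {k N' : ℕ} {T : ℝ} {b : ℕ → ℝ} (hb : IsDk k 0 T N' b) {s : ℂ}
    (hs : 1 / 2 ≤ s.re) : ‖Ds N' (fun n => (b n : ℂ)) s‖ ≤ 2 ^ k * T ^ 2 := by
  refine (I_Gro.Ds_norm _ _ _).trans ?_
  have hN := nle hb.one hb.len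
  calc ∑ n ∈ Finset.Icc 1 N', ‖(b n : ℂ)‖ * (n : ℝ) ^ (-s.re)
      ≤ ∑ n ∈ Finset.Icc 1 N', dk k n := by
        refine Finset.sum_le_sum fun n hn => ?_
        have hn1 : (1 : ℝ) ≤ n := by exact_mod_cast (Finset.mem_Icc.1 hn).1
        have h1 : (n : ℝ) ^ (-s.re) ≤ 1 := Real.rpow_le_one_of_one_le_of_nonpos hn1 (by linarith)
        rw [Complex.norm_real, Real.norm_eq_abs, abs_of_nonneg (hb.nonneg n)]
        have h2 : b n ≤ dk k n := by
          have := hb.le n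
          rwa [neg_zero, Real.rpow_zero, mul_one] at this
        calc b n * (n : ℝ) ^ (-s.re) ≤ b n * 1 := mul_le_mul_of_nonneg_left h1 (hb.nonneg n)
          _ = b n := mul_one _
          _ ≤ dk k n := h2
    _ ≤ 2 ^ k * (N' : ℝ) ^ 2 := (h1 k N' hb.one).1
    _ ≤ 2 ^ k * T ^ 2 := by
        refine mul_le_mul_of_nonneg_left ?_ (by positivity)
        exact pow_le_pow_left₀ (Nat.cast_nonneg _) hN 2

end AuxTw4

open AuxTw4 in
theorem Tw4_pf (h1 : S_dkS) : S_Tw4 := by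
  intro k
  have hk1 : (1 : ℝ) ≤ 2 ^ k := one_le_pow₀ (by norm_num)
  refine ⟨7 * 2 ^ k, by linarith, fun T hT N' b hb N hN hNT => ?_⟩
  have hT1 : 1 ≤ T := by linarith
  refine ⟨fun s => (riemannZeta₁ s - (s - 1) * Ds N (fun _ => 1) s) *
    Ds N' (fun n => (b n : ℂ)) s, ?_, fun s hs1 hs2 => ?_, fun s hs => ?_⟩
  · refine Differentiable.mul (Differentiable.sub differentiable_riemannZeta₁
      (Differentiable.mul (differentiable_id.sub_const 1) (I_Gro.Ds_diff _ _))) (I_Gro.Ds_diff _ _)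
  · obtain ⟨ha, hc⟩ := I_Gro.z1_norm hs1 hs2
    have hO := (one_norm N hs1).trans (nle hN hNT)
    have hQ := b_norm h1 hb hs1
    have hv : 0 ≤ |s.im| := abs_nonneg _
    set v := 1 + |s.im| with hvd
    have hv1 : 1 ≤ v := by linarith
    have hvv : v ≤ v ^ 2 := by nlinarith
    have e1 : ‖riemannZeta₁ s - (s - 1) * Ds N (fun _ => 1) s‖ ≤ 7 * T * v ^ 2 := by
      calc ‖riemannZeta₁ s - (s - 1) * Ds N (fun _ => 1) s‖
          ≤ ‖riemannZeta₁ s‖ + ‖(s - 1) * Ds N (fun _ => 1) s‖ := norm_sub_le _ _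
        _ ≤ 6 * v ^ 2 + v * T := by
            rw [norm_mul]
            exact add_le_add ha (mul_le_mul hc hO (norm_nonneg _) (by linarith))
        _ ≤ 6 * (T * v ^ 2) + T * v ^ 2 := by
            have : v ^ 2 ≤ T * v ^ 2 := by nlinarith [sq_nonneg v]
            have h2 : v * T ≤ v ^ 2 * T := mul_le_mul_of_nonneg_right hvv (by linarith)
            nlinarith
        _ = 7 * T * v ^ 2 := by ring
    rw [norm_mul]
    calc ‖riemannZeta₁ s - (s - 1) * Ds N (fun _ => 1) s‖ * ‖Ds N' (fun n => (b n : ℂ)) s‖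
        ≤ (7 * T * v ^ 2) * (2 ^ k * T ^ 2) := mul_le_mul e1 hQ (norm_nonneg _) (by positivity)
      _ = ((7 * 2 ^ k) * T ^ 3) * v ^ 2 := by ring
      _ ≤ (T * T ^ 3) * v ^ 2 := by
          refine mul_le_mul_of_nonneg_right (mul_le_mul_of_nonneg_right hT (by positivity))
            (by positivity)
      _ = T ^ 4 * v ^ 2 := by ring
      _ ≤ T ^ 10 * v ^ 10 := by
          refine mul_le_mul (pow_le_pow_right₀ hT1 (by norm_num))
            (pow_le_pow_right₀ hv1 (by norm_num)) (by positivity) (by positivity)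
  · have hs0 : s - 1 ≠ 0 := sub_ne_zero.2 hs
    show (riemannZeta s - Ds N (fun _ => 1) s) * Ds N' (fun n => (b n : ℂ)) s =
      (riemannZeta₁ s - (s - 1) * Ds N (fun _ => 1) s) * Ds N' (fun n => (b n : ℂ)) s / (s - 1)
    rw [riemannZeta_eq_inv_sub_mul hs]
    field_simp

end Pool.Agent.Work.MP_56b8f5_nt.HN
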