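import Pool.Agent.Work.MP_56b8f5_nt.HN.StmtsT
import Pool.Agent.Work.MP_56b8f5_nt.HZ.I_Yb

/-!
MP_56b8f5_nt, block HN, item YbN: the mean square between the lines (helper67; adapted from
`HZ/I_Yb.lean`).
-/

set_option autoImplicit false

open MeasureTheory Set Filter Topology

noncomputable section

namespace Pool.Agent.Work.MP_56b8f5_nt.HN

open Pool.Agent.Work.MP_56b8f5_nt.EM Pool.Agent.Work.MP_56b8f5_nt.WM Pool.Agent.Work.MP_56b8f5_nt.SH
open Pool.Agent.Work.MP_56b8f5_nt.HZ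
open Pool.Agent.Work.MP_56b8f5_nt.HZG

open HZ.I_Yb

theorem YbN_pf (hG1 : HZG.S_G1) (hDsM : HZ.S_DsM) (hLh : S_LhN) (hLt : S_LtN)
    (hGro : S_GrN) (hSS : S_SSb) : S_YbN := by
  intro k
  obtain ⟨CS, hCS, hSSk⟩ := hSS k
  obtain ⟨P, hP, hP1⟩ := exP
  obtain ⟨C₁, T₁, hC₁, hT₁, hG⟩ := hG1
  obtain ⟨Ch, Th, hCh, hTh, hH⟩ := hLh k P hP
  obtain ⟨Ct, Tt, hCt, hTt, hL⟩ := hLt k P hP hP1
  obtain ⟨Tg, hTg, hGr⟩ := hGro k P hP
  refine ⟨P, hP, hP1, 10 * C₁ * Ch * Ct, max (max T₁ Th) (max Tt Tg), ?_,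
    hT₁.trans ((le_max_left _ _).trans (le_max_left _ _)), ?_⟩
  · have h1 : 1 ≤ C₁ * Ch := by nlinarith
    have h2 : 1 ≤ C₁ * Ch * Ct := by nlinarith
    nlinarith
  intro T hT η hη hη' N q hIq b τ hb hb'
  have hT1 : T₁ ≤ T := ((le_max_left _ _).trans (le_max_left _ _)).trans hT
  have hT2 : Th ≤ T := ((le_max_right _ _).trans (le_max_left _ _)).trans hT
  have hT3 : Tt ≤ T := ((le_max_left _ _).trans (le_max_right _ _)).trans hT
  have hT4 : Tg ≤ T := ((le_max_right _ _).trans (le_max_right _ _)).trans hT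
  have hT5 : 3 ≤ T := hT₁.trans hT1
  obtain ⟨H, hHd, hHb, hHF⟩ := hGr T hT4 η hη hη' N q hIq b τ hb hb'
  set F : ℂ → ℂ := fun s => (riemannZeta s * MM P (T ^ (1 / 10 : ℝ)) s - 1) * Ds N (qt q b τ) s
    with hF
  set X : ℝ := SS k η with hX
  have hX1 : 1 ≤ X := (hSSk η hη hη').2.1
  have hσ : (1 / 2 + b - 1 / 2) / (3 / 2) = b / (3 / 2) := by ring
  have key := hG T hT1 F H hHd.diffContOnCl hHb (by
    intro s _ _ h1 _
    refine hHF s ?_
    rintro rfl
    rw [Complex.one_im] at h1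
    linarith) (1 / 2 + b) (by linarith) (by linarith)
  rw [hσ] at key
  -- the left side
  have hleft : ∫ v in (T / 3)..(4 * T), ‖riemannZeta ((1 / 2 + b : ℝ) + v * Complex.I) *
      MM P (T ^ (1 / 10 : ℝ)) ((1 / 2 + b : ℝ) + v * Complex.I) - 1‖ ^ 2 * ‖De N q (v + τ)‖ ^ 2 =
      MS F (1 / 2 + b) (T / 3) (4 * T) := by
    unfold MS
    refine intervalIntegral.integral_congr fun v _ => ?_
    show _ = ‖(riemannZeta (((1 / 2 + b : ℝ) : ℂ) + v * Complex.I) *
      MM P (T ^ (1 / 10 : ℝ)) (((1 / 2 + b : ℝ) : ℂ) + v * Complex.I) - 1) *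
      Ds N (qt q b τ) (((1 / 2 + b : ℝ) : ℂ) + v * Complex.I)‖ ^ 2
    have h1 : ‖Ds N (qt q b τ) (((1 / 2 + b : ℝ) : ℂ) + v * Complex.I)‖ = ‖De N q (v + τ)‖ := by
      unfold De
      rw [hDsM.2 N q b τ v]
    rw [norm_mul, mul_pow, h1]
  rw [hleft]
  refine key.trans ?_
  have hMS0 : ∀ x : ℝ, 0 ≤ MS F x (T / 4) (5 * T) := by
    intro x
    unfold MS
    exact intervalIntegral.integral_nonneg (by linarith) fun v _ => by positivity
  have hTi : (T ^ 50)⁻¹ ≤ 1 := inv_le_one_of_one_le₀ (one_le_pow₀ (by linarith))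
  have hTi0 : 0 ≤ (T ^ 50)⁻¹ := by positivity
  have hA1 : 1 ≤ T ^ (1 + b / 50 : ℝ) := Real.one_le_rpow (by linarith) (by positivity)
  have hA2 : 1 ≤ T ^ (94 / 100 : ℝ) := Real.one_le_rpow (by linarith) (by norm_num)
  refine calc_final hC₁ hCh hCt (by linarith) hX1 hb hb' (by linarith [hMS0 (1 / 2)])
    (by linarith [hMS0 2]) ?_ ?_
  · -- the line one half
    obtain ⟨hI1, hI2⟩ := hH T hT2 η hη hη' N q hIq b τ hb hb'
    set f : ℝ → ℂ := fun v => F (1 / 2 + v * Complex.I) with hf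
    set g : ℝ → ℂ := fun v => Ds N (qt q b τ) (1 / 2 + v * Complex.I) with hg
    have hcg : Continuous g := (cont_Ds _ _).comp (by fun_prop)
    have hne : ∀ v ∈ uIcc (T / 4) (5 * T), (1 / 2 + (v : ℂ) * Complex.I) ≠ 1 := by
      intro v hv h
      rw [uIcc_of_le (by linarith)] at hv
      have := congrArg Complex.im h
      simp at this
      linarith [hv.1]
    have hcf : ContinuousOn f (uIcc (T / 4) (5 * T)) := by
      have h1 : ContinuousOn (fun v : ℝ => H (1 / 2 + v * Complex.I) /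
          ((1 / 2 + v * Complex.I) - 1)) (uIcc (T / 4) (5 * T)) := by
        refine ContinuousOn.div ?_ (by fun_prop) fun v hv => sub_ne_zero.mpr (hne v hv)
        exact (hHd.continuous.comp (by fun_prop)).continuousOn
      refine h1.congr fun v hv => ?_
      exact hHF _ (hne v hv)
    have hfg : ∀ v : ℝ, riemannZeta (1 / 2 + v * Complex.I) *
        MM P (T ^ (1 / 10 : ℝ)) (1 / 2 + v * Complex.I) *
        Ds N (qt q b τ) (1 / 2 + v * Complex.I) = f v + g v := by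
      intro v
      simp only [hf, hg, hF]
      ring
    have e1 : MS F (1 / 2) (T / 4) (5 * T) = ∫ v in (T / 4)..(5 * T), ‖f v‖ ^ 2 := by
      unfold MS
      refine intervalIntegral.integral_congr fun v _ => ?_
      simp only [hf]
      push_cast
      rfl
    have e2 : ∫ v in (T / 4)..(5 * T), ‖f v‖ ^ 2 ≤
        ∫ v in (T / 4)..(5 * T), (2 * ‖f v + g v‖ ^ 2 + 2 * ‖g v‖ ^ 2) := by
      refine intervalIntegral.integral_mono_on (by linarith) ?_ ?_ fun v _ => ?_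
      · exact (hcf.norm.pow 2).intervalIntegrable
      · exact ((((hcf.add hcg.continuousOn).norm.pow 2).const_smul (2 : ℝ)).add
          ((hcg.norm.pow 2).continuousOn.const_smul (2 : ℝ))).intervalIntegrable
      · have h1 : ‖f v‖ ≤ ‖f v + g v‖ + ‖g v‖ := by
          have := norm_sub_le (f v + g v) (g v)
          rwa [add_sub_cancel_right] at this
        have h2 : 0 ≤ ‖f v‖ := norm_nonneg _
        nlinarith [sq_nonneg (‖f v + g v‖ - ‖g v‖)]
    have i1 : IntervalIntegrable (fun v => ‖f v + g v‖ ^ 2) volume (T / 4) (5 * T) :=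
      ((hcf.add hcg.continuousOn).norm.pow 2).intervalIntegrable
    have i2 : IntervalIntegrable (fun v => ‖g v‖ ^ 2) volume (T / 4) (5 * T) :=
      (hcg.norm.pow 2).intervalIntegrable _ _
    rw [intervalIntegral.integral_add (i1.const_mul 2) (i2.const_mul 2),
      intervalIntegral.integral_const_mul, intervalIntegral.integral_const_mul] at e2
    have e3 : ∫ v in (T / 4)..(5 * T), ‖f v + g v‖ ^ 2 ≤ Ch * T ^ (1 + b / 50 : ℝ) * X := by
      refine le_trans (le_of_eq ?_) hI1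
      refine intervalIntegral.integral_congr fun v _ => ?_
      show ‖f v + g v‖ ^ 2 = ‖riemannZeta (1 / 2 + v * Complex.I) *
        MM P (T ^ (1 / 10 : ℝ)) (1 / 2 + v * Complex.I) *
        Ds N (qt q b τ) (1 / 2 + v * Complex.I)‖ ^ 2
      rw [hfg]
    have e4 : ∫ v in (T / 4)..(5 * T), ‖g v‖ ^ 2 ≤ Ch * T ^ (1 + b / 50 : ℝ) * X := hI2
    rw [e1]
    have e5 : 1 ≤ Ch * T ^ (1 + b / 50 : ℝ) * X := by
      have h1 : 1 ≤ Ch * T ^ (1 + b / 50 : ℝ) := one_le_mul_of_one_le_of_one_le hCh hA1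
      exact one_le_mul_of_one_le_of_one_le h1 hX1
    have e6 : 5 * Ch * T ^ (1 + b / 50 : ℝ) * X = 5 * (Ch * T ^ (1 + b / 50 : ℝ) * X) := by ring
    rw [e6]
    linarith
  · have h1 := hL T hT3 η hη hη' N q hIq b τ hb hb'
    have e1 : MS F 2 (T / 4) (5 * T) ≤ Ct * T ^ (94 / 100 : ℝ) := by
      refine le_trans (le_of_eq ?_) h1
      unfold MS
      refine intervalIntegral.integral_congr fun v _ => ?_
      simp only [hF]
      push_cast
      rfl
    have e2 : 1 ≤ Ct * T ^ (94 / 100 : ℝ) := one_le_mul_of_one_le_of_one_le hCt hA2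
    have e6 : 2 * Ct * T ^ (94 / 100 : ℝ) = 2 * (Ct * T ^ (94 / 100 : ℝ)) := by ring
    rw [e6]
    linarith

end Pool.Agent.Work.MP_56b8f5_nt.HN
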