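import Pool.Agent.Work.MP_56b8f5_nt.HN.StmtsE

/-!
MP_56b8f5_nt, block HN, item dkB: divisor functions.
-/

set_option autoImplicit false

open MeasureTheory Set Filter Topology

noncomputable section

namespace Pool.Agent.Work.MP_56b8f5_nt.HN

open Pool.Agent.Work.MP_56b8f5_nt.EM Pool.Agent.Work.MP_56b8f5_nt.WM Pool.Agent.Work.MP_56b8f5_nt.SH
open Pool.Agent.Work.MP_56b8f5_nt.HZ

namespace AuxdkB

theorem isMult (k : ℕ) :
    ((ArithmeticFunction.zeta : ArithmeticFunction ℕ) ^ k).IsMultiplicative := by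
  induction k with
  | zero => rw [pow_zero]; exact ArithmeticFunction.isMultiplicative_one
  | succ k ih => rw [pow_succ]; exact ih.mul ArithmeticFunction.isMultiplicative_zeta

theorem step (k n : ℕ) : ((ArithmeticFunction.zeta : ArithmeticFunction ℕ) ^ (k + 1)) n =
    ∑ d ∈ n.divisors, ((ArithmeticFunction.zeta : ArithmeticFunction ℕ) ^ k) d := by
  rw [pow_succ, ArithmeticFunction.mul_zeta_apply]

theorem dstep (k n : ℕ) : dk (k + 1) n = ∑ d ∈ n.divisors, dk k d := by
  unfold dk
  rw [step]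
  push_cast
  rfl

theorem nonneg (k n : ℕ) : 0 ≤ dk k n := Nat.cast_nonneg _

theorem zero_arg (k : ℕ) : dk k 0 = 0 := by
  unfold dk
  rw [ArithmeticFunction.map_zero, Nat.cast_zero]

theorem one_arg (k : ℕ) : dk k 1 = 1 := by
  unfold dk
  rw [(isMult k).map_one, Nat.cast_one]

theorem d0 (n : ℕ) : dk 0 n = if n = 1 then 1 else 0 := by
  unfold dk
  rw [pow_zero, ArithmeticFunction.one_apply]
  split_ifs <;> simp

theorem d1 (n : ℕ) (hn : n ≠ 0) : dk 1 n = 1 := by
  unfold dk
  rw [pow_one, ArithmeticFunction.zeta_apply_ne hn, Nat.cast_one]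

theorem ppow (k p ν : ℕ) (hp : p.Prime) : dk (k + 1) (p ^ ν) = ((ν + k).choose k : ℝ) := by
  induction k generalizing ν with
  | zero => rw [zero_add, d1 _ (pow_ne_zero _ hp.ne_zero), Nat.choose_zero_right, Nat.cast_one]
  | succ k ih =>
    rw [dstep, Nat.sum_divisors_prime_pow hp]
    simp only [ih]
    have h := Nat.sum_range_add_choose ν k
    rw [show ν + (k + 1) = ν + k + 1 from rfl, ← h]
    push_cast
    rfl

end AuxdkB

open AuxdkB in
theorem dkB_pf : S_dkB := by
  refine ⟨fun k => ⟨zero_arg k, one_arg k⟩, nonneg, d0, d1, fun k n _ => dstep k n, ?_, ?_,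
    ppow, ?_, ?_⟩
  · intro k n _
    rw [dstep, Nat.sum_div_divisors]
  · intro k m n h
    unfold dk
    rw [(isMult k).map_mul_of_coprime h, Nat.cast_mul]
  · intro k p hp
    cases k with
    | zero => rw [d0, if_neg hp.one_lt.ne', Nat.cast_zero]
    | succ k =>
      have h := ppow k p 1 hp
      rw [pow_one, add_comm 1 k, Nat.choose_succ_self_right] at h
      exact h
  · intro k n
    rcases Nat.eq_zero_or_pos n with h0 | h0
    · rw [h0, zero_arg, zero_arg]
    · rw [dstep]
      exact Finset.single_le_sum (f := fun d => dk k d) (fun d _ => nonneg k d)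
        (Nat.mem_divisors_self n h0.ne')

end Pool.Agent.Work.MP_56b8f5_nt.HN
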