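import Pool.Agent.Work.MP_56b8f5_nt.HN.StmtsE

/-!
MP_56b8f5_nt, block HN, item dkS: sums of divisor functions.
-/

set_option autoImplicit false

open MeasureTheory Set Filter Topology

noncomputable section

namespace Pool.Agent.Work.MP_56b8f5_nt.HN

open Pool.Agent.Work.MP_56b8f5_nt.EM Pool.Agent.Work.MP_56b8f5_nt.WM Pool.Agent.Work.MP_56b8f5_nt.SH
open Pool.Agent.Work.MP_56b8f5_nt.HZ

namespace AuxdkS

theorem sum_inv_sq (N : ℕ) : ∑ n ∈ Finset.Icc 1 N, 1 / (n : ℝ) ^ 2 ≤ 2 := by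
  have h1 := sum_Ioo_inv_sq_le (α := ℝ) 0 (N + 1)
  have h2 : Finset.Ioo 0 (N + 1) = Finset.Icc 1 N := by
    ext n
    simp only [Finset.mem_Ioo, Finset.mem_Icc]
    omega
  rw [h2] at h1
  simp only [one_div]
  refine h1.trans ?_
  norm_num

theorem sum_multiples (N d : ℕ) (hd : 1 ≤ d) :
    ∑ n ∈ (Finset.Icc 1 N).filter (fun n => d ∣ n), 1 / (n : ℝ) ^ 2 ≤ 2 / (d : ℝ) ^ 2 := by
  have hd0 : (0 : ℝ) < (d : ℝ) := by exact_mod_cast hd
  have h1 : ∑ n ∈ (Finset.Icc 1 N).filter (fun n => d ∣ n), 1 / (n : ℝ) ^ 2 =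
      1 / (d : ℝ) ^ 2 * ∑ n ∈ (Finset.Icc 1 N).filter (fun n => d ∣ n),
        1 / ((n / d : ℕ) : ℝ) ^ 2 := by
    rw [Finset.mul_sum]
    refine Finset.sum_congr rfl fun n hn => ?_
    obtain ⟨hn1, m, rfl⟩ := Finset.mem_filter.1 hn
    rw [Nat.mul_div_cancel_left m (by omega)]
    push_cast
    rw [mul_pow, one_div_mul_one_div]
  have h2 : ∑ n ∈ (Finset.Icc 1 N).filter (fun n => d ∣ n), 1 / ((n / d : ℕ) : ℝ) ^ 2 =
      ∑ m ∈ ((Finset.Icc 1 N).filter (fun n => d ∣ n)).image (fun n => n / d),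
        1 / (m : ℝ) ^ 2 := by
    rw [Finset.sum_image]
    intro a ha b hb hab
    obtain ⟨_, m, rfl⟩ := Finset.mem_filter.1 (Finset.mem_coe.1 ha)
    obtain ⟨_, m', rfl⟩ := Finset.mem_filter.1 (Finset.mem_coe.1 hb)
    simp only at hab
    rw [Nat.mul_div_cancel_left m (by omega), Nat.mul_div_cancel_left m' (by omega)] at hab
    rw [hab]
  have h3 : ((Finset.Icc 1 N).filter (fun n => d ∣ n)).image (fun n => n / d) ⊆
      Finset.Icc 1 N := by
    intro m hm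
    obtain ⟨n, hn, rfl⟩ := Finset.mem_image.1 hm
    obtain ⟨hn1, m', rfl⟩ := Finset.mem_filter.1 hn
    rw [Finset.mem_Icc] at hn1 ⊢
    rw [Nat.mul_div_cancel_left m' (by omega)]
    have h4 : 1 ≤ m' := by
      rcases Nat.eq_zero_or_pos m' with h | h
      · subst h
        omega
      · exact h
    exact ⟨h4, (Nat.le_mul_of_pos_left m' (by omega)).trans hn1.2⟩
  rw [h1, h2, div_eq_mul_one_div 2, mul_comm 2]
  refine mul_le_mul_of_nonneg_left ?_ (by positivity)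
  exact (Finset.sum_le_sum_of_subset_of_nonneg h3 fun _ _ _ => by positivity).trans
    (sum_inv_sq N)

theorem second (h1 : S_dkB) : ∀ k N : ℕ, 1 ≤ N →
    ∑ n ∈ Finset.Icc 1 N, dk k n / (n : ℝ) ^ 2 ≤ 2 ^ k := by
  obtain ⟨_, hnn, h0, _, hs, _⟩ := h1
  intro k
  induction k with
  | zero =>
    intro N hN
    have h2 : ∀ n ∈ Finset.Icc 1 N, dk 0 n / (n : ℝ) ^ 2 = if n = 1 then 1 else 0 := by
      intro n _
      rw [h0]
      split_ifs with h
      · subst h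
        norm_num
      · simp
    rw [Finset.sum_congr rfl h2, Finset.sum_ite_eq', if_pos (Finset.mem_Icc.2 ⟨le_rfl, hN⟩)]
    norm_num
  | succ k ih =>
    intro N hN
    have h2 : ∀ n ∈ Finset.Icc 1 N, dk (k + 1) n / (n : ℝ) ^ 2 =
        ∑ d ∈ Finset.Icc 1 N, if d ∣ n then dk k d * (1 / (n : ℝ) ^ 2) else 0 := by
      intro n hn
      rw [Finset.mem_Icc] at hn
      rw [hs k n (by omega), ← Finset.sum_filter, Finset.sum_div]
      have h3 : n.divisors = (Finset.Icc 1 N).filter (fun d => d ∣ n) := by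
        ext d
        rw [Nat.mem_divisors, Finset.mem_filter, Finset.mem_Icc]
        constructor
        · rintro ⟨hd, hn0⟩
          exact ⟨⟨Nat.pos_of_dvd_of_pos hd (by omega), (Nat.le_of_dvd (by omega) hd).trans hn.2⟩,
            hd⟩
        · rintro ⟨_, hd⟩
          exact ⟨hd, by omega⟩
      rw [h3]
      exact Finset.sum_congr rfl fun d _ => by rw [div_eq_mul_one_div]
    rw [Finset.sum_congr rfl h2, Finset.sum_comm]
    have h4 : ∀ d ∈ Finset.Icc 1 N,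
        ∑ n ∈ Finset.Icc 1 N, (if d ∣ n then dk k d * (1 / (n : ℝ) ^ 2) else 0) ≤
          2 * (dk k d / (d : ℝ) ^ 2) := by
      intro d hd
      rw [Finset.mem_Icc] at hd
      rw [← Finset.sum_filter, ← Finset.mul_sum]
      have h5 := mul_le_mul_of_nonneg_left (sum_multiples N d hd.1) (hnn k d)
      refine h5.trans (le_of_eq ?_)
      ring
    refine (Finset.sum_le_sum h4).trans ?_
    rw [← Finset.mul_sum, pow_succ, mul_comm]
    exact mul_le_mul_of_nonneg_right (ih N hN) (by norm_num)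

end AuxdkS

open AuxdkS

theorem dkS_pf (h1 : S_dkB) : S_dkS := by
  intro k N hN
  have h2 := second h1 k N hN
  refine ⟨?_, h2⟩
  have hN0 : (0 : ℝ) ≤ (N : ℝ) ^ 2 := by positivity
  have h3 : ∀ n ∈ Finset.Icc 1 N, dk k n ≤ dk k n / (n : ℝ) ^ 2 * (N : ℝ) ^ 2 := by
    intro n hn
    rw [Finset.mem_Icc] at hn
    have hn0 : (0 : ℝ) < (n : ℝ) := by exact_mod_cast hn.1
    have hnN : (n : ℝ) ≤ N := by exact_mod_cast hn.2
    have h4 : (n : ℝ) ^ 2 ≤ (N : ℝ) ^ 2 := pow_le_pow_left₀ hn0.le hnN 2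
    rw [div_mul_eq_mul_div, le_div_iff₀ (by positivity)]
    exact mul_le_mul_of_nonneg_left h4 (h1.2.1 k n)
  refine (Finset.sum_le_sum h3).trans ?_
  rw [← Finset.sum_mul]
  exact mul_le_mul_of_nonneg_right h2 hN0

end Pool.Agent.Work.MP_56b8f5_nt.HN
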