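import Pool.Agent.Work.MP_56b8f5_nt.HZ.All
import Pool.Agent.Work.MP_56b8f5_nt.HZ.V_All
import Pool.Agent.Work.MP_56b8f5_nt.HN.B_All
import Pool.Agent.Work.MP_56b8f5_nt.HN.I_CpN
import Pool.Agent.Work.MP_56b8f5_nt.HN.I_DeL
import Pool.Agent.Work.MP_56b8f5_nt.HN.I_DeU
import Pool.Agent.Work.MP_56b8f5_nt.HN.I_Dpw
import Pool.Agent.Work.MP_56b8f5_nt.HN.I_EmN
import Pool.Agent.Work.MP_56b8f5_nt.HN.I_EuN
import Pool.Agent.Work.MP_56b8f5_nt.HN.I_FbN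
import Pool.Agent.Work.MP_56b8f5_nt.HN.I_Fob
import Pool.Agent.Work.MP_56b8f5_nt.HN.I_GrN
import Pool.Agent.Work.MP_56b8f5_nt.HN.I_HNF
import Pool.Agent.Work.MP_56b8f5_nt.HN.I_KpN
import Pool.Agent.Work.MP_56b8f5_nt.HN.I_LhN
import Pool.Agent.Work.MP_56b8f5_nt.HN.I_LoE
import Pool.Agent.Work.MP_56b8f5_nt.HN.I_LtN
import Pool.Agent.Work.MP_56b8f5_nt.HN.I_MnE
import Pool.Agent.Work.MP_56b8f5_nt.HN.I_MvN
import Pool.Agent.Work.MP_56b8f5_nt.HN.I_NNp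
import Pool.Agent.Work.MP_56b8f5_nt.HN.I_Pri
import Pool.Agent.Work.MP_56b8f5_nt.HN.I_SSc
import Pool.Agent.Work.MP_56b8f5_nt.HN.I_SSu
import Pool.Agent.Work.MP_56b8f5_nt.HN.I_SmN
import Pool.Agent.Work.MP_56b8f5_nt.HN.I_Tw1
import Pool.Agent.Work.MP_56b8f5_nt.HN.I_Tw2
import Pool.Agent.Work.MP_56b8f5_nt.HN.I_Tw3
import Pool.Agent.Work.MP_56b8f5_nt.HN.I_Tw4
import Pool.Agent.Work.MP_56b8f5_nt.HN.I_TwB
import Pool.Agent.Work.MP_56b8f5_nt.HN.I_UpE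
import Pool.Agent.Work.MP_56b8f5_nt.HN.I_YbN
import Pool.Agent.Work.MP_56b8f5_nt.HN.I_dkB
import Pool.Agent.Work.MP_56b8f5_nt.HN.I_dkS

/-!
MP_56b8f5_nt, block HN: the assembly. `all_HNF : S_HNF`, the asymptotic formula for the moments of zeta to the right
of the critical line, over the set `GG T A C₀`, with explicit error term.
-/

set_option autoImplicit false

noncomputable section

namespace Pool.Agent.Work.MP_56b8f5_nt.HN

open Pool.Agent.Work.MP_56b8f5_nt.EM Pool.Agent.Work.MP_56b8f5_nt.WM Pool.Agent.Work.MP_56b8f5_nt.SH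
open Pool.Agent.Work.MP_56b8f5_nt.HZ

/-! ### Part E -/

theorem all_dkS : S_dkS := dkS_pf dkB_pf
theorem all_EmN : S_EmN := EmN_pf dkB_pf
theorem all_SmN : S_SmN := SmN_pf all_EmN WM.Mert_pf
theorem all_SSu : S_SSu := SSu_pf all_SmN Pri_pf
theorem all_EuN : S_EuN := EuN_pf dkB_pf all_SSu
theorem all_SSb : S_SSb := SSc_pf all_SSu all_EuN Pri_pf

/-! ### Part A -/

theorem all_Dpw : S_Dpw := Dpw_pf dkB_pf DsM_pf
theorem all_Fob : S_Fob := Fob_pf dkB_pf all_SmN FoV_pf Msu_pf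
theorem all_Tw1 : S_Tw1 := Tw1_pf all_Fob all_dkS all_Q2 Wt_pf
theorem all_Tw2 : S_Tw2 := Tw2_pf MvN_pf dkB_pf all_SmN DsM_pf
theorem all_TwA : S_TwA := TwB_pf all_Tw1 all_Tw2 (Tw3_pf all_dkS) (Tw4_pf all_dkS) HZG.iG1

/-! ### Part T -/

theorem all_FbN : S_FbN := FbN_pf FoV_pf Om_pf Dv_pf all_EmN Msu_pf all_EuN dkB_pf
theorem all_LhN : S_LhN := LhN_pf FoP_pf all_Q2 all_FbN Wt_pf DsM_pf all_dkS all_SSb
theorem all_YbN : S_YbN := YbN_pf HZG.iG1 DsM_pf all_LhN (LtN_pf all_dkS) (GrN_pf all_dkS) all_SSb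
theorem all_CmN : S_CmN := CpN_pf (KpN_pf HZG.iG2 all_YbN)

/-! ### Part P -/

theorem all_PWU : S_PWU := by
  obtain ⟨c, hc, h⟩ := all_PWs
  refine ⟨c, hc, fun C₀ hC₀ => ?_⟩
  obtain ⟨m₀, X₀, K, h1, h2, h3, h4⟩ := h C₀ hC₀
  refine ⟨m₀, X₀, K, h1, h2, h3, fun T hT A hA t ht η h0 h1' x hx hx' => ?_⟩
  have := h4 T hT A hA t ht η h0 h1' x hx hx'
  have e : sp η t = 1 / 2 + η + t * Complex.I := by
    unfold sp
    push_cast
    ring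
  rw [e]
  exact this

/-! ### Conclusion -/

theorem all_MnE : S_MnE := MnE_pf all_Dpw MvN_pf all_SSb
theorem all_UpE : S_UpE := UpE_pf all_TwA all_PWU HN4_all all_SSb DeU_pf NNp_pf all_MnE GGm_pf
theorem all_LoE : S_LoE := LoE_pf all_TwA all_CmN all_SSb DeL_pf NNp_pf all_MnE all_Dpw GGm_pf
theorem all_HNF : S_HNF := HNF_pf all_UpE all_LoE all_SSb

end Pool.Agent.Work.MP_56b8f5_nt.HN
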