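import Pool.Agent.Work.MP_56b8f5_nt.HN.StmtsM
import Pool.Agent.Work.MP_56b8f5_nt.HZ.StmtsC

/-!
MP_56b8f5_nt, block HN, item Upp: the upper bound.
-/

set_option autoImplicit false

open MeasureTheory Set Filter Topology

noncomputable section

namespace Pool.Agent.Work.MP_56b8f5_nt.HN

open Pool.Agent.Work.MP_56b8f5_nt.EM Pool.Agent.Work.MP_56b8f5_nt.WM Pool.Agent.Work.MP_56b8f5_nt.SH
open Pool.Agent.Work.MP_56b8f5_nt.HZ

namespace AuxUpp

theorem choose_delta (n : ℕ) (ε : ℝ) (hε : 0 < ε) : ∃ δ : ℝ, 0 < δ ∧ δ ≤ 1 ∧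
    (1 + δ) ^ n * (1 + δ) + 2 * δ ≤ 1 + ε := by
  have hc : Continuous fun δ : ℝ => (1 + δ) ^ n * (1 + δ) + 2 * δ := by fun_prop
  have ht : Tendsto (fun δ : ℝ => (1 + δ) ^ n * (1 + δ) + 2 * δ) (𝓝[>] 0) (𝓝 1) := by
    have h := (hc.tendsto 0).mono_left (nhdsWithin_le_nhds (s := Ioi 0))
    simpa using h
  have h1 := ht.eventually_lt_const (show (1 : ℝ) < 1 + ε by linarith)
  have h2 : ∀ᶠ δ in 𝓝[>] (0 : ℝ), δ ∈ Ioc (0 : ℝ) 1 := Ioc_mem_nhdsGT one_pos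
  obtain ⟨δ, h, h'⟩ := (h1.and h2).exists
  exact ⟨δ, h'.1, h'.2, h.le⟩

theorem decay (a b' c' d : ℝ) (P : ℕ) (hd : 0 < d) (hc : 0 < c') : ∃ Φ : ℝ, 1 ≤ Φ ∧
    ∀ X : ℝ, Φ ≤ X → Real.exp (a + b' * Real.log X) * X ^ P * Real.exp (-(X / d)) ≤ c' := by
  have ht := (tendsto_rpow_mul_exp_neg_mul_atTop_nhds_zero (b' + P) (1 / d)
    (by positivity)).const_mul (Real.exp a)
  rw [mul_zero] at ht
  have h1 := ht.eventually_le_const hc
  obtain ⟨Φ, hΦ⟩ := eventually_atTop.1 h1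
  refine ⟨max Φ 1, le_max_right _ _, fun X hX => ?_⟩
  have h2 := hΦ X ((le_max_left _ _).trans hX)
  have hX1 : 1 ≤ X := (le_max_right _ _).trans hX
  have hX0 : 0 < X := by linarith
  have e : Real.exp (a + b' * Real.log X) * X ^ P * Real.exp (-(X / d)) =
      Real.exp a * (X ^ (b' + (P : ℝ)) * Real.exp (-(1 / d) * X)) := by
    rw [Real.exp_add, Real.rpow_add hX0, Real.rpow_natCast, Real.rpow_def_of_pos hX0 b',
      mul_comm b' (Real.log X), show -(X / d) = -(1 / d) * X by ring]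
    ring
  rw [e]
  exact h2

theorem logs (R P : ℝ) (hR : 0 ≤ R) (hP : 0 ≤ P) : ∃ T₅ : ℝ, 3 ≤ T₅ ∧ ∀ T : ℝ, T₅ ≤ T →
    ∀ X : ℝ, 1 ≤ X → X ≤ Real.log T →
      (R + P * Real.log X) * Real.log (Real.log T) ≤ Real.log T := by
  have hq : 0 < 1 / (R + P + 1) := by positivity
  have h1 := (Real.isLittleO_pow_log_id_atTop (n := 2)).bound hq
  have h2 : ∀ᶠ L : ℝ in atTop, Real.exp 1 ≤ L := eventually_ge_atTop _
  have h3 := Real.tendsto_log_atTop.eventually (h1.and h2)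
  obtain ⟨T₅, hT⟩ := eventually_atTop.1 h3
  refine ⟨max T₅ 3, le_max_right _ _, fun T hT' X hX hXL => ?_⟩
  obtain ⟨h4, h5⟩ := hT T ((le_max_left _ _).trans hT')
  have hL : 0 < Real.log T := lt_of_lt_of_le (Real.exp_pos 1) h5
  have hl : 1 ≤ Real.log (Real.log T) := (Real.le_log_iff_exp_le hL).2 h5
  rw [Real.norm_of_nonneg (by positivity), id, Real.norm_of_nonneg hL.le, one_div_mul_eq_div,
    le_div_iff₀ (by positivity)] at h4
  have hX2 : Real.log X ≤ Real.log (Real.log T) := Real.log_le_log (by linarith) hXL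
  have hX3 : 0 ≤ Real.log X := Real.log_nonneg hX
  have h6 : R + P * Real.log X ≤ (R + P + 1) * Real.log (Real.log T) := by
    have h7 : P * Real.log X ≤ P * Real.log (Real.log T) := mul_le_mul_of_nonneg_left hX2 hP
    have h8 : R ≤ R * Real.log (Real.log T) := le_mul_of_one_le_right hR hl
    nlinarith
  calc (R + P * Real.log X) * Real.log (Real.log T)
      ≤ ((R + P + 1) * Real.log (Real.log T)) * Real.log (Real.log T) :=
        mul_le_mul_of_nonneg_right h6 (by linarith)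
    _ = Real.log (Real.log T) ^ 2 * (R + P + 1) := by ring
    _ ≤ Real.log T := h4

theorem sp_cont (η : ℝ) : Continuous (sp η) := by
  unfold sp
  fun_prop

theorem zeta_cont {η : ℝ} (hη : η ≤ 1 / 8) : Continuous fun t => riemannZeta (sp η t) := by
  rw [continuous_iff_continuousAt]
  intro t
  have h : sp η t ≠ 1 := by
    intro h
    have h1 := congrArg Complex.re h
    simp [sp] at h1
    linarith
  exact (differentiableAt_riemannZeta h).continuousAt.comp (f := sp η) (sp_cont η).continuousAt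

theorem Ds_cont (N : ℕ) (D : ℕ → ℂ) : Continuous (fun s => Ds N D s) := by
  unfold Ds
  refine continuous_finsetSum _ fun n hn => continuous_const.mul ?_
  refine Continuous.const_cpow continuous_neg (Or.inl ?_)
  have h := (Finset.mem_Icc.1 hn).1
  exact_mod_cast (by omega : n ≠ 0)

theorem DN_cont (N : ℕ) (η : ℝ) : Continuous (DN N η) := (Ds_cont N _).comp (sp_cont η)

theorem De_cont (N : ℕ) (q : ℕ → ℝ) : Continuous (De N q) := by
  have h : Continuous (fun t : ℝ => (1 / 2 + t * Complex.I : ℂ)) := by fun_prop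
  exact (Ds_cont N _).comp h

/-- the calculus of the three terms -/
theorem calc3 {δ ε T S I1 I2 I3 M Cd Cs Ct C₂ X η L R : ℝ} {n P : ℕ}
    (hTS : 0 ≤ T * S) (hT : 0 ≤ T) (hη : 0 < η) (hX : X = η * L) (hX1 : 1 ≤ X) (hCt : 0 ≤ Ct)
    (hC₂ : 0 ≤ C₂) (hM : 0 ≤ M) (hδ : 0 < δ)
    (hdel : (1 + δ) ^ n * (1 + δ) + 2 * δ ≤ 1 + ε)
    (hS : (1 / η) ^ P ≤ Cs * S)
    (h1 : I1 ≤ (1 + δ) * (T * S))
    (h2 : I2 ≤ Ct * (T * L ^ P) * Cd)
    (hCd : 0 ≤ Cd)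
    (h3 : I3 ≤ C₂ * Real.exp (-(R + 2 * P * Real.log X)) * (T * L ^ P))
    (hk2 : M * (1 + 1 / δ) ^ 2 * (Ct * X ^ P * Cs) * Cd ≤ δ)
    (hk3 : C₂ * Real.exp (-R) * Cs ≤ δ) :
    (1 + δ) ^ n * I1 + M * (1 + 1 / δ) ^ 2 * I2 + I3 ≤ (1 + ε) * (T * S) := by
  have hL : L = X * (1 / η) := by
    rw [hX]
    field_simp
  have hX0 : 0 < X := by linarith
  have hLP : L ^ P ≤ X ^ P * (Cs * S) := by
    rw [hL, mul_pow]
    exact mul_le_mul_of_nonneg_left hS (by positivity)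
  have a1 : (1 + δ) ^ n * I1 ≤ ((1 + δ) ^ n * (1 + δ)) * (T * S) := by
    calc (1 + δ) ^ n * I1 ≤ (1 + δ) ^ n * ((1 + δ) * (T * S)) :=
          mul_le_mul_of_nonneg_left h1 (by positivity)
      _ = _ := by ring
  have a2 : M * (1 + 1 / δ) ^ 2 * I2 ≤ δ * (T * S) := by
    have b1 : I2 ≤ Ct * (T * (X ^ P * (Cs * S))) * Cd :=
      h2.trans (mul_le_mul_of_nonneg_right (mul_le_mul_of_nonneg_left
        (mul_le_mul_of_nonneg_left hLP hT) hCt) hCd)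
    calc M * (1 + 1 / δ) ^ 2 * I2
        ≤ M * (1 + 1 / δ) ^ 2 * (Ct * (T * (X ^ P * (Cs * S))) * Cd) :=
          mul_le_mul_of_nonneg_left b1 (by positivity)
      _ = (M * (1 + 1 / δ) ^ 2 * (Ct * X ^ P * Cs) * Cd) * (T * S) := by ring
      _ ≤ δ * (T * S) := mul_le_mul_of_nonneg_right hk2 hTS
  have a3 : I3 ≤ δ * (T * S) := by
    have b1 : Real.exp (-(R + 2 * P * Real.log X)) * X ^ P ≤ Real.exp (-R) := by
      have e1 : X ^ P = Real.exp (P * Real.log X) := by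
        rw [← Real.log_pow, Real.exp_log (by positivity)]
      rw [e1, ← Real.exp_add]
      refine Real.exp_le_exp.2 ?_
      have h4 : 0 ≤ (P : ℝ) * Real.log X := mul_nonneg P.cast_nonneg (Real.log_nonneg hX1)
      nlinarith
    have hCsS : 0 ≤ Cs * S := le_trans (by positivity) hS
    calc I3 ≤ C₂ * Real.exp (-(R + 2 * P * Real.log X)) * (T * L ^ P) := h3
      _ ≤ C₂ * Real.exp (-(R + 2 * P * Real.log X)) * (T * (X ^ P * (Cs * S))) :=
          mul_le_mul_of_nonneg_left (mul_le_mul_of_nonneg_left hLP hT)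
            (mul_nonneg hC₂ (Real.exp_pos _).le)
      _ = (Real.exp (-(R + 2 * P * Real.log X)) * X ^ P) * (C₂ * (Cs * S) * T) := by ring
      _ ≤ Real.exp (-R) * (C₂ * (Cs * S) * T) :=
          mul_le_mul_of_nonneg_right b1 (mul_nonneg (mul_nonneg hC₂ hCsS) hT)
      _ = (C₂ * Real.exp (-R) * Cs) * (T * S) := by ring
      _ ≤ δ * (T * S) := mul_le_mul_of_nonneg_right hk3 hTS
  have a4 : ((1 + δ) ^ n * (1 + δ) + 2 * δ) * (T * S) ≤ (1 + ε) * (T * S) :=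
    mul_le_mul_of_nonneg_right hdel hTS
  linarith

end AuxUpp

open AuxUpp in
/-- Upp. -/
theorem Upp_pf (h1 : S_TwA) (h2 : S_PWN) (h3 : S_HN3) (h4 : S_SSb) (h5 : S_DeU) (h6 : S_NNp)
    (h7 : S_MnD) (h8 : HZ.S_GGm) : S_Upp := by
  intro k ε hε A C₀ hA hC₀
  obtain ⟨δ, hδ, hδ1, hdel⟩ := choose_delta (2 * (k + 1)) ε hε
  obtain ⟨c, hc, hPW⟩ := h2
  obtain ⟨m₀, T₁, K, hm₀, hT₁, hK, hPW⟩ := hPW A C₀ hA hC₀
  obtain ⟨C₂, b₁, T₂, hC₂, hb₁, hT₂, hHN⟩ := h3 k K (1 / m₀) hK (by positivity)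
  obtain ⟨Ct, T₃, hCt, hT₃, hTw⟩ := h1 k
  obtain ⟨Cs, hCs, hSS⟩ := h4 (k + 1)
  obtain ⟨Cm, -, hMn⟩ := h7 k
  obtain ⟨T₄, hT₄, hMn⟩ := hMn δ hδ hδ1
  -- the number R
  obtain ⟨R, hR1, hRb, hR3⟩ : ∃ R : ℝ, 1 ≤ R ∧ 1 / b₁ ≤ R ∧ C₂ * Real.exp (-R) * Cs ≤ δ := by
    have ht : Tendsto (fun R : ℝ => C₂ * Real.exp (-R) * Cs) atTop (𝓝 0) := by
      have h := (Real.tendsto_exp_neg_atTop_nhds_zero.const_mul C₂).mul_const Cs
      simpa using h
    have h := ((ht.eventually_le_const hδ).and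
      ((eventually_ge_atTop (1 : ℝ)).and (eventually_ge_atTop (1 / b₁)))).exists
    obtain ⟨R, hR3, hR1, hRb⟩ := h
    exact ⟨R, hR1, hRb, hR3⟩
  obtain ⟨P, hP⟩ : ∃ P : ℕ, P = (k + 1) ^ 2 := ⟨_, rfl⟩
  obtain ⟨Φ, hΦ1, hΦ⟩ := decay (C₂ * R) (2 * P * C₂)
    (δ / ((1 + 1 / δ) ^ 2 * (Ct * Cs) * 2)) (100 * ((k : ℝ) + 1)) P (by positivity)
    (by positivity)
  obtain ⟨T₅, hT₅, hlog⟩ := logs R (2 * P) (by linarith) (by positivity)
  refine ⟨Φ, max T₁ (max T₂ (max T₃ (max T₄ T₅))), hΦ1, hT₁.trans (le_max_left _ _), ?_⟩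
  intro T hT η hη1 hη2
  simp only [max_le_iff] at hT
  obtain ⟨g1, g2, g3, g4, g5⟩ := hT
  have hT3 : 3 ≤ T := hT₁.trans g1
  have hT0 : 0 < T := by linarith
  have hL1 : 1 < Real.log T := by
    rw [Real.lt_log_iff_exp_lt hT0]
    have h := Real.exp_one_lt_d9
    linarith
  have hL0 : 0 < Real.log T := by linarith
  have hη : 0 < η := lt_of_lt_of_le (by positivity) hη1
  obtain ⟨X, hX⟩ : ∃ X : ℝ, X = η * Real.log T := ⟨_, rfl⟩
  have hXΦ : Φ ≤ X := by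
    rw [hX]
    exact (div_le_iff₀ hL0).1 hη1
  have hX1 : 1 ≤ X := hΦ1.trans hXΦ
  have hXL : X ≤ Real.log T := by
    rw [hX]
    nlinarith
  have hlX : 0 ≤ Real.log X := Real.log_nonneg hX1
  -- the number b
  obtain ⟨B, hB⟩ : ∃ B : ℝ, B = R + 2 * P * Real.log X := ⟨_, rfl⟩
  have hBR : R ≤ B := by
    rw [hB]
    have : 0 ≤ 2 * (P : ℝ) * Real.log X := by positivity
    linarith
  have hB0 : 0 < B := by linarith
  have hb1 : 1 / B ≤ b₁ := by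
    rw [div_le_iff₀ hB0]
    have h := hRb.trans hBR
    rw [div_le_iff₀ hb₁] at h
    linarith
  have hb2 : Real.log (Real.log T) / Real.log T ≤ 1 / B := by
    rw [div_le_div_iff₀ hL0 hB0]
    have h := hlog T g5 X hX1 hXL
    rw [← hB] at h
    linarith
  have hE : GG T A C₀ ⊆ Icc T (2 * T) := fun t ht => ⟨ht.1, ht.2.1⟩
  have hEm : MeasurableSet (GG T A C₀) := h8 T A C₀ (by linarith)
  have hv : ∀ (x : ℝ) (n : ℕ), 0 ≤ c x n * (n : ℝ) ^ (-η) ∧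
      c x n * (n : ℝ) ^ (-η) ≤ (n : ℝ) ^ (-η) := by
    intro x n
    have h := Real.rpow_nonneg (Nat.cast_nonneg (α := ℝ) n) (-η)
    exact ⟨mul_nonneg (hc x n).1 h, mul_le_of_le_one_left h (hc x n).2⟩
  have hz : Continuous fun t => riemannZeta (sp η t) := zeta_cont hη2
  have hHyp : HypN (fun x n => c x n * (n : ℝ) ^ (-η)) K (1 / m₀) T (GG T A C₀)
      (fun t => ‖riemannZeta (sp η t)‖) := by
    intro t ht x hx1 hx2
    exact hPW T g1 t ht η hη.le hη2 x hx1 hx2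
  obtain ⟨N', q, F, hq, hF, hout, hin⟩ := hHN T g2 (1 / B) hb2 hb1 η hη.le hη2
    (fun x n => c x n * (n : ℝ) ^ (-η)) hv (fun t => ‖riemannZeta (sp η t)‖) hz.norm
    (fun t => norm_nonneg _) (GG T A C₀) hEm hE hHyp
  obtain ⟨N, hN1, hN2, hN3⟩ := h6 (k + 1) (by omega) T hT3
  have hN4 := hN3 η hη.le (by linarith)
  have hN5 : (N : ℝ) ^ 100 ≤ T := by
    refine le_trans ?_ hN2
    push_cast
    have h1N : (1 : ℝ) ≤ N := by exact_mod_cast hN1
    refine pow_le_pow_left₀ (by positivity) ?_ 100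
    exact le_self_pow₀ h1N (by omega)
  obtain ⟨hS0, hS1, hS2, -⟩ := hSS η hη hη2
  have hdec := h5 k δ T (Real.exp (C₂ / (1 / B))) (fun t => riemannZeta (sp η t)) (DN N η)
    (De N' q) (GG T A C₀) F hδ (by linarith) (Real.exp_pos _).le hz (DN_cont N η)
    (De_cont N' q) hEm hE hF hout
  refine hdec.trans ?_
  have hm := (hMn T g4 η hη hη2 N hN1 hN2).1
  have ht := hTw T g3 η hη.le hη2 N hN1 hN5 N' q hq
  rw [← hP] at ht hin hS2
  rw [one_div_one_div, hB] at hin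
  have eB : C₂ / (1 / B) = C₂ * R + 2 * P * C₂ * Real.log X := by
    rw [div_div_eq_mul_div, div_one, hB]
    ring
  refine calc3 (P := P) (Cs := Cs) (X := X) (η := η) (L := Real.log T) (R := R) (C₂ := C₂)
    (Ct := Ct) (Cd := (N : ℝ) ^ (-η)) (mul_nonneg hT0.le (by linarith)) hT0.le hη hX hX1
    (by linarith) (by linarith) (Real.exp_pos _).le hδ hdel hS2 hm ht (by positivity) hin ?_ hR3
  rw [eB]
  have hd := hΦ X hXΦ
  have hXP : 0 ≤ X ^ P := by positivity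
  have hN6 : (N : ℝ) ^ (-η) ≤ 2 * Real.exp (-(X / (100 * ((k : ℝ) + 1)))) := by
    rw [hX]
    push_cast at hN4
    exact hN4
  have hpos : 0 < (1 + 1 / δ) ^ 2 * (Ct * Cs) * 2 := by positivity
  rw [le_div_iff₀ hpos] at hd
  calc Real.exp (C₂ * R + 2 * P * C₂ * Real.log X) * (1 + 1 / δ) ^ 2 * (Ct * X ^ P * Cs) *
        (N : ℝ) ^ (-η)
      ≤ Real.exp (C₂ * R + 2 * P * C₂ * Real.log X) * (1 + 1 / δ) ^ 2 * (Ct * X ^ P * Cs) *
        (2 * Real.exp (-(X / (100 * ((k : ℝ) + 1))))) :=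
        mul_le_mul_of_nonneg_left hN6 (by positivity)
    _ = Real.exp (C₂ * R + 2 * P * C₂ * Real.log X) * X ^ P *
        Real.exp (-(X / (100 * ((k : ℝ) + 1)))) * ((1 + 1 / δ) ^ 2 * (Ct * Cs) * 2) := by ring
    _ ≤ δ := hd

end Pool.Agent.Work.MP_56b8f5_nt.HN
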