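import Pool.Agent.Work.MP_56b8f5_nt.HN.StmtsF
import Pool.Agent.Work.MP_56b8f5_nt.HN.I_Upp
import Pool.Agent.Work.MP_56b8f5_nt.HN.I_LoE

/-!
MP_56b8f5_nt, block HN, item UpE: the upper bound with explicit error.
-/

set_option autoImplicit false

open MeasureTheory Set Filter Topology

noncomputable section

namespace Pool.Agent.Work.MP_56b8f5_nt.HN

open Pool.Agent.Work.MP_56b8f5_nt.EM Pool.Agent.Work.MP_56b8f5_nt.WM Pool.Agent.Work.MP_56b8f5_nt.SH
open Pool.Agent.Work.MP_56b8f5_nt.HZ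

namespace AuxUpE

theorem one_add_pow {δ : ℝ} (h0 : 0 ≤ δ) (h1 : δ ≤ 1) (n : ℕ) : (1 + δ) ^ n ≤ 1 + 2 ^ n * δ := by
  have h : (1 + δ) ^ n ≤ 1 + (2 ^ n - 1) * δ := by
    induction n with
    | zero => simp
    | succ n ih =>
      have h2 : (1 : ℝ) ≤ 2 ^ n := one_le_pow₀ (by norm_num)
      rw [pow_succ]
      calc (1 + δ) ^ n * (1 + δ) ≤ (1 + (2 ^ n - 1) * δ) * (1 + δ) :=
            mul_le_mul_of_nonneg_right ih (by linarith)
        _ ≤ 1 + (2 ^ (n + 1) - 1) * δ := by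
            have h3 : (2 ^ n - 1) * δ * δ ≤ (2 ^ n - 1) * δ * 1 :=
              mul_le_mul_of_nonneg_left h1 (mul_nonneg (by linarith) h0)
            rw [pow_succ]
            nlinarith
  nlinarith

/-- The conditions on `T`. -/
theorem logs (R : ℝ) (P : ℕ) : ∃ T₅ : ℝ, 100 ≤ T₅ ∧ ∀ T : ℝ, T₅ ≤ T →
    R ≤ Real.log T ∧ Real.exp 1 ≤ Real.log T ∧
    R ≤ Real.log T / Real.log (Real.log T) ∧
    P * Real.log (Real.log T) ≤ Real.log T / (2 * Real.log (Real.log T)) := by
  have hq : 0 < 1 / (2 * P + |R| + 1) := by positivity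
  have h1 := (Real.isLittleO_pow_log_id_atTop (n := 2)).bound hq
  have h2 : ∀ᶠ L : ℝ in atTop, max R (Real.exp 1) ≤ L := eventually_ge_atTop _
  have h3 := Real.tendsto_log_atTop.eventually (h1.and h2)
  obtain ⟨T₅, hT⟩ := eventually_atTop.1 h3
  refine ⟨max T₅ 100, le_max_right _ _, fun T hT' => ?_⟩
  obtain ⟨h4, h5⟩ := hT T ((le_max_left _ _).trans hT')
  have h6 : R ≤ Real.log T := (le_max_left _ _).trans h5
  have h7 : Real.exp 1 ≤ Real.log T := (le_max_right _ _).trans h5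
  have hL : 0 < Real.log T := lt_of_lt_of_le (Real.exp_pos 1) h7
  have hl : 1 ≤ Real.log (Real.log T) := (Real.le_log_iff_exp_le hL).2 h7
  rw [Real.norm_of_nonneg (by positivity), id, Real.norm_of_nonneg hL.le, one_div_mul_eq_div,
    le_div_iff₀ (by positivity)] at h4
  set l : ℝ := Real.log (Real.log T) with hld
  have hP : (0 : ℝ) ≤ P := P.cast_nonneg
  have hRa : R ≤ |R| := le_abs_self R
  have hRn : 0 ≤ |R| := abs_nonneg R
  have hll : l ≤ l ^ 2 := by nlinarith
  refine ⟨h6, h7, ?_, ?_⟩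
  · rw [le_div_iff₀ (by linarith)]
    have e1 : R * l ≤ |R| * l ^ 2 := by
      calc R * l ≤ |R| * l := mul_le_mul_of_nonneg_right hRa (by linarith)
        _ ≤ |R| * l ^ 2 := mul_le_mul_of_nonneg_left hll hRn
    have e2 : 0 ≤ (2 * P + 1) * l ^ 2 := by positivity
    nlinarith
  · rw [le_div_iff₀ (by linarith)]
    have e2 : 0 ≤ (|R| + 1) * l ^ 2 := by positivity
    nlinarith

/-- The algebra at the end. -/
theorem fin {E δ s B I1 I2 I3 M q2 q3 : ℝ} {n : ℕ} (hB : 0 ≤ B) (hE0 : 0 ≤ E) (hE1 : E ≤ 1)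
    (hδ0 : 0 ≤ δ) (hδE : δ ≤ E) (hs : s ≤ 2 * E) (hs0 : 0 ≤ s)
    (h1 : I1 ≤ (1 + s) * B) (h2 : M * I2 ≤ q2 * E * B) (h3 : I3 ≤ q3 * E * B) :
    (1 + δ) ^ n * I1 + M * I2 + I3 ≤ (1 + (3 * 2 ^ n + 2 + q2 + q3) * E) * B := by
  have hp := one_add_pow hδ0 (hδE.trans hE1) n
  have h2n : (0 : ℝ) ≤ 2 ^ n := by positivity
  have e1 : (1 + δ) ^ n ≤ 1 + 2 ^ n * E := by nlinarith
  have e2 : (1 + δ) ^ n * I1 ≤ (1 + 2 ^ n * E) * ((1 + 2 * E) * B) := by
    calc (1 + δ) ^ n * I1 ≤ (1 + δ) ^ n * ((1 + s) * B) :=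
          mul_le_mul_of_nonneg_left h1 (by positivity)
      _ ≤ (1 + 2 ^ n * E) * ((1 + 2 * E) * B) := by
          refine mul_le_mul e1 (mul_le_mul_of_nonneg_right (by linarith) hB) (by positivity)
            (by positivity)
  have e3 : (1 + 2 ^ n * E) * (1 + 2 * E) ≤ 1 + (3 * 2 ^ n + 2) * E := by
    have : 2 ^ n * E * (2 * E) ≤ 2 ^ n * E * (2 * 1) :=
      mul_le_mul_of_nonneg_left (by linarith) (by positivity)
    nlinarith
  have e4 := mul_le_mul_of_nonneg_right e3 hB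
  nlinarith

end AuxUpE

open AuxUpp AuxLoE in
theorem UpE_pf (h1 : S_TwA) (h2 : S_PWU) (h3 : S_HN4) (h4 : S_SSb) (h5 : S_DeU) (h6 : S_NNp)
    (h7 : S_MnE) (h8 : HZ.S_GGm) : S_UpE := by
  intro k C₀ hC₀
  obtain ⟨cf, hcf, hPW⟩ := h2
  obtain ⟨m₀, X₀, K, hm₀, hX₀, hK, hPW⟩ := hPW C₀ hC₀
  obtain ⟨C₂, b₁, T₂, hC₂, hb₁, hT₂, hHN⟩ := h3 k K hK
  obtain ⟨C1, T₃, hC1, hT₃, hTw⟩ := h1 k
  obtain ⟨Cs, hCs, hSS⟩ := h4 (k + 1)
  obtain ⟨Cm, -, hMn⟩ := h7 k
  obtain ⟨P, hP⟩ : ∃ P : ℕ, P = (k + 1) ^ 2 := ⟨_, rfl⟩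
  obtain ⟨a, ha⟩ : ∃ a : ℝ, a = 1 / (100 * ((k + 1 : ℕ) : ℝ)) := ⟨_, rfl⟩
  have ha0 : 0 < a := by
    rw [ha]
    positivity
  have ha1 : a ≤ 1 := by
    rw [ha, div_le_one (by positivity)]
    have : (1 : ℝ) ≤ ((k + 1 : ℕ) : ℝ) := by exact_mod_cast Nat.succ_le_succ (Nat.zero_le k)
    linarith
  obtain ⟨β, hβ⟩ : ∃ β : ℝ, β = a / (4 * C₂) := ⟨_, rfl⟩
  have hβ0 : 0 < β := by
    rw [hβ]
    positivity
  have hβa : β ≤ a := by
    rw [hβ, div_le_iff₀ (by positivity)]
    nlinarith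
  have hC₂β : C₂ * β = a / 4 := by
    rw [hβ]
    field_simp
  obtain ⟨C5, hC5, H5⟩ := powexp P (a / 4) (by positivity)
  obtain ⟨C7, hC7, H7⟩ := powexp P (β / 2) (by positivity)
  obtain ⟨T₅, hT₅, hlog⟩ := AuxUpE.logs (max (Real.exp X₀) (1 / b₁)) P
  obtain ⟨c, hc⟩ : ∃ c : ℝ, c = min (β * b₁) (min (β / (2 * m₀)) (1 / (2 * m₀))) := ⟨_, rfl⟩
  have hc0 : 0 < c := by
    rw [hc]
    exact lt_min (by positivity) (lt_min (by positivity) (by positivity))
  have hc1 : c ≤ β * b₁ := by rw [hc]; exact min_le_left _ _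
  have hc2 : c ≤ β / (2 * m₀) := by
    rw [hc]
    exact (min_le_right _ _).trans (min_le_left _ _)
  have hc3 : c ≤ 1 / (2 * m₀) := by
    rw [hc]
    exact (min_le_right _ _).trans (min_le_right _ _)
  have hcβ : c ≤ β := by
    refine hc2.trans ?_
    rw [div_le_iff₀ (by positivity)]
    nlinarith
  have hc4 : c ≤ 1 := hcβ.trans (hβa.trans ha1)
  have hca : c ≤ a := hcβ.trans hβa
  refine ⟨c, 3 * 2 ^ (2 * (k + 1)) + 2 + 8 * C1 * C5 * Cs + (C₂ * C7 * Cs + C₂ * Cs),
    max T₂ (max T₃ T₅), hc0, ?_, hT₂.trans (le_max_left _ _), ?_⟩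
  · have e1 : (0 : ℝ) ≤ 3 * 2 ^ (2 * (k + 1)) := by positivity
    have e2 : 0 ≤ 8 * C1 * C5 * Cs := by positivity
    have e3 : 0 ≤ C₂ * C7 * Cs + C₂ * Cs := by positivity
    linarith
  intro T hT η A hη2 hA1 hAX hAL
  simp only [max_le_iff] at hT
  obtain ⟨g2, g3, g5⟩ := hT
  have hT100 : 100 ≤ T := hT₅.trans g5
  have hT0 : 0 < T := by linarith
  obtain ⟨l1, l2, l3, l4⟩ := hlog T g5
  have hL0 : 0 < Real.log T := lt_of_lt_of_le (Real.exp_pos 1) l2
  have hl : 1 ≤ Real.log (Real.log T) := (Real.le_log_iff_exp_le hL0).2 l2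
  obtain ⟨X, hX⟩ : ∃ X : ℝ, X = η * Real.log T := ⟨_, rfl⟩
  rw [← hX] at hAX
  have hX0 : 0 < X := by
    by_contra hcon
    have : c * X ≤ 0 := mul_nonpos_of_nonneg_of_nonpos hc0.le (not_lt.1 hcon)
    linarith
  have hη : 0 < η := by
    by_contra hcon
    have : η * Real.log T ≤ 0 := mul_nonpos_of_nonpos_of_nonneg (not_lt.1 hcon) hL0.le
    linarith
  have hXL : X ≤ Real.log T := by
    rw [hX]
    nlinarith
  obtain ⟨E, hE⟩ : ∃ E : ℝ, E = Real.exp (-(A / 200)) := ⟨_, rfl⟩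
  have hE0 : 0 < E := by rw [hE]; exact Real.exp_pos _
  have hE1 : E ≤ 1 := by
    rw [hE]
    exact Real.exp_le_one_iff.2 (by linarith)
  have haX : c * X ≤ a * X := mul_le_mul_of_nonneg_right hca hX0.le
  have hβX : c * X ≤ β * X := mul_le_mul_of_nonneg_right hcβ hX0.le
  obtain ⟨δ, hδ⟩ : ∃ δ : ℝ, δ = Real.exp (-(a * X / 8)) := ⟨_, rfl⟩
  have hδ0 : 0 < δ := by rw [hδ]; exact Real.exp_pos _
  have hδE : δ ≤ E := by
    rw [hδ, hE]
    exact Real.exp_le_exp.2 (by linarith)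
  have hδ1 : δ ≤ 1 := hδE.trans hE1
  have hsT : 2 / Real.sqrt T ≤ 2 * E := by
    have e1 : Real.sqrt T = Real.exp (Real.log T / 2) := by
      rw [Real.sqrt_eq_rpow, Real.rpow_def_of_pos hT0]
      congr 1
      ring
    rw [e1, div_eq_mul_inv, ← Real.exp_neg, hE]
    refine mul_le_mul_of_nonneg_left (Real.exp_le_exp.2 ?_) (by norm_num)
    nlinarith
  -- the number b
  obtain ⟨B, hB⟩ : ∃ B : ℝ, B = min (β * X) (Real.log T / Real.log (Real.log T)) := ⟨_, rfl⟩
  have hB1 : B ≤ β * X := by rw [hB]; exact min_le_left _ _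
  have hB2 : B ≤ Real.log T / Real.log (Real.log T) := by rw [hB]; exact min_le_right _ _
  have hBb : 1 / b₁ ≤ B := by
    rw [hB]
    refine le_min ?_ ((le_max_right _ _).trans l3)
    rw [div_le_iff₀ hb₁]
    calc (1 : ℝ) ≤ c * X := hA1.trans hAX
      _ ≤ β * b₁ * X := mul_le_mul_of_nonneg_right hc1 hX0.le
      _ = β * X * b₁ := by ring
  have hB0 : 0 < B := lt_of_lt_of_le (by positivity) hBb
  have hb1 : 1 / B ≤ b₁ := by
    rw [div_le_iff₀ hB0]
    rw [div_le_iff₀ hb₁] at hBb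
    linarith
  have hb2 : Real.log (Real.log T) / Real.log T ≤ 1 / B := by
    rw [div_le_div_iff₀ hL0 hB0]
    rw [le_div_iff₀ (by linarith)] at hB2
    linarith
  have hmB : m₀ * (1 + A) ≤ B := by
    have e1 : m₀ * (1 + A) ≤ 2 * m₀ * A := by nlinarith
    refine e1.trans ?_
    rw [hB]
    refine le_min ?_ ?_
    · have e2 := mul_le_mul_of_nonneg_right hc2 hX0.le
      have e3 := hAX.trans e2
      calc 2 * m₀ * A ≤ 2 * m₀ * (β / (2 * m₀) * X) :=
            mul_le_mul_of_nonneg_left e3 (by positivity)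
        _ = β * X := by field_simp
    · have e2 := mul_le_mul_of_nonneg_right hc3
        (by positivity : 0 ≤ Real.log T / Real.log (Real.log T))
      have e3 := hAL.trans e2
      calc 2 * m₀ * A ≤ 2 * m₀ * (1 / (2 * m₀) * (Real.log T / Real.log (Real.log T))) :=
            mul_le_mul_of_nonneg_left e3 (by positivity)
        _ = Real.log T / Real.log (Real.log T) := by field_simp
  have hEs : GG T A C₀ ⊆ Icc T (2 * T) := fun t ht => ⟨ht.1, ht.2.1⟩
  have hEm : MeasurableSet (GG T A C₀) := h8 T A C₀ (by linarith)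
  have hv : ∀ (x : ℝ) (n : ℕ), 0 ≤ cf x n * (n : ℝ) ^ (-η) ∧
      cf x n * (n : ℝ) ^ (-η) ≤ (n : ℝ) ^ (-η) := by
    intro x n
    have h := Real.rpow_nonneg (Nat.cast_nonneg (α := ℝ) n) (-η)
    exact ⟨mul_nonneg (hcf x n).1 h, mul_le_of_le_one_left h (hcf x n).2⟩
  have hz : Continuous fun t => riemannZeta (sp η t) := zeta_cont hη2
  have hHyp : HypN (fun x n => cf x n * (n : ℝ) ^ (-η)) K (1 / B) T (GG T A C₀)
      (fun t => ‖riemannZeta (sp η t)‖) := by
    intro t ht x hx1 hx2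
    have hx0 : Real.exp X₀ ≤ x := ((le_max_left _ _).trans l1).trans hx1
    have hxp : 0 < x := lt_of_lt_of_le (Real.exp_pos _) hx0
    have hlx : Real.log x ≤ 1 / B * Real.log T := by
      have := Real.log_le_log hxp hx2
      rwa [Real.log_rpow hT0] at this
    have hlx0 : 0 ≤ Real.log x := by
      rw [← Real.log_exp X₀] at hX₀
      exact (by linarith : (0 : ℝ) ≤ Real.log (Real.exp X₀)).trans
        (Real.log_le_log (Real.exp_pos _) hx0)
    refine hPW T hT100 A (by linarith) t ht η hη.le hη2 x hx0 ?_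
    calc m₀ * (1 + A) * Real.log x ≤ B * Real.log x := mul_le_mul_of_nonneg_right hmB hlx0
      _ ≤ B * (1 / B * Real.log T) := mul_le_mul_of_nonneg_left hlx hB0.le
      _ = Real.log T := by field_simp
  obtain ⟨N', q, F, hq, hF, hout, hin⟩ := hHN T g2 (1 / B) hb2 hb1 η hη.le hη2
    (fun x n => cf x n * (n : ℝ) ^ (-η)) hv (fun t => ‖riemannZeta (sp η t)‖) hz.norm
    (fun t => norm_nonneg _) (GG T A C₀) hEm hEs hHyp
  obtain ⟨N, hN1, hN2, hN3⟩ := h6 (k + 1) (by omega) T (by linarith)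
  have hN5 : (N : ℝ) ^ 100 ≤ T := by
    refine le_trans ?_ hN2
    push_cast
    have h1N : (1 : ℝ) ≤ N := by exact_mod_cast hN1
    refine pow_le_pow_left₀ (by positivity) ?_ 100
    exact le_self_pow₀ h1N (by omega)
  have hEn : (N : ℝ) ^ (-η) ≤ 2 * Real.exp (-(a * X)) := by
    refine (hN3 η hη.le (by linarith)).trans (le_of_eq ?_)
    rw [ha, hX]
    congr 3
    ring
  have hn0 : (0 : ℝ) ≤ (N : ℝ) ^ (-η) := by positivity
  obtain ⟨hS0, hS1, hS2, -⟩ := hSS η hη hη2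
  have hdec := h5 k δ T (Real.exp (C₂ / (1 / B))) (fun t => riemannZeta (sp η t)) (DN N η)
    (De N' q) (GG T A C₀) F hδ0 (by linarith) (Real.exp_pos _).le hz (DN_cont N η)
    (De_cont N' q) hEm hEs hF hout
  refine hdec.trans ?_
  have hm := (hMn T (by linarith) η hη hη2 N hN1 hN2).1
  have ht := hTw T g3 η hη.le hη2 N hN1 hN5 N' q hq
  rw [← hP] at ht hin hS2
  rw [one_div_one_div] at hin
  obtain ⟨W, hW⟩ : ∃ W : ℝ, W = T * SS (k + 1) η := ⟨_, rfl⟩
  have hW0 : 0 ≤ W := by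
    rw [hW]
    exact mul_nonneg hT0.le (by linarith)
  rw [← hW] at hm
  rw [← hW, ← hE]
  have hCS : 0 ≤ Cs * SS (k + 1) η := by
    have : 0 ≤ SS (k + 1) η := by linarith
    positivity
  have hLm := Lm hη hX0.le hX hS2 hCS (H5 X hX0.le)
  have hLm7 := Lm hη hX0.le hX hS2 hCS (H7 X hX0.le)
  have e1 : Real.exp (C₂ / (1 / B)) ≤ Real.exp (a * X / 4) := by
    refine Real.exp_le_exp.2 ?_
    rw [div_div_eq_mul_div, div_one]
    calc C₂ * B ≤ C₂ * (β * X) := mul_le_mul_of_nonneg_left hB1 (by linarith)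
      _ = C₂ * β * X := by ring
      _ = a * X / 4 := by rw [hC₂β]; ring
  have e2 : (1 + 1 / δ) ^ 2 ≤ 4 * Real.exp (a * X / 4) := by
    have e3 : 1 / δ = Real.exp (a * X / 8) := by
      rw [hδ, one_div, ← Real.exp_neg]
      congr 1
      ring
    have e4 : 1 ≤ 1 / δ := by
      rw [le_div_iff₀ hδ0]
      linarith
    calc (1 + 1 / δ) ^ 2 ≤ (2 * (1 / δ)) ^ 2 := pow_le_pow_left₀ (by positivity) (by linarith) 2
      _ = 4 * (Real.exp (a * X / 8)) ^ 2 := by rw [e3]; ring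
      _ = 4 * Real.exp (a * X / 4) := by
          rw [← Real.exp_nat_mul]
          congr 2
          push_cast
          ring
  have t2 : Real.exp (C₂ / (1 / B)) * (1 + 1 / δ) ^ 2 *
      (∫ t in T..(2 * T), ‖riemannZeta (sp η t) - DN N η t‖ ^ 2 * ‖De N' q t‖ ^ 2) ≤
      8 * C1 * C5 * Cs * E * W := by
    have e5 : C1 * (T * Real.log T ^ P) * (N : ℝ) ^ (-η) ≤
        C1 * (T * (C5 * Real.exp (a / 4 * X) * (Cs * SS (k + 1) η))) * (2 * Real.exp (-(a * X))) := by
      refine mul_le_mul ?_ hEn hn0 ?_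
      · exact mul_le_mul_of_nonneg_left (mul_le_mul_of_nonneg_left hLm hT0.le) (by linarith)
      · have : 0 ≤ C5 * Real.exp (a / 4 * X) * (Cs * SS (k + 1) η) := by positivity
        positivity
    have hI0 : 0 ≤ ∫ t in T..(2 * T), ‖riemannZeta (sp η t) - DN N η t‖ ^ 2 * ‖De N' q t‖ ^ 2 :=
      intervalIntegral.integral_nonneg (by linarith) fun t _ => by positivity
    have e6 : Real.exp (C₂ / (1 / B)) * (1 + 1 / δ) ^ 2 ≤
        Real.exp (a * X / 4) * (4 * Real.exp (a * X / 4)) :=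
      mul_le_mul e1 e2 (by positivity) (Real.exp_pos _).le
    calc Real.exp (C₂ / (1 / B)) * (1 + 1 / δ) ^ 2 *
          (∫ t in T..(2 * T), ‖riemannZeta (sp η t) - DN N η t‖ ^ 2 * ‖De N' q t‖ ^ 2)
        ≤ Real.exp (a * X / 4) * (4 * Real.exp (a * X / 4)) *
            (C1 * (T * (C5 * Real.exp (a / 4 * X) * (Cs * SS (k + 1) η))) *
              (2 * Real.exp (-(a * X)))) :=
          mul_le_mul e6 (ht.trans e5) hI0 (by positivity)
      _ = 8 * C1 * C5 * Cs * (Real.exp (a * X / 4) * Real.exp (a * X / 4) *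
            Real.exp (a / 4 * X) * Real.exp (-(a * X))) * W := by
          rw [hW]
          ring
      _ = 8 * C1 * C5 * Cs * Real.exp (-(a * X / 4)) * W := by
          rw [← Real.exp_add, ← Real.exp_add, ← Real.exp_add]
          congr 3
          ring
      _ ≤ 8 * C1 * C5 * Cs * E * W := by
          have e7 : Real.exp (-(a * X / 4)) ≤ E := by
            rw [hE]
            exact Real.exp_le_exp.2 (by linarith)
          gcongr
  have t3 : ∫ t in GG T A C₀ ∩ F, ‖riemannZeta (sp η t)‖ ^ (2 * (k + 1)) ≤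
      (C₂ * C7 * Cs + C₂ * Cs) * E * W := by
    refine hin.trans ?_
    rcases le_total (β * X) (Real.log T / Real.log (Real.log T)) with hcase | hcase
    · have hBe : B = β * X := by rw [hB]; exact min_eq_left hcase
      have e7 : Real.exp (-(β * X / 2)) ≤ E := by
        rw [hE]
        exact Real.exp_le_exp.2 (by linarith)
      calc C₂ * Real.exp (-B) * (T * Real.log T ^ P)
          ≤ C₂ * Real.exp (-B) * (T * (C7 * Real.exp (β / 2 * X) * (Cs * SS (k + 1) η))) := by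
            refine mul_le_mul_of_nonneg_left (mul_le_mul_of_nonneg_left hLm7 hT0.le) ?_
            positivity
        _ = C₂ * C7 * Cs * (Real.exp (-B) * Real.exp (β / 2 * X)) * W := by
            rw [hW]
            ring
        _ = C₂ * C7 * Cs * Real.exp (-(β * X / 2)) * W := by
            rw [← Real.exp_add, hBe]
            congr 3
            ring
        _ ≤ C₂ * C7 * Cs * E * W := by gcongr
        _ ≤ (C₂ * C7 * Cs + C₂ * Cs) * E * W := by
            have : 0 ≤ C₂ * Cs * E * W := by positivity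
            linarith
    · have hBe : B = Real.log T / Real.log (Real.log T) := by rw [hB]; exact min_eq_right hcase
      have e7 : Real.exp (-(Real.log T / (2 * Real.log (Real.log T)))) ≤ E := by
        rw [hE]
        refine Real.exp_le_exp.2 ?_
        have e8 : A ≤ 1 * (Real.log T / Real.log (Real.log T)) :=
          hAL.trans (mul_le_mul_of_nonneg_right hc4 (by positivity))
        have e9 : Real.log T / (2 * Real.log (Real.log T)) =
            Real.log T / Real.log (Real.log T) / 2 := by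
          rw [div_div, mul_comm]
        rw [e9]
        linarith
      have e8 : Real.log T ^ P ≤ Real.log T ^ P * (Cs * SS (k + 1) η) := by
        have : 1 ≤ Cs * SS (k + 1) η := one_le_mul_of_one_le_of_one_le hCs hS1
        exact le_mul_of_one_le_right (by positivity) this
      have e9 : Real.log T ^ P * Real.exp (-B) ≤
          Real.exp (-(Real.log T / (2 * Real.log (Real.log T)))) := by
        have f1 : Real.log T ^ P = Real.exp (P * Real.log (Real.log T)) := by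
          rw [← Real.log_pow, Real.exp_log (by positivity)]
        rw [f1, ← Real.exp_add, hBe]
        refine Real.exp_le_exp.2 ?_
        have f2 : Real.log T / Real.log (Real.log T) =
            2 * (Real.log T / (2 * Real.log (Real.log T))) := by
          field_simp
        rw [f2]
        linarith
      calc C₂ * Real.exp (-B) * (T * Real.log T ^ P)
          ≤ C₂ * Real.exp (-B) * (T * (Real.log T ^ P * (Cs * SS (k + 1) η))) := by
            refine mul_le_mul_of_nonneg_left (mul_le_mul_of_nonneg_left e8 hT0.le) ?_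
            positivity
        _ = C₂ * Cs * (Real.log T ^ P * Real.exp (-B)) * W := by
            rw [hW]
            ring
        _ ≤ C₂ * Cs * E * W := by
            have := e9.trans e7
            gcongr
        _ ≤ (C₂ * C7 * Cs + C₂ * Cs) * E * W := by
            have : 0 ≤ C₂ * C7 * Cs * E * W := by positivity
            linarith
  exact AuxUpE.fin hW0 hE0.le hE1 hδ0.le hδE hsT (by positivity) hm t2 t3

end Pool.Agent.Work.MP_56b8f5_nt.HN
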