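import Pool.Agent.Work.MP_56b8f5_nt.HN.StmtsD
import Pool.Agent.Work.MP_56b8f5_nt.HN.I_MnD
import Pool.Agent.Work.MP_56b8f5_nt.HN.I_Low

/-!
MP_56b8f5_nt, block HN, item ApK: approximation of `ζ^k` by the Dirichlet polynomial `DK` in the mean square.
-/

set_option autoImplicit false

open MeasureTheory Set Filter Topology

noncomputable section

namespace Pool.Agent.Work.MP_56b8f5_nt.HN

open Pool.Agent.Work.MP_56b8f5_nt.EM Pool.Agent.Work.MP_56b8f5_nt.WM Pool.Agent.Work.MP_56b8f5_nt.SH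
open Pool.Agent.Work.MP_56b8f5_nt.HZ

namespace AuxApK

theorem DK_eq (k N : ℕ) (η t : ℝ) :
    DK k N η t = De N (fun n => dk k n * (n : ℝ) ^ (-η)) t := by
  unfold DK De Ds
  refine Finset.sum_congr rfl fun n hn => ?_
  rw [Finset.mem_Icc] at hn
  have hn0 : (n : ℂ) ≠ 0 := Nat.cast_ne_zero.2 (by omega)
  have e : (n : ℂ) ^ (-sp η t) = (((n : ℝ) ^ (-η) : ℝ) : ℂ) * (n : ℂ) ^ (-(1 / 2 + t * Complex.I)) := by
    rw [Complex.ofReal_cpow (by positivity), Complex.ofReal_natCast, ← Complex.cpow_add _ _ hn0]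
    congr 1
    unfold sp
    push_cast
    ring
  show (dk k n : ℂ) * (n : ℂ) ^ (-sp η t) = ((dk k n * (n : ℝ) ^ (-η) : ℝ) : ℂ) * _
  rw [e, Complex.ofReal_mul]
  ring

theorem De_ext {P N : ℕ} (hPN : P ≤ N) (q : ℕ → ℝ) (hq : ∀ n, q n ≠ 0 → 1 ≤ n ∧ n ≤ P) (t : ℝ) :
    De P q t = De N q t := by
  unfold De Ds
  refine Finset.sum_subset (Finset.Icc_subset_Icc_right hPN) fun n _ hn => ?_
  have h1 : q n = 0 := by
    by_contra h
    exact hn (Finset.mem_Icc.2 (hq n h))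
  show (q n : ℂ) * _ = 0
  rw [h1]
  simp

theorem De_sub (N : ℕ) (q r : ℕ → ℝ) (t : ℝ) :
    De N q t - De N r t = De N (fun n => q n - r n) t := by
  unfold De Ds
  rw [← Finset.sum_sub_distrib]
  refine Finset.sum_congr rfl fun n _ => ?_
  push_cast
  ring

theorem cont_De (N : ℕ) (q : ℕ → ℝ) : Continuous fun t : ℝ => De N q t := by
  unfold De Ds
  refine continuous_finsetSum _ fun n hn => ?_
  have hn1 : (n : ℂ) ≠ 0 := by
    have := (Finset.mem_Icc.1 hn).1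
    exact_mod_cast (by omega : n ≠ 0)
  have h1 : Continuous fun t : ℝ => -((1 : ℂ) / 2 + t * Complex.I) := by
    fun_prop
  exact continuous_const.mul (h1.const_cpow (Or.inl hn1))

theorem tail (k : ℕ) (η E : ℝ) (N₁ N : ℕ) (r : ℕ → ℝ)
    (hsum : Summable (fun n : ℕ => dk k n ^ 2 * (n : ℝ) ^ (-(1 + 2 * η))))
    (hlow : SS k η ≤ (∑ n ∈ Finset.Icc 1 N₁, dk k n ^ 2 * (n : ℝ) ^ (-(1 + 2 * η))) + E)
    (hr0 : ∀ n, 1 ≤ n → n ≤ N₁ → r n = 0)
    (hr : ∀ n, 0 ≤ r n ∧ r n ≤ dk k n * (n : ℝ) ^ (-η)) :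
    ∑ n ∈ Finset.Icc 1 N, r n ^ 2 / (n : ℝ) ≤ E := by
  have h1 : ∑ n ∈ Finset.Icc 1 N \ Finset.Icc 1 N₁, r n ^ 2 / (n : ℝ) =
      ∑ n ∈ Finset.Icc 1 N, r n ^ 2 / (n : ℝ) := by
    refine Finset.sum_subset Finset.sdiff_subset fun n _ hn' => ?_
    have h2 : n ∈ Finset.Icc 1 N₁ := by
      by_contra h
      exact hn' (Finset.mem_sdiff.2 ⟨by assumption, h⟩)
    rw [Finset.mem_Icc] at h2
    rw [hr0 n h2.1 h2.2]
    simp
  rw [← h1]
  have h2 : ∑ n ∈ Finset.Icc 1 N \ Finset.Icc 1 N₁, r n ^ 2 / (n : ℝ) ≤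
      ∑ n ∈ Finset.Icc 1 N \ Finset.Icc 1 N₁, dk k n ^ 2 * (n : ℝ) ^ (-(1 + 2 * η)) := by
    refine Finset.sum_le_sum fun n hn => ?_
    have hn1 : 1 ≤ n := (Finset.mem_Icc.1 (Finset.mem_sdiff.1 hn).1).1
    rw [← AuxMnD.term_eq hn1]
    exact div_le_div_of_nonneg_right (pow_le_pow_left₀ (hr n).1 (hr n).2 2) (Nat.cast_nonneg _)
  have h3 := hsum.sum_le_tsum (Finset.Icc 1 N₁ ∪ (Finset.Icc 1 N \ Finset.Icc 1 N₁))
    fun n _ => by positivity
  rw [Finset.sum_union Finset.disjoint_sdiff] at h3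
  have h4 : SS k η = ∑' n : ℕ, dk k n ^ 2 * (n : ℝ) ^ (-(1 + 2 * η)) := rfl
  linarith

theorem sq_add (x y w : ℂ) : ‖x - y‖ ^ 2 ≤ 2 * ‖x - w‖ ^ 2 + 2 * ‖y - w‖ ^ 2 := by
  have h1 : ‖x - y‖ ≤ ‖x - w‖ + ‖y - w‖ := by
    have : x - y = (x - w) - (y - w) := by ring
    rw [this]
    exact norm_sub_le _ _
  have h2 := norm_nonneg (x - y)
  nlinarith [sq_nonneg (‖x - w‖ - ‖y - w‖)]

end AuxApK

open AuxApK in
theorem ApK_pf (h1 : S_ApD) (h2 : S_NNp) (h3 : S_Dpw) (h4 : S_MvN) (h5 : S_SSb) : S_ApK := by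
  intro k hk C₀ hC₀
  obtain ⟨k, rfl⟩ : ∃ j, k = j + 1 := ⟨k - 1, by omega⟩
  obtain ⟨c₁, C₁, T₁, hc₁, hC₁, hT₁, hA⟩ := h1 k C₀ hC₀
  obtain ⟨C₂, hC₂, hS⟩ := h5 (k + 1)
  have hg : (0 : ℝ) < 1 / (100 * ((k : ℝ) + 1)) := by positivity
  refine ⟨min c₁ (1 / (100 * ((k : ℝ) + 1))), 2 * C₁ + 8 * C₂, max T₁ 8, lt_min hc₁ hg,
    by linarith, hT₁.trans (le_max_left _ _), ?_⟩
  intro T hT η A hη1 hA1 hA2 hA3 N hN1 hN2
  have hTT : T₁ ≤ T := (le_max_left _ _).trans hT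
  have hT8 : 8 ≤ T := (le_max_right _ _).trans hT
  have hT0 : 0 < T := by linarith
  have hlog : 0 < Real.log T := Real.log_pos (by linarith)
  have hcm : 0 < min c₁ (1 / (100 * ((k : ℝ) + 1))) := lt_min hc₁ hg
  have hX0 : 0 < η * Real.log T := by
    by_contra hcon
    have := mul_nonpos_of_nonneg_of_nonpos hcm.le (not_lt.1 hcon)
    linarith
  have hη0 : 0 < η := by
    by_contra hcon
    have := mul_nonpos_of_nonpos_of_nonneg (not_lt.1 hcon) hlog.le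
    linarith
  have hY0 : 0 < Real.log T / Real.log (Real.log T) := by
    by_contra hcon
    have := mul_nonpos_of_nonneg_of_nonpos hcm.le (not_lt.1 hcon)
    linarith
  have hA2' : A ≤ c₁ * (η * Real.log T) :=
    hA2.trans (mul_le_mul_of_nonneg_right (min_le_left _ _) hX0.le)
  have hA3' : A ≤ c₁ * (Real.log T / Real.log (Real.log T)) :=
    hA3.trans (mul_le_mul_of_nonneg_right (min_le_left _ _) hY0.le)
  obtain ⟨N₁, n1, n2, n3⟩ := h2 (k + 1) (by omega) T (by linarith)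
  have n3' := n3 η hη0.le (by linarith)
  have hcast : (100 : ℝ) * ((k + 1 : ℕ) : ℝ) = 100 * ((k : ℝ) + 1) := by push_cast; ring
  rw [hcast] at n3'
  have hD := hA T hTT η A hη1 hA1 hA2' hA3' N₁ n1 n2 n3'
  obtain ⟨hsum, hSS1, -, hlow⟩ := hS η hη0 hη1
  have hlow := hlow N₁ n1
  obtain ⟨q, hq, hpow, heq⟩ := h3 (k + 1) N₁ η T n1 hη0.le n2
  set P : ℕ := N₁ ^ (k + 1) with hPd
  -- the length
  have hPN : P ≤ N := by
    have e1 : (P : ℝ) ^ 100 < ((N : ℝ) + 1) ^ 100 := lt_of_le_of_lt n2 hN2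
    have e2 : (P : ℝ) < (N : ℝ) + 1 := lt_of_pow_lt_pow_left₀ 100 (by positivity) e1
    have e3 : P < N + 1 := by exact_mod_cast e2
    omega
  set r : ℕ → ℝ := fun n => dk (k + 1) n * (n : ℝ) ^ (-η) - q n with hrd
  have hdiff : ∀ t : ℝ, DK (k + 1) N η t - DN N₁ η t ^ (k + 1) = De N r t := by
    intro t
    rw [hpow t, De_ext hPN q hq.supp t, DK_eq, De_sub]
  have hM := h4 T (2 * T) N r (by linarith)
  have e2 : 2 * T - T = T := by ring
  rw [e2] at hM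
  have hQ : ∑ n ∈ Finset.Icc 1 N, r n ^ 2 / (n : ℝ) ≤ C₂ * (N₁ : ℝ) ^ (-η) * SS (k + 1) η := by
    refine tail (k + 1) η _ N₁ N r hsum hlow ?_ ?_
    · intro n a b
      show dk (k + 1) n * (n : ℝ) ^ (-η) - q n = 0
      rw [heq n a b, sub_self]
    · intro n
      have a := hq.nonneg n
      have b := hq.le n
      constructor
      · show 0 ≤ dk (k + 1) n * (n : ℝ) ^ (-η) - q n
        linarith
      · show dk (k + 1) n * (n : ℝ) ^ (-η) - q n ≤ _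
        linarith
  have hsm : 2 * (N : ℝ) ^ 2 ≤ T := by
    have := AuxMnD.small (δ := 1 / 2) (T := 2 * T) (P := N) (by norm_num) (by norm_num)
      (by norm_num; linarith) (Nat.cast_nonneg _) hN1
    linarith
  set Q : ℝ := ∑ n ∈ Finset.Icc 1 N, r n ^ 2 / (n : ℝ) with hQd
  have hQ0 : 0 ≤ Q := Finset.sum_nonneg fun n _ => by positivity
  have hI2 : (∫ t in T..(2 * T), ‖De N r t‖ ^ 2) ≤ 2 * T * Q := by
    have m := (abs_le.1 hM).2
    have m2 : 2 * (N : ℝ) ^ 2 * Q ≤ T * Q := mul_le_mul_of_nonneg_right hsm hQ0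
    linarith
  -- the set
  have hsub : GG T A C₀ ⊆ Icc T (2 * T) := AuxLow.GG_sub T A C₀
  have hI : ∀ f : ℝ → ℝ, Continuous f → IntegrableOn f (GG T A C₀) := fun f hf =>
    (hf.integrableOn_Icc).mono_set hsub
  have c1 : Continuous fun t : ℝ => ‖riemannZeta (sp η t) ^ (k + 1) - DN N₁ η t ^ (k + 1)‖ ^ 2 :=
    (((AuxLow.cont_zeta hη1).pow _).sub ((AuxLow.cont_DN N₁ η).pow _)).norm.pow 2
  have c2 : Continuous fun t : ℝ => ‖De N r t‖ ^ 2 := (cont_De N r).norm.pow 2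
  have c3 : Continuous fun t : ℝ => ‖riemannZeta (sp η t) ^ (k + 1) - DK (k + 1) N η t‖ ^ 2 := by
    have : (fun t : ℝ => DK (k + 1) N η t) =
        fun t : ℝ => De N (fun n => dk (k + 1) n * (n : ℝ) ^ (-η)) t := by
      funext t
      exact DK_eq _ _ _ _
    have c4 : Continuous fun t : ℝ => DK (k + 1) N η t := by
      rw [this]
      exact cont_De _ _
    exact (((AuxLow.cont_zeta hη1).pow _).sub c4).norm.pow 2
  have hpt : ∀ t : ℝ, ‖riemannZeta (sp η t) ^ (k + 1) - DK (k + 1) N η t‖ ^ 2 ≤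
      2 * ‖riemannZeta (sp η t) ^ (k + 1) - DN N₁ η t ^ (k + 1)‖ ^ 2 + 2 * ‖De N r t‖ ^ 2 := by
    intro t
    rw [← hdiff t]
    exact sq_add _ _ _
  have hint : ∫ t in GG T A C₀, ‖riemannZeta (sp η t) ^ (k + 1) - DK (k + 1) N η t‖ ^ 2 ≤
      2 * (∫ t in GG T A C₀, ‖riemannZeta (sp η t) ^ (k + 1) - DN N₁ η t ^ (k + 1)‖ ^ 2) +
      2 * ∫ t in GG T A C₀, ‖De N r t‖ ^ 2 := by
    rw [← integral_const_mul, ← integral_const_mul, ← integral_add
      ((hI _ c1).const_mul 2) ((hI _ c2).const_mul 2)]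
    exact setIntegral_mono (hI _ c3) (((hI _ c1).const_mul 2).add ((hI _ c2).const_mul 2)) hpt
  have hGG : ∫ t in GG T A C₀, ‖De N r t‖ ^ 2 ≤ 2 * T * Q := by
    refine le_trans ?_ hI2
    rw [intervalIntegral.integral_of_le (by linarith), ← integral_Icc_eq_integral_Ioc]
    exact setIntegral_mono_set c2.integrableOn_Icc (Eventually.of_forall fun t => by positivity)
      (Eventually.of_forall hsub)
  -- exponentials
  obtain ⟨m, hmd⟩ : ∃ m : ℝ, m = min (η * Real.log T) (Real.log T / Real.log (Real.log T)) :=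
    ⟨_, rfl⟩
  rw [← hmd] at hD ⊢
  obtain ⟨c, hcd⟩ : ∃ c : ℝ, c = min c₁ (1 / (100 * ((k : ℝ) + 1))) := ⟨_, rfl⟩
  rw [← hcd]
  have hm0 : 0 ≤ m := by rw [hmd]; exact (lt_min hX0 hY0).le
  have hc1 : c ≤ c₁ := by rw [hcd]; exact min_le_left _ _
  have hc2 : c ≤ 1 / (100 * ((k : ℝ) + 1)) := by rw [hcd]; exact min_le_right _ _
  have x1 : Real.exp (-(c₁ * m)) ≤ Real.exp (-(c * m)) :=
    Real.exp_le_exp.2 (neg_le_neg (mul_le_mul_of_nonneg_right hc1 hm0))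
  have x2 : Real.exp (-(η * Real.log T / (100 * ((k : ℝ) + 1)))) ≤ Real.exp (-(c * m)) := by
    refine Real.exp_le_exp.2 (neg_le_neg ?_)
    have y1 : c * m ≤ 1 / (100 * ((k : ℝ) + 1)) * m := mul_le_mul_of_nonneg_right hc2 hm0
    have y2 : m ≤ η * Real.log T := by rw [hmd]; exact min_le_left _ _
    have y3 : 1 / (100 * ((k : ℝ) + 1)) * m ≤ 1 / (100 * ((k : ℝ) + 1)) * (η * Real.log T) :=
      mul_le_mul_of_nonneg_left y2 hg.le
    calc c * m ≤ 1 / (100 * ((k : ℝ) + 1)) * (η * Real.log T) := y1.trans y3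
      _ = η * Real.log T / (100 * ((k : ℝ) + 1)) := by ring
  set e : ℝ := Real.exp (-(c * m)) with hed
  have he0 : 0 < e := Real.exp_pos _
  have hTS : 0 ≤ T * SS (k + 1) η := by positivity
  have z1 : ∫ t in GG T A C₀, ‖riemannZeta (sp η t) ^ (k + 1) - DN N₁ η t ^ (k + 1)‖ ^ 2 ≤
      C₁ * e * (T * SS (k + 1) η) := by
    refine hD.trans (mul_le_mul_of_nonneg_right ?_ hTS)
    exact mul_le_mul_of_nonneg_left x1 (by linarith)
  have z2 : 2 * T * Q ≤ 4 * C₂ * e * (T * SS (k + 1) η) := by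
    have w1 : (N₁ : ℝ) ^ (-η) ≤ 2 * e := n3'.trans (by linarith)
    have w2 : C₂ * (N₁ : ℝ) ^ (-η) * SS (k + 1) η ≤ C₂ * (2 * e) * SS (k + 1) η := by
      refine mul_le_mul_of_nonneg_right ?_ (by linarith)
      exact mul_le_mul_of_nonneg_left w1 (by linarith)
    calc 2 * T * Q ≤ 2 * T * (C₂ * (2 * e) * SS (k + 1) η) :=
          mul_le_mul_of_nonneg_left (hQ.trans w2) (by positivity)
      _ = 4 * C₂ * e * (T * SS (k + 1) η) := by ring
  calc ∫ t in GG T A C₀, ‖riemannZeta (sp η t) ^ (k + 1) - DK (k + 1) N η t‖ ^ 2 ≤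
      2 * (C₁ * e * (T * SS (k + 1) η)) + 2 * (4 * C₂ * e * (T * SS (k + 1) η)) := by
        refine hint.trans ?_
        have := hGG.trans z2
        linarith
    _ = (2 * C₁ + 8 * C₂) * e * (T * SS (k + 1) η) := by ring

end Pool.Agent.Work.MP_56b8f5_nt.HN
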