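import Pool.Agent.Work.MP_56b8f5_nt.HN.StmtsD

/-!
MP_56b8f5_nt, block HN, item Ap0 (helper76): approximation in the mean square on the upper half of `[0,T]`.
-/

set_option autoImplicit false

open MeasureTheory Set Filter Topology

noncomputable section

namespace Pool.Agent.Work.MP_56b8f5_nt.HN

open Pool.Agent.Work.MP_56b8f5_nt.EM Pool.Agent.Work.MP_56b8f5_nt.WM Pool.Agent.Work.MP_56b8f5_nt.SH
open Pool.Agent.Work.MP_56b8f5_nt.HZ

namespace AuxAp0

theorem cont_Ds (N : ℕ) (D : ℕ → ℂ) (η : ℝ) : Continuous fun t : ℝ => Ds N D (sp η t) := by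
  unfold Ds
  refine continuous_finsetSum _ fun n hn => ?_
  have hn1 : (n : ℂ) ≠ 0 := by
    have := (Finset.mem_Icc.1 hn).1
    exact_mod_cast (by omega : n ≠ 0)
  have h1 : Continuous fun t : ℝ => -sp η t := by
    unfold sp
    fun_prop
  exact continuous_const.mul (h1.const_cpow (Or.inl hn1))

theorem cont_zeta {η : ℝ} (hη : η ≤ 1 / 8) : Continuous fun t : ℝ => riemannZeta (sp η t) := by
  have h1 : Continuous fun t : ℝ => sp η t := by
    unfold sp
    fun_prop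
  refine continuous_iff_continuousAt.2 fun t => ?_
  have h2 : sp η t ≠ 1 := by
    intro h
    have h3 := congrArg Complex.re h
    unfold sp at h3
    simp at h3
    linarith
  exact ContinuousAt.comp (f := fun t : ℝ => sp η t) (g := riemannZeta)
    (differentiableAt_riemannZeta h2).continuousAt h1.continuousAt

/-- `N = ⌊T^{1/100}⌋`. -/
theorem floor_bounds {T : ℝ} (hT : 0 ≤ T) :
    ((⌊T ^ (1 / 100 : ℝ)⌋₊ : ℕ) : ℝ) ^ 100 ≤ T ∧ T < (((⌊T ^ (1 / 100 : ℝ)⌋₊ : ℕ) : ℝ) + 1) ^ 100 := by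
  have h0 : 0 ≤ T ^ (1 / 100 : ℝ) := Real.rpow_nonneg hT _
  have h1 : (T ^ (1 / 100 : ℝ)) ^ 100 = T := by
    rw [← Real.rpow_natCast, ← Real.rpow_mul hT]
    norm_num
  constructor
  · calc ((⌊T ^ (1 / 100 : ℝ)⌋₊ : ℕ) : ℝ) ^ 100 ≤ (T ^ (1 / 100 : ℝ)) ^ 100 :=
          pow_le_pow_left₀ (Nat.cast_nonneg _) (Nat.floor_le h0) 100
      _ = T := h1
  · calc T = (T ^ (1 / 100 : ℝ)) ^ 100 := h1.symm
      _ < (((⌊T ^ (1 / 100 : ℝ)⌋₊ : ℕ) : ℝ) + 1) ^ 100 :=
          pow_lt_pow_left₀ (Nat.lt_floor_add_one _) h0 (by norm_num)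

end AuxAp0

open AuxAp0 in
theorem Ap0_pf (h1 : S_ApK) (h2 : S_DyI) : S_Ap0 := by
  intro k hk C₀ hC₀
  obtain ⟨c₁, C₁, T₁, hc₁, hC₁, hT₁, h3⟩ := h1 k hk C₀ hC₀
  have hcpos : 0 < c₁ / (2 * (1 + C₀)) := by positivity
  refine ⟨c₁ / (2 * (1 + C₀)), C₁, 2 * T₁, hcpos, hC₁, by linarith, ?_⟩
  intro T hT σ A hσ hA h4 h5
  set c : ℝ := c₁ / (2 * (1 + C₀)) with hc
  have hcc : (1 + C₀) * c * 2 = c₁ := by
    rw [hc]
    field_simp
  have hcle : 2 * c ≤ c₁ := by
    have : 0 ≤ C₀ * c := mul_nonneg hC₀ hcpos.le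
    nlinarith
  -- logarithms
  set U : ℝ := T / 2 with hU
  have hUT : 2 * U = T := by rw [hU]; ring
  have hU3 : 3 ≤ U := by rw [hU]; linarith
  have hUT₁ : T₁ ≤ U := by rw [hU]; linarith
  have hT0 : 0 < T := by linarith
  have hU0 : 0 < U := by linarith
  have hlogU1 : 1 < Real.log U := by
    rw [Real.lt_log_iff_exp_lt hU0]
    exact lt_of_lt_of_le (lt_trans Real.exp_one_lt_d9 (by norm_num)) hU3
  have hlogUT : Real.log U ≤ Real.log T := Real.log_le_log hU0 (by linarith)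
  have hlogT2 : Real.log T ≤ 2 * Real.log U := by
    have e1 : Real.log (U ^ 2) = 2 * Real.log U := by
      rw [Real.log_pow]
      norm_num
    rw [← e1]
    refine Real.log_le_log hT0 ?_
    nlinarith
  have hlogT0 : 0 < Real.log T := by linarith
  have hllU : 0 < Real.log (Real.log U) := Real.log_pos hlogU1
  have hllUT : Real.log (Real.log U) ≤ Real.log (Real.log T) :=
    Real.log_le_log (by linarith) hlogUT
  have hllT : 0 < Real.log (Real.log T) := hllU.trans_le hllUT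
  have hq : Real.log T / Real.log (Real.log T) ≤ 2 * (Real.log U / Real.log (Real.log U)) := by
    calc Real.log T / Real.log (Real.log T) ≤ (2 * Real.log U) / Real.log (Real.log U) :=
          div_le_div₀ (by linarith) hlogT2 hllU hllUT
      _ = 2 * (Real.log U / Real.log (Real.log U)) := by ring
  have hη0 : 0 < σ - 1 / 2 := by
    by_contra hcon
    have e1 : (σ - 1 / 2) * Real.log T ≤ 0 :=
      mul_nonpos_of_nonpos_of_nonneg (not_lt.1 hcon) hlogT0.le
    have e2 : c * ((σ - 1 / 2) * Real.log T) ≤ 0 := mul_nonpos_of_nonneg_of_nonpos hcpos.le e1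
    linarith
  have hη8 : σ - 1 / 2 ≤ 1 / 8 := by linarith
  have hη2 : (σ - 1 / 2) * Real.log T ≤ 2 * ((σ - 1 / 2) * Real.log U) := by
    have := mul_le_mul_of_nonneg_left hlogT2 hη0.le
    linarith
  -- the parameter
  set A' : ℝ := A + C₀ * Real.log 2 with hA'
  have hlog2 : Real.log 2 ≤ 1 := by
    have := Real.log_two_lt_d9
    linarith
  have hlog20 : 0 ≤ Real.log 2 := Real.log_nonneg (by norm_num)
  have hA'1 : 1 ≤ A' := by
    have := mul_nonneg hC₀ hlog20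
    linarith
  have hA'A : A' ≤ (1 + C₀) * A := by
    have e1 : C₀ * Real.log 2 ≤ C₀ * 1 := mul_le_mul_of_nonneg_left hlog2 hC₀
    have e2 : C₀ * 1 ≤ C₀ * A := mul_le_mul_of_nonneg_left hA hC₀
    rw [hA']
    linarith
  have h1C : 0 ≤ 1 + C₀ := by linarith
  have hcon1 : A' ≤ c₁ * ((σ - 1 / 2) * Real.log U) := by
    have e1 := mul_le_mul_of_nonneg_left h4 h1C
    have e2 := mul_le_mul_of_nonneg_left hη2 (mul_nonneg h1C hcpos.le)
    calc A' ≤ (1 + C₀) * A := hA'A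
      _ ≤ (1 + C₀) * (c * ((σ - 1 / 2) * Real.log T)) := e1
      _ = (1 + C₀) * c * ((σ - 1 / 2) * Real.log T) := by ring
      _ ≤ (1 + C₀) * c * (2 * ((σ - 1 / 2) * Real.log U)) := e2
      _ = c₁ * ((σ - 1 / 2) * Real.log U) := by rw [← hcc]; ring
  have hcon2 : A' ≤ c₁ * (Real.log U / Real.log (Real.log U)) := by
    have e1 := mul_le_mul_of_nonneg_left h5 h1C
    have e2 := mul_le_mul_of_nonneg_left hq (mul_nonneg h1C hcpos.le)
    calc A' ≤ (1 + C₀) * A := hA'A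
      _ ≤ (1 + C₀) * (c * (Real.log T / Real.log (Real.log T))) := e1
      _ = (1 + C₀) * c * (Real.log T / Real.log (Real.log T)) := by ring
      _ ≤ (1 + C₀) * c * (2 * (Real.log U / Real.log (Real.log U))) := e2
      _ = c₁ * (Real.log U / Real.log (Real.log U)) := by rw [← hcc]; ring
  obtain ⟨hN1, hN2⟩ := floor_bounds hT0.le
  set N : ℕ := ⌊T ^ (1 / 100 : ℝ)⌋₊ with hN
  have h6 := h3 U hUT₁ (σ - 1 / 2) A' hη8 hA'1 hcon1 hcon2 N (by rw [hUT]; exact hN1)
    (lt_of_le_of_lt (by linarith) hN2)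
  -- inclusion
  have hsub : G0 T A C₀ ∩ Icc (T / 2) T ⊆ GG U A' C₀ := by
    have := h2.2.2 T U A C₀ 2 (by linarith) hUT.le (by norm_num) hlogT2 (by linarith) hC₀
    rw [hUT] at this
    exact this
  have es : ∀ t : ℝ, sp (σ - 1 / 2) t = (σ : ℂ) + t * Complex.I := by
    intro t
    unfold sp
    congr 2
    ring
  have eS : SS k (σ - 1 / 2) = ∑' n : ℕ, dk k n ^ 2 * (n : ℝ) ^ (-(2 * σ)) := by
    unfold SS
    refine tsum_congr fun n => ?_
    have : -(1 + 2 * (σ - 1 / 2)) = -(2 * σ) := by ring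
    rw [this]
  have hcont : Continuous fun t : ℝ =>
      ‖riemannZeta (sp (σ - 1 / 2) t) ^ k - DK k N (σ - 1 / 2) t‖ ^ 2 :=
    ((((cont_zeta hη8).pow k).sub (cont_Ds N (fun n => (dk k n : ℂ)) (σ - 1 / 2))).norm).pow 2
  have hGsub : GG U A' C₀ ⊆ Icc U (2 * U) := fun t ht => ⟨ht.1, ht.2.1⟩
  have hint : IntegrableOn (fun t : ℝ =>
      ‖riemannZeta (sp (σ - 1 / 2) t) ^ k - DK k N (σ - 1 / 2) t‖ ^ 2) (GG U A' C₀) :=
    (hcont.continuousOn.integrableOn_compact isCompact_Icc).mono_set hGsub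
  have h7 : ∫ t in G0 T A C₀ ∩ Icc (T / 2) T,
      ‖riemannZeta (sp (σ - 1 / 2) t) ^ k - DK k N (σ - 1 / 2) t‖ ^ 2 ≤
      ∫ t in GG U A' C₀, ‖riemannZeta (sp (σ - 1 / 2) t) ^ k - DK k N (σ - 1 / 2) t‖ ^ 2 :=
    setIntegral_mono_set hint (ae_of_all _ fun t => sq_nonneg _) hsub.eventuallyLE
  have h8 : ∀ t : ℝ, ‖riemannZeta (σ + t * Complex.I) ^ k -
        ∑ n ∈ Finset.Icc 1 N, (dk k n : ℂ) * (n : ℂ) ^ (-((σ : ℂ) + t * Complex.I))‖ ^ 2 =
      ‖riemannZeta (sp (σ - 1 / 2) t) ^ k - DK k N (σ - 1 / 2) t‖ ^ 2 := by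
    intro t
    unfold DK Ds
    rw [es t]
  simp only [h8]
  refine h7.trans (h6.trans ?_)
  -- the error terms
  have hS0 : 0 ≤ SS k (σ - 1 / 2) := by
    unfold SS
    exact tsum_nonneg fun n => mul_nonneg (sq_nonneg _) (Real.rpow_nonneg (Nat.cast_nonneg _) _)
  rw [← eS]
  have hmin0 : 0 ≤ min ((σ - 1 / 2) * Real.log T) (Real.log T / Real.log (Real.log T)) :=
    le_min (mul_nonneg hη0.le hlogT0.le) (div_nonneg hlogT0.le hllT.le)
  have hmin : min ((σ - 1 / 2) * Real.log T) (Real.log T / Real.log (Real.log T)) ≤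
      2 * min ((σ - 1 / 2) * Real.log U) (Real.log U / Real.log (Real.log U)) := by
    rw [mul_min_of_nonneg _ _ (by norm_num : (0 : ℝ) ≤ 2)]
    exact min_le_min hη2 hq
  have hexp : Real.exp (-(c₁ * min ((σ - 1 / 2) * Real.log U)
      (Real.log U / Real.log (Real.log U)))) ≤
      Real.exp (-(c * min ((σ - 1 / 2) * Real.log T)
        (Real.log T / Real.log (Real.log T)))) := by
    apply Real.exp_le_exp.2
    have e1 := mul_le_mul_of_nonneg_left hmin hcpos.le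
    have hminU0 : 0 ≤ min ((σ - 1 / 2) * Real.log U) (Real.log U / Real.log (Real.log U)) := by
      linarith
    have e2 := mul_le_mul_of_nonneg_right hcle hminU0
    nlinarith
  have hC0 : 0 ≤ C₁ := by linarith
  have hfin : C₁ * Real.exp (-(c₁ * min ((σ - 1 / 2) * Real.log U)
      (Real.log U / Real.log (Real.log U)))) * (U * SS k (σ - 1 / 2)) ≤
      C₁ * Real.exp (-(c * min ((σ - 1 / 2) * Real.log T)
        (Real.log T / Real.log (Real.log T)))) * (T * SS k (σ - 1 / 2)) := by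
    apply mul_le_mul (mul_le_mul_of_nonneg_left hexp hC0)
      (mul_le_mul_of_nonneg_right (by linarith) hS0) (mul_nonneg hU0.le hS0)
      (mul_nonneg hC0 (Real.exp_pos _).le)
  exact hfin

end Pool.Agent.Work.MP_56b8f5_nt.HN
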