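import Pool.Agent.Work.MP_56b8f5_nt.HN.StmtsD

/-!
MP_56b8f5_nt, block HN, item DyF: the formula on `[0,T]`.
-/

set_option autoImplicit false

open MeasureTheory Set Filter Topology

noncomputable section

namespace Pool.Agent.Work.MP_56b8f5_nt.HN

open Pool.Agent.Work.MP_56b8f5_nt.EM Pool.Agent.Work.MP_56b8f5_nt.WM Pool.Agent.Work.MP_56b8f5_nt.SH
open Pool.Agent.Work.MP_56b8f5_nt.HZ

namespace AuxDyF

theorem dyadic (T Y : ℝ) (hY : 0 < Y) : ∃ J : ℕ, (∀ j < J, Y ≤ T / 2 ^ (j + 1)) ∧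
    T / 2 ^ J ≤ 2 * Y := by
  have hex : ∃ J : ℕ, T / 2 ^ (J + 1) < Y := by
    obtain ⟨n, hn⟩ := pow_unbounded_of_one_lt (T / Y) (by norm_num : (1 : ℝ) < 2)
    refine ⟨n, ?_⟩
    have h2 : (0 : ℝ) < 2 ^ n := by positivity
    rw [div_lt_iff₀ hY] at hn
    rw [div_lt_iff₀ (by positivity), pow_succ]
    nlinarith
  classical
  refine ⟨Nat.find hex, fun j hj => not_lt.1 (Nat.find_min hex hj), ?_⟩
  have h := Nat.find_spec hex
  rw [pow_succ, ← div_div] at h
  linarith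

theorem two_T (T : ℝ) (hT : 0 < T) (j : ℕ) : 2 * (T / 2 ^ (j + 1)) ≤ T := by
  have h1 : 2 * (T / 2 ^ (j + 1)) = T / 2 ^ j := by
    rw [pow_succ]
    field_simp
  rw [h1]
  exact div_le_self hT.le (one_le_pow₀ (by norm_num))

theorem upper_abs (hS : S_DyS) (f : ℝ → ℝ) (hf : Continuous f) (hf0 : ∀ t, 0 ≤ f t) (G : Set ℝ)
    (T Y K D : ℝ) (hG : MeasurableSet G) (hGI : G ⊆ Icc 0 T) (hT : 0 < T) (hY : 0 < Y)
    (hK : 0 ≤ K)
    (h1 : ∀ U : ℝ, Y ≤ U → 2 * U ≤ T → ∫ t in G ∩ Icc U (2 * U), f t ≤ K * U)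
    (h2 : ∀ a : ℝ, 0 ≤ a → a ≤ 2 * Y → ∫ t in Icc 0 a, f t ≤ D) :
    ∫ t in G, f t ≤ K * T + D := by
  obtain ⟨J, hJ1, hJ2⟩ := dyadic T Y hY
  have h3 := (hS f G T K hf hG hT J).1 fun j hj => h1 _ (hJ1 j hj) (two_T T hT j)
  have ha : 0 ≤ T / 2 ^ J := by positivity
  have hsub : G ⊆ (G ∩ Icc 0 (T / 2 ^ J)) ∪ (G ∩ Ioc (T / 2 ^ J) T) := by
    intro t ht
    rcases le_or_gt t (T / 2 ^ J) with h | h
    · exact Or.inl ⟨ht, (hGI ht).1, h⟩
    · exact Or.inr ⟨ht, h, (hGI ht).2⟩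
  have heq : G = (G ∩ Icc 0 (T / 2 ^ J)) ∪ (G ∩ Ioc (T / 2 ^ J) T) := by
    refine Subset.antisymm hsub ?_
    rintro t (h | h)
    · exact h.1
    · exact h.1
  have hint : IntegrableOn f G := (hf.integrableOn_Icc).mono_set hGI
  have hdis : Disjoint (G ∩ Icc 0 (T / 2 ^ J)) (G ∩ Ioc (T / 2 ^ J) T) := by
    rw [Set.disjoint_left]
    rintro t h h'
    exact absurd h.2.2 (not_le.2 h'.2.1)
  have hsplit : ∫ t in G, f t =
      (∫ t in G ∩ Icc 0 (T / 2 ^ J), f t) + ∫ t in G ∩ Ioc (T / 2 ^ J) T, f t := by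
    have := setIntegral_union hdis (hG.inter measurableSet_Ioc)
      (hint.mono_set inter_subset_left) (hint.mono_set inter_subset_left) (μ := volume) (f := f)
    rw [← heq] at this
    exact this
  have h4 : ∫ t in G ∩ Icc 0 (T / 2 ^ J), f t ≤ ∫ t in Icc 0 (T / 2 ^ J), f t :=
    setIntegral_mono_set hf.integrableOn_Icc (ae_of_all _ hf0)
      (LE.le.eventuallyLE inter_subset_right)
  have h5 := h2 _ ha hJ2
  have h6 : K * (T - T / 2 ^ J) ≤ K * T := mul_le_mul_of_nonneg_left (by linarith) hK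
  rw [hsplit]
  linarith

theorem lower_abs (hS : S_DyS) (f : ℝ → ℝ) (hf : Continuous f) (hf0 : ∀ t, 0 ≤ f t) (G : Set ℝ)
    (T Y K : ℝ) (hG : MeasurableSet G) (hGI : G ⊆ Icc 0 T) (hT : 0 < T) (hY : 0 < Y)
    (hK : 0 ≤ K)
    (h1 : ∀ U : ℝ, Y ≤ U → 2 * U ≤ T → K * U ≤ ∫ t in G ∩ Icc U (2 * U), f t) :
    K * (T - 2 * Y) ≤ ∫ t in G, f t := by
  obtain ⟨J, hJ1, hJ2⟩ := dyadic T Y hY
  have h3 := (hS f G T K hf hG hT J).2 fun j hj => h1 _ (hJ1 j hj) (two_T T hT j)
  have hint : IntegrableOn f G := (hf.integrableOn_Icc).mono_set hGI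
  have h4 : ∫ t in G ∩ Ioc (T / 2 ^ J) T, f t ≤ ∫ t in G, f t :=
    setIntegral_mono_set hint (ae_of_all _ hf0)
      (LE.le.eventuallyLE inter_subset_left)
  have h6 : K * (T - 2 * Y) ≤ K * (T - T / 2 ^ J) := mul_le_mul_of_nonneg_left (by linarith) hK
  linarith

theorem zc (σ : ℝ) (hσ : σ ≤ 5 / 8) : Continuous fun t : ℝ => riemannZeta (σ + t * Complex.I) := by
  rw [continuous_iff_continuousAt]
  intro t
  have h : (σ : ℂ) + t * Complex.I ≠ 1 := by
    intro h
    have h1 := congrArg Complex.re h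
    simp at h1
    linarith
  have hc : Continuous fun t : ℝ => (σ : ℂ) + t * Complex.I := by fun_prop
  exact (differentiableAt_riemannZeta h).continuousAt.comp
    (f := fun t : ℝ => (σ : ℂ) + t * Complex.I) hc.continuousAt

theorem small (k : ℕ) (C σ : ℝ) (hσ1 : 1 / 2 ≤ σ) (hσ : σ ≤ 5 / 8) (hC : 1 ≤ C)
    (hB : ∀ σ t : ℝ, 1 / 2 ≤ σ → σ ≤ 5 / 8 → 0 ≤ t →
      ‖riemannZeta (σ + t * Complex.I)‖ ≤ C * (1 + t)) (Y a : ℝ) (hY : 1 ≤ Y) (ha : 0 ≤ a)
    (haY : a ≤ 2 * Y) :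
    ∫ t in Icc 0 a, ‖riemannZeta (σ + t * Complex.I)‖ ^ (2 * k) ≤
      2 * (3 * C) ^ (2 * k) * Y ^ (2 * k + 1) := by
  have h1 : ∀ t ∈ Icc 0 a, ‖‖riemannZeta (σ + t * Complex.I)‖ ^ (2 * k)‖ ≤
      (3 * C * Y) ^ (2 * k) := by
    intro t ht
    rw [norm_pow, norm_norm]
    refine pow_le_pow_left₀ (norm_nonneg _) ((hB σ t hσ1 hσ ht.1).trans ?_) _
    have h2 : 1 + t ≤ 3 * Y := by linarith [ht.2]
    calc C * (1 + t) ≤ C * (3 * Y) := mul_le_mul_of_nonneg_left h2 (by linarith)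
      _ = 3 * C * Y := by ring
  have h2 := norm_setIntegral_le_of_norm_le_const (μ := volume) (s := Icc 0 a)
    (by simp) h1
  have h3 : volume.real (Icc 0 a) = a := by
    rw [Real.volume_real_Icc_of_le ha, sub_zero]
  rw [h3] at h2
  have h4 : ∫ t in Icc 0 a, ‖riemannZeta (σ + t * Complex.I)‖ ^ (2 * k) ≤
      (3 * C * Y) ^ (2 * k) * a := (le_abs_self _).trans h2
  refine h4.trans ?_
  calc (3 * C * Y) ^ (2 * k) * a ≤ (3 * C * Y) ^ (2 * k) * (2 * Y) :=
        mul_le_mul_of_nonneg_left haY (by positivity)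
    _ = 2 * (3 * C) ^ (2 * k) * Y ^ (2 * k + 1) := by
        rw [mul_pow (3 * C) Y, pow_succ Y (2 * k)]
        ring

/-- The logarithms: `log U ≥ log T / R` and consequences. -/
theorem logU (T U R c c₁ η A A' : ℝ) (hT : 1 < T) (hU3 : 3 ≤ U) (hUT : U ≤ T)
    (hη : 0 < η) (hlog : Real.log T ≤ R * Real.log U) (hc : 0 < c) {W : ℝ} (hW : 1 ≤ W)
    (hcc : c * (R * W) ≤ c₁) (hA' : A' ≤ W * A)
    (h1 : A ≤ c * (η * Real.log T))
    (h2 : A ≤ c * (Real.log T / Real.log (Real.log T))) :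
    A' ≤ c₁ * (η * Real.log U) ∧ A' ≤ c₁ * (Real.log U / Real.log (Real.log U)) := by
  have hlT : 0 < Real.log T := Real.log_pos hT
  have hU0 : 0 < U := by linarith
  have hlU1 : 1 < Real.log U := by
    rw [Real.lt_log_iff_exp_lt hU0]
    have := Real.exp_one_lt_d9
    linarith
  have hlUT : Real.log U ≤ Real.log T := Real.log_le_log hU0 hUT
  have hllU : 0 < Real.log (Real.log U) := Real.log_pos hlU1
  have hllUT : Real.log (Real.log U) ≤ Real.log (Real.log T) :=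
    Real.log_le_log (by linarith) hlUT
  have hllT : 0 < Real.log (Real.log T) := by linarith
  constructor
  · calc A' ≤ W * A := hA'
      _ ≤ W * (c * (η * Real.log T)) := mul_le_mul_of_nonneg_left h1 (by linarith)
      _ ≤ W * (c * (η * (R * Real.log U))) := by
          refine mul_le_mul_of_nonneg_left ?_ (by linarith)
          refine mul_le_mul_of_nonneg_left ?_ hc.le
          exact mul_le_mul_of_nonneg_left hlog hη.le
      _ = c * (R * W) * (η * Real.log U) := by ring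
      _ ≤ c₁ * (η * Real.log U) := mul_le_mul_of_nonneg_right hcc (by positivity)
  · have e1 : Real.log T / Real.log (Real.log T) ≤ R * (Real.log U / Real.log (Real.log U)) := by
      calc Real.log T / Real.log (Real.log T) ≤ Real.log T / Real.log (Real.log U) :=
            div_le_div_of_nonneg_left hlT.le hllU hllUT
        _ ≤ (R * Real.log U) / Real.log (Real.log U) :=
            div_le_div_of_nonneg_right hlog hllU.le
        _ = R * (Real.log U / Real.log (Real.log U)) := by ring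
    have e2 : 0 ≤ Real.log U / Real.log (Real.log U) := by positivity
    calc A' ≤ W * A := hA'
      _ ≤ W * (c * (Real.log T / Real.log (Real.log T))) :=
          mul_le_mul_of_nonneg_left h2 (by linarith)
      _ ≤ W * (c * (R * (Real.log U / Real.log (Real.log U)))) := by
          refine mul_le_mul_of_nonneg_left ?_ (by linarith)
          exact mul_le_mul_of_nonneg_left e1 hc.le
      _ = c * (R * W) * (Real.log U / Real.log (Real.log U)) := by ring
      _ ≤ c₁ * (Real.log U / Real.log (Real.log U)) := mul_le_mul_of_nonneg_right hcc e2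

end AuxDyF

open AuxDyF in
/-- **Item DyF**: the formula on `[0,T]`. -/
theorem DyF_pf (h1 : S_HNF) (h2 : S_SSb) (h3 : S_DyI) (h4 : S_DyB) (h5 : S_DyS) : S_DyF := by
  intro k hk C₀ hC₀
  obtain ⟨c₁, C₁, T₁, hc₁, hC₁, hT₁, H1⟩ := h1 k hk C₀ (by linarith)
  obtain ⟨c₂, C₂, T₂, hc₂, hC₂, hT₂, H2⟩ := h1 k hk (C₀ / 2) (by linarith)
  obtain ⟨CS, hCS, HS⟩ := h2 k
  obtain ⟨CB, hCB, HB⟩ := h4
  obtain ⟨hI1, hI2, hI3⟩ := h3
  obtain ⟨n, hn⟩ : ∃ n : ℕ, n = 2 * k + 1 := ⟨_, rfl⟩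
  obtain ⟨R, hR⟩ : ∃ R : ℝ, R = ((2 * n : ℕ) : ℝ) := ⟨_, rfl⟩
  have hR2 : 2 ≤ R := by
    rw [hR]
    have : 2 ≤ 2 * n := by omega
    exact_mod_cast this
  have hlR : 0 ≤ Real.log R := Real.log_nonneg (by linarith)
  obtain ⟨W, hW⟩ : ∃ W : ℝ, W = 1 + C₀ * Real.log R := ⟨_, rfl⟩
  have hW1 : 1 ≤ W := by
    rw [hW]
    have : 0 ≤ C₀ * Real.log R := mul_nonneg (by linarith) hlR
    linarith
  obtain ⟨c, hc⟩ : ∃ c : ℝ, c = min (min c₁ c₂ / (R * W)) 1 := ⟨_, rfl⟩
  have hRW : 0 < R * W := by positivity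
  have hc0 : 0 < c := by
    rw [hc]
    exact lt_min (div_pos (lt_min hc₁ hc₂) hRW) one_pos
  have hcle1 : c ≤ 1 := hc ▸ min_le_right _ _
  have hcc : c * (R * W) ≤ min c₁ c₂ := by
    rw [← le_div_iff₀ hRW, hc]
    exact min_le_left _ _
  have hcc₁ : c * (R * W) ≤ c₁ := hcc.trans (min_le_left _ _)
  have hcc₂ : c * (2 * 1) ≤ c₂ := by
    refine le_trans ?_ (hcc.trans (min_le_right _ _))
    refine mul_le_mul_of_nonneg_left ?_ hc0.le
    exact mul_le_mul hR2 hW1 zero_le_one (by linarith)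
  obtain ⟨D, hD⟩ : ∃ D : ℝ, D = 2 * (3 * CB) ^ (2 * k) := ⟨_, rfl⟩
  have hD0 : 0 ≤ D := by
    rw [hD]
    positivity
  refine ⟨c, C₁ + C₂ + 2 + D, max (T₁ ^ (2 * n)) (T₂ ^ 2), hc0, by linarith, ?_, ?_⟩
  · refine le_trans ?_ (le_max_right _ _)
    nlinarith
  intro T hT σ A hσ hA hA1 hA2
  have hTT₁ : T₁ ^ (2 * n) ≤ T := (le_max_left _ _).trans hT
  have hTT₂ : T₂ ^ 2 ≤ T := (le_max_right _ _).trans hT
  have hT9 : 9 ≤ T := by nlinarith
  have hT0 : 0 < T := by linarith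
  have hlT : 0 < Real.log T := Real.log_pos (by linarith)
  have hη : 0 < σ - 1 / 2 := by
    by_contra hcon
    have e1 : (σ - 1 / 2) * Real.log T ≤ 0 :=
      mul_nonpos_of_nonpos_of_nonneg (not_lt.1 hcon) hlT.le
    have e2 : c * ((σ - 1 / 2) * Real.log T) ≤ 0 := mul_nonpos_of_nonneg_of_nonpos hc0.le e1
    linarith
  have eS : SS k (σ - 1 / 2) = ∑' n : ℕ, dk k n ^ 2 * (n : ℝ) ^ (-(2 * σ)) := by
    unfold SS
    refine tsum_congr fun n => ?_
    have : -(1 + 2 * (σ - 1 / 2)) = -(2 * σ) := by ring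
    rw [this]
  have hS1 : 1 ≤ SS k (σ - 1 / 2) := (HS _ hη (by linarith)).2.1
  obtain ⟨S, hS⟩ : ∃ S : ℝ, S = ∑' n : ℕ, dk k n ^ 2 * (n : ℝ) ^ (-(2 * σ)) := ⟨_, rfl⟩
  rw [eS, ← hS] at hS1
  rw [← hS]
  -- the two thresholds
  have hn0 : 2 * n ≠ 0 := by omega
  obtain ⟨Y, hY⟩ : ∃ Y : ℝ, Y = T ^ (((2 * n : ℕ) : ℝ)⁻¹) := ⟨_, rfl⟩
  have hY0 : 0 < Y := by
    rw [hY]
    exact Real.rpow_pos_of_pos hT0 _
  have hYp : Y ^ (2 * n) = T := by
    rw [hY]
    exact Real.rpow_inv_natCast_pow hT0.le hn0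
  have hYT₁ : T₁ ≤ Y := by
    have e1 : (T₁ ^ (2 * n)) ^ (((2 * n : ℕ) : ℝ)⁻¹) = T₁ :=
      Real.pow_rpow_inv_natCast (by linarith) hn0
    rw [hY, ← e1]
    exact Real.rpow_le_rpow (by positivity) hTT₁ (by positivity)
  have hlY : Real.log T = R * Real.log Y := by
    rw [← hYp, Real.log_pow, hR]
  obtain ⟨s, hs⟩ : ∃ s : ℝ, s = Y ^ n := ⟨_, rfl⟩
  have hs0 : 0 < s := by
    rw [hs]
    positivity
  have hss : s * s = T := by
    rw [hs, ← pow_add, ← hYp]
    congr 1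
    ring
  have hsT₂ : T₂ ≤ s := by
    by_contra hcon
    push Not at hcon
    nlinarith
  have hls : Real.log T = 2 * Real.log s := by
    rw [← hss, Real.log_mul hs0.ne' hs0.ne']
    ring
  -- the function
  obtain ⟨f, hf⟩ : ∃ f : ℝ → ℝ, f = fun t : ℝ => ‖riemannZeta (σ + t * Complex.I)‖ ^ (2 * k) :=
    ⟨_, rfl⟩
  have hfc : Continuous f := by
    rw [hf]
    exact (zc σ hσ).norm.pow _
  have hf0 : ∀ t, 0 ≤ f t := by
    intro t
    rw [hf]
    positivity
  obtain ⟨E, hE⟩ : ∃ E : ℝ, E = Real.exp (-(A / 400)) := ⟨_, rfl⟩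
  have hE0 : 0 < E := hE ▸ Real.exp_pos _
  have hG : MeasurableSet (G0 T A C₀) := hI1 T A C₀ (by linarith)
  have hGI : G0 T A C₀ ⊆ Icc 0 T := fun t ht => ⟨ht.1, ht.2.1⟩
  have hsE : s ≤ E * T := by
    have e1 : E * T = Real.exp (Real.log T - A / 400) := by
      rw [Real.exp_sub, Real.exp_log hT0, hE, Real.exp_neg]
      ring
    rw [e1, ← Real.log_le_iff_le_exp hs0]
    have e2 : A ≤ (1 / 8) * Real.log T := by
      calc A ≤ c * ((σ - 1 / 2) * Real.log T) := hA1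
        _ ≤ 1 * ((σ - 1 / 2) * Real.log T) := mul_le_mul_of_nonneg_right hcle1 (by positivity)
        _ ≤ 1 * ((1 / 8) * Real.log T) := by
            refine mul_le_mul_of_nonneg_left ?_ zero_le_one
            exact mul_le_mul_of_nonneg_right (by linarith) hlT.le
        _ = (1 / 8) * Real.log T := one_mul _
    linarith
  have hTS : 0 ≤ T * S := by positivity
  have hGGI : ∀ U A' C' : ℝ, GG U A' C' ⊆ Icc U (2 * U) := fun U A' C' t ht => ⟨ht.1, ht.2.1⟩
  have hfI : ∀ U A' C' : ℝ, IntegrableOn f (GG U A' C') := fun U A' C' =>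
    (hfc.integrableOn_Icc).mono_set (hGGI U A' C')
  -- upper bound
  have hup : ∫ t in G0 T A C₀, f t ≤ ((1 + C₁ * E) * S) * T + D * s := by
    refine upper_abs h5 f hfc hf0 (G0 T A C₀) T Y ((1 + C₁ * E) * S) (D * s) hG hGI hT0 hY0
      (by positivity) ?_ ?_
    · intro U hYU hUT
      have hU3 : 3 ≤ U := by linarith
      have hU0 : 0 < U := by linarith
      have hlog : Real.log T ≤ R * Real.log U := by
        rw [hlY]
        exact mul_le_mul_of_nonneg_left (Real.log_le_log hY0 hYU) (by linarith)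
      have hsub := hI3 T U A C₀ R (by linarith) hUT (by linarith) hlog (by linarith) (by linarith)
      obtain ⟨A', hA'⟩ : ∃ A' : ℝ, A' = A + C₀ * Real.log R := ⟨_, rfl⟩
      rw [← hA'] at hsub
      have hCl : 0 ≤ C₀ * Real.log R := mul_nonneg (by linarith) hlR
      have hAA' : A ≤ A' := by linarith
      have hA'W : A' ≤ W * A := by
        rw [hA', hW]
        nlinarith
      obtain ⟨q1, q2⟩ := logU T U R c c₁ (σ - 1 / 2) A A' (by linarith) hU3 (by linarith)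
        hη hlog hc0 hW1 hcc₁ hA'W hA1 hA2
      have hmain := H1 U (by linarith) σ A' hσ (by linarith) q1 q2
      rw [← hS] at hmain
      have h6 := (abs_le.1 hmain).2
      have h7 : Real.exp (-(A' / 200)) ≤ E := by
        rw [hE]
        exact Real.exp_le_exp.2 (by linarith)
      have h8 : ∫ t in G0 T A C₀ ∩ Icc U (2 * U), f t ≤ ∫ t in GG U A' C₀, f t :=
        setIntegral_mono_set (hfI U A' C₀) (ae_of_all _ hf0) (LE.le.eventuallyLE hsub)
      have h9 : C₁ * Real.exp (-(A' / 200)) * (U * S) ≤ C₁ * E * (U * S) :=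
        mul_le_mul_of_nonneg_right (mul_le_mul_of_nonneg_left h7 (by linarith)) (by positivity)
      refine h8.trans ?_
      rw [hf]
      calc ∫ t in GG U A' C₀, ‖riemannZeta (σ + t * Complex.I)‖ ^ (2 * k)
          ≤ U * S + C₁ * E * (U * S) := by linarith
        _ = (1 + C₁ * E) * S * U := by ring
    · intro a ha haY
      rw [hf, hD, hs, hn]
      exact small k CB σ (by linarith) hσ hCB HB Y a (by linarith) ha haY
  -- lower bound
  have hlow : ∀ K : ℝ, K = (1 - C₂ * E) * S → 2 ≤ A → 0 ≤ K →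
      K * (T - 2 * s) ≤ ∫ t in G0 T A C₀, f t := by
    intro K hK hA2' hK0
    refine lower_abs h5 f hfc hf0 (G0 T A C₀) T s K hG hGI hT0 hs0 hK0 ?_
    intro U hsU hUT
    have hU3 : 3 ≤ U := by linarith
    have hU0 : 0 < U := by linarith
    have hlog : Real.log T ≤ 2 * Real.log U := by
      rw [hls]
      exact mul_le_mul_of_nonneg_left (Real.log_le_log hs0 hsU) (by norm_num)
    have hsub := hI2 T U A C₀ (by linarith) hUT hlog (by linarith) (by linarith)
    obtain ⟨q1, q2⟩ := logU T U 2 c c₂ (σ - 1 / 2) A (A / 2) (by linarith) hU3 (by linarith)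
      hη hlog hc0 (le_refl (1 : ℝ)) hcc₂ (by linarith) hA1 hA2
    have hmain := H2 U (by linarith) σ (A / 2) hσ (by linarith) q1 q2
    rw [← hS] at hmain
    have h6 := (abs_le.1 hmain).1
    have h7 : Real.exp (-(A / 2 / 200)) = E := by
      rw [hE]
      congr 1
      ring
    rw [h7] at h6
    have h8 : ∫ t in GG U (A / 2) (C₀ / 2), f t ≤ ∫ t in G0 T A C₀ ∩ Icc U (2 * U), f t :=
      setIntegral_mono_set ((hfc.integrableOn_Icc).mono_set inter_subset_right)
        (ae_of_all _ hf0) (LE.le.eventuallyLE (subset_inter hsub (hGGI U _ _)))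
    refine le_trans ?_ h8
    rw [hf, hK]
    calc (1 - C₂ * E) * S * U = U * S - C₂ * E * (U * S) := by ring
      _ ≤ ∫ t in GG U (A / 2) (C₀ / 2), ‖riemannZeta (σ + t * Complex.I)‖ ^ (2 * k) := by
        linarith
  have hint0 : 0 ≤ ∫ t in G0 T A C₀, f t := integral_nonneg_of_ae (ae_of_all _ hf0)
  rw [← hE]
  have hgoal : |(∫ t in G0 T A C₀, f t) - T * S| ≤ (C₁ + C₂ + 2 + D) * E * (T * S) := by
    have p1 : D * s ≤ D * (E * (T * S)) := by
      refine mul_le_mul_of_nonneg_left (hsE.trans ?_) hD0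
      calc E * T = E * (T * 1) := by ring
        _ ≤ E * (T * S) := by
          refine mul_le_mul_of_nonneg_left ?_ hE0.le
          exact mul_le_mul_of_nonneg_left hS1 hT0.le
    have pE : 0 ≤ E * (T * S) := by positivity
    have pC₁ : 0 ≤ C₁ * (E * (T * S)) := by positivity
    have pC₂ : 0 ≤ C₂ * (E * (T * S)) := by positivity
    have pD : 0 ≤ D * (E * (T * S)) := by positivity
    have e0 : (C₁ + C₂ + 2 + D) * E * (T * S) = C₁ * (E * (T * S)) + C₂ * (E * (T * S)) +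
        2 * (E * (T * S)) + D * (E * (T * S)) := by ring
    rw [e0, abs_le]
    constructor
    · rcases lt_or_ge A 2 with hA' | hA'
      · have e1 : 1 / 2 ≤ E := by
          rw [hE]
          have := Real.add_one_le_exp (-(A / 400))
          linarith
        have e2 : T * S ≤ 2 * (E * (T * S)) := by nlinarith
        linarith
      · rcases lt_or_ge (1 - C₂ * E) 0 with hneg | hpos
        · have e2 : T * S ≤ C₂ * (E * (T * S)) := by nlinarith
          linarith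
        · have e1 := hlow _ rfl hA' (mul_nonneg hpos (by linarith))
          have e2 : (1 - C₂ * E) * S * (T - 2 * s) =
              T * S - C₂ * (E * (T * S)) - 2 * ((1 - C₂ * E) * (S * s)) := by ring
          have e3 : (1 - C₂ * E) * (S * s) ≤ 1 * (E * (T * S)) := by
            refine mul_le_mul (by nlinarith) ?_ (by positivity) zero_le_one
            calc S * s ≤ S * (E * T) := mul_le_mul_of_nonneg_left hsE (by linarith)
              _ = E * (T * S) := by ring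
          linarith
    · have e1 : (1 + C₁ * E) * S * T = T * S + C₁ * (E * (T * S)) := by ring
      linarith
  rw [hf] at hgoal
  exact hgoal

end Pool.Agent.Work.MP_56b8f5_nt.HN
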