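import Pool.Agent.Work.MP_56b8f5_nt.HN.StmtsZ
import Pool.Agent.Work.MP_56b8f5_nt.HN.I_DyF
import Pool.Agent.Work.MP_56b8f5_nt.HN.I_Ap0

/-!
MP_56b8f5_nt, block HN, item ApZ (helper76): approximation of `ζ^k` in the mean square on `G0`.
-/

set_option autoImplicit false

open MeasureTheory Set Filter Topology

noncomputable section

namespace Pool.Agent.Work.MP_56b8f5_nt.HN

open Pool.Agent.Work.MP_56b8f5_nt.EM Pool.Agent.Work.MP_56b8f5_nt.WM Pool.Agent.Work.MP_56b8f5_nt.SH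
open Pool.Agent.Work.MP_56b8f5_nt.HZ

namespace AuxApZ

theorem upper_in (hS : S_DyS) (f : ℝ → ℝ) (hf : Continuous f) (hf0 : ∀ t, 0 ≤ f t) (G : Set ℝ)
    (T Y K D : ℝ) (hG : MeasurableSet G) (hGI : G ⊆ Icc 0 T) (hT : 0 < T) (hY : 0 < Y)
    (hK : 0 ≤ K)
    (h1 : ∀ U : ℝ, Y ≤ U → 2 * U ≤ T → ∫ t in G ∩ Icc U (2 * U), f t ≤ K * U)
    (h2 : ∫ t in G ∩ Icc 0 (2 * Y), f t ≤ D) :
    ∫ t in G, f t ≤ K * T + D := by
  obtain ⟨J, hJ1, hJ2⟩ := AuxDyF.dyadic T Y hY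
  have h3 := (hS f G T K hf hG hT J).1 fun j hj => h1 _ (hJ1 j hj) (AuxDyF.two_T T hT j)
  have ha : 0 ≤ T / 2 ^ J := by positivity
  have hsub : G ⊆ (G ∩ Icc 0 (T / 2 ^ J)) ∪ (G ∩ Ioc (T / 2 ^ J) T) := by
    intro t ht
    rcases le_or_gt t (T / 2 ^ J) with h | h
    · exact Or.inl ⟨ht, (hGI ht).1, h⟩
    · exact Or.inr ⟨ht, h, (hGI ht).2⟩
  have heq : G = (G ∩ Icc 0 (T / 2 ^ J)) ∪ (G ∩ Ioc (T / 2 ^ J) T) := by
    refine Subset.antisymm hsub ?_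
    rintro t (h | h)
    · exact h.1
    · exact h.1
  have hint : IntegrableOn f G := (hf.integrableOn_Icc).mono_set hGI
  have hdis : Disjoint (G ∩ Icc 0 (T / 2 ^ J)) (G ∩ Ioc (T / 2 ^ J) T) := by
    rw [Set.disjoint_left]
    rintro t h h'
    exact absurd h.2.2 (not_le.2 h'.2.1)
  have hsplit : ∫ t in G, f t =
      (∫ t in G ∩ Icc 0 (T / 2 ^ J), f t) + ∫ t in G ∩ Ioc (T / 2 ^ J) T, f t := by
    have := setIntegral_union hdis (hG.inter measurableSet_Ioc)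
      (hint.mono_set inter_subset_left) (hint.mono_set inter_subset_left) (μ := volume) (f := f)
    rw [← heq] at this
    exact this
  have h4 : ∫ t in G ∩ Icc 0 (T / 2 ^ J), f t ≤ ∫ t in G ∩ Icc 0 (2 * Y), f t :=
    setIntegral_mono_set ((hf.integrableOn_Icc).mono_set inter_subset_right) (ae_of_all _ hf0)
      (LE.le.eventuallyLE (inter_subset_inter_right _ (Icc_subset_Icc_right hJ2)))
  have h6 : K * (T - T / 2 ^ J) ≤ K * T := mul_le_mul_of_nonneg_left (by linarith) hK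
  rw [hsplit]
  linarith

theorem G0_low {T V A C : ℝ} (hV : 1 < V) (hVT : V ≤ T) (hlog : Real.log T ≤ 2 * Real.log V)
    (hA : 0 ≤ A) (hC : 0 ≤ C) : G0 T A C ∩ Icc 0 V ⊆ G0 V (A + C * Real.log 2) C := by
  rintro t ⟨⟨_, _, h2⟩, h3⟩
  refine ⟨h3.1, h3.2, fun ρ hρ hp0 hp1 => ?_⟩
  have hlV : 0 < Real.log V := Real.log_pos hV
  have hlVT : Real.log V ≤ Real.log T := Real.log_le_log (by linarith) hVT
  have habs : 0 ≤ |ρ.im - t| := abs_nonneg _
  have hpos : 0 ≤ |ρ.im - t| * Real.log V := mul_nonneg habs hlV.le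
  have hpos' : 0 ≤ |ρ.im - t| * Real.log T := mul_nonneg habs (by linarith)
  have hl2 : 0 ≤ Real.log 2 := Real.log_nonneg (by norm_num)
  have hlog1 : 0 ≤ Real.log (1 + |ρ.im - t| * Real.log V) := Real.log_nonneg (by linarith)
  rcases le_or_gt ρ.re (1 / 2) with h | h
  · have e1 : (ρ.re - 1 / 2) * Real.log V ≤ 0 :=
      mul_nonpos_of_nonpos_of_nonneg (by linarith) hlV.le
    have e2 : 0 ≤ C * Real.log 2 := mul_nonneg hC hl2
    have e3 : 0 ≤ C * Real.log (1 + |ρ.im - t| * Real.log V) := mul_nonneg hC hlog1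
    linarith
  · have e1 := h2 ρ hρ hp0 hp1
    have e2 : (ρ.re - 1 / 2) * Real.log V ≤ (ρ.re - 1 / 2) * Real.log T :=
      mul_le_mul_of_nonneg_left hlVT (by linarith)
    have e3 : Real.log (1 + |ρ.im - t| * Real.log T) ≤
        Real.log 2 + Real.log (1 + |ρ.im - t| * Real.log V) := by
      rw [← Real.log_mul (by norm_num) (by linarith)]
      apply Real.log_le_log (by linarith)
      have := mul_le_mul_of_nonneg_left hlog habs
      linarith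
    have e4 := mul_le_mul_of_nonneg_left e3 hC
    rw [mul_add] at e4
    linarith

theorem min_half {T U η : ℝ} (hU3 : 3 ≤ U) (hUT : U ≤ T) (hη : 0 < η)
    (hlog : Real.log T ≤ 2 * Real.log U) :
    min (η * Real.log T) (Real.log T / Real.log (Real.log T)) ≤
      2 * min (η * Real.log U) (Real.log U / Real.log (Real.log U)) := by
  have hU0 : 0 < U := by linarith
  have hlU1 : 1 < Real.log U := by
    rw [Real.lt_log_iff_exp_lt hU0]
    have := Real.exp_one_lt_d9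
    linarith
  have hlUT : Real.log U ≤ Real.log T := Real.log_le_log hU0 hUT
  have hllU : 0 < Real.log (Real.log U) := Real.log_pos hlU1
  have hllUT : Real.log (Real.log U) ≤ Real.log (Real.log T) :=
    Real.log_le_log (by linarith) hlUT
  have hq : Real.log T / Real.log (Real.log T) ≤ 2 * (Real.log U / Real.log (Real.log U)) := by
    calc Real.log T / Real.log (Real.log T) ≤ (2 * Real.log U) / Real.log (Real.log U) :=
          div_le_div₀ (by linarith) hlog hllU hllUT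
      _ = 2 * (Real.log U / Real.log (Real.log U)) := by ring
  have hη2 : η * Real.log T ≤ 2 * (η * Real.log U) := by
    have := mul_le_mul_of_nonneg_left hlog hη.le
    linarith
  rw [mul_min_of_nonneg _ _ (by norm_num : (0 : ℝ) ≤ 2)]
  exact min_le_min hη2 hq

theorem sq_tri (x y w : ℂ) : ‖x - y‖ ^ 2 ≤ 2 * ‖x - w‖ ^ 2 + 2 * ‖w - y‖ ^ 2 := by
  have h : ‖x - y‖ ≤ ‖x - w‖ + ‖w - y‖ := by
    have e : x - y = (x - w) + (w - y) := by ring
    rw [e]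
    exact norm_add_le _ _
  have h2 := pow_le_pow_left₀ (norm_nonneg _) h 2
  nlinarith [sq_nonneg (‖x - w‖ - ‖w - y‖)]

theorem split_int (x y w : ℝ → ℂ) (hx : Continuous x) (hy : Continuous y) (hw : Continuous w)
    (S : Set ℝ) (a b : ℝ) (hsub : S ⊆ Icc a b) :
    ∫ t in S, ‖x t - y t‖ ^ 2 ≤ 2 * (∫ t in S, ‖x t - w t‖ ^ 2) + 2 * ∫ t in S, ‖w t - y t‖ ^ 2 := by
  have i0 : IntegrableOn (fun t => ‖x t - y t‖ ^ 2) S :=
    (((hx.sub hy).norm.pow 2).integrableOn_Icc).mono_set hsub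
  have i1 : IntegrableOn (fun t => 2 * ‖x t - w t‖ ^ 2) S :=
    ((continuous_const.mul ((hx.sub hw).norm.pow 2)).integrableOn_Icc).mono_set hsub
  have i2 : IntegrableOn (fun t => 2 * ‖w t - y t‖ ^ 2) S :=
    ((continuous_const.mul ((hw.sub hy).norm.pow 2)).integrableOn_Icc).mono_set hsub
  have h1 : ∫ t in S, ‖x t - y t‖ ^ 2 ≤ ∫ t in S, (2 * ‖x t - w t‖ ^ 2 + 2 * ‖w t - y t‖ ^ 2) :=
    integral_mono i0 (i1.add i2) fun t => sq_tri (x t) (y t) (w t)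
  rw [integral_add i1 i2, integral_const_mul, integral_const_mul] at h1
  exact h1

theorem le_interval (g : ℝ → ℝ) (hg : Continuous g) (hg0 : ∀ t, 0 ≤ g t) (S : Set ℝ) (a b : ℝ)
    (hab : a ≤ b) (hsub : S ⊆ Icc a b) : ∫ t in S, g t ≤ ∫ t in a..b, g t := by
  rw [intervalIntegral.integral_of_le hab, ← integral_Icc_eq_integral_Ioc]
  exact setIntegral_mono_set hg.integrableOn_Icc (ae_of_all _ hg0) (LE.le.eventuallyLE hsub)

theorem two_sq {N : ℕ} {U : ℝ} (hU : 3 ≤ U) (h : (N : ℝ) ^ 100 ≤ U) : 2 * (N : ℝ) ^ 2 ≤ U := by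
  rcases Nat.lt_or_ge N 2 with h1 | h1
  · have : (N : ℝ) ≤ 1 := by exact_mod_cast (by omega : N ≤ 1)
    have h0 : (0 : ℝ) ≤ N := Nat.cast_nonneg _
    nlinarith
  · have h2 : (2 : ℝ) ≤ N := by exact_mod_cast h1
    calc 2 * (N : ℝ) ^ 2 ≤ N * (N : ℝ) ^ 2 := mul_le_mul_of_nonneg_right h2 (by positivity)
      _ = (N : ℝ) ^ 3 := by ring
      _ ≤ (N : ℝ) ^ 100 := pow_le_pow_right₀ (by linarith) (by norm_num)
      _ ≤ U := h

/-- `N = ⌊T^{1/200}⌋`: the bounds. -/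
theorem floor200 {T : ℝ} (hT : 1 ≤ T) :
    1 ≤ ⌊T ^ (1 / 200 : ℝ)⌋₊ ∧ ((⌊T ^ (1 / 200 : ℝ)⌋₊ : ℕ) : ℝ) ^ 100 ≤ Real.sqrt T ∧
      T ^ (1 / 200 : ℝ) ≤ 2 * ((⌊T ^ (1 / 200 : ℝ)⌋₊ : ℕ) : ℝ) := by
  have hT0 : 0 ≤ T := by linarith
  have h0 : 1 ≤ T ^ (1 / 200 : ℝ) := Real.one_le_rpow hT (by norm_num)
  have h1 : 1 ≤ ⌊T ^ (1 / 200 : ℝ)⌋₊ := (Nat.one_le_floor_iff _).2 h0
  refine ⟨h1, ?_, ?_⟩
  · calc ((⌊T ^ (1 / 200 : ℝ)⌋₊ : ℕ) : ℝ) ^ 100 ≤ (T ^ (1 / 200 : ℝ)) ^ 100 :=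
          pow_le_pow_left₀ (Nat.cast_nonneg _) (Nat.floor_le (by linarith)) 100
      _ = Real.sqrt T := by
          rw [← Real.rpow_natCast, ← Real.rpow_mul hT0, Real.sqrt_eq_rpow]
          norm_num
  · have h2 := Nat.lt_floor_add_one (T ^ (1 / 200 : ℝ))
    have h3 : (1 : ℝ) ≤ ((⌊T ^ (1 / 200 : ℝ)⌋₊ : ℕ) : ℝ) := by exact_mod_cast h1
    linarith

/-- `N^{-η} ≤ 2 exp(-η log T/200)`. -/
theorem rpow_neg_le {T η : ℝ} {N : ℕ} (hT : 1 ≤ T) (hη : 0 < η) (hη1 : η ≤ 1) (hN : 1 ≤ N)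
    (h : T ^ (1 / 200 : ℝ) ≤ 2 * (N : ℝ)) :
    (N : ℝ) ^ (-η) ≤ 2 * Real.exp (-(η * Real.log T / 200)) := by
  have hT0 : 0 < T := by linarith
  have hN0 : (0 : ℝ) < N := by exact_mod_cast (by omega : 0 < N)
  have h1 : T ^ (1 / 200 : ℝ) / 2 ≤ N := by linarith
  have hp : 0 < T ^ (1 / 200 : ℝ) := Real.rpow_pos_of_pos hT0 _
  have h2 : (N : ℝ) ^ (-η) ≤ (T ^ (1 / 200 : ℝ) / 2) ^ (-η) :=
    Real.rpow_le_rpow_of_nonpos (by positivity) h1 (by linarith)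
  have h3 : (T ^ (1 / 200 : ℝ) / 2) ^ (-η) = (T ^ (1 / 200 : ℝ)) ^ (-η) * 2 ^ η := by
    rw [Real.div_rpow hp.le (by norm_num), Real.rpow_neg (by norm_num : (0 : ℝ) ≤ 2), div_inv_eq_mul]
  have h4 : (T ^ (1 / 200 : ℝ)) ^ (-η) = Real.exp (-(η * Real.log T / 200)) := by
    rw [← Real.rpow_mul hT0.le, Real.rpow_def_of_pos hT0]
    congr 1
    ring
  have h5 : (2 : ℝ) ^ η ≤ 2 := by
    calc (2 : ℝ) ^ η ≤ 2 ^ (1 : ℝ) := Real.rpow_le_rpow_of_exponent_le (by norm_num) hη1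
      _ = 2 := Real.rpow_one 2
  rw [h3, h4] at h2
  have h6 := mul_le_mul_of_nonneg_left h5 (Real.exp_pos (-(η * Real.log T / 200))).le
  linarith

end AuxApZ

open AuxApZ in
/-- **Item ApZ.** -/
theorem ApZ_pf (h1 : S_ApK) (h2 : S_DKd) (h3 : S_DyI) (h4 : S_DyS) (h5 : S_DyF) : S_ApZ := by
  intro k hk C₀ hC₀
  obtain ⟨c₁, C₁, T₁, hc₁, hC₁, hT₁, H1⟩ := h1 k hk C₀ (by linarith)
  obtain ⟨c₂, C₂, T₂, hc₂, hC₂, hT₂, H2⟩ := h5 k hk C₀ hC₀
  obtain ⟨CD, hCD, HD⟩ := h2 k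
  obtain ⟨hI1, -, hI3⟩ := h3
  have hl2 : 0 ≤ Real.log 2 := Real.log_nonneg (by norm_num)
  obtain ⟨W, hW⟩ : ∃ W : ℝ, W = 1 + C₀ * Real.log 2 := ⟨_, rfl⟩
  have hCl : 0 ≤ C₀ * Real.log 2 := mul_nonneg (by linarith) hl2
  have hW1 : 1 ≤ W := by
    rw [hW]
    linarith
  obtain ⟨c, hc⟩ : ∃ c : ℝ, c = min (min c₁ c₂ / (2 * W)) (1 / 200) := ⟨_, rfl⟩
  have h2W : 0 < 2 * W := by positivity
  have hc0 : 0 < c := by
    rw [hc]
    exact lt_min (div_pos (lt_min hc₁ hc₂) h2W) (by norm_num)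
  have hcle : c ≤ 1 / 200 := hc ▸ min_le_right _ _
  have hcc : c * (2 * W) ≤ min c₁ c₂ := by
    rw [← le_div_iff₀ h2W, hc]
    exact min_le_left _ _
  have hcc₁ : c * (2 * W) ≤ c₁ := hcc.trans (min_le_left _ _)
  have hcc₂ : c * (2 * W) ≤ c₂ := hcc.trans (min_le_right _ _)
  refine ⟨c, 2 * C₁ + 8 * CD + 12 + 4 * C₂, max (T₁ ^ 2) (T₂ ^ 2), hc0, by linarith, ?_, ?_⟩
  · refine le_trans ?_ (le_max_right _ _)
    nlinarith
  intro T hT σ A hσ hA hA1 hA2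
  have hTT₁ : T₁ ^ 2 ≤ T := (le_max_left _ _).trans hT
  have hTT₂ : T₂ ^ 2 ≤ T := (le_max_right _ _).trans hT
  have hT9 : 9 ≤ T := by nlinarith
  have hT0 : 0 < T := by linarith
  have hlT : 0 < Real.log T := Real.log_pos (by linarith)
  have hη : 0 < σ - 1 / 2 := by
    by_contra hcon
    have e1 : (σ - 1 / 2) * Real.log T ≤ 0 :=
      mul_nonpos_of_nonpos_of_nonneg (not_lt.1 hcon) hlT.le
    have e2 : c * ((σ - 1 / 2) * Real.log T) ≤ 0 := mul_nonpos_of_nonneg_of_nonpos hc0.le e1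
    linarith
  have hη8 : σ - 1 / 2 ≤ 1 / 8 := by linarith
  have eS : SS k (σ - 1 / 2) = ∑' n : ℕ, dk k n ^ 2 * (n : ℝ) ^ (-(2 * σ)) := by
    unfold SS
    refine tsum_congr fun n => ?_
    have : -(1 + 2 * (σ - 1 / 2)) = -(2 * σ) := by ring
    rw [this]
  obtain ⟨S, hS⟩ : ∃ S : ℝ, S = ∑' n : ℕ, dk k n ^ 2 * (n : ℝ) ^ (-(2 * σ)) := ⟨_, rfl⟩
  have hS0 : 0 ≤ S := by
    rw [hS]
    exact tsum_nonneg fun n => mul_nonneg (sq_nonneg _) (Real.rpow_nonneg (Nat.cast_nonneg _) _)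
  rw [← hS] at eS
  rw [← hS]
  obtain ⟨η, hηd⟩ : ∃ η : ℝ, η = σ - 1 / 2 := ⟨_, rfl⟩
  rw [← hηd] at hη hη8 eS hA1
  rw [← hηd]
  -- the square root
  obtain ⟨Y, hY⟩ : ∃ Y : ℝ, Y = Real.sqrt T := ⟨_, rfl⟩
  have hY0 : 0 < Y := hY ▸ Real.sqrt_pos.2 hT0
  have hYY : Y * Y = T := by
    rw [hY]
    exact Real.mul_self_sqrt hT0.le
  have hYT₁ : T₁ ≤ Y := by
    by_contra hcon
    push Not at hcon
    nlinarith
  have hYT₂ : T₂ ≤ Y := by
    by_contra hcon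
    push Not at hcon
    nlinarith
  have hlY : Real.log T = 2 * Real.log Y := by
    rw [← hYY, Real.log_mul hY0.ne' hY0.ne']
    ring
  have hY3 : 3 ≤ Y := by linarith
  -- the length
  obtain ⟨hN1, hN2, hN3⟩ := floor200 (by linarith : (1 : ℝ) ≤ T)
  obtain ⟨N, hN⟩ : ∃ N : ℕ, N = ⌊T ^ (1 / 200 : ℝ)⌋₊ := ⟨_, rfl⟩
  rw [← hN] at hN1 hN2 hN3
  rw [← hY] at hN2
  have es : ∀ t : ℝ, sp η t = (σ : ℂ) + t * Complex.I := by
    intro t
    unfold sp
    rw [hηd]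
    congr 2
    ring
  have eP : ∀ t : ℝ, PZ k T σ t = DK k N η t := by
    intro t
    unfold PZ DK Ds
    rw [es t, hN]
  -- the main parameters
  obtain ⟨M, hM⟩ : ∃ M : ℝ, M = min (η * Real.log T) (Real.log T / Real.log (Real.log T)) :=
    ⟨_, rfl⟩
  rw [← hM]
  have hllT : 0 < Real.log (Real.log T) := by
    apply Real.log_pos
    rw [Real.lt_log_iff_exp_lt hT0]
    have := Real.exp_one_lt_d9
    linarith
  have hM0 : 0 ≤ M := by
    rw [hM]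
    exact le_min (by positivity) (by positivity)
  have hMX : M ≤ η * Real.log T := hM ▸ min_le_left _ _
  obtain ⟨E, hE⟩ : ∃ E : ℝ, E = Real.exp (-(c * M)) := ⟨_, rfl⟩
  have hE0 : 0 < E := hE ▸ Real.exp_pos _
  rw [← hE]
  have hcM : c * M ≤ η * Real.log T / 200 := by
    calc c * M ≤ (1 / 200) * (η * Real.log T) := mul_le_mul hcle hMX hM0 (by norm_num)
      _ = η * Real.log T / 200 := by ring
  have hNη : (N : ℝ) ^ (-η) ≤ 2 * E := by
    refine (rpow_neg_le (by linarith) hη (by linarith) hN1 hN3).trans ?_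
    rw [hE]
    have := Real.exp_le_exp.2 (neg_le_neg hcM)
    linarith
  have hYE : Y ≤ E * T := by
    have e1 : E * T = Real.exp (Real.log T - c * M) := by
      rw [Real.exp_sub, Real.exp_log hT0, hE, Real.exp_neg]
      ring
    rw [e1, ← Real.log_le_iff_le_exp hY0]
    have e2 : η * Real.log T ≤ (1 / 8) * Real.log T := mul_le_mul_of_nonneg_right hη8 hlT.le
    linarith
  -- the functions
  obtain ⟨z, hz⟩ : ∃ z : ℝ → ℂ, z = fun t : ℝ => riemannZeta (σ + t * Complex.I) ^ k := ⟨_, rfl⟩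
  have hzc : Continuous z := by
    rw [hz]
    exact (AuxDyF.zc σ hσ).pow _
  have hDc : ∀ N' : ℕ, Continuous fun t : ℝ => DK k N' η t := fun N' =>
    AuxAp0.cont_Ds N' (fun n => (dk k n : ℂ)) η
  obtain ⟨P, hP⟩ : ∃ P : ℝ → ℂ, P = fun t : ℝ => DK k N η t := ⟨_, rfl⟩
  have hPc : Continuous P := by
    rw [hP]
    exact hDc N
  have hfc : Continuous fun t : ℝ => ‖z t - P t‖ ^ 2 := (hzc.sub hPc).norm.pow 2
  have hgoal : ∀ t : ℝ, ‖riemannZeta (σ + t * Complex.I) ^ k - PZ k T σ t‖ ^ 2 =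
      ‖z t - P t‖ ^ 2 := by
    intro t
    rw [eP t, hz, hP]
  simp only [hgoal]
  have hG : MeasurableSet (G0 T A C₀) := hI1 T A C₀ (by linarith)
  have hGI : G0 T A C₀ ⊆ Icc 0 T := fun t ht => ⟨ht.1, ht.2.1⟩
  obtain ⟨A', hA'⟩ : ∃ A' : ℝ, A' = A + C₀ * Real.log 2 := ⟨_, rfl⟩
  have hAA' : A ≤ A' := by linarith
  have hA'W : A' ≤ W * A := by
    rw [hA', hW]
    nlinarith
  have hmain := upper_in h4 (fun t : ℝ => ‖z t - P t‖ ^ 2) hfc (fun t => sq_nonneg _)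
    (G0 T A C₀) T Y ((2 * C₁ + 8 * CD) * (E * S)) ((12 + 4 * C₂) * (Y * S)) hG hGI hT0 hY0
    (by positivity) ?_ ?_
  · refine hmain.trans ?_
    have e1 : Y * S ≤ E * T * S := mul_le_mul_of_nonneg_right hYE hS0
    have e2 := mul_le_mul_of_nonneg_left e1 (by linarith : (0 : ℝ) ≤ 12 + 4 * C₂)
    calc (2 * C₁ + 8 * CD) * (E * S) * T + (12 + 4 * C₂) * (Y * S)
        ≤ (2 * C₁ + 8 * CD) * (E * S) * T + (12 + 4 * C₂) * (E * T * S) := by linarith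
      _ = (2 * C₁ + 8 * CD + 12 + 4 * C₂) * E * (T * S) := by ring
  · -- the blocks
    intro U hYU hUT
    have hU3 : 3 ≤ U := by linarith
    have hU0 : 0 < U := by linarith
    have hlog : Real.log T ≤ 2 * Real.log U := by
      rw [hlY]
      exact mul_le_mul_of_nonneg_left (Real.log_le_log hY0 hYU) (by norm_num)
    have hsub := hI3 T U A C₀ 2 (by linarith) hUT (by norm_num) hlog (by linarith) (by linarith)
    rw [← hA'] at hsub
    obtain ⟨q1, q2⟩ := AuxDyF.logU T U 2 c c₁ η A A' (by linarith) hU3 (by linarith)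
      hη hlog hc0 hW1 hcc₁ hA'W hA1 hA2
    obtain ⟨hU1, hU2⟩ := AuxAp0.floor_bounds hU0.le
    obtain ⟨N', hN'⟩ : ∃ N' : ℕ, N' = ⌊U ^ (1 / 100 : ℝ)⌋₊ := ⟨_, rfl⟩
    rw [← hN'] at hU1 hU2
    have hNN' : N ≤ N' := by
      rw [hN, hN']
      apply Nat.floor_le_floor
      calc T ^ (1 / 200 : ℝ) = Y ^ (1 / 100 : ℝ) := by
            rw [hY, Real.sqrt_eq_rpow, ← Real.rpow_mul hT0.le]
            norm_num
        _ ≤ U ^ (1 / 100 : ℝ) := Real.rpow_le_rpow hY0.le hYU (by norm_num)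
    have a1 := H1 U (by linarith) η A' hη8 (by linarith) q1 q2 N' (by linarith) hU2
    have a2 := (HD η hη hη8 U (2 * U) N N' (by linarith) hN1 hNN').1
    have hzz : ∀ t : ℝ, riemannZeta (sp η t) ^ k = z t := by
      intro t
      rw [es t, hz]
    simp only [hzz] at a1
    rw [eS] at a1 a2
    have hGG : GG U A' C₀ ⊆ Icc U (2 * U) := fun t ht => ⟨ht.1, ht.2.1⟩
    have b0 := split_int z P (fun t => DK k N' η t) hzc hPc (hDc N')
      (G0 T A C₀ ∩ Icc U (2 * U)) U (2 * U) inter_subset_right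
    have b1 : ∫ t in G0 T A C₀ ∩ Icc U (2 * U), ‖z t - DK k N' η t‖ ^ 2 ≤
        ∫ t in GG U A' C₀, ‖z t - DK k N' η t‖ ^ 2 :=
      setIntegral_mono_set ((((hzc.sub (hDc N')).norm.pow 2).integrableOn_Icc).mono_set hGG)
        (ae_of_all _ fun t => sq_nonneg _) (LE.le.eventuallyLE hsub)
    have b2 : ∫ t in G0 T A C₀ ∩ Icc U (2 * U), ‖DK k N' η t - P t‖ ^ 2 ≤
        ∫ t in U..(2 * U), ‖DK k N' η t - DK k N η t‖ ^ 2 := by
      have := le_interval (fun t => ‖DK k N' η t - P t‖ ^ 2) (((hDc N').sub hPc).norm.pow 2)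
        (fun t => sq_nonneg _) (G0 T A C₀ ∩ Icc U (2 * U)) U (2 * U) (by linarith)
        inter_subset_right
      rw [hP] at this ⊢
      exact this
    have b3 : C₁ * Real.exp (-(c₁ * min (η * Real.log U) (Real.log U / Real.log (Real.log U)))) *
        (U * S) ≤ C₁ * E * (U * S) := by
      refine mul_le_mul_of_nonneg_right (mul_le_mul_of_nonneg_left ?_ (by linarith))
        (by positivity)
      rw [hE]
      apply Real.exp_le_exp.2
      have e1 := min_half hU3 (by linarith : U ≤ T) hη hlog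
      rw [← hM] at e1
      have hmin0 : 0 ≤ min (η * Real.log U) (Real.log U / Real.log (Real.log U)) := by linarith
      have e2 := mul_le_mul_of_nonneg_left e1 hc0.le
      have e3 : c * 2 ≤ c₁ := by
        refine le_trans ?_ hcc₁
        refine mul_le_mul_of_nonneg_left ?_ hc0.le
        linarith
      have e4 := mul_le_mul_of_nonneg_right e3 hmin0
      linarith
    have b4 : (2 * U - U + 2 * (N' : ℝ) ^ 2) * (CD * (N : ℝ) ^ (-η) * S) ≤
        (2 * U) * (CD * (2 * E) * S) := by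
      have e1 := two_sq hU3 hU1
      have e2 : CD * (N : ℝ) ^ (-η) * S ≤ CD * (2 * E) * S :=
        mul_le_mul_of_nonneg_right (mul_le_mul_of_nonneg_left hNη (by linarith)) hS0
      have e3 : 0 ≤ CD * (N : ℝ) ^ (-η) * S := by positivity
      exact mul_le_mul (by linarith) e2 e3 (by linarith)
    calc ∫ t in G0 T A C₀ ∩ Icc U (2 * U), ‖z t - P t‖ ^ 2
        ≤ 2 * (C₁ * E * (U * S)) + 2 * ((2 * U) * (CD * (2 * E) * S)) := by linarith
      _ = (2 * C₁ + 8 * CD) * (E * S) * U := by ring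
  · -- the rest
    have hlV2 : Real.log (2 * Y) = Real.log 2 + Real.log Y :=
      Real.log_mul (by norm_num) hY0.ne'
    have hlV : Real.log T ≤ 2 * Real.log (2 * Y) := by
      rw [hlY, hlV2]
      linarith
    have hVT : 2 * Y ≤ T := by nlinarith
    have hsub := G0_low (A := A) (C := C₀) (by linarith : (1 : ℝ) < 2 * Y) hVT hlV (by linarith)
      (by linarith)
    rw [← hA'] at hsub
    obtain ⟨q1, q2⟩ := AuxDyF.logU T (2 * Y) 2 c c₂ η A A' (by linarith) (by linarith) hVT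
      hη hlV hc0 hW1 hcc₂ hA'W hA1 hA2
    have a1 := H2 (2 * Y) (by linarith) σ A' hσ (by linarith) (by rw [← hηd]; exact q1) q2
    rw [← hS] at a1
    have a2 := (HD η hη hη8 0 (2 * Y) N N (by linarith) hN1 le_rfl).2
    rw [eS] at a2
    have b0 := split_int z P (fun _ => 0) hzc hPc continuous_const
      (G0 T A C₀ ∩ Icc 0 (2 * Y)) 0 (2 * Y) inter_subset_right
    have hGI' : G0 (2 * Y) A' C₀ ⊆ Icc 0 (2 * Y) := fun t ht => ⟨ht.1, ht.2.1⟩
    have hzf : ∀ t : ℝ, ‖z t - 0‖ ^ 2 = ‖riemannZeta (σ + t * Complex.I)‖ ^ (2 * k) := by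
      intro t
      rw [sub_zero, hz, norm_pow, ← pow_mul, mul_comm k 2]
    have hPf : ∀ t : ℝ, ‖(0 : ℂ) - P t‖ ^ 2 = ‖DK k N η t‖ ^ 2 := by
      intro t
      rw [zero_sub, norm_neg, hP]
    simp only [hzf, hPf] at b0
    have b1 : ∫ t in G0 T A C₀ ∩ Icc 0 (2 * Y), ‖riemannZeta (σ + t * Complex.I)‖ ^ (2 * k) ≤
        ∫ t in G0 (2 * Y) A' C₀, ‖riemannZeta (σ + t * Complex.I)‖ ^ (2 * k) :=
      setIntegral_mono_set (((((AuxDyF.zc σ hσ).norm.pow _).integrableOn_Icc)).mono_set hGI')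
        (ae_of_all _ fun t => by positivity) (LE.le.eventuallyLE hsub)
    have b2 : ∫ t in G0 T A C₀ ∩ Icc 0 (2 * Y), ‖DK k N η t‖ ^ 2 ≤
        ∫ t in (0 : ℝ)..(2 * Y), ‖DK k N η t‖ ^ 2 :=
      le_interval (fun t => ‖DK k N η t‖ ^ 2) ((hDc N).norm.pow 2)
        (fun t => sq_nonneg _) (G0 T A C₀ ∩ Icc 0 (2 * Y)) 0 (2 * Y) (by linarith)
        inter_subset_right
    have b3 : C₂ * Real.exp (-(A' / 400)) * (2 * Y * S) ≤ C₂ * 1 * (2 * Y * S) := by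
      refine mul_le_mul_of_nonneg_right (mul_le_mul_of_nonneg_left ?_ (by linarith))
        (by positivity)
      rw [Real.exp_le_one_iff]
      linarith
    have b4 : (2 * Y - 0 + 2 * (N : ℝ) ^ 2) * S ≤ (4 * Y) * S := by
      have e1 := two_sq hY3 hN2
      exact mul_le_mul_of_nonneg_right (by linarith) hS0
    have b5 := (abs_le.1 a1).2
    calc ∫ t in G0 T A C₀ ∩ Icc 0 (2 * Y), ‖z t - P t‖ ^ 2
        ≤ 2 * (2 * Y * S + C₂ * 1 * (2 * Y * S)) + 2 * (4 * Y * S) := by linarith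
      _ = (12 + 4 * C₂) * (Y * S) := by ring

end Pool.Agent.Work.MP_56b8f5_nt.HN
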