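import Pool.Agent.Work.MP_56b8f5_nt.HN.StmtsZ
import Pool.Agent.Work.MP_56b8f5_nt.HN.I_DyF

/-!
MP_56b8f5_nt, block HN, item CpZ: the exceptional set carries little of the mean square of `PZ`.
-/

set_option autoImplicit false

open MeasureTheory Set Filter Topology

noncomputable section

namespace Pool.Agent.Work.MP_56b8f5_nt.HN

open Pool.Agent.Work.MP_56b8f5_nt.EM Pool.Agent.Work.MP_56b8f5_nt.WM Pool.Agent.Work.MP_56b8f5_nt.SH
open Pool.Agent.Work.MP_56b8f5_nt.HZ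

namespace AuxCpZ

theorem DK_eq (k N : ℕ) (η t : ℝ) :
    DK k N η t = De N (fun n => if 1 ≤ n ∧ n ≤ N then dk k n * (n : ℝ) ^ (-η) else 0) t := by
  unfold DK De Ds
  refine Finset.sum_congr rfl fun n hn => ?_
  rw [Finset.mem_Icc] at hn
  have hn0 : (n : ℂ) ≠ 0 := Nat.cast_ne_zero.2 (by omega)
  have e : (n : ℂ) ^ (-sp η t) = (((n : ℝ) ^ (-η) : ℝ) : ℂ) * (n : ℂ) ^ (-(1 / 2 + t * Complex.I)) := by
    rw [Complex.ofReal_cpow (by positivity), Complex.ofReal_natCast, ← Complex.cpow_add _ _ hn0]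
    congr 1
    unfold sp
    push_cast
    ring
  show (dk k n : ℂ) * (n : ℂ) ^ (-sp η t) =
    ((if 1 ≤ n ∧ n ≤ N then dk k n * (n : ℝ) ^ (-η) else 0 : ℝ) : ℂ) * _
  rw [if_pos hn, e, Complex.ofReal_mul]
  ring

theorem PZ_eq (k : ℕ) (T σ t : ℝ) :
    PZ k T σ t = DK k ⌊T ^ (1 / 200 : ℝ)⌋₊ (σ - 1 / 2) t := by
  unfold PZ DK Ds
  refine Finset.sum_congr rfl fun n _ => ?_
  have : sp (σ - 1 / 2) t = (σ : ℂ) + t * Complex.I := by
    unfold sp
    congr 2
    ring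
  rw [this]

theorem cont_De (N : ℕ) (q : ℕ → ℝ) : Continuous fun t : ℝ => De N q t := by
  unfold De Ds
  refine continuous_finsetSum _ fun n hn => ?_
  have hn1 : (n : ℂ) ≠ 0 := by
    have := (Finset.mem_Icc.1 hn).1
    exact_mod_cast (by omega : n ≠ 0)
  have h1 : Continuous fun t : ℝ => -((1 : ℂ) / 2 + t * Complex.I) := by
    fun_prop
  exact continuous_const.mul (h1.const_cpow (Or.inl hn1))

theorem GG_mono {T A C C' : ℝ} (hT : 1 ≤ T) (hC : C ≤ C') : GG T A C ⊆ GG T A C' := by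
  intro t ht
  refine ⟨ht.1, ht.2.1, fun ρ h1 h2 h3 => (ht.2.2 ρ h1 h2 h3).trans ?_⟩
  have hL : 0 ≤ Real.log T := Real.log_nonneg hT
  have h4 : 0 ≤ Real.log (1 + |ρ.im - t| * Real.log T) :=
    Real.log_nonneg (by nlinarith [mul_nonneg (abs_nonneg (ρ.im - t)) hL])
  nlinarith [mul_le_mul_of_nonneg_right hC h4]

theorem dk_nonneg (k n : ℕ) : 0 ≤ dk k n := by
  unfold dk
  positivity

theorem isDk (k N : ℕ) (η U : ℝ) (h1 : 1 ≤ N) (h2 : (N : ℝ) ^ 100 ≤ U) :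
    IsDk k η U N (fun n => if 1 ≤ n ∧ n ≤ N then dk k n * (n : ℝ) ^ (-η) else 0) where
  nonneg n := by
    show 0 ≤ (if 1 ≤ n ∧ n ≤ N then dk k n * (n : ℝ) ^ (-η) else 0)
    split_ifs
    · exact mul_nonneg (dk_nonneg k n) (Real.rpow_nonneg (Nat.cast_nonneg n) _)
    · exact le_rfl
  le n := by
    show (if 1 ≤ n ∧ n ≤ N then dk k n * (n : ℝ) ^ (-η) else 0) ≤ _
    split_ifs
    · exact le_rfl
    · exact mul_nonneg (dk_nonneg k n) (Real.rpow_nonneg (Nat.cast_nonneg n) _)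
  supp n hn := by
    by_contra h
    exact hn (if_neg h)
  one := h1
  len := h2

theorem floor_bounds {T s : ℝ} (hT : 1 ≤ T) (hs : 0 < s) (hss : s * s = T) :
    1 ≤ ⌊T ^ (1 / 200 : ℝ)⌋₊ ∧ ((⌊T ^ (1 / 200 : ℝ)⌋₊ : ℕ) : ℝ) ^ 100 ≤ s ∧
      ((⌊T ^ (1 / 200 : ℝ)⌋₊ : ℕ) : ℝ) ^ 2 ≤ s := by
  have h1 : 1 ≤ T ^ (1 / 200 : ℝ) := Real.one_le_rpow hT (by norm_num)
  have h2 : 1 ≤ ⌊T ^ (1 / 200 : ℝ)⌋₊ := by
    rw [Nat.one_le_floor_iff]
    exact h1
  have h3 : (T ^ (1 / 200 : ℝ)) ^ 100 = s := by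
    have e1 : T = s ^ (2 : ℝ) := by
      rw [← hss]
      norm_cast
      ring
    rw [← Real.rpow_natCast, ← Real.rpow_mul (by linarith), e1, ← Real.rpow_mul hs.le]
    norm_num
  have h4 : ((⌊T ^ (1 / 200 : ℝ)⌋₊ : ℕ) : ℝ) ^ 100 ≤ s := by
    rw [← h3]
    exact pow_le_pow_left₀ (Nat.cast_nonneg _) (Nat.floor_le (by linarith)) 100
  refine ⟨h2, h4, le_trans ?_ h4⟩
  have h5 : (1 : ℝ) ≤ ((⌊T ^ (1 / 200 : ℝ)⌋₊ : ℕ) : ℝ) := by exact_mod_cast h2
  exact pow_le_pow_right₀ h5 (by norm_num)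

end AuxCpZ

open AuxCpZ in
/-- **Item CpZ**: the exceptional set carries little of the mean square of `PZ`. -/
theorem CpZ_pf (h1 : S_CmN) (h2 : S_DKd) (h3 : S_DyI) (h4 : S_DyS) (h5 : S_SSb) : S_CpZ := by
  intro k hk
  obtain ⟨C₁, T₁, hC₁, hT₁, H1⟩ := h1 k
  obtain ⟨CD, hCD, H2⟩ := h2 k
  obtain ⟨CS, hCS, HS⟩ := h5 k
  obtain ⟨hI1, hI2, hI3⟩ := h3
  refine ⟨C₁ + 6, T₁ ^ 2, by linarith, by nlinarith, ?_⟩
  intro C₀ hC₀ T hT σ A hσ0 hσ hA hAL
  have hT9 : 9 ≤ T := by nlinarith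
  have hT0 : 0 < T := by linarith
  have hη : 0 < σ - 1 / 2 := by linarith
  have hη8 : σ - 1 / 2 ≤ 1 / 8 := by linarith
  have eS : SS k (σ - 1 / 2) = ∑' n : ℕ, dk k n ^ 2 * (n : ℝ) ^ (-(2 * σ)) := by
    unfold SS
    refine tsum_congr fun n => ?_
    have : -(1 + 2 * (σ - 1 / 2)) = -(2 * σ) := by ring
    rw [this]
  have hS1 : 1 ≤ SS k (σ - 1 / 2) := (HS _ hη hη8).2.1
  rw [← eS]
  obtain ⟨η, hηe⟩ : ∃ η : ℝ, η = σ - 1 / 2 := ⟨_, rfl⟩
  rw [← hηe] at hη hη8 hS1 ⊢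
  obtain ⟨S, hS⟩ : ∃ S : ℝ, S = SS k η := ⟨_, rfl⟩
  rw [← hS] at hS1 ⊢
  -- the square root
  obtain ⟨s, hs⟩ : ∃ s : ℝ, s = Real.sqrt T := ⟨_, rfl⟩
  have hs0 : 0 < s := by
    rw [hs]
    exact Real.sqrt_pos.2 hT0
  have hss : s * s = T := by
    rw [hs]
    exact Real.mul_self_sqrt hT0.le
  have hs3 : 3 ≤ s := by
    by_contra hcon
    push Not at hcon
    nlinarith
  have hsT : s ≤ T := by nlinarith
  have hsT₁ : T₁ ≤ s := by
    by_contra hcon
    push Not at hcon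
    nlinarith
  have hls : Real.log T = 2 * Real.log s := by
    rw [← hss, Real.log_mul hs0.ne' hs0.ne']
    ring
  obtain ⟨E, hE⟩ : ∃ E : ℝ, E = Real.exp (-(A / 400)) := ⟨_, rfl⟩
  have hE0 : 0 < E := hE ▸ Real.exp_pos _
  rw [← hE]
  have hsE : s ≤ E * T := by
    have e1 : E * T = Real.exp (Real.log T - A / 400) := by
      rw [Real.exp_sub, Real.exp_log hT0, hE, Real.exp_neg]
      ring
    rw [e1, ← Real.log_le_iff_le_exp hs0]
    have : 0 ≤ Real.log s := Real.log_nonneg (by linarith)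
    linarith
  -- the polynomial
  obtain ⟨N, hN⟩ : ∃ N : ℕ, N = ⌊T ^ (1 / 200 : ℝ)⌋₊ := ⟨_, rfl⟩
  obtain ⟨hN1, hN2, hN3⟩ := floor_bounds (by linarith : 1 ≤ T) hs0 hss
  rw [← hN] at hN1 hN2 hN3
  obtain ⟨q, hq⟩ : ∃ q : ℕ → ℝ,
      q = fun n => if 1 ≤ n ∧ n ≤ N then dk k n * (n : ℝ) ^ (-η) else 0 := ⟨_, rfl⟩
  have hPD : ∀ t, PZ k T σ t = DK k N η t := by
    intro t
    rw [PZ_eq, ← hN, ← hηe]
  have hPq : ∀ t, PZ k T σ t = De N q t := by
    intro t
    rw [hPD, DK_eq, hq]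
  obtain ⟨f, hf⟩ : ∃ f : ℝ → ℝ, f = fun t : ℝ => ‖PZ k T σ t‖ ^ 2 := ⟨_, rfl⟩
  have hfq : f = fun t : ℝ => ‖De N q t‖ ^ 2 := by
    rw [hf]
    funext t
    rw [hPq]
  have hfD : f = fun t : ℝ => ‖DK k N η t‖ ^ 2 := by
    rw [hf]
    funext t
    rw [hPD]
  have hfc : Continuous f := by
    rw [hfq]
    exact (cont_De N q).norm.pow _
  have hf0 : ∀ t, 0 ≤ f t := by
    intro t
    rw [hf]
    positivity
  have hint : ∀ a : ℝ, 0 ≤ a → ∫ t in Icc 0 a, f t ≤ (a + 2 * (N : ℝ) ^ 2) * S := by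
    intro a ha
    rw [integral_Icc_eq_integral_Ioc, ← intervalIntegral.integral_of_le ha, hfD, hS]
    have := (H2 η hη hη8 0 a N N ha hN1 le_rfl).2
    rwa [sub_zero] at this
  have hG0 : MeasurableSet (G0 T A C₀) := hI1 T A C₀ (by linarith)
  have hG : MeasurableSet (Icc 0 T \ G0 T A C₀) := measurableSet_Icc.diff hG0
  have hgoal : ∫ t in Icc 0 T \ G0 T A C₀, f t ≤ (C₁ + 6) * E * (T * S) := by
    have pE : 0 ≤ E * (T * S) := by positivity
    have pC₁ : 0 ≤ C₁ * (E * (T * S)) := by positivity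
    rcases lt_or_ge A 2 with hA' | hA'
    · have e1 : 1 / 2 ≤ E := by
        rw [hE]
        have := Real.add_one_le_exp (-(A / 400))
        linarith
      have e2 : T * S ≤ 2 * (E * (T * S)) := by
        have : 0 ≤ T * S := by positivity
        nlinarith
      have e3 : ∫ t in Icc 0 T \ G0 T A C₀, f t ≤ ∫ t in Icc 0 T, f t :=
        setIntegral_mono_set hfc.integrableOn_Icc (ae_of_all _ hf0)
          (LE.le.eventuallyLE sdiff_subset)
      have e4 := hint T hT0.le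
      have e5 : (T + 2 * (N : ℝ) ^ 2) * S ≤ (3 * T) * S :=
        mul_le_mul_of_nonneg_right (by linarith) (by linarith)
      have e6 : (C₁ + 6) * E * (T * S) = C₁ * (E * (T * S)) + 6 * (E * (T * S)) := by ring
      linarith
    · have hup := AuxDyF.upper_abs h4 f hfc hf0 (Icc 0 T \ G0 T A C₀) T s (C₁ * E * S)
        (4 * (s * S)) hG sdiff_subset hT0 hs0 (by positivity) ?_ ?_
      · have e7 : s * S ≤ E * (T * S) := by
          calc s * S ≤ (E * T) * S := mul_le_mul_of_nonneg_right hsE (by linarith)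
            _ = E * (T * S) := by ring
        have e8 : C₁ * E * S * T = C₁ * (E * (T * S)) := by ring
        have e6 : (C₁ + 6) * E * (T * S) = C₁ * (E * (T * S)) + 6 * (E * (T * S)) := by ring
        linarith
      · intro U hsU hUT
        have hU0 : 0 < U := by linarith
        have hlog : Real.log T ≤ 2 * Real.log U := by
          rw [hls]
          exact mul_le_mul_of_nonneg_left (Real.log_le_log hs0 hsU) (by norm_num)
        have hsub : GG U (A / 2) 400 ⊆ G0 T A C₀ :=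
          (GG_mono (by linarith) (by linarith)).trans
            (hI2 T U A C₀ (by linarith) hUT hlog (by linarith) (by linarith))
        have hmain := H1 U (by linarith) η hη hη8 N q
          (by rw [hq]; exact isDk k N η U hN1 (by linarith)) (A / 2) (by linarith)
        rw [← hS] at hmain
        have h7 : Real.exp (-(A / 2 / 200)) = E := by
          rw [hE]
          congr 1
          ring
        rw [h7] at hmain
        have h8 : ∫ t in (Icc 0 T \ G0 T A C₀) ∩ Icc U (2 * U), f t ≤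
            ∫ t in Icc U (2 * U) \ GG U (A / 2) 400, f t := by
          refine setIntegral_mono_set ((hfc.integrableOn_Icc).mono_set sdiff_subset)
            (ae_of_all _ hf0) (LE.le.eventuallyLE ?_)
          rintro t ⟨⟨_, ht2⟩, ht3⟩
          exact ⟨ht3, fun h => ht2 (hsub h)⟩
        refine h8.trans ?_
        rw [hfq]
        refine hmain.trans (le_of_eq ?_)
        ring
      · intro a ha haY
        refine (hint a ha).trans ?_
        have e5 : (a + 2 * (N : ℝ) ^ 2) * S ≤ (4 * s) * S :=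
          mul_le_mul_of_nonneg_right (by linarith) (by linarith)
        linarith
  rw [hf] at hgoal
  exact hgoal

end Pool.Agent.Work.MP_56b8f5_nt.HN
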