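import Pool.Agent.Work.MP_56b8f5_nt.HN.StmtsZ
import Pool.Agent.Work.MP_56b8f5_nt.HN.I_ApK

/-!
MP_56b8f5_nt, block HN, item DKd: two lengths of the Dirichlet polynomial `DK` in the mean square (helper57).
-/

set_option autoImplicit false

open MeasureTheory Set Filter Topology

noncomputable section

namespace Pool.Agent.Work.MP_56b8f5_nt.HN

open Pool.Agent.Work.MP_56b8f5_nt.EM Pool.Agent.Work.MP_56b8f5_nt.WM Pool.Agent.Work.MP_56b8f5_nt.SH
open Pool.Agent.Work.MP_56b8f5_nt.HZ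

namespace AuxDKd

theorem dk_nonneg (k n : ℕ) : 0 ≤ dk k n := by
  unfold dk
  exact Nat.cast_nonneg _

theorem De_congr (N : ℕ) (q r : ℕ → ℝ) (h : ∀ n, 1 ≤ n → n ≤ N → q n = r n) (t : ℝ) :
    De N q t = De N r t := by
  unfold De Ds
  refine Finset.sum_congr rfl fun n hn => ?_
  rw [Finset.mem_Icc] at hn
  show (q n : ℂ) * _ = (r n : ℂ) * _
  rw [h n hn.1 hn.2]

/-- the mean value theorem as an upper bound -/
theorem upper (h1 : S_MvN) (a b : ℝ) (N : ℕ) (r : ℕ → ℝ) (E : ℝ) (hab : a ≤ b)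
    (hE : ∑ n ∈ Finset.Icc 1 N, r n ^ 2 / (n : ℝ) ≤ E) :
    (∫ t in a..b, ‖De N r t‖ ^ 2) ≤ (b - a + 2 * (N : ℝ) ^ 2) * E := by
  have h2 := (abs_le.1 (h1 a b N r hab)).2
  have h3 : (b - a + 2 * (N : ℝ) ^ 2) * ∑ n ∈ Finset.Icc 1 N, r n ^ 2 / (n : ℝ) ≤
      (b - a + 2 * (N : ℝ) ^ 2) * E :=
    mul_le_mul_of_nonneg_left hE (by have := sub_nonneg.2 hab; positivity)
  linarith

end AuxDKd

open AuxApK AuxDKd in
theorem DKd_pf (h1 : S_MvN) (h2 : S_SSb) : S_DKd := by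
  intro k
  obtain ⟨C, hC1, hC⟩ := h2 k
  refine ⟨C, hC1, fun η hη0 hη1 a b N N' hab hN hNN => ?_⟩
  obtain ⟨hsum, hSS1, -, hlow⟩ := hC η hη0 hη1
  have hw0 : ∀ n : ℕ, 0 ≤ dk k n * (n : ℝ) ^ (-η) := fun n =>
    mul_nonneg (dk_nonneg k n) (Real.rpow_nonneg (Nat.cast_nonneg _) _)
  constructor
  · obtain ⟨q, hq⟩ : ∃ q : ℕ → ℝ, q = fun n : ℕ =>
        if 1 ≤ n ∧ n ≤ N then dk k n * (n : ℝ) ^ (-η) else 0 := ⟨_, rfl⟩
    have hdiff : ∀ t : ℝ, DK k N' η t - DK k N η t =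
        De N' (fun n => dk k n * (n : ℝ) ^ (-η) - q n) t := by
      intro t
      have e1 : De N (fun n => dk k n * (n : ℝ) ^ (-η)) t = De N q t := by
        refine De_congr N _ _ (fun n a1 a2 => ?_) t
        rw [hq]
        exact (if_pos ⟨a1, a2⟩).symm
      have e2 : De N q t = De N' q t := by
        refine De_ext hNN q (fun n hn => ?_) t
        by_contra hcon
        refine hn ?_
        rw [hq]
        exact if_neg hcon
      rw [DK_eq, DK_eq, e1, e2, De_sub]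
    have hfun : (fun t : ℝ => ‖DK k N' η t - DK k N η t‖ ^ 2) =
        fun t : ℝ => ‖De N' (fun n => dk k n * (n : ℝ) ^ (-η) - q n) t‖ ^ 2 := by
      funext t
      rw [hdiff t]
    rw [hfun]
    refine upper h1 a b N' _ _ hab ?_
    refine tail k η _ N N' _ hsum (hlow N hN) ?_ ?_
    · intro n a1 a2
      show dk k n * (n : ℝ) ^ (-η) - q n = 0
      rw [hq]
      show dk k n * (n : ℝ) ^ (-η) - (if 1 ≤ n ∧ n ≤ N then dk k n * (n : ℝ) ^ (-η) else 0) = 0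
      rw [if_pos ⟨a1, a2⟩, sub_self]
    · intro n
      have h0 := hw0 n
      show 0 ≤ dk k n * (n : ℝ) ^ (-η) - q n ∧ dk k n * (n : ℝ) ^ (-η) - q n ≤
        dk k n * (n : ℝ) ^ (-η)
      rw [hq]
      show 0 ≤ dk k n * (n : ℝ) ^ (-η) -
          (if 1 ≤ n ∧ n ≤ N then dk k n * (n : ℝ) ^ (-η) else 0) ∧
        dk k n * (n : ℝ) ^ (-η) - (if 1 ≤ n ∧ n ≤ N then dk k n * (n : ℝ) ^ (-η) else 0) ≤
        dk k n * (n : ℝ) ^ (-η)
      split_ifs
      · constructor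
        · linarith
        · linarith
      · constructor
        · linarith
        · linarith
  · have hfun : (fun t : ℝ => ‖DK k N' η t‖ ^ 2) =
        fun t : ℝ => ‖De N' (fun n => dk k n * (n : ℝ) ^ (-η)) t‖ ^ 2 := by
      funext t
      rw [DK_eq]
    rw [hfun]
    refine upper h1 a b N' _ _ hab ?_
    refine tail k η _ 0 N' _ hsum ?_ ?_ ?_
    · simp
    · intro n a1 a2
      omega
    · intro n
      exact ⟨hw0 n, le_rfl⟩

end Pool.Agent.Work.MP_56b8f5_nt.HN
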