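import Pool.Agent.Work.MP_56b8f5_nt.HN.StmtsK

/-!
MP_56b8f5_nt, block HN, part D: from `[T,2T]` to `[0,T]`, and the approximation of `ζ^k` in the mean square. Every docstring is the complete
proof; an item may assume the statements of all earlier items and all landed facts of blocks HN, HZ.
-/

set_option autoImplicit false

open MeasureTheory Set Filter Topology

noncomputable section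

namespace Pool.Agent.Work.MP_56b8f5_nt.HN

open Pool.Agent.Work.MP_56b8f5_nt.EM Pool.Agent.Work.MP_56b8f5_nt.WM Pool.Agent.Work.MP_56b8f5_nt.SH
open Pool.Agent.Work.MP_56b8f5_nt.HZ

/-- The set of good heights in `[0,T]`: `GG T A C` with `[0,T]` in place of `[T,2T]`. -/
def G0 (T A C : ℝ) : Set ℝ := {t | 0 ≤ t ∧ t ≤ T ∧ ∀ ρ : ℂ, riemannZeta ρ = 0 → 0 < ρ.re → ρ.re < 1 →
  (ρ.re - 1 / 2) * Real.log T ≤ A + C * Real.log (1 + |ρ.im - t| * Real.log T)}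

/-- The Dirichlet polynomial `∑_{n ≤ N} d_k(n) n^{-1/2-η-it}`. -/
def DK (k N : ℕ) (η t : ℝ) : ℂ := Ds N (fun n => (dk k n : ℂ)) (sp η t)

/-! ### From `[T,2T]` to `[0,T]` -/

/-- **DyI, inclusions.** Measurable: as `HZ.S_GGm` (`GGm_pf`, file `HZ/I_GGm.lean`): an intersection of closed sets. Second part: `(β-1/2) log U ≤ A/2 + (C/2) log(1+|γ-t| log U)`, the right side is `≥ 0`; `log T ≤ 2 log U`, so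
`(β-1/2) log T ≤ A + C log(1+|γ-t| log U)` if `β > 1/2` (trivial otherwise) and `log U ≤ log T`. Third part: trivial for `β ≤ 1/2`; else `(β-1/2) log U ≤ (β-1/2) log T ≤ A + C log(1+|γ-t| log T)` and
`1+|γ-t| log T ≤ R (1+|γ-t| log U)`. EASY. -/
def S_DyI : Prop := (∀ T A C : ℝ, 1 ≤ T → MeasurableSet (G0 T A C)) ∧
  (∀ T U A C : ℝ, 1 ≤ U → 2 * U ≤ T → Real.log T ≤ 2 * Real.log U → 0 ≤ A → 0 ≤ C → GG U (A / 2) (C / 2) ⊆ G0 T A C) ∧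
  ∀ T U A C R : ℝ, 1 < U → 2 * U ≤ T → 1 ≤ R → Real.log T ≤ R * Real.log U → 0 ≤ A → 0 ≤ C →
    G0 T A C ∩ Icc U (2 * U) ⊆ GG U (A + C * Real.log R) C

/-- **DyB, growth.** `HZ.S_Zgr` for `t ≥ 1`, compactness (continuity of zeta off `1`) for `0 ≤ t ≤ 1`. EASY. -/
def S_DyB : Prop := ∃ C : ℝ, 1 ≤ C ∧ ∀ σ t : ℝ, 1 / 2 ≤ σ → σ ≤ 5 / 8 → 0 ≤ t → ‖riemannZeta (σ + t * Complex.I)‖ ≤ C * (1 + t)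

/-- **DyS, summation over the dyadic blocks.** Induction on `J`: `G ∩ Ioc (T/2^{J+1}) T` is the disjoint union of `G ∩ Ioc (T/2^J) T` and `G ∩ Ioc (T/2^{J+1}) (T/2^J)`, and `T - T/2^J + T/2^{J+1} = T - T/2^{J+1}`. (`Ioc` and `Icc` differ by a null set.) EASY. -/
def S_DyS : Prop := ∀ (f : ℝ → ℝ) (G : Set ℝ) (T K : ℝ), Continuous f → MeasurableSet G → 0 < T → ∀ J : ℕ,
  ((∀ j < J, ∫ t in G ∩ Icc (T / 2 ^ (j + 1)) (2 * (T / 2 ^ (j + 1))), f t ≤ K * (T / 2 ^ (j + 1))) →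
    ∫ t in G ∩ Ioc (T / 2 ^ J) T, f t ≤ K * (T - T / 2 ^ J)) ∧
  ((∀ j < J, K * (T / 2 ^ (j + 1)) ≤ ∫ t in G ∩ Icc (T / 2 ^ (j + 1)) (2 * (T / 2 ^ (j + 1))), f t) →
    K * (T - T / 2 ^ J) ≤ ∫ t in G ∩ Ioc (T / 2 ^ J) T, f t)

/-- **DyF, the formula on `[0,T]`.** `R = 2(2k+1)`, `Y = T^{1/R}`, `S = ∑ dk k n ^ 2 n^{-2σ} ≥ 1` (SSb, `σ > 1/2` follows from `1 ≤ A ≤ c (σ-1/2) log T`). HNF for `(k, C₀)`: `c₁, C₁, T₁`, for `(k, C₀/2)`: `c₂, C₂, T₂` (`C₀/2 ≥ 400`). `c = min(c₁,c₂)/(R (1 + C₀ log R))`. `T_j = T/2^{j+1}`,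
`J` the number of `j` with `T_j ≥ Y` (so `Y ≤ T_j` for `j < J`, `T/2^J ≤ 2Y`).
UPPER: for `j < J`: `log T ≤ R log T_j`, DyI: `G0 ∩ [T_j, 2T_j] ⊆ GG T_j A' C₀`, `A' = A + C₀ log R ≤ A (1 + C₀ log R)`, so `A' ≤ c₁ (σ-1/2) log T_j` and `A' ≤ c₁ log T_j/log log T_j` (`log T_j ≥ log T/R`, `log log T_j ≤ log log T`); HNF: `∫ ≤ (1 + C₁ e^{-A'/200}) T_j S ≤
(1 + C₁ e^{-A/400}) T_j S`. DyS: `∫_{G0 ∩ (T/2^J, T]} ≤ (1 + C₁ e^{-A/400}) T S`. On `[0, T/2^J]`, `T/2^J ≤ 2Y`: DyB, at most `2Y (C (1+2Y))^{2k} ≤ C' Y^{2k+1} = C' T^{1/2} ≤ C' e^{-A/400} T S` (`A ≤ c log T`).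
LOWER: if `A < 2` trivial (`C ≥ 2`: the claim is `∫ ≥` something `≤ 0`); if `1 - C₂ e^{-A/400} < 0` too. Else let `J'` be the number of `j` with `T_j ≥ √T`; `log T ≤ 2 log T_j`, DyI: `GG T_j (A/2) (C₀/2) ⊆ G0`, HNF with `A/2 ≥ 1`: `∫_{G0 ∩ [T_j,2T_j]} ≥ (1 - C₂ e^{-A/400}) T_j S`.
DyS: `≥ (1 - C₂ e^{-A/400}) (T - 2√T) S` (`T/2^{J'} ≤ 2√T`), and `2√T ≤ 2 e^{-A/400} T`. USES: S_HNF, S_SSb, S_DyI, S_DyB, S_DyS. MEDIUM. -/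
def S_DyF : Prop := ∀ k : ℕ, 1 ≤ k → ∀ C₀ : ℝ, 800 ≤ C₀ → ∃ c C T₀ : ℝ, 0 < c ∧ 1 ≤ C ∧ 3 ≤ T₀ ∧
  ∀ T : ℝ, T₀ ≤ T → ∀ σ A : ℝ, σ ≤ 5 / 8 → 1 ≤ A → A ≤ c * ((σ - 1 / 2) * Real.log T) →
    A ≤ c * (Real.log T / Real.log (Real.log T)) →
    |(∫ t in G0 T A C₀, ‖riemannZeta (σ + t * Complex.I)‖ ^ (2 * k)) - T * ∑' n : ℕ, dk k n ^ 2 * (n : ℝ) ^ (-(2 * σ))| ≤
      C * Real.exp (-(A / 400)) * (T * ∑' n : ℕ, dk k n ^ 2 * (n : ℝ) ^ (-(2 * σ)))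

/-- **DyM, the measure.** `HZ.S_Main`, second part: `C', T'` (we may take `C' ≥ 0`); GG is monotone in `C` (`AuxLow.GG_mono`), `C₀/2 ≥ 400`. Case `A ≥ (1/2) log T`: `G0 T A C₀ = [0,T]` (`(β-1/2) log T < (1/2) log T`), measure `T`. Case `A < (1/2) log T` and `T ≥ T₂`, `√T₂ ≥ max(T', 3)`: if `A < 2`, the left side is
`≤ 0` for `C₁ ≥ e^{1/200}`; if `A ≥ 2`: DyS with `f = 1`, `K = 1 - C' e^{-A/400}` (if `K < 0` trivial) on the `J'` blocks with `T_j = T/2^{j+1} ≥ √T` (`GG T_j (A/2) (C₀/2) ⊆ G0 ∩ [T_j, 2T_j]`, DyI): measure `≥ K (T - 2√T) ≥ (1 - (C' + 2) e^{-A/400}) T`, as `√T = T e^{-(log T)/2} ≤ T e^{-A/400}`.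
Case `A < (1/2) log T`, `T < T₂`: `e^{-A/400} ≥ T₂^{-1}`, so the left side is `≤ 0` for `C₁ ≥ T₂`. USES: HZ.S_Main, S_DyI, S_DyS. EASY-MEDIUM. -/
def S_DyM : Prop := ∃ C₁ : ℝ, ∀ T A C₀ : ℝ, 3 ≤ T → 1 ≤ A → 800 ≤ C₀ →
  (1 - C₁ * Real.exp (-(A / 400))) * T ≤ volume.real (G0 T A C₀)

/-! ### Approximation in the mean square -/

/-- **DeM, decomposition, mean square** (as `S_DeU`, file `I_DeU.lean`). On `E`: (a) `‖z-D‖ ≤ δ‖D‖`: `‖z^{k+1} - D^{k+1}‖ ≤ ((1+δ)^{k+1} - 1) ‖D‖^{k+1} ≤ 2^{k+1} δ ‖D‖^{k+1}` (`AuxUpE.one_add_pow`; `z = D + w`, binomial theorem or induction on `k`). (b) `‖z-D‖ > δ‖D‖`: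
`‖z^{k+1} - D^{k+1}‖² ≤ 2‖z‖^{2(k+1)} + 2‖D‖^{2(k+1)}`, `‖D‖^{2(k+1)} ≤ δ^{-2} ‖z-D‖² ‖D^k‖²`, and `‖z‖^{2(k+1)} ≤ M ‖Q‖² (1+1/δ)² ‖z-D‖²` for `t ∉ F`; for `t ∈ F` it is part of `E ∩ F`. EASY-MEDIUM. -/
def S_DeM : Prop := ∀ (k : ℕ) (δ T M : ℝ) (z D Q : ℝ → ℂ) (E F : Set ℝ), 0 < δ → δ ≤ 1 → 1 ≤ T → 0 ≤ M →
  Continuous z → Continuous D → Continuous Q → MeasurableSet E → E ⊆ Icc T (2 * T) → MeasurableSet F →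
  (∀ t ∈ E, t ∉ F → ‖z t‖ ^ (2 * k) ≤ M * ‖Q t‖ ^ 2) →
  ∫ t in E, ‖z t ^ (k + 1) - D t ^ (k + 1)‖ ^ 2 ≤ (2 ^ (k + 1) * δ) ^ 2 * (∫ t in T..(2 * T), ‖D t ^ (k + 1)‖ ^ 2) +
    2 * (M * (1 + 1 / δ) ^ 2 * (∫ t in T..(2 * T), ‖z t - D t‖ ^ 2 * ‖Q t‖ ^ 2)) +
    2 * ((1 / δ) ^ 2 * (∫ t in T..(2 * T), ‖z t - D t‖ ^ 2 * ‖D t ^ k‖ ^ 2)) +
    2 * ∫ t in E ∩ F, ‖z t‖ ^ (2 * (k + 1))

/-- **ApD, approximation by a power of `DN`** (copy of `S_UpE`, file `I_UpE.lean`, with DeM in place of DeU and `c' M`, `M = min(X, L/log L)`, `X = η log T`, in place of `A/200`). First term: `4^{k+1} e^{-aX/4} 2 T SS` (MnE); second: `C e^{-aX/4} T SS` as there; third: TwA with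
`q` from Dpw (`k`), `e^{aX/4} C T L^P 2 e^{-aX} ≤ C e^{-aX/2} T SS` (as in `I_LoE.lean`); fourth: `C e^{-βX/2} T SS` or `C e^{-L/(2 log L)} T SS`. USES: S_TwA, S_PWU, S_HN4, S_SSb, S_DeM, S_NNp, S_MnE, S_Dpw, HZ.S_GGm. MEDIUM (copy). -/
def S_ApD : Prop := ∀ (k : ℕ) (C₀ : ℝ), 0 ≤ C₀ → ∃ c C T₀ : ℝ, 0 < c ∧ 1 ≤ C ∧ 3 ≤ T₀ ∧
  ∀ T : ℝ, T₀ ≤ T → ∀ η A : ℝ, η ≤ 1 / 8 → 1 ≤ A → A ≤ c * (η * Real.log T) → A ≤ c * (Real.log T / Real.log (Real.log T)) →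
  ∀ N : ℕ, 1 ≤ N → ((N ^ (k + 1) : ℕ) : ℝ) ^ 100 ≤ T → (N : ℝ) ^ (-η) ≤ 2 * Real.exp (-(η * Real.log T / (100 * (k + 1)))) →
    ∫ t in GG T A C₀, ‖riemannZeta (sp η t) ^ (k + 1) - DN N η t ^ (k + 1)‖ ^ 2 ≤
      C * Real.exp (-(c * min (η * Real.log T) (Real.log T / Real.log (Real.log T)))) * (T * SS (k + 1) η)

/-- **ApK, approximation by `DK`.** `N₁` from NNp (`k+1`), ApD with `N₁`. `DN N₁ η t ^ (k+1) = De (N₁^{k+1}) q t` with `q n = dk (k+1) n n^{-η}` for `n ≤ N₁` (Dpw, `k+1`), `N₁^{k+1} ≤ N` (from `(N₁^{k+1})^100 ≤ T < (N+1)^100`), and `DK (k+1) N η t = De N (dk (k+1) n n^{-η}) t`;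
so the difference is `De N r t` with `r n = 0` for `n ≤ N₁`, `0 ≤ r n ≤ dk (k+1) n n^{-η}`. MvN: `∫_T^{2T} ‖De N r‖² ≤ (T + 2N²) ∑_{N₁ < n ≤ N} dk (k+1) n ^ 2 n^{-(1+2η)} ≤ 2T C N₁^{-η} SS` (`2N² ≤ 2 (2T)^{1/50} ≤ T`; SSb, last part: `∑_{N₁ < n ≤ N} ≤ SS - ∑_{n ≤ N₁} ≤ C N₁^{-η} SS`).
`‖x - y‖² ≤ 2‖x - w‖² + 2‖w - y‖²`. USES: S_ApD, S_NNp, S_Dpw, S_MvN, S_SSb. EASY-MEDIUM. -/
def S_ApK : Prop := ∀ k : ℕ, 1 ≤ k → ∀ C₀ : ℝ, 0 ≤ C₀ → ∃ c C T₀ : ℝ, 0 < c ∧ 1 ≤ C ∧ 3 ≤ T₀ ∧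
  ∀ T : ℝ, T₀ ≤ T → ∀ η A : ℝ, η ≤ 1 / 8 → 1 ≤ A → A ≤ c * (η * Real.log T) → A ≤ c * (Real.log T / Real.log (Real.log T)) →
  ∀ N : ℕ, (N : ℝ) ^ 100 ≤ 2 * T → T < ((N : ℝ) + 1) ^ 100 →
    ∫ t in GG T A C₀, ‖riemannZeta (sp η t) ^ k - DK k N η t‖ ^ 2 ≤
      C * Real.exp (-(c * min (η * Real.log T) (Real.log T / Real.log (Real.log T)))) * (T * SS k η)

/-- **Ap0, the same on `G0 T A C₀ ∩ [T/2,T]`.** `U = T/2`, `R = 2`: DyI, third part: `⊆ GG U (A + C₀ log 2) C₀`; `A' = A + C₀ log 2 ≤ (1 + C₀) A`, `log U ≥ (1/2) log T`, `N = ⌊T^{1/100}⌋`: `N^100 ≤ T = 2U`, `U < T < (N+1)^100`. `min(η log U, log U/log log U) ≥ (1/2) min(η log T, log T/log log T)`. The integrand is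
`≥ 0` and continuous (integrable on `[U,2U]`). USES: S_ApK, S_DyI. EASY. -/
def S_Ap0 : Prop := ∀ k : ℕ, 1 ≤ k → ∀ C₀ : ℝ, 0 ≤ C₀ → ∃ c C T₀ : ℝ, 0 < c ∧ 1 ≤ C ∧ 3 ≤ T₀ ∧
  ∀ T : ℝ, T₀ ≤ T → ∀ σ A : ℝ, σ ≤ 5 / 8 → 1 ≤ A → A ≤ c * ((σ - 1 / 2) * Real.log T) → A ≤ c * (Real.log T / Real.log (Real.log T)) →
    ∫ t in G0 T A C₀ ∩ Icc (T / 2) T, ‖riemannZeta (σ + t * Complex.I) ^ k -
        ∑ n ∈ Finset.Icc 1 ⌊T ^ (1 / 100 : ℝ)⌋₊, (dk k n : ℂ) * (n : ℂ) ^ (-((σ : ℂ) + t * Complex.I))‖ ^ 2 ≤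
      C * Real.exp (-(c * min ((σ - 1 / 2) * Real.log T) (Real.log T / Real.log (Real.log T)))) *
        (T * ∑' n : ℕ, dk k n ^ 2 * (n : ℝ) ^ (-(2 * σ)))

/-- **Fp0, fixed distance, on `[0,T]`** (copy of `S_Fph`, file `I_Fph.lean`, from DyF in place of HNF). USES: S_DyF, S_LoL. EASY. -/
def S_Fp0 : Prop := ∀ k : ℕ, 1 ≤ k → ∀ C₀ : ℝ, 800 ≤ C₀ → ∃ c C : ℝ, 0 < c ∧ 1 ≤ C ∧
  ∀ A φ : ℝ, 1 ≤ A → A ≤ c * φ → ∃ T₁ : ℝ, 3 ≤ T₁ ∧ ∀ T : ℝ, T₁ ≤ T →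
    |(1 / T) * (∫ t in G0 T A C₀, ‖riemannZeta ((1 / 2 + φ / Real.log T : ℝ) + t * Complex.I)‖ ^ (2 * k)) -
      ak k * (Real.log T / (2 * φ)) ^ k ^ 2| ≤ C * Real.exp (-(A / 400)) * (Real.log T / (2 * φ)) ^ k ^ 2

end Pool.Agent.Work.MP_56b8f5_nt.HN
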