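import Mathlib
import Pool.Agent.Work.MP_56b8f5_nt.HN.StmtsD
import Pool.Agent.Work.MP_56b8f5_nt.HZ.StmtsA

set_option autoImplicit false

/-! # Item DyB of the block HN: growth of zeta -/

noncomputable section

namespace Pool.Agent.Work.MP_56b8f5_nt.HN

open Pool.Agent.Work.MP_56b8f5_nt.EM Pool.Agent.Work.MP_56b8f5_nt.WM Pool.Agent.Work.MP_56b8f5_nt.SH
open Pool.Agent.Work.MP_56b8f5_nt.HZ

namespace AuxDyB

/-- zeta is bounded on the small rectangle -/
theorem small : ∃ C : ℝ, ∀ σ t : ℝ, 1 / 2 ≤ σ → σ ≤ 5 / 8 → 0 ≤ t → t ≤ 1 →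
    ‖riemannZeta (σ + t * Complex.I)‖ ≤ C := by
  have hK : IsCompact (Set.Icc (1 / 2 : ℝ) (5 / 8) ×ˢ Set.Icc (0 : ℝ) 1) :=
    isCompact_Icc.prod isCompact_Icc
  have hc : ContinuousOn (fun p : ℝ × ℝ => riemannZeta ((p.1 : ℂ) + p.2 * Complex.I))
      (Set.Icc (1 / 2 : ℝ) (5 / 8) ×ˢ Set.Icc (0 : ℝ) 1) := by
    intro p hp
    have hne : ((p.1 : ℂ) + p.2 * Complex.I) ≠ 1 := by
      intro h
      have h1 := congrArg Complex.re h
      simp at h1
      have h2 := hp.1.2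
      rw [h1] at h2
      norm_num at h2
    have h1 : ContinuousAt riemannZeta ((p.1 : ℂ) + p.2 * Complex.I) :=
      (differentiableAt_riemannZeta hne).continuousAt
    have h2 : ContinuousAt (fun p : ℝ × ℝ => ((p.1 : ℂ) + p.2 * Complex.I)) p := by
      fun_prop
    exact (ContinuousAt.comp (f := fun p : ℝ × ℝ => ((p.1 : ℂ) + p.2 * Complex.I)) h1 h2).continuousWithinAt
  obtain ⟨C, hC⟩ := hK.exists_bound_of_continuousOn hc
  refine ⟨C, fun σ t h1 h2 h3 h4 => ?_⟩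
  exact hC (σ, t) ⟨⟨h1, h2⟩, ⟨h3, h4⟩⟩

end AuxDyB

theorem DyB_pf (h : HZ.S_Zgr) : S_DyB := by
  obtain ⟨C1, hC1, h1⟩ := h
  obtain ⟨C2, h2⟩ := AuxDyB.small
  refine ⟨max C1 C2, le_trans hC1 (le_max_left _ _), ?_⟩
  intro σ t hσ hσ' ht
  have hm0 : (0 : ℝ) ≤ max C1 C2 := le_trans (le_trans zero_le_one hC1) (le_max_left _ _)
  rcases le_total t 1 with h3 | h3
  · refine le_trans (h2 σ t hσ hσ' ht h3) (le_trans (le_max_right C1 C2) ?_)
    exact le_mul_of_one_le_right hm0 (by linarith)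
  · have hre : ((σ : ℂ) + t * Complex.I).re = σ := by simp
    have him : ((σ : ℂ) + t * Complex.I).im = t := by simp
    have h4 := h1 ((σ : ℂ) + t * Complex.I) (by rw [hre]; linarith) (by rw [hre]; linarith)
      (by rw [him, abs_of_nonneg ht]; exact h3)
    rw [him, abs_of_nonneg ht] at h4
    refine le_trans h4 ?_
    exact mul_le_mul (le_max_left _ _) (by linarith) ht hm0

end Pool.Agent.Work.MP_56b8f5_nt.HN
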