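import Pool.Agent.Work.MP_56b8f5_nt.HN.StmtsD

/-!
MP_56b8f5_nt, block HN, item DyI (helper6): the set `G0 T A C` is closed, and inclusions.
-/

set_option autoImplicit false

open MeasureTheory Set Filter Topology

noncomputable section

namespace Pool.Agent.Work.MP_56b8f5_nt.HN

open Pool.Agent.Work.MP_56b8f5_nt.EM Pool.Agent.Work.MP_56b8f5_nt.WM Pool.Agent.Work.MP_56b8f5_nt.SH
open Pool.Agent.Work.MP_56b8f5_nt.HZ

namespace AuxDyI

theorem meas (T A C : ℝ) (hT : 1 ≤ T) : MeasurableSet (G0 T A C) := by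
  have hL : 0 ≤ Real.log T := Real.log_nonneg hT
  have h1 : IsClosed {t : ℝ | 0 ≤ t} := isClosed_le continuous_const continuous_id
  have h2 : IsClosed {t : ℝ | t ≤ T} := isClosed_le continuous_id continuous_const
  have h3 : IsClosed {t : ℝ | ∀ ρ : ℂ, riemannZeta ρ = 0 → 0 < ρ.re → ρ.re < 1 →
      (ρ.re - 1 / 2) * Real.log T ≤ A + C * Real.log (1 + |ρ.im - t| * Real.log T)} := by
    have h4 : ∀ ρ : ℂ, IsClosed {t : ℝ | (ρ.re - 1 / 2) * Real.log T ≤
        A + C * Real.log (1 + |ρ.im - t| * Real.log T)} := by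
      intro ρ
      refine isClosed_le continuous_const (continuous_const.add (continuous_const.mul ?_))
      refine Continuous.log (by fun_prop) fun t => ?_
      have h5 : 0 ≤ |ρ.im - t| * Real.log T := mul_nonneg (abs_nonneg _) hL
      exact (by linarith : 0 < 1 + |ρ.im - t| * Real.log T).ne'
    simp only [Set.ofPred_forall]
    exact isClosed_iInter fun ρ => isClosed_iInter fun _ => isClosed_iInter fun _ =>
      isClosed_iInter fun _ => h4 ρ
  exact (h1.inter (h2.inter h3)).measurableSet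

theorem sub1 (T U A C : ℝ) (hU : 1 ≤ U) (hUT : 2 * U ≤ T) (hl : Real.log T ≤ 2 * Real.log U)
    (hA : 0 ≤ A) (hC : 0 ≤ C) : GG U (A / 2) (C / 2) ⊆ G0 T A C := by
  intro t ht
  have hLU : 0 ≤ Real.log U := Real.log_nonneg hU
  have hLT : Real.log U ≤ Real.log T := Real.log_le_log (by linarith) (by linarith)
  have hLT0 : 0 ≤ Real.log T := hLU.trans hLT
  refine ⟨by linarith [ht.1], by linarith [ht.2.1], fun ρ h1 h2 h3 => ?_⟩
  have ha : 0 ≤ |ρ.im - t| := abs_nonneg _
  have h4 : 0 ≤ |ρ.im - t| * Real.log U := mul_nonneg ha hLU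
  have h5 : |ρ.im - t| * Real.log U ≤ |ρ.im - t| * Real.log T :=
    mul_le_mul_of_nonneg_left hLT ha
  have h6 : Real.log (1 + |ρ.im - t| * Real.log U) ≤ Real.log (1 + |ρ.im - t| * Real.log T) :=
    Real.log_le_log (by linarith) (by linarith)
  have h7 : 0 ≤ Real.log (1 + |ρ.im - t| * Real.log U) := Real.log_nonneg (by linarith)
  have h8 : C * Real.log (1 + |ρ.im - t| * Real.log U) ≤
      C * Real.log (1 + |ρ.im - t| * Real.log T) := mul_le_mul_of_nonneg_left h6 hC
  have h9 : 0 ≤ C * Real.log (1 + |ρ.im - t| * Real.log U) := mul_nonneg hC h7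
  have h10 := ht.2.2 ρ h1 h2 h3
  rcases le_or_gt ρ.re (1 / 2) with hb | hb
  · have h11 : (ρ.re - 1 / 2) * Real.log T ≤ 0 :=
      mul_nonpos_of_nonpos_of_nonneg (by linarith) hLT0
    linarith
  · have h11 : (ρ.re - 1 / 2) * Real.log T ≤ (ρ.re - 1 / 2) * (2 * Real.log U) :=
      mul_le_mul_of_nonneg_left hl (by linarith)
    linarith

theorem sub2 (T U A C R : ℝ) (hU : 1 < U) (hUT : 2 * U ≤ T) (hR : 1 ≤ R)
    (hl : Real.log T ≤ R * Real.log U) (hA : 0 ≤ A) (hC : 0 ≤ C) :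
    G0 T A C ∩ Icc U (2 * U) ⊆ GG U (A + C * Real.log R) C := by
  rintro t ⟨ht, hc⟩
  have hLU : 0 < Real.log U := Real.log_pos hU
  have hLT : Real.log U ≤ Real.log T := Real.log_le_log (by linarith) (by linarith)
  have hLT0 : 0 < Real.log T := hLU.trans_le hLT
  have hLR : 0 ≤ Real.log R := Real.log_nonneg hR
  refine ⟨hc.1, hc.2, fun ρ h1 h2 h3 => ?_⟩
  have ha : 0 ≤ |ρ.im - t| := abs_nonneg _
  have h4 : 0 ≤ |ρ.im - t| * Real.log U := mul_nonneg ha hLU.le
  have h4' : 0 ≤ |ρ.im - t| * Real.log T := mul_nonneg ha hLT0.le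
  have h5 : |ρ.im - t| * Real.log T ≤ |ρ.im - t| * (R * Real.log U) :=
    mul_le_mul_of_nonneg_left hl ha
  have h6 : 1 + |ρ.im - t| * Real.log T ≤ R * (1 + |ρ.im - t| * Real.log U) := by
    have : R * (1 + |ρ.im - t| * Real.log U) = R + |ρ.im - t| * (R * Real.log U) := by ring
    rw [this]
    linarith
  have h7 : Real.log (1 + |ρ.im - t| * Real.log T) ≤
      Real.log R + Real.log (1 + |ρ.im - t| * Real.log U) := by
    rw [← Real.log_mul (by linarith) (by linarith)]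
    exact Real.log_le_log (by linarith) h6
  have h8 : 0 ≤ Real.log (1 + |ρ.im - t| * Real.log U) := Real.log_nonneg (by linarith)
  have h9 : C * Real.log (1 + |ρ.im - t| * Real.log T) ≤
      C * (Real.log R + Real.log (1 + |ρ.im - t| * Real.log U)) :=
    mul_le_mul_of_nonneg_left h7 hC
  have h10 := ht.2.2 ρ h1 h2 h3
  have h12 : 0 ≤ C * Real.log R := mul_nonneg hC hLR
  have h13 : 0 ≤ C * Real.log (1 + |ρ.im - t| * Real.log U) := mul_nonneg hC h8
  rcases le_or_gt ρ.re (1 / 2) with hb | hb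
  · have h11 : (ρ.re - 1 / 2) * Real.log U ≤ 0 :=
      mul_nonpos_of_nonpos_of_nonneg (by linarith) hLU.le
    linarith
  · have h11 : (ρ.re - 1 / 2) * Real.log U ≤ (ρ.re - 1 / 2) * Real.log T :=
      mul_le_mul_of_nonneg_left hLT (by linarith)
    linarith

end AuxDyI

theorem DyI_pf : S_DyI :=
  ⟨AuxDyI.meas, AuxDyI.sub1, AuxDyI.sub2⟩

end Pool.Agent.Work.MP_56b8f5_nt.HN
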