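import Pool.Agent.Work.MP_56b8f5_nt.HN.StmtsD
import Pool.Agent.Work.MP_56b8f5_nt.HZ.StmtsM

/-!
MP_56b8f5_nt, block HN, item DyM: the measure of the good heights in `[0,T]`.
-/

set_option autoImplicit false

open MeasureTheory Set Filter Topology

noncomputable section

namespace Pool.Agent.Work.MP_56b8f5_nt.HN

open Pool.Agent.Work.MP_56b8f5_nt.EM Pool.Agent.Work.MP_56b8f5_nt.WM Pool.Agent.Work.MP_56b8f5_nt.SH
open Pool.Agent.Work.MP_56b8f5_nt.HZ

namespace AuxDyM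

lemma log1_nonneg {T : ℝ} (hT : 1 ≤ T) (x : ℝ) : 0 ≤ Real.log (1 + |x| * Real.log T) := by
  have h1 : 0 ≤ Real.log T := Real.log_nonneg hT
  refine Real.log_nonneg ?_
  have h2 : 0 ≤ |x| * Real.log T := mul_nonneg (abs_nonneg _) h1
  linarith

lemma GG_mono {T A C C' : ℝ} (hT : 1 ≤ T) (hC : C ≤ C') : GG T A C ⊆ GG T A C' := by
  rintro t ⟨h1, h2, h3⟩
  refine ⟨h1, h2, fun ρ h4 h5 h6 => (h3 ρ h4 h5 h6).trans ?_⟩
  have := mul_le_mul_of_nonneg_right hC (log1_nonneg hT (ρ.im - t))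
  linarith

lemma G0_sub {T A C : ℝ} : G0 T A C ⊆ Icc 0 T := fun _ h => ⟨h.1, h.2.1⟩

lemma G0_fin {T A C : ℝ} : volume (G0 T A C) ≠ ⊤ :=
  ((measure_mono G0_sub).trans_lt (by simp)).ne

lemma large {T A C : ℝ} (hT : 1 ≤ T) (hC : 0 ≤ C) (hA : 1 / 2 * Real.log T ≤ A) :
    volume.real (G0 T A C) = T := by
  have h1 : G0 T A C = Icc 0 T := by
    refine Subset.antisymm G0_sub fun t ht => ⟨ht.1, ht.2, fun ρ _ _ h => ?_⟩
    have h2 : (ρ.re - 1 / 2) * Real.log T ≤ 1 / 2 * Real.log T :=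
      mul_le_mul_of_nonneg_right (by linarith) (Real.log_nonneg hT)
    have h3 := mul_nonneg hC (log1_nonneg hT (ρ.im - t))
    linarith
  rw [h1, Real.volume_real_Icc_of_le (by linarith), sub_zero]

/-- the number of dyadic blocks -/
lemma blocks {T : ℝ} (hT : 1 ≤ T) : ∃ J : ℕ, Real.sqrt T ≤ T / 2 ^ J ∧ T / 2 ^ J ≤ 2 * Real.sqrt T := by
  have hs : 1 ≤ Real.sqrt T := Real.one_le_sqrt.2 hT
  have hs0 : 0 < Real.sqrt T := by linarith
  obtain ⟨J, h1, h2⟩ := exists_nat_pow_near hs (by norm_num : (1 : ℝ) < 2)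
  have hss : Real.sqrt T * Real.sqrt T = T := Real.mul_self_sqrt (by linarith)
  refine ⟨J, ?_, ?_⟩
  · rw [le_div_iff₀ (by positivity)]
    calc Real.sqrt T * 2 ^ J ≤ Real.sqrt T * Real.sqrt T := mul_le_mul_of_nonneg_left h1 hs0.le
      _ = T := hss
  · rw [div_le_iff₀ (by positivity)]
    have h3 : Real.sqrt T ≤ 2 * 2 ^ J := by
      rw [pow_succ] at h2
      linarith
    calc T = Real.sqrt T * Real.sqrt T := hss.symm
      _ ≤ Real.sqrt T * (2 * 2 ^ J) := mul_le_mul_of_nonneg_left h3 hs0.le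
      _ = 2 * Real.sqrt T * 2 ^ J := by ring

lemma sqrt_le {T A : ℝ} (hT : 1 ≤ T) (hA0 : 0 ≤ A) (hA : A ≤ 1 / 2 * Real.log T) :
    Real.sqrt T ≤ T * Real.exp (-(A / 400)) := by
  have h0 : 0 < T := by linarith
  have h1 : Real.sqrt T = Real.exp (Real.log T / 2) := by
    rw [Real.sqrt_eq_rpow, Real.rpow_def_of_pos h0]
    congr 1
    ring
  have h2 : T = Real.exp (Real.log T) := (Real.exp_log h0).symm
  calc Real.sqrt T = Real.exp (Real.log T / 2) := h1
    _ ≤ Real.exp (Real.log T + -(A / 400)) := Real.exp_le_exp.2 (by linarith)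
    _ = Real.exp (Real.log T) * Real.exp (-(A / 400)) := Real.exp_add _ _
    _ = T * Real.exp (-(A / 400)) := by rw [← h2]

lemma main (h3 : S_DyI) (h5 : S_DyS) {C' T' : ℝ} (hT' : 3 ≤ T') (hC' : 0 ≤ C')
    (h : ∀ T : ℝ, T' ≤ T → ∀ A : ℝ, 1 ≤ A →
      (1 - C' * Real.exp (-(A / 200))) * T ≤ volume.real (GG T A 400))
    {T A C₀ : ℝ} (hT : T' ^ 2 ≤ T) (hA : 2 ≤ A) (hC₀ : 800 ≤ C₀) (hAT : A ≤ 1 / 2 * Real.log T)
    (hK : 0 ≤ 1 - C' * Real.exp (-(A / 400))) :
    (1 - (C' + 2) * Real.exp (-(A / 400))) * T ≤ volume.real (G0 T A C₀) := by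
  obtain ⟨hm, hinc, -⟩ := h3
  have hT9 : 9 ≤ T := by nlinarith
  have hT1 : 1 ≤ T := by linarith
  obtain ⟨J, hJ1, hJ2⟩ := blocks hT1
  have hsT : T' ≤ Real.sqrt T := Real.le_sqrt_of_sq_le hT
  set K : ℝ := 1 - C' * Real.exp (-(A / 400)) with hKd
  have hK1 : K ≤ 1 := by
    rw [hKd]
    have := mul_nonneg hC' (Real.exp_pos (-(A / 400))).le
    linarith
  have hbl : ∀ j < J, K * (T / 2 ^ (j + 1)) ≤
      ∫ _ in G0 T A C₀ ∩ Icc (T / 2 ^ (j + 1)) (2 * (T / 2 ^ (j + 1))), (1 : ℝ) := by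
    intro j hj
    set U : ℝ := T / 2 ^ (j + 1) with hU
    have hUs : Real.sqrt T ≤ U := by
      refine hJ1.trans ?_
      rw [hU]
      exact div_le_div_of_nonneg_left (by linarith) (by positivity)
        (pow_le_pow_right₀ (by norm_num) (by omega))
    have hUT' : T' ≤ U := hsT.trans hUs
    have hU1 : 1 ≤ U := by linarith
    have h2U : 2 * U ≤ T := by
      have h1 : 2 * U = T / 2 ^ j := by
        rw [hU, pow_succ]
        field_simp
      rw [h1]
      exact div_le_self (by linarith) (one_le_pow₀ (by norm_num))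
    have hlog : Real.log T ≤ 2 * Real.log U := by
      have h1 : T ≤ U ^ 2 := by
        calc T = Real.sqrt T * Real.sqrt T := (Real.mul_self_sqrt (by linarith)).symm
          _ ≤ U * U := mul_self_le_mul_self (Real.sqrt_nonneg _) hUs
          _ = U ^ 2 := by ring
      have h2 := Real.log_le_log (by linarith) h1
      rw [Real.log_pow] at h2
      exact_mod_cast h2
    have hsub : GG U (A / 2) 400 ⊆ G0 T A C₀ ∩ Icc U (2 * U) := fun t ht =>
      ⟨hinc T U A C₀ hU1 h2U hlog (by linarith) (by linarith)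
        (GG_mono hU1 (by linarith : (400 : ℝ) ≤ C₀ / 2) ht), ht.1, ht.2.1⟩
    have h1 := h U hUT' (A / 2) (by linarith)
    rw [show A / 2 / 200 = A / 400 by ring] at h1
    have hfin : volume (G0 T A C₀ ∩ Icc U (2 * U)) ≠ ⊤ :=
      ((measure_mono inter_subset_left).trans_lt G0_fin.lt_top).ne
    rw [setIntegral_const, smul_eq_mul, mul_one]
    exact h1.trans (measureReal_mono hsub hfin)
  have hS := (h5 (fun _ => 1) (G0 T A C₀) T K continuous_const (hm T A C₀ hT1) (by linarith) J).2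
    hbl
  rw [setIntegral_const, smul_eq_mul, mul_one] at hS
  have h6 : volume.real (G0 T A C₀ ∩ Ioc (T / 2 ^ J) T) ≤ volume.real (G0 T A C₀) :=
    measureReal_mono inter_subset_left G0_fin
  have h7 : K * (T - 2 * Real.sqrt T) ≤ K * (T - T / 2 ^ J) :=
    mul_le_mul_of_nonneg_left (by linarith) hK
  have h8 := sqrt_le hT1 (by linarith) hAT
  have h9 : K * (2 * Real.sqrt T) ≤ 2 * Real.sqrt T := by
    have h10 := Real.sqrt_nonneg T
    nlinarith
  have h10 : (1 - (C' + 2) * Real.exp (-(A / 400))) * T =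
      K * T - 2 * (T * Real.exp (-(A / 400))) := by
    rw [hKd]
    ring
  rw [h10]
  have h11 : K * (T - 2 * Real.sqrt T) = K * T - K * (2 * Real.sqrt T) := by ring
  linarith

end AuxDyM

open AuxDyM

theorem DyM_pf (h1 : HZ.S_Main) (h3 : S_DyI) (h5 : S_DyS) : S_DyM := by
  obtain ⟨-, ⟨C, T', hT', h⟩, -⟩ := h1
  have h' : ∀ T : ℝ, T' ≤ T → ∀ A : ℝ, 1 ≤ A →
      (1 - |C| * Real.exp (-(A / 200))) * T ≤ volume.real (GG T A 400) := by
    intro T hT A hA
    refine le_trans ?_ (h T hT A hA)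
    have h6 : C * Real.exp (-(A / 200)) ≤ |C| * Real.exp (-(A / 200)) :=
      mul_le_mul_of_nonneg_right (le_abs_self C) (Real.exp_pos _).le
    exact mul_le_mul_of_nonneg_right (by linarith) (by linarith)
  refine ⟨|C| + 2 + T' ^ 2, fun T A C₀ hT hA hC₀ => ?_⟩
  have hT1 : 1 ≤ T := by linarith
  have he : 0 < Real.exp (-(A / 400)) := Real.exp_pos _
  have hC0 : 0 ≤ |C| := abs_nonneg C
  have hT2 : 9 ≤ T' ^ 2 := by nlinarith
  have hvol : 0 ≤ volume.real (G0 T A C₀) := measureReal_nonneg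
  -- the trivial case
  have htriv : 1 ≤ (|C| + 2 + T' ^ 2) * Real.exp (-(A / 400)) →
      (1 - (|C| + 2 + T' ^ 2) * Real.exp (-(A / 400))) * T ≤ volume.real (G0 T A C₀) := fun h6 =>
    le_trans (mul_nonpos_of_nonpos_of_nonneg (by linarith) (by linarith)) hvol
  rcases le_or_gt (1 / 2 * Real.log T) A with hA1 | hA1
  · rw [large hT1 (by linarith) hA1]
    have h6 : 0 ≤ (|C| + 2 + T' ^ 2) * Real.exp (-(A / 400)) := by positivity
    nlinarith
  rcases lt_or_ge T (T' ^ 2) with hTT | hTT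
  · apply htriv
    have h6 : Real.exp (-Real.log (T' ^ 2)) ≤ Real.exp (-(A / 400)) := by
      apply Real.exp_le_exp.2
      have h7 := Real.log_le_log (by linarith : (0 : ℝ) < T) hTT.le
      have h8 : 0 ≤ Real.log T := Real.log_nonneg hT1
      linarith
    rw [Real.exp_neg, Real.exp_log (by linarith)] at h6
    have h7 : 1 = T' ^ 2 * (T' ^ 2)⁻¹ := (mul_inv_cancel₀ (by linarith)).symm
    calc (1 : ℝ) = T' ^ 2 * (T' ^ 2)⁻¹ := h7
      _ ≤ T' ^ 2 * Real.exp (-(A / 400)) := mul_le_mul_of_nonneg_left h6 (by linarith)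
      _ ≤ _ := mul_le_mul_of_nonneg_right (by linarith) he.le
  rcases lt_or_ge A 2 with hA2 | hA2
  · apply htriv
    have h6 := Real.add_one_le_exp (-(A / 400))
    have h7 : (1 / 2 : ℝ) ≤ Real.exp (-(A / 400)) := by linarith
    nlinarith
  rcases lt_or_ge (1 - |C| * Real.exp (-(A / 400))) 0 with hK | hK
  · apply htriv
    have h6 : 0 ≤ (2 + T' ^ 2) * Real.exp (-(A / 400)) := by positivity
    linarith
  refine le_trans ?_ (main h3 h5 hT' hC0 h' hTT hA2 hC₀ hA1.le hK)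
  refine mul_le_mul_of_nonneg_right ?_ (by linarith)
  have h6 : 0 ≤ T' ^ 2 * Real.exp (-(A / 400)) := by positivity
  linarith

end Pool.Agent.Work.MP_56b8f5_nt.HN
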