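import Mathlib
import Pool.Agent.Work.MP_56b8f5_nt.HN.StmtsD

/-!
# MP_56b8f5_nt, block HN, item DyS (helper56)
-/

open MeasureTheory Set Filter Topology

noncomputable section

namespace Pool.Agent.Work.MP_56b8f5_nt.HN

open Pool.Agent.Work.MP_56b8f5_nt.EM Pool.Agent.Work.MP_56b8f5_nt.WM Pool.Agent.Work.MP_56b8f5_nt.SH
open Pool.Agent.Work.MP_56b8f5_nt.HZ

namespace AuxDyS

lemma split (f : ℝ → ℝ) (G : Set ℝ) (T : ℝ) (hf : Continuous f) (hG : MeasurableSet G)
    (hT : 0 < T) (J : ℕ) :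
    ∫ t in G ∩ Ioc (T / 2 ^ (J + 1)) T, f t = (∫ t in G ∩ Ioc (T / 2 ^ J) T, f t) +
      ∫ t in G ∩ Icc (T / 2 ^ (J + 1)) (2 * (T / 2 ^ (J + 1))), f t := by
  have h2 : 2 * (T / 2 ^ (J + 1)) = T / 2 ^ J := by
    rw [pow_succ]
    field_simp
  have h1 : T / 2 ^ (J + 1) ≤ T / 2 ^ J := by
    rw [← h2]
    have : 0 < T / 2 ^ (J + 1) := by positivity
    linarith
  have h3 : T / 2 ^ J ≤ T := by
    apply div_le_self hT.le
    exact one_le_pow₀ (by norm_num)
  rw [h2]
  have e1 : G ∩ Ioc (T / 2 ^ (J + 1)) T =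
      (G ∩ Ioc (T / 2 ^ J) T) ∪ (G ∩ Ioc (T / 2 ^ (J + 1)) (T / 2 ^ J)) := by
    rw [← Set.inter_union_distrib_left, Set.union_comm, Ioc_union_Ioc_eq_Ioc h1 h3]
  have e2 : ∫ t in G ∩ Icc (T / 2 ^ (J + 1)) (T / 2 ^ J), f t =
      ∫ t in G ∩ Ioc (T / 2 ^ (J + 1)) (T / 2 ^ J), f t := by
    apply setIntegral_congr_set
    exact (Filter.EventuallyEq.refl _ _).inter Ioc_ae_eq_Icc.symm
  have hint : ∀ a b : ℝ, IntegrableOn f (G ∩ Ioc a b) := by
    intro a b
    have : IntegrableOn f (Icc a b) := hf.continuousOn.integrableOn_Icc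
    exact this.mono_set (Set.inter_subset_right.trans Ioc_subset_Icc_self)
  rw [e1, e2, setIntegral_union _ (hG.inter measurableSet_Ioc) (hint _ _) (hint _ _)]
  rw [Set.disjoint_left]
  rintro x ⟨_, hx⟩ ⟨_, hy⟩
  exact absurd hx.1 (not_lt.2 hy.2)

end AuxDyS

open AuxDyS in
theorem DyS_pf : S_DyS := by
  intro f G T K hf hG hT J
  have hstep : ∀ J : ℕ, T - T / 2 ^ J + T / 2 ^ (J + 1) = T - T / 2 ^ (J + 1) := by
    intro J
    rw [pow_succ]
    field_simp
    ring
  constructor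
  · intro h
    induction J with
    | zero => simp
    | succ J ih =>
      rw [split f G T hf hG hT J, ← hstep J, mul_add]
      exact add_le_add (ih fun j hj => h j (by omega)) (h J (by omega))
  · intro h
    induction J with
    | zero => simp
    | succ J ih =>
      rw [split f G T hf hG hT J, ← hstep J, mul_add]
      exact add_le_add (ih fun j hj => h j (by omega)) (h J (by omega))

end Pool.Agent.Work.MP_56b8f5_nt.HN
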