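import Pool.Agent.Work.MP_56b8f5_nt.HN.StmtsZ

/-!
MP_56b8f5_nt, block HN, item Fin: the final statement of the hand-in, from its parts.
-/

set_option autoImplicit false

open MeasureTheory Set Filter Topology

noncomputable section

namespace Pool.Agent.Work.MP_56b8f5_nt.HN

open Pool.Agent.Work.MP_56b8f5_nt.EM Pool.Agent.Work.MP_56b8f5_nt.WM Pool.Agent.Work.MP_56b8f5_nt.SH
open Pool.Agent.Work.MP_56b8f5_nt.HZ

namespace AuxFin

theorem algebra {I T S y a C D E η : ℝ} (hT : 0 < T) (hy : 0 < y) (hC : 1 ≤ C) (hD : 1 ≤ D)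
    (hE : 0 ≤ E) (hη : 0 ≤ η) (hη1 : η ≤ 1) (h1 : |I - T * S| ≤ C * E * (T * S))
    (h2 : |S / y - a| ≤ D * η) (ha : 0 ≤ a) :
    |(1 / T) * I - a * y| ≤ (C * (a + D) + D) * (E + η) * y := by
  have e1 : |(1 / T) * I - S| ≤ C * E * S := by
    have : (1 / T) * I - S = (1 / T) * (I - T * S) := by field_simp
    rw [this, abs_mul, abs_of_pos (by positivity)]
    calc 1 / T * |I - T * S| ≤ 1 / T * (C * E * (T * S)) :=
          mul_le_mul_of_nonneg_left h1 (by positivity)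
      _ = C * E * S := by field_simp
  have e2 : |S - a * y| ≤ D * η * y := by
    have : S - a * y = (S / y - a) * y := by field_simp
    rw [this, abs_mul, abs_of_pos hy]
    exact mul_le_mul_of_nonneg_right h2 hy.le
  have e3 : S ≤ (a + D) * y := by
    have h3 := (abs_le.1 e2).2
    have h4 : D * η * y ≤ D * y := by
      have : D * η ≤ D := by nlinarith
      exact mul_le_mul_of_nonneg_right this hy.le
    nlinarith
  have e4 : C * E * S ≤ C * E * ((a + D) * y) := mul_le_mul_of_nonneg_left e3 (by positivity)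
  calc |(1 / T) * I - a * y| = |((1 / T) * I - S) + (S - a * y)| := by ring_nf
    _ ≤ |(1 / T) * I - S| + |S - a * y| := abs_add_le _ _
    _ ≤ C * E * ((a + D) * y) + D * η * y := by linarith
    _ ≤ (C * (a + D) + D) * (E + η) * y := by
      have p1 : 0 ≤ C * (a + D) * η * y := by positivity
      have p2 : 0 ≤ D * E * y := by positivity
      nlinarith

end AuxFin

theorem Fin_pf (h1 : S_DyM) (h2 : S_DyI) (h3 : S_DyF) (h4 : S_ApZ) (h5 : S_CpZ) (h6 : S_akS)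
    (h7 : S_SSb) : S_Fin := by
  refine ⟨?_, ?_⟩
  · obtain ⟨C₁, H⟩ := h1
    exact ⟨C₁, fun T A K hT hA hK => ⟨h2.1 T A K (by linarith), H T A K hT hA hK⟩⟩
  intro k hk
  obtain ⟨hak, D, hD, h6⟩ := h6 k hk
  refine ⟨hak, fun K hK => ?_⟩
  obtain ⟨c₁, C₁, T₁, hc₁, hC₁, hT₁, H₁⟩ := h3 k hk K hK
  obtain ⟨c₂, C₂, T₂, hc₂, hC₂, hT₂, H₂⟩ := h4 k hk K hK
  obtain ⟨C₃, T₃, hC₃, hT₃, H₃⟩ := h5 k hk
  obtain ⟨C₄, hC₄, H₄⟩ := h7 k
  obtain ⟨c, hc⟩ : ∃ c : ℝ, c = min (min c₁ c₂) 1 := ⟨_, rfl⟩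
  obtain ⟨C, hC⟩ : ∃ C : ℝ, C = C₁ + (C₁ * (ak k + D) + D) + C₂ + C₃ := ⟨_, rfl⟩
  have hc0 : 0 < c := by rw [hc]; exact lt_min (lt_min hc₁ hc₂) one_pos
  have hcc₁ : c ≤ c₁ := by rw [hc]; exact (min_le_left _ _).trans (min_le_left _ _)
  have hcc₂ : c ≤ c₂ := by rw [hc]; exact (min_le_left _ _).trans (min_le_right _ _)
  have hcc1 : c ≤ 1 := by rw [hc]; exact min_le_right _ _
  have hP : 0 ≤ C₁ * (ak k + D) + D := by
    have : 0 ≤ C₁ * (ak k + D) := mul_nonneg (by linarith) (by linarith)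
    linarith
  have hC1 : C₁ ≤ C := by rw [hC]; linarith
  have hC2 : C₂ ≤ C := by rw [hC]; linarith
  have hC3 : C₃ ≤ C := by rw [hC]; linarith
  have hCP : C₁ * (ak k + D) + D ≤ C := by rw [hC]; linarith
  refine ⟨c, C, max T₁ (max T₂ T₃), hc0, hT₁.trans (le_max_left _ _),
    fun T σ A hT hσ hA hA1 hA2 => ?_⟩
  have hTT₁ : T₁ ≤ T := (le_max_left _ _).trans hT
  have hTT₂ : T₂ ≤ T := ((le_max_left _ _).trans (le_max_right _ _)).trans hT
  have hTT₃ : T₃ ≤ T := ((le_max_right _ _).trans (le_max_right _ _)).trans hT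
  have hT0 : 0 < T := by linarith
  have hlog : 0 < Real.log T := Real.log_pos (by linarith)
  have hη0 : 0 < σ - 1 / 2 := by
    by_contra hcon
    have e1 : (σ - 1 / 2) * Real.log T ≤ 0 :=
      mul_nonpos_of_nonpos_of_nonneg (not_lt.1 hcon) hlog.le
    have e2 : c * ((σ - 1 / 2) * Real.log T) ≤ 0 :=
      mul_nonpos_of_nonneg_of_nonpos hc0.le e1
    linarith
  have hX0 : 0 < (σ - 1 / 2) * Real.log T := mul_pos hη0 hlog
  have hLL : 0 < Real.log T / Real.log (Real.log T) := by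
    by_contra hcon
    have := mul_nonpos_of_nonneg_of_nonpos hc0.le (not_lt.1 hcon)
    linarith
  have hη : σ - 1 / 2 ≤ 1 / 8 := by linarith
  have eS : SS k (σ - 1 / 2) = ∑' n : ℕ, dk k n ^ 2 * (n : ℝ) ^ (-(2 * σ)) := by
    unfold SS
    refine tsum_congr fun n => ?_
    have : -(1 + 2 * (σ - 1 / 2)) = -(2 * σ) := by ring
    rw [this]
  have hS : 1 ≤ ∑' n : ℕ, dk k n ^ 2 * (n : ℝ) ^ (-(2 * σ)) := by
    rw [← eS]
    exact (H₄ _ hη0 hη).2.1
  have a1 := H₁ T hTT₁ σ A hσ hA (hA1.trans (mul_le_mul_of_nonneg_right hcc₁ hX0.le))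
    (hA2.trans (mul_le_mul_of_nonneg_right hcc₁ hLL.le))
  have a2 := H₂ T hTT₂ σ A hσ hA (hA1.trans (mul_le_mul_of_nonneg_right hcc₂ hX0.le))
    (hA2.trans (mul_le_mul_of_nonneg_right hcc₂ hLL.le))
  have hAlog : A ≤ Real.log T := by
    have e1 : c * ((σ - 1 / 2) * Real.log T) ≤ 1 * ((σ - 1 / 2) * Real.log T) :=
      mul_le_mul_of_nonneg_right hcc1 hX0.le
    have e2 : (σ - 1 / 2) * Real.log T ≤ 1 * Real.log T :=
      mul_le_mul_of_nonneg_right (by linarith) hlog.le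
    linarith
  have a3 := H₃ K hK T hTT₃ σ A (by linarith) hσ hA hAlog
  have a4 := h6 (σ - 1 / 2) hη0 hη
  rw [eS] at a4
  obtain ⟨S, hSe⟩ : ∃ S : ℝ, S = ∑' n : ℕ, dk k n ^ 2 * (n : ℝ) ^ (-(2 * σ)) := ⟨_, rfl⟩
  rw [← hSe] at a1 a2 a3 a4 hS ⊢
  have hB : 0 ≤ T * S := mul_nonneg hT0.le (by linarith)
  have hE : 0 < Real.exp (-(A / 400)) := Real.exp_pos _
  refine ⟨?_, ?_, ?_, ?_⟩
  · exact a1.trans (mul_le_mul_of_nonneg_right (mul_le_mul_of_nonneg_right hC1 hE.le) hB)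
  · have hw : 0 < 2 * σ - 1 := by linarith
    have hy : 0 < (1 / (2 * σ - 1)) ^ k ^ 2 := by positivity
    have a4' : |S / (1 / (2 * σ - 1)) ^ k ^ 2 - ak k| ≤ D * (σ - 1 / 2) := by
      refine le_of_eq_of_le ?_ a4
      congr 2
      have e7 : (2 * (σ - 1 / 2)) ^ k ^ 2 = ((1 / (2 * σ - 1)) ^ k ^ 2)⁻¹ := by
        rw [← inv_pow]
        congr 1
        rw [inv_div]
        ring
      rw [e7, div_eq_mul_inv]
      ring
    have hh := AuxFin.algebra hT0 hy hC₁ hD hE.le hη0.le (by linarith) a1 a4' hak.le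
    refine hh.trans (mul_le_mul_of_nonneg_right (mul_le_mul_of_nonneg_right hCP ?_) hy.le)
    linarith
  · refine a2.trans (mul_le_mul_of_nonneg_right ?_ hB)
    have hm : 0 ≤ min ((σ - 1 / 2) * Real.log T) (Real.log T / Real.log (Real.log T)) :=
      le_min hX0.le hLL.le
    have e1 : Real.exp (-(c₂ * min ((σ - 1 / 2) * Real.log T) (Real.log T / Real.log (Real.log T)))) ≤
        Real.exp (-(c * min ((σ - 1 / 2) * Real.log T) (Real.log T / Real.log (Real.log T)))) := by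
      refine Real.exp_le_exp.2 (neg_le_neg ?_)
      exact mul_le_mul_of_nonneg_right hcc₂ hm
    exact mul_le_mul hC2 e1 (Real.exp_pos _).le (by linarith)
  · exact a3.trans (mul_le_mul_of_nonneg_right (mul_le_mul_of_nonneg_right hC3 hE.le) hB)

end Pool.Agent.Work.MP_56b8f5_nt.HN
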