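import Pool.Agent.Work.MP_56b8f5_nt.HN.StmtsK

/-!
MP_56b8f5_nt, block HN, item LoB: the local factor (helper22).
-/

set_option autoImplicit false

open MeasureTheory Set Filter Topology

noncomputable section

namespace Pool.Agent.Work.MP_56b8f5_nt.HN

open Pool.Agent.Work.MP_56b8f5_nt.EM Pool.Agent.Work.MP_56b8f5_nt.WM Pool.Agent.Work.MP_56b8f5_nt.SH
open Pool.Agent.Work.MP_56b8f5_nt.HZ

namespace AuxLoB

/-- the coefficients -/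
def c2 (k m : ℕ) : ℝ := (((m + k - 1).choose m : ℕ) : ℝ) ^ 2

theorem c2_nonneg (k m : ℕ) : 0 ≤ c2 k m := sq_nonneg _

theorem c2_zero (k : ℕ) : c2 k 0 = 1 := by
  unfold c2
  simp

theorem c2_one (k : ℕ) (hk : 1 ≤ k) : c2 k 1 = (k : ℝ) ^ 2 := by
  unfold c2
  rw [show 1 + k - 1 = k by omega, Nat.choose_one_right]

theorem c2_le (k m : ℕ) (hk : 1 ≤ k) :
    c2 k m ≤ (k : ℝ) ^ (2 * k) * (2 ^ (2 * k) * (m : ℝ) ^ (2 * k) + 1) := by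
  have h1 : (m + k - 1).choose m ≤ (k * (m + 1)) ^ k := by
    have e : (m + k - 1).choose m = (m + k - 1).choose (k - 1) := by
      rw [← Nat.choose_symm_of_eq_add (show m + k - 1 = m + (k - 1) by omega)]
    rw [e]
    have h2 : m + k - 1 ≤ k * (m + 1) := by
      obtain ⟨j, rfl⟩ : ∃ j, k = j + 1 := ⟨k - 1, by omega⟩
      rw [show m + (j + 1) - 1 = m + j by omega]
      nlinarith [Nat.zero_le (j * m)]
    have h3 : 1 ≤ k * (m + 1) := Nat.mul_pos hk (Nat.succ_pos m)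
    exact (Nat.choose_le_pow _ _).trans ((Nat.pow_le_pow_left h2 _).trans
      (Nat.pow_le_pow_right h3 (by omega)))
  have h4 : c2 k m ≤ (((k * (m + 1)) ^ k : ℕ) : ℝ) ^ 2 := by
    unfold c2
    exact pow_le_pow_left₀ (Nat.cast_nonneg _) (by exact_mod_cast h1) 2
  refine h4.trans ?_
  have e : (((k * (m + 1)) ^ k : ℕ) : ℝ) ^ 2 = (k : ℝ) ^ (2 * k) * ((m : ℝ) + 1) ^ (2 * k) := by
    push_cast
    rw [← pow_mul, mul_comm k 2, mul_pow]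
  rw [e]
  refine mul_le_mul_of_nonneg_left ?_ (by positivity)
  rcases Nat.eq_zero_or_pos m with rfl | hm
  · simp
  · have h5 : (m : ℝ) + 1 ≤ 2 * m := by
      have : (1 : ℝ) ≤ m := by exact_mod_cast hm
      linarith
    calc ((m : ℝ) + 1) ^ (2 * k) ≤ (2 * m) ^ (2 * k) := pow_le_pow_left₀ (by positivity) h5 _
      _ = 2 ^ (2 * k) * (m : ℝ) ^ (2 * k) := mul_pow _ _ _
      _ ≤ 2 ^ (2 * k) * (m : ℝ) ^ (2 * k) + 1 := by linarith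

theorem summable_half (k : ℕ) (hk : 1 ≤ k) : Summable fun m : ℕ => c2 k m * (1 / 2 : ℝ) ^ m := by
  have h1 : Summable fun m : ℕ => (m : ℝ) ^ (2 * k) * (1 / 2 : ℝ) ^ m :=
    summable_pow_mul_geometric_of_norm_lt_one (2 * k) (by norm_num)
  have h2 : Summable fun m : ℕ => (1 / 2 : ℝ) ^ m :=
    summable_geometric_of_lt_one (by norm_num) (by norm_num)
  have h3 : Summable fun m : ℕ => (k : ℝ) ^ (2 * k) *
      (2 ^ (2 * k) * ((m : ℝ) ^ (2 * k) * (1 / 2 : ℝ) ^ m) + (1 / 2 : ℝ) ^ m) :=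
    ((h1.mul_left _).add h2).mul_left _
  refine Summable.of_nonneg_of_le (fun m => mul_nonneg (c2_nonneg k m) (by positivity))
    (fun m => ?_) h3
  calc c2 k m * (1 / 2 : ℝ) ^ m
      ≤ ((k : ℝ) ^ (2 * k) * (2 ^ (2 * k) * (m : ℝ) ^ (2 * k) + 1)) * (1 / 2 : ℝ) ^ m :=
        mul_le_mul_of_nonneg_right (c2_le k m hk) (by positivity)
    _ = _ := by ring

theorem term_le (k m : ℕ) (x : ℝ) (h0 : 0 ≤ x) (h1 : x ≤ 1 / 2) :
    c2 k m * x ^ m ≤ c2 k m * (1 / 2 : ℝ) ^ m :=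
  mul_le_mul_of_nonneg_left (pow_le_pow_left₀ h0 h1 m) (c2_nonneg k m)

theorem summable_x (k : ℕ) (hk : 1 ≤ k) (x : ℝ) (h0 : 0 ≤ x) (h1 : x ≤ 1 / 2) :
    Summable fun m : ℕ => c2 k m * x ^ m :=
  Summable.of_nonneg_of_le (fun m => mul_nonneg (c2_nonneg k m) (by positivity))
    (fun m => term_le k m x h0 h1) (summable_half k hk)

/-- the value at one half -/
def SS2 (k : ℕ) : ℝ := ∑' m : ℕ, c2 k m * (1 / 2 : ℝ) ^ m

theorem g_bounds (k : ℕ) (hk : 1 ≤ k) (x : ℝ) (h0 : 0 ≤ x) (h1 : x ≤ 1 / 2) :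
    1 + (k : ℝ) ^ 2 * x ≤ ∑' m : ℕ, c2 k m * x ^ m ∧
      ∑' m : ℕ, c2 k m * x ^ m ≤ 1 + (k : ℝ) ^ 2 * x + 4 * SS2 k * x ^ 2 := by
  have hs := summable_x k hk x h0 h1
  have hh := summable_half k hk
  have e1 := hs.sum_add_tsum_nat_add 2
  have e2 : ∑ m ∈ Finset.range 2, c2 k m * x ^ m = 1 + (k : ℝ) ^ 2 * x := by
    rw [Finset.sum_range_succ, Finset.sum_range_one, c2_zero, c2_one k hk]
    ring
  rw [e2] at e1
  have hp : ∀ m : ℕ, 0 ≤ c2 k (m + 2) * x ^ (m + 2) := fun m =>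
    mul_nonneg (c2_nonneg k _) (by positivity)
  have h2 : 0 ≤ ∑' m : ℕ, c2 k (m + 2) * x ^ (m + 2) := tsum_nonneg hp
  have hsh : Summable fun m : ℕ => c2 k (m + 2) * (1 / 2 : ℝ) ^ (m + 2) :=
    (summable_nat_add_iff 2).2 hh
  have h3 : ∑' m : ℕ, c2 k (m + 2) * x ^ (m + 2) ≤
      ∑' m : ℕ, 4 * x ^ 2 * (c2 k (m + 2) * (1 / 2 : ℝ) ^ (m + 2)) := by
    refine Summable.tsum_le_tsum (fun m => ?_) ((summable_nat_add_iff 2).2 hs) (hsh.mul_left _)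
    have h4 : x ^ m ≤ (1 / 2 : ℝ) ^ m := pow_le_pow_left₀ h0 h1 m
    have h5 : c2 k (m + 2) * x ^ 2 * x ^ m ≤ c2 k (m + 2) * x ^ 2 * (1 / 2 : ℝ) ^ m :=
      mul_le_mul_of_nonneg_left h4 (mul_nonneg (c2_nonneg k _) (sq_nonneg x))
    calc c2 k (m + 2) * x ^ (m + 2) = c2 k (m + 2) * x ^ 2 * x ^ m := by ring
      _ ≤ c2 k (m + 2) * x ^ 2 * (1 / 2 : ℝ) ^ m := h5
      _ = 4 * x ^ 2 * (c2 k (m + 2) * (1 / 2 : ℝ) ^ (m + 2)) := by
        rw [pow_add (1 / 2 : ℝ)]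
        ring
  rw [tsum_mul_left] at h3
  have h6 : ∑' m : ℕ, c2 k (m + 2) * (1 / 2 : ℝ) ^ (m + 2) ≤ SS2 k := by
    have e3 := hh.sum_add_tsum_nat_add 2
    have e4 : 0 ≤ ∑ m ∈ Finset.range 2, c2 k m * (1 / 2 : ℝ) ^ m :=
      Finset.sum_nonneg fun m _ => mul_nonneg (c2_nonneg k m) (by positivity)
    unfold SS2
    linarith
  have h7 : 4 * x ^ 2 * ∑' m : ℕ, c2 k (m + 2) * (1 / 2 : ℝ) ^ (m + 2) ≤ 4 * x ^ 2 * SS2 k :=
    mul_le_mul_of_nonneg_left h6 (by positivity)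
  constructor
  · linarith
  · nlinarith

end AuxLoB

open AuxLoB in
/-- **item LoB** -/
theorem LoB_pf : S_LoB := by
  intro k hk
  have hSS : 0 ≤ SS2 k := tsum_nonneg fun m => mul_nonneg (c2_nonneg k m) (by positivity)
  refine ⟨?_, 2 ^ k ^ 2 * ((k : ℝ) ^ 4 + 4 * SS2 k), ?_, ?_⟩
  · refine ContinuousOn.mul (by fun_prop) ?_
    refine continuousOn_tsum (u := fun m => c2 k m * (1 / 2 : ℝ) ^ m) (fun m => by fun_prop)
      (summable_half k hk) fun m x hx => ?_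
    rw [Real.norm_of_nonneg (mul_nonneg (sq_nonneg _) (pow_nonneg hx.1 m))]
    exact term_le k m x hx.1 hx.2
  · have h1 : (1 : ℝ) ≤ 2 ^ k ^ 2 := one_le_pow₀ (by norm_num)
    have h2 : (1 : ℝ) ≤ (k : ℝ) ^ 4 := one_le_pow₀ (by exact_mod_cast hk)
    nlinarith
  intro x h0 hx
  have hs := summable_x k hk x h0 hx
  obtain ⟨g1, g2⟩ := g_bounds k hk x h0 hx
  have elo : lo k x = (1 - x) ^ k ^ 2 * ∑' m : ℕ, c2 k m * x ^ m := rfl
  set g := ∑' m : ℕ, c2 k m * x ^ m with hg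
  set n := k ^ 2 with hn
  have hnr : (k : ℝ) ^ 2 = n := by rw [hn]; push_cast; rfl
  rw [hnr] at g1 g2
  have hk4 : (k : ℝ) ^ 4 = (n : ℝ) ^ 2 := by rw [← hnr]; ring
  have h1x : (1 : ℝ) / 2 ≤ 1 - x := by linarith
  have hP0 : (0 : ℝ) < (1 - x) ^ n := pow_pos (by linarith) n
  have hP1 : (1 - x) ^ n ≤ 1 := pow_le_one₀ (by linarith) (by linarith)
  have hPh : (1 / 2 : ℝ) ^ n ≤ (1 - x) ^ n := pow_le_pow_left₀ (by norm_num) h1x n
  have hn0 : (0 : ℝ) ≤ n := Nat.cast_nonneg n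
  have hg1 : 1 ≤ g := by nlinarith [mul_nonneg hn0 h0]
  have hlo : (1 / 2 : ℝ) ^ n ≤ lo k x := by
    rw [elo]
    nlinarith
  have hhp : (0 : ℝ) < (1 / 2 : ℝ) ^ n := by positivity
  have hpos : 0 < lo k x := lt_of_lt_of_le hhp hlo
  refine ⟨hs, hpos, ?_⟩
  -- `lo k x - 1`
  have hB : 1 - n * x ≤ (1 - x) ^ n := by
    have := one_add_mul_le_pow (show (-2 : ℝ) ≤ -x by linarith) n
    have e : 1 + (n : ℝ) * (-x) = 1 - n * x := by ring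
    rw [e] at this
    have e2 : (1 : ℝ) + -x = 1 - x := by ring
    rwa [e2] at this
  have hU : (1 - x) ^ n * (1 + n * x) ≤ 1 := by
    have h3 := one_add_mul_le_pow (show (-2 : ℝ) ≤ x by linarith) n
    calc (1 - x) ^ n * (1 + n * x) ≤ (1 - x) ^ n * (1 + x) ^ n :=
          mul_le_mul_of_nonneg_left h3 hP0.le
      _ = (1 - x ^ 2) ^ n := by rw [← mul_pow]; ring
      _ ≤ 1 := pow_le_one₀ (by nlinarith) (by nlinarith)
  have hL : 1 - (n : ℝ) ^ 2 * x ^ 2 ≤ (1 - x) ^ n * (1 + n * x) := by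
    have h3 : (1 - n * x) * (1 + n * x) ≤ (1 - x) ^ n * (1 + n * x) :=
      mul_le_mul_of_nonneg_right hB (by positivity)
    calc 1 - (n : ℝ) ^ 2 * x ^ 2 = (1 - n * x) * (1 + n * x) := by ring
      _ ≤ _ := h3
  have hup : lo k x - 1 ≤ ((k : ℝ) ^ 4 + 4 * SS2 k) * x ^ 2 := by
    rw [elo, hk4]
    have h3 : (1 - x) ^ n * g ≤ (1 - x) ^ n * (1 + n * x + 4 * SS2 k * x ^ 2) :=
      mul_le_mul_of_nonneg_left g2 hP0.le
    have h4 : (1 - x) ^ n * (4 * SS2 k * x ^ 2) ≤ 1 * (4 * SS2 k * x ^ 2) :=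
      mul_le_mul_of_nonneg_right hP1 (by positivity)
    have h5 : 0 ≤ (n : ℝ) ^ 2 * x ^ 2 := by positivity
    nlinarith
  have hdn : 1 - lo k x ≤ ((k : ℝ) ^ 4 + 4 * SS2 k) * x ^ 2 := by
    rw [elo, hk4]
    have h3 : (1 - x) ^ n * (1 + n * x) ≤ (1 - x) ^ n * g :=
      mul_le_mul_of_nonneg_left g1 hP0.le
    have h5 : 0 ≤ 4 * SS2 k * x ^ 2 := by positivity
    nlinarith
  have hC0 : 0 ≤ ((k : ℝ) ^ 4 + 4 * SS2 k) * x ^ 2 := by positivity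
  have h2n : (1 : ℝ) ≤ 2 ^ n := one_le_pow₀ (by norm_num)
  rw [abs_le]
  constructor
  · -- lower bound
    have h6 : -Real.log (lo k x) ≤ (lo k x)⁻¹ - 1 := by
      rw [← Real.log_inv]
      exact Real.log_le_sub_one_of_pos (inv_pos.2 hpos)
    have h7 : (lo k x)⁻¹ - 1 = (1 - lo k x) * (lo k x)⁻¹ := by
      field_simp
    have h8 : (lo k x)⁻¹ ≤ 2 ^ n := by
      have := inv_anti₀ hhp hlo
      rwa [one_div, inv_pow, inv_inv] at this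
    have h9 : (1 - lo k x) * (lo k x)⁻¹ ≤ ((k : ℝ) ^ 4 + 4 * SS2 k) * x ^ 2 * 2 ^ n :=
      calc (1 - lo k x) * (lo k x)⁻¹ ≤ (((k : ℝ) ^ 4 + 4 * SS2 k) * x ^ 2) * (lo k x)⁻¹ :=
            mul_le_mul_of_nonneg_right hdn (inv_pos.2 hpos).le
        _ ≤ ((k : ℝ) ^ 4 + 4 * SS2 k) * x ^ 2 * 2 ^ n := mul_le_mul_of_nonneg_left h8 hC0
    have e : 2 ^ n * ((k : ℝ) ^ 4 + 4 * SS2 k) * x ^ 2 =
        ((k : ℝ) ^ 4 + 4 * SS2 k) * x ^ 2 * 2 ^ n := by ring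
    rw [e]
    linarith
  · have h6 := Real.log_le_sub_one_of_pos hpos
    have e : 2 ^ n * ((k : ℝ) ^ 4 + 4 * SS2 k) * x ^ 2 =
        2 ^ n * (((k : ℝ) ^ 4 + 4 * SS2 k) * x ^ 2) := by ring
    rw [e]
    have h7 : ((k : ℝ) ^ 4 + 4 * SS2 k) * x ^ 2 ≤
        2 ^ n * (((k : ℝ) ^ 4 + 4 * SS2 k) * x ^ 2) := le_mul_of_one_le_left hC0 h2n
    linarith

end Pool.Agent.Work.MP_56b8f5_nt.HN
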