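import Pool.Agent.Work.MP_56b8f5_nt.HN.StmtsK
import Pool.Agent.Work.MP_56b8f5_nt.HN.I_Pri

/-!
MP_56b8f5_nt, block HN, item LoZ: the logarithm of `SS k η` as a sum over the primes.
-/

set_option autoImplicit false

open MeasureTheory Set Filter Topology

noncomputable section

namespace Pool.Agent.Work.MP_56b8f5_nt.HN

open Pool.Agent.Work.MP_56b8f5_nt.EM Pool.Agent.Work.MP_56b8f5_nt.WM Pool.Agent.Work.MP_56b8f5_nt.SH
open Pool.Agent.Work.MP_56b8f5_nt.HZ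

namespace AuxLoZ

/-- the logarithm of an Euler product with positive factors -/
theorem euler (f : ℕ → ℝ) (h0 : f 0 = 0) (h1 : f 1 = 1)
    (hm : ∀ m n, Nat.Coprime m n → f (m * n) = f m * f n) (hs : Summable fun n => ‖f n‖)
    (F : Nat.Primes → ℝ) (hF : ∀ p : Nat.Primes, ∑' e : ℕ, f ((p : ℕ) ^ e) = F p)
    (hFp : ∀ p, 0 < F p) (hl : Summable fun p => Real.log (F p)) :
    Real.log (∑' n, f n) = ∑' p, Real.log (F p) := by
  have h := EulerProduct.eulerProduct_hasProd h1 (fun {m n} => hm m n) hs h0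
  have h' : ∑' n, f n = ∏' p, F p := by
    rw [← h.tprod_eq]
    exact tprod_congr hF
  rw [h', ← Real.rexp_tsum_eq_tprod hFp hl, Real.log_exp]

/-- powers of the base and real exponents -/
theorem pow_cast (p e : ℕ) (s : ℝ) : (((p ^ e : ℕ) : ℝ)) ^ (-s) = ((p : ℝ) ^ (-s)) ^ e := by
  rw [Nat.cast_pow, ← Real.rpow_natCast, ← Real.rpow_mul (Nat.cast_nonneg p), mul_comm,
    Real.rpow_mul (Nat.cast_nonneg p), Real.rpow_natCast]

theorem x_pos (p : Nat.Primes) (s : ℝ) : 0 < ((p : ℕ) : ℝ) ^ (-s) :=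
  Real.rpow_pos_of_pos (by exact_mod_cast p.2.pos) _

theorem x_le (p : Nat.Primes) (s : ℝ) (hs : 1 ≤ s) : ((p : ℕ) : ℝ) ^ (-s) ≤ 1 / 2 := by
  have hp : (2 : ℝ) ≤ ((p : ℕ) : ℝ) := by exact_mod_cast p.2.two_le
  calc ((p : ℕ) : ℝ) ^ (-s) ≤ ((p : ℕ) : ℝ) ^ (-1 : ℝ) :=
        Real.rpow_le_rpow_of_exponent_le (by linarith) (by linarith)
    _ = (((p : ℕ) : ℝ))⁻¹ := Real.rpow_neg_one _
    _ ≤ 1 / 2 := by
        rw [one_div]
        exact inv_anti₀ (by norm_num) hp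

/-- the logarithm of `∑ n^{-s}` -/
theorem logzeta (s : ℝ) (hs : 1 < s) :
    Real.log (∑' n : ℕ, 1 / (n : ℝ) ^ s) =
      ∑' p : Nat.Primes, -Real.log (1 - ((p : ℕ) : ℝ) ^ (-s)) := by
  have hf : (fun n : ℕ => 1 / (n : ℝ) ^ s) = fun n : ℕ => (n : ℝ) ^ (-s) := by
    funext n
    rw [Real.rpow_neg (Nat.cast_nonneg n), one_div]
  have hsum : Summable (fun n : ℕ => (n : ℝ) ^ (-s)) := by
    rw [← hf]
    exact Real.summable_one_div_nat_rpow.2 hs
  have hlog : ∀ p : Nat.Primes, Real.log ((1 - ((p : ℕ) : ℝ) ^ (-s))⁻¹) =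
      -Real.log (1 - ((p : ℕ) : ℝ) ^ (-s)) := fun p => Real.log_inv _
  rw [hf, euler (fun n : ℕ => (n : ℝ) ^ (-s)) ?_ ?_ ?_ ?_
    (fun p : Nat.Primes => (1 - ((p : ℕ) : ℝ) ^ (-s))⁻¹) ?_ ?_ ?_]
  · exact tsum_congr hlog
  · have : -s ≠ 0 := by linarith
    simp [Real.zero_rpow this]
  · simp
  · intro m n _
    rw [Nat.cast_mul, Real.mul_rpow (Nat.cast_nonneg m) (Nat.cast_nonneg n)]
  · refine hsum.congr fun n => ?_
    rw [Real.norm_of_nonneg (Real.rpow_nonneg (Nat.cast_nonneg n) _)]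
  · intro p
    rw [tsum_congr fun e => pow_cast p e s]
    refine tsum_geometric_of_lt_one (x_pos p s).le ?_
    have := x_le p s hs.le
    linarith
  · intro p
    have := x_le p s hs.le
    refine inv_pos.2 ?_
    linarith
  · exact (AuxPri.logz s hs).1.congr fun p => (hlog p).symm

end AuxLoZ

open AuxLoZ in
/-- ITEM LoZ. -/
theorem LoZ_pf (h1 : S_dkB) (h2 : S_SSb) (h3 : S_LoB) : S_LoZ := by
  intro k hk η hη hη1
  obtain ⟨j, rfl⟩ : ∃ j, k = j + 1 := ⟨k - 1, by omega⟩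
  obtain ⟨-, C, hC1, hC⟩ := h3 (j + 1) hk
  obtain ⟨C', -, hC'⟩ := h2 (j + 1)
  have hsum := (hC' η hη hη1).1
  set s : ℝ := 1 + 2 * η with hs
  have hs1 : 1 < s := by linarith
  have hx0 : ∀ p : Nat.Primes, 0 < ((p : ℕ) : ℝ) ^ (-s) := fun p => x_pos p s
  have hx1 : ∀ p : Nat.Primes, ((p : ℕ) : ℝ) ^ (-s) ≤ 1 / 2 := fun p => x_le p s hs1.le
  have hxs : Summable (fun p : Nat.Primes => ((p : ℕ) : ℝ) ^ (-s)) :=
    Nat.Primes.summable_rpow.mpr (by linarith)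
  have hlo : Summable (fun p : Nat.Primes => Real.log (lo (j + 1) (((p : ℕ) : ℝ) ^ (-s)))) := by
    refine Summable.of_norm_bounded (hxs.mul_left C) fun p => ?_
    rw [Real.norm_eq_abs]
    refine ((hC _ (hx0 p).le (hx1 p)).2.2).trans ?_
    refine mul_le_mul_of_nonneg_left ?_ (by linarith)
    nlinarith [hx0 p, hx1 p]
  refine ⟨hlo, ?_⟩
  have hz := AuxPri.logz s hs1
  -- the Euler factor
  set F : Nat.Primes → ℝ := fun p =>
    ∑' m : ℕ, (((m + (j + 1) - 1).choose m : ℕ) : ℝ) ^ 2 * (((p : ℕ) : ℝ) ^ (-s)) ^ m with hFdef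
  have hloF : ∀ p : Nat.Primes, lo (j + 1) (((p : ℕ) : ℝ) ^ (-s)) =
      (1 - ((p : ℕ) : ℝ) ^ (-s)) ^ (j + 1) ^ 2 * F p := fun p => rfl
  have h1x : ∀ p : Nat.Primes, 0 < 1 - ((p : ℕ) : ℝ) ^ (-s) := fun p => by
    have := hx1 p
    linarith
  have hFp : ∀ p, 0 < F p := by
    intro p
    have h4 := (hC _ (hx0 p).le (hx1 p)).2.1
    rw [hloF] at h4
    exact (pos_iff_pos_of_mul_pos h4).1 (pow_pos (h1x p) _)
  have hlogF : ∀ p, Real.log (F p) = Real.log (lo (j + 1) (((p : ℕ) : ℝ) ^ (-s))) +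
      ((j + 1 : ℕ) : ℝ) ^ 2 * -Real.log (1 - ((p : ℕ) : ℝ) ^ (-s)) := by
    intro p
    rw [hloF, Real.log_mul (pow_pos (h1x p) _).ne' (hFp p).ne', Real.log_pow]
    push_cast
    ring
  have hlF : Summable fun p => Real.log (F p) := by
    refine (hlo.add (hz.1.mul_left (((j + 1 : ℕ) : ℝ) ^ 2))).congr fun p => ?_
    exact (hlogF p).symm
  have key : Real.log (SS (j + 1) η) = ∑' p, Real.log (F p) := by
    refine euler (fun n : ℕ => dk (j + 1) n ^ 2 * (n : ℝ) ^ (-(1 + 2 * η))) ?_ ?_ ?_ ?_ F ?_ hFp hlF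
    · simp [(h1.1 (j + 1)).1]
    · simp [(h1.1 (j + 1)).2]
    · intro m n hmn
      rw [h1.2.2.2.2.2.2.1 (j + 1) m n hmn, Nat.cast_mul,
        Real.mul_rpow (Nat.cast_nonneg m) (Nat.cast_nonneg n)]
      ring
    · refine hsum.congr fun n => ?_
      rw [Real.norm_of_nonneg (mul_nonneg (sq_nonneg _)
        (Real.rpow_nonneg (Nat.cast_nonneg n) _))]
    · intro p
      refine tsum_congr fun e => ?_
      rw [h1.2.2.2.2.2.2.2.1 j (p : ℕ) e p.2, pow_cast, ← hs]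
      congr 3
      rw [show e + (j + 1) - 1 = e + j by omega]
      exact (Nat.choose_symm_add).symm
  rw [key, tsum_congr hlogF, hlo.tsum_add (hz.1.mul_left _), tsum_mul_left, logzeta s hs1]
  ring

end Pool.Agent.Work.MP_56b8f5_nt.HN
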