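import Pool.Agent.Work.MP_56b8f5_nt.HN.StmtsK

/-!
MP_56b8f5_nt, block HN, item LoL: the arithmetic factor as a limit.
-/

set_option autoImplicit false

open MeasureTheory Set Filter Topology

noncomputable section

namespace Pool.Agent.Work.MP_56b8f5_nt.HN

open Pool.Agent.Work.MP_56b8f5_nt.EM Pool.Agent.Work.MP_56b8f5_nt.WM Pool.Agent.Work.MP_56b8f5_nt.SH
open Pool.Agent.Work.MP_56b8f5_nt.HZ

namespace AuxLoL

/-- The bound `C/p^2` is summable. -/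
lemma sum_bound (C : ℝ) : Summable (fun p : Nat.Primes => C * (1 / ((p : ℕ) : ℝ)) ^ 2) := by
  have h1 : Summable (fun n : ℕ => 1 / (n : ℝ) ^ 2) :=
    Real.summable_one_div_nat_pow.2 (by norm_num)
  have h2 : Summable (fun p : Nat.Primes => 1 / (((p : ℕ) : ℕ) : ℝ) ^ 2) :=
    h1.comp_injective Nat.Primes.coe_nat_injective
  refine Summable.mul_left C ?_
  refine h2.congr fun p => ?_
  rw [div_pow, one_pow]

lemma pinv (p : Nat.Primes) : (0 : ℝ) < 1 / ((p : ℕ) : ℝ) ∧ 1 / ((p : ℕ) : ℝ) ≤ 1 / 2 := by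
  have hp : (2 : ℝ) ≤ ((p : ℕ) : ℝ) := by exact_mod_cast p.2.two_le
  constructor
  · positivity
  · exact one_div_le_one_div_of_le (by norm_num) hp

lemma xp {η : ℝ} (hη : 0 ≤ η) (p : Nat.Primes) :
    (0 : ℝ) ≤ ((p : ℕ) : ℝ) ^ (-(1 + 2 * η)) ∧
      ((p : ℕ) : ℝ) ^ (-(1 + 2 * η)) ≤ 1 / ((p : ℕ) : ℝ) := by
  have hp : (2 : ℝ) ≤ ((p : ℕ) : ℝ) := by exact_mod_cast p.2.two_le
  constructor
  · positivity
  · have h1 : ((p : ℕ) : ℝ) ^ (-(1 + 2 * η)) ≤ ((p : ℕ) : ℝ) ^ (-1 : ℝ) :=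
      Real.rpow_le_rpow_of_exponent_le (by linarith) (by linarith)
    rw [Real.rpow_neg_one] at h1
    rwa [one_div]

/-- `p^{-(1+2η)}` tends to `1/p`. -/
lemma lim_x (p : Nat.Primes) :
    Tendsto (fun η : ℝ => ((p : ℕ) : ℝ) ^ (-(1 + 2 * η))) (𝓝[>] 0)
      (𝓝[Icc (0 : ℝ) (1 / 2)] (1 / ((p : ℕ) : ℝ))) := by
  have hp : (2 : ℝ) ≤ ((p : ℕ) : ℝ) := by exact_mod_cast p.2.two_le
  refine tendsto_nhdsWithin_iff.2 ⟨?_, ?_⟩
  · have h1 : Continuous (fun η : ℝ => ((p : ℕ) : ℝ) ^ (-(1 + 2 * η))) :=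
      Continuous.rpow continuous_const (by fun_prop) fun _ => Or.inl (by positivity)
    have h2 := h1.tendsto 0
    have h3 : ((p : ℕ) : ℝ) ^ (-(1 + 2 * (0 : ℝ))) = 1 / ((p : ℕ) : ℝ) := by
      rw [mul_zero, add_zero, Real.rpow_neg_one, one_div]
    rw [h3] at h2
    exact h2.mono_left nhdsWithin_le_nhds
  · filter_upwards [self_mem_nhdsWithin] with η hη
    have h1 := xp (le_of_lt (show (0 : ℝ) < η from hη)) p
    exact ⟨h1.1, h1.2.trans (pinv p).2⟩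

end AuxLoL

open AuxLoL in
theorem LoL_pf (h1 : S_LoB) (h2 : S_LoZ) (h3 : S_SSb) : S_LoL := by
  intro k hk
  obtain ⟨hcont, C, hC, hB⟩ := h1 k hk
  obtain ⟨C', -, hS⟩ := h3 k
  have hpos : ∀ p : Nat.Primes, 0 < lo k (1 / ((p : ℕ) : ℝ)) := fun p =>
    (hB _ (pinv p).1.le (pinv p).2).2.1
  have hsum : Summable (fun p : Nat.Primes => Real.log (lo k (1 / ((p : ℕ) : ℝ)))) := by
    refine Summable.of_norm_bounded (sum_bound C) fun p => ?_
    rw [Real.norm_eq_abs]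
    exact (hB _ (pinv p).1.le (pinv p).2).2.2
  have hak : Real.exp (∑' p : Nat.Primes, Real.log (lo k (1 / ((p : ℕ) : ℝ)))) = ak k :=
    Real.rexp_tsum_eq_tprod hpos hsum
  refine ⟨?_, ?_⟩
  · rw [← hak]
    exact Real.exp_pos _
  -- the sum over the primes
  have hlim : Tendsto (fun η : ℝ => ∑' p : Nat.Primes,
      Real.log (lo k (((p : ℕ) : ℝ) ^ (-(1 + 2 * η))))) (𝓝[>] 0)
      (𝓝 (∑' p : Nat.Primes, Real.log (lo k (1 / ((p : ℕ) : ℝ))))) := by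
    refine tendsto_tsum_of_dominated_convergence (sum_bound C) (fun p => ?_) ?_
    · have e1 : ContinuousWithinAt (lo k) (Icc 0 (1 / 2)) (1 / ((p : ℕ) : ℝ)) :=
        hcont _ ⟨(pinv p).1.le, (pinv p).2⟩
      have e2 : Tendsto (fun η : ℝ => lo k (((p : ℕ) : ℝ) ^ (-(1 + 2 * η)))) (𝓝[>] 0)
          (𝓝 (lo k (1 / ((p : ℕ) : ℝ)))) := Tendsto.comp e1 (lim_x p)
      exact (Real.continuousAt_log (hpos p).ne').tendsto.comp e2
    · filter_upwards [self_mem_nhdsWithin] with η hη p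
      have e1 := xp (le_of_lt (show (0 : ℝ) < η from hη)) p
      have e2 := (hB _ e1.1 (e1.2.trans (pinv p).2)).2.2
      rw [Real.norm_eq_abs]
      exact e2.trans (mul_le_mul_of_nonneg_left (pow_le_pow_left₀ e1.1 e1.2 2) (by linarith))
  -- the zeta factor
  have hz : Tendsto (fun η : ℝ => 2 * η * ∑' n : ℕ, 1 / (n : ℝ) ^ (1 + 2 * η)) (𝓝[>] 0)
      (𝓝 1) := by
    have e1 : Tendsto (fun η : ℝ => 1 + 2 * η) (𝓝[>] 0) (𝓝[>] 1) := by
      refine tendsto_nhdsWithin_iff.2 ⟨?_, ?_⟩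
      · have e2 : Continuous (fun η : ℝ => 1 + 2 * η) := by fun_prop
        have e3 := e2.tendsto 0
        rw [mul_zero, add_zero] at e3
        exact e3.mono_left nhdsWithin_le_nhds
      · filter_upwards [self_mem_nhdsWithin] with η hη
        have : (0 : ℝ) < η := hη
        show (1 : ℝ) < 1 + 2 * η
        linarith
    have e2 := tendsto_sub_mul_tsum_nat_rpow.comp e1
    refine e2.congr fun η => ?_
    show (1 + 2 * η - 1) * _ = _
    congr 1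
    ring
  have hlim2 := (hz.pow (k ^ 2)).mul ((Real.continuous_exp.tendsto _).comp hlim)
  rw [one_pow, one_mul, hak] at hlim2
  refine hlim2.congr' ?_
  have hev : ∀ᶠ η : ℝ in 𝓝[>] 0, η ≤ 1 / 10 := by
    have : ∀ᶠ η : ℝ in 𝓝 (0 : ℝ), η < 1 / 10 := eventually_lt_nhds (by norm_num)
    exact (this.filter_mono nhdsWithin_le_nhds).mono fun η h => h.le
  filter_upwards [self_mem_nhdsWithin, hev] with η hη hη2
  have hη0 : (0 : ℝ) < η := hη
  obtain ⟨-, hSS, -, -⟩ := hS η hη0 (by linarith)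
  have e1 := (h2 k hk η hη0 (by linarith)).2
  have hZ : 0 < ∑' n : ℕ, 1 / (n : ℝ) ^ (1 + 2 * η) := by
    have hs : Summable (fun n : ℕ => 1 / (n : ℝ) ^ (1 + 2 * η)) :=
      Real.summable_one_div_nat_rpow.2 (by linarith)
    refine hs.tsum_pos (fun n => by positivity) 1 ?_
    simp
  have e2 : SS k η = (∑' n : ℕ, 1 / (n : ℝ) ^ (1 + 2 * η)) ^ k ^ 2 *
      Real.exp (∑' p : Nat.Primes, Real.log (lo k (((p : ℕ) : ℝ) ^ (-(1 + 2 * η))))) := by
    rw [← Real.exp_log (show 0 < SS k η by linarith), e1, Real.exp_add]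
    congr 1
    have e3 : (k : ℝ) ^ 2 * Real.log (∑' n : ℕ, 1 / (n : ℝ) ^ (1 + 2 * η)) =
        Real.log ((∑' n : ℕ, 1 / (n : ℝ) ^ (1 + 2 * η)) ^ k ^ 2) := by
      rw [Real.log_pow]
      push_cast
      ring
    rw [e3, Real.exp_log (by positivity)]
  rw [e2, mul_pow]
  simp only [Function.comp_apply]
  ring

end Pool.Agent.Work.MP_56b8f5_nt.HN
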