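import Pool.Agent.Work.MP_56b8f5_nt.HN.StmtsQ
import Pool.Agent.Work.MP_56b8f5_nt.HN.I_LoB
import Pool.Agent.Work.MP_56b8f5_nt.HN.I_LoL

/-!
MP_56b8f5_nt, block HN, item akS: the arithmetic factor as a limit, with a rate (helper77).
-/

set_option autoImplicit false

open MeasureTheory Set Filter Topology

noncomputable section

namespace Pool.Agent.Work.MP_56b8f5_nt.HN

open Pool.Agent.Work.MP_56b8f5_nt.EM Pool.Agent.Work.MP_56b8f5_nt.WM Pool.Agent.Work.MP_56b8f5_nt.SH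
open Pool.Agent.Work.MP_56b8f5_nt.HZ

namespace AuxakS

open AuxLoB

/-- difference of powers -/
theorem pow_diff (x y : ℝ) (hx : 0 ≤ x) (hxy : x ≤ y) (m : ℕ) :
    0 ≤ y ^ (m + 1) - x ^ (m + 1) ∧ y ^ (m + 1) - x ^ (m + 1) ≤ ((m : ℝ) + 1) * y ^ m * (y - x) := by
  have hy : 0 ≤ y := hx.trans hxy
  refine ⟨sub_nonneg.2 (pow_le_pow_left₀ hx hxy _), ?_⟩
  induction m with
  | zero => simp
  | succ m ih =>
    have h1 : y ^ (m + 1 + 1) - x ^ (m + 1 + 1) =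
        y * (y ^ (m + 1) - x ^ (m + 1)) + x ^ (m + 1) * (y - x) := by ring
    have h2 : y * (y ^ (m + 1) - x ^ (m + 1)) ≤ y * (((m : ℝ) + 1) * y ^ m * (y - x)) :=
      mul_le_mul_of_nonneg_left ih hy
    have h3 : x ^ (m + 1) * (y - x) ≤ y ^ (m + 1) * (y - x) :=
      mul_le_mul_of_nonneg_right (pow_le_pow_left₀ hx hxy _) (by linarith)
    rw [h1]
    push_cast
    calc _ ≤ y * (((m : ℝ) + 1) * y ^ m * (y - x)) + y ^ (m + 1) * (y - x) := add_le_add h2 h3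
      _ = ((m : ℝ) + 1 + 1) * y ^ (m + 1) * (y - x) := by ring

theorem summable_R (k : ℕ) (hk : 1 ≤ k) :
    Summable fun m : ℕ => c2 k (m + 2) * (((m : ℝ) + 2) * (1 / 2 : ℝ) ^ m) := by
  have h1 : Summable fun m : ℕ => (m : ℝ) ^ (2 * k + 1) * (1 / 2 : ℝ) ^ m :=
    summable_pow_mul_geometric_of_norm_lt_one (2 * k + 1) (by norm_num)
  have h2 : Summable fun m : ℕ => (m : ℝ) ^ 1 * (1 / 2 : ℝ) ^ m :=
    summable_pow_mul_geometric_of_norm_lt_one 1 (by norm_num)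
  have h3 : Summable fun m : ℕ => 4 * ((k : ℝ) ^ (2 * k) *
      (2 ^ (2 * k) * ((m : ℝ) ^ (2 * k + 1) * (1 / 2 : ℝ) ^ m) + (m : ℝ) ^ 1 * (1 / 2 : ℝ) ^ m)) :=
    (((h1.mul_left _).add h2).mul_left _).mul_left _
  have h4 := (summable_nat_add_iff 2).2 h3
  refine Summable.of_nonneg_of_le (fun m => mul_nonneg (c2_nonneg k _) (by positivity))
    (fun m => ?_) h4
  have h5 := c2_le k (m + 2) hk
  calc c2 k (m + 2) * (((m : ℝ) + 2) * (1 / 2 : ℝ) ^ m)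
      ≤ ((k : ℝ) ^ (2 * k) * (2 ^ (2 * k) * (((m + 2 : ℕ) : ℝ)) ^ (2 * k) + 1)) *
          (((m : ℝ) + 2) * (1 / 2 : ℝ) ^ m) :=
        mul_le_mul_of_nonneg_right h5 (by positivity)
    _ = _ := by
        push_cast
        rw [pow_add (1 / 2 : ℝ) m 2, pow_succ ((m : ℝ) + 2) (2 * k)]
        ring

/-- the constant -/
def RR (k : ℕ) : ℝ := ∑' m : ℕ, c2 k (m + 2) * (((m : ℝ) + 2) * (1 / 2 : ℝ) ^ m)

theorem RR_nonneg (k : ℕ) : 0 ≤ RR k :=
  tsum_nonneg fun m => mul_nonneg (c2_nonneg k _) (by positivity)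

theorem g_diff (k : ℕ) (hk : 1 ≤ k) (x y : ℝ) (hx : 0 ≤ x) (hxy : x ≤ y) (hy : y ≤ 1 / 2) :
    (k : ℝ) ^ 2 * (y - x) ≤ (∑' m : ℕ, c2 k m * y ^ m) - ∑' m : ℕ, c2 k m * x ^ m ∧
    (∑' m : ℕ, c2 k m * y ^ m) - ∑' m : ℕ, c2 k m * x ^ m ≤
      (k : ℝ) ^ 2 * (y - x) + RR k * (y * (y - x)) := by
  have hy0 : 0 ≤ y := hx.trans hxy
  have sx := summable_x k hk x hx (hxy.trans hy)
  have sy := summable_x k hk y hy0 hy
  have ex := sx.sum_add_tsum_nat_add 2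
  have ey := sy.sum_add_tsum_nat_add 2
  have e2 : ∀ z : ℝ, ∑ m ∈ Finset.range 2, c2 k m * z ^ m = 1 + (k : ℝ) ^ 2 * z := by
    intro z
    rw [Finset.sum_range_succ, Finset.sum_range_one, c2_zero, c2_one k hk]
    ring
  rw [e2] at ex ey
  have tx : Summable fun m : ℕ => c2 k (m + 2) * x ^ (m + 2) := (summable_nat_add_iff 2).2 sx
  have ty : Summable fun m : ℕ => c2 k (m + 2) * y ^ (m + 2) := (summable_nat_add_iff 2).2 sy
  have hd : (∑' m : ℕ, c2 k (m + 2) * y ^ (m + 2)) - ∑' m : ℕ, c2 k (m + 2) * x ^ (m + 2) =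
      ∑' m : ℕ, (c2 k (m + 2) * y ^ (m + 2) - c2 k (m + 2) * x ^ (m + 2)) :=
    (ty.tsum_sub tx).symm
  have hpos : 0 ≤ ∑' m : ℕ, (c2 k (m + 2) * y ^ (m + 2) - c2 k (m + 2) * x ^ (m + 2)) := by
    refine tsum_nonneg fun m => ?_
    rw [← mul_sub]
    exact mul_nonneg (c2_nonneg k _) (pow_diff x y hx hxy (m + 1)).1
  have hup : ∑' m : ℕ, (c2 k (m + 2) * y ^ (m + 2) - c2 k (m + 2) * x ^ (m + 2)) ≤
      RR k * (y * (y - x)) := by
    unfold RR
    rw [← tsum_mul_right]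
    refine Summable.tsum_le_tsum (fun m => ?_) (ty.sub tx) ((summable_R k hk).mul_right _)
    rw [← mul_sub, mul_assoc]
    refine mul_le_mul_of_nonneg_left ?_ (c2_nonneg k _)
    have h1 := (pow_diff x y hx hxy (m + 1)).2
    have h2 : y ^ m ≤ (1 / 2 : ℝ) ^ m := pow_le_pow_left₀ hy0 hy m
    push_cast at h1
    have h3 : y ^ m * (y * (y - x)) ≤ (1 / 2 : ℝ) ^ m * (y * (y - x)) :=
      mul_le_mul_of_nonneg_right h2 (mul_nonneg hy0 (by linarith))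
    calc y ^ (m + 2) - x ^ (m + 2) ≤ ((m : ℝ) + 1 + 1) * y ^ (m + 1) * (y - x) := h1
      _ = ((m : ℝ) + 2) * (y ^ m * (y * (y - x))) := by ring
      _ ≤ ((m : ℝ) + 2) * ((1 / 2 : ℝ) ^ m * (y * (y - x))) :=
          mul_le_mul_of_nonneg_left h3 (by positivity)
      _ = ((m : ℝ) + 2) * (1 / 2 : ℝ) ^ m * (y * (y - x)) := by ring
  constructor <;> nlinarith

/-- the first logarithm -/
theorem log1 (x y : ℝ) (hx : 0 ≤ x) (hxy : x ≤ y) (hy : y ≤ 1 / 2) :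
    y - x ≤ Real.log (1 - x) - Real.log (1 - y) ∧
      Real.log (1 - x) - Real.log (1 - y) ≤ (y - x) + 10 * (y * (y - x)) := by
  have hy0 : 0 ≤ y := hx.trans hxy
  have h1x : 0 < 1 - x := by linarith
  have h1y : 0 < 1 - y := by linarith
  have hd0 : 0 ≤ y - x := by linarith
  constructor
  · have e1 : Real.log (1 - y) - Real.log (1 - x) = Real.log ((1 - y) / (1 - x)) :=
      (Real.log_div h1y.ne' h1x.ne').symm
    have e2 : Real.log ((1 - y) / (1 - x)) ≤ (1 - y) / (1 - x) - 1 :=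
      Real.log_le_sub_one_of_pos (div_pos h1y h1x)
    have e3 : (1 - y) / (1 - x) - 1 = - ((y - x) / (1 - x)) := by
      field_simp
      ring
    have e4 : y - x ≤ (y - x) / (1 - x) := by
      rw [le_div_iff₀ h1x]
      have : 0 ≤ (y - x) * x := mul_nonneg hd0 hx
      linarith
    linarith
  · have e1 : Real.log (1 - x) - Real.log (1 - y) = Real.log ((1 - x) / (1 - y)) :=
      (Real.log_div h1x.ne' h1y.ne').symm
    have e2 : Real.log ((1 - x) / (1 - y)) ≤ (1 - x) / (1 - y) - 1 :=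
      Real.log_le_sub_one_of_pos (div_pos h1x h1y)
    have e3 : (1 - x) / (1 - y) - 1 = (y - x) / (1 - y) := by
      field_simp
      ring
    have e4 : (y - x) / (1 - y) ≤ (y - x) + 10 * (y * (y - x)) := by
      rw [div_le_iff₀ h1y]
      have h1 : 0 ≤ (y * (y - x)) * (9 - 10 * y) :=
        mul_nonneg (mul_nonneg hy0 hd0) (by linarith)
      have h2 : ((y - x) + 10 * (y * (y - x))) * (1 - y) =
          (y - x) + (y * (y - x)) * (9 - 10 * y) := by ring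
      linarith
    linarith

/-- the second logarithm -/
theorem log2 (a b : ℝ) (ha : 1 ≤ a) (hab : a ≤ b) :
    (b - a) / a - ((b - a) / a) ^ 2 ≤ Real.log b - Real.log a ∧
      Real.log b - Real.log a ≤ (b - a) / a := by
  have ha0 : 0 < a := by linarith
  have hb0 : 0 < b := by linarith
  have e5 : Real.log b - Real.log a = Real.log (1 + (b - a) / a) := by
    rw [← Real.log_div hb0.ne' ha0.ne']
    congr 1
    field_simp
    ring
  rw [e5]
  have hu0 : 0 ≤ (b - a) / a := div_nonneg (by linarith) ha0.le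
  generalize (b - a) / a = u at hu0 ⊢
  constructor
  · have h1 := Real.one_sub_inv_le_log_of_pos (show 0 < 1 + u by linarith)
    have h2 : u - u ^ 2 ≤ 1 - (1 + u)⁻¹ := by
      have h3 : 1 - (1 + u)⁻¹ = u / (1 + u) := by
        field_simp
        ring
      rw [h3, le_div_iff₀ (by linarith)]
      have : 0 ≤ u ^ 3 := by positivity
      have e : (u - u ^ 2) * (1 + u) = u - u ^ 3 := by ring
      linarith
    linarith
  · have := Real.log_le_sub_one_of_pos (show 0 < 1 + u by linarith)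
    linarith

/-- the lower bound for `u` -/
theorem ulow (n S x d q a b : ℝ) (hn : 0 ≤ n) (hS : 0 ≤ S) (hx : 0 ≤ x) (hx1 : x ≤ 1 / 2)
    (hd : 0 ≤ d) (hxq : x * d ≤ q) (ha : 1 ≤ a) (ha2 : a ≤ 1 + n * x + 4 * S * x ^ 2)
    (hab : n * d ≤ b - a) : n * d - n * (n + 2 * S) * q ≤ (b - a) / a := by
  have ha0 : 0 < a := by linarith
  have hT : 0 ≤ n + 2 * S := by linarith
  have h2 : a ≤ 1 + (n + 2 * S) * x := by
    have h3 : x ^ 2 ≤ x / 2 := by
      have : 0 ≤ x * (1 / 2 - x) := mul_nonneg hx (by linarith)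
      have e : x * (1 / 2 - x) = x / 2 - x ^ 2 := by ring
      linarith
    have h4 : 4 * S * x ^ 2 ≤ 4 * S * (x / 2) := mul_le_mul_of_nonneg_left h3 (by linarith)
    have e : 4 * S * (x / 2) = 2 * S * x := by ring
    have e2 : (n + 2 * S) * x = n * x + 2 * S * x := by ring
    linarith
  have h1 : a * (1 - (n + 2 * S) * x) ≤ 1 := by
    have h4 : 0 ≤ (n + 2 * S) * x := mul_nonneg hT hx
    rcases le_total ((n + 2 * S) * x) 1 with h5 | h5
    · have h6 : a * (1 - (n + 2 * S) * x) ≤ (1 + (n + 2 * S) * x) * (1 - (n + 2 * S) * x) :=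
        mul_le_mul_of_nonneg_right h2 (by linarith)
      have e : (1 + (n + 2 * S) * x) * (1 - (n + 2 * S) * x) = 1 - ((n + 2 * S) * x) ^ 2 := by ring
      have : 0 ≤ ((n + 2 * S) * x) ^ 2 := sq_nonneg _
      linarith
    · have : a * (1 - (n + 2 * S) * x) ≤ 0 := mul_nonpos_of_nonneg_of_nonpos ha0.le (by linarith)
      linarith
  have hnd : 0 ≤ n * d := mul_nonneg hn hd
  have h5 : n * d * (1 - (n + 2 * S) * x) ≤ (b - a) / a := by
    rw [le_div_iff₀ ha0]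
    calc n * d * (1 - (n + 2 * S) * x) * a = n * d * (a * (1 - (n + 2 * S) * x)) := by
          ring
      _ ≤ n * d * 1 := mul_le_mul_of_nonneg_left h1 hnd
      _ ≤ b - a := by linarith
  have h6 : n * (n + 2 * S) * (x * d) ≤ n * (n + 2 * S) * q :=
    mul_le_mul_of_nonneg_left hxq (mul_nonneg hn hT)
  have e : n * d * (1 - (n + 2 * S) * x) = n * d - n * (n + 2 * S) * (x * d) := by ring
  linarith

/-- Lipschitz bound for the logarithm of the local factor -/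
theorem lo_lip (k : ℕ) (hk : 1 ≤ k) : ∃ C : ℝ, 0 ≤ C ∧ ∀ x y : ℝ, 0 ≤ x → x ≤ y → y ≤ 1 / 2 →
    |Real.log (lo k x) - Real.log (lo k y)| ≤ C * (y * (y - x)) := by
  have hSS : 0 ≤ SS2 k := tsum_nonneg fun m => mul_nonneg (c2_nonneg k m) (by positivity)
  have hR := RR_nonneg k
  have hn0 : (0 : ℝ) ≤ (k : ℝ) ^ 2 := by positivity
  refine ⟨RR k + 10 * (k : ℝ) ^ 2 + (k : ℝ) ^ 2 * ((k : ℝ) ^ 2 + 2 * SS2 k) +
    ((k : ℝ) ^ 2 + RR k) ^ 2, by positivity, ?_⟩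
  intro x y hx hxy hy
  have hy0 : 0 ≤ y := hx.trans hxy
  obtain ⟨g1, g2⟩ := g_bounds k hk x hx (hxy.trans hy)
  obtain ⟨d1, d2⟩ := g_diff k hk x y hx hxy hy
  obtain ⟨A2, A1⟩ := log1 x y hx hxy hy
  have elo : ∀ z : ℝ, lo k z = (1 - z) ^ (k ^ 2) * ∑' m : ℕ, c2 k m * z ^ m := fun z => rfl
  rw [elo x, elo y]
  generalize (∑' m : ℕ, c2 k m * x ^ m) = gx at g1 g2 d1 d2 ⊢
  generalize (∑' m : ℕ, c2 k m * y ^ m) = gy at d1 d2 ⊢
  have hd0 : 0 ≤ y - x := by linarith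
  have hnx : 0 ≤ (k : ℝ) ^ 2 * x := mul_nonneg hn0 hx
  have hdd : 0 ≤ (k : ℝ) ^ 2 * (y - x) := mul_nonneg hn0 hd0
  have hgx1 : 1 ≤ gx := by linarith
  have hgxy : gx ≤ gy := by linarith
  have hgxp : 0 < gx := by linarith
  have hgyp : 0 < gy := by linarith
  have h1x : 0 < 1 - x := by linarith
  have h1y : 0 < 1 - y := by linarith
  have hxq : x * (y - x) ≤ y * (y - x) := mul_le_mul_of_nonneg_right hxy hd0
  obtain ⟨B2, B1⟩ := log2 gx gy hgx1 hgxy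
  have hul := ulow ((k : ℝ) ^ 2) (SS2 k) x (y - x) (y * (y - x)) gx gy hn0 hSS hx (hxy.trans hy)
    hd0 hxq hgx1 g2 d1
  rw [Real.log_mul (pow_ne_zero _ h1x.ne') hgxp.ne', Real.log_mul (pow_ne_zero _ h1y.ne') hgyp.ne',
    Real.log_pow, Real.log_pow]
  have hle : (gy - gx) / gx ≤ gy - gx := div_le_self (by linarith) hgx1
  have hu0 : 0 ≤ (gy - gx) / gx := div_nonneg (by linarith) hgxp.le
  have hq0 : 0 ≤ y * (y - x) := mul_nonneg hy0 hd0
  have hdq : (y - x) ^ 2 ≤ y * (y - x) := by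
    rw [sq]
    exact mul_le_mul_of_nonneg_right (by linarith) hd0
  have hyR : RR k * (y * (y - x)) ≤ RR k * (y - x) := by
    refine mul_le_mul_of_nonneg_left ?_ hR
    exact mul_le_of_le_one_left hd0 (by linarith)
  have hu2 : ((gy - gx) / gx) ^ 2 ≤ ((k : ℝ) ^ 2 + RR k) ^ 2 * (y * (y - x)) := by
    have h1 : (gy - gx) / gx ≤ ((k : ℝ) ^ 2 + RR k) * (y - x) := by
      rw [add_mul]
      linarith
    calc ((gy - gx) / gx) ^ 2 ≤ (((k : ℝ) ^ 2 + RR k) * (y - x)) ^ 2 := pow_le_pow_left₀ hu0 h1 2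
      _ = ((k : ℝ) ^ 2 + RR k) ^ 2 * (y - x) ^ 2 := by ring
      _ ≤ ((k : ℝ) ^ 2 + RR k) ^ 2 * (y * (y - x)) := mul_le_mul_of_nonneg_left hdq (by positivity)
  have hA1 : (k : ℝ) ^ 2 * (Real.log (1 - x) - Real.log (1 - y)) ≤
      (k : ℝ) ^ 2 * ((y - x) + 10 * (y * (y - x))) :=
    mul_le_mul_of_nonneg_left A1 hn0
  have hA2 : (k : ℝ) ^ 2 * (y - x) ≤ (k : ℝ) ^ 2 * (Real.log (1 - x) - Real.log (1 - y)) :=
    mul_le_mul_of_nonneg_left A2 hn0
  have hp1 : 0 ≤ RR k * (y * (y - x)) := mul_nonneg hR hq0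
  have hp2 : 0 ≤ (k : ℝ) ^ 2 * (y * (y - x)) := mul_nonneg hn0 hq0
  have hp3 : 0 ≤ (k : ℝ) ^ 2 * ((k : ℝ) ^ 2 + 2 * SS2 k) * (y * (y - x)) := by positivity
  have hp4 : 0 ≤ ((k : ℝ) ^ 2 + RR k) ^ 2 * (y * (y - x)) := by positivity
  have hex : (RR k + 10 * (k : ℝ) ^ 2 + (k : ℝ) ^ 2 * ((k : ℝ) ^ 2 + 2 * SS2 k) +
      ((k : ℝ) ^ 2 + RR k) ^ 2) * (y * (y - x)) =
      RR k * (y * (y - x)) + 10 * ((k : ℝ) ^ 2 * (y * (y - x))) +
      (k : ℝ) ^ 2 * ((k : ℝ) ^ 2 + 2 * SS2 k) * (y * (y - x)) +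
      ((k : ℝ) ^ 2 + RR k) ^ 2 * (y * (y - x)) := by ring
  have hkc : ((k ^ 2 : ℕ) : ℝ) = (k : ℝ) ^ 2 := by push_cast; rfl
  have hm1 : (k : ℝ) ^ 2 * (Real.log (1 - x) - Real.log (1 - y)) =
      (k : ℝ) ^ 2 * Real.log (1 - x) - (k : ℝ) ^ 2 * Real.log (1 - y) := by ring
  have hm2 : (k : ℝ) ^ 2 * ((y - x) + 10 * (y * (y - x))) =
      (k : ℝ) ^ 2 * (y - x) + 10 * ((k : ℝ) ^ 2 * (y * (y - x))) := by ring
  rw [hkc, hex, abs_le]
  constructor <;> linarith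

theorem exp_sub (x : ℝ) : |Real.exp x - 1| ≤ |x| * Real.exp |x| := by
  rcases le_total 0 x with h | h
  · rw [abs_of_nonneg h, abs_of_nonneg (sub_nonneg.2 (Real.one_le_exp h))]
    have h1 := Real.add_one_le_exp (-x)
    have h2 : Real.exp (-x) * Real.exp x = 1 := by rw [← Real.exp_add]; simp
    have h3 := Real.exp_pos x
    nlinarith
  · rw [abs_of_nonpos h, abs_of_nonpos (sub_nonpos.2 (Real.exp_le_one_iff.2 h))]
    have h1 := Real.add_one_le_exp x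
    have h2 : 1 ≤ Real.exp (-x) := Real.one_le_exp (by linarith)
    nlinarith

theorem pow_sub_one (K Z : ℝ) (hK : 1 ≤ K) (hZ : |Z| ≤ K) (n : ℕ) :
    |Z ^ n - 1| ≤ n * K ^ n * |Z - 1| := by
  induction n with
  | zero => simp
  | succ n ih =>
    have h1 : Z ^ (n + 1) - 1 = Z * (Z ^ n - 1) + (Z - 1) := by ring
    have h2 : |Z ^ (n + 1) - 1| ≤ |Z| * |Z ^ n - 1| + |Z - 1| := by
      rw [h1]
      refine (abs_add_le _ _).trans ?_
      rw [abs_mul]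
    have h3 : |Z| * |Z ^ n - 1| ≤ K * (n * K ^ n * |Z - 1|) :=
      mul_le_mul hZ ih (abs_nonneg _) (by linarith)
    have h4 : (1 : ℝ) * |Z - 1| ≤ K ^ (n + 1) * |Z - 1| :=
      mul_le_mul_of_nonneg_right (one_le_pow₀ hK) (abs_nonneg _)
    push_cast
    calc _ ≤ _ := h2
      _ ≤ K * (n * K ^ n * |Z - 1|) + K ^ (n + 1) * |Z - 1| := by linarith
      _ = ((n : ℝ) + 1) * K ^ (n + 1) * |Z - 1| := by ring

/-- the zeta factor -/
theorem zeta_rate : ∃ C : ℝ, 0 ≤ C ∧ ∀ η : ℝ, 0 < η → η ≤ 1 / 8 →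
    |2 * η * (∑' n : ℕ, 1 / (n : ℝ) ^ (1 + 2 * η)) - 1| ≤ C * η := by
  have hc : ContinuousOn ZetaAsymptotics.termTSum (Icc 1 2) :=
    ZetaAsymptotics.continuousOn_termTSum.mono fun x hx => hx.1
  obtain ⟨M, hM⟩ := isCompact_Icc.exists_bound_of_continuousOn hc
  have hM0 : 0 ≤ M := (norm_nonneg _).trans (hM 1 ⟨le_refl _, by norm_num⟩)
  refine ⟨2 + 4 * M, by positivity, ?_⟩
  intro η hη hη1
  have hs : (1 : ℝ) < 1 + 2 * η := by linarith
  have h1 := ZetaAsymptotics.zeta_limit_aux1 hs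
  have h2 := hM (1 + 2 * η) ⟨by linarith, by linarith⟩
  rw [Real.norm_eq_abs] at h2
  have hsum : Summable (fun n : ℕ => 1 / (n : ℝ) ^ (1 + 2 * η)) :=
    Real.summable_one_div_nat_rpow.2 hs
  have h3 : ∑' n : ℕ, 1 / (n : ℝ) ^ (1 + 2 * η) = ∑' n : ℕ, 1 / ((n : ℝ) + 1) ^ (1 + 2 * η) := by
    rw [hsum.tsum_eq_zero_add]
    rw [Nat.cast_zero, Real.zero_rpow (by linarith), div_zero, zero_add]
    exact tsum_congr fun n => by push_cast; rfl
  rw [h3]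
  set S := ∑' n : ℕ, 1 / ((n : ℝ) + 1) ^ (1 + 2 * η) with hS
  set τ := ZetaAsymptotics.termTSum (1 + 2 * η) with hτ
  have h4 : 2 * η * S - 1 = 2 * η * (1 - (1 + 2 * η) * τ) := by
    have h5 : S = 1 / (2 * η) + (1 - (1 + 2 * η) * τ) := by
      have : (1 : ℝ) + 2 * η - 1 = 2 * η := by ring
      rw [this] at h1
      linarith
    rw [h5]
    field_simp
    ring
  rw [h4, abs_mul, abs_of_pos (show 0 < 2 * η by linarith)]
  have h6 : |1 - (1 + 2 * η) * τ| ≤ 1 + 2 * M := by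
    have h7 : |(1 + 2 * η) * τ| ≤ 2 * M := by
      rw [abs_mul, abs_of_pos (show 0 < 1 + 2 * η by linarith)]
      exact mul_le_mul (by linarith) h2 (abs_nonneg _) (by norm_num)
    have h8 := abs_sub (1 : ℝ) ((1 + 2 * η) * τ)
    rw [abs_one] at h8
    linarith
  calc 2 * η * |1 - (1 + 2 * η) * τ| ≤ 2 * η * (1 + 2 * M) :=
        mul_le_mul_of_nonneg_left h6 (by linarith)
    _ = (2 + 4 * M) * η := by ring

/-- `∑ log p/p²` converges -/
theorem sum_log : Summable (fun p : Nat.Primes => (1 / ((p : ℕ) : ℝ)) * (1 / ((p : ℕ) : ℝ)) *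
    Real.log ((p : ℕ) : ℝ)) := by
  have h1 : Summable (fun n : ℕ => 1 / (n : ℝ) ^ (3 / 2 : ℝ)) :=
    Real.summable_one_div_nat_rpow.2 (by norm_num)
  have h2 : Summable (fun p : Nat.Primes => 2 * (1 / (((p : ℕ) : ℕ) : ℝ) ^ (3 / 2 : ℝ))) :=
    (h1.comp_injective Nat.Primes.coe_nat_injective).mul_left 2
  refine Summable.of_nonneg_of_le (fun p => ?_) (fun p => ?_) h2
  · have hp : (2 : ℝ) ≤ ((p : ℕ) : ℝ) := by exact_mod_cast p.2.two_le
    have := Real.log_nonneg (show (1 : ℝ) ≤ ((p : ℕ) : ℝ) by linarith)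
    positivity
  · have hp : (2 : ℝ) ≤ ((p : ℕ) : ℝ) := by exact_mod_cast p.2.two_le
    have hp0 : (0 : ℝ) < ((p : ℕ) : ℝ) := by linarith
    have h3 : Real.log ((p : ℕ) : ℝ) ≤ ((p : ℕ) : ℝ) ^ (1 / 2 : ℝ) / (1 / 2) :=
      Real.log_le_rpow_div hp0.le (by norm_num)
    have h4 : ((p : ℕ) : ℝ) ^ (3 / 2 : ℝ) * ((p : ℕ) : ℝ) ^ (1 / 2 : ℝ) = ((p : ℕ) : ℝ) ^ 2 := by
      rw [← Real.rpow_add hp0]
      norm_num
    have h5 : 0 < ((p : ℕ) : ℝ) ^ (3 / 2 : ℝ) := Real.rpow_pos_of_pos hp0 _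
    rw [mul_one_div, div_div, mul_comm, mul_one_div]
    rw [← mul_div_assoc, mul_one, div_le_div_iff₀ (by positivity) h5]
    calc Real.log ((p : ℕ) : ℝ) * ((p : ℕ) : ℝ) ^ (3 / 2 : ℝ)
        ≤ (((p : ℕ) : ℝ) ^ (1 / 2 : ℝ) / (1 / 2)) * ((p : ℕ) : ℝ) ^ (3 / 2 : ℝ) :=
          mul_le_mul_of_nonneg_right h3 h5.le
      _ = 2 * (((p : ℕ) : ℝ) ^ (3 / 2 : ℝ) * ((p : ℕ) : ℝ) ^ (1 / 2 : ℝ)) := by ring
      _ = 2 * (((p : ℕ) : ℝ) * ((p : ℕ) : ℝ)) := by rw [h4]; ring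

theorem xdiff (η : ℝ) (p : Nat.Primes) :
    1 / ((p : ℕ) : ℝ) - ((p : ℕ) : ℝ) ^ (-(1 + 2 * η)) ≤
      (1 / ((p : ℕ) : ℝ)) * (2 * η * Real.log ((p : ℕ) : ℝ)) := by
  have hp : (2 : ℝ) ≤ ((p : ℕ) : ℝ) := by exact_mod_cast p.2.two_le
  have hp0 : (0 : ℝ) < ((p : ℕ) : ℝ) := by linarith
  have h1 : ((p : ℕ) : ℝ) ^ (-(1 + 2 * η)) =
      (1 / ((p : ℕ) : ℝ)) * Real.exp (-(2 * η * Real.log ((p : ℕ) : ℝ))) := by
    rw [show -(1 + 2 * η) = -1 + -(2 * η) by ring, Real.rpow_add hp0, Real.rpow_neg_one, one_div,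
      Real.rpow_def_of_pos hp0]
    congr 2
    ring
  rw [h1]
  have h2 := Real.add_one_le_exp (-(2 * η * Real.log ((p : ℕ) : ℝ)))
  have h3 : 0 < 1 / ((p : ℕ) : ℝ) := by positivity
  nlinarith

end AuxakS

open AuxLoL AuxakS in
/-- **item akS** -/
theorem akS_pf (h1 : S_LoB) (h2 : S_LoZ) (h3 : S_SSb) : S_akS := by
  intro k hk
  obtain ⟨-, C, hC, hB⟩ := h1 k hk
  obtain ⟨C', -, hS⟩ := h3 k
  have hpos : ∀ p : Nat.Primes, 0 < lo k (1 / ((p : ℕ) : ℝ)) := fun p =>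
    (hB _ (pinv p).1.le (pinv p).2).2.1
  have hsum : Summable (fun p : Nat.Primes => Real.log (lo k (1 / ((p : ℕ) : ℝ)))) := by
    refine Summable.of_norm_bounded (sum_bound C) fun p => ?_
    rw [Real.norm_eq_abs]
    exact (hB _ (pinv p).1.le (pinv p).2).2.2
  have hak : Real.exp (∑' p : Nat.Primes, Real.log (lo k (1 / ((p : ℕ) : ℝ)))) = ak k :=
    Real.rexp_tsum_eq_tprod hpos hsum
  refine ⟨by rw [← hak]; exact Real.exp_pos _, ?_⟩
  set F0 := ∑' p : Nat.Primes, Real.log (lo k (1 / ((p : ℕ) : ℝ))) with hF0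
  obtain ⟨CL, hCL, hL⟩ := lo_lip k hk
  obtain ⟨CZ, hCZ, hZr⟩ := zeta_rate
  set W := ∑' p : Nat.Primes, (1 / ((p : ℕ) : ℝ)) * (1 / ((p : ℕ) : ℝ)) *
    Real.log ((p : ℕ) : ℝ) with hW
  have hW0 : 0 ≤ W := by
    refine tsum_nonneg fun p => ?_
    have hp : (2 : ℝ) ≤ ((p : ℕ) : ℝ) := by exact_mod_cast p.2.two_le
    have := Real.log_nonneg (show (1 : ℝ) ≤ ((p : ℕ) : ℝ) by linarith)
    positivity
  set n : ℕ := k ^ 2 with hn
  set D := 2 * CL * W with hD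
  have hD0 : 0 ≤ D := by positivity
  have hK1 : 1 ≤ 1 + CZ := by linarith
  have hak0 : 0 < ak k := by rw [← hak]; exact Real.exp_pos _
  refine ⟨1 + (n * (1 + CZ) ^ n * CZ * (ak k * Real.exp D) + ak k * (D * Real.exp D)), ?_, ?_⟩
  · have : 0 ≤ n * (1 + CZ) ^ n * CZ * (ak k * Real.exp D) + ak k * (D * Real.exp D) := by positivity
    linarith
  intro η hη hη8
  obtain ⟨hsF, hlog⟩ := h2 k hk η hη hη8
  set F := ∑' p : Nat.Primes, Real.log (lo k (((p : ℕ) : ℝ) ^ (-(1 + 2 * η)))) with hF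
  -- the sums over the primes
  have hFd : |F - F0| ≤ D * η := by
    have e1 : F - F0 = ∑' p : Nat.Primes, (Real.log (lo k (((p : ℕ) : ℝ) ^ (-(1 + 2 * η)))) -
        Real.log (lo k (1 / ((p : ℕ) : ℝ)))) := (hsF.tsum_sub hsum).symm
    have e2 : ∀ p : Nat.Primes, ‖Real.log (lo k (((p : ℕ) : ℝ) ^ (-(1 + 2 * η)))) -
        Real.log (lo k (1 / ((p : ℕ) : ℝ)))‖ ≤ 2 * CL * η * ((1 / ((p : ℕ) : ℝ)) *
          (1 / ((p : ℕ) : ℝ)) * Real.log ((p : ℕ) : ℝ)) := by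
      intro p
      rw [Real.norm_eq_abs]
      have hx := xp hη.le p
      have h4 := hL _ _ hx.1 hx.2 (pinv p).2
      refine h4.trans ?_
      have h5 := xdiff η p
      have h6 : (1 / ((p : ℕ) : ℝ)) * (1 / ((p : ℕ) : ℝ) - ((p : ℕ) : ℝ) ^ (-(1 + 2 * η))) ≤
          (1 / ((p : ℕ) : ℝ)) * ((1 / ((p : ℕ) : ℝ)) * (2 * η * Real.log ((p : ℕ) : ℝ))) :=
        mul_le_mul_of_nonneg_left h5 (pinv p).1.le
      calc _ ≤ CL * ((1 / ((p : ℕ) : ℝ)) * ((1 / ((p : ℕ) : ℝ)) *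
            (2 * η * Real.log ((p : ℕ) : ℝ)))) := mul_le_mul_of_nonneg_left h6 hCL
        _ = _ := by ring
    have e3 : HasSum (fun p : Nat.Primes => 2 * CL * η * ((1 / ((p : ℕ) : ℝ)) *
          (1 / ((p : ℕ) : ℝ)) * Real.log ((p : ℕ) : ℝ))) (2 * CL * η * W) :=
      sum_log.hasSum.mul_left _
    have e4 := tsum_of_norm_bounded e3 e2
    rw [← e1, Real.norm_eq_abs] at e4
    calc _ ≤ _ := e4
      _ = D * η := by rw [hD]; ring
  have hFd1 : |F - F0| ≤ D := hFd.trans (by nlinarith)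
  -- the zeta factor
  obtain ⟨-, hSS, -, -⟩ := hS η hη hη8
  set Z0 := ∑' m : ℕ, 1 / (m : ℝ) ^ (1 + 2 * η) with hZ0
  have hZ : 0 < Z0 := by
    have hs : Summable (fun m : ℕ => 1 / (m : ℝ) ^ (1 + 2 * η)) :=
      Real.summable_one_div_nat_rpow.2 (by linarith)
    refine hs.tsum_pos (fun m => by positivity) 1 ?_
    simp
  have e2 : SS k η = Z0 ^ n * Real.exp F := by
    rw [← Real.exp_log (show 0 < SS k η by linarith), hlog, Real.exp_add]
    congr 1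
    have e3 : (k : ℝ) ^ 2 * Real.log Z0 = Real.log (Z0 ^ n) := by
      rw [Real.log_pow, hn]
      push_cast
      ring
    rw [e3, Real.exp_log (by positivity)]
  have e4 : (2 * η) ^ n * SS k η = (2 * η * Z0) ^ n * Real.exp F := by
    rw [e2, mul_pow (2 * η) Z0]
    ring
  rw [e4]
  have hz1 : |2 * η * Z0 - 1| ≤ CZ * η := hZr η hη hη8
  have hzK : |2 * η * Z0| ≤ 1 + CZ := by
    have h5 : |2 * η * Z0| ≤ |2 * η * Z0 - 1| + 1 := by
      have := abs_add_le (2 * η * Z0 - 1) 1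
      rw [sub_add_cancel, abs_one] at this
      exact this
    nlinarith
  have hzn := pow_sub_one (1 + CZ) (2 * η * Z0) hK1 hzK n
  have hE : Real.exp F = ak k * Real.exp (F - F0) := by
    rw [← hak, ← Real.exp_add]
    congr 1
    ring
  have hE1 : Real.exp (F - F0) ≤ Real.exp D := Real.exp_le_exp.2 ((le_abs_self _).trans hFd1)
  have hE2 : |Real.exp (F - F0) - 1| ≤ D * η * Real.exp D := by
    refine (exp_sub (F - F0)).trans (mul_le_mul hFd (Real.exp_le_exp.2 hFd1) (Real.exp_pos _).le (by positivity))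
  have hfin : (2 * η * Z0) ^ n * Real.exp F - ak k =
      ((2 * η * Z0) ^ n - 1) * (ak k * Real.exp (F - F0)) +
        ak k * (Real.exp (F - F0) - 1) := by
    rw [hE]
    ring
  rw [hfin]
  refine (abs_add_le _ _).trans ?_
  rw [abs_mul ((2 * η * Z0) ^ n - 1), abs_mul (ak k) (Real.exp (F - F0) - 1), abs_of_pos hak0,
    abs_of_pos (show 0 < ak k * Real.exp (F - F0) by positivity)]
  have t1 : |(2 * η * Z0) ^ n - 1| * (ak k * Real.exp (F - F0)) ≤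
      (n * (1 + CZ) ^ n * (CZ * η)) * (ak k * Real.exp D) := by
    refine mul_le_mul (hzn.trans (mul_le_mul_of_nonneg_left hz1 (by positivity)))
      (mul_le_mul_of_nonneg_left hE1 hak0.le) (by positivity) (by positivity)
  have t2 : ak k * |Real.exp (F - F0) - 1| ≤ ak k * (D * η * Real.exp D) :=
    mul_le_mul_of_nonneg_left hE2 hak0.le
  calc _ ≤ (n * (1 + CZ) ^ n * (CZ * η)) * (ak k * Real.exp D) +
        ak k * (D * η * Real.exp D) := add_le_add t1 t2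
    _ = (n * (1 + CZ) ^ n * CZ * (ak k * Real.exp D) + ak k * (D * Real.exp D)) * η := by ring
    _ ≤ _ := mul_le_mul_of_nonneg_right (by linarith) hη.le

end Pool.Agent.Work.MP_56b8f5_nt.HN
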