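import Pool.Agent.Work.MP_56b8f5_nt.HN.All
import Pool.Agent.Work.MP_56b8f5_nt.HN.I_LoB
import Pool.Agent.Work.MP_56b8f5_nt.HN.I_LoZ
import Pool.Agent.Work.MP_56b8f5_nt.HN.I_akS
import Pool.Agent.Work.MP_56b8f5_nt.HN.I_DyI
import Pool.Agent.Work.MP_56b8f5_nt.HN.I_DyB
import Pool.Agent.Work.MP_56b8f5_nt.HN.I_DyS
import Pool.Agent.Work.MP_56b8f5_nt.HN.I_DyF
import Pool.Agent.Work.MP_56b8f5_nt.HN.I_DyM
import Pool.Agent.Work.MP_56b8f5_nt.HN.I_DeM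
import Pool.Agent.Work.MP_56b8f5_nt.HN.I_ApD
import Pool.Agent.Work.MP_56b8f5_nt.HN.I_ApK
import Pool.Agent.Work.MP_56b8f5_nt.HN.I_DKd
import Pool.Agent.Work.MP_56b8f5_nt.HN.I_ApZ
import Pool.Agent.Work.MP_56b8f5_nt.HN.I_CpZ
import Pool.Agent.Work.MP_56b8f5_nt.HN.I_Fin

/-!
MP_56b8f5_nt, block HN, parts K, D, Z: the assembly. `all_Fin : S_Fin`.
-/

set_option autoImplicit false

noncomputable section

namespace Pool.Agent.Work.MP_56b8f5_nt.HN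

open Pool.Agent.Work.MP_56b8f5_nt.EM Pool.Agent.Work.MP_56b8f5_nt.WM Pool.Agent.Work.MP_56b8f5_nt.SH
open Pool.Agent.Work.MP_56b8f5_nt.HZ

theorem all_LoZ : S_LoZ := LoZ_pf dkB_pf all_SSb LoB_pf
theorem all_akS : S_akS := akS_pf LoB_pf all_LoZ all_SSb
theorem all_DyF : S_DyF := DyF_pf all_HNF all_SSb DyI_pf (DyB_pf Zgr_pf) DyS_pf
theorem all_DyM : S_DyM := DyM_pf HZ.main_all DyI_pf DyS_pf
theorem all_ApD : S_ApD := ApD_pf all_TwA all_PWU HN4_all all_SSb DeM_pf all_MnE GGm_pf all_Dpw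
theorem all_ApK : S_ApK := ApK_pf all_ApD NNp_pf all_Dpw MvN_pf all_SSb
theorem all_DKd : S_DKd := DKd_pf MvN_pf all_SSb
theorem all_ApZ : S_ApZ := ApZ_pf all_ApK all_DKd DyI_pf DyS_pf all_DyF
theorem all_CpZ : S_CpZ := CpZ_pf all_CmN all_DKd DyI_pf DyS_pf all_SSb
theorem all_Fin : S_Fin := Fin_pf all_DyM DyI_pf all_DyF all_ApZ all_CpZ all_akS all_SSb

end Pool.Agent.Work.MP_56b8f5_nt.HN
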