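import Pool.Agent.Work.MP_56b8f5_nt.HN.StmtsW

/-!
MP_56b8f5_nt, block HN, item CfW: the coefficients of the products of `DN` at complex points.
-/

set_option autoImplicit false

open MeasureTheory Set Filter Topology

noncomputable section

namespace Pool.Agent.Work.MP_56b8f5_nt.HN

open Pool.Agent.Work.MP_56b8f5_nt.EM Pool.Agent.Work.MP_56b8f5_nt.WM Pool.Agent.Work.MP_56b8f5_nt.SH
open Pool.Agent.Work.MP_56b8f5_nt.HZ

namespace AuxCfW

/-- The coefficients of `DN` at the point `s`, on the line `1/2`. -/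
def g (N : ℕ) (s : ℂ) (n : ℕ) : ℂ :=
  if 1 ≤ n ∧ n ≤ N then es s n * (((n : ℝ) ^ (1 / 2 : ℝ) : ℝ) : ℂ) else 0

lemma es_apply (s : ℂ) {n : ℕ} (hn : n ≠ 0) : es s n = (n : ℂ) ^ (-s) := by
  show (if n = 0 then 0 else (n : ℂ) ^ (-s)) = _
  exact if_neg hn

lemma norm_es (s : ℂ) {n : ℕ} (hn : 0 < n) : ‖es s n‖ = (n : ℝ) ^ (-s.re) := by
  rw [es_apply s hn.ne', Complex.norm_natCast_cpow_of_pos hn, Complex.neg_re]

lemma g_supp (N : ℕ) (s : ℂ) (n : ℕ) (h : g N s n ≠ 0) : 1 ≤ n ∧ n ≤ N := by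
  by_contra hc
  exact h (if_neg hc)

lemma norm_g_le (N : ℕ) (η : ℝ) (s : ℂ) (hs : 1 / 2 + η ≤ s.re) (n : ℕ) :
    ‖g N s n‖ ≤ (n : ℝ) ^ (-η) := by
  unfold g
  split_ifs with h
  · have hn : (0 : ℝ) < n := Nat.cast_pos.2 h.1
    have hn1 : (1 : ℝ) ≤ n := Nat.one_le_cast.2 h.1
    rw [norm_mul, Complex.norm_real, Real.norm_of_nonneg (by positivity), norm_es s h.1,
      ← Real.rpow_add hn]
    exact Real.rpow_le_rpow_of_exponent_le hn1 (by linarith)
  · rw [norm_zero]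
    positivity

lemma DN_eq (N : ℕ) (t : ℝ) (s : ℂ) : DN N (s.re - 1 / 2) (t + s.im) = Dc N (g N s) t := by
  unfold DN Dc Ds
  refine Finset.sum_congr rfl fun n hn => ?_
  rw [Finset.mem_Icc] at hn
  have hn0 : (n : ℂ) ≠ 0 := Nat.cast_ne_zero.2 (by omega)
  have hf : g N s n = es s n * (((n : ℝ) ^ (1 / 2 : ℝ) : ℝ) : ℂ) := if_pos hn
  have hsp : sp (s.re - 1 / 2) (t + s.im) = s + t * Complex.I := by
    unfold sp
    conv_rhs => rw [← Complex.re_add_im s]
    push_cast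
    ring
  rw [hf, hsp, es_apply s (by omega), Complex.ofReal_cpow (by positivity), one_mul,
    Complex.ofReal_natCast, ← Complex.cpow_add _ _ hn0, ← Complex.cpow_add _ _ hn0]
  congr 1
  push_cast
  ring

lemma rpow_div {n d : ℕ} (η : ℝ) (hd : d ∣ n) :
    (d : ℝ) ^ η * ((n / d : ℕ) : ℝ) ^ η = (n : ℝ) ^ η := by
  rw [← Real.mul_rpow (by positivity) (by positivity), ← Nat.cast_mul, Nat.mul_div_cancel' hd]

/-- The recursion for `dw`. -/
lemma dw_succ {k : ℕ} (s : Fin (k + 1) → ℂ) (n : ℕ) :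
    dw s n = ∑ d ∈ n.divisors, dw (fun j : Fin k => s j.succ) d * es (s 0) (n / d) := by
  unfold dw
  rw [Fin.prod_univ_succ, mul_comm, ArithmeticFunction.mul_apply,
    Nat.sum_divisorsAntidiagonal (fun a b => (∏ j : Fin k, es (s j.succ)) a * es (s 0) b)]

lemma core (h1 : S_dkB) (h2 : HZ.S_DsM) (N : ℕ) (η : ℝ) : ∀ (k : ℕ) (s : Fin k → ℂ),
    (∀ j, 1 / 2 + η ≤ (s j).re) →
    ∃ q : ℕ → ℂ, (∀ n, ‖q n‖ ≤ dk k n * (n : ℝ) ^ (-η)) ∧
      (∀ n, q n ≠ 0 → 1 ≤ n ∧ n ≤ N ^ k) ∧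
      (∀ t : ℝ, ∏ j, DN N ((s j).re - 1 / 2) (t + (s j).im) = Dc (N ^ k) q t) ∧
      ∀ n : ℕ, 1 ≤ n → n ≤ N → q n = dw s n * (((n : ℝ) ^ (1 / 2 : ℝ) : ℝ) : ℂ) := by
  obtain ⟨hb0, hbn, hbz, -, hbs, -⟩ := h1
  intro k
  induction k with
  | zero =>
    intro s _
    have hdw : ∀ n, dw s n = if n = 1 then 1 else 0 := by
      intro n
      unfold dw
      rw [Finset.univ_eq_empty, Finset.prod_empty, ArithmeticFunction.one_apply]
    refine ⟨fun n => if n = 1 then 1 else 0, ?_, ?_, ?_, ?_⟩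
    · intro n
      dsimp only
      rw [hbz]
      split_ifs with h
      · subst h
        simp
      · simp
    · intro n hn
      by_cases h : n = 1
      · subst h
        simp
      · exact absurd (if_neg h) hn
    · intro t
      simp [Dc, Ds]
    · intro n _ _
      dsimp only
      rw [hdw]
      split_ifs with h
      · subst h
        simp
      · simp
  | succ k ih =>
    intro s hs
    obtain ⟨q, qle, qs, qD, qe⟩ := ih (fun j => s j.succ) (fun j => hs j.succ)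
    have hsupp : ∀ n, (∑ d ∈ n.divisors, q d * g N (s 0) (n / d)) ≠ 0 → 1 ≤ n ∧ n ≤ N ^ (k + 1) := by
      intro n hn
      obtain ⟨d, hd, hne⟩ := Finset.exists_ne_zero_of_sum_ne_zero hn
      have hq : q d ≠ 0 := fun h => hne (by simp [h])
      have hf : g N (s 0) (n / d) ≠ 0 := fun h => hne (by simp [h])
      have h3 := qs d hq
      have h4 := g_supp N _ _ hf
      have hdn := Nat.dvd_of_mem_divisors hd
      have hmul : d * (n / d) = n := Nat.mul_div_cancel' hdn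
      constructor
      · rw [← hmul]
        exact Nat.mul_pos h3.1 h4.1
      · rw [← hmul, pow_succ]
        exact Nat.mul_le_mul h3.2 h4.2
    refine ⟨fun n => ∑ d ∈ n.divisors, q d * g N (s 0) (n / d), ?_, hsupp, ?_, ?_⟩
    · intro n
      rcases Nat.eq_zero_or_pos n with rfl | hn
      · simp [(hb0 (k + 1)).1]
      · have hn0 : n ≠ 0 := by omega
        dsimp only
        rw [hbs k n hn0, Finset.sum_mul]
        refine (norm_sum_le _ _).trans (Finset.sum_le_sum fun d hd => ?_)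
        have hdn := Nat.dvd_of_mem_divisors hd
        rw [norm_mul]
        calc ‖q d‖ * ‖g N (s 0) (n / d)‖ ≤ (dk k d * (d : ℝ) ^ (-η)) * ((n / d : ℕ) : ℝ) ^ (-η) :=
              mul_le_mul (qle d) (norm_g_le N η (s 0) (hs 0) _) (norm_nonneg _)
                (mul_nonneg (hbn k d) (by positivity))
          _ = dk k d * (n : ℝ) ^ (-η) := by
              rw [mul_assoc, rpow_div (-η) hdn]
    · intro t
      rw [Fin.prod_univ_succ, mul_comm, qD t, DN_eq]
      unfold Dc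
      rw [h2.1 (N ^ k) N q (g N (s 0)) qs (g_supp N (s 0)) _, pow_succ]
      rfl
    · intro n hn hnN
      have hn0 : n ≠ 0 := by omega
      dsimp only
      rw [dw_succ, Finset.sum_mul]
      refine Finset.sum_congr rfl fun d hd => ?_
      have hdn := Nat.dvd_of_mem_divisors hd
      have hd1 : 1 ≤ d := Nat.pos_of_mem_divisors hd
      have hdl : d ≤ n := Nat.divisor_le hd
      have he1 : 1 ≤ n / d := Nat.div_pos hdl hd1
      have hel : n / d ≤ N := (Nat.div_le_self n d).trans hnN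
      have hf : g N (s 0) (n / d) =
          es (s 0) (n / d) * ((((n / d : ℕ) : ℝ) ^ (1 / 2 : ℝ) : ℝ) : ℂ) :=
        if_pos ⟨he1, hel⟩
      rw [qe d hd1 (hdl.trans hnN), hf, ← rpow_div (1 / 2 : ℝ) hdn]
      rw [Complex.ofReal_mul]
      ring

end AuxCfW

theorem CfW_pf (h1 : S_dkB) (h2 : HZ.S_DsM) : S_CfW := by
  intro k N η T s hN hs hT
  obtain ⟨q, qle, qs, qD, qe⟩ := AuxCfW.core h1 h2 N η k s hs
  exact ⟨q, ⟨qle, qs, Nat.one_le_pow k N hN, hT⟩, qD, qe⟩

end Pool.Agent.Work.MP_56b8f5_nt.HN
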