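import Pool.Agent.Work.MP_56b8f5_nt.HN.StmtsX
import Pool.Agent.Work.MP_56b8f5_nt.HN.I_CpZ

/-!
MP_56b8f5_nt, block HN, item CmV: the complement of the good heights, on `[√T, 2T]`, complex coefficients.
-/

set_option autoImplicit false

open MeasureTheory Set Filter Topology

noncomputable section

namespace Pool.Agent.Work.MP_56b8f5_nt.HN

open Pool.Agent.Work.MP_56b8f5_nt.EM Pool.Agent.Work.MP_56b8f5_nt.WM Pool.Agent.Work.MP_56b8f5_nt.SH
open Pool.Agent.Work.MP_56b8f5_nt.HZ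

namespace AuxCmV

/-- Summation over the blocks `[U, 2U]` with `s ≤ U ≤ T`. -/
theorem blocks (hS : S_DyS) (f : ℝ → ℝ) (hf : Continuous f) (hf0 : ∀ t, 0 ≤ f t) (G : Set ℝ)
    (T s K : ℝ) (hG : MeasurableSet G) (hGI : G ⊆ Icc s (2 * T)) (hT : 0 < T) (hs : 0 < s)
    (hsT : s ≤ T) (hK : 0 ≤ K)
    (h1 : ∀ U : ℝ, s ≤ U → U ≤ T → ∫ t in G ∩ Icc U (2 * U), f t ≤ K * U) :
    ∫ t in G, f t ≤ 3 * K * T := by
  obtain ⟨J, hJ1, hJ2⟩ := AuxDyF.dyadic (2 * T) s hs
  have h3 := (hS f G (2 * T) K hf hG (by linarith) J).1 fun j hj => by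
    refine h1 _ (hJ1 j hj) ?_
    have := AuxDyF.two_T (2 * T) (by linarith) j
    linarith
  have ha : 0 ≤ 2 * T / 2 ^ J := by positivity
  have hsub : G ⊆ (G ∩ Iic (2 * T / 2 ^ J)) ∪ (G ∩ Ioc (2 * T / 2 ^ J) (2 * T)) := by
    intro t ht
    rcases le_or_gt t (2 * T / 2 ^ J) with h | h
    · exact Or.inl ⟨ht, h⟩
    · exact Or.inr ⟨ht, h, (hGI ht).2⟩
  have heq : G = (G ∩ Iic (2 * T / 2 ^ J)) ∪ (G ∩ Ioc (2 * T / 2 ^ J) (2 * T)) := by
    refine Subset.antisymm hsub ?_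
    rintro t (h | h)
    · exact h.1
    · exact h.1
  have hint : IntegrableOn f G := (hf.integrableOn_Icc).mono_set hGI
  have hdis : Disjoint (G ∩ Iic (2 * T / 2 ^ J)) (G ∩ Ioc (2 * T / 2 ^ J) (2 * T)) := by
    rw [Set.disjoint_left]
    rintro t h h'
    exact absurd h.2 (not_le.2 h'.2.1)
  have hsplit : ∫ t in G, f t =
      (∫ t in G ∩ Iic (2 * T / 2 ^ J), f t) + ∫ t in G ∩ Ioc (2 * T / 2 ^ J) (2 * T), f t := by
    have := setIntegral_union hdis (hG.inter measurableSet_Ioc)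
      (hint.mono_set inter_subset_left) (hint.mono_set inter_subset_left) (μ := volume) (f := f)
    rw [← heq] at this
    exact this
  have h4 : ∫ t in G ∩ Iic (2 * T / 2 ^ J), f t ≤ ∫ t in G ∩ Icc s (2 * s), f t := by
    refine setIntegral_mono_set (hint.mono_set inter_subset_left) (ae_of_all _ hf0)
      (LE.le.eventuallyLE ?_)
    rintro t ⟨ht1, ht2⟩
    exact ⟨ht1, (hGI ht1).1, le_trans ht2 hJ2⟩
  have h5 := h1 s le_rfl hsT
  have h6 : K * (2 * T - 2 * T / 2 ^ J) ≤ K * (2 * T) :=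
    mul_le_mul_of_nonneg_left (by linarith) hK
  have h7 : K * s ≤ K * T := mul_le_mul_of_nonneg_left hsT hK
  rw [hsplit]
  linarith

theorem cont_Dc (N : ℕ) (q : ℕ → ℂ) : Continuous fun t : ℝ => Dc N q t := by
  unfold Dc Ds
  refine continuous_finsetSum _ fun n hn => ?_
  have hn1 : (n : ℂ) ≠ 0 := by
    have := (Finset.mem_Icc.1 hn).1
    exact_mod_cast (by omega : n ≠ 0)
  have h1 : Continuous fun t : ℝ => -((1 : ℂ) / 2 + t * Complex.I) := by
    fun_prop
  exact continuous_const.mul (h1.const_cpow (Or.inl hn1))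

end AuxCmV

open AuxCmV in
/-- **Item CmV**: `XCm` on `[√T, 2T]`. -/
theorem CmV_pf (h1 : S_XCm) (h2 : S_ZsI) (h3 : S_DyS) : S_CmV := by
  intro k
  obtain ⟨C₁, T₁, hC₁, hT₁, H1⟩ := h1 k
  obtain ⟨hZ1, -, -, hZ4, -⟩ := h2
  refine ⟨3 * C₁, T₁ ^ 2, by linarith, by nlinarith, ?_⟩
  intro T hT η hη hη8 N q hq A C₀ hA hC₀
  have hT9 : 9 ≤ T := by nlinarith
  have hT0 : 0 < T := by linarith
  obtain ⟨s, hs⟩ : ∃ s : ℝ, s = Real.sqrt T := ⟨_, rfl⟩
  rw [← hs] at hq ⊢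
  have hs0 : 0 < s := by
    rw [hs]
    exact Real.sqrt_pos.2 hT0
  have hss : s * s = T := by
    rw [hs]
    exact Real.mul_self_sqrt hT0.le
  have hs3 : 3 ≤ s := by
    by_contra hcon
    push Not at hcon
    nlinarith
  have hsT : s ≤ T := by nlinarith
  have hsT₁ : T₁ ≤ s := by
    by_contra hcon
    push Not at hcon
    nlinarith
  have hls : Real.log T = 2 * Real.log s := by
    rw [← hss, Real.log_mul hs0.ne' hs0.ne']
    ring
  have hS0 : 0 ≤ SS k η := by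
    unfold SS
    exact tsum_nonneg fun n => by positivity
  have hZm : MeasurableSet (Zs T A C₀) := hZ1 T A C₀ (by linarith)
  have hfc : Continuous fun t : ℝ => ‖Dc N q t‖ ^ 2 := (cont_Dc N q).norm.pow _
  have hfin := blocks h3 (fun t : ℝ => ‖Dc N q t‖ ^ 2) hfc (fun t => by positivity)
    (Icc s (2 * T) \ Zs T A C₀) T s (C₁ * Real.exp (-(A / 400)) * SS k η)
    (measurableSet_Icc.diff hZm) sdiff_subset hT0 hs0 hsT (by positivity) ?_
  · refine hfin.trans (le_of_eq ?_)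
    ring
  · intro U hsU hUT
    have hU0 : 0 < U := by linarith
    have hlog : Real.log T ≤ 2 * Real.log U := by
      rw [hls]
      exact mul_le_mul_of_nonneg_left (Real.log_le_log hs0 hsU) (by norm_num)
    have hsub : GG U (A / 2) 400 ⊆ Zs T A C₀ :=
      (AuxCpZ.GG_mono (by linarith) (by linarith)).trans
        (hZ4 T U A C₀ (by linarith) hUT hlog (by linarith) (by linarith))
    have hqU : IsDc k η U N q := ⟨hq.le, hq.supp, hq.one, hq.len.trans hsU⟩
    have hmain := H1 U (by linarith) η hη hη8 N q hqU (A / 2) (by linarith)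
    have h7 : Real.exp (-(A / 2 / 200)) = Real.exp (-(A / 400)) := by
      congr 1
      ring
    rw [h7] at hmain
    have h8 : ∫ t in (Icc s (2 * T) \ Zs T A C₀) ∩ Icc U (2 * U), ‖Dc N q t‖ ^ 2 ≤
        ∫ t in Icc U (2 * U) \ GG U (A / 2) 400, ‖Dc N q t‖ ^ 2 := by
      refine setIntegral_mono_set ((hfc.integrableOn_Icc).mono_set sdiff_subset)
        (ae_of_all _ fun t => by positivity) (LE.le.eventuallyLE ?_)
      rintro t ⟨⟨_, ht2⟩, ht3⟩
      exact ⟨ht3, fun h => ht2 (hsub h)⟩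
    refine h8.trans (hmain.trans (le_of_eq ?_))
    ring

end Pool.Agent.Work.MP_56b8f5_nt.HN
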