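import Pool.Agent.Work.MP_56b8f5_nt.HN.StmtsX

/-!
MP_56b8f5_nt, block HN, item DeR: decomposition of the moment of the difference.
-/

set_option autoImplicit false

open MeasureTheory Set Filter Topology

noncomputable section

namespace Pool.Agent.Work.MP_56b8f5_nt.HN

open Pool.Agent.Work.MP_56b8f5_nt.EM Pool.Agent.Work.MP_56b8f5_nt.WM Pool.Agent.Work.MP_56b8f5_nt.SH
open Pool.Agent.Work.MP_56b8f5_nt.HZ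

namespace AuxDeR

/-- The pointwise inequality, with a bound `X` for `‖z‖^(2(k+1))` in the second case. -/
theorem pw (k : ℕ) (δ X : ℝ) (z D : ℂ) (hδ : 0 < δ) (hδ1 : δ ≤ 1) (hX : 0 ≤ X)
    (h : δ * ‖D‖ < ‖z - D‖ → ‖z‖ ^ (2 * (k + 1)) ≤ X) :
    ‖z - D‖ ^ (2 * (k + 1)) ≤ δ ^ 2 * ‖D ^ (k + 1)‖ ^ 2 +
      4 ^ (k + 1) * X + 4 ^ (k + 1) * ((1 / δ) ^ 2 * (‖z - D‖ ^ 2 * ‖D ^ k‖ ^ 2)) := by
  have h2 : 0 ≤ δ ^ 2 * ‖D ^ (k + 1)‖ ^ 2 := by positivity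
  have h3 : 0 ≤ 4 ^ (k + 1) * X := by positivity
  have h4 : 0 ≤ 4 ^ (k + 1) * ((1 / δ) ^ 2 * (‖z - D‖ ^ 2 * ‖D ^ k‖ ^ 2)) := by positivity
  rcases le_or_gt ‖z - D‖ (δ * ‖D‖) with hc | hc
  · have h5 : ‖z - D‖ ^ (2 * (k + 1)) ≤ (δ * ‖D‖) ^ (2 * (k + 1)) :=
      pow_le_pow_left₀ (norm_nonneg _) hc _
    have h6 : (δ * ‖D‖) ^ (2 * (k + 1)) = δ ^ (2 * (k + 1)) * ‖D ^ (k + 1)‖ ^ 2 := by
      rw [mul_pow, norm_pow, ← pow_mul, mul_comm (k + 1) 2]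
    have h7 : δ ^ (2 * (k + 1)) ≤ δ ^ 2 := pow_le_pow_of_le_one hδ.le hδ1 (by omega)
    have h8 : δ ^ (2 * (k + 1)) * ‖D ^ (k + 1)‖ ^ 2 ≤ δ ^ 2 * ‖D ^ (k + 1)‖ ^ 2 :=
      mul_le_mul_of_nonneg_right h7 (by positivity)
    linarith
  · have hz := h hc
    have h5 : ‖z - D‖ ^ (2 * (k + 1)) ≤ (‖z‖ + ‖D‖) ^ (2 * (k + 1)) :=
      pow_le_pow_left₀ (norm_nonneg _) (norm_sub_le _ _) _
    have h6 : (‖z‖ + ‖D‖) ^ (2 * (k + 1)) ≤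
        2 ^ (2 * (k + 1) - 1) * (‖z‖ ^ (2 * (k + 1)) + ‖D‖ ^ (2 * (k + 1))) :=
      add_pow_le (norm_nonneg _) (norm_nonneg _) _
    have h7 : (2 : ℝ) ^ (2 * (k + 1) - 1) ≤ 4 ^ (k + 1) := by
      calc (2 : ℝ) ^ (2 * (k + 1) - 1) ≤ 2 ^ (2 * (k + 1)) :=
            pow_le_pow_right₀ (by norm_num) (by omega)
        _ = 4 ^ (k + 1) := by rw [pow_mul]; norm_num
    have h8 : 2 ^ (2 * (k + 1) - 1) * (‖z‖ ^ (2 * (k + 1)) + ‖D‖ ^ (2 * (k + 1))) ≤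
        4 ^ (k + 1) * (‖z‖ ^ (2 * (k + 1)) + ‖D‖ ^ (2 * (k + 1))) :=
      mul_le_mul_of_nonneg_right h7 (by positivity)
    have h9 : ‖D‖ ≤ 1 / δ * ‖z - D‖ := by
      rw [div_mul_eq_mul_div, one_mul, le_div_iff₀ hδ]
      linarith
    have h10 : ‖D‖ ^ 2 ≤ (1 / δ * ‖z - D‖) ^ 2 := pow_le_pow_left₀ (norm_nonneg _) h9 _
    have h11 : ‖D‖ ^ (2 * (k + 1)) = ‖D ^ k‖ ^ 2 * ‖D‖ ^ 2 := by
      rw [norm_pow, ← pow_mul, ← pow_add]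
      congr 1
      ring
    have h12 : ‖D ^ k‖ ^ 2 * ‖D‖ ^ 2 ≤ ‖D ^ k‖ ^ 2 * (1 / δ * ‖z - D‖) ^ 2 :=
      mul_le_mul_of_nonneg_left h10 (by positivity)
    have h13 : ‖D ^ k‖ ^ 2 * (1 / δ * ‖z - D‖) ^ 2 =
        (1 / δ) ^ 2 * (‖z - D‖ ^ 2 * ‖D ^ k‖ ^ 2) := by ring
    have h14 : (4 : ℝ) ^ (k + 1) * (‖z‖ ^ (2 * (k + 1)) + ‖D‖ ^ (2 * (k + 1))) ≤
        4 ^ (k + 1) * (X + (1 / δ) ^ 2 * (‖z - D‖ ^ 2 * ‖D ^ k‖ ^ 2)) :=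
      mul_le_mul_of_nonneg_left (by linarith) (by positivity)
    have h15 : (4 : ℝ) ^ (k + 1) * (X + (1 / δ) ^ 2 * (‖z - D‖ ^ 2 * ‖D ^ k‖ ^ 2)) =
        4 ^ (k + 1) * X + 4 ^ (k + 1) * ((1 / δ) ^ 2 * (‖z - D‖ ^ 2 * ‖D ^ k‖ ^ 2)) := by ring
    linarith

/-- The bound for `‖z‖^(2(k+1))` outside `F`. -/
theorem zb (k : ℕ) (δ M : ℝ) (z D Q : ℂ) (hδ : 0 < δ) (hM : 0 ≤ M)
    (h : ‖z‖ ^ (2 * k) ≤ M * ‖Q‖ ^ 2) (hc : δ * ‖D‖ < ‖z - D‖) :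
    ‖z‖ ^ (2 * (k + 1)) ≤ M * (1 + 1 / δ) ^ 2 * (‖z - D‖ ^ 2 * ‖Q‖ ^ 2) := by
  have hz : ‖z‖ ≤ ‖z - D‖ + ‖D‖ := by
    have := norm_add_le (z - D) D
    rwa [sub_add_cancel] at this
  have h3 : ‖z‖ ≤ (1 + 1 / δ) * ‖z - D‖ := by
    have h6 : ‖D‖ ≤ 1 / δ * ‖z - D‖ := by
      rw [div_mul_eq_mul_div, one_mul, le_div_iff₀ hδ]
      linarith
    linarith
  have h4 : ‖z‖ ^ 2 ≤ ((1 + 1 / δ) * ‖z - D‖) ^ 2 :=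
    pow_le_pow_left₀ (norm_nonneg _) h3 _
  have h5 : ‖z‖ ^ (2 * (k + 1)) = ‖z‖ ^ (2 * k) * ‖z‖ ^ 2 := by
    rw [← pow_add]
    congr 1
  have h6 : ‖z‖ ^ (2 * k) * ‖z‖ ^ 2 ≤ (M * ‖Q‖ ^ 2) * ((1 + 1 / δ) * ‖z - D‖) ^ 2 :=
    mul_le_mul h h4 (by positivity) (by positivity)
  have h7 : (M * ‖Q‖ ^ 2) * ((1 + 1 / δ) * ‖z - D‖) ^ 2 =
      M * (1 + 1 / δ) ^ 2 * (‖z - D‖ ^ 2 * ‖Q‖ ^ 2) := by ring
  linarith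

/-- A nonnegative continuous function: the integral over a part of `[T, 2T]`. -/
theorem part (f : ℝ → ℝ) (hf : Continuous f) (h0 : ∀ t, 0 ≤ f t) (T : ℝ) (hT : 1 ≤ T)
    (E : Set ℝ) (hE : E ⊆ Icc T (2 * T)) :
    ∫ t in E, f t ≤ ∫ t in T..(2 * T), f t := by
  rw [intervalIntegral.integral_of_le (by linarith), ← integral_Icc_eq_integral_Ioc]
  exact setIntegral_mono_set (hf.integrableOn_Icc) (Eventually.of_forall fun t => h0 t)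
    (HasSubset.Subset.eventuallyLE hE)

end AuxDeR

open AuxDeR in
theorem DeR_pf : S_DeR := by
  intro k δ T M z D Q E F hδ hδ1 hT hM hz hD hQ hEm hE hFm h
  have hcw : Continuous fun t => ‖z t - D t‖ ^ (2 * (k + 1)) := (hz.sub hD).norm.pow _
  have hcz : Continuous fun t => ‖z t‖ ^ (2 * (k + 1)) := hz.norm.pow _
  have hcD : Continuous fun t => ‖D t ^ (k + 1)‖ ^ 2 := (hD.pow _).norm.pow _
  have hcQ : Continuous fun t => ‖z t - D t‖ ^ 2 * ‖Q t‖ ^ 2 :=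
    ((hz.sub hD).norm.pow _).mul (hQ.norm.pow _)
  have hcK : Continuous fun t => ‖z t - D t‖ ^ 2 * ‖D t ^ k‖ ^ 2 :=
    ((hz.sub hD).norm.pow _).mul ((hD.pow _).norm.pow _)
  have hI : ∀ f : ℝ → ℝ, Continuous f → IntegrableOn f E := fun f hf =>
    hf.integrableOn_Icc.mono_set hE
  have e : ∀ f : ℝ → ℝ, ∫ t in E, F.indicator f t = ∫ t in E ∩ F, f t := fun f =>
    setIntegral_indicator hFm
  have i1 := (hI _ hcD).const_mul (δ ^ 2)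
  have i2 := (hI _ hcQ).const_mul (4 ^ (k + 1) * (M * (1 + 1 / δ) ^ 2))
  have i3 := (hI _ hcK).const_mul (4 ^ (k + 1) * (1 / δ) ^ 2)
  have i4 := ((hI _ hcz).indicator hFm).const_mul (4 ^ (k + 1))
  have h1 : ∫ t in E, ‖z t - D t‖ ^ (2 * (k + 1)) ≤
      ∫ t in E, (δ ^ 2 * ‖D t ^ (k + 1)‖ ^ 2 +
        4 ^ (k + 1) * (M * (1 + 1 / δ) ^ 2) * (‖z t - D t‖ ^ 2 * ‖Q t‖ ^ 2) +
        4 ^ (k + 1) * (1 / δ) ^ 2 * (‖z t - D t‖ ^ 2 * ‖D t ^ k‖ ^ 2) +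
        4 ^ (k + 1) * F.indicator (fun t => ‖z t‖ ^ (2 * (k + 1))) t) := by
    refine setIntegral_mono_on (hI _ hcw) (((i1.add i2).add i3).add i4) hEm ?_
    intro t ht
    by_cases hF : t ∈ F
    · rw [indicator_of_mem hF]
      have h2 := pw k δ (‖z t‖ ^ (2 * (k + 1))) (z t) (D t) hδ hδ1 (by positivity)
        (fun _ => le_rfl)
      have h3 : 0 ≤ 4 ^ (k + 1) * (M * (1 + 1 / δ) ^ 2) * (‖z t - D t‖ ^ 2 * ‖Q t‖ ^ 2) := by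
        positivity
      linarith
    · rw [indicator_of_notMem hF, mul_zero, add_zero]
      have h2 := pw k δ (M * (1 + 1 / δ) ^ 2 * (‖z t - D t‖ ^ 2 * ‖Q t‖ ^ 2)) (z t) (D t) hδ hδ1
        (by positivity) (fun hc => zb k δ M (z t) (D t) (Q t) hδ hM (h t ht hF) hc)
      linarith
  have hsum : ∫ t in E, (δ ^ 2 * ‖D t ^ (k + 1)‖ ^ 2 +
        4 ^ (k + 1) * (M * (1 + 1 / δ) ^ 2) * (‖z t - D t‖ ^ 2 * ‖Q t‖ ^ 2) +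
        4 ^ (k + 1) * (1 / δ) ^ 2 * (‖z t - D t‖ ^ 2 * ‖D t ^ k‖ ^ 2) +
        4 ^ (k + 1) * F.indicator (fun t => ‖z t‖ ^ (2 * (k + 1))) t) =
      δ ^ 2 * (∫ t in E, ‖D t ^ (k + 1)‖ ^ 2) +
        4 ^ (k + 1) * (M * (1 + 1 / δ) ^ 2) * (∫ t in E, ‖z t - D t‖ ^ 2 * ‖Q t‖ ^ 2) +
        4 ^ (k + 1) * (1 / δ) ^ 2 * (∫ t in E, ‖z t - D t‖ ^ 2 * ‖D t ^ k‖ ^ 2) +
        4 ^ (k + 1) * ∫ t in E ∩ F, ‖z t‖ ^ (2 * (k + 1)) := by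
    rw [integral_add, integral_add, integral_add, integral_const_mul, integral_const_mul,
      integral_const_mul, integral_const_mul, e]
    · exact i1
    · exact i2
    · exact i1.add i2
    · exact i3
    · exact (i1.add i2).add i3
    · exact i4
  rw [hsum] at h1
  have h2 := part _ hcD (fun t => by positivity) T hT E hE
  have h3 := part _ hcQ (fun t => by positivity) T hT E hE
  have h3' := part _ hcK (fun t => by positivity) T hT E hE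
  have h4 : δ ^ 2 * (∫ t in E, ‖D t ^ (k + 1)‖ ^ 2) ≤
      δ ^ 2 * (∫ t in T..(2 * T), ‖D t ^ (k + 1)‖ ^ 2) :=
    mul_le_mul_of_nonneg_left h2 (by positivity)
  have h5 : 4 ^ (k + 1) * (M * (1 + 1 / δ) ^ 2) * (∫ t in E, ‖z t - D t‖ ^ 2 * ‖Q t‖ ^ 2) ≤
      4 ^ (k + 1) * (M * (1 + 1 / δ) ^ 2) * (∫ t in T..(2 * T), ‖z t - D t‖ ^ 2 * ‖Q t‖ ^ 2) :=
    mul_le_mul_of_nonneg_left h3 (by positivity)
  have h6 : 4 ^ (k + 1) * (1 / δ) ^ 2 * (∫ t in E, ‖z t - D t‖ ^ 2 * ‖D t ^ k‖ ^ 2) ≤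
      4 ^ (k + 1) * (1 / δ) ^ 2 * (∫ t in T..(2 * T), ‖z t - D t‖ ^ 2 * ‖D t ^ k‖ ^ 2) :=
    mul_le_mul_of_nonneg_left h3' (by positivity)
  linarith

end Pool.Agent.Work.MP_56b8f5_nt.HN
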