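import Pool.Agent.Work.MP_56b8f5_nt.HN.StmtsW
import Pool.Agent.Work.MP_56b8f5_nt.HN.I_MnD

/-! MP_56b8f5_nt, block HN, item DkM (helper56): the `2k`-th moment of `DN`. -/

set_option autoImplicit false

open MeasureTheory Set Filter Topology

noncomputable section

namespace Pool.Agent.Work.MP_56b8f5_nt.HN

open Pool.Agent.Work.MP_56b8f5_nt.EM Pool.Agent.Work.MP_56b8f5_nt.WM Pool.Agent.Work.MP_56b8f5_nt.SH
open Pool.Agent.Work.MP_56b8f5_nt.HZ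

open AuxMnD in
theorem DkM_pf (h1 : S_Dpw) (h2 : S_MvN) (h3 : S_SSb) : S_DkM := by
  intro k N η a b hN hη hη1 hab
  obtain ⟨C, -, hS⟩ := h3 k
  obtain ⟨hsum, -, -, -⟩ := hS η hη hη1
  obtain ⟨q, hq, hpow, -⟩ := h1 k N η (((N ^ k : ℕ) : ℝ) ^ 100) hN hη.le le_rfl
  set P : ℕ := N ^ k with hPd
  have hI : (∫ t in a..b, ‖DN N η t‖ ^ (2 * k)) = ∫ t in a..b, ‖De P q t‖ ^ 2 := by
    refine intervalIntegral.integral_congr fun t _ => ?_
    show ‖DN N η t‖ ^ (2 * k) = ‖De P q t‖ ^ 2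
    rw [← hpow t, norm_pow, ← pow_mul, mul_comm k 2]
  rw [hI]
  have hM := h2 a b P q hab
  set I : ℝ := ∫ t in a..b, ‖De P q t‖ ^ 2
  set Q : ℝ := ∑ n ∈ Finset.Icc 1 P, q n ^ 2 / (n : ℝ) with hQd
  obtain ⟨-, m2⟩ := abs_le.1 hM
  have hnn : ∀ n : ℕ, 0 ≤ dk k n ^ 2 * (n : ℝ) ^ (-(1 + 2 * η)) := fun n => by positivity
  have hup : Q ≤ SS k η := by
    refine le_trans (Finset.sum_le_sum fun n hn => ?_) (hsum.sum_le_tsum (Finset.Icc 1 P)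
      fun n _ => hnn n)
    have hn1 : 1 ≤ n := (Finset.mem_Icc.1 hn).1
    rw [← term_eq hn1]
    exact div_le_div_of_nonneg_right (pow_le_pow_left₀ (hq.nonneg n) (hq.le n) 2)
      (Nat.cast_nonneg _)
  have h0 : 0 ≤ b - a + 2 * (P : ℝ) ^ 2 := by
    have : 0 ≤ 2 * (P : ℝ) ^ 2 := by positivity
    linarith
  calc I ≤ (b - a + 2 * (P : ℝ) ^ 2) * Q := by linarith
    _ ≤ (b - a + 2 * (P : ℝ) ^ 2) * SS k η := mul_le_mul_of_nonneg_left hup h0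

end Pool.Agent.Work.MP_56b8f5_nt.HN
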