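import Pool.Agent.Work.MP_56b8f5_nt.HN.StmtsX
import Pool.Agent.Work.MP_56b8f5_nt.HN.I_ApZ

/-!
MP_56b8f5_nt, block HN, item MnX (helper76): the mean of `P_x conj P_y`.
-/

set_option autoImplicit false

open MeasureTheory Set Filter Topology

noncomputable section

namespace Pool.Agent.Work.MP_56b8f5_nt.HN

open Pool.Agent.Work.MP_56b8f5_nt.EM Pool.Agent.Work.MP_56b8f5_nt.WM Pool.Agent.Work.MP_56b8f5_nt.SH
open Pool.Agent.Work.MP_56b8f5_nt.HZ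

namespace AuxMnX

/-- The coefficients on the line `1/2`. -/
def co {k : ℕ} (σ : ℝ) (x : Fin k → ℝ) (n : ℕ) : ℂ :=
  dx x n * (((n : ℝ) ^ (-(σ - 1 / 2)) : ℝ) : ℂ)

theorem PX_eq {k : ℕ} (T σ : ℝ) (x : Fin k → ℝ) (t : ℝ) :
    PX T σ x t = Dc ⌊T ^ (1 / 200 : ℝ)⌋₊ (co σ x) t := by
  unfold PX Dc Ds co
  refine Finset.sum_congr rfl fun n hn => ?_
  rw [Finset.mem_Icc] at hn
  have hn0 : (n : ℂ) ≠ 0 := Nat.cast_ne_zero.2 (by omega)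
  have e : (n : ℂ) ^ (-((σ : ℂ) + t * Complex.I)) =
      (((n : ℝ) ^ (-(σ - 1 / 2)) : ℝ) : ℂ) * (n : ℂ) ^ (-(1 / 2 + t * Complex.I)) := by
    rw [Complex.ofReal_cpow (by positivity), Complex.ofReal_natCast, ← Complex.cpow_add _ _ hn0]
    congr 1
    push_cast
    ring
  rw [e]
  ring

theorem rp {n : ℕ} (hn : 1 ≤ n) (σ : ℝ) :
    (n : ℝ) ^ (-(σ - 1 / 2)) * (n : ℝ) ^ (-(σ - 1 / 2)) / (n : ℝ) = (n : ℝ) ^ (-(2 * σ)) := by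
  have hn0 : (0 : ℝ) < n := by exact_mod_cast (by omega : 0 < n)
  rw [← Real.rpow_add hn0, div_eq_mul_inv, ← Real.rpow_neg_one, ← Real.rpow_add hn0]
  congr 1
  ring

theorem main_term {k l : ℕ} (σ : ℝ) (x : Fin k → ℝ) (y : Fin l → ℝ) {n : ℕ} (hn : 1 ≤ n) :
    co σ x n * (starRingEnd ℂ) (co σ y n) / (n : ℂ) =
      dx x n * (starRingEnd ℂ) (dx y n) * (((n : ℝ) ^ (-(2 * σ)) : ℝ) : ℂ) := by
  unfold co
  rw [map_mul, Complex.conj_ofReal, ← rp hn σ]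
  push_cast
  ring

theorem norm_term {k : ℕ} (h : ∀ (k : ℕ) (x : Fin k → ℝ) (n : ℕ), ‖dx x n‖ ≤ dk k n)
    (σ : ℝ) (x : Fin k → ℝ) {n : ℕ} (hn : 1 ≤ n) :
    ‖co σ x n‖ ^ 2 / (n : ℝ) ≤ dk k n ^ 2 * (n : ℝ) ^ (-(2 * σ)) := by
  have hw : 0 ≤ (n : ℝ) ^ (-(σ - 1 / 2)) := Real.rpow_nonneg (Nat.cast_nonneg _) _
  have e1 : ‖co σ x n‖ = ‖dx x n‖ * (n : ℝ) ^ (-(σ - 1 / 2)) := by
    unfold co
    rw [norm_mul, Complex.norm_real, Real.norm_of_nonneg hw]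
  have e2 : ‖dx x n‖ ^ 2 ≤ dk k n ^ 2 := pow_le_pow_left₀ (norm_nonneg _) (h k x n) 2
  rw [e1, ← rp hn σ]
  calc (‖dx x n‖ * (n : ℝ) ^ (-(σ - 1 / 2))) ^ 2 / (n : ℝ)
      = ‖dx x n‖ ^ 2 * ((n : ℝ) ^ (-(σ - 1 / 2)) * (n : ℝ) ^ (-(σ - 1 / 2)) / (n : ℝ)) := by ring
    _ ≤ dk k n ^ 2 * ((n : ℝ) ^ (-(σ - 1 / 2)) * (n : ℝ) ^ (-(σ - 1 / 2)) / (n : ℝ)) :=
      mul_le_mul_of_nonneg_right e2 (by positivity)

theorem fin_tail (f : ℕ → ℝ) (hf : Summable f) (hf0 : ∀ n, 0 ≤ f n) (E : ℝ)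
    (I F : Finset ℕ) (hd : Disjoint I F) (h : ∑' n, f n ≤ ∑ n ∈ I, f n + E) :
    ∑ n ∈ F, f n ≤ E := by
  have h3 := hf.sum_le_tsum (I ∪ F) fun n _ => hf0 n
  rw [Finset.sum_union hd] at h3
  linarith

theorem lim (a : ℕ → ℂ) (ha : Summable a) (I : Finset ℕ) (B : ℝ)
    (h : ∀ F : Finset ℕ, Disjoint I F → ‖∑ n ∈ F, a n‖ ≤ B) :
    ‖(∑ n ∈ I, a n) - ∑' n, a n‖ ≤ B := by
  have h0 : Tendsto (fun F : Finset ℕ => ∑ n ∈ F, a n) atTop (𝓝 (∑' n, a n)) := ha.hasSum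
  have h1 : Tendsto (fun F : Finset ℕ => ‖(∑ n ∈ I, a n) - ∑ n ∈ F, a n‖) atTop
      (𝓝 ‖(∑ n ∈ I, a n) - ∑' n, a n‖) := (tendsto_const_nhds.sub h0).norm
  refine le_of_tendsto h1 ?_
  filter_upwards [eventually_ge_atTop I] with F hF
  have e : ∑ n ∈ F, a n = ∑ n ∈ I, a n + ∑ n ∈ F \ I, a n := by
    rw [← Finset.sum_union Finset.disjoint_sdiff, Finset.union_sdiff_of_subset hF]
  have e2 : (∑ n ∈ I, a n) - (∑ n ∈ I, a n + ∑ n ∈ F \ I, a n) = -∑ n ∈ F \ I, a n := by ring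
  rw [e, e2, norm_neg]
  exact h _ Finset.disjoint_sdiff

theorem logpow (m : ℕ) : ∃ K : ℝ, 1 ≤ K ∧ ∀ T : ℝ, 1 ≤ T →
    Real.log T ^ m ≤ K * T ^ (1 / 4 : ℝ) := by
  rcases Nat.eq_zero_or_pos m with h0 | h0
  · subst h0
    refine ⟨1, le_rfl, fun T hT => ?_⟩
    rw [pow_zero, one_mul]
    exact Real.one_le_rpow hT (by norm_num)
  · have hm : (1 : ℝ) ≤ m := by exact_mod_cast h0
    refine ⟨(4 * m) ^ m, one_le_pow₀ (by linarith), fun T hT => ?_⟩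
    have hT0 : 0 ≤ T := by linarith
    have h1 : Real.log T ≤ T ^ (1 / (4 * m) : ℝ) / (1 / (4 * m)) :=
      Real.log_le_rpow_div hT0 (by positivity)
    have h2 : T ^ (1 / (4 * m) : ℝ) / (1 / (4 * m)) = (4 * m) * T ^ (1 / (4 * m) : ℝ) := by
      field_simp
    rw [h2] at h1
    calc Real.log T ^ m ≤ ((4 * m) * T ^ (1 / (4 * m) : ℝ)) ^ m :=
          pow_le_pow_left₀ (Real.log_nonneg hT) h1 m
      _ = (4 * m) ^ m * T ^ (1 / 4 : ℝ) := by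
          rw [mul_pow, ← Real.rpow_natCast (T ^ (1 / (4 * m) : ℝ)), ← Real.rpow_mul hT0]
          congr 2
          field_simp

end AuxMnX

open AuxMnX in
/-- **Item MnX.** -/
theorem MnX_pf (h1 : S_MvC) (h2 : S_SSb) (h3 : S_SSu) (h4 : S_dxB) : S_MnX := by
  intro k l _ _
  obtain ⟨Ck, hCk, HCk⟩ := h2 k
  obtain ⟨Cl, hCl, HCl⟩ := h2 l
  obtain ⟨Dk, hDk, HDk⟩ := h3 k
  obtain ⟨Dl, hDl, HDl⟩ := h3 l
  obtain ⟨Kk, hKk, HKk⟩ := logpow (k ^ 2)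
  obtain ⟨Kl, hKl, HKl⟩ := logpow (l ^ 2)
  obtain ⟨hdx, -⟩ := h4
  refine ⟨Dk * Kk + Dl * Kl + 2 * (Ck * Cl), 3, ?_, le_rfl, ?_⟩
  · have e1 : 1 ≤ Dk * Kk := one_le_mul_of_one_le_of_one_le hDk hKk
    have e2 : 1 ≤ Dl * Kl := one_le_mul_of_one_le_of_one_le hDl hKl
    have e3 : 1 ≤ Ck * Cl := one_le_mul_of_one_le_of_one_le hCk hCl
    linarith
  intro T hT σ A hσ hA hA1 x y
  have hT0 : 0 < T := by linarith
  have hT1 : 1 ≤ T := by linarith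
  have hlT : 0 < Real.log T := Real.log_pos (by linarith)
  have hη : 0 < σ - 1 / 2 := by
    by_contra hcon
    have e1 : (σ - 1 / 2) * Real.log T ≤ 0 :=
      mul_nonpos_of_nonpos_of_nonneg (not_lt.1 hcon) hlT.le
    linarith
  have hη8 : σ - 1 / 2 ≤ 1 / 8 := by linarith
  have hηinv : 1 / (σ - 1 / 2) ≤ Real.log T := by
    rw [div_le_iff₀ hη]
    linarith [mul_comm (σ - 1 / 2) (Real.log T)]
  obtain ⟨hN1, -, hN3⟩ := AuxApZ.floor200 hT1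
  have hNle : ((⌊T ^ (1 / 200 : ℝ)⌋₊ : ℕ) : ℝ) ≤ T ^ (1 / 200 : ℝ) :=
    Nat.floor_le (Real.rpow_nonneg hT0.le _)
  obtain ⟨N, hN⟩ : ∃ N : ℕ, N = ⌊T ^ (1 / 200 : ℝ)⌋₊ := ⟨_, rfl⟩
  rw [← hN] at hN1 hN3 hNle
  have hNη := AuxApZ.rpow_neg_le hT1 hη (by linarith) hN1 hN3
  have ex : -(1 + 2 * (σ - 1 / 2)) = -(2 * σ) := by ring
  -- the two series
  obtain ⟨f, hf⟩ : ∃ f : ℕ → ℝ, f = fun n => dk k n ^ 2 * (n : ℝ) ^ (-(2 * σ)) := ⟨_, rfl⟩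
  obtain ⟨g, hg⟩ : ∃ g : ℕ → ℝ, g = fun n => dk l n ^ 2 * (n : ℝ) ^ (-(2 * σ)) := ⟨_, rfl⟩
  have hf0 : ∀ n, 0 ≤ f n := by
    intro n
    rw [hf]
    exact mul_nonneg (sq_nonneg _) (Real.rpow_nonneg (Nat.cast_nonneg _) _)
  have hg0 : ∀ n, 0 ≤ g n := by
    intro n
    rw [hg]
    exact mul_nonneg (sq_nonneg _) (Real.rpow_nonneg (Nat.cast_nonneg _) _)
  obtain ⟨hfs, hSk1, -, hfl⟩ := HCk _ hη hη8
  obtain ⟨hgs, hSl1, -, hgl⟩ := HCl _ hη hη8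
  have hSku := (HDk _ hη hη8).2
  have hSlu := (HDl _ hη hη8).2
  have hfl := hfl N hN1
  have hgl := hgl N hN1
  unfold SS at hSk1 hSl1 hSku hSlu hfl hgl
  rw [ex] at hfs hSk1 hSku hfl hgs hSl1 hSlu hgl
  obtain ⟨S, hS⟩ : ∃ S : ℝ, S = ∑' n : ℕ, dk k n ^ 2 * (n : ℝ) ^ (-(2 * σ)) := ⟨_, rfl⟩
  obtain ⟨R, hR⟩ : ∃ R : ℝ, R = ∑' n : ℕ, dk l n ^ 2 * (n : ℝ) ^ (-(2 * σ)) := ⟨_, rfl⟩
  rw [← hS] at hSk1 hSku hfl
  rw [← hR] at hSl1 hSlu hgl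
  rw [← hS, ← hR]
  have hSf : S = ∑' n, f n := by rw [hS, hf]
  have hRg : R = ∑' n, g n := by rw [hR, hg]
  rw [← hf] at hfs
  rw [← hg] at hgs
  -- the summands
  obtain ⟨a, ha⟩ : ∃ a : ℕ → ℂ, a = fun n =>
    dx x n * (starRingEnd ℂ) (dx y n) * (((n : ℝ) ^ (-(2 * σ)) : ℝ) : ℂ) := ⟨_, rfl⟩
  have han : ∀ n, ‖a n‖ ≤ √(f n) * √(g n) := by
    intro n
    have hw : 0 ≤ (n : ℝ) ^ (-(2 * σ)) := Real.rpow_nonneg (Nat.cast_nonneg _) _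
    have e1 : ‖a n‖ = ‖dx x n‖ * ‖dx y n‖ * (n : ℝ) ^ (-(2 * σ)) := by
      rw [ha]
      simp only [norm_mul, RCLike.norm_conj, Complex.norm_real]
      rw [Real.norm_of_nonneg hw]
    have e2 : ‖a n‖ ≤ dk k n * dk l n * (n : ℝ) ^ (-(2 * σ)) := by
      rw [e1]
      refine mul_le_mul_of_nonneg_right ?_ hw
      exact mul_le_mul (hdx k x n) (hdx l y n) (norm_nonneg _)
        ((norm_nonneg _).trans (hdx k x n))
    rw [← Real.sqrt_mul (hf0 n)]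
    refine Real.le_sqrt_of_sq_le ?_
    calc ‖a n‖ ^ 2 ≤ (dk k n * dk l n * (n : ℝ) ^ (-(2 * σ))) ^ 2 :=
          pow_le_pow_left₀ (norm_nonneg _) e2 2
      _ = f n * g n := by
          rw [hf, hg]
          ring
  have has : Summable a := by
    refine Summable.of_norm_bounded (hfs.add hgs) fun n => ?_
    refine (han n).trans ?_
    have e1 := Real.sq_sqrt (hf0 n)
    have e2 := Real.sq_sqrt (hg0 n)
    nlinarith [sq_nonneg (√(f n) - √(g n)), hf0 n, hg0 n]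
  -- the tail
  obtain ⟨w, hw⟩ : ∃ w : ℝ, w = (N : ℝ) ^ (-(σ - 1 / 2)) := ⟨_, rfl⟩
  rw [← hw] at hfl hgl hNη
  have hw0 : 0 ≤ w := by
    rw [hw]
    exact Real.rpow_nonneg (Nat.cast_nonneg _) _
  have htail : ‖(∑ n ∈ Finset.Icc 1 N, a n) - ∑' n, a n‖ ≤ Ck * Cl * w * √(S * R) := by
    refine lim a has _ _ fun F hF => ?_
    have e1 : ∑ n ∈ F, f n ≤ Ck * w * S := by
      refine fin_tail f hfs hf0 _ (Finset.Icc 1 N) F hF ?_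
      rw [← hSf, hf]
      exact hfl
    have e2 : ∑ n ∈ F, g n ≤ Cl * w * R := by
      refine fin_tail g hgs hg0 _ (Finset.Icc 1 N) F hF ?_
      rw [← hRg, hg]
      exact hgl
    calc ‖∑ n ∈ F, a n‖ ≤ ∑ n ∈ F, ‖a n‖ := norm_sum_le _ _
      _ ≤ ∑ n ∈ F, √(f n) * √(g n) := Finset.sum_le_sum fun n _ => han n
      _ ≤ √(∑ n ∈ F, f n) * √(∑ n ∈ F, g n) :=
          Real.sum_sqrt_mul_sqrt_le _ hf0 hg0
      _ ≤ √(Ck * w * S) * √(Cl * w * R) :=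
          mul_le_mul (Real.sqrt_le_sqrt e1) (Real.sqrt_le_sqrt e2) (Real.sqrt_nonneg _)
            (Real.sqrt_nonneg _)
      _ = √(Ck * w * S * (Cl * w * R)) := (Real.sqrt_mul (by positivity) _).symm
      _ ≤ √((Ck * Cl * w) ^ 2 * (S * R)) := by
          apply Real.sqrt_le_sqrt
          have c1 : 1 ≤ Ck * Cl := one_le_mul_of_one_le_of_one_le hCk hCl
          have c2 : Ck * Cl ≤ (Ck * Cl) ^ 2 := by nlinarith
          calc Ck * w * S * (Cl * w * R) = (Ck * Cl) * (w ^ 2 * (S * R)) := by ring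
            _ ≤ (Ck * Cl) ^ 2 * (w ^ 2 * (S * R)) :=
              mul_le_mul_of_nonneg_right c2 (by positivity)
            _ = (Ck * Cl * w) ^ 2 * (S * R) := by ring
      _ = Ck * Cl * w * √(S * R) := by
          rw [Real.sqrt_mul (sq_nonneg _), Real.sqrt_sq (by positivity)]
  -- the mean value theorem
  have hmv := (h1 0 T N (co σ x) (co σ y) hT0.le).1
  have hPx : ∀ t : ℝ, PX T σ x t = Dc N (co σ x) t := fun t => by rw [PX_eq, hN]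
  have hPy : ∀ t : ℝ, PX T σ y t = Dc N (co σ y) t := fun t => by rw [PX_eq, hN]
  simp only [hPx, hPy]
  have hmt : ∑ n ∈ Finset.Icc 1 N, co σ x n * (starRingEnd ℂ) (co σ y n) / (n : ℂ) =
      ∑ n ∈ Finset.Icc 1 N, a n := by
    refine Finset.sum_congr rfl fun n hn => ?_
    rw [main_term σ x y (Finset.mem_Icc.1 hn).1, ha]
  rw [hmt] at hmv
  have hnk : ∑ n ∈ Finset.Icc 1 N, ‖co σ x n‖ ^ 2 / (n : ℝ) ≤ S := by
    calc ∑ n ∈ Finset.Icc 1 N, ‖co σ x n‖ ^ 2 / (n : ℝ) ≤ ∑ n ∈ Finset.Icc 1 N, f n := by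
          refine Finset.sum_le_sum fun n hn => ?_
          rw [hf]
          exact norm_term hdx σ x (Finset.mem_Icc.1 hn).1
      _ ≤ S := by
          rw [hSf]
          exact hfs.sum_le_tsum _ fun n _ => hf0 n
  have hnl : ∑ n ∈ Finset.Icc 1 N, ‖co σ y n‖ ^ 2 / (n : ℝ) ≤ R := by
    calc ∑ n ∈ Finset.Icc 1 N, ‖co σ y n‖ ^ 2 / (n : ℝ) ≤ ∑ n ∈ Finset.Icc 1 N, g n := by
          refine Finset.sum_le_sum fun n hn => ?_
          rw [hg]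
          exact norm_term hdx σ y (Finset.mem_Icc.1 hn).1
      _ ≤ R := by
          rw [hRg]
          exact hgs.sum_le_tsum _ fun n _ => hg0 n
  -- sizes
  obtain ⟨E, hE⟩ : ∃ E : ℝ, E = Real.exp (-(A / 400)) := ⟨_, rfl⟩
  have hE0 : 0 < E := hE ▸ Real.exp_pos _
  rw [← hE]
  have hwE : w ≤ 2 * E := by
    refine hNη.trans ?_
    rw [hE]
    have : Real.exp (-((σ - 1 / 2) * Real.log T / 200)) ≤ Real.exp (-(A / 400)) :=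
      Real.exp_le_exp.2 (by linarith)
    linarith
  have hQ0 : 0 < T ^ (1 / 4 : ℝ) := Real.rpow_pos_of_pos hT0 _
  have hQQ : T ^ (1 / 4 : ℝ) * T ^ (1 / 4 : ℝ) ≤ E * T := by
    have e1 : E * T = Real.exp (Real.log T - A / 400) := by
      rw [Real.exp_sub, Real.exp_log hT0, hE, Real.exp_neg]
      ring
    have e2 : T ^ (1 / 4 : ℝ) * T ^ (1 / 4 : ℝ) = Real.exp (Real.log T * (1 / 2)) := by
      rw [← Real.rpow_add hT0, Real.rpow_def_of_pos hT0]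
      norm_num
    rw [e1, e2]
    apply Real.exp_le_exp.2
    have e3 : (σ - 1 / 2) * Real.log T ≤ (1 / 8) * Real.log T :=
      mul_le_mul_of_nonneg_right hη8 hlT.le
    linarith
  have hN2 : (N : ℝ) ^ 2 ≤ T ^ (1 / 4 : ℝ) := by
    calc (N : ℝ) ^ 2 ≤ (T ^ (1 / 200 : ℝ)) ^ 2 := pow_le_pow_left₀ (Nat.cast_nonneg _) hNle 2
      _ = T ^ (1 / 100 : ℝ) := by
          rw [← Real.rpow_natCast, ← Real.rpow_mul hT0.le]
          norm_num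
      _ ≤ T ^ (1 / 4 : ℝ) := Real.rpow_le_rpow_of_exponent_le hT1 (by norm_num)
  have hηi0 : 0 ≤ 1 / (σ - 1 / 2) := by positivity
  have hSb : S ≤ Dk * Kk * T ^ (1 / 4 : ℝ) := by
    calc S ≤ Dk * (1 / (σ - 1 / 2)) ^ k ^ 2 := hSku
      _ ≤ Dk * Real.log T ^ k ^ 2 :=
          mul_le_mul_of_nonneg_left (pow_le_pow_left₀ hηi0 hηinv _) (by linarith)
      _ ≤ Dk * (Kk * T ^ (1 / 4 : ℝ)) := mul_le_mul_of_nonneg_left (HKk T hT1) (by linarith)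
      _ = Dk * Kk * T ^ (1 / 4 : ℝ) := by ring
  have hRb : R ≤ Dl * Kl * T ^ (1 / 4 : ℝ) := by
    calc R ≤ Dl * (1 / (σ - 1 / 2)) ^ l ^ 2 := hSlu
      _ ≤ Dl * Real.log T ^ l ^ 2 :=
          mul_le_mul_of_nonneg_left (pow_le_pow_left₀ hηi0 hηinv _) (by linarith)
      _ ≤ Dl * (Kl * T ^ (1 / 4 : ℝ)) := mul_le_mul_of_nonneg_left (HKl T hT1) (by linarith)
      _ = Dl * Kl * T ^ (1 / 4 : ℝ) := by ring
  have hSR : 1 ≤ √(S * R) := by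
    rw [Real.one_le_sqrt]
    exact one_le_mul_of_one_le_of_one_le hSk1 hSl1
  have herr : (N : ℝ) ^ 2 * (∑ n ∈ Finset.Icc 1 N, ‖co σ x n‖ ^ 2 / (n : ℝ) +
      ∑ n ∈ Finset.Icc 1 N, ‖co σ y n‖ ^ 2 / (n : ℝ)) ≤
      (Dk * Kk + Dl * Kl) * (E * T * √(S * R)) := by
    calc (N : ℝ) ^ 2 * (∑ n ∈ Finset.Icc 1 N, ‖co σ x n‖ ^ 2 / (n : ℝ) +
          ∑ n ∈ Finset.Icc 1 N, ‖co σ y n‖ ^ 2 / (n : ℝ))
        ≤ T ^ (1 / 4 : ℝ) * ((Dk * Kk + Dl * Kl) * T ^ (1 / 4 : ℝ)) := by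
          refine mul_le_mul hN2 (by linarith) ?_ hQ0.le
          refine add_nonneg (Finset.sum_nonneg fun n _ => ?_)
            (Finset.sum_nonneg fun n _ => ?_)
          · positivity
          · positivity
      _ = (Dk * Kk + Dl * Kl) * (T ^ (1 / 4 : ℝ) * T ^ (1 / 4 : ℝ)) := by ring
      _ ≤ (Dk * Kk + Dl * Kl) * (E * T * √(S * R)) := by
          refine mul_le_mul_of_nonneg_left (hQQ.trans ?_) (by positivity)
          exact le_mul_of_one_le_right (by positivity) hSR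
  have hta : ∑' n : ℕ, dx x n * (starRingEnd ℂ) (dx y n) * (((n : ℝ) ^ (-(2 * σ)) : ℝ) : ℂ) =
      ∑' n, a n := by rw [ha]
  rw [hta]
  obtain ⟨J, hJ⟩ : ∃ J : ℂ, J = ∫ t in (0 : ℝ)..T, Dc N (co σ x) t *
    (starRingEnd ℂ) (Dc N (co σ y) t) := ⟨_, rfl⟩
  rw [← hJ] at hmv ⊢
  have hsplit : J - T * ∑' n, a n = (J - ((T : ℂ) - ((0 : ℝ) : ℂ)) * ∑ n ∈ Finset.Icc 1 N, a n) +
      T * ((∑ n ∈ Finset.Icc 1 N, a n) - ∑' n, a n) := by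
    push_cast
    ring
  rw [hsplit]
  calc ‖(J - ((T : ℂ) - ((0 : ℝ) : ℂ)) * ∑ n ∈ Finset.Icc 1 N, a n) +
      T * ((∑ n ∈ Finset.Icc 1 N, a n) - ∑' n, a n)‖
      ≤ ‖J - ((T : ℂ) - ((0 : ℝ) : ℂ)) * ∑ n ∈ Finset.Icc 1 N, a n‖ +
        ‖(T : ℂ) * ((∑ n ∈ Finset.Icc 1 N, a n) - ∑' n, a n)‖ := norm_add_le _ _
    _ ≤ (Dk * Kk + Dl * Kl) * (E * T * √(S * R)) + T * (Ck * Cl * (2 * E) * √(S * R)) := by
        refine add_le_add (hmv.trans herr) ?_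
        rw [norm_mul, Complex.norm_real, Real.norm_of_nonneg hT0.le]
        refine mul_le_mul_of_nonneg_left (htail.trans ?_) hT0.le
        refine mul_le_mul_of_nonneg_right ?_ (Real.sqrt_nonneg _)
        exact mul_le_mul_of_nonneg_left hwE (by positivity)
    _ = (Dk * Kk + Dl * Kl + 2 * (Ck * Cl)) * E * (T * √(S * R)) := by ring

end Pool.Agent.Work.MP_56b8f5_nt.HN
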