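import Pool.Agent.Work.MP_56b8f5_nt.HN.StmtsW
import Pool.Agent.Work.MP_56b8f5_nt.HN.I_MnX

/-!
MP_56b8f5_nt, block HN, item MnW: the mean of `P_s conj P_w` (after `I_MnX.lean` of helper76).
-/

set_option autoImplicit false

open MeasureTheory Set Filter Topology

noncomputable section

namespace Pool.Agent.Work.MP_56b8f5_nt.HN

open Pool.Agent.Work.MP_56b8f5_nt.EM Pool.Agent.Work.MP_56b8f5_nt.WM Pool.Agent.Work.MP_56b8f5_nt.SH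
open Pool.Agent.Work.MP_56b8f5_nt.HZ

namespace AuxMnW

/-- The coefficients on the line `1/2`. -/
def co {k : ℕ} (s : Fin k → ℂ) (n : ℕ) : ℂ :=
  dw s n * (((n : ℝ) ^ (1 / 2 : ℝ) : ℝ) : ℂ)

theorem PW_eq {k : ℕ} (T : ℝ) (s : Fin k → ℂ) (t : ℝ) :
    PW T s t = Dc ⌊T ^ (1 / 200 : ℝ)⌋₊ (co s) t := by
  unfold PW Dc Ds co
  refine Finset.sum_congr rfl fun n hn => ?_
  rw [Finset.mem_Icc] at hn
  have hn0 : (n : ℂ) ≠ 0 := Nat.cast_ne_zero.2 (by omega)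
  have e : (n : ℂ) ^ (-(t * Complex.I)) =
      (((n : ℝ) ^ (1 / 2 : ℝ) : ℝ) : ℂ) * (n : ℂ) ^ (-(1 / 2 + t * Complex.I)) := by
    rw [Complex.ofReal_cpow (by positivity), Complex.ofReal_natCast, ← Complex.cpow_add _ _ hn0]
    congr 1
    push_cast
    ring
  rw [e]
  ring

theorem rp {n : ℕ} (hn : 1 ≤ n) :
    (n : ℝ) ^ (1 / 2 : ℝ) * (n : ℝ) ^ (1 / 2 : ℝ) / (n : ℝ) = 1 := by
  have hn0 : (0 : ℝ) < n := by exact_mod_cast (by omega : 0 < n)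
  rw [← Real.rpow_add hn0]
  norm_num
  omega

theorem main_term {k l : ℕ} (s : Fin k → ℂ) (w : Fin l → ℂ) {n : ℕ} (hn : 1 ≤ n) :
    co s n * (starRingEnd ℂ) (co w n) / (n : ℂ) = dw s n * (starRingEnd ℂ) (dw w n) := by
  unfold co
  rw [map_mul, Complex.conj_ofReal]
  have h : (((n : ℝ) ^ (1 / 2 : ℝ) : ℝ) : ℂ) * (((n : ℝ) ^ (1 / 2 : ℝ) : ℝ) : ℂ) / (n : ℂ) = 1 := by
    have h0 := congrArg (fun x : ℝ => (x : ℂ)) (rp hn)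
    push_cast at h0 ⊢
    exact h0
  calc dw s n * (((n : ℝ) ^ (1 / 2 : ℝ) : ℝ) : ℂ) *
        ((starRingEnd ℂ) (dw w n) * (((n : ℝ) ^ (1 / 2 : ℝ) : ℝ) : ℂ)) / (n : ℂ)
      = dw s n * (starRingEnd ℂ) (dw w n) *
        ((((n : ℝ) ^ (1 / 2 : ℝ) : ℝ) : ℂ) * (((n : ℝ) ^ (1 / 2 : ℝ) : ℝ) : ℂ) / (n : ℂ)) := by ring
    _ = _ := by rw [h, mul_one]

theorem sq_le {k : ℕ} (h : S_dwB) {σ : ℝ} (s : Fin k → ℂ) (hs : ∀ j, σ ≤ (s j).re) (n : ℕ) :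
    ‖dw s n‖ ≤ dk k n * (n : ℝ) ^ (-σ) ∧
      (dk k n * (n : ℝ) ^ (-σ)) ^ 2 = dk k n ^ 2 * (n : ℝ) ^ (-(2 * σ)) := by
  have h0 := h.1 k (σ - 1 / 2) s n fun j => by linarith [hs j]
  have e : -(1 / 2 + (σ - 1 / 2)) = -σ := by ring
  rw [e] at h0
  refine ⟨h0, ?_⟩
  rw [mul_pow]
  congr 1
  rw [← Real.rpow_natCast, ← Real.rpow_mul (Nat.cast_nonneg _)]
  congr 1
  push_cast
  ring

theorem norm_term {k : ℕ} (h : S_dwB) {σ : ℝ} (s : Fin k → ℂ) (hs : ∀ j, σ ≤ (s j).re)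
    {n : ℕ} (hn : 1 ≤ n) :
    ‖co s n‖ ^ 2 / (n : ℝ) ≤ dk k n ^ 2 * (n : ℝ) ^ (-(2 * σ)) := by
  have hw : 0 ≤ (n : ℝ) ^ (1 / 2 : ℝ) := Real.rpow_nonneg (Nat.cast_nonneg _) _
  have e1 : ‖co s n‖ = ‖dw s n‖ * (n : ℝ) ^ (1 / 2 : ℝ) := by
    unfold co
    rw [norm_mul, Complex.norm_real, Real.norm_of_nonneg hw]
  obtain ⟨h1, h2⟩ := sq_le h s hs n
  have e2 : ‖dw s n‖ ^ 2 ≤ (dk k n * (n : ℝ) ^ (-σ)) ^ 2 :=
    pow_le_pow_left₀ (norm_nonneg _) h1 2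
  rw [e1, ← h2]
  calc (‖dw s n‖ * (n : ℝ) ^ (1 / 2 : ℝ)) ^ 2 / (n : ℝ)
      = ‖dw s n‖ ^ 2 * ((n : ℝ) ^ (1 / 2 : ℝ) * (n : ℝ) ^ (1 / 2 : ℝ) / (n : ℝ)) := by ring
    _ = ‖dw s n‖ ^ 2 := by rw [rp hn, mul_one]
    _ ≤ _ := e2

end AuxMnW

open AuxMnX (fin_tail lim logpow) in
open AuxMnW in
/-- **Item MnW.** -/
theorem MnW_pf (h1 : S_MvC) (h2 : S_SSb) (h3 : S_SSu) (h4 : S_dwB) : S_MnW := by
  intro k l _ _
  obtain ⟨Ck, hCk, HCk⟩ := h2 k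
  obtain ⟨Cl, hCl, HCl⟩ := h2 l
  obtain ⟨Dk, hDk, HDk⟩ := h3 k
  obtain ⟨Dl, hDl, HDl⟩ := h3 l
  obtain ⟨Kk, hKk, HKk⟩ := logpow (k ^ 2)
  obtain ⟨Kl, hKl, HKl⟩ := logpow (l ^ 2)
  refine ⟨Dk * Kk + Dl * Kl + 2 * (Ck * Cl), 3, ?_, le_rfl, ?_⟩
  · have e1 : 1 ≤ Dk * Kk := one_le_mul_of_one_le_of_one_le hDk hKk
    have e2 : 1 ≤ Dl * Kl := one_le_mul_of_one_le_of_one_le hDl hKl
    have e3 : 1 ≤ Ck * Cl := one_le_mul_of_one_le_of_one_le hCk hCl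
    linarith
  intro T hT σ A hσ hA hA1 x y hx hy
  have hT0 : 0 < T := by linarith
  have hT1 : 1 ≤ T := by linarith
  have hlT : 0 < Real.log T := Real.log_pos (by linarith)
  have hη : 0 < σ - 1 / 2 := by
    by_contra hcon
    have e1 : (σ - 1 / 2) * Real.log T ≤ 0 :=
      mul_nonpos_of_nonpos_of_nonneg (not_lt.1 hcon) hlT.le
    linarith
  have hη8 : σ - 1 / 2 ≤ 1 / 8 := by linarith
  have hηinv : 1 / (σ - 1 / 2) ≤ Real.log T := by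
    rw [div_le_iff₀ hη]
    linarith [mul_comm (σ - 1 / 2) (Real.log T)]
  obtain ⟨hN1, -, hN3⟩ := AuxApZ.floor200 hT1
  have hNle : ((⌊T ^ (1 / 200 : ℝ)⌋₊ : ℕ) : ℝ) ≤ T ^ (1 / 200 : ℝ) :=
    Nat.floor_le (Real.rpow_nonneg hT0.le _)
  obtain ⟨N, hN⟩ : ∃ N : ℕ, N = ⌊T ^ (1 / 200 : ℝ)⌋₊ := ⟨_, rfl⟩
  rw [← hN] at hN1 hN3 hNle
  have hNη := AuxApZ.rpow_neg_le hT1 hη (by linarith) hN1 hN3
  have ex : -(1 + 2 * (σ - 1 / 2)) = -(2 * σ) := by ring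
  -- the two series
  obtain ⟨f, hf⟩ : ∃ f : ℕ → ℝ, f = fun n => dk k n ^ 2 * (n : ℝ) ^ (-(2 * σ)) := ⟨_, rfl⟩
  obtain ⟨g, hg⟩ : ∃ g : ℕ → ℝ, g = fun n => dk l n ^ 2 * (n : ℝ) ^ (-(2 * σ)) := ⟨_, rfl⟩
  have hf0 : ∀ n, 0 ≤ f n := by
    intro n
    rw [hf]
    exact mul_nonneg (sq_nonneg _) (Real.rpow_nonneg (Nat.cast_nonneg _) _)
  have hg0 : ∀ n, 0 ≤ g n := by
    intro n
    rw [hg]
    exact mul_nonneg (sq_nonneg _) (Real.rpow_nonneg (Nat.cast_nonneg _) _)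
  obtain ⟨hfs, hSk1, -, hfl⟩ := HCk _ hη hη8
  obtain ⟨hgs, hSl1, -, hgl⟩ := HCl _ hη hη8
  have hSku := (HDk _ hη hη8).2
  have hSlu := (HDl _ hη hη8).2
  have hfl := hfl N hN1
  have hgl := hgl N hN1
  unfold SS at hSk1 hSl1 hSku hSlu hfl hgl
  rw [ex] at hfs hSk1 hSku hfl hgs hSl1 hSlu hgl
  obtain ⟨S, hS⟩ : ∃ S : ℝ, S = ∑' n : ℕ, dk k n ^ 2 * (n : ℝ) ^ (-(2 * σ)) := ⟨_, rfl⟩
  obtain ⟨R, hR⟩ : ∃ R : ℝ, R = ∑' n : ℕ, dk l n ^ 2 * (n : ℝ) ^ (-(2 * σ)) := ⟨_, rfl⟩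
  rw [← hS] at hSk1 hSku hfl
  rw [← hR] at hSl1 hSlu hgl
  rw [← hS, ← hR]
  have hSf : S = ∑' n, f n := by rw [hS, hf]
  have hRg : R = ∑' n, g n := by rw [hR, hg]
  rw [← hf] at hfs
  rw [← hg] at hgs
  -- the summands
  obtain ⟨a, ha⟩ : ∃ a : ℕ → ℂ, a = fun n => dw x n * (starRingEnd ℂ) (dw y n) := ⟨_, rfl⟩
  have han : ∀ n, ‖a n‖ ≤ √(f n) * √(g n) := by
    intro n
    obtain ⟨c1, c2⟩ := sq_le h4 x hx n
    obtain ⟨c3, c4⟩ := sq_le h4 y hy n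
    have e1 : ‖a n‖ = ‖dw x n‖ * ‖dw y n‖ := by
      rw [ha]
      simp only [norm_mul, RCLike.norm_conj]
    rw [← Real.sqrt_mul (hf0 n)]
    refine Real.le_sqrt_of_sq_le ?_
    calc ‖a n‖ ^ 2 = ‖dw x n‖ ^ 2 * ‖dw y n‖ ^ 2 := by rw [e1, mul_pow]
      _ ≤ (dk k n * (n : ℝ) ^ (-σ)) ^ 2 * (dk l n * (n : ℝ) ^ (-σ)) ^ 2 :=
          mul_le_mul (pow_le_pow_left₀ (norm_nonneg _) c1 2)
            (pow_le_pow_left₀ (norm_nonneg _) c3 2) (sq_nonneg _) (sq_nonneg _)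
      _ = f n * g n := by rw [c2, c4, hf, hg]
  have has : Summable a := by
    refine Summable.of_norm_bounded (hfs.add hgs) fun n => ?_
    refine (han n).trans ?_
    have e1 := Real.sq_sqrt (hf0 n)
    have e2 := Real.sq_sqrt (hg0 n)
    nlinarith [sq_nonneg (√(f n) - √(g n)), hf0 n, hg0 n]
  -- the tail
  obtain ⟨w, hw⟩ : ∃ w : ℝ, w = (N : ℝ) ^ (-(σ - 1 / 2)) := ⟨_, rfl⟩
  rw [← hw] at hfl hgl hNη
  have hw0 : 0 ≤ w := by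
    rw [hw]
    exact Real.rpow_nonneg (Nat.cast_nonneg _) _
  have htail : ‖(∑ n ∈ Finset.Icc 1 N, a n) - ∑' n, a n‖ ≤ Ck * Cl * w * √(S * R) := by
    refine lim a has _ _ fun F hF => ?_
    have e1 : ∑ n ∈ F, f n ≤ Ck * w * S := by
      refine fin_tail f hfs hf0 _ (Finset.Icc 1 N) F hF ?_
      rw [← hSf, hf]
      exact hfl
    have e2 : ∑ n ∈ F, g n ≤ Cl * w * R := by
      refine fin_tail g hgs hg0 _ (Finset.Icc 1 N) F hF ?_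
      rw [← hRg, hg]
      exact hgl
    calc ‖∑ n ∈ F, a n‖ ≤ ∑ n ∈ F, ‖a n‖ := norm_sum_le _ _
      _ ≤ ∑ n ∈ F, √(f n) * √(g n) := Finset.sum_le_sum fun n _ => han n
      _ ≤ √(∑ n ∈ F, f n) * √(∑ n ∈ F, g n) :=
          Real.sum_sqrt_mul_sqrt_le _ hf0 hg0
      _ ≤ √(Ck * w * S) * √(Cl * w * R) :=
          mul_le_mul (Real.sqrt_le_sqrt e1) (Real.sqrt_le_sqrt e2) (Real.sqrt_nonneg _)
            (Real.sqrt_nonneg _)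
      _ = √(Ck * w * S * (Cl * w * R)) := (Real.sqrt_mul (by positivity) _).symm
      _ ≤ √((Ck * Cl * w) ^ 2 * (S * R)) := by
          apply Real.sqrt_le_sqrt
          have c1 : 1 ≤ Ck * Cl := one_le_mul_of_one_le_of_one_le hCk hCl
          have c2 : Ck * Cl ≤ (Ck * Cl) ^ 2 := by nlinarith
          calc Ck * w * S * (Cl * w * R) = (Ck * Cl) * (w ^ 2 * (S * R)) := by ring
            _ ≤ (Ck * Cl) ^ 2 * (w ^ 2 * (S * R)) :=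
              mul_le_mul_of_nonneg_right c2 (by positivity)
            _ = (Ck * Cl * w) ^ 2 * (S * R) := by ring
      _ = Ck * Cl * w * √(S * R) := by
          rw [Real.sqrt_mul (sq_nonneg _), Real.sqrt_sq (by positivity)]
  -- the mean value theorem
  have hmv := (h1 0 T N (co x) (co y) hT0.le).1
  have hPx : ∀ t : ℝ, PW T x t = Dc N (co x) t := fun t => by rw [PW_eq, hN]
  have hPy : ∀ t : ℝ, PW T y t = Dc N (co y) t := fun t => by rw [PW_eq, hN]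
  simp only [hPx, hPy]
  have hmt : ∑ n ∈ Finset.Icc 1 N, co x n * (starRingEnd ℂ) (co y n) / (n : ℂ) =
      ∑ n ∈ Finset.Icc 1 N, a n := by
    refine Finset.sum_congr rfl fun n hn => ?_
    rw [main_term x y (Finset.mem_Icc.1 hn).1, ha]
  rw [hmt] at hmv
  have hnk : ∑ n ∈ Finset.Icc 1 N, ‖co x n‖ ^ 2 / (n : ℝ) ≤ S := by
    calc ∑ n ∈ Finset.Icc 1 N, ‖co x n‖ ^ 2 / (n : ℝ) ≤ ∑ n ∈ Finset.Icc 1 N, f n := by
          refine Finset.sum_le_sum fun n hn => ?_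
          rw [hf]
          exact norm_term h4 x hx (Finset.mem_Icc.1 hn).1
      _ ≤ S := by
          rw [hSf]
          exact hfs.sum_le_tsum _ fun n _ => hf0 n
  have hnl : ∑ n ∈ Finset.Icc 1 N, ‖co y n‖ ^ 2 / (n : ℝ) ≤ R := by
    calc ∑ n ∈ Finset.Icc 1 N, ‖co y n‖ ^ 2 / (n : ℝ) ≤ ∑ n ∈ Finset.Icc 1 N, g n := by
          refine Finset.sum_le_sum fun n hn => ?_
          rw [hg]
          exact norm_term h4 y hy (Finset.mem_Icc.1 hn).1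
      _ ≤ R := by
          rw [hRg]
          exact hgs.sum_le_tsum _ fun n _ => hg0 n
  -- sizes
  obtain ⟨E, hE⟩ : ∃ E : ℝ, E = Real.exp (-(A / 400)) := ⟨_, rfl⟩
  have hE0 : 0 < E := hE ▸ Real.exp_pos _
  rw [← hE]
  have hwE : w ≤ 2 * E := by
    refine hNη.trans ?_
    rw [hE]
    have : Real.exp (-((σ - 1 / 2) * Real.log T / 200)) ≤ Real.exp (-(A / 400)) :=
      Real.exp_le_exp.2 (by linarith)
    linarith
  have hQ0 : 0 < T ^ (1 / 4 : ℝ) := Real.rpow_pos_of_pos hT0 _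
  have hQQ : T ^ (1 / 4 : ℝ) * T ^ (1 / 4 : ℝ) ≤ E * T := by
    have e1 : E * T = Real.exp (Real.log T - A / 400) := by
      rw [Real.exp_sub, Real.exp_log hT0, hE, Real.exp_neg]
      ring
    have e2 : T ^ (1 / 4 : ℝ) * T ^ (1 / 4 : ℝ) = Real.exp (Real.log T * (1 / 2)) := by
      rw [← Real.rpow_add hT0, Real.rpow_def_of_pos hT0]
      norm_num
    rw [e1, e2]
    apply Real.exp_le_exp.2
    have e3 : (σ - 1 / 2) * Real.log T ≤ (1 / 8) * Real.log T :=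
      mul_le_mul_of_nonneg_right hη8 hlT.le
    linarith
  have hN2 : (N : ℝ) ^ 2 ≤ T ^ (1 / 4 : ℝ) := by
    calc (N : ℝ) ^ 2 ≤ (T ^ (1 / 200 : ℝ)) ^ 2 := pow_le_pow_left₀ (Nat.cast_nonneg _) hNle 2
      _ = T ^ (1 / 100 : ℝ) := by
          rw [← Real.rpow_natCast, ← Real.rpow_mul hT0.le]
          norm_num
      _ ≤ T ^ (1 / 4 : ℝ) := Real.rpow_le_rpow_of_exponent_le hT1 (by norm_num)
  have hηi0 : 0 ≤ 1 / (σ - 1 / 2) := by positivity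
  have hSb : S ≤ Dk * Kk * T ^ (1 / 4 : ℝ) := by
    calc S ≤ Dk * (1 / (σ - 1 / 2)) ^ k ^ 2 := hSku
      _ ≤ Dk * Real.log T ^ k ^ 2 :=
          mul_le_mul_of_nonneg_left (pow_le_pow_left₀ hηi0 hηinv _) (by linarith)
      _ ≤ Dk * (Kk * T ^ (1 / 4 : ℝ)) := mul_le_mul_of_nonneg_left (HKk T hT1) (by linarith)
      _ = Dk * Kk * T ^ (1 / 4 : ℝ) := by ring
  have hRb : R ≤ Dl * Kl * T ^ (1 / 4 : ℝ) := by
    calc R ≤ Dl * (1 / (σ - 1 / 2)) ^ l ^ 2 := hSlu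
      _ ≤ Dl * Real.log T ^ l ^ 2 :=
          mul_le_mul_of_nonneg_left (pow_le_pow_left₀ hηi0 hηinv _) (by linarith)
      _ ≤ Dl * (Kl * T ^ (1 / 4 : ℝ)) := mul_le_mul_of_nonneg_left (HKl T hT1) (by linarith)
      _ = Dl * Kl * T ^ (1 / 4 : ℝ) := by ring
  have hSR : 1 ≤ √(S * R) := by
    rw [Real.one_le_sqrt]
    exact one_le_mul_of_one_le_of_one_le hSk1 hSl1
  have herr : (N : ℝ) ^ 2 * (∑ n ∈ Finset.Icc 1 N, ‖co x n‖ ^ 2 / (n : ℝ) +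
      ∑ n ∈ Finset.Icc 1 N, ‖co y n‖ ^ 2 / (n : ℝ)) ≤
      (Dk * Kk + Dl * Kl) * (E * T * √(S * R)) := by
    calc (N : ℝ) ^ 2 * (∑ n ∈ Finset.Icc 1 N, ‖co x n‖ ^ 2 / (n : ℝ) +
          ∑ n ∈ Finset.Icc 1 N, ‖co y n‖ ^ 2 / (n : ℝ))
        ≤ T ^ (1 / 4 : ℝ) * ((Dk * Kk + Dl * Kl) * T ^ (1 / 4 : ℝ)) := by
          refine mul_le_mul hN2 (by linarith) ?_ hQ0.le
          refine add_nonneg (Finset.sum_nonneg fun n _ => ?_)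
            (Finset.sum_nonneg fun n _ => ?_)
          · positivity
          · positivity
      _ = (Dk * Kk + Dl * Kl) * (T ^ (1 / 4 : ℝ) * T ^ (1 / 4 : ℝ)) := by ring
      _ ≤ (Dk * Kk + Dl * Kl) * (E * T * √(S * R)) := by
          refine mul_le_mul_of_nonneg_left (hQQ.trans ?_) (by positivity)
          exact le_mul_of_one_le_right (by positivity) hSR
  have hta : ∑' n : ℕ, dw x n * (starRingEnd ℂ) (dw y n) = ∑' n, a n := by rw [ha]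
  rw [hta]
  obtain ⟨J, hJ⟩ : ∃ J : ℂ, J = ∫ t in (0 : ℝ)..T, Dc N (co x) t *
    (starRingEnd ℂ) (Dc N (co y) t) := ⟨_, rfl⟩
  rw [← hJ] at hmv ⊢
  have hsplit : J - T * ∑' n, a n = (J - ((T : ℂ) - ((0 : ℝ) : ℂ)) * ∑ n ∈ Finset.Icc 1 N, a n) +
      T * ((∑ n ∈ Finset.Icc 1 N, a n) - ∑' n, a n) := by
    push_cast
    ring
  rw [hsplit]
  calc ‖(J - ((T : ℂ) - ((0 : ℝ) : ℂ)) * ∑ n ∈ Finset.Icc 1 N, a n) +
      T * ((∑ n ∈ Finset.Icc 1 N, a n) - ∑' n, a n)‖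
      ≤ ‖J - ((T : ℂ) - ((0 : ℝ) : ℂ)) * ∑ n ∈ Finset.Icc 1 N, a n‖ +
        ‖(T : ℂ) * ((∑ n ∈ Finset.Icc 1 N, a n) - ∑' n, a n)‖ := norm_add_le _ _
    _ ≤ (Dk * Kk + Dl * Kl) * (E * T * √(S * R)) + T * (Ck * Cl * (2 * E) * √(S * R)) := by
        refine add_le_add (hmv.trans herr) ?_
        rw [norm_mul, Complex.norm_real, Real.norm_of_nonneg hT0.le]
        refine mul_le_mul_of_nonneg_left (htail.trans ?_) hT0.le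
        refine mul_le_mul_of_nonneg_right ?_ (Real.sqrt_nonneg _)
        exact mul_le_mul_of_nonneg_left hwE (by positivity)
    _ = (Dk * Kk + Dl * Kl + 2 * (Ck * Cl)) * E * (T * √(S * R)) := by ring

end Pool.Agent.Work.MP_56b8f5_nt.HN
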