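import Pool.Agent.Work.MP_56b8f5_nt.HN.StmtsX
import Pool.Agent.Work.MP_56b8f5_nt.HN.I_MvN

/-!
MP_56b8f5_nt, block HN, item MvC: mean value theorem for Dirichlet polynomials with complex
coefficients.
-/

set_option autoImplicit false

open MeasureTheory Set Filter Topology

noncomputable section

namespace Pool.Agent.Work.MP_56b8f5_nt.HN

open Pool.Agent.Work.MP_56b8f5_nt.EM Pool.Agent.Work.MP_56b8f5_nt.WM Pool.Agent.Work.MP_56b8f5_nt.SH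
open Pool.Agent.Work.MP_56b8f5_nt.HZ

namespace AuxMvC

open Pool.Agent.Work.MP_56b8f5_nt.HZB

theorem Dc_eq (N : ℕ) (c : ℕ → ℂ) (t : ℝ) :
    Dc N c t = ∑ n ∈ Finset.Icc 1 N, c n * chi t n := by
  unfold Dc Ds
  rfl

theorem expand (a b : ℝ) (N : ℕ) (c d : ℕ → ℂ) :
    (∫ t in a..b, Dc N c t * (starRingEnd ℂ) (Dc N d t)) =
      ∑ h ∈ Finset.Icc 1 N, ∑ l ∈ Finset.Icc 1 N,
        (c h * (starRingEnd ℂ) (d l)) * ∫ t in a..b, chi t h * (starRingEnd ℂ) (chi t l) := by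
  have hne : ∀ n ∈ Finset.Icc 1 N, n ≠ 0 := fun n hn => by
    have := (Finset.mem_Icc.1 hn).1
    omega
  have hc : ∀ h ∈ Finset.Icc 1 N, ∀ l ∈ Finset.Icc 1 N,
      Continuous fun t : ℝ => (c h * (starRingEnd ℂ) (d l)) *
        (chi t h * (starRingEnd ℂ) (chi t l)) := fun h hh l hl =>
    continuous_const.mul ((AuxMVa.cont_chi (hne h hh)).mul
      (Complex.continuous_conj.comp (AuxMVa.cont_chi (hne l hl))))
  have e1 : ∀ t : ℝ, Dc N c t * (starRingEnd ℂ) (Dc N d t) =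
      ∑ h ∈ Finset.Icc 1 N, ∑ l ∈ Finset.Icc 1 N,
      (c h * (starRingEnd ℂ) (d l)) * (chi t h * (starRingEnd ℂ) (chi t l)) := by
    intro t
    rw [Dc_eq, Dc_eq, map_sum, Finset.sum_mul_sum]
    refine Finset.sum_congr rfl fun h _ => Finset.sum_congr rfl fun l _ => ?_
    rw [map_mul]
    ring
  simp only [e1]
  rw [intervalIntegral.integral_finsetSum]
  · refine Finset.sum_congr rfl fun h hh => ?_
    rw [intervalIntegral.integral_finsetSum]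
    · refine Finset.sum_congr rfl fun l hl => ?_
      rw [intervalIntegral.integral_const_mul]
    · intro l hl
      exact (hc h hh l hl).intervalIntegrable _ _
  · intro h hh
    exact (continuous_finsetSum _ fun l hl => hc h hh l hl).intervalIntegrable _ _

theorem diag (a b : ℝ) (N : ℕ) (c d : ℕ → ℂ) :
    ((b : ℂ) - a) * ∑ n ∈ Finset.Icc 1 N, c n * (starRingEnd ℂ) (d n) / (n : ℂ) =
      ∑ h ∈ Finset.Icc 1 N, ∑ l ∈ Finset.Icc 1 N,
        (c h * (starRingEnd ℂ) (d l)) * (if h = l then (((b - a) / h : ℝ) : ℂ) else 0) := by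
  rw [Finset.mul_sum]
  refine Finset.sum_congr rfl fun h hh => ?_
  have h1 : ∀ l ∈ Finset.Icc 1 N,
      (c h * (starRingEnd ℂ) (d l)) * (if h = l then (((b - a) / h : ℝ) : ℂ) else 0) =
      if h = l then ((b : ℂ) - a) * (c h * (starRingEnd ℂ) (d h) / (h : ℂ)) else 0 := by
    intro l _
    by_cases hl : h = l
    · subst hl
      rw [if_pos rfl, if_pos rfl]
      push_cast
      ring
    · rw [if_neg hl, if_neg hl, mul_zero]
  rw [Finset.sum_congr rfl h1, Finset.sum_ite_eq, if_pos hh]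

/-- the sum over one variable -/
theorem one (N : ℕ) (c : ℕ → ℂ) :
    (∑ n ∈ Finset.Icc 1 N, ‖c n‖ * (1 / Real.sqrt n)) ^ 2 ≤
      (N : ℝ) * ∑ n ∈ Finset.Icc 1 N, ‖c n‖ ^ 2 / (n : ℝ) := by
  have h4 := sq_sum_le_card_mul_sum_sq (s := Finset.Icc 1 N)
    (f := fun n : ℕ => ‖c n‖ * (1 / Real.sqrt n))
  have h5 : ∑ n ∈ Finset.Icc 1 N, (‖c n‖ * (1 / Real.sqrt n)) ^ 2 =
      ∑ n ∈ Finset.Icc 1 N, ‖c n‖ ^ 2 / (n : ℝ) := by
    refine Finset.sum_congr rfl fun n _ => ?_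
    rw [mul_pow, div_pow, one_pow, Real.sq_sqrt (Nat.cast_nonneg n)]
    ring
  rwa [h5, Nat.card_Icc, Nat.add_sub_cancel] at h4

theorem main (a b : ℝ) (N : ℕ) (c d : ℕ → ℂ) :
    ‖(∫ t in a..b, Dc N c t * (starRingEnd ℂ) (Dc N d t)) -
      ((b : ℂ) - a) * ∑ n ∈ Finset.Icc 1 N, c n * (starRingEnd ℂ) (d n) / (n : ℂ)‖ ≤
    (N : ℝ) ^ 2 * (∑ n ∈ Finset.Icc 1 N, ‖c n‖ ^ 2 / (n : ℝ) +
      ∑ n ∈ Finset.Icc 1 N, ‖d n‖ ^ 2 / (n : ℝ)) := by
  have hne : ∀ n ∈ Finset.Icc 1 N, n ≠ 0 := fun n hn => by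
    have := (Finset.mem_Icc.1 hn).1
    omega
  have hle : ∀ n ∈ Finset.Icc 1 N, (n : ℝ) ≤ (N : ℝ) := fun n hn => by
    exact_mod_cast (Finset.mem_Icc.1 hn).2
  have h0 : (∫ t in a..b, Dc N c t * (starRingEnd ℂ) (Dc N d t)) -
      ((b : ℂ) - a) * ∑ n ∈ Finset.Icc 1 N, c n * (starRingEnd ℂ) (d n) / (n : ℂ) =
      ∑ h ∈ Finset.Icc 1 N, ∑ l ∈ Finset.Icc 1 N, (c h * (starRingEnd ℂ) (d l)) *
        ((∫ t in a..b, chi t h * (starRingEnd ℂ) (chi t l)) -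
          (if h = l then (((b - a) / h : ℝ) : ℂ) else 0)) := by
    rw [expand, diag, ← Finset.sum_sub_distrib]
    refine Finset.sum_congr rfl fun h _ => ?_
    rw [← Finset.sum_sub_distrib]
    refine Finset.sum_congr rfl fun l _ => ?_
    rw [mul_sub]
  rw [h0]
  have h1 : ∀ h ∈ Finset.Icc 1 N, ∀ l ∈ Finset.Icc 1 N, ‖(c h * (starRingEnd ℂ) (d l)) *
      ((∫ t in a..b, chi t h * (starRingEnd ℂ) (chi t l)) -
        (if h = l then (((b - a) / h : ℝ) : ℂ) else 0))‖ ≤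
      2 * N * ((‖c h‖ * (1 / Real.sqrt h)) * (‖d l‖ * (1 / Real.sqrt l))) := by
    intro h hh l hl
    have hN : (0 : ℝ) < N := lt_of_lt_of_le (by exact_mod_cast Nat.pos_of_ne_zero (hne h hh))
      (hle h hh)
    rw [norm_mul, norm_mul, RCLike.norm_conj]
    refine (mul_le_mul_of_nonneg_left (AuxMvN.term hN (hne h hh) (hne l hl) (hle h hh) (hle l hl))
      (by positivity)).trans (le_of_eq ?_)
    ring
  refine (norm_sum_le _ _).trans ((Finset.sum_le_sum fun h hh => (norm_sum_le _ _).trans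
    (Finset.sum_le_sum fun l hl => h1 h hh l hl)).trans ?_)
  have h2 : ∑ h ∈ Finset.Icc 1 N, ∑ l ∈ Finset.Icc 1 N,
      2 * (N : ℝ) * ((‖c h‖ * (1 / Real.sqrt h)) * (‖d l‖ * (1 / Real.sqrt l))) =
      2 * N * ((∑ n ∈ Finset.Icc 1 N, ‖c n‖ * (1 / Real.sqrt n)) *
        ∑ n ∈ Finset.Icc 1 N, ‖d n‖ * (1 / Real.sqrt n)) := by
    rw [Finset.sum_mul_sum, Finset.mul_sum]
    refine Finset.sum_congr rfl fun h _ => ?_
    rw [Finset.mul_sum]
  rw [h2]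
  have h3 := one N c
  have h4 := one N d
  have hN0 : (0 : ℝ) ≤ N := Nat.cast_nonneg N
  set x : ℝ := ∑ n ∈ Finset.Icc 1 N, ‖c n‖ * (1 / Real.sqrt n)
  set y : ℝ := ∑ n ∈ Finset.Icc 1 N, ‖d n‖ * (1 / Real.sqrt n)
  have h5 : 2 * (x * y) ≤ x ^ 2 + y ^ 2 := by nlinarith [sq_nonneg (x - y)]
  calc 2 * (N : ℝ) * (x * y) = (N : ℝ) * (2 * (x * y)) := by ring
    _ ≤ (N : ℝ) * (x ^ 2 + y ^ 2) := mul_le_mul_of_nonneg_left h5 hN0
    _ ≤ (N : ℝ) * ((N : ℝ) * ∑ n ∈ Finset.Icc 1 N, ‖c n‖ ^ 2 / (n : ℝ) +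
        (N : ℝ) * ∑ n ∈ Finset.Icc 1 N, ‖d n‖ ^ 2 / (n : ℝ)) :=
        mul_le_mul_of_nonneg_left (add_le_add h3 h4) hN0
    _ = (N : ℝ) ^ 2 * (∑ n ∈ Finset.Icc 1 N, ‖c n‖ ^ 2 / (n : ℝ) +
      ∑ n ∈ Finset.Icc 1 N, ‖d n‖ ^ 2 / (n : ℝ)) := by ring

end AuxMvC

open AuxMvC in
theorem MvC_pf : S_MvC := by
  intro a b N c d _
  refine ⟨main a b N c d, ?_⟩
  have h1 := main a b N c c
  have h2 : (∫ t in a..b, Dc N c t * (starRingEnd ℂ) (Dc N c t)) =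
      ((∫ t in a..b, ‖Dc N c t‖ ^ 2 : ℝ) : ℂ) := by
    rw [← intervalIntegral.integral_ofReal]
    refine intervalIntegral.integral_congr fun t _ => ?_
    rw [Complex.mul_conj', Complex.ofReal_pow]
  have h3 : ((b : ℂ) - a) * ∑ n ∈ Finset.Icc 1 N, c n * (starRingEnd ℂ) (c n) / (n : ℂ) =
      (((b - a) * ∑ n ∈ Finset.Icc 1 N, ‖c n‖ ^ 2 / (n : ℝ) : ℝ) : ℂ) := by
    rw [Complex.ofReal_mul, Complex.ofReal_sub, Complex.ofReal_sum]
    congr 1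
    refine Finset.sum_congr rfl fun n _ => ?_
    rw [Complex.mul_conj', Complex.ofReal_div, Complex.ofReal_pow, Complex.ofReal_natCast]
  rw [h2, h3, ← Complex.ofReal_sub, Complex.norm_real, Real.norm_eq_abs] at h1
  refine h1.trans (le_of_eq ?_)
  ring

end Pool.Agent.Work.MP_56b8f5_nt.HN
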