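import Pool.Agent.Work.MP_56b8f5_nt.HN.StmtsW

/-!
MP_56b8f5_nt, block HN, item PrJ (helper59): products, with a parameter.
-/

set_option autoImplicit false

open MeasureTheory Set Filter Topology

noncomputable section

namespace Pool.Agent.Work.MP_56b8f5_nt.HN

open Pool.Agent.Work.MP_56b8f5_nt.EM Pool.Agent.Work.MP_56b8f5_nt.WM Pool.Agent.Work.MP_56b8f5_nt.SH
open Pool.Agent.Work.MP_56b8f5_nt.HZ

namespace AuxPrJ

lemma young (m : ℕ) {x y : ℝ} (hx : 0 ≤ x) (hy : 0 ≤ y) : x * y ^ m ≤ x ^ (m + 1) + y ^ (m + 1) := by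
  rcases le_total x y with h | h
  · have h1 : x * y ^ m ≤ y * y ^ m := mul_le_mul_of_nonneg_right h (pow_nonneg hy m)
    rw [pow_succ' y m]
    have := pow_nonneg hx (m + 1)
    linarith
  · have h1 : x * y ^ m ≤ x * x ^ m := mul_le_mul_of_nonneg_left (pow_le_pow_left₀ hy h m) hx
    rw [pow_succ' x m]
    have := pow_nonneg hy (m + 1)
    linarith

lemma young2 (m : ℕ) {μ a b : ℝ} (hμ : 0 < μ) (ha : 0 ≤ a) (hb : 0 ≤ b) :
    a * b ^ m ≤ (1 / μ) ^ ((m + 1) * m) * a ^ (m + 1) + μ ^ (m + 1) * b ^ (m + 1) := by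
  have h := young m (x := a * (1 / μ) ^ m) (y := μ * b) (by positivity) (by positivity)
  have e1 : a * (1 / μ) ^ m * (μ * b) ^ m = a * b ^ m := by
    rw [mul_pow, one_div, inv_pow]
    have : μ ^ m ≠ 0 := by positivity
    field_simp
  have e2 : (a * (1 / μ) ^ m) ^ (m + 1) = (1 / μ) ^ ((m + 1) * m) * a ^ (m + 1) := by
    rw [mul_pow, ← pow_mul, mul_comm m (m + 1), mul_comm]
  rw [e1, e2, mul_pow] at h
  exact h

end AuxPrJ

open AuxPrJ in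
theorem PrJ_pf (h : S_PrI) : S_PrJ := by
  intro k hk μ z D hμ hμ1
  obtain ⟨m, rfl⟩ : ∃ m, k = m + 1 := ⟨k - 1, by omega⟩
  refine (h (m + 1) hk z D).trans ?_
  simp only [Nat.add_sub_cancel]
  set Q : ℝ := (1 / μ) ^ ((m + 1) * m) with hQ
  have hQ1 : 1 ≤ Q := one_le_pow₀ (by rw [le_div_iff₀ hμ]; linarith)
  set S : ℝ := ∑ i, ‖z i - D i‖ ^ (2 * (m + 1)) with hS
  set W : ℝ := ∑ j, ‖D j‖ ^ (2 * (m + 1)) with hW
  have hS0 : 0 ≤ S := Finset.sum_nonneg fun i _ => by positivity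
  have hW0 : 0 ≤ W := Finset.sum_nonneg fun i _ => by positivity
  have h1 : ∑ i, ∑ j, ‖z i - D i‖ ^ 2 * ‖D j‖ ^ (2 * m) ≤
      (m + 1 : ℕ) * (Q * S) + (m + 1 : ℕ) * (μ ^ (m + 1) * W) := by
    have h2 : ∀ i j, ‖z i - D i‖ ^ 2 * ‖D j‖ ^ (2 * m) ≤
        Q * ‖z i - D i‖ ^ (2 * (m + 1)) + μ ^ (m + 1) * ‖D j‖ ^ (2 * (m + 1)) := by
      intro i j
      have h3 := young2 m (a := ‖z i - D i‖ ^ 2) (b := ‖D j‖ ^ 2) hμ (by positivity) (by positivity)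
      simpa only [← pow_mul] using h3
    calc ∑ i, ∑ j, ‖z i - D i‖ ^ 2 * ‖D j‖ ^ (2 * m)
        ≤ ∑ i, ∑ j, (Q * ‖z i - D i‖ ^ (2 * (m + 1)) + μ ^ (m + 1) * ‖D j‖ ^ (2 * (m + 1))) :=
          Finset.sum_le_sum fun i _ => Finset.sum_le_sum fun j _ => h2 i j
      _ = (m + 1 : ℕ) * (Q * S) + (m + 1 : ℕ) * (μ ^ (m + 1) * W) := by
          simp only [Finset.sum_add_distrib, Finset.sum_const, Finset.card_univ, Fintype.card_fin,
            nsmul_eq_mul, ← Finset.mul_sum]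
          ring
  have h4 : (0 : ℝ) ≤ 2 * 4 ^ (m + 1) := by positivity
  have hμW : 0 ≤ μ ^ (m + 1) * W := by positivity
  have h5 : S + ∑ i, ∑ j, ‖z i - D i‖ ^ 2 * ‖D j‖ ^ (2 * m) ≤
      (((m + 1 : ℕ) : ℝ) + 1) * (Q * S + μ ^ (m + 1) * W) := by
    have h6 : S ≤ Q * S := by nlinarith
    push_cast at h1 ⊢
    nlinarith
  calc 2 * 4 ^ (m + 1) * (S + ∑ i, ∑ j, ‖z i - D i‖ ^ 2 * ‖D j‖ ^ (2 * m))
      ≤ 2 * 4 ^ (m + 1) * ((((m + 1 : ℕ) : ℝ) + 1) * (Q * S + μ ^ (m + 1) * W)) :=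
        mul_le_mul_of_nonneg_left h5 h4
    _ = 2 * 4 ^ (m + 1) * (((m + 1 : ℕ) : ℝ) + 1) * (Q * S + μ ^ (m + 1) * W) := by ring

end Pool.Agent.Work.MP_56b8f5_nt.HN
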