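import Pool.Agent.Work.MP_56b8f5_nt.HN.StmtsX
import Pool.Agent.Work.MP_56b8f5_nt.HZ.I_Cmp

/-!
MP_56b8f5_nt, block HN, item XCm, complex coefficients: the complement of the set of good heights in the measure tilted by a Dirichlet
polynomial with complex coefficients (copy of `I_CpN.lean`).
-/

set_option autoImplicit false

open MeasureTheory Set Filter Topology

noncomputable section

namespace Pool.Agent.Work.MP_56b8f5_nt.HN

open Pool.Agent.Work.MP_56b8f5_nt.EM Pool.Agent.Work.MP_56b8f5_nt.WM Pool.Agent.Work.MP_56b8f5_nt.SH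
open Pool.Agent.Work.MP_56b8f5_nt.HZ

namespace AuxXCm

theorem cont_Dc (N : ℕ) (q : ℕ → ℂ) : Continuous fun t : ℝ => Dc N q t := by
  unfold Dc Ds
  exact continuous_finsetSum _ fun n _ => continuous_const.mul (HZ.I_Cmp.cont_chi n)

theorem SS_nonneg (k : ℕ) (η : ℝ) : 0 ≤ SS k η :=
  tsum_nonneg fun n => mul_nonneg (sq_nonneg _) (Real.rpow_nonneg (Nat.cast_nonneg n) _)

end AuxXCm

open HZ.I_Cmp AuxXCm in
theorem XCm_pf (h1 : S_XKp) : S_XCm := by
  intro k
  obtain ⟨C, T₀, hC, hT₀, h⟩ := h1 k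
  have hr : Real.exp (-(1 / 200)) < 1 := by
    rw [Real.exp_lt_one_iff]
    norm_num
  have hr0 : 0 < Real.exp (-(1 / 200 : ℝ)) := Real.exp_pos _
  have hK : 1 ≤ 1 / (1 - Real.exp (-(1 / 200))) := by
    rw [le_div_iff₀ (by linarith)]
    linarith
  refine ⟨C * (1 / (1 - Real.exp (-(1 / 200)))), T₀, by nlinarith, hT₀, ?_⟩
  intro T hT η hη hη1 N q hq A hA
  have hT3 : 3 ≤ T := hT₀.trans hT
  have hc : Continuous fun t => ‖Dc N q t‖ ^ 2 := (cont_Dc N q).norm.pow 2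
  have hi : IntegrableOn (fun t => ‖Dc N q t‖ ^ 2) (Icc T (2 * T)) := hc.integrableOn_Icc
  obtain ⟨F, hF⟩ : ∃ F : Finset ℕ, F = (Finset.range ⌈Real.log T⌉₊).filter
    (fun j : ℕ => (2 : ℝ) ^ j * A ≤ Real.log T / 2) := ⟨_, rfl⟩
  have hsub : ∀ j : ℕ, EE T (2 ^ j * A) ⊆ Icc T (2 * T) := fun j t ht => ⟨ht.1, ht.2.1⟩
  have hX : 0 ≤ T * SS k η := mul_nonneg (by linarith) (SS_nonneg k η)
  calc ∫ t in Icc T (2 * T) \ GG T A 400, ‖Dc N q t‖ ^ 2
      ≤ ∫ t in {t | ∃ j ∈ F, t ∈ EE T (2 ^ j * A)}, ‖Dc N q t‖ ^ 2 := by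
        refine setIntegral_mono_set (hi.mono_set ?_)
          (Eventually.of_forall fun t => sq_nonneg _) (LE.le.eventuallyLE ?_)
        · rintro t ⟨j, -, hj⟩
          exact hsub j hj
        · intro t ht
          rw [mem_ofPred_eq, hF]
          exact cover hT3 hA ht
    _ ≤ ∑ j ∈ F, ∫ t in EE T (2 ^ j * A), ‖Dc N q t‖ ^ 2 :=
        int_sum (fun t => sq_nonneg _) hi _ hsub F
    _ ≤ ∑ j ∈ F, C * Real.exp (-(2 ^ j * A / 200)) * (T * SS k η) := by
        refine Finset.sum_le_sum fun j hj => ?_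
        rw [hF, Finset.mem_filter] at hj
        refine h T hT η hη hη1 N q hq (2 ^ j * A) ?_ hj.2
        exact one_le_mul_of_one_le_of_one_le (one_le_pow₀ (by norm_num)) hA
    _ = C * (∑ j ∈ F, Real.exp (-(2 ^ j * A / 200))) * (T * SS k η) := by
        rw [Finset.mul_sum, Finset.sum_mul]
    _ ≤ C * (1 / (1 - Real.exp (-(1 / 200))) * Real.exp (-(A / 200))) * (T * SS k η) := by
        refine mul_le_mul_of_nonneg_right ?_ hX
        exact mul_le_mul_of_nonneg_left (geo hA F) (by linarith)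
    _ = _ := by ring

end Pool.Agent.Work.MP_56b8f5_nt.HN
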