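import Pool.Agent.Work.MP_56b8f5_nt.HN.StmtsX
import Pool.Agent.Work.MP_56b8f5_nt.HZ.I_Kap

/-!
MP_56b8f5_nt, block HN, part X: item XKp, one dyadic range of zeros, complex coefficients (copy of HN/I_KpN.lean).
-/

set_option autoImplicit false

open MeasureTheory Set Filter Topology

noncomputable section

namespace Pool.Agent.Work.MP_56b8f5_nt.HN

open Pool.Agent.Work.MP_56b8f5_nt.EM Pool.Agent.Work.MP_56b8f5_nt.WM Pool.Agent.Work.MP_56b8f5_nt.SH
open Pool.Agent.Work.MP_56b8f5_nt.HZ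

namespace AuxXKp

theorem cont_Dc (N : ℕ) (q : ℕ → ℂ) : Continuous fun t : ℝ => ‖Dc N q t‖ := by
  refine Continuous.norm ?_
  unfold Dc
  exact (I_Kap.diff_Ds N q).continuous.comp
    (by fun_prop : Continuous fun t : ℝ => (1 / 2 + (t : ℂ) * Complex.I))

theorem SS_nonneg (k : ℕ) (η : ℝ) : 0 ≤ SS k η :=
  tsum_nonneg fun n => mul_nonneg (sq_nonneg _) (Real.rpow_nonneg (Nat.cast_nonneg n) _)

end AuxXKp

open HZ.I_Kap AuxXKp in
/-- **XKp.** -/
theorem XKp_pf (h1 : HZG.S_G2) (h2 : S_XYb) : S_XKp := by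
  intro k
  have hG2 := h1
  obtain ⟨P, hP, hP1, C, T₀, hC, hT₀, H⟩ := h2 k
  refine ⟨1616 * C, max T₀ 10000, by linarith, hT₀.trans (le_max_left _ _), ?_⟩
  intro T hT η hη0 hη1 N q hq κ hκ hκL
  have hTT₀ : T₀ ≤ T := (le_max_left _ _).trans hT
  have hT4 : (10000 : ℝ) ≤ T := (le_max_right _ _).trans hT
  have hT0 : 0 < T := by linarith
  have hκ0 : 0 < κ := by linarith
  set L : ℝ := Real.log T with hLdef
  have hL2 : 2 ≤ L := by linarith
  have hL0 : 0 < L := by linarith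
  set X : ℝ := SS k η with hXdef
  have hX0 : 0 ≤ X := SS_nonneg k η
  set Y : ℝ := T ^ (1 / 10 : ℝ) with hYdef
  set r : ℝ := κ / (2 * L) with hrdef
  set W : ℝ := Real.exp (κ / 200) / L with hWdef
  have hr0 : 0 < r := by positivity
  have hr4 : r ≤ 1 / 4 := by
    rw [hrdef, div_le_iff₀ (by positivity)]
    linarith
  have hW0 : 0 < W := by positivity
  have hsqrt : Real.exp (L / 2) * Real.exp (L / 2) = T := by
    rw [← Real.exp_add, add_halves, hLdef, Real.exp_log hT0]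
  have hWT : W ≤ T / 100 := by
    have h1 : Real.exp (κ / 200) ≤ Real.exp (L / 2) := Real.exp_le_exp.mpr (by linarith)
    have h2 : W ≤ Real.exp (L / 2) := by
      rw [hWdef, div_le_iff₀ hL0]
      have := Real.exp_pos (L / 2)
      nlinarith
    have h3 : (100 : ℝ) ≤ Real.exp (L / 2) := by
      by_contra hcon
      push Not at hcon
      have := Real.exp_pos (L / 2)
      nlinarith
    have h4 : Real.exp (L / 2) ≤ T / 100 := by
      rw [le_div_iff₀ (by norm_num)]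
      nlinarith
    exact h2.trans h4
  -- the sets
  set E : Set ℝ := {t : ℝ | T ≤ t ∧ t ≤ 2 * T ∧ ∃ ρ : ℂ, riemannZeta ρ = 0 ∧ ρ.re < 1 ∧
      κ < (ρ.re - 1 / 2) * L ∧ (ρ.re - 1 / 2) * L ≤ 2 * κ ∧ |t - ρ.im| ≤ W} with hEdef
  have hEm : MeasurableSet E := meas_E T κ L W
  set Z : Set ℂ := {ρ : ℂ | riemannZeta ρ = 0 ∧ κ < (ρ.re - 1 / 2) * L ∧
    (ρ.re - 1 / 2) * L ≤ 2 * κ ∧ T / 2 ≤ ρ.im} with hZdef
  have hNc : Continuous fun t => ‖Dc N q t‖ := cont_Dc N q
  -- G2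
  have hmain := hG2 (ff P Y) Z E (Icc (T / 3) (4 * T)) (fun t => ENNReal.ofReal (‖Dc N q t‖ ^ 2))
    r W (1 / 2 + κ / (2 * L)) (1 / 2 + 5 * κ / (2 * L)) hr0 (meas_ff P Y)
    ((hNc.pow 2).measurable.ennreal_ofReal) hEm measurableSet_Icc ?_ ?_ ?_
  rotate_left
  · -- the discs
    rintro ρ ⟨h1, h2, h3, h4⟩
    have h5 : κ / L < ρ.re - 1 / 2 := by rwa [div_lt_iff₀ hL0]
    have h6 : ρ.re - 1 / 2 ≤ 2 * κ / L := by rwa [le_div_iff₀ hL0]
    have e1 : κ / L = κ / (2 * L) + κ / (2 * L) := by field_simp; ring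
    have e2 : 2 * κ / L + κ / (2 * L) = 5 * κ / (2 * L) := by field_simp; ring
    refine ⟨by rw [hrdef]; linarith, by rw [hrdef]; linarith, ?_, ?_⟩
    · refine DifferentiableOn.diffContOnCl ?_
      rw [closure_ball ρ hr0.ne']
      intro s hs
      refine (diff_ff P Y ?_).differentiableWithinAt
      rintro rfl
      rw [Metric.mem_closedBall, dist_eq_norm] at hs
      have h7 : |((1 : ℂ) - ρ).im| ≤ ‖(1 : ℂ) - ρ‖ := Complex.abs_im_le_norm _
      have h8 : |((1 : ℂ) - ρ).im| = |ρ.im| := by simp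
      rw [h8] at h7
      have h9 := le_abs_self ρ.im
      linarith
    · simp [ff, h1]
  · -- every t in E is near a zero
    rintro t ⟨ht1, ht2, ρ, h1, h2, h3, h4, h5⟩
    refine ⟨ρ, ⟨h1, h3, h4, ?_⟩, h5⟩
    have := (abs_le.mp h5).2
    linarith
  · -- the neighbourhood
    rintro t ⟨ht1, ht2, -⟩ v hv
    have := abs_le.mp hv
    constructor <;> linarith [this.1, this.2]
  -- the inner integrals
  have hin : ∀ τ σ : ℝ, σ ∈ Icc (1 / 2 + κ / (2 * L)) (1 / 2 + 5 * κ / (2 * L)) →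
      ∫⁻ v in Icc (T / 3) (4 * T), ENNReal.ofReal (‖ff P Y ((σ : ℂ) + (v : ℂ) * Complex.I)‖ ^ 2) *
        ENNReal.ofReal (‖Dc N q (v + τ)‖ ^ 2) ≤
      ENNReal.ofReal (C * T * X * Real.exp (-(κ / 100))) := by
    intro τ σ hσ
    have hσ1 : 0 ≤ σ - 1 / 2 := by
      have h1 := hσ.1
      have h2 : 0 < κ / (2 * L) := by positivity
      linarith
    have hσ2 : σ - 1 / 2 ≤ 3 / 2 := by
      have h1 := hσ.2
      have h2 : 5 * κ / (2 * L) ≤ 3 / 2 := by
        rw [div_le_iff₀ (by positivity)]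
        linarith
      linarith
    have hY := H T hTT₀ η hη0 hη1 N q hq (σ - 1 / 2) τ hσ1 hσ2
    have e1 : ((1 / 2 + (σ - 1 / 2) : ℝ) : ℂ) = (σ : ℂ) := by push_cast; ring
    rw [e1] at hY
    have hexp : Real.exp (-((σ - 1 / 2) * Real.log T / 50)) ≤ Real.exp (-(κ / 100)) := by
      refine Real.exp_le_exp.mpr ?_
      have h1 := hσ.1
      have h2 : κ / (2 * L) * L = κ / 2 := by field_simp
      have h3 : κ / (2 * L) * L ≤ (σ - 1 / 2) * L := mul_le_mul_of_nonneg_right (by linarith) hL0.le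
      rw [← hLdef]
      linarith
    have hY2 : ∫ v in (T / 3)..(4 * T), ‖ff P Y ((σ : ℂ) + (v : ℂ) * Complex.I)‖ ^ 2 *
        ‖Dc N q (v + τ)‖ ^ 2 ≤ C * T * X * Real.exp (-(κ / 100)) :=
      hY.trans (mul_le_mul_of_nonneg_left hexp (by positivity))
    have hab : T / 3 ≤ 4 * T := by linarith
    have hcont : ContinuousOn (fun v : ℝ => ‖ff P Y ((σ : ℂ) + (v : ℂ) * Complex.I)‖ ^ 2 *
        ‖Dc N q (v + τ)‖ ^ 2) (Icc (T / 3) (4 * T)) := by
      refine ContinuousOn.mul (ContinuousOn.pow (ContinuousOn.norm ?_) 2)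
        ((hNc.comp (continuous_id.add continuous_const)).pow 2).continuousOn
      intro v hv
      refine ContinuousAt.continuousWithinAt ?_
      have hne : ((σ : ℂ) + (v : ℂ) * Complex.I) ≠ 1 := by
        intro h
        have := congrArg Complex.im h
        simp at this
        have h2 := hv.1
        rw [this] at h2
        linarith
      exact ContinuousAt.comp (f := fun v : ℝ => (σ : ℂ) + (v : ℂ) * Complex.I)
        (diff_ff P Y hne).continuousAt (by fun_prop)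
    have := lint_le (T / 3) (4 * T) _ hab hcont (fun v => by positivity) hY2
    refine le_trans (le_of_eq ?_) this
    refine lintegral_congr fun v => ?_
    rw [ENNReal.ofReal_mul (by positivity)]
  have hin2 : ∀ τ : ℝ, ∫⁻ σ in Icc (1 / 2 + κ / (2 * L)) (1 / 2 + 5 * κ / (2 * L)),
      ∫⁻ v in Icc (T / 3) (4 * T), ENNReal.ofReal (‖ff P Y ((σ : ℂ) + (v : ℂ) * Complex.I)‖ ^ 2) *
        ENNReal.ofReal (‖Dc N q (v + τ)‖ ^ 2) ≤
      ENNReal.ofReal (2 * κ / L * (C * T * X * Real.exp (-(κ / 100)))) := by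
    intro τ
    refine (setLIntegral_mono' measurableSet_Icc fun σ hσ => hin τ σ hσ).trans ?_
    rw [setLIntegral_const, Real.volume_Icc, mul_comm, ← ENNReal.ofReal_mul (by
      have e2 : 1 / 2 + 5 * κ / (2 * L) - (1 / 2 + κ / (2 * L)) = 2 * κ / L := by field_simp; ring
      rw [e2]; positivity)]
    refine ENNReal.ofReal_le_ofReal (le_of_eq ?_)
    have e2 : 1 / 2 + 5 * κ / (2 * L) - (1 / 2 + κ / (2 * L)) = 2 * κ / L := by field_simp; ring
    rw [e2]
  have hin3 : ∫⁻ τ in Icc (-(W + r)) (W + r),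
      ∫⁻ σ in Icc (1 / 2 + κ / (2 * L)) (1 / 2 + 5 * κ / (2 * L)),
      ∫⁻ v in Icc (T / 3) (4 * T), ENNReal.ofReal (‖ff P Y ((σ : ℂ) + (v : ℂ) * Complex.I)‖ ^ 2) *
        ENNReal.ofReal (‖Dc N q (v + τ)‖ ^ 2) ≤
      ENNReal.ofReal (2 * (W + r) * (2 * κ / L * (C * T * X * Real.exp (-(κ / 100))))) := by
    refine (setLIntegral_mono' measurableSet_Icc fun τ _ => hin2 τ).trans ?_
    rw [setLIntegral_const, Real.volume_Icc, mul_comm, ← ENNReal.ofReal_mul (by linarith)]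
    refine ENNReal.ofReal_le_ofReal (le_of_eq ?_)
    ring
  have hfin : ∫⁻ t in E, ENNReal.ofReal (‖Dc N q t‖ ^ 2) ≤
      ENNReal.ofReal (1616 * C * Real.exp (-(κ / 200)) * (T * X)) := by
    refine hmain.trans ((mul_le_mul_right hin3 _).trans ?_)
    rw [← ENNReal.ofReal_mul (by positivity)]
    exact ENNReal.ofReal_le_ofReal (fin_bd hκ hL0 (by linarith) hX0 hT0.le)
  have hc2 : Continuous fun t => ‖Dc N q t‖ ^ 2 := hNc.pow 2
  rw [integral_eq_lintegral_of_nonneg_ae (f := fun t => ‖Dc N q t‖ ^ 2)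
    (Filter.Eventually.of_forall fun t => sq_nonneg _) hc2.aestronglyMeasurable]
  refine ENNReal.toReal_le_of_le_ofReal (by positivity) hfin

end Pool.Agent.Work.MP_56b8f5_nt.HN
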