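import Pool.Agent.Work.MP_56b8f5_nt.HN.StmtsX
import Pool.Agent.Work.MP_56b8f5_nt.HZ.I_Lt

/-!
MP_56b8f5_nt, block HN, item XLt: the mean square on the line `2`, complex coefficients (copy of `HN/I_LtN.lean`).
-/

set_option autoImplicit false

open MeasureTheory Set Filter Topology

noncomputable section

namespace Pool.Agent.Work.MP_56b8f5_nt.HN

open Pool.Agent.Work.MP_56b8f5_nt.EM Pool.Agent.Work.MP_56b8f5_nt.WM Pool.Agent.Work.MP_56b8f5_nt.SH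
open Pool.Agent.Work.MP_56b8f5_nt.HZ

namespace AuxXLt

theorem N_sq_le {k N : ℕ} {η T : ℝ} {q : ℕ → ℂ} (hq : IsDc k η T N q) :
    (N : ℝ) ^ 2 ≤ T ^ (1 / 50 : ℝ) := by
  have hN0 : (0 : ℝ) ≤ N := Nat.cast_nonneg N
  have h1 : ((N : ℝ) ^ 100) ^ (1 / 50 : ℝ) = (N : ℝ) ^ 2 := by
    rw [← Real.rpow_natCast, ← Real.rpow_mul hN0, ← Real.rpow_natCast]
    norm_num
  rw [← h1]
  exact Real.rpow_le_rpow (by positivity) hq.len (by norm_num)

theorem Qt_le (h1 : S_dkS) {k N : ℕ} {η T : ℝ} {q : ℕ → ℂ} (hη : 0 < η)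
    (hq : IsDc k η T N q) {b : ℝ} (τ v : ℝ) (hb : b ≤ 3 / 2) :
    ‖Ds N (qc q b τ) (2 + v * Complex.I)‖ ≤ 2 ^ k * T ^ (1 / 50 : ℝ) := by
  refine le_trans ?_ (((h1 k N hq.one).1).trans
    (mul_le_mul_of_nonneg_left (N_sq_le hq) (by positivity)))
  rw [Ds]
  refine (norm_sum_le _ _).trans (Finset.sum_le_sum fun n hn => ?_)
  have hn1 : 0 < n := (Finset.mem_Icc.1 hn).1
  have hn2 : (1 : ℝ) ≤ n := by exact_mod_cast hn1
  rw [norm_mul, I_Lt.norm_neg_pow hn1, qc, norm_mul,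
    Complex.norm_natCast_cpow_of_pos hn1, mul_assoc]
  have h3 : ((b : ℂ) - τ * Complex.I).re = b := by simp
  rw [h3]
  have h4 : (n : ℝ) ^ b ≤ (n : ℝ) ^ 2 := by
    rw [← Real.rpow_natCast]
    exact Real.rpow_le_rpow_of_exponent_le hn2 (by push_cast; linarith)
  have h5 : (n : ℝ) ^ b * ((n : ℝ) ^ 2)⁻¹ ≤ 1 := by
    rw [← div_eq_mul_inv]
    exact div_le_one_of_le₀ h4 (by positivity)
  have h6 : (n : ℝ) ^ (-η) ≤ 1 := Real.rpow_le_one_of_one_le_of_nonpos hn2 (by linarith)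
  have h7 : 0 ≤ dk k n := Nat.cast_nonneg _
  calc _ ≤ ‖q n‖ * 1 := mul_le_mul_of_nonneg_left h5 (norm_nonneg _)
    _ = ‖q n‖ := mul_one _
    _ ≤ dk k n * (n : ℝ) ^ (-η) := hq.le n
    _ ≤ dk k n * 1 := mul_le_mul_of_nonneg_left h6 h7
    _ = dk k n := mul_one _

end AuxXLt

theorem XLt_pf (h1 : S_dkS) : S_XLt := by
  intro k P hP hP1
  obtain ⟨K, hK⟩ := hP.smooth.continuous.bounded_above_of_compact_support hP.supp
  have hK' : ∀ ξ, |P ξ| ≤ K := fun ξ => by simpa [Real.norm_eq_abs] using hK ξ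
  have hK0 : 0 ≤ K := (abs_nonneg _).trans (hK' 0)
  obtain ⟨Z, hZ0, hZ⟩ := I_Lt.zeta_le
  refine ⟨38 * (Z * (K + 1) * 2 ^ k) ^ 2 + 1, 3, ?_, le_rfl, ?_⟩
  · have : 0 ≤ (Z * (K + 1) * 2 ^ k) ^ 2 := sq_nonneg _
    linarith
  intro T hT η hη _ N q hq b τ _ hb
  have hT0 : 0 < T := by linarith
  set X : ℝ := T ^ (1 / 20 : ℝ) with hXdef
  have hX : 1 < X := Real.one_lt_rpow (by linarith) (by norm_num)
  have hX2 : T ^ (1 / 10 : ℝ) = X ^ 2 := by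
    rw [hXdef, ← Real.rpow_natCast, ← Real.rpow_mul hT0.le]
    norm_num
  have hT2 : T ^ (1 / 50 : ℝ) ≤ (2 * T) ^ (1 / 50 : ℝ) :=
    Real.rpow_le_rpow hT0.le (by linarith) (by norm_num)
  have hpt : ∀ v : ℝ, ‖(riemannZeta (2 + v * Complex.I) *
      MM P (T ^ (1 / 10 : ℝ)) (2 + v * Complex.I) - 1) * Ds N (qc q b τ) (2 + v * Complex.I)‖ ^ 2 ≤
      (Z * ((K + 1) * (2 / X))) ^ 2 * (2 ^ k * (2 * T) ^ (1 / 50 : ℝ)) ^ 2 := by
    intro v
    have hsre : 1 < ((2 : ℂ) + v * Complex.I).re := by simp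
    have h1' := ArithmeticFunction.LSeries_zeta_mul_Lseries_moebius hsre
    rw [ArithmeticFunction.LSeries_zeta_eq_riemannZeta hsre] at h1'
    have h2 : riemannZeta (2 + v * Complex.I) * MM P (T ^ (1 / 10 : ℝ)) (2 + v * Complex.I) - 1 =
        riemannZeta (2 + v * Complex.I) * (MM P (X ^ 2) (2 + v * Complex.I) -
          LSeries (fun n => ((ArithmeticFunction.moebius n : ℤ) : ℂ)) (2 + v * Complex.I)) := by
      rw [mul_sub, h1', hX2]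
    rw [norm_mul, mul_pow]
    refine mul_le_mul ?_ ?_ (sq_nonneg _) (sq_nonneg _)
    · refine pow_le_pow_left₀ (norm_nonneg _) ?_ 2
      rw [h2, norm_mul]
      exact mul_le_mul (hZ v) (I_Lt.diff_le hK' hP1 hX v) (norm_nonneg _) hZ0
    · exact pow_le_pow_left₀ (norm_nonneg _) ((AuxXLt.Qt_le h1 hη hq τ v hb).trans
        (mul_le_mul_of_nonneg_left hT2 (by positivity))) 2
  have hint := intervalIntegral.norm_integral_le_of_norm_le_const (a := T / 4) (b := 5 * T)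
    (f := fun v : ℝ => ‖(riemannZeta (2 + v * Complex.I) *
      MM P (T ^ (1 / 10 : ℝ)) (2 + v * Complex.I) - 1) * Ds N (qc q b τ) (2 + v * Complex.I)‖ ^ 2)
    (C := (Z * ((K + 1) * (2 / X))) ^ 2 * (2 ^ k * (2 * T) ^ (1 / 50 : ℝ)) ^ 2)
    (fun v _ => by
      rw [Real.norm_eq_abs, abs_of_nonneg (sq_nonneg _)]
      exact hpt v)
  refine (le_abs_self _).trans (hint.trans ?_)
  rw [abs_of_nonneg (by linarith)]
  have h3 := I_Lt.powers (T := T) (by linarith)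
  have h4 : (Z * ((K + 1) * (2 / X))) ^ 2 * (2 ^ k * (2 * T) ^ (1 / 50 : ℝ)) ^ 2 *
      (5 * T - T / 4) =
      19 * (Z * (K + 1) * 2 ^ k) ^ 2 * ((1 / X) ^ 2 * ((2 * T) ^ (1 / 50 : ℝ)) ^ 2 * T) := by
    ring
  rw [h4]
  calc _ ≤ 19 * (Z * (K + 1) * 2 ^ k) ^ 2 * (2 * T ^ (94 / 100 : ℝ)) :=
        mul_le_mul_of_nonneg_left h3 (by positivity)
    _ = 38 * (Z * (K + 1) * 2 ^ k) ^ 2 * T ^ (94 / 100 : ℝ) := by ring
    _ ≤ (38 * (Z * (K + 1) * 2 ^ k) ^ 2 + 1) * T ^ (94 / 100 : ℝ) :=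
        mul_le_mul_of_nonneg_right (by linarith) (by positivity)

end Pool.Agent.Work.MP_56b8f5_nt.HN
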