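import Pool.Agent.Work.MP_56b8f5_nt.HN.StmtsX

/-!
MP_56b8f5_nt, block HN, item ZsI (helper44; after HN/I_DyI.lean of helper6): the set `Zs T A C` is closed and
symmetric, and inclusions.
-/

set_option autoImplicit false

open MeasureTheory Set Filter Topology

noncomputable section

namespace Pool.Agent.Work.MP_56b8f5_nt.HN

open Pool.Agent.Work.MP_56b8f5_nt.EM Pool.Agent.Work.MP_56b8f5_nt.WM Pool.Agent.Work.MP_56b8f5_nt.SH
open Pool.Agent.Work.MP_56b8f5_nt.HZ

namespace AuxZsI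

theorem meas (T A C : ℝ) (hT : 1 ≤ T) : MeasurableSet (Zs T A C) := by
  have hL : 0 ≤ Real.log T := Real.log_nonneg hT
  have h3 : IsClosed {t : ℝ | ∀ ρ : ℂ, riemannZeta ρ = 0 → 0 < ρ.re → ρ.re < 1 →
      (ρ.re - 1 / 2) * Real.log T ≤ A + C * Real.log (1 + |ρ.im - t| * Real.log T)} := by
    have h4 : ∀ ρ : ℂ, IsClosed {t : ℝ | (ρ.re - 1 / 2) * Real.log T ≤
        A + C * Real.log (1 + |ρ.im - t| * Real.log T)} := by
      intro ρ
      refine isClosed_le continuous_const (continuous_const.add (continuous_const.mul ?_))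
      refine Continuous.log (by fun_prop) fun t => ?_
      have h5 : 0 ≤ |ρ.im - t| * Real.log T := mul_nonneg (abs_nonneg _) hL
      exact (by linarith : 0 < 1 + |ρ.im - t| * Real.log T).ne'
    simp only [Set.ofPred_forall]
    exact isClosed_iInter fun ρ => isClosed_iInter fun _ => isClosed_iInter fun _ =>
      isClosed_iInter fun _ => h4 ρ
  exact h3.measurableSet

theorem symm (T A C u : ℝ) (h : u ∈ Zs T A C) : -u ∈ Zs T A C := by
  intro ρ h1 h2 h3
  have h4 := h ((starRingEnd ℂ) ρ) (by rw [riemannZeta_conj, h1, map_zero])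
    (by simpa using h2) (by simpa using h3)
  have h5 : |((starRingEnd ℂ) ρ).im - u| = |ρ.im - -u| := by
    rw [Complex.conj_im, ← abs_neg]
    congr 1
    ring
  rw [h5, Complex.conj_re] at h4
  exact h4

theorem core1 (T U A C x y : ℝ) (hU : 1 ≤ U) (hUT : U ≤ T) (hl : Real.log T ≤ 2 * Real.log U)
    (hA : 0 ≤ A) (hC : 0 ≤ C) (hy : 0 ≤ y)
    (h : x * Real.log U ≤ A / 2 + C / 2 * Real.log (1 + y * Real.log U)) :
    x * Real.log T ≤ A + C * Real.log (1 + y * Real.log T) := by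
  have hLU : 0 ≤ Real.log U := Real.log_nonneg hU
  have hLT : Real.log U ≤ Real.log T := Real.log_le_log (by linarith) (by linarith)
  have hLT0 : 0 ≤ Real.log T := hLU.trans hLT
  have h4 : 0 ≤ y * Real.log U := mul_nonneg hy hLU
  have h5 : y * Real.log U ≤ y * Real.log T := mul_le_mul_of_nonneg_left hLT hy
  have h6 : Real.log (1 + y * Real.log U) ≤ Real.log (1 + y * Real.log T) :=
    Real.log_le_log (by linarith) (by linarith)
  have h7 : 0 ≤ Real.log (1 + y * Real.log U) := Real.log_nonneg (by linarith)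
  have h8 : C * Real.log (1 + y * Real.log U) ≤ C * Real.log (1 + y * Real.log T) :=
    mul_le_mul_of_nonneg_left h6 hC
  have h9 : 0 ≤ C * Real.log (1 + y * Real.log U) := mul_nonneg hC h7
  rcases le_or_gt x 0 with hb | hb
  · have h11 : x * Real.log T ≤ 0 := mul_nonpos_of_nonpos_of_nonneg hb hLT0
    linarith
  · have h11 : x * Real.log T ≤ x * (2 * Real.log U) := mul_le_mul_of_nonneg_left hl hb.le
    linarith

theorem core2 (T U A C x y : ℝ) (hU : 1 < U) (hUT : U ≤ T) (hl : Real.log T ≤ 2 * Real.log U)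
    (hA : 0 ≤ A) (hC : 0 ≤ C) (hy : 0 ≤ y)
    (h : x * Real.log T ≤ A + C * Real.log (1 + y * Real.log T)) :
    x * Real.log U ≤ A + C * Real.log 2 + C * Real.log (1 + y * Real.log U) := by
  have hLU : 0 < Real.log U := Real.log_pos hU
  have hLT : Real.log U ≤ Real.log T := Real.log_le_log (by linarith) (by linarith)
  have hLT0 : 0 < Real.log T := hLU.trans_le hLT
  have hLR : 0 ≤ Real.log 2 := Real.log_nonneg (by norm_num)
  have h4 : 0 ≤ y * Real.log U := mul_nonneg hy hLU.le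
  have h4' : 0 ≤ y * Real.log T := mul_nonneg hy hLT0.le
  have h5 : y * Real.log T ≤ y * (2 * Real.log U) := mul_le_mul_of_nonneg_left hl hy
  have h6 : 1 + y * Real.log T ≤ 2 * (1 + y * Real.log U) := by
    have : 2 * (1 + y * Real.log U) = 2 + y * (2 * Real.log U) := by ring
    rw [this]
    linarith
  have h7 : Real.log (1 + y * Real.log T) ≤ Real.log 2 + Real.log (1 + y * Real.log U) := by
    rw [← Real.log_mul (by norm_num) (by linarith)]
    exact Real.log_le_log (by linarith) h6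
  have h8 : 0 ≤ Real.log (1 + y * Real.log U) := Real.log_nonneg (by linarith)
  have h9 : C * Real.log (1 + y * Real.log T) ≤ C * (Real.log 2 + Real.log (1 + y * Real.log U)) :=
    mul_le_mul_of_nonneg_left h7 hC
  have h12 : 0 ≤ C * Real.log 2 := mul_nonneg hC hLR
  have h13 : 0 ≤ C * Real.log (1 + y * Real.log U) := mul_nonneg hC h8
  rcases le_or_gt x 0 with hb | hb
  · have h11 : x * Real.log U ≤ 0 := mul_nonpos_of_nonpos_of_nonneg hb hLU.le
    linarith
  · have h11 : x * Real.log U ≤ x * Real.log T := mul_le_mul_of_nonneg_left hLT hb.le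
    linarith

end AuxZsI

theorem ZsI_pf : S_ZsI := by
  refine ⟨AuxZsI.meas, ?_, AuxZsI.symm, ?_, ?_⟩
  · intro T A C
    constructor
    · ext t
      constructor
      · rintro ⟨h1, h2, h3⟩
        exact ⟨⟨h1, h2⟩, h3⟩
      · rintro ⟨⟨h1, h2⟩, h3⟩
        exact ⟨h1, h2, h3⟩
    · ext t
      constructor
      · rintro ⟨h1, h2, h3⟩
        exact ⟨⟨h1, h2⟩, h3⟩
      · rintro ⟨⟨h1, h2⟩, h3⟩
        exact ⟨h1, h2, h3⟩
  · intro T U A C hU hUT hl hA hC t ht ρ h1 h2 h3
    exact AuxZsI.core1 T U A C _ _ hU hUT hl hA hC (abs_nonneg _) (ht.2.2 ρ h1 h2 h3)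
  · intro T U A C hU hUT hl hA hC
    constructor
    · rintro t ⟨ht, hI⟩
      exact ⟨hI.1, hI.2, fun ρ h1 h2 h3 =>
        AuxZsI.core2 T U A C _ _ hU hUT hl hA hC (abs_nonneg _) (ht ρ h1 h2 h3)⟩
    · rintro t ⟨ht, hI⟩
      exact ⟨hI.1, hI.2, fun ρ h1 h2 h3 =>
        AuxZsI.core2 T U A C _ _ hU hUT hl hA hC (abs_nonneg _) (ht ρ h1 h2 h3)⟩

end Pool.Agent.Work.MP_56b8f5_nt.HN
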