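import Pool.Agent.Work.MP_56b8f5_nt.HN.StmtsW

/-!
MP_56b8f5_nt, block HN, item dwB: the coefficients at complex points (helper76, after I_dxB of helper64).
-/

set_option autoImplicit false

open MeasureTheory Set Filter Topology

noncomputable section

namespace Pool.Agent.Work.MP_56b8f5_nt.HN

open Pool.Agent.Work.MP_56b8f5_nt.EM Pool.Agent.Work.MP_56b8f5_nt.WM Pool.Agent.Work.MP_56b8f5_nt.SH
open Pool.Agent.Work.MP_56b8f5_nt.HZ

namespace AuxdwB

theorem es_apply (s : ℂ) (n : ℕ) : es s n = if n = 0 then 0 else (n : ℂ) ^ (-s) := rfl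

theorem es_norm {s : ℂ} {a : ℝ} (h : a ≤ s.re) {n : ℕ} (hn : 1 ≤ n) :
    ‖es s n‖ ≤ (n : ℝ) ^ (-a) := by
  have hn0 : (0 : ℝ) < n := by exact_mod_cast (by omega : 0 < n)
  have hn1 : (1 : ℝ) ≤ n := by exact_mod_cast hn
  have e : ((n : ℂ)) = ((n : ℝ) : ℂ) := by push_cast; rfl
  rw [es_apply, if_neg (by omega), e, Complex.norm_cpow_eq_rpow_re_of_pos hn0, Complex.neg_re]
  exact Real.rpow_le_rpow_of_exponent_le hn1 (by linarith)

theorem es_real (σ : ℝ) {n : ℕ} (hn : 1 ≤ n) :
    es (σ : ℂ) n = (((n : ℝ) ^ (-σ) : ℝ) : ℂ) := by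
  rw [es_apply, if_neg (by omega), Complex.ofReal_cpow (Nat.cast_nonneg _), Complex.ofReal_natCast,
    Complex.ofReal_neg]

theorem pow_es (σ : ℝ) (k n : ℕ) (hn : 1 ≤ n) : ((es (σ : ℂ)) ^ k) n =
    ((((ArithmeticFunction.zeta : ArithmeticFunction ℕ) ^ k) n : ℕ) : ℂ) *
      (((n : ℝ) ^ (-σ) : ℝ) : ℂ) := by
  induction k generalizing n with
  | zero =>
    rw [pow_zero, pow_zero, ArithmeticFunction.one_apply, ArithmeticFunction.one_apply]
    by_cases h : n = 1
    · rw [if_pos h, if_pos h, h]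
      simp
    · rw [if_neg h, if_neg h]
      simp
  | succ k ih =>
    rw [pow_succ, pow_succ, ArithmeticFunction.mul_apply, ArithmeticFunction.mul_apply]
    push_cast
    rw [Finset.sum_mul]
    refine Finset.sum_congr rfl fun d hd => ?_
    rw [Nat.mem_divisorsAntidiagonal] at hd
    have h1 : 1 ≤ d.1 := by
      rcases Nat.eq_zero_or_pos d.1 with h | h
      · exact absurd (by rw [← hd.1, h, zero_mul]) hd.2
      · exact h
    have h2 : 1 ≤ d.2 := by
      rcases Nat.eq_zero_or_pos d.2 with h | h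
      · exact absurd (by rw [← hd.1, h, mul_zero]) hd.2
      · exact h
    have h3 : ((n : ℝ) ^ (-σ) : ℝ) = (d.1 : ℝ) ^ (-σ) * (d.2 : ℝ) ^ (-σ) := by
      rw [← Real.mul_rpow (Nat.cast_nonneg _) (Nat.cast_nonneg _), ← hd.1]
      push_cast
      rfl
    rw [ih d.1 h1, es_real σ h2, h3, ArithmeticFunction.zeta_apply_ne (by omega)]
    push_cast
    ring

end AuxdwB

open AuxdwB in
theorem dwB_pf (h : S_dkB) : S_dwB := by
  constructor
  · intro k
    induction k with
    | zero =>
      intro η s n _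
      unfold dw
      rw [h.2.2.1 n, Finset.univ_eq_empty, Finset.prod_empty, ArithmeticFunction.one_apply]
      by_cases h1 : n = 1
      · rw [if_pos h1, if_pos h1, h1]
        simp
      · rw [if_neg h1, if_neg h1]
        simp
    | succ k ih =>
      intro η s n hs
      rcases Nat.eq_zero_or_pos n with h0 | h0
      · rw [h0, (h.1 (k + 1)).1]
        unfold dw
        rw [ArithmeticFunction.map_zero, norm_zero, zero_mul]
      · unfold dw
        rw [Fin.prod_univ_succ, ArithmeticFunction.mul_apply, h.2.2.2.2.1 k n h0.ne']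
        refine (norm_sum_le _ _).trans ?_
        have h1 : ∀ d ∈ n.divisorsAntidiagonal,
            ‖es (s 0) d.1 * (∏ j : Fin k, es (s j.succ)) d.2‖ ≤
              dk k d.2 * (n : ℝ) ^ (-(1 / 2 + η)) := by
          intro d hd
          rw [Nat.mem_divisorsAntidiagonal] at hd
          have hd1 : 1 ≤ d.1 := by
            rcases Nat.eq_zero_or_pos d.1 with h | h
            · exact absurd (by rw [← hd.1, h, zero_mul]) hd.2
            · exact h
          have h3 : ((n : ℝ) ^ (-(1 / 2 + η)) : ℝ) =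
              (d.1 : ℝ) ^ (-(1 / 2 + η)) * (d.2 : ℝ) ^ (-(1 / 2 + η)) := by
            rw [← Real.mul_rpow (Nat.cast_nonneg _) (Nat.cast_nonneg _), ← hd.1]
            push_cast
            rfl
          rw [norm_mul]
          have h2 := ih η (fun j => s j.succ) d.2 fun j => hs j.succ
          unfold dw at h2
          calc ‖es (s 0) d.1‖ * ‖(∏ j : Fin k, es (s j.succ)) d.2‖
              ≤ (d.1 : ℝ) ^ (-(1 / 2 + η)) * (dk k d.2 * (d.2 : ℝ) ^ (-(1 / 2 + η))) :=
                mul_le_mul (es_norm (hs 0) hd1) h2 (norm_nonneg _)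
                  (Real.rpow_nonneg (Nat.cast_nonneg _) _)
            _ = dk k d.2 * (n : ℝ) ^ (-(1 / 2 + η)) := by
                rw [h3]
                ring
        refine (Finset.sum_le_sum h1).trans (le_of_eq ?_)
        rw [← Finset.sum_mul]
        congr 1
        exact Nat.sum_divisorsAntidiagonal' (f := fun _ b => dk k b)
  · intro k n σ hn
    unfold dw dk
    rw [Finset.prod_const, Finset.card_univ, Fintype.card_fin, pow_es σ k n hn]
    push_cast
    rfl

end Pool.Agent.Work.MP_56b8f5_nt.HN
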