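import Pool.Agent.Work.MP_56b8f5_nt.HN.AllD
import Pool.Agent.Work.MP_56b8f5_nt.HN.I_ApR
import Pool.Agent.Work.MP_56b8f5_nt.HN.I_CmV
import Pool.Agent.Work.MP_56b8f5_nt.HN.I_CmW
import Pool.Agent.Work.MP_56b8f5_nt.HN.I_CfW
import Pool.Agent.Work.MP_56b8f5_nt.HN.I_DeR
import Pool.Agent.Work.MP_56b8f5_nt.HN.I_DkM
import Pool.Agent.Work.MP_56b8f5_nt.HN.I_MnW
import Pool.Agent.Work.MP_56b8f5_nt.HN.I_MvC
import Pool.Agent.Work.MP_56b8f5_nt.HN.I_PrI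
import Pool.Agent.Work.MP_56b8f5_nt.HN.I_PrJ
import Pool.Agent.Work.MP_56b8f5_nt.HN.I_PwD
import Pool.Agent.Work.MP_56b8f5_nt.HN.I_XCm
import Pool.Agent.Work.MP_56b8f5_nt.HN.I_XGr
import Pool.Agent.Work.MP_56b8f5_nt.HN.I_XKp
import Pool.Agent.Work.MP_56b8f5_nt.HN.I_XLh
import Pool.Agent.Work.MP_56b8f5_nt.HN.I_XLt
import Pool.Agent.Work.MP_56b8f5_nt.HN.I_XYb
import Pool.Agent.Work.MP_56b8f5_nt.HN.I_ZsI
import Pool.Agent.Work.MP_56b8f5_nt.HN.I_ShW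
import Pool.Agent.Work.MP_56b8f5_nt.HN.I_dwB

/-!
MP_56b8f5_nt, block HN, parts X and W: the assembly of the facts which part Y uses.
-/

set_option autoImplicit false

noncomputable section

namespace Pool.Agent.Work.MP_56b8f5_nt.HN

open Pool.Agent.Work.MP_56b8f5_nt.EM Pool.Agent.Work.MP_56b8f5_nt.WM Pool.Agent.Work.MP_56b8f5_nt.SH
open Pool.Agent.Work.MP_56b8f5_nt.HZ

theorem all_XLh : S_XLh := XLh_pf FoP_pf all_Q2 all_FbN Wt_pf DsM_pf all_dkS all_SSb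
theorem all_XLt : S_XLt := XLt_pf all_dkS
theorem all_XGr : S_XGr := XGr_pf all_dkS
theorem all_XYb : S_XYb := XYb_pf HZG.iG1 all_XLh all_XLt all_XGr all_SSb
theorem all_XKp : S_XKp := XKp_pf HZG.iG2 all_XYb
theorem all_XCm : S_XCm := XCm_pf all_XKp
theorem all_ApR : S_ApR := ApR_pf all_TwA all_PWU HN4_all all_SSb DeR_pf all_MnE GGm_pf all_Dpw
theorem all_CmV : S_CmV := CmV_pf all_XCm ZsI_pf DyS_pf
theorem all_dwB : S_dwB := dwB_pf dkB_pf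
theorem all_CfW : S_CfW := CfW_pf dkB_pf DsM_pf
theorem all_PwD : S_PwD := PwD_pf MvC_pf all_SSb all_dwB all_CfW
theorem all_PrJ : S_PrJ := PrJ_pf PrI_pf
theorem all_DkM : S_DkM := DkM_pf all_Dpw MvN_pf all_SSb
theorem all_CmW : S_CmW := CmW_pf all_PwD all_CmV all_SSb ZsI_pf
theorem all_MnW : S_MnW := MnW_pf MvC_pf all_SSb all_SSu all_dwB

end Pool.Agent.Work.MP_56b8f5_nt.HN
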