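import Pool.Agent.Work.MP_56b8f5_nt.HN.StmtsY
import Pool.Agent.Work.MP_56b8f5_nt.HN.I_Fin

/-!
MP_56b8f5_nt, block HN: the final statement of the hand-in (complex points, only condition `1 ≤ A ≤ c (σ-1/2) log T`), from its parts.
-/

set_option autoImplicit false

open MeasureTheory Set Filter Topology

noncomputable section

namespace Pool.Agent.Work.MP_56b8f5_nt.HN

open Pool.Agent.Work.MP_56b8f5_nt.EM Pool.Agent.Work.MP_56b8f5_nt.WM Pool.Agent.Work.MP_56b8f5_nt.SH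
open Pool.Agent.Work.MP_56b8f5_nt.HZ

/-- **FinY, the statement of the hand-in.** -/
def S_FinY : Prop :=
  (∃ C₁ : ℝ, ∀ T A K : ℝ, 3 ≤ T → 1 ≤ A → 800 ≤ K → MeasurableSet (Zs T A K) ∧
    (1 - C₁ * Real.exp (-(A / 400))) * T ≤ volume.real (Icc 0 T ∩ Zs T A K)) ∧
  (∀ k : ℕ, 1 ≤ k → 0 < ak k ∧ ∀ K : ℝ, 800 ≤ K → ∃ c C T₀ : ℝ, 0 < c ∧ 3 ≤ T₀ ∧ ∀ T σ A : ℝ, T₀ ≤ T →
    σ ≤ 5 / 8 → 1 ≤ A → A ≤ c * ((σ - 1 / 2) * Real.log T) →
      |(1 / T) * (∫ t in Icc 0 T ∩ Zs T A K, ‖riemannZeta (σ + t * Complex.I)‖ ^ (2 * k)) -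
        ak k * (1 / (2 * σ - 1)) ^ k ^ 2| ≤ C * (Real.exp (-(A / 400)) + (σ - 1 / 2)) * (1 / (2 * σ - 1)) ^ k ^ 2) ∧
  ∀ k l : ℕ, 1 ≤ k → 1 ≤ l → ∀ K : ℝ, 800 ≤ K → ∃ c C T₀ : ℝ, 0 < c ∧ 3 ≤ T₀ ∧ ∀ T σ A : ℝ, T₀ ≤ T →
    σ ≤ 5 / 8 → 1 ≤ A → A ≤ c * ((σ - 1 / 2) * Real.log T) → ∀ (s : Fin k → ℂ) (w : Fin l → ℂ),
      (∀ j, σ ≤ (s j).re ∧ (s j).re ≤ 5 / 8 ∧ |(s j).im| ≤ Real.sqrt T) →
      (∀ j, σ ≤ (w j).re ∧ (w j).re ≤ 5 / 8 ∧ |(w j).im| ≤ Real.sqrt T) →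
      ‖(∫ t in {t : ℝ | 0 ≤ t ∧ t ≤ T ∧ (∀ j, t + (s j).im ∈ Zs T A K) ∧ ∀ j, t + (w j).im ∈ Zs T A K},
          (∏ j, riemannZeta (s j + t * Complex.I)) * (starRingEnd ℂ) (∏ j, riemannZeta (w j + t * Complex.I))) -
        T * ∑' n : ℕ, dw s n * (starRingEnd ℂ) (dw w n)‖ ≤
        C * Real.exp (-(A / 400)) * (T * (1 / (2 * σ - 1)) ^ (((k : ℝ) ^ 2 + (l : ℝ) ^ 2) / 2))

namespace AuxFinY

theorem dw_zero {k : ℕ} (s : Fin k → ℂ) : dw s 0 = 0 := by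
  unfold dw
  exact ArithmeticFunction.map_zero

theorem dk_zero (k : ℕ) : dk k 0 = 0 := by
  unfold dk
  simp

theorem dw_const (hB : S_dwB) (k : ℕ) (σ : ℝ) (n : ℕ) :
    dw (fun _ : Fin k => (σ : ℂ)) n * (starRingEnd ℂ) (dw (fun _ : Fin k => (σ : ℂ)) n) =
      ((dk k n ^ 2 * (n : ℝ) ^ (-(2 * σ)) : ℝ) : ℂ) := by
  rcases Nat.eq_zero_or_pos n with rfl | hn
  · rw [dw_zero, dk_zero]
    simp
  · rw [hB.2 k n σ hn, Complex.conj_ofReal, ← Complex.ofReal_mul]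
    congr 1
    have hn0 : (0 : ℝ) < n := by exact_mod_cast hn
    have : (n : ℝ) ^ (-(2 * σ)) = (n : ℝ) ^ (-σ) * (n : ℝ) ^ (-σ) := by
      rw [← Real.rpow_add hn0]
      congr 1
      ring
    rw [this]
    ring

theorem zz (z : ℂ) (k : ℕ) : (∏ _j : Fin k, z) * (starRingEnd ℂ) (∏ _j : Fin k, z) =
    ((‖z‖ ^ (2 * k) : ℝ) : ℂ) := by
  rw [Finset.prod_const, Finset.card_univ, Fintype.card_fin, Complex.mul_conj, Complex.normSq_eq_norm_sq,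
    norm_pow, ← pow_mul, mul_comm k 2]

/-- The unshifted formula. -/
theorem diag (hB : S_dwB) {k : ℕ} (hk : 1 ≤ k) {T σ A K B : ℝ}
    (h : ‖(∫ t in Ew T A K (fun _ : Fin k => (σ : ℂ)) ∩ Ew T A K (fun _ : Fin k => (σ : ℂ)),
        (∏ _j : Fin k, riemannZeta ((σ : ℂ) + t * Complex.I)) *
        (starRingEnd ℂ) (∏ _j : Fin k, riemannZeta ((σ : ℂ) + t * Complex.I))) -
      T * ∑' n : ℕ, dw (fun _ : Fin k => (σ : ℂ)) n * (starRingEnd ℂ) (dw (fun _ : Fin k => (σ : ℂ)) n)‖ ≤ B) :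
    |(∫ t in Icc 0 T ∩ Zs T A K, ‖riemannZeta (σ + t * Complex.I)‖ ^ (2 * k)) -
      T * ∑' n : ℕ, dk k n ^ 2 * (n : ℝ) ^ (-(2 * σ))| ≤ B := by
  have hset : Ew T A K (fun _ : Fin k => (σ : ℂ)) ∩ Ew T A K (fun _ : Fin k => (σ : ℂ)) =
      Icc 0 T ∩ Zs T A K := by
    rw [inter_self]
    ext t
    constructor
    · rintro ⟨h1, h2, h3⟩
      have h4 := h3 ⟨0, hk⟩
      simp only [Complex.ofReal_im, add_zero] at h4
      exact ⟨⟨h1, h2⟩, h4⟩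
    · rintro ⟨⟨h1, h2⟩, h3⟩
      refine ⟨h1, h2, fun j => ?_⟩
      simp only [Complex.ofReal_im, add_zero]
      exact h3
  rw [hset] at h
  simp only [zz, dw_const hB] at h
  rw [← Complex.ofReal_tsum] at h
  have hI : (∫ t in Icc 0 T ∩ Zs T A K, ((‖riemannZeta ((σ : ℂ) + t * Complex.I)‖ ^ (2 * k) : ℝ) : ℂ)) =
      ((∫ t in Icc 0 T ∩ Zs T A K, ‖riemannZeta (σ + t * Complex.I)‖ ^ (2 * k) : ℝ) : ℂ) :=
    integral_ofReal
  rw [hI, ← Complex.ofReal_mul, ← Complex.ofReal_sub, Complex.norm_real, Real.norm_eq_abs] at h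
  exact h

/-- `√(S S') ≤ c y^{(k²+l²)/2}`. -/
theorem sqrtb {S S' a a' y : ℝ} {k l : ℕ} (hy : 0 < y) (ha : 0 ≤ a) (ha' : 0 ≤ a')
    (hS : S ≤ a * y ^ k ^ 2) (hS' : S' ≤ a' * y ^ l ^ 2) (hS0 : 0 ≤ S) (hS0' : 0 ≤ S') :
    Real.sqrt (S * S') ≤ (a + a') * y ^ (((k : ℝ) ^ 2 + (l : ℝ) ^ 2) / 2) := by
  have h1 : S * S' ≤ ((a + a') * y ^ (((k : ℝ) ^ 2 + (l : ℝ) ^ 2) / 2)) ^ 2 := by
    have e1 : (y ^ (((k : ℝ) ^ 2 + (l : ℝ) ^ 2) / 2)) ^ 2 = y ^ k ^ 2 * y ^ l ^ 2 := by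
      rw [← Real.rpow_natCast (y ^ (((k : ℝ) ^ 2 + (l : ℝ) ^ 2) / 2)) 2, ← Real.rpow_mul hy.le,
        ← Real.rpow_natCast y (k ^ 2), ← Real.rpow_natCast y (l ^ 2), ← Real.rpow_add hy]
      congr 1
      push_cast
      ring
    rw [mul_pow, e1]
    calc S * S' ≤ (a * y ^ k ^ 2) * (a' * y ^ l ^ 2) := mul_le_mul hS hS' hS0' (by positivity)
      _ = (a * a') * (y ^ k ^ 2 * y ^ l ^ 2) := by ring
      _ ≤ (a + a') ^ 2 * (y ^ k ^ 2 * y ^ l ^ 2) := by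
        refine mul_le_mul_of_nonneg_right ?_ (by positivity)
        nlinarith
  calc Real.sqrt (S * S') ≤ Real.sqrt (((a + a') * y ^ (((k : ℝ) ^ 2 + (l : ℝ) ^ 2) / 2)) ^ 2) :=
        Real.sqrt_le_sqrt h1
    _ = (a + a') * y ^ (((k : ℝ) ^ 2 + (l : ℝ) ^ 2) / 2) := Real.sqrt_sq (by positivity)

/-- The size of the diagonal series. -/
theorem size {S a D η y : ℝ} (hy : 0 < y) (hη : 0 ≤ η) (hη1 : η ≤ 1) (hD : 1 ≤ D)
    (h2 : |S / y - a| ≤ D * η) : S ≤ (a + D) * y := by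
  have h3 := (abs_le.1 h2).2
  have h4 : S / y ≤ a + D := by nlinarith
  calc S = S / y * y := by field_simp
    _ ≤ (a + D) * y := mul_le_mul_of_nonneg_right h4 hy.le

theorem quot {S a D σ : ℝ} {k : ℕ} (hσ : 0 < 2 * σ - 1)
    (h : |(2 * (σ - 1 / 2)) ^ k ^ 2 * S - a| ≤ D * (σ - 1 / 2)) :
    |S / (1 / (2 * σ - 1)) ^ k ^ 2 - a| ≤ D * (σ - 1 / 2) := by
  refine le_of_eq_of_le ?_ h
  congr 2
  have e7 : (2 * (σ - 1 / 2)) ^ k ^ 2 = ((1 / (2 * σ - 1)) ^ k ^ 2)⁻¹ := by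
    rw [← inv_pow]
    congr 1
    rw [inv_div]
    ring
  rw [e7, div_eq_mul_inv]
  ring

theorem SS_eq (k : ℕ) (σ : ℝ) : SS k (σ - 1 / 2) = ∑' n : ℕ, dk k n ^ 2 * (n : ℝ) ^ (-(2 * σ)) := by
  unfold SS
  refine tsum_congr fun n => ?_
  have : -(1 + 2 * (σ - 1 / 2)) = -(2 * σ) := by ring
  rw [this]

end AuxFinY

open AuxFinY in
theorem FinY_pf (h1 : S_DyM) (h2 : S_ZsI) (h3 : S_YSh) (h4 : S_akS) (h5 : S_SSb) (hB : S_dwB) :
    S_FinY := by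
  refine ⟨?_, ?_, ?_⟩
  · obtain ⟨C₁, H⟩ := h1
    refine ⟨C₁, fun T A K hT hA hK => ⟨h2.1 T A K (by linarith), ?_⟩⟩
    rw [← (h2.2.1 T A K).1]
    exact H T A K hT hA hK
  · intro k hk
    obtain ⟨hak, D, hD, hak2⟩ := h4 k hk
    refine ⟨hak, fun K hK => ?_⟩
    obtain ⟨c, C, T₀, hc, hC, hT₀, H⟩ := h3 k k hk hk K hK
    refine ⟨c, C * (ak k + D) + D, T₀, hc, hT₀, fun T σ A hT hσ hA hA1 => ?_⟩
    have hT0 : 0 < T := by linarith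
    have hlog : 0 < Real.log T := Real.log_pos (by linarith)
    have hη0 : 0 < σ - 1 / 2 := by
      by_contra hcon
      have e1 : (σ - 1 / 2) * Real.log T ≤ 0 :=
        mul_nonpos_of_nonpos_of_nonneg (not_lt.1 hcon) hlog.le
      have e2 : c * ((σ - 1 / 2) * Real.log T) ≤ 0 := mul_nonpos_of_nonneg_of_nonpos hc.le e1
      linarith
    have hη : σ - 1 / 2 ≤ 1 / 8 := by linarith
    have hR : InR (σ - 1 / 2) (fun _ : Fin k => (σ : ℂ)) := fun j => by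
      simp only [Complex.ofReal_re]
      exact ⟨by linarith, hσ⟩
    have hI : ∀ j : Fin k, |((fun _ : Fin k => (σ : ℂ)) j).im| ≤ Real.sqrt T := fun j => by
      simp only [Complex.ofReal_im, abs_zero]
      exact Real.sqrt_nonneg T
    have hh := H T hT σ A hσ hA hA1 (fun _ => (σ : ℂ)) (fun _ => (σ : ℂ)) hR hR hI hI
    have hd := diag hB hk hh
    have hq := hak2 (σ - 1 / 2) hη0 hη
    have hS1 := (h5 k).choose_spec.2 (σ - 1 / 2) hη0 hη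
    rw [SS_eq] at hq
    have hS1' := hS1.2.1
    rw [SS_eq] at hS1'
    obtain ⟨S, hSe⟩ : ∃ S : ℝ, S = ∑' n : ℕ, dk k n ^ 2 * (n : ℝ) ^ (-(2 * σ)) := ⟨_, rfl⟩
    rw [← hSe] at hd hq hS1'
    rw [Real.sqrt_mul_self (by linarith)] at hd
    have hw : 0 < 2 * σ - 1 := by linarith
    have hy : 0 < (1 / (2 * σ - 1)) ^ k ^ 2 := by positivity
    exact AuxFin.algebra hT0 hy hC hD (Real.exp_pos _).le hη0.le (by linarith) hd (quot hw hq) hak.le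
  · intro k l hk hl K hK
    obtain ⟨hak, D, hD, hak2⟩ := h4 k hk
    obtain ⟨hal, D', hD', hal2⟩ := h4 l hl
    obtain ⟨c, C, T₀, hc, hC, hT₀, H⟩ := h3 k l hk hl K hK
    refine ⟨c, C * ((ak k + D) + (ak l + D')), T₀, hc, hT₀, fun T σ A hT hσ hA hA1 s w hs hw => ?_⟩
    have hT0 : 0 < T := by linarith
    have hlog : 0 < Real.log T := Real.log_pos (by linarith)
    have hη0 : 0 < σ - 1 / 2 := by
      by_contra hcon
      have e1 : (σ - 1 / 2) * Real.log T ≤ 0 :=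
        mul_nonpos_of_nonpos_of_nonneg (not_lt.1 hcon) hlog.le
      have e2 : c * ((σ - 1 / 2) * Real.log T) ≤ 0 := mul_nonpos_of_nonneg_of_nonpos hc.le e1
      linarith
    have hη : σ - 1 / 2 ≤ 1 / 8 := by linarith
    have hRs : InR (σ - 1 / 2) s := fun j => ⟨by linarith [(hs j).1], (hs j).2.1⟩
    have hRw : InR (σ - 1 / 2) w := fun j => ⟨by linarith [(hw j).1], (hw j).2.1⟩
    have hh := H T hT σ A hσ hA hA1 s w hRs hRw (fun j => (hs j).2.2) (fun j => (hw j).2.2)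
    have hset : {t : ℝ | 0 ≤ t ∧ t ≤ T ∧ (∀ j, t + (s j).im ∈ Zs T A K) ∧ ∀ j, t + (w j).im ∈ Zs T A K} =
        Ew T A K s ∩ Ew T A K w := by
      ext t
      constructor
      · rintro ⟨g1, g2, g3, g4⟩
        exact ⟨⟨g1, g2, g3⟩, g1, g2, g4⟩
      · rintro ⟨⟨g1, g2, g3⟩, -, -, g4⟩
        exact ⟨g1, g2, g3, g4⟩
    rw [hset]
    refine hh.trans ?_
    have hq := hak2 (σ - 1 / 2) hη0 hη
    have hq' := hal2 (σ - 1 / 2) hη0 hη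
    have hS1 := ((h5 k).choose_spec.2 (σ - 1 / 2) hη0 hη).2.1
    have hS2 := ((h5 l).choose_spec.2 (σ - 1 / 2) hη0 hη).2.1
    rw [SS_eq] at hq hq' hS1 hS2
    have hw0 : 0 < 2 * σ - 1 := by linarith
    have hy : 0 < 1 / (2 * σ - 1) := by positivity
    have b1 := size (by positivity : 0 < (1 / (2 * σ - 1)) ^ k ^ 2) hη0.le (by linarith) hD (quot hw0 hq)
    have b2 := size (by positivity : 0 < (1 / (2 * σ - 1)) ^ l ^ 2) hη0.le (by linarith) hD' (quot hw0 hq')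
    have b3 := sqrtb (k := k) (l := l) hy (by linarith) (by linarith) b1 b2 (by linarith) (by linarith)
    have hE : 0 < Real.exp (-(A / 400)) := Real.exp_pos _
    calc C * Real.exp (-(A / 400)) * (T * Real.sqrt ((∑' n : ℕ, dk k n ^ 2 * (n : ℝ) ^ (-(2 * σ))) *
          ∑' n : ℕ, dk l n ^ 2 * (n : ℝ) ^ (-(2 * σ)))) ≤
        C * Real.exp (-(A / 400)) * (T * (((ak k + D) + (ak l + D')) *
          (1 / (2 * σ - 1)) ^ (((k : ℝ) ^ 2 + (l : ℝ) ^ 2) / 2))) := by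
          refine mul_le_mul_of_nonneg_left (mul_le_mul_of_nonneg_left b3 hT0.le) ?_
          have : 0 ≤ C := by linarith
          positivity
      _ = C * ((ak k + D) + (ak l + D')) * Real.exp (-(A / 400)) *
          (T * (1 / (2 * σ - 1)) ^ (((k : ℝ) ^ 2 + (l : ℝ) ^ 2) / 2)) := by ring

end Pool.Agent.Work.MP_56b8f5_nt.HN
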