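import Pool.Agent.Work.MP_56b8f5_nt.HN.StmtsY
import Pool.Agent.Work.MP_56b8f5_nt.HN.I_UpE

/-!
MP_56b8f5_nt, block HN, item YAp (helper76): the moments of the difference of zeta and a short
Dirichlet polynomial, with the only condition `1 ≤ A ≤ c X` (model: the file for ApR of helper67).
-/

set_option autoImplicit false

open MeasureTheory Set Filter Topology

noncomputable section

namespace Pool.Agent.Work.MP_56b8f5_nt.HN

open Pool.Agent.Work.MP_56b8f5_nt.EM Pool.Agent.Work.MP_56b8f5_nt.WM Pool.Agent.Work.MP_56b8f5_nt.SH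
open Pool.Agent.Work.MP_56b8f5_nt.HZ

namespace AuxYAp

theorem GG_mono {T A A' C : ℝ} (h : A ≤ A') : GG T A C ⊆ GG T A' C := fun _ ht =>
  ⟨ht.1, ht.2.1, fun ρ h1 h2 h3 => (ht.2.2 ρ h1 h2 h3).trans (by linarith)⟩

theorem dk_one (k : ℕ) : dk k 1 = 1 := by
  have h : ∀ k : ℕ, ((ArithmeticFunction.zeta : ArithmeticFunction ℕ) ^ k) 1 = 1 := by
    intro k
    induction k with
    | zero => rw [pow_zero, ArithmeticFunction.one_one]
    | succ k ih =>
      rw [pow_succ, ArithmeticFunction.mul_apply_one, ih, ArithmeticFunction.zeta_apply_ne one_ne_zero,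
        mul_one]
  unfold dk
  rw [h k]
  norm_num

theorem dk_nonneg (k n : ℕ) : 0 ≤ dk k n := by
  unfold dk
  exact Nat.cast_nonneg _

/-- the coefficients of the constant polynomial `1` -/
def q1 (n : ℕ) : ℝ := if n = 1 then 1 else 0

theorem isDk_q1 (k : ℕ) (η : ℝ) {T : ℝ} (hT : 1 ≤ T) : IsDk k η T 1 q1 where
  nonneg n := by
    unfold q1
    split_ifs <;> norm_num
  le n := by
    unfold q1
    split_ifs with h
    · rw [h, dk_one]
      simp
    · exact mul_nonneg (dk_nonneg k n) (Real.rpow_nonneg (Nat.cast_nonneg _) _)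
  supp n h := by
    have h1 : n = 1 := by
      by_contra hn
      exact h (if_neg hn)
    omega
  one := le_rfl
  len := by simpa using hT

theorem De_q1 (t : ℝ) : De 1 q1 t = 1 := by
  unfold De Ds q1
  simp

/-- The algebra at the end. -/
theorem fin {E s B I1 I2 I3 I4 M R q1 q2 q3 q4 r : ℝ} (hB : 0 ≤ B)
    (hs : s ≤ 2) (hr : 0 ≤ r) (h1 : I1 ≤ (1 + s) * B) (h2 : M * I2 ≤ q2 * E * B)
    (h3 : R * I3 ≤ q3 * E * B) (h4 : I4 ≤ q4 * E * B) {D : ℝ} (hD0 : 0 ≤ D) (hD : D ≤ q1 * E) :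
    D * I1 + r * (M * I2) + r * (R * I3) + r * I4 ≤
      (3 * q1 + r * q2 + r * q3 + r * q4) * E * B := by
  have e1 : D * I1 ≤ q1 * E * (3 * B) := by
    calc D * I1 ≤ D * ((1 + s) * B) := mul_le_mul_of_nonneg_left h1 hD0
      _ ≤ D * (3 * B) :=
          mul_le_mul_of_nonneg_left (mul_le_mul_of_nonneg_right (by linarith) hB) hD0
      _ ≤ q1 * E * (3 * B) := mul_le_mul_of_nonneg_right hD (by linarith)
  have e2 := mul_le_mul_of_nonneg_left h2 hr
  have e3 := mul_le_mul_of_nonneg_left h3 hr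
  have e4 := mul_le_mul_of_nonneg_left h4 hr
  have e5 : (3 * q1 + r * q2 + r * q3 + r * q4) * E * B =
      q1 * E * (3 * B) + r * (q2 * E * B) + r * (q3 * E * B) + r * (q4 * E * B) := by ring
  rw [e5]
  linarith

/-- `L^P ≤ e^{aX/8}` for `X ≥ L/log L`. -/
theorem powL {a : ℝ} (ha : 0 < a) (P : ℕ) : ∃ T₅ : ℝ, 100 ≤ T₅ ∧ ∀ T X : ℝ, T₅ ≤ T →
    Real.log T / Real.log (Real.log T) ≤ X → Real.log T ^ P ≤ Real.exp (a * X / 8) := by
  obtain ⟨T₅, hT₅, hlog⟩ := AuxUpE.logs 1 ⌈4 * P / a⌉₊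
  refine ⟨T₅, hT₅, fun T X hT hX => ?_⟩
  obtain ⟨-, l2, -, l4⟩ := hlog T hT
  have hL0 : 0 < Real.log T := lt_of_lt_of_le (Real.exp_pos 1) l2
  have hl : 1 ≤ Real.log (Real.log T) := (Real.le_log_iff_exp_le hL0).2 l2
  have h1 : 4 * P / a ≤ (⌈4 * P / a⌉₊ : ℝ) := Nat.le_ceil _
  have h2 : 4 * P / a * Real.log (Real.log T) ≤ Real.log T / (2 * Real.log (Real.log T)) :=
    (mul_le_mul_of_nonneg_right h1 (by linarith)).trans l4
  have h3 := mul_le_mul_of_nonneg_left h2 (by positivity : 0 ≤ a / 4)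
  have h4 : a / 4 * (4 * P / a * Real.log (Real.log T)) = P * Real.log (Real.log T) := by
    field_simp
  have h5 : a / 4 * (Real.log T / (2 * Real.log (Real.log T))) =
      a * (Real.log T / Real.log (Real.log T)) / 8 := by
    field_simp
    ring
  rw [h4, h5] at h3
  have h6 := mul_le_mul_of_nonneg_left hX ha.le
  have f1 : Real.log T ^ P = Real.exp (P * Real.log (Real.log T)) := by
    rw [← Real.log_pow, Real.exp_log (by positivity)]
  rw [f1]
  exact Real.exp_le_exp.2 (by linarith)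

end AuxYAp

open AuxUpp AuxYAp in
/-- **Item YAp.** -/
theorem YAp_pf (h1 : S_ApR) (h2 : S_YHQ) (h3 : S_DeR) (h4 : S_MnE) (h5 : S_TwA) (h6 : S_Dpw)
    (h7 : S_SSb) (h8 : HZ.S_GGm) : S_YAp := by
  intro k C₀ hC₀
  obtain ⟨c₁, C₁, T₁, hc₁, hC₁, hT₁, H1⟩ := h1 k C₀ hC₀
  obtain ⟨a, ha⟩ : ∃ a : ℝ, a = 1 / (200 * ((k : ℝ) + 1)) := ⟨_, rfl⟩
  have hk0 : (0 : ℝ) ≤ k := Nat.cast_nonneg k
  have hk1 : (0 : ℝ) < (k : ℝ) + 1 := by linarith
  have ha0 : 0 < a := by
    rw [ha]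
    positivity
  have ha1 : a ≤ 1 := by
    rw [ha, div_le_one (by positivity)]
    linarith
  obtain ⟨κ, hκ⟩ : ∃ κ : ℝ, κ = a / (16 * ((k : ℝ) + 1)) := ⟨_, rfl⟩
  have hκ0 : 0 < κ := by
    rw [hκ]
    positivity
  have hκa : 2 * k * κ ≤ a / 8 := by
    rw [hκ]
    have e : 2 * (k : ℝ) * (a / (16 * ((k : ℝ) + 1))) = a / 8 * (k / ((k : ℝ) + 1)) := by
      field_simp
      ring
    rw [e]
    have e2 : (k : ℝ) / ((k : ℝ) + 1) ≤ 1 := by
      rw [div_le_one hk1]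
      linarith
    calc a / 8 * (k / ((k : ℝ) + 1)) ≤ a / 8 * 1 :=
          mul_le_mul_of_nonneg_left e2 (by positivity)
      _ = a / 8 := mul_one _
  obtain ⟨c₂, T₂, hc₂, hT₂, H2⟩ := h2 k C₀ κ hC₀ hκ0
  obtain ⟨C1, T₃, hC1, hT₃, hTw⟩ := h5 k
  obtain ⟨Cs, -, hSS⟩ := h7 (k + 1)
  obtain ⟨Cm, -, hMn⟩ := h4 k
  obtain ⟨P, hP⟩ : ∃ P : ℕ, P = (k + 1) ^ 2 := ⟨_, rfl⟩
  obtain ⟨T₅, hT₅, hpow⟩ := powL ha0 P
  obtain ⟨c, hc⟩ : ∃ c : ℝ, c = min c₁ (min c₂ (a / 4)) := ⟨_, rfl⟩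
  have hc0 : 0 < c := by
    rw [hc]
    exact lt_min hc₁ (lt_min hc₂ (by positivity))
  have hcc₁ : c ≤ c₁ := by rw [hc]; exact min_le_left _ _
  have hcc₂ : c ≤ c₂ := by
    rw [hc]
    exact (min_le_right _ _).trans (min_le_left _ _)
  have hca : c ≤ a / 4 := by
    rw [hc]
    exact (min_le_right _ _).trans (min_le_right _ _)
  obtain ⟨r, hr⟩ : ∃ r : ℝ, r = 4 ^ (k + 1) := ⟨_, rfl⟩
  have hr0 : 0 ≤ r := by
    rw [hr]
    positivity
  refine ⟨c, C₁ + (3 * 1 + r * (8 * C1) + r * (2 * C1) + r * 1),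
    max T₁ (max T₂ (max T₃ T₅)), hc0, ?_, hT₁.trans (le_max_left _ _), ?_⟩
  · have e2 : 0 ≤ r * (8 * C1) := by positivity
    have e3 : 0 ≤ r * (2 * C1) := by positivity
    linarith
  intro T hT η A hη2 hA1 hAX N hN1 hN2 hN3
  simp only [max_le_iff] at hT
  obtain ⟨g1, g2, g3, g5⟩ := hT
  have hT100 : 100 ≤ T := hT₅.trans g5
  have hT0 : 0 < T := by linarith
  have hL0 : 0 < Real.log T := Real.log_pos (by linarith)
  obtain ⟨X, hX⟩ : ∃ X : ℝ, X = η * Real.log T := ⟨_, rfl⟩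
  rw [← hX] at hAX hN3 ⊢
  have hX0 : 0 < X := by
    by_contra hcon
    have : c * X ≤ 0 := mul_nonpos_of_nonneg_of_nonpos hc0.le (not_lt.1 hcon)
    linarith
  have hη : 0 < η := by
    by_contra hcon
    have : η * Real.log T ≤ 0 := mul_nonpos_of_nonpos_of_nonneg (not_lt.1 hcon) hL0.le
    linarith
  obtain ⟨-, hS1, -, -⟩ := hSS η hη hη2
  obtain ⟨W, hW⟩ : ∃ W : ℝ, W = T * SS (k + 1) η := ⟨_, rfl⟩
  have hS0 : 0 ≤ SS (k + 1) η := by linarith
  have hW0 : 0 ≤ W := by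
    rw [hW]
    exact mul_nonneg hT0.le hS0
  obtain ⟨E, hE⟩ : ∃ E : ℝ, E = Real.exp (-(c * X)) := ⟨_, rfl⟩
  have hE0 : 0 < E := by rw [hE]; exact Real.exp_pos _
  have hQ0 : 0 ≤ 3 * 1 + r * (8 * C1) + r * (2 * C1) + r * 1 := by positivity
  rcases le_total X (Real.log T / Real.log (Real.log T)) with hcase | hcase
  · -- the old range
    have e1 : A ≤ c₁ * X := hAX.trans (mul_le_mul_of_nonneg_right hcc₁ hX0.le)
    have e2 : A ≤ c₁ * (Real.log T / Real.log (Real.log T)) :=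
      e1.trans (mul_le_mul_of_nonneg_left hcase hc₁.le)
    have e3 := H1 T g1 η A hη2 hA1 (by rw [← hX]; exact e1) e2 N hN1 hN2
      (by rw [← hX]; exact hN3)
    rw [← hX, min_eq_left hcase, ← hW] at e3
    rw [← hW, ← hE]
    have e4 : Real.exp (-(c₁ * X)) ≤ E := by
      rw [hE]
      exact Real.exp_le_exp.2 (neg_le_neg (mul_le_mul_of_nonneg_right hcc₁ hX0.le))
    have e5 : C₁ * Real.exp (-(c₁ * X)) * W ≤ C₁ * E * W :=
      mul_le_mul_of_nonneg_right (mul_le_mul_of_nonneg_left e4 (by linarith)) hW0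
    have e6 : 0 ≤ (3 * 1 + r * (8 * C1) + r * (2 * C1) + r * 1) * (E * W) := by positivity
    calc ∫ t in GG T A C₀, ‖riemannZeta (sp η t) - DN N η t‖ ^ (2 * (k + 1))
        ≤ C₁ * E * W := e3.trans e5
      _ ≤ C₁ * E * W + (3 * 1 + r * (8 * C1) + r * (2 * C1) + r * 1) * (E * W) := by linarith
      _ = (C₁ + (3 * 1 + r * (8 * C1) + r * (2 * C1) + r * 1)) * E * W := by ring
  -- the new range
  obtain ⟨F, hF, hout, hin⟩ := H2 T g2 η hη2 (by rw [← hX]; exact hcase)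
  rw [← hX] at hout hin
  obtain ⟨G, hGd⟩ : ∃ G : Set ℝ, G = GG T (c₂ * X) C₀ := ⟨_, rfl⟩
  rw [← hGd] at hout hin
  have hEs : G ⊆ Icc T (2 * T) := by
    rw [hGd]
    exact fun t ht => ⟨ht.1, ht.2.1⟩
  have hEm : MeasurableSet G := by
    rw [hGd]
    exact h8 T _ C₀ (by linarith)
  have hsub : GG T A C₀ ⊆ G := by
    rw [hGd]
    exact GG_mono (hAX.trans (mul_le_mul_of_nonneg_right hcc₂ hX0.le))
  have hz : Continuous fun t => riemannZeta (sp η t) := zeta_cont hη2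
  have hfc : Continuous fun t => ‖riemannZeta (sp η t) - DN N η t‖ ^ (2 * (k + 1)) :=
    (hz.sub (DN_cont N η)).norm.pow _
  have hmono : ∫ t in GG T A C₀, ‖riemannZeta (sp η t) - DN N η t‖ ^ (2 * (k + 1)) ≤
      ∫ t in G, ‖riemannZeta (sp η t) - DN N η t‖ ^ (2 * (k + 1)) :=
    setIntegral_mono_set ((hfc.integrableOn_Icc).mono_set hEs)
      (ae_of_all _ fun t => by positivity) hsub.eventuallyLE
  refine hmono.trans ?_
  have haX0 : 0 < a * X := by positivity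
  obtain ⟨δ, hδ⟩ : ∃ δ : ℝ, δ = Real.exp (-(a * X / 8)) := ⟨_, rfl⟩
  have hδ0 : 0 < δ := by rw [hδ]; exact Real.exp_pos _
  have hδ1 : δ ≤ 1 := by
    rw [hδ]
    exact Real.exp_le_one_iff.2 (by linarith)
  have hsT : 2 / Real.sqrt T ≤ 2 := by
    rw [div_le_iff₀ (Real.sqrt_pos.2 hT0)]
    have : (1 : ℝ) ≤ Real.sqrt T := Real.one_le_sqrt.2 (by linarith)
    linarith
  have hN5 : (N : ℝ) ^ 100 ≤ T := by
    refine le_trans ?_ hN2
    push_cast
    have h1N : (1 : ℝ) ≤ N := by exact_mod_cast hN1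
    refine pow_le_pow_left₀ (by positivity) ?_ 100
    exact le_self_pow₀ h1N (by omega)
  have hEn : (N : ℝ) ^ (-η) ≤ 2 * Real.exp (-(a * X)) := by
    refine hN3.trans (le_of_eq ?_)
    rw [ha]
    congr 3
    field_simp
  have hn0 : (0 : ℝ) ≤ (N : ℝ) ^ (-η) := by positivity
  have hNk : ((N ^ k : ℕ) : ℝ) ^ 100 ≤ T := by
    refine le_trans (pow_le_pow_left₀ (by positivity) ?_ _) hN2
    exact_mod_cast Nat.pow_le_pow_right hN1 (Nat.le_succ k)
  obtain ⟨q', hq', hqD', -⟩ := h6 k N η T hN1 hη.le hNk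
  have hout' : ∀ t ∈ G, t ∉ F →
      ‖riemannZeta (sp η t)‖ ^ (2 * k) ≤ Real.exp (2 * k * κ * X) * ‖De 1 q1 t‖ ^ 2 := by
    intro t ht htF
    rw [De_q1, norm_one, one_pow, mul_one]
    calc ‖riemannZeta (sp η t)‖ ^ (2 * k) ≤ Real.exp (κ * X) ^ (2 * k) :=
          pow_le_pow_left₀ (norm_nonneg _) (hout t ht htF) _
      _ = Real.exp (2 * k * κ * X) := by
          rw [← Real.exp_nat_mul]
          congr 1
          push_cast
          ring
  have hdec := h3 k δ T (Real.exp (2 * k * κ * X)) (fun t => riemannZeta (sp η t)) (DN N η)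
    (De 1 q1) G F hδ0 hδ1 (by linarith) (Real.exp_pos _).le hz (DN_cont N η)
    (De_cont 1 q1) hEm hEs hF hout'
  have ht := hTw T g3 η hη.le hη2 N hN1 hN5 1 q1 (isDk_q1 k η (by linarith))
  have ht' := hTw T g3 η hη.le hη2 N hN1 hN5 (N ^ k) q' hq'
  have hm := (hMn T (by linarith) η hη hη2 N hN1 hN2).1
  rw [← hP] at ht ht'
  rw [← hW] at hm ⊢
  rw [← hr] at hdec
  rw [← hE]
  refine hdec.trans ?_
  have hLP := hpow T X g5 hcase
  have hEa : Real.exp (-(a * X / 4)) ≤ E := by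
    rw [hE]
    refine Real.exp_le_exp.2 (neg_le_neg ?_)
    calc c * X ≤ a / 4 * X := mul_le_mul_of_nonneg_right hca hX0.le
      _ = a * X / 4 := by ring
  have e1 : Real.exp (2 * k * κ * X) ≤ Real.exp (a * X / 8) := by
    refine Real.exp_le_exp.2 ?_
    calc 2 * k * κ * X ≤ a / 8 * X := mul_le_mul_of_nonneg_right hκa hX0.le
      _ = a * X / 8 := by ring
  have e2 : (1 + 1 / δ) ^ 2 ≤ 4 * Real.exp (a * X / 4) := by
    have e3 : 1 / δ = Real.exp (a * X / 8) := by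
      rw [hδ, one_div, ← Real.exp_neg]
      congr 1
      ring
    have e4 : 1 ≤ 1 / δ := by
      rw [le_div_iff₀ hδ0]
      linarith
    calc (1 + 1 / δ) ^ 2 ≤ (2 * (1 / δ)) ^ 2 := pow_le_pow_left₀ (by positivity) (by linarith) 2
      _ = 4 * (Real.exp (a * X / 8)) ^ 2 := by rw [e3]; ring
      _ = 4 * Real.exp (a * X / 4) := by
          rw [← Real.exp_nat_mul]
          congr 2
          push_cast
          ring
  have e5 : C1 * (T * Real.log T ^ P) * (N : ℝ) ^ (-η) ≤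
      C1 * (T * (Real.exp (a * X / 8) * SS (k + 1) η)) * (2 * Real.exp (-(a * X))) := by
    have f1 : Real.log T ^ P ≤ Real.exp (a * X / 8) * SS (k + 1) η :=
      hLP.trans (le_mul_of_one_le_right (Real.exp_pos _).le hS1)
    refine mul_le_mul ?_ hEn hn0 ?_
    · exact mul_le_mul_of_nonneg_left (mul_le_mul_of_nonneg_left f1 hT0.le) (by linarith)
    · have : 0 ≤ Real.exp (a * X / 8) * SS (k + 1) η := by positivity
      positivity
  have t1 : δ ^ 2 ≤ 1 * E := by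
    have e4 : δ ^ 2 = Real.exp (-(a * X / 4)) := by
      rw [hδ, ← Real.exp_nat_mul]
      congr 1
      push_cast
      ring
    rw [one_mul, e4]
    exact hEa
  have t2 : Real.exp (2 * k * κ * X) * (1 + 1 / δ) ^ 2 *
      (∫ t in T..(2 * T), ‖riemannZeta (sp η t) - DN N η t‖ ^ 2 * ‖De 1 q1 t‖ ^ 2) ≤
      8 * C1 * E * W := by
    have hI0 : 0 ≤ ∫ t in T..(2 * T), ‖riemannZeta (sp η t) - DN N η t‖ ^ 2 * ‖De 1 q1 t‖ ^ 2 :=
      intervalIntegral.integral_nonneg (by linarith) fun t _ => by positivity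
    have e6 : Real.exp (2 * k * κ * X) * (1 + 1 / δ) ^ 2 ≤
        Real.exp (a * X / 8) * (4 * Real.exp (a * X / 4)) :=
      mul_le_mul e1 e2 (by positivity) (Real.exp_pos _).le
    calc Real.exp (2 * k * κ * X) * (1 + 1 / δ) ^ 2 *
          (∫ t in T..(2 * T), ‖riemannZeta (sp η t) - DN N η t‖ ^ 2 * ‖De 1 q1 t‖ ^ 2)
        ≤ Real.exp (a * X / 8) * (4 * Real.exp (a * X / 4)) *
            (C1 * (T * (Real.exp (a * X / 8) * SS (k + 1) η)) * (2 * Real.exp (-(a * X)))) :=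
          mul_le_mul e6 (ht.trans e5) hI0 (by positivity)
      _ = 8 * C1 * (Real.exp (a * X / 8) * Real.exp (a * X / 4) *
            Real.exp (a * X / 8) * Real.exp (-(a * X))) * W := by
          rw [hW]
          ring
      _ = 8 * C1 * Real.exp (-(a * X / 2)) * W := by
          rw [← Real.exp_add, ← Real.exp_add, ← Real.exp_add]
          congr 3
          ring
      _ ≤ 8 * C1 * E * W := by
          have e7 : Real.exp (-(a * X / 2)) ≤ E :=
            (Real.exp_le_exp.2 (by linarith)).trans hEa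
          gcongr
  have t2' : (1 / δ) ^ 2 * (∫ t in T..(2 * T), ‖riemannZeta (sp η t) - DN N η t‖ ^ 2 *
      ‖DN N η t ^ k‖ ^ 2) ≤ 2 * C1 * E * W := by
    have e3 : ∫ t in T..(2 * T), ‖riemannZeta (sp η t) - DN N η t‖ ^ 2 * ‖DN N η t ^ k‖ ^ 2 =
        ∫ t in T..(2 * T), ‖riemannZeta (sp η t) - DN N η t‖ ^ 2 * ‖De (N ^ k) q' t‖ ^ 2 := by
      refine intervalIntegral.integral_congr fun t _ => ?_
      simp only [hqD' t]
    rw [e3]
    have e4 : (1 / δ) ^ 2 = Real.exp (a * X / 4) := by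
      rw [hδ, one_div, ← Real.exp_neg, ← Real.exp_nat_mul]
      congr 1
      push_cast
      ring
    rw [e4]
    calc Real.exp (a * X / 4) * (∫ t in T..(2 * T), ‖riemannZeta (sp η t) - DN N η t‖ ^ 2 *
          ‖De (N ^ k) q' t‖ ^ 2)
        ≤ Real.exp (a * X / 4) * (C1 * (T * (Real.exp (a * X / 8) * SS (k + 1) η)) *
            (2 * Real.exp (-(a * X)))) :=
          mul_le_mul_of_nonneg_left (ht'.trans e5) (Real.exp_pos _).le
      _ = 2 * C1 * (Real.exp (a * X / 4) * Real.exp (a * X / 8) *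
            Real.exp (-(a * X))) * W := by
          rw [hW]
          ring
      _ = 2 * C1 * Real.exp (-(5 * (a * X) / 8)) * W := by
          rw [← Real.exp_add, ← Real.exp_add]
          congr 3
          ring
      _ ≤ 2 * C1 * E * W := by
          have e7 : Real.exp (-(5 * (a * X) / 8)) ≤ E :=
            (Real.exp_le_exp.2 (by linarith)).trans hEa
          gcongr
  have t3 : ∫ t in G ∩ F, ‖riemannZeta (sp η t)‖ ^ (2 * (k + 1)) ≤ 1 * E * W := by
    refine hin.trans ?_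
    have e7 : Real.exp (-X) ≤ E := by
      refine (Real.exp_le_exp.2 ?_).trans hEa
      have : a * X ≤ 1 * X := mul_le_mul_of_nonneg_right ha1 hX0.le
      linarith
    calc T * Real.exp (-X) ≤ T * E := mul_le_mul_of_nonneg_left e7 hT0.le
      _ = 1 * E * (T * 1) := by ring
      _ ≤ 1 * E * (T * SS (k + 1) η) := by
          refine mul_le_mul_of_nonneg_left ?_ (by positivity)
          exact mul_le_mul_of_nonneg_left hS1 hT0.le
      _ = 1 * E * W := by rw [hW]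
  have hfin := AuxYAp.fin hW0 hsT hr0 hm t2 t2' t3 (by positivity : (0 : ℝ) ≤ δ ^ 2) t1
  refine hfin.trans ?_
  have e9 : 0 ≤ C₁ * (E * W) := by positivity
  calc (3 * 1 + r * (8 * C1) + r * (2 * C1) + r * 1) * E * W
      ≤ (3 * 1 + r * (8 * C1) + r * (2 * C1) + r * 1) * E * W + C₁ * (E * W) := by linarith
    _ = (C₁ + (3 * 1 + r * (8 * C1) + r * (2 * C1) + r * 1)) * E * W := by ring

end Pool.Agent.Work.MP_56b8f5_nt.HN
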