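import Pool.Agent.Work.MP_56b8f5_nt.HN.StmtsX
import Pool.Agent.Work.MP_56b8f5_nt.HN.I_ApZ

/-!
MP_56b8f5_nt, block HN, item ApV (helper62): ApR on the interval from `√T` to `2T`.
-/

set_option autoImplicit false

open MeasureTheory Set Filter Topology

noncomputable section

namespace Pool.Agent.Work.MP_56b8f5_nt.HN

open Pool.Agent.Work.MP_56b8f5_nt.EM Pool.Agent.Work.MP_56b8f5_nt.WM Pool.Agent.Work.MP_56b8f5_nt.SH
open Pool.Agent.Work.MP_56b8f5_nt.HZ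

namespace AuxApV

theorem SS_nonneg (k : ℕ) (η : ℝ) : 0 ≤ SS k η := by
  unfold SS
  exact tsum_nonneg fun n => mul_nonneg (sq_nonneg _) (Real.rpow_nonneg (Nat.cast_nonneg _) _)

theorem cont_z (η : ℝ) (hη : η ≤ 1 / 8) : Continuous fun t : ℝ => riemannZeta (sp η t) := by
  have h := AuxDyF.zc (1 / 2 + η) (by linarith)
  exact h

theorem cont_D (N : ℕ) (η : ℝ) : Continuous fun t : ℝ => DN N η t := by
  have h := AuxAp0.cont_Ds N (fun _ => 1) η
  exact h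

/-- sum over the blocks for a set in `[Y, 2T]` -/
theorem blocks (hS : S_DyS) (f : ℝ → ℝ) (hf : Continuous f) (hf0 : ∀ t, 0 ≤ f t) (Z : Set ℝ)
    (T Y K : ℝ) (hZ : MeasurableSet Z) (hY : 0 < Y) (hYT : Y ≤ T) (hK : 0 ≤ K)
    (h1 : ∀ U : ℝ, Y ≤ U → U ≤ T → ∫ t in Z ∩ Icc U (2 * U), f t ≤ K * U) :
    ∫ t in Z ∩ Icc Y (2 * T), f t ≤ 3 * (K * T) := by
  have hsub1 : ∀ U : ℝ, (Z ∩ Icc Y (2 * T)) ∩ Icc U (2 * U) ⊆ Z ∩ Icc U (2 * U) := fun U t ht =>
    ⟨ht.1.1, ht.2⟩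
  have hint : ∀ U : ℝ, IntegrableOn f (Z ∩ Icc U (2 * U)) := fun U =>
    (hf.integrableOn_Icc).mono_set inter_subset_right
  have h2 := AuxApZ.upper_in hS f hf hf0 (Z ∩ Icc Y (2 * T)) (2 * T) Y K (K * Y)
    (hZ.inter measurableSet_Icc) (fun t ht => ⟨hY.le.trans ht.2.1, ht.2.2⟩) (by linarith) hY hK
    (fun U hU1 hU2 => ?_) ?_
  · have e1 : K * Y ≤ K * T := mul_le_mul_of_nonneg_left hYT hK
    refine h2.trans ?_
    linarith
  · exact (setIntegral_mono_set (hint U) (ae_of_all _ hf0)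
      (LE.le.eventuallyLE (hsub1 U))).trans (h1 U hU1 (by linarith))
  · have hsub2 : (Z ∩ Icc Y (2 * T)) ∩ Icc 0 (2 * Y) ⊆ Z ∩ Icc Y (2 * Y) := fun t ht =>
      ⟨ht.1.1, ht.1.2.1, ht.2.2⟩
    exact (setIntegral_mono_set (hint Y) (ae_of_all _ hf0)
      (LE.le.eventuallyLE hsub2)).trans (h1 Y le_rfl hYT)

end AuxApV

open AuxApV in
/-- **Item ApV.** -/
theorem ApV_pf (h1 : S_ApR) (h2 : S_ZsI) (h3 : S_DyS) : S_ApV := by
  intro k hk C₀ hC₀
  obtain ⟨j, rfl⟩ : ∃ j : ℕ, k = j + 1 := ⟨k - 1, by omega⟩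
  obtain ⟨c₁, C₁, T₁, hc₁, hC₁, hT₁, H1⟩ := h1 j C₀ hC₀
  obtain ⟨hI1, -, -, -, hI5⟩ := h2
  have hl2 : 0 ≤ Real.log 2 := Real.log_nonneg (by norm_num)
  obtain ⟨W, hW⟩ : ∃ W : ℝ, W = 1 + C₀ * Real.log 2 := ⟨_, rfl⟩
  have hCl : 0 ≤ C₀ * Real.log 2 := mul_nonneg hC₀ hl2
  have hW1 : 1 ≤ W := by
    rw [hW]
    linarith
  obtain ⟨c, hc⟩ : ∃ c : ℝ, c = c₁ / (2 * W) := ⟨_, rfl⟩
  have h2W : 0 < 2 * W := by positivity
  have hc0 : 0 < c := by
    rw [hc]
    exact div_pos hc₁ h2W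
  have hcc₁ : c * (2 * W) ≤ c₁ := by
    rw [hc, div_mul_cancel₀ _ h2W.ne']
  refine ⟨c, 3 * C₁, T₁ ^ 2, hc0, by linarith, by nlinarith, ?_⟩
  intro T hT η A hη8 hA hA1 hA2 N hN1 hN2 hN3
  have hT9 : 9 ≤ T := by nlinarith
  have hT0 : 0 < T := by linarith
  have hlT : 0 < Real.log T := Real.log_pos (by linarith)
  have hη : 0 < η := by
    by_contra hcon
    have e1 : η * Real.log T ≤ 0 :=
      mul_nonpos_of_nonpos_of_nonneg (not_lt.1 hcon) hlT.le
    have e2 : c * (η * Real.log T) ≤ 0 := mul_nonpos_of_nonneg_of_nonpos hc0.le e1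
    linarith
  obtain ⟨S, hS⟩ : ∃ S : ℝ, S = SS (j + 1) η := ⟨_, rfl⟩
  have hS0 : 0 ≤ S := hS ▸ SS_nonneg _ _
  rw [← hS]
  -- the square root
  obtain ⟨Y, hY⟩ : ∃ Y : ℝ, Y = Real.sqrt T := ⟨_, rfl⟩
  have hY0 : 0 < Y := hY ▸ Real.sqrt_pos.2 hT0
  have hYY : Y * Y = T := by
    rw [hY]
    exact Real.mul_self_sqrt hT0.le
  have hYT₁ : T₁ ≤ Y := by
    by_contra hcon
    push Not at hcon
    nlinarith
  have hlY : Real.log T = 2 * Real.log Y := by
    rw [← hYY, Real.log_mul hY0.ne' hY0.ne']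
    ring
  have hY3 : 3 ≤ Y := by linarith
  have hYT : Y ≤ T := by nlinarith
  rw [← hY]
  -- the length
  have hNY : ((N ^ (j + 1) : ℕ) : ℝ) ^ 100 ≤ Y := by
    rw [hY]
    apply Real.le_sqrt_of_sq_le
    rw [← pow_mul]
    exact hN2
  -- the main parameters
  obtain ⟨M, hM⟩ : ∃ M : ℝ, M = min (η * Real.log T) (Real.log T / Real.log (Real.log T)) :=
    ⟨_, rfl⟩
  rw [← hM]
  have hllT : 0 < Real.log (Real.log T) := by
    apply Real.log_pos
    rw [Real.lt_log_iff_exp_lt hT0]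
    have := Real.exp_one_lt_d9
    linarith
  have hM0 : 0 ≤ M := by
    rw [hM]
    exact le_min (by positivity) (by positivity)
  obtain ⟨E, hE⟩ : ∃ E : ℝ, E = Real.exp (-(c * M)) := ⟨_, rfl⟩
  have hE0 : 0 < E := hE ▸ Real.exp_pos _
  rw [← hE]
  obtain ⟨A', hA'⟩ : ∃ A' : ℝ, A' = A + C₀ * Real.log 2 := ⟨_, rfl⟩
  have hAA' : A ≤ A' := by linarith
  have hA'W : A' ≤ W * A := by
    rw [hA', hW]
    nlinarith
  have hfc : Continuous fun t : ℝ => ‖riemannZeta (sp η t) - DN N η t‖ ^ (2 * (j + 1)) :=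
    ((cont_z η hη8).sub (cont_D N η)).norm.pow _
  have hmain := blocks h3 (fun t : ℝ => ‖riemannZeta (sp η t) - DN N η t‖ ^ (2 * (j + 1))) hfc
    (fun t => by positivity) (Zs T A C₀) T Y (C₁ * E * S) (hI1 T A C₀ (by linarith)) hY0 hYT
    (by positivity) ?_
  · refine hmain.trans (le_of_eq ?_)
    ring
  · intro U hYU hUT
    have hU3 : 3 ≤ U := by linarith
    have hU0 : 0 < U := by linarith
    have hlog : Real.log T ≤ 2 * Real.log U := by
      rw [hlY]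
      exact mul_le_mul_of_nonneg_left (Real.log_le_log hY0 hYU) (by norm_num)
    have hlUT : Real.log U ≤ Real.log T := Real.log_le_log hU0 hUT
    have hsub := (hI5 T U A C₀ (by linarith) hUT hlog (by linarith) hC₀).1
    rw [← hA'] at hsub
    obtain ⟨q1, q2⟩ := AuxDyF.logU T U 2 c c₁ η A A' (by linarith) hU3 hUT
      hη hlog hc0 hW1 hcc₁ hA'W hA1 hA2
    have hN3' : (N : ℝ) ^ (-η) ≤ 2 * Real.exp (-(η * Real.log U / (200 * ((j : ℝ) + 1)))) := by
      refine hN3.trans ?_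
      refine mul_le_mul_of_nonneg_left (Real.exp_le_exp.2 (neg_le_neg ?_)) (by norm_num)
      push_cast
      refine div_le_div_of_nonneg_right ?_ (by positivity)
      exact mul_le_mul_of_nonneg_left hlUT hη.le
    have a1 := H1 U (by linarith) η A' hη8 (by linarith) q1 q2 N hN1 (hNY.trans hYU) hN3'
    rw [← hS] at a1
    have hGG : GG U A' C₀ ⊆ Icc U (2 * U) := fun t ht => ⟨ht.1, ht.2.1⟩
    have b1 : ∫ t in Zs T A C₀ ∩ Icc U (2 * U),
        ‖riemannZeta (sp η t) - DN N η t‖ ^ (2 * (j + 1)) ≤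
        ∫ t in GG U A' C₀, ‖riemannZeta (sp η t) - DN N η t‖ ^ (2 * (j + 1)) :=
      setIntegral_mono_set ((hfc.integrableOn_Icc).mono_set hGG)
        (ae_of_all _ fun t => by positivity) (LE.le.eventuallyLE hsub)
    have b3 : C₁ * Real.exp (-(c₁ * min (η * Real.log U) (Real.log U / Real.log (Real.log U)))) *
        (U * S) ≤ C₁ * E * (U * S) := by
      refine mul_le_mul_of_nonneg_right (mul_le_mul_of_nonneg_left ?_ (by linarith))
        (by positivity)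
      rw [hE]
      apply Real.exp_le_exp.2
      have e1 := AuxApZ.min_half hU3 hUT hη hlog
      rw [← hM] at e1
      have hmin0 : 0 ≤ min (η * Real.log U) (Real.log U / Real.log (Real.log U)) := by linarith
      have e2 := mul_le_mul_of_nonneg_left e1 hc0.le
      have e3 : c * 2 ≤ c₁ := by
        refine le_trans ?_ hcc₁
        refine mul_le_mul_of_nonneg_left ?_ hc0.le
        linarith
      have e4 := mul_le_mul_of_nonneg_right e3 hmin0
      linarith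
    calc ∫ t in Zs T A C₀ ∩ Icc U (2 * U), ‖riemannZeta (sp η t) - DN N η t‖ ^ (2 * (j + 1))
        ≤ C₁ * E * (U * S) := by linarith
      _ = C₁ * E * S * U := by ring

end Pool.Agent.Work.MP_56b8f5_nt.HN
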