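import Pool.Agent.Work.MP_56b8f5_nt.HN.StmtsY
import Pool.Agent.Work.MP_56b8f5_nt.HN.I_ApV

/-!
MP_56b8f5_nt, block HN, item YAv (helper35): YAp on the interval from `√T` to `2T`; copy of `I_ApV.lean` (helper62).
-/

set_option autoImplicit false

open MeasureTheory Set Filter Topology

noncomputable section

namespace Pool.Agent.Work.MP_56b8f5_nt.HN

open Pool.Agent.Work.MP_56b8f5_nt.EM Pool.Agent.Work.MP_56b8f5_nt.WM Pool.Agent.Work.MP_56b8f5_nt.SH
open Pool.Agent.Work.MP_56b8f5_nt.HZ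

open AuxApV in
/-- **Item YAv.** -/
theorem YAv_pf (h1 : S_YAp) (h2 : S_ZsI) (h3 : S_DyS) : S_YAv := by
  intro k hk C₀ hC₀
  obtain ⟨j, rfl⟩ : ∃ j : ℕ, k = j + 1 := ⟨k - 1, by omega⟩
  obtain ⟨c₁, C₁, T₁, hc₁, hC₁, hT₁, H1⟩ := h1 j C₀ hC₀
  obtain ⟨hI1, -, -, -, hI5⟩ := h2
  have hl2 : 0 ≤ Real.log 2 := Real.log_nonneg (by norm_num)
  obtain ⟨W, hW⟩ : ∃ W : ℝ, W = 1 + C₀ * Real.log 2 := ⟨_, rfl⟩
  have hCl : 0 ≤ C₀ * Real.log 2 := mul_nonneg hC₀ hl2
  have hW1 : 1 ≤ W := by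
    rw [hW]
    linarith
  obtain ⟨c, hc⟩ : ∃ c : ℝ, c = c₁ / (2 * W) := ⟨_, rfl⟩
  have h2W : 0 < 2 * W := by positivity
  have hc0 : 0 < c := by
    rw [hc]
    exact div_pos hc₁ h2W
  have hcc₁ : c * (2 * W) ≤ c₁ := by
    rw [hc, div_mul_cancel₀ _ h2W.ne']
  refine ⟨c, 3 * C₁, T₁ ^ 2, hc0, by linarith, by nlinarith, ?_⟩
  intro T hT η A hη8 hA hA1 N hN1 hN2 hN3
  have hT9 : 9 ≤ T := by nlinarith
  have hT0 : 0 < T := by linarith
  have hlT : 0 < Real.log T := Real.log_pos (by linarith)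
  have hη : 0 < η := by
    by_contra hcon
    have e1 : η * Real.log T ≤ 0 :=
      mul_nonpos_of_nonpos_of_nonneg (not_lt.1 hcon) hlT.le
    have e2 : c * (η * Real.log T) ≤ 0 := mul_nonpos_of_nonneg_of_nonpos hc0.le e1
    linarith
  obtain ⟨S, hS⟩ : ∃ S : ℝ, S = SS (j + 1) η := ⟨_, rfl⟩
  have hS0 : 0 ≤ S := hS ▸ SS_nonneg _ _
  rw [← hS]
  -- the square root
  obtain ⟨Y, hY⟩ : ∃ Y : ℝ, Y = Real.sqrt T := ⟨_, rfl⟩
  have hY0 : 0 < Y := hY ▸ Real.sqrt_pos.2 hT0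
  have hYY : Y * Y = T := by
    rw [hY]
    exact Real.mul_self_sqrt hT0.le
  have hYT₁ : T₁ ≤ Y := by
    by_contra hcon
    push Not at hcon
    nlinarith
  have hlY : Real.log T = 2 * Real.log Y := by
    rw [← hYY, Real.log_mul hY0.ne' hY0.ne']
    ring
  have hY3 : 3 ≤ Y := by linarith
  have hYT : Y ≤ T := by nlinarith
  rw [← hY]
  -- the length
  have hNY : ((N ^ (j + 1) : ℕ) : ℝ) ^ 100 ≤ Y := by
    rw [hY]
    apply Real.le_sqrt_of_sq_le
    rw [← pow_mul]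
    exact hN2
  -- the main parameters
  obtain ⟨E, hE⟩ : ∃ E : ℝ, E = Real.exp (-(c * (η * Real.log T))) := ⟨_, rfl⟩
  have hE0 : 0 < E := hE ▸ Real.exp_pos _
  rw [← hE]
  obtain ⟨A', hA'⟩ : ∃ A' : ℝ, A' = A + C₀ * Real.log 2 := ⟨_, rfl⟩
  have hAA' : A ≤ A' := by linarith
  have hA'W : A' ≤ W * A := by
    rw [hA', hW]
    nlinarith
  have hfc : Continuous fun t : ℝ => ‖riemannZeta (sp η t) - DN N η t‖ ^ (2 * (j + 1)) :=
    ((cont_z η hη8).sub (cont_D N η)).norm.pow _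
  have hmain := blocks h3 (fun t : ℝ => ‖riemannZeta (sp η t) - DN N η t‖ ^ (2 * (j + 1))) hfc
    (fun t => by positivity) (Zs T A C₀) T Y (C₁ * E * S) (hI1 T A C₀ (by linarith)) hY0 hYT
    (by positivity) ?_
  · refine hmain.trans (le_of_eq ?_)
    ring
  · intro U hYU hUT
    have hU3 : 3 ≤ U := by linarith
    have hU0 : 0 < U := by linarith
    have hlog : Real.log T ≤ 2 * Real.log U := by
      rw [hlY]
      exact mul_le_mul_of_nonneg_left (Real.log_le_log hY0 hYU) (by norm_num)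
    have hlUT : Real.log U ≤ Real.log T := Real.log_le_log hU0 hUT
    have hlU0 : 0 < Real.log U := Real.log_pos (by linarith)
    have hsub := (hI5 T U A C₀ (by linarith) hUT hlog (by linarith) hC₀).1
    rw [← hA'] at hsub
    have hηT : η * Real.log T ≤ 2 * (η * Real.log U) := by
      have e := mul_le_mul_of_nonneg_left hlog hη.le
      linarith
    have hηU : 0 < η * Real.log U := mul_pos hη hlU0
    have q1 : A' ≤ c₁ * (η * Real.log U) := by
      calc A' ≤ W * A := hA'W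
        _ ≤ W * (c * (2 * (η * Real.log U))) :=
            mul_le_mul_of_nonneg_left (hA1.trans (mul_le_mul_of_nonneg_left hηT hc0.le))
              (by linarith)
        _ = (c * (2 * W)) * (η * Real.log U) := by ring
        _ ≤ c₁ * (η * Real.log U) := mul_le_mul_of_nonneg_right hcc₁ hηU.le
    have hN3' : (N : ℝ) ^ (-η) ≤ 2 * Real.exp (-(η * Real.log U / (200 * ((j : ℝ) + 1)))) := by
      refine hN3.trans ?_
      refine mul_le_mul_of_nonneg_left (Real.exp_le_exp.2 (neg_le_neg ?_)) (by norm_num)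
      push_cast
      refine div_le_div_of_nonneg_right ?_ (by positivity)
      exact mul_le_mul_of_nonneg_left hlUT hη.le
    have a1 := H1 U (by linarith) η A' hη8 (by linarith) q1 N hN1 (hNY.trans hYU) hN3'
    rw [← hS] at a1
    have hGG : GG U A' C₀ ⊆ Icc U (2 * U) := fun t ht => ⟨ht.1, ht.2.1⟩
    have b1 : ∫ t in Zs T A C₀ ∩ Icc U (2 * U),
        ‖riemannZeta (sp η t) - DN N η t‖ ^ (2 * (j + 1)) ≤
        ∫ t in GG U A' C₀, ‖riemannZeta (sp η t) - DN N η t‖ ^ (2 * (j + 1)) :=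
      setIntegral_mono_set ((hfc.integrableOn_Icc).mono_set hGG)
        (ae_of_all _ fun t => by positivity) (LE.le.eventuallyLE hsub)
    have b3 : C₁ * Real.exp (-(c₁ * (η * Real.log U))) * (U * S) ≤ C₁ * E * (U * S) := by
      refine mul_le_mul_of_nonneg_right (mul_le_mul_of_nonneg_left ?_ (by linarith))
        (by positivity)
      rw [hE]
      apply Real.exp_le_exp.2
      have e2 := mul_le_mul_of_nonneg_left hηT hc0.le
      have e3 : c * 2 ≤ c₁ := by
        refine le_trans ?_ hcc₁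
        refine mul_le_mul_of_nonneg_left ?_ hc0.le
        linarith
      have e4 := mul_le_mul_of_nonneg_right e3 hηU.le
      linarith
    calc ∫ t in Zs T A C₀ ∩ Icc U (2 * U), ‖riemannZeta (sp η t) - DN N η t‖ ^ (2 * (j + 1))
        ≤ C₁ * E * (U * S) := by linarith
      _ = C₁ * E * S * U := by ring

end Pool.Agent.Work.MP_56b8f5_nt.HN
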