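import Pool.Agent.Work.MP_56b8f5_nt.HN.StmtsY

/-!
MP_56b8f5_nt, block HN, item YBd: the measure of the bad set.
-/

set_option autoImplicit false

open MeasureTheory Set Filter Topology

noncomputable section

namespace Pool.Agent.Work.MP_56b8f5_nt.HN

open Pool.Agent.Work.MP_56b8f5_nt.EM Pool.Agent.Work.MP_56b8f5_nt.WM Pool.Agent.Work.MP_56b8f5_nt.SH
open Pool.Agent.Work.MP_56b8f5_nt.HZ

namespace AuxYBd

lemma cont_cpow (n : ℕ) (hn : n ≠ 0) :
    Continuous fun t : ℝ => (n : ℂ) ^ (-(1 / 2 + t * Complex.I)) := by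
  refine Continuous.const_cpow (by fun_prop) (Or.inl ?_)
  exact_mod_cast hn

lemma cont_Dx (c : ℕ → ℝ) (x : ℝ) : Continuous fun t : ℝ => Dx c x t := by
  unfold Dx
  refine continuous_finsetSum _ fun n hn => ?_
  refine continuous_const.mul (cont_cpow n ?_)
  have := (Finset.mem_Icc.1 hn).1
  omega

lemma cont_Pm (v : ℕ → ℝ) (z : ℕ) : Continuous fun t : ℝ => Pm v z t := by
  unfold Pm
  refine continuous_finsetSum _ fun p hp => ?_
  refine continuous_const.mul (cont_cpow p ?_)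
  unfold pr at hp
  exact (Finset.mem_filter.1 hp).2.ne_zero

lemma log_small (K : ℝ) (hK : 0 < K) : ∀ᶠ L : ℝ in atTop, K * Real.log L ^ 2 ≤ Real.sqrt L := by
  have h1 := (isLittleO_log_rpow_atTop (r := 1 / 4) (by norm_num)).bound
    (show (0 : ℝ) < Real.sqrt (1 / K) from Real.sqrt_pos.2 (by positivity))
  filter_upwards [h1, eventually_ge_atTop 1] with L hL hL1
  rw [Real.norm_eq_abs, Real.norm_eq_abs, abs_of_nonneg (Real.rpow_nonneg (by linarith) _)] at hL
  have h2 : Real.log L ^ 2 ≤ (Real.sqrt (1 / K) * L ^ (1 / 4 : ℝ)) ^ 2 := by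
    rw [← sq_abs]
    exact pow_le_pow_left₀ (abs_nonneg _) hL 2
  rw [mul_pow, Real.sq_sqrt (by positivity), ← Real.rpow_natCast (L ^ (1 / 4 : ℝ)) 2,
    ← Real.rpow_mul (by linarith)] at h2
  rw [Real.sqrt_eq_rpow]
  norm_num at h2 ⊢
  calc K * Real.log L ^ 2 ≤ K * (K⁻¹ * L ^ (1 / 2 : ℝ)) := mul_le_mul_of_nonneg_left h2 hK.le
    _ = L ^ (1 / 2 : ℝ) := by field_simp

lemma cheb (v : ℕ → ℝ) (z m : ℕ) (T a : ℝ) (hT : 0 ≤ T) (ha : 0 ≤ a) :
    volume.real {t : ℝ | t ∈ Icc T (2 * T) ∧ a < ‖Pm v z t‖} * a ^ (2 * m) ≤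
      ∫ t in T..(2 * T), ‖Pm v z t‖ ^ (2 * m) := by
  set F : Set ℝ := {t : ℝ | t ∈ Icc T (2 * T) ∧ a < ‖Pm v z t‖} with hF
  have hcont : Continuous fun t : ℝ => ‖Pm v z t‖ ^ (2 * m) := (cont_Pm v z).norm.pow _
  have hint : IntegrableOn (fun t : ℝ => ‖Pm v z t‖ ^ (2 * m)) (Icc T (2 * T)) :=
    hcont.continuousOn.integrableOn_Icc
  have hFm : MeasurableSet F := by
    have h1 : MeasurableSet {t : ℝ | a < ‖Pm v z t‖} :=
      measurableSet_lt measurable_const (cont_Pm v z).norm.measurable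
    exact measurableSet_Icc.inter h1
  have hFs : F ⊆ Icc T (2 * T) := fun t ht => ht.1
  have hfin : volume F < ⊤ := lt_of_le_of_lt (measure_mono hFs) (by
    rw [Real.volume_Icc]; exact ENNReal.ofReal_lt_top)
  have h1 : ∫ t in F, (a ^ (2 * m) : ℝ) ≤ ∫ t in F, ‖Pm v z t‖ ^ (2 * m) := by
    refine setIntegral_mono_on ?_ (hint.mono_set hFs) hFm ?_
    · exact integrableOn_const hfin.ne
    · intro t ht
      exact pow_le_pow_left₀ ha ht.2.le _
  rw [setIntegral_const, smul_eq_mul] at h1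
  refine h1.trans ?_
  rw [intervalIntegral.integral_of_le (by linarith), ← integral_Icc_eq_integral_Ioc]
  refine setIntegral_mono_set hint ?_ hFs.eventuallyLE
  exact Eventually.of_forall fun t => by positivity

end AuxYBd

open AuxYBd in
theorem YBd_pf (h1 : S_YPm) (h2 : S_YDx) : S_YBd := by
  intro κ R B hκ hR
  obtain ⟨C, hC, hDx⟩ := h2
  have e1 := log_small (C * (R + 1) / κ ^ 2) (by positivity)
  have e2 := log_small (2 * C * (R + 1) / κ) (by positivity)
  have e3 := log_small (8 * R) (by positivity)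
  have e4 : ∀ᶠ L : ℝ in atTop, max 3 (16 * R * (|B| + 2)) ≤ Real.log L :=
    Real.tendsto_log_atTop.eventually (eventually_ge_atTop _)
  have e5 := eventually_ge_atTop (1 : ℝ)
  obtain ⟨T1, hT1⟩ := eventually_atTop.1
    (Real.tendsto_log_atTop.eventually (e1.and (e2.and (e3.and (e4.and e5)))))
  refine ⟨max 3 T1, le_max_left _ _, ?_⟩
  intro T hT X hX1 hX2 c hc
  have hT3 : 3 ≤ T := (le_max_left _ _).trans hT
  have hT0 : 0 < T := by linarith
  obtain ⟨p1, p2, p3, p4, p5⟩ := hT1 T ((le_max_right _ _).trans hT)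
  set L := Real.log T with hL
  set l := Real.log L with hl
  have hl3 : 3 ≤ l := (le_max_left _ _).trans p4
  have hlB : 16 * R * (|B| + 2) ≤ l := (le_max_right _ _).trans p4
  have hl0 : 0 < l := by linarith
  have hL0 : 0 < L := by linarith
  have hsq : Real.sqrt L ≤ L := by
    rw [Real.sqrt_le_left hL0.le]
    nlinarith
  have hsq0 : 0 < Real.sqrt L := Real.sqrt_pos.2 hL0
  have hR0 : 0 < R := by linarith
  have hX0 : 0 < X := lt_of_lt_of_le (by positivity) hX1
  have hLX : L ≤ l * X := by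
    rw [div_le_iff₀ hl0] at hX1
    linarith
  have hmeas : ∀ x : ℝ, MeasurableSet {t : ℝ | t ∈ Icc T (2 * T) ∧ κ * X < ‖Dx c x t‖} := by
    intro x
    have h1 : MeasurableSet {t : ℝ | κ * X < ‖Dx c x t‖} :=
      measurableSet_lt measurable_const (cont_Dx c x).norm.measurable
    exact measurableSet_Icc.inter h1
  refine ⟨hmeas _, ?_⟩
  set y := R * (L / X) with hy
  have hy1 : y ≤ R * l := by
    rw [hy]
    refine mul_le_mul_of_nonneg_left ?_ hR0.le
    rw [div_le_iff₀ hX0]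
    exact hLX
  have hy2 : 8 ≤ y := by
    have h3 : 8 ≤ L / X := by
      rw [le_div_iff₀ hX0]
      linarith
    rw [hy]
    nlinarith
  have hx2 : 2 ≤ Real.exp y := by
    have := Real.add_one_le_exp y
    linarith
  set z := ⌊Real.exp y⌋₊ with hz
  have hz1 : 1 ≤ z := by
    rw [hz, Nat.one_le_floor_iff]
    linarith
  have hzx : (z : ℝ) ≤ Real.exp y := Nat.floor_le (Real.exp_pos y).le
  set m := ⌊X / (4 * R)⌋₊ with hm
  have hm1 : (m : ℝ) ≤ X / (4 * R) := Nat.floor_le (by positivity)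
  have hX8 : 8 * R ≤ X := by
    have h3 : 8 * R * l ^ 2 ≤ l * X := p3.trans (hsq.trans hLX)
    have h4 : 8 * R * l ≤ X := by
      have : l * (8 * R * l) ≤ l * X := by linarith [h3]
      exact le_of_mul_le_mul_left this hl0
    nlinarith
  have hm2 : X / (8 * R) ≤ (m : ℝ) := by
    have h3 := Nat.lt_floor_add_one (X / (4 * R))
    rw [← hm] at h3
    have h4 : 1 ≤ X / (8 * R) := by
      rw [le_div_iff₀ (by positivity)]
      linarith
    have h5 : X / (4 * R) = 2 * (X / (8 * R)) := by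
      field_simp
      ring
    linarith
  have hmy : 2 * (m : ℝ) * y ≤ L := by
    have h3 : 2 * (m : ℝ) * y ≤ 2 * (X / (4 * R)) * y := by
      have : 0 ≤ y := by linarith
      nlinarith
    have h4 : 2 * (X / (4 * R)) * y = L / 2 := by
      rw [hy]
      field_simp
      ring
    linarith
  have hzm : ((z ^ m : ℕ) : ℝ) ^ 2 ≤ T := by
    push_cast
    rw [← pow_mul]
    calc (z : ℝ) ^ (m * 2) ≤ (Real.exp y) ^ (m * 2) := pow_le_pow_left₀ (Nat.cast_nonneg _) hzx _
      _ = Real.exp (2 * m * y) := by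
        rw [← Real.exp_nat_mul]
        congr 1
        push_cast
        ring
      _ ≤ Real.exp L := Real.exp_le_exp.2 hmy
      _ = T := Real.exp_log hT0
  set D := C * (1 + Real.log (y + 3)) with hD
  have hD1 : D ≤ C * (R + 1) * l := by
    have h3 : Real.log (y + 3) ≤ y + 3 - 1 := Real.log_le_sub_one_of_pos (by linarith)
    have h4 : 1 + Real.log (y + 3) ≤ (R + 1) * l := by nlinarith
    rw [hD, mul_assoc]
    exact mul_le_mul_of_nonneg_left h4 (by linarith)
  have hCR : 0 < C * (R + 1) := by positivity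
  have hD2 : D ≤ κ * X / 2 := by
    have h3 : 2 * C * (R + 1) / κ * l ^ 2 ≤ l * X := p2.trans (hsq.trans hLX)
    have h4 : 2 * C * (R + 1) / κ * l ≤ X := by
      have : l * (2 * C * (R + 1) / κ * l) ≤ l * X := by linarith [h3]
      exact le_of_mul_le_mul_left this hl0
    have h5 : C * (R + 1) * l = κ * (2 * C * (R + 1) / κ * l) / 2 := by
      field_simp
    have h6 : κ * (2 * C * (R + 1) / κ * l) ≤ κ * X := mul_le_mul_of_nonneg_left h4 hκ.le
    linarith
  obtain ⟨q1, q2⟩ : (∀ t, ‖Dx c (Real.exp y) t - Pm c z t‖ ≤ D) ∧ WM.S1 z ≤ D := by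
    refine ⟨fun t => ?_, ?_⟩
    · have := (hDx c (Real.exp y) t hc hx2).1
      rwa [Real.log_exp] at this
    · have := (hDx c (Real.exp y) 0 hc hx2).2.1
      rwa [Real.log_exp] at this
  have hS0 : 0 ≤ WM.S1 z := by
    unfold WM.S1
    exact Finset.sum_nonneg fun p _ => by positivity
  have hsub : {t : ℝ | t ∈ Icc T (2 * T) ∧ κ * X < ‖Dx c (Real.exp y) t‖} ⊆
      {t : ℝ | t ∈ Icc T (2 * T) ∧ κ * X / 2 < ‖Pm c z t‖} := by
    rintro t ⟨ht1, ht2⟩
    refine ⟨ht1, ?_⟩
    have h3 := q1 t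
    have h4 : ‖Dx c (Real.exp y) t‖ ≤ ‖Dx c (Real.exp y) t - Pm c z t‖ + ‖Pm c z t‖ := by
      have := norm_add_le (Dx c (Real.exp y) t - Pm c z t) (Pm c z t)
      simpa using this
    linarith
  have hfin : volume {t : ℝ | t ∈ Icc T (2 * T) ∧ κ * X / 2 < ‖Pm c z t‖} ≠ ⊤ := by
    have : volume {t : ℝ | t ∈ Icc T (2 * T) ∧ κ * X / 2 < ‖Pm c z t‖} ≤
        volume (Icc T (2 * T)) := measure_mono fun t ht => ht.1
    refine (lt_of_le_of_lt this ?_).ne
    rw [Real.volume_Icc]
    exact ENNReal.ofReal_lt_top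
  refine (measureReal_mono hsub hfin).trans ?_
  set V := volume.real {t : ℝ | t ∈ Icc T (2 * T) ∧ κ * X / 2 < ‖Pm c z t‖} with hV
  have hV0 : 0 ≤ V := measureReal_nonneg
  have hch := cheb c z m T (κ * X / 2) hT0.le (by positivity)
  rw [← hV] at hch
  have hmom := h1 m z c T (by linarith) hz1 hc hzm
  have hfac : (m.factorial : ℝ) ≤ (m : ℝ) ^ m := by exact_mod_cast Nat.factorial_le_pow m
  set a := κ * X / 2 with ha
  have ha0 : 0 < a := by positivity
  set b := (m : ℝ) * WM.S1 z / a ^ 2 with hb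
  have hb0 : 0 ≤ b := by positivity
  have hVb : V ≤ 3 * T * b ^ m := by
    have h3 : V * a ^ (2 * m) ≤ 3 * T * ((m : ℝ) ^ m * WM.S1 z ^ m) := by
      refine hch.trans (hmom.trans ?_)
      refine mul_le_mul_of_nonneg_left ?_ (by positivity)
      exact mul_le_mul_of_nonneg_right hfac (by positivity)
    have h4 : b ^ m = (m : ℝ) ^ m * WM.S1 z ^ m / a ^ (2 * m) := by
      rw [hb, div_pow, mul_pow, ← pow_mul]
    rw [h4, ← mul_div_assoc, le_div_iff₀ (by positivity)]
    exact h3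
  have hbL : b ≤ Real.exp (-(l / 2)) := by
    have h3 : b ≤ D / (κ ^ 2 * X) := by
      rw [hb, ha, div_le_div_iff₀ (by positivity) (by positivity)]
      have h4 : (m : ℝ) * WM.S1 z ≤ X / (4 * R) * D :=
        mul_le_mul hm1 q2 hS0 (by positivity)
      have h5 : X / (4 * R) ≤ X / 4 := by
        rw [div_le_div_iff₀ (by positivity) (by positivity)]
        nlinarith
      have hD0 : 0 ≤ D := hS0.trans q2
      have h6 : (m : ℝ) * WM.S1 z ≤ X / 4 * D := h4.trans (mul_le_mul_of_nonneg_right h5 hD0)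
      have h7 : (m : ℝ) * WM.S1 z * (κ ^ 2 * X) ≤ X / 4 * D * (κ ^ 2 * X) :=
        mul_le_mul_of_nonneg_right h6 (by positivity)
      refine h7.trans (le_of_eq ?_)
      ring
    have h4 : D / (κ ^ 2 * X) ≤ (Real.sqrt L)⁻¹ := by
      rw [div_le_iff₀ (by positivity)]
      have h5 : C * (R + 1) * l ^ 2 ≤ κ ^ 2 * Real.sqrt L := by
        have h6 : C * (R + 1) / κ ^ 2 * l ^ 2 * κ ^ 2 ≤ Real.sqrt L * κ ^ 2 :=
          mul_le_mul_of_nonneg_right p1 (by positivity)
        have h7 : C * (R + 1) / κ ^ 2 * l ^ 2 * κ ^ 2 = C * (R + 1) * l ^ 2 := by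
          field_simp
        linarith
      -- L = sqrt L * sqrt L
      have h8 : Real.sqrt L * Real.sqrt L = L := Real.mul_self_sqrt hL0.le
      have h9 : C * (R + 1) * l ^ 2 * Real.sqrt L ≤ κ ^ 2 * (l * X) := by
        calc C * (R + 1) * l ^ 2 * Real.sqrt L ≤ κ ^ 2 * Real.sqrt L * Real.sqrt L :=
              mul_le_mul_of_nonneg_right h5 hsq0.le
          _ = κ ^ 2 * L := by rw [mul_assoc, h8]
          _ ≤ κ ^ 2 * (l * X) := mul_le_mul_of_nonneg_left hLX (by positivity)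
      have h10 : C * (R + 1) * l * Real.sqrt L ≤ κ ^ 2 * X := by
        have : l * (C * (R + 1) * l * Real.sqrt L) ≤ l * (κ ^ 2 * X) := by
          nlinarith [h9]
        exact le_of_mul_le_mul_left this hl0
      refine hD1.trans ?_
      rw [inv_mul_eq_div, le_div_iff₀ hsq0]
      exact h10
    have h5 : (Real.sqrt L)⁻¹ = Real.exp (-(l / 2)) := by
      rw [Real.exp_neg, Real.sqrt_eq_rpow, Real.rpow_def_of_pos hL0]
      congr 2
      rw [← hl]
      ring
    rw [← h5]
    exact h3.trans h4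
  have hbm : b ^ m ≤ Real.exp (-(l * X / (16 * R))) := by
    calc b ^ m ≤ Real.exp (-(l / 2)) ^ m := pow_le_pow_left₀ hb0 hbL m
      _ = Real.exp (-(l / 2 * m)) := by
        rw [← Real.exp_nat_mul]
        congr 1
        ring
      _ ≤ Real.exp (-(l * X / (16 * R))) := by
        apply Real.exp_le_exp.2
        have h3 : l / 2 * (X / (8 * R)) ≤ l / 2 * m := mul_le_mul_of_nonneg_left hm2 (by positivity)
        have h4 : l / 2 * (X / (8 * R)) = l * X / (16 * R) := by
          field_simp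
          ring
        linarith
  have h3 : Real.exp (-(l * X / (16 * R))) ≤ Real.exp (-(B * X)) / 3 := by
    rw [le_div_iff₀ (by norm_num)]
    have h4 : (3 : ℝ) ≤ Real.exp 2 := by
      have := Real.add_one_le_exp (2 : ℝ)
      linarith
    have h5 : (|B| + 2) * X ≤ l * X / (16 * R) := by
      rw [le_div_iff₀ (by positivity)]
      nlinarith
    have h6 : B * X + 2 ≤ (|B| + 2) * X := by
      have h7 : B ≤ |B| := le_abs_self B
      have h8 : 1 ≤ X := by linarith
      nlinarith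
    calc Real.exp (-(l * X / (16 * R))) * 3 ≤ Real.exp (-(l * X / (16 * R))) * Real.exp 2 :=
          mul_le_mul_of_nonneg_left h4 (Real.exp_pos _).le
      _ = Real.exp (-(l * X / (16 * R)) + 2) := by rw [Real.exp_add]
      _ ≤ Real.exp (-(B * X)) := by
        apply Real.exp_le_exp.2
        linarith
  calc V ≤ 3 * T * b ^ m := hVb
    _ ≤ 3 * T * (Real.exp (-(B * X)) / 3) :=
      mul_le_mul_of_nonneg_left (hbm.trans h3) (by positivity)
    _ = T * Real.exp (-(B * X)) := by ring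

end Pool.Agent.Work.MP_56b8f5_nt.HN
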