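import Pool.Agent.Work.MP_56b8f5_nt.HN.StmtsY
import Pool.Agent.Work.MP_56b8f5_nt.HZ.B_PwZ
import Pool.Agent.Work.MP_56b8f5_nt.HZ.B_Fst

/-! MP_56b8f5_nt, block HN, item YDx (helper56): from `Dx` to primes. -/

set_option autoImplicit false

open MeasureTheory Set Filter Topology

noncomputable section

namespace Pool.Agent.Work.MP_56b8f5_nt.HN

open Pool.Agent.Work.MP_56b8f5_nt.EM Pool.Agent.Work.MP_56b8f5_nt.WM Pool.Agent.Work.MP_56b8f5_nt.SH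
open Pool.Agent.Work.MP_56b8f5_nt.HZ

namespace AuxYDx

open Pool.Agent.Work.MP_56b8f5_nt.HZB

theorem norm_cp (t : ℝ) (n : ℕ) (hn : 0 < n) :
    ‖(n : ℂ) ^ (-(1 / 2 + t * Complex.I))‖ = (n : ℝ) ^ (-(1 / 2) : ℝ) := by
  rw [Complex.norm_natCast_cpow_of_pos hn]
  congr 1
  simp

theorem pr_eq (N : ℕ) : (Finset.Icc 1 N).filter Nat.Prime = pr N := by
  ext p
  unfold pr
  rw [Finset.mem_filter, Finset.mem_filter, Finset.mem_Icc, Finset.mem_range]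
  constructor
  · rintro ⟨⟨_, h⟩, hp⟩
    exact ⟨by omega, hp⟩
  · rintro ⟨h, hp⟩
    exact ⟨⟨hp.pos, by omega⟩, hp⟩

/-- the terms of `Dx` -/
def gg (c : ℕ → ℝ) (t : ℝ) (n : ℕ) : ℂ :=
  ((ArithmeticFunction.vonMangoldt n / Real.log n * c n : ℝ) : ℂ) *
    (n : ℂ) ^ (-(1 / 2 + t * Complex.I))

theorem gg_zero (c : ℕ → ℝ) (t : ℝ) (n : ℕ) (hn : ¬ IsPrimePow n) : gg c t n = 0 := by
  have e1 : ArithmeticFunction.vonMangoldt n = 0 :=
    ArithmeticFunction.vonMangoldt_eq_zero_iff.mpr hn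
  simp only [gg, e1, zero_div, zero_mul, Complex.ofReal_zero]

theorem gg_le {c : ℕ → ℝ} (hc : ∀ n, 0 ≤ c n ∧ c n ≤ 1) (t : ℝ) (n : ℕ) (hn : 0 < n) :
    ‖gg c t n‖ ≤ (n : ℝ) ^ (-(1 / 2) : ℝ) := by
  have e1 := AuxPwZ.lam_le n
  have e2 := hc n
  have e3 : 0 ≤ ArithmeticFunction.vonMangoldt n / Real.log n * c n := mul_nonneg e1.1 e2.1
  have e4 : ArithmeticFunction.vonMangoldt n / Real.log n * c n ≤ 1 := mul_le_one₀ e1.2 e2.1 e2.2
  unfold gg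
  rw [norm_mul, norm_cp t n hn, Complex.norm_real, Real.norm_of_nonneg e3]
  exact mul_le_of_le_one_left (Real.rpow_nonneg (Nat.cast_nonneg n) _) e4

theorem gg_prime (c : ℕ → ℝ) (t : ℝ) {p : ℕ} (hp : p.Prime) :
    gg c t p = (c p : ℂ) * (p : ℂ) ^ (-(1 / 2 + t * Complex.I)) := by
  have hlogp : 0 < Real.log p := Real.log_pos (by exact_mod_cast hp.one_lt)
  have e1 : ArithmeticFunction.vonMangoldt p = Real.log p :=
    ArithmeticFunction.vonMangoldt_apply_prime hp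
  unfold gg
  rw [e1, div_self hlogp.ne', one_mul]

theorem gg_sq {c : ℕ → ℝ} (hc : ∀ n, 0 ≤ c n ∧ c n ≤ 1) (t : ℝ) {p : ℕ} (hp : p.Prime) :
    ‖gg c t (p ^ 2)‖ ≤ 1 / (p : ℝ) := by
  refine (gg_le hc t (p ^ 2) (pow_pos hp.pos 2)).trans (le_of_eq ?_)
  have hp0 : (0 : ℝ) < p := by exact_mod_cast hp.pos
  rw [Nat.cast_pow, ← Real.rpow_natCast, ← Real.rpow_mul hp0.le]
  norm_num
  rw [Real.rpow_neg_one]

/-- primes and squares -/
theorem main {c : ℕ → ℝ} (hc : ∀ n, 0 ≤ c n ∧ c n ≤ 1) (x t : ℝ) :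
    ‖Dx c x t - Pm c ⌊x⌋₊ t‖ ≤ AuxPwZ.CC + WM.S1 ⌊x⌋₊ := by
  set N : ℕ := ⌊x⌋₊ with hN
  have h1 := AuxPwZ.split N (gg c t) (gg_zero c t) (gg_le hc t)
  rw [pr_eq, Finset.sum_add_distrib] at h1
  have h2 : ∑ p ∈ pr N, gg c t p = Pm c N t := by
    unfold Pm
    refine Finset.sum_congr rfl fun p hp => ?_
    exact gg_prime c t (Finset.mem_filter.1 hp).2
  rw [h2] at h1
  have h3 : Dx c x t = ∑ n ∈ Finset.Icc 1 N, gg c t n := rfl
  rw [← h3] at h1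
  have h4 : ‖∑ p ∈ pr N, (if p ^ 2 ≤ N then gg c t (p ^ 2) else 0)‖ ≤ WM.S1 N := by
    unfold WM.S1
    refine (norm_sum_le _ _).trans (Finset.sum_le_sum fun p hp => ?_)
    have hpp := (Finset.mem_filter.1 hp).2
    split_ifs
    · exact gg_sq hc t hpp
    · rw [norm_zero]
      positivity
  have e : Dx c x t - Pm c N t =
      (Dx c x t - (Pm c N t + ∑ p ∈ pr N, (if p ^ 2 ≤ N then gg c t (p ^ 2) else 0))) +
        ∑ p ∈ pr N, (if p ^ 2 ≤ N then gg c t (p ^ 2) else 0) := by ring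
  rw [e]
  exact (norm_add_le _ _).trans (add_le_add h1 h4)

/-- the trivial bound -/
theorem triv {c : ℕ → ℝ} (hc : ∀ n, 0 ≤ c n ∧ c n ≤ 1) (x t : ℝ) (hx : 0 ≤ x) :
    ‖Dx c x t‖ ≤ 2 * Real.sqrt x := by
  set N : ℕ := ⌊x⌋₊ with hN
  have h3 : Dx c x t = ∑ n ∈ Finset.Icc 1 N, gg c t n := rfl
  rw [h3]
  refine (norm_sum_le _ _).trans ?_
  have h5 : ∑ n ∈ Finset.Icc 1 N, ‖gg c t n‖ ≤ ∑ n ∈ Finset.range (N + 1), (Real.sqrt n)⁻¹ := by
    have hsub : Finset.Icc 1 N ⊆ Finset.range (N + 1) := by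
      intro n hn
      rw [Finset.mem_Icc] at hn
      rw [Finset.mem_range]
      omega
    refine le_trans (Finset.sum_le_sum fun n hn => ?_)
      (Finset.sum_le_sum_of_subset_of_nonneg hsub fun n _ _ => by positivity)
    have hn1 : 0 < n := (Finset.mem_Icc.1 hn).1
    refine (gg_le hc t n hn1).trans (le_of_eq ?_)
    rw [Real.rpow_neg (Nat.cast_nonneg n), Real.sqrt_eq_rpow]
  refine h5.trans ((AuxFst.sum_inv_sqrt N).trans ?_)
  have : Real.sqrt N ≤ Real.sqrt x := Real.sqrt_le_sqrt (Nat.floor_le hx)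
  linarith

end AuxYDx

open AuxYDx in
theorem YDx_pf (h : WM.S_Mert) : S_YDx := by
  obtain ⟨C₀, hC₀, hM⟩ := h
  have hCC := HZB.AuxPwZ.CC_nonneg
  have hlC : 0 ≤ Real.log C₀ := Real.log_nonneg hC₀
  refine ⟨1 + Real.log C₀ + HZB.AuxPwZ.CC, by linarith, ?_⟩
  intro c x t hc hx
  have hlx : 0 < Real.log x := Real.log_pos (by linarith)
  have hll : 0 ≤ Real.log (Real.log x + 3) := Real.log_nonneg (by linarith)
  have hN2 : 2 ≤ ⌊x⌋₊ := Nat.le_floor (by exact_mod_cast hx)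
  have hN2' : (2 : ℝ) ≤ (⌊x⌋₊ : ℝ) := by exact_mod_cast hN2
  have hS : WM.S1 ⌊x⌋₊ ≤ (1 + Real.log C₀) * (1 + Real.log (Real.log x + 3)) := by
    have h1 := (hM ⌊x⌋₊ hN2).1
    have hlN : 0 < Real.log (⌊x⌋₊ : ℝ) := Real.log_pos (by linarith)
    have h2 : WM.S1 ⌊x⌋₊ ≤ Real.log (C₀ * Real.log (⌊x⌋₊ : ℝ)) := by
      rw [Real.le_log_iff_exp_le (by positivity)]
      exact h1
    rw [Real.log_mul (by linarith) hlN.ne'] at h2
    have h3 : Real.log (⌊x⌋₊ : ℝ) ≤ Real.log x + 3 := by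
      have : Real.log (⌊x⌋₊ : ℝ) ≤ Real.log x :=
        Real.log_le_log (by linarith) (Nat.floor_le (by linarith))
      linarith
    have h4 : Real.log (Real.log (⌊x⌋₊ : ℝ)) ≤ Real.log (Real.log x + 3) :=
      Real.log_le_log hlN h3
    nlinarith
  refine ⟨?_, ?_, triv hc x t (by linarith)⟩
  · refine (main hc x t).trans ?_
    nlinarith
  · nlinarith

end Pool.Agent.Work.MP_56b8f5_nt.HN
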