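import Pool.Agent.Work.MP_56b8f5_nt.HN.StmtsY

/-!
MP_56b8f5_nt, block HN, item YHQ: splitting in the range `X ≥ L/log L`.
-/

set_option autoImplicit false

open MeasureTheory Set Filter Topology

noncomputable section

namespace Pool.Agent.Work.MP_56b8f5_nt.HN

open Pool.Agent.Work.MP_56b8f5_nt.EM Pool.Agent.Work.MP_56b8f5_nt.WM Pool.Agent.Work.MP_56b8f5_nt.SH
open Pool.Agent.Work.MP_56b8f5_nt.HZ

namespace AuxYHQ

theorem exists_log : ∃ L₀ : ℝ, 1 ≤ L₀ ∧ ∀ L : ℝ, L₀ ≤ L → 4 * Real.log L ^ 2 ≤ L := by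
  have h := (Real.isLittleO_pow_log_id_atTop (n := 2)).bound (show (0 : ℝ) < 1 / 4 by norm_num)
  obtain ⟨a, ha⟩ := Filter.eventually_atTop.1 h
  refine ⟨max a 1, le_max_right _ _, fun L hL => ?_⟩
  have h1 := ha L ((le_max_left _ _).trans hL)
  have hL0 : (0 : ℝ) ≤ L := by linarith [le_max_right a 1]
  simp only [id, Real.norm_eq_abs] at h1
  rw [abs_of_nonneg (sq_nonneg _), abs_of_nonneg hL0] at h1
  linarith

/-- `2 √L ≤ L/log L` -/
theorem two_sqrt_le {L : ℝ} (hL : 1 < L) (h : 4 * Real.log L ^ 2 ≤ L) :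
    2 * Real.sqrt L ≤ L / Real.log L := by
  have hl : 0 < Real.log L := Real.log_pos hL
  have h0 : 0 ≤ L := by linarith
  rw [le_div_iff₀ hl]
  have h1 : 2 * Real.log L ≤ Real.sqrt L := by
    apply Real.le_sqrt_of_sq_le
    nlinarith
  calc 2 * Real.sqrt L * Real.log L = Real.sqrt L * (2 * Real.log L) := by ring
    _ ≤ Real.sqrt L * Real.sqrt L := mul_le_mul_of_nonneg_left h1 (Real.sqrt_nonneg _)
    _ = L := Real.mul_self_sqrt h0

theorem coeff_le {v : ℝ} {η : ℝ} (hη : 0 < η) (hv : 0 ≤ v ∧ v ≤ 1) (n : ℕ) :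
    0 ≤ v * (n : ℝ) ^ (-η) ∧ v * (n : ℝ) ^ (-η) ≤ 1 := by
  have h1 : 0 ≤ (n : ℝ) ^ (-η) := Real.rpow_nonneg (Nat.cast_nonneg n) _
  refine ⟨mul_nonneg hv.1 h1, ?_⟩
  have h2 : (n : ℝ) ^ (-η) ≤ 1 := by
    rcases Nat.eq_zero_or_pos n with h | h
    · subst h
      rw [Nat.cast_zero, Real.zero_rpow (neg_ne_zero.2 hη.ne')]
      exact zero_le_one
    · apply Real.rpow_le_one_of_one_le_of_nonpos
      · exact_mod_cast h
      · linarith
  calc v * (n : ℝ) ^ (-η) ≤ 1 * 1 := mul_le_mul hv.2 h2 h1 zero_le_one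
    _ = 1 := one_mul 1

end AuxYHQ

open AuxYHQ in
theorem YHQ_pf (h1 : S_PWU) (h2 : S_YBd) (h3 : S_YDx) : S_YHQ := by
  intro k C₀ κ hC₀ hκ
  obtain ⟨cf, hcf, hP⟩ := h1
  obtain ⟨m₀, X₀, K, hm₀, hX₀, hK, hP⟩ := hP C₀ hC₀
  obtain ⟨C₃, -, h3⟩ := h3
  -- the parameters
  obtain ⟨R, hR⟩ : ∃ R : ℝ, R = max (max 1 X₀) (2 * K / κ) := ⟨_, rfl⟩
  have hR1 : 1 ≤ R := hR ▸ (le_max_left _ _).trans (le_max_left _ _)
  have hRX : X₀ ≤ R := hR ▸ (le_max_right _ _).trans (le_max_left _ _)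
  have hRK : K ≤ κ / 2 * R := by
    have h : 2 * K / κ ≤ R := hR ▸ le_max_right _ _
    rw [div_le_iff₀ hκ] at h
    linarith
  have hR0 : 0 < R := by linarith
  have hm0 : 0 < m₀ := by linarith
  have hX0 : 0 < X₀ := by linarith
  obtain ⟨B', hB'⟩ : ∃ B' : ℝ, B' = 2 * (k + 1) * (1 + K * (2 * m₀ + 1)) := ⟨_, rfl⟩
  obtain ⟨T₁, hT₁, h2⟩ := h2 (κ / 2) R (B' + 1) (by positivity) hR1
  obtain ⟨c, hc⟩ : ∃ c : ℝ, c = min (min 1 (1 / (2 * m₀ * R))) (4 / (m₀ * X₀)) := ⟨_, rfl⟩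
  have hc0 : 0 < c := by
    rw [hc]
    refine lt_min (lt_min one_pos ?_) ?_ <;> positivity
  have hc1 : c ≤ 1 := hc ▸ (min_le_left _ _).trans (min_le_left _ _)
  have hc2 : m₀ * R * c ≤ 1 / 2 := by
    have h : c ≤ 1 / (2 * m₀ * R) := hc ▸ (min_le_left _ _).trans (min_le_right _ _)
    calc m₀ * R * c ≤ m₀ * R * (1 / (2 * m₀ * R)) := mul_le_mul_of_nonneg_left h (by positivity)
      _ = 1 / 2 := by field_simp
  have hc3 : m₀ * X₀ * c ≤ 4 := by
    have h : c ≤ 4 / (m₀ * X₀) := hc ▸ min_le_right _ _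
    calc m₀ * X₀ * c ≤ m₀ * X₀ * (4 / (m₀ * X₀)) := mul_le_mul_of_nonneg_left h (by positivity)
      _ = 4 := by field_simp
  obtain ⟨L₀, hL₀, hlog⟩ := exists_log
  obtain ⟨L₁, hL₁⟩ : ∃ L₁ : ℝ, L₁ = L₀ + (m₀ * R) ^ 2 + 2 * m₀ * X₀ + Real.exp X₀ + 1 := ⟨_, rfl⟩
  refine ⟨c, max (max 100 T₁) (Real.exp L₁), hc0, ?_, ?_⟩
  · calc (3 : ℝ) ≤ 100 := by norm_num
      _ ≤ _ := (le_max_left _ _).trans (le_max_left _ _)
  intro T hT η hη8 hη
  have hT100 : 100 ≤ T := ((le_max_left _ _).trans (le_max_left _ _)).trans hT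
  have hTT₁ : T₁ ≤ T := ((le_max_right _ _).trans (le_max_left _ _)).trans hT
  have hT0 : 0 < T := by linarith
  obtain ⟨L, hLdef⟩ : ∃ L : ℝ, L = Real.log T := ⟨_, rfl⟩
  have hLL : L₁ ≤ L := by
    rw [hLdef, Real.le_log_iff_exp_le hT0]
    exact (le_max_right _ _).trans hT
  have e1 : 0 ≤ (m₀ * R) ^ 2 := sq_nonneg _
  have e2 : 0 < 2 * m₀ * X₀ := by positivity
  have e3 : 0 < Real.exp X₀ := Real.exp_pos _
  have hLL₀ : L₀ ≤ L := by linarith
  have hL1 : 1 < L := by linarith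
  have hL0 : 0 < L := by linarith
  have hLm : (m₀ * R) ^ 2 ≤ L := by linarith
  have hLX : 2 * m₀ * X₀ ≤ L := by linarith
  have hlL : X₀ ≤ Real.log L := by
    rw [Real.le_log_iff_exp_le hL0]
    linarith
  have hlog4 := hlog L hLL₀
  have hsq := two_sqrt_le hL1 hlog4
  have hlL0 : 0 < Real.log L := Real.log_pos hL1
  rw [← hLdef] at hη ⊢
  obtain ⟨X, hX⟩ : ∃ X : ℝ, X = η * L := ⟨_, rfl⟩
  rw [← hX] at hη ⊢
  have hXs : 2 * Real.sqrt L ≤ X := hsq.trans hη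
  have hmR : m₀ * R ≤ Real.sqrt L := Real.le_sqrt_of_sq_le hLm
  have hmR1 : 1 ≤ m₀ * R := by nlinarith
  have hX2 : 2 * (m₀ * R) ≤ X := by linarith
  have hX1 : 1 ≤ X := by linarith
  have hXp : 0 < X := by linarith
  have hη0 : 0 < η := by
    by_contra h
    have : η * L ≤ 0 := mul_nonpos_of_nonpos_of_nonneg (not_lt.1 h) hL0.le
    linarith
  have hXL : X ≤ L / 8 := by
    rw [hX]
    nlinarith
  obtain ⟨x, hx⟩ : ∃ x : ℝ, x = Real.exp (R * (L / X)) := ⟨_, rfl⟩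
  obtain ⟨v, hv⟩ : ∃ v : ℝ → ℕ → ℝ, v = fun x n => cf x n * (n : ℝ) ^ (-η) := ⟨_, rfl⟩
  have hvle : ∀ x n, 0 ≤ v x n ∧ v x n ≤ 1 := by
    intro x n
    rw [hv]
    exact coeff_le hη0 (hcf x n) n
  have hbad := h2 T hTT₁ X (by rw [← hLdef]; exact hη) (by rw [← hLdef]; exact hXL) (v x) (hvle x)
  rw [← hLdef, ← hx] at hbad
  obtain ⟨hFm, hFv⟩ := hbad
  -- the pointwise inequality
  have hpt : ∀ t ∈ GG T (c * X) C₀, ∀ ℓ : ℝ, X₀ ≤ ℓ → m₀ * (1 + c * X) * ℓ ≤ L →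
      ‖riemannZeta (sp η t)‖ ≤ Real.exp (‖Dx (v (Real.exp ℓ)) (Real.exp ℓ) t‖ + K * (L / ℓ)) := by
    intro t ht ℓ hℓ1 hℓ2
    have h5 := hP T hT100 (c * X) (by positivity) t ht η hη0.le hη8 (Real.exp ℓ)
      (Real.exp_le_exp.2 hℓ1) (by rw [Real.log_exp, ← hLdef]; exact hℓ2)
    rw [Real.log_exp, ← hLdef] at h5
    refine h5.trans (Real.exp_le_exp.2 ?_)
    rw [hv]
    have := Complex.re_le_norm (Dx (fun n => cf (Real.exp ℓ) n * (n : ℝ) ^ (-η)) (Real.exp ℓ) t)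
    linarith
  refine ⟨_, hFm, ?_, ?_⟩
  · intro t ht htF
    have htI : t ∈ Icc T (2 * T) := ⟨ht.1, ht.2.1⟩
    have h6 : ‖Dx (v x) x t‖ ≤ κ / 2 * X := by
      by_contra h
      exact htF ⟨htI, not_le.1 h⟩
    have hLX8 : 8 ≤ L / X := by
      rw [le_div_iff₀ hXp]
      linarith
    have hR8 : R * 8 ≤ R * (L / X) := mul_le_mul_of_nonneg_left hLX8 hR0.le
    have h7 := hpt t ht (R * (L / X)) (by linarith) (by
      have h8 : m₀ * R * (1 + c * X) ≤ X := by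
        have h9 : m₀ * R * c * X ≤ 1 / 2 * X := mul_le_mul_of_nonneg_right hc2 hXp.le
        linarith
      calc m₀ * (1 + c * X) * (R * (L / X)) = m₀ * R * (1 + c * X) * (L / X) := by ring
        _ ≤ X * (L / X) := mul_le_mul_of_nonneg_right h8 (by positivity)
        _ = L := by field_simp)
    rw [← hx] at h7
    refine h7.trans (Real.exp_le_exp.2 ?_)
    have h9 : K * (L / (R * (L / X))) ≤ κ / 2 * X := by
      have : L / (R * (L / X)) = X / R := by field_simp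
      rw [this]
      calc K * (X / R) ≤ κ / 2 * R * (X / R) := mul_le_mul_of_nonneg_right hRK (by positivity)
        _ = κ / 2 * X := by field_simp
    linarith
  · -- the bad set
    have hzeta : ∀ t ∈ GG T (c * X) C₀,
        ‖riemannZeta (sp η t)‖ ≤ Real.exp ((1 + K * (2 * m₀ + 1)) * X) := by
      intro t ht
      have hden : 0 < m₀ * (1 + c * X) := by positivity
      obtain ⟨ℓ, hℓ⟩ : ∃ ℓ : ℝ, ℓ = min (L / (m₀ * (1 + c * X))) (Real.log L) := ⟨_, rfl⟩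
      have hℓX : X₀ ≤ ℓ := by
        rw [hℓ]
        refine le_min ?_ hlL
        rw [le_div_iff₀ hden]
        have h10 : m₀ * X₀ * c * X ≤ 4 * (L / 8) :=
          mul_le_mul hc3 hXL hXp.le (by norm_num)
        calc X₀ * (m₀ * (1 + c * X)) = m₀ * X₀ + m₀ * X₀ * c * X := by ring
          _ ≤ L := by linarith
      have hℓ1 : m₀ * (1 + c * X) * ℓ ≤ L := by
        have : ℓ ≤ L / (m₀ * (1 + c * X)) := hℓ ▸ min_le_left _ _
        rw [le_div_iff₀ hden] at this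
        linarith
      have hℓ0 : 0 < ℓ := by linarith
      have h5 := hpt t ht ℓ hℓX hℓ1
      refine h5.trans (Real.exp_le_exp.2 ?_)
      have hxx : Real.exp ℓ ≤ L := by
        calc Real.exp ℓ ≤ Real.exp (Real.log L) := Real.exp_le_exp.2 (hℓ ▸ min_le_right _ _)
          _ = L := Real.exp_log hL0
      have hx2 : 2 ≤ Real.exp ℓ := by
        have := Real.add_one_le_exp ℓ
        linarith
      have h6 := (h3 (v (Real.exp ℓ)) (Real.exp ℓ) t (hvle _) hx2).2.2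
      have h7 : Real.sqrt (Real.exp ℓ) ≤ Real.sqrt L := Real.sqrt_le_sqrt hxx
      have h8 : L / ℓ ≤ (2 * m₀ + 1) * X := by
        rcases min_choice (L / (m₀ * (1 + c * X))) (Real.log L) with h | h
        · have h9 : L / ℓ = m₀ * (1 + c * X) := by
            rw [hℓ, h]
            field_simp
          rw [h9]
          have h10 : c * X ≤ 1 * X := mul_le_mul_of_nonneg_right hc1 hXp.le
          calc m₀ * (1 + c * X) ≤ m₀ * (X + 1 * X) :=
                mul_le_mul_of_nonneg_left (by linarith) hm0.le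
            _ ≤ (2 * m₀ + 1) * X := by linarith
        · have h9 : L / ℓ = L / Real.log L := by rw [hℓ, h]
          rw [h9]
          refine hη.trans ?_
          have h10 : 0 ≤ 2 * m₀ * X := by positivity
          linarith
      have h9 := mul_le_mul_of_nonneg_left h8 hK
      have h10 : (1 + K * (2 * m₀ + 1)) * X = X + K * ((2 * m₀ + 1) * X) := by ring
      rw [h10]
      linarith
    have hfin : volume (GG T (c * X) C₀ ∩
        {t : ℝ | t ∈ Icc T (2 * T) ∧ κ / 2 * X < ‖Dx (v x) x t‖}) < ⊤ := by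
      refine lt_of_le_of_lt (measure_mono (t := Icc T (2 * T)) fun t ht => ht.2.1) ?_
      rw [Real.volume_Icc]
      exact ENNReal.ofReal_lt_top
    have h5 := norm_setIntegral_le_of_norm_le_const (μ := volume)
      (f := fun t : ℝ => ‖riemannZeta (sp η t)‖ ^ (2 * (k + 1))) (C := Real.exp (B' * X)) hfin (by
      intro t ht
      rw [Real.norm_of_nonneg (by positivity)]
      calc ‖riemannZeta (sp η t)‖ ^ (2 * (k + 1)) ≤
          Real.exp ((1 + K * (2 * m₀ + 1)) * X) ^ (2 * (k + 1)) :=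
            pow_le_pow_left₀ (norm_nonneg _) (hzeta t ht.1) _
        _ = Real.exp (B' * X) := by
            rw [← Real.exp_nat_mul, hB']
            congr 1
            push_cast
            ring)
    have h6 : (volume.real (GG T (c * X) C₀ ∩
        {t : ℝ | t ∈ Icc T (2 * T) ∧ κ / 2 * X < ‖Dx (v x) x t‖})) ≤
        T * Real.exp (-((B' + 1) * X)) := by
      refine le_trans ?_ hFv
      refine measureReal_mono inter_subset_right ?_
      refine ne_of_lt (lt_of_le_of_lt (measure_mono (t := Icc T (2 * T)) fun t ht => ht.1) ?_)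
      rw [Real.volume_Icc]
      exact ENNReal.ofReal_lt_top
    calc _ ≤ ‖∫ t in GG T (c * X) C₀ ∩ {t : ℝ | t ∈ Icc T (2 * T) ∧ κ / 2 * X < ‖Dx (v x) x t‖},
          ‖riemannZeta (sp η t)‖ ^ (2 * (k + 1))‖ := Real.le_norm_self _
      _ ≤ _ := h5
      _ ≤ Real.exp (B' * X) * (T * Real.exp (-((B' + 1) * X))) :=
          mul_le_mul_of_nonneg_left h6 (Real.exp_pos _).le
      _ = T * Real.exp (-X) := by
          rw [mul_left_comm, ← Real.exp_add]
          congr 2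
          ring

end Pool.Agent.Work.MP_56b8f5_nt.HN
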