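import Pool.Agent.Work.MP_56b8f5_nt.HN.StmtsY

/-!
MP_56b8f5_nt, block HN, item YPm: moments of the prime polynomial.
-/

set_option autoImplicit false

open MeasureTheory Set Filter Topology

noncomputable section

namespace Pool.Agent.Work.MP_56b8f5_nt.HN

open Pool.Agent.Work.MP_56b8f5_nt.EM Pool.Agent.Work.MP_56b8f5_nt.WM Pool.Agent.Work.MP_56b8f5_nt.SH
open Pool.Agent.Work.MP_56b8f5_nt.HZ

namespace AuxYPm

/-- The coefficients of the `m`-th power of the prime polynomial. -/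
def cf (v : ℕ → ℝ) (z : ℕ) : ℕ → ℕ → ℝ
  | 0, n => if n = 1 then 1 else 0
  | m + 1, n => ∑ p ∈ pr z, if p ∣ n then v p * cf v z m (n / p) else 0

theorem mem_pr {z p : ℕ} (h : p ∈ pr z) : p.Prime ∧ p ≤ z := by
  unfold pr at h
  rw [Finset.mem_filter, Finset.mem_range] at h
  exact ⟨h.2, by omega⟩

theorem cf_nonneg {v : ℕ → ℝ} (hv : ∀ n, 0 ≤ v n) (z : ℕ) : ∀ m n, 0 ≤ cf v z m n := by
  intro m
  induction m with
  | zero =>
    intro n
    show 0 ≤ (if n = 1 then (1 : ℝ) else 0)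
    split_ifs <;> norm_num
  | succ m ih =>
    intro n
    show 0 ≤ ∑ p ∈ pr z, (if p ∣ n then v p * cf v z m (n / p) else 0)
    refine Finset.sum_nonneg fun p _ => ?_
    split_ifs
    · exact mul_nonneg (hv p) (ih _)
    · exact le_rfl

theorem cf_supp (v : ℕ → ℝ) (z : ℕ) : ∀ m n, cf v z m n ≠ 0 →
    1 ≤ n ∧ n ≤ z ^ m ∧ ArithmeticFunction.cardFactors n = m := by
  intro m
  induction m with
  | zero =>
    intro n h
    have h1 : n = 1 := by
      by_contra hc
      exact h (if_neg hc)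
    subst h1
    refine ⟨le_rfl, by simp, ?_⟩
    simp
  | succ m ih =>
    intro n h
    have h0 : ∑ p ∈ pr z, (if p ∣ n then v p * cf v z m (n / p) else 0) ≠ 0 := h
    obtain ⟨p, hp, hne⟩ := Finset.exists_ne_zero_of_sum_ne_zero h0
    have hpn : p ∣ n := by
      by_contra hc
      exact hne (if_neg hc)
    rw [if_pos hpn] at hne
    have hc := right_ne_zero_of_mul hne
    obtain ⟨h1, h2, h3⟩ := ih _ hc
    obtain ⟨hpp, hpz⟩ := mem_pr hp
    have e : n = p * (n / p) := (Nat.mul_div_cancel' hpn).symm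
    refine ⟨?_, ?_, ?_⟩
    · rw [e]
      exact Nat.mul_pos hpp.pos h1
    · rw [e, pow_succ, mul_comm]
      exact Nat.mul_le_mul h2 hpz
    · rw [e, ArithmeticFunction.cardFactors_mul hpp.ne_zero (by omega), h3,
        ArithmeticFunction.cardFactors_apply_prime hpp]
      omega

theorem cf_le {v : ℕ → ℝ} (hv : ∀ n, 0 ≤ v n ∧ v n ≤ 1) (z : ℕ) :
    ∀ m n, cf v z m n ≤ (m.factorial : ℝ) := by
  intro m
  induction m with
  | zero =>
    intro n
    show (if n = 1 then (1 : ℝ) else 0) ≤ _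
    split_ifs <;> norm_num
  | succ m ih =>
    intro n
    by_cases h : cf v z (m + 1) n = 0
    · rw [h]
      positivity
    obtain ⟨h1, h2, h3⟩ := cf_supp v z (m + 1) n h
    have hle : cf v z (m + 1) n ≤ ∑ p ∈ pr z, (if p ∣ n then (m.factorial : ℝ) else 0) := by
      show ∑ p ∈ pr z, (if p ∣ n then v p * cf v z m (n / p) else 0) ≤ _
      refine Finset.sum_le_sum fun p _ => ?_
      split_ifs
      · calc v p * cf v z m (n / p) ≤ 1 * cf v z m (n / p) :=
              mul_le_mul_of_nonneg_right (hv p).2 (cf_nonneg (fun k => (hv k).1) z m _)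
          _ ≤ _ := by
              rw [one_mul]
              exact ih _
      · exact le_rfl
    refine hle.trans ?_
    rw [← Finset.sum_filter, Finset.sum_const, nsmul_eq_mul, Nat.factorial_succ, Nat.cast_mul]
    refine mul_le_mul_of_nonneg_right ?_ (by positivity)
    rw [← h3]
    have hsub : (pr z).filter (fun p => p ∣ n) ⊆ n.primeFactors := by
      intro p hp
      rw [Finset.mem_filter] at hp
      rw [Nat.mem_primeFactors]
      exact ⟨(mem_pr hp.1).1, hp.2, by omega⟩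
    have hcard : n.primeFactors.card ≤ ArithmeticFunction.cardFactors n := by
      have := ArithmeticFunction.cardDistinctFactors_apply (n := n)
      rw [ArithmeticFunction.cardFactors_apply]
      unfold Nat.primeFactors
      exact List.toFinset_card_le _
    exact_mod_cast (Finset.card_le_card hsub).trans hcard

theorem cf_sum (v : ℕ → ℝ) (z : ℕ) (χ : ℕ → ℂ) (h1 : χ 1 = 1)
    (hmul : ∀ a b : ℕ, 1 ≤ a → 1 ≤ b → χ (a * b) = χ a * χ b) : ∀ m : ℕ,
    ∑ n ∈ Finset.Icc 1 (z ^ m), (cf v z m n : ℂ) * χ n = (∑ p ∈ pr z, (v p : ℂ) * χ p) ^ m := by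
  intro m
  induction m with
  | zero =>
    rw [pow_zero, pow_zero, Finset.Icc_self, Finset.sum_singleton, h1, mul_one]
    show (((if (1 : ℕ) = 1 then (1 : ℝ) else 0) : ℝ) : ℂ) = 1
    rw [if_pos rfl]
    norm_num
  | succ m ih =>
    have key : ∀ p ∈ pr z, ∑ n ∈ Finset.Icc 1 (z ^ (m + 1)),
        ((if p ∣ n then v p * cf v z m (n / p) else 0 : ℝ) : ℂ) * χ n =
        ((v p : ℂ) * χ p) * ∑ k ∈ Finset.Icc 1 (z ^ m), (cf v z m k : ℂ) * χ k := by
      intro p hp
      obtain ⟨hpp, hpz⟩ := mem_pr hp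
      rw [Finset.mul_sum]
      symm
      have hinj : Set.InjOn (fun k : ℕ => p * k) (Finset.Icc 1 (z ^ m) : Finset ℕ) := by
        intro a _ b _ hab
        exact Nat.eq_of_mul_eq_mul_left hpp.pos hab
      have himg : ∑ n ∈ (Finset.Icc 1 (z ^ m)).image (fun k : ℕ => p * k),
          ((if p ∣ n then v p * cf v z m (n / p) else 0 : ℝ) : ℂ) * χ n =
          ∑ k ∈ Finset.Icc 1 (z ^ m), (v p : ℂ) * χ p * ((cf v z m k : ℂ) * χ k) := by
        rw [Finset.sum_image hinj]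
        refine Finset.sum_congr rfl fun k hk => ?_
        rw [Finset.mem_Icc] at hk
        rw [if_pos (Dvd.intro k rfl), Nat.mul_div_cancel_left k hpp.pos,
          hmul p k hpp.pos hk.1]
        push_cast
        ring
      rw [← himg]
      refine Finset.sum_subset ?_ ?_
      · intro n hn
        rw [Finset.mem_image] at hn
        obtain ⟨k, hk, rfl⟩ := hn
        rw [Finset.mem_Icc] at hk ⊢
        refine ⟨Nat.mul_pos hpp.pos hk.1, ?_⟩
        show p * k ≤ z ^ (m + 1)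
        rw [pow_succ, mul_comm]
        exact Nat.mul_le_mul hk.2 hpz
      · intro n _ hn
        by_cases hpn : p ∣ n
        · rw [if_pos hpn]
          have hz : cf v z m (n / p) = 0 := by
            by_contra hc
            obtain ⟨a1, a2, _⟩ := cf_supp v z m _ hc
            refine hn (Finset.mem_image.2 ⟨n / p, Finset.mem_Icc.2 ⟨a1, a2⟩, ?_⟩)
            exact Nat.mul_div_cancel' hpn
          rw [hz]
          simp
        · rw [if_neg hpn]
          simp
    calc ∑ n ∈ Finset.Icc 1 (z ^ (m + 1)), (cf v z (m + 1) n : ℂ) * χ n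
        = ∑ n ∈ Finset.Icc 1 (z ^ (m + 1)), ∑ p ∈ pr z,
          ((if p ∣ n then v p * cf v z m (n / p) else 0 : ℝ) : ℂ) * χ n := by
          refine Finset.sum_congr rfl fun n _ => ?_
          show ((∑ p ∈ pr z, (if p ∣ n then v p * cf v z m (n / p) else 0) : ℝ) : ℂ) * χ n = _
          rw [Complex.ofReal_sum, Finset.sum_mul]
      _ = ∑ p ∈ pr z, ((v p : ℂ) * χ p) * ∑ k ∈ Finset.Icc 1 (z ^ m), (cf v z m k : ℂ) * χ k := by
          rw [Finset.sum_comm]
          exact Finset.sum_congr rfl key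
      _ = _ := by
          rw [← Finset.sum_mul, ih, pow_succ, mul_comm]

theorem pow_eq (v : ℕ → ℝ) (z m : ℕ) (t : ℝ) : Pm v z t ^ m = De (z ^ m) (cf v z m) t := by
  unfold Pm De Ds
  rw [← cf_sum v z (fun n => (n : ℂ) ^ (-(1 / 2 + t * Complex.I)))]
  · simp
  · intro a b _ _
    show ((a * b : ℕ) : ℂ) ^ _ = _
    rw [Nat.cast_mul, Complex.natCast_mul_natCast_cpow]

theorem sum_div (v : ℕ → ℝ) (z m : ℕ) :
    ∑ n ∈ Finset.Icc 1 (z ^ m), cf v z m n / (n : ℝ) = (∑ p ∈ pr z, v p / (p : ℝ)) ^ m := by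
  have h := cf_sum v z (fun n => ((n : ℂ))⁻¹) (by simp) (by
    intro a b _ _
    show (((a * b : ℕ) : ℂ))⁻¹ = _
    rw [Nat.cast_mul, mul_inv]) m
  have h2 : ((∑ n ∈ Finset.Icc 1 (z ^ m), cf v z m n / (n : ℝ) : ℝ) : ℂ) =
      (((∑ p ∈ pr z, v p / (p : ℝ)) ^ m : ℝ) : ℂ) := by
    push_cast
    simp only [div_eq_mul_inv]
    exact h
  exact_mod_cast h2

end AuxYPm

theorem YPm_pf (h : S_MvN) : S_YPm := by
  intro m z v T hT hz hv hlen
  have hint : ∫ t in T..(2 * T), ‖Pm v z t‖ ^ (2 * m) =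
      ∫ t in T..(2 * T), ‖De (z ^ m) (AuxYPm.cf v z m) t‖ ^ 2 := by
    refine intervalIntegral.integral_congr fun t _ => ?_
    show ‖Pm v z t‖ ^ (2 * m) = ‖De (z ^ m) (AuxYPm.cf v z m) t‖ ^ 2
    rw [← AuxYPm.pow_eq, norm_pow, ← pow_mul, mul_comm]
  rw [hint]
  have hM := h T (2 * T) (z ^ m) (AuxYPm.cf v z m) (by linarith)
  have hM2 := (abs_le.1 hM).2
  have hc0 := AuxYPm.cf_nonneg (fun n => (hv n).1) z m
  have hsq : ∑ n ∈ Finset.Icc 1 (z ^ m), AuxYPm.cf v z m n ^ 2 / (n : ℝ) ≤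
      (m.factorial : ℝ) * WM.S1 z ^ m := by
    calc ∑ n ∈ Finset.Icc 1 (z ^ m), AuxYPm.cf v z m n ^ 2 / (n : ℝ)
        ≤ ∑ n ∈ Finset.Icc 1 (z ^ m), (m.factorial : ℝ) * (AuxYPm.cf v z m n / (n : ℝ)) := by
          refine Finset.sum_le_sum fun n _ => ?_
          rw [sq, mul_div_assoc]
          exact mul_le_mul_of_nonneg_right (AuxYPm.cf_le hv z m n) (div_nonneg (hc0 n) (Nat.cast_nonneg n))
      _ = (m.factorial : ℝ) * (∑ p ∈ pr z, v p / (p : ℝ)) ^ m := by
          rw [← Finset.mul_sum, AuxYPm.sum_div]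
      _ ≤ _ := by
          refine mul_le_mul_of_nonneg_left ?_ (by positivity)
          refine pow_le_pow_left₀ (Finset.sum_nonneg fun p _ => div_nonneg (hv p).1 (Nat.cast_nonneg p)) ?_ m
          unfold WM.S1
          refine Finset.sum_le_sum fun p _ => ?_
          exact div_le_div_of_nonneg_right (hv p).2 (Nat.cast_nonneg p)
  have hS0 : 0 ≤ ∑ n ∈ Finset.Icc 1 (z ^ m), AuxYPm.cf v z m n ^ 2 / (n : ℝ) :=
    Finset.sum_nonneg fun n _ => div_nonneg (sq_nonneg _) (Nat.cast_nonneg n)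
  calc ∫ t in T..(2 * T), ‖De (z ^ m) (AuxYPm.cf v z m) t‖ ^ 2
      ≤ (2 * T - T + 2 * ((z ^ m : ℕ) : ℝ) ^ 2) *
        ∑ n ∈ Finset.Icc 1 (z ^ m), AuxYPm.cf v z m n ^ 2 / (n : ℝ) := by
        rw [add_mul]
        linarith
    _ ≤ (3 * T) * ∑ n ∈ Finset.Icc 1 (z ^ m), AuxYPm.cf v z m n ^ 2 / (n : ℝ) :=
        mul_le_mul_of_nonneg_right (by linarith) hS0
    _ ≤ (3 * T) * ((m.factorial : ℝ) * WM.S1 z ^ m) :=
        mul_le_mul_of_nonneg_left hsq (by linarith)

end Pool.Agent.Work.MP_56b8f5_nt.HN
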