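import Pool.Agent.Work.MP_56b8f5_nt.HN.StmtsX

/-!
MP_56b8f5_nt, block HN, item ShF: the formula for shifted moments.
-/

set_option autoImplicit false

open MeasureTheory Set Filter Topology

noncomputable section

namespace Pool.Agent.Work.MP_56b8f5_nt.HN

open Pool.Agent.Work.MP_56b8f5_nt.EM Pool.Agent.Work.MP_56b8f5_nt.WM Pool.Agent.Work.MP_56b8f5_nt.SH
open Pool.Agent.Work.MP_56b8f5_nt.HZ

namespace AuxShF

theorem zc (σ : ℝ) (hσ : σ ≤ 5 / 8) : Continuous fun t : ℝ => riemannZeta (σ + t * Complex.I) := by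
  rw [continuous_iff_continuousAt]
  intro t
  have h : (σ : ℂ) + t * Complex.I ≠ 1 := by
    intro h
    have h1 := congrArg Complex.re h
    simp at h1
    linarith
  have hc : Continuous fun t : ℝ => (σ : ℂ) + t * Complex.I := by fun_prop
  exact (differentiableAt_riemannZeta h).continuousAt.comp
    (f := fun t : ℝ => (σ : ℂ) + t * Complex.I) hc.continuousAt

theorem zcp {k : ℕ} (σ : ℝ) (hσ : σ ≤ 5 / 8) (x : Fin k → ℝ) :
    Continuous fun t : ℝ => ∏ j, riemannZeta (σ + (t + x j : ℝ) * Complex.I) := by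
  refine continuous_finsetProd _ fun j _ => ?_
  exact (zc σ hσ).comp (continuous_id.add continuous_const)

theorem cPX {k : ℕ} (T σ : ℝ) (x : Fin k → ℝ) : Continuous fun t : ℝ => PX T σ x t := by
  unfold PX
  refine continuous_finsetSum _ fun n hn => ?_
  have hn1 : (n : ℂ) ≠ 0 := by
    have := (Finset.mem_Icc.1 hn).1
    exact_mod_cast (by omega : n ≠ 0)
  have h1 : Continuous fun t : ℝ => -((σ : ℂ) + t * Complex.I) := by fun_prop
  exact continuous_const.mul (h1.const_cpow (Or.inl hn1))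

theorem ion {F : Type} [NormedAddCommGroup F] {φ : ℝ → F} (hφ : Continuous φ) {E : Set ℝ} {T : ℝ}
    (hE : E ⊆ Icc 0 T) : IntegrableOn φ E := (hφ.continuousOn.integrableOn_Icc).mono_set hE

/-- Cauchy-Schwarz on a set. -/
theorem cs {E : Set ℝ} {T : ℝ} (hET : E ⊆ Icc 0 T) {f g : ℝ → ℂ} (hf : Continuous f)
    (hg : Continuous g) {a b R : ℝ} (hR : 0 ≤ R) (ha : ∫ t in E, ‖f t‖ ^ 2 ≤ a)
    (hb : ∫ t in E, ‖g t‖ ^ 2 ≤ b) (hab : a * b ≤ R ^ 2) :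
    ‖∫ t in E, f t * (starRingEnd ℂ) (g t)‖ ≤ R := by
  set F : ℝ := ∫ t in E, ‖f t‖ ^ 2 with hF
  set G : ℝ := ∫ t in E, ‖g t‖ ^ 2 with hG
  set H : ℝ := ∫ t in E, ‖f t‖ * ‖g t‖ with hH
  have h1 : ‖∫ t in E, f t * (starRingEnd ℂ) (g t)‖ ≤ H := by
    refine (norm_integral_le_integral_norm _).trans (le_of_eq ?_)
    refine integral_congr_ae (ae_of_all _ fun t => ?_)
    show ‖f t * (starRingEnd ℂ) (g t)‖ = ‖f t‖ * ‖g t‖
    rw [norm_mul, RCLike.norm_conj]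
  have hF0 : 0 ≤ F := integral_nonneg fun t => by positivity
  have hG0 : 0 ≤ G := integral_nonneg fun t => by positivity
  have i1 : IntegrableOn (fun t => ‖f t‖ ^ 2) E := ion (hf.norm.pow 2) hET
  have i2 : IntegrableOn (fun t => ‖g t‖ ^ 2) E := ion (hg.norm.pow 2) hET
  have i3 : IntegrableOn (fun t => ‖f t‖ * ‖g t‖) E := ion (hf.norm.mul hg.norm) hET
  have h2 : ∀ x : ℝ, 0 ≤ G * (x * x) + (-2 * H) * x + F := by
    intro x
    have e1 : ∫ t in E, (‖f t‖ - x * ‖g t‖) ^ 2 = G * (x * x) + (-2 * H) * x + F := by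
      have e2 : ∀ t, (‖f t‖ - x * ‖g t‖) ^ 2 =
          (x * x) * ‖g t‖ ^ 2 + (-2 * x) * (‖f t‖ * ‖g t‖) + ‖f t‖ ^ 2 := by
        intro t
        ring
      have j2 : IntegrableOn (fun t => (x * x) * ‖g t‖ ^ 2) E := i2.const_mul _
      have j3 : IntegrableOn (fun t => (-2 * x) * (‖f t‖ * ‖g t‖)) E := i3.const_mul _
      have j23 : IntegrableOn (fun t => (x * x) * ‖g t‖ ^ 2 + (-2 * x) * (‖f t‖ * ‖g t‖)) E :=
        j2.add j3
      simp only [e2]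
      rw [integral_add j23 i1, integral_add j2 j3, integral_const_mul, integral_const_mul]
      ring
    rw [← e1]
    exact integral_nonneg fun t => by positivity
  have h3 := discrim_le_zero h2
  unfold discrim at h3
  have h4 : H ^ 2 ≤ F * G := by nlinarith
  have h5 : F * G ≤ a * b := mul_le_mul ha hb hG0 (hF0.trans ha)
  have h6 : H ≤ R := by
    by_contra hcon
    push Not at hcon
    nlinarith
  exact h1.trans h6

/-- the integral over a covered set -/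
theorem cover {ι : Type} (s : Finset ι) {D : Set ℝ} {B : ι → Set ℝ} {T : ℝ} (hD : MeasurableSet D)
    (hDT : D ⊆ Icc 0 T) (hB : ∀ i ∈ s, MeasurableSet (B i)) (hBT : ∀ i ∈ s, B i ⊆ Icc 0 T)
    (hcov : ∀ t ∈ D, ∃ i ∈ s, t ∈ B i) {φ : ℝ → ℝ} (hφ : Continuous φ) (hφ0 : ∀ t, 0 ≤ φ t) :
    ∫ t in D, φ t ≤ ∑ i ∈ s, ∫ t in B i, φ t := by
  rw [← integral_indicator hD]
  have e1 : ∑ i ∈ s, ∫ t in B i, φ t = ∑ i ∈ s, ∫ t, (B i).indicator φ t :=
    Finset.sum_congr rfl fun i hi => (integral_indicator (hB i hi)).symm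
  have i1 : ∀ i ∈ s, Integrable (fun t => (B i).indicator φ t) := fun i hi =>
    (ion hφ (hBT i hi)).integrable_indicator (hB i hi)
  rw [e1, ← integral_finsetSum s i1]
  refine integral_mono ((ion hφ hDT).integrable_indicator hD) (integrable_finsetSum s i1) fun t => ?_
  have h0 : ∀ i ∈ s, 0 ≤ (B i).indicator φ t := fun i _ => indicator_nonneg (fun t _ => hφ0 t) t
  by_cases ht : t ∈ D
  · obtain ⟨i, hi, hti⟩ := hcov t ht
    show D.indicator φ t ≤ ∑ i ∈ s, (B i).indicator φ t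
    rw [indicator_of_mem ht]
    calc φ t = (B i).indicator φ t := (indicator_of_mem hti φ).symm
      _ ≤ ∑ i ∈ s, (B i).indicator φ t := Finset.single_le_sum h0 hi
  · show D.indicator φ t ≤ ∑ i ∈ s, (B i).indicator φ t
    rw [indicator_of_notMem ht]
    exact Finset.sum_nonneg h0

theorem sqb {K s : ℝ} (hK : 1 ≤ K) (hs : 0 ≤ s) : K * s ≤ K ^ 2 * s := by
  apply mul_le_mul_of_nonneg_right _ hs
  nlinarith

theorem sqa (w q : ℂ) : ‖w‖ ^ 2 ≤ 2 * ‖w - q‖ ^ 2 + 2 * ‖q‖ ^ 2 := by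
  have e2 : ‖w‖ ≤ ‖w - q‖ + ‖q‖ := by
    calc ‖w‖ = ‖w - q + q‖ := by rw [sub_add_cancel]
      _ ≤ _ := norm_add_le _ _
  have e3 := norm_nonneg w
  nlinarith [sq_nonneg (‖w - q‖ - ‖q‖)]

theorem tw {T f S : ℝ} (hf : 2 * f ^ 2 ≤ T) (hS : 0 ≤ S) : (T - 0 + 2 * f ^ 2) * S ≤ 2 * (T * S) := by
  calc (T - 0 + 2 * f ^ 2) * S ≤ (2 * T) * S := mul_le_mul_of_nonneg_right (by linarith) hS
    _ = 2 * (T * S) := by ring

theorem toE {T : ℝ} (hT0 : 0 ≤ T) {f : ℝ → ℂ} (hf : Continuous f) {E' : Set ℝ}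
    (hE' : E' ⊆ Icc 0 T) : ∫ t in E', ‖f t‖ ^ 2 ≤ ∫ t in (0 : ℝ)..T, ‖f t‖ ^ 2 := by
  rw [intervalIntegral.integral_of_le hT0, ← integral_Icc_eq_integral_Ioc]
  exact setIntegral_mono_set (ion (hf.norm.pow 2) subset_rfl)
    (ae_of_all _ fun t => sq_nonneg _) (LE.le.eventuallyLE hE')

theorem monoE {T : ℝ} {f : ℝ → ℂ} (hf : Continuous f) {E E' : Set ℝ}
    (hE' : E' ⊆ Icc 0 T) (h : E ⊆ E') : ∫ t in E, ‖f t‖ ^ 2 ≤ ∫ t in E', ‖f t‖ ^ 2 :=
  setIntegral_mono_set (ion (hf.norm.pow 2) hE')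
    (ae_of_all _ fun t => sq_nonneg _) (LE.le.eventuallyLE h)

theorem dbl {T : ℝ} {f g : ℝ → ℂ} (hf : Continuous f) (hg : Continuous g) {E : Set ℝ}
    (hEm : MeasurableSet E) (hET : E ⊆ Icc 0 T) : ∫ t in E, ‖f t‖ ^ 2 ≤
      2 * (∫ t in E, ‖f t - g t‖ ^ 2) + 2 * ∫ t in E, ‖g t‖ ^ 2 := by
  have i1 : IntegrableOn (fun t => 2 * ‖f t - g t‖ ^ 2) E :=
    ion (continuous_const.mul ((hf.sub hg).norm.pow 2)) hET
  have i2 : IntegrableOn (fun t => 2 * ‖g t‖ ^ 2) E :=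
    ion (continuous_const.mul (hg.norm.pow 2)) hET
  have e1 : ∫ t in E, ‖f t‖ ^ 2 ≤ ∫ t in E, (2 * ‖f t - g t‖ ^ 2 + 2 * ‖g t‖ ^ 2) :=
    setIntegral_mono_on (ion (hf.norm.pow 2) hET) (i1.add i2) hEm fun t _ => sqa (f t) (g t)
  rw [integral_add i1 i2, integral_const_mul, integral_const_mul] at e1
  exact e1

/-- the decomposition of the integral -/
theorem deco {T : ℝ} (hT0 : 0 ≤ T) {p q z w : ℝ → ℂ} (cp : Continuous p) (cq : Continuous q)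
    (cz : Continuous z) (cw : Continuous w) {E : Set ℝ} (hEm : MeasurableSet E)
    (hET : E ⊆ Icc 0 T) (M : ℂ) :
    (∫ t in E, z t * (starRingEnd ℂ) (w t)) - M =
      (∫ t in E, (z t - p t) * (starRingEnd ℂ) (w t)) +
      (∫ t in E, p t * (starRingEnd ℂ) (w t - q t)) -
      (∫ t in Icc 0 T \ E, p t * (starRingEnd ℂ) (q t)) +
      ((∫ t in (0 : ℝ)..T, p t * (starRingEnd ℂ) (q t)) - M) := by
  have i4 : IntegrableOn (fun t => (z t - p t) * (starRingEnd ℂ) (w t)) E :=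
    ion ((cz.sub cp).mul (Complex.continuous_conj.comp cw)) hET
  have i5 : IntegrableOn (fun t => p t * (starRingEnd ℂ) (w t - q t)) E :=
    ion (cp.mul (Complex.continuous_conj.comp (cw.sub cq))) hET
  have i6 : IntegrableOn (fun t => p t * (starRingEnd ℂ) (q t)) E :=
    ion (cp.mul (Complex.continuous_conj.comp cq)) hET
  have i7 : IntegrableOn (fun t => p t * (starRingEnd ℂ) (q t)) (Icc 0 T) :=
    ion (cp.mul (Complex.continuous_conj.comp cq)) subset_rfl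
  have i8 : IntegrableOn (fun t => (z t - p t) * (starRingEnd ℂ) (w t) +
      p t * (starRingEnd ℂ) (w t - q t)) E := i4.add i5
  have t1 : ∫ t in E, z t * (starRingEnd ℂ) (w t) =
      (∫ t in E, (z t - p t) * (starRingEnd ℂ) (w t)) +
      (∫ t in E, p t * (starRingEnd ℂ) (w t - q t)) + ∫ t in E, p t * (starRingEnd ℂ) (q t) := by
    rw [← integral_add i4 i5, ← integral_add i8 i6]
    refine integral_congr_ae (ae_of_all _ fun t => ?_)
    show z t * (starRingEnd ℂ) (w t) = (z t - p t) * (starRingEnd ℂ) (w t) +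
      p t * (starRingEnd ℂ) (w t - q t) + p t * (starRingEnd ℂ) (q t)
    rw [map_sub]
    ring
  have t2 : ∫ t in (0 : ℝ)..T, p t * (starRingEnd ℂ) (q t) =
      (∫ t in E, p t * (starRingEnd ℂ) (q t)) +
        ∫ t in Icc 0 T \ E, p t * (starRingEnd ℂ) (q t) := by
    rw [intervalIntegral.integral_of_le hT0, ← integral_Icc_eq_integral_Ioc,
      ← integral_inter_add_sdiff hEm i7, inter_eq_self_of_subset_right hET]
  rw [t1, t2]
  ring

theorem n1 {Ca Cb δ T Sk Sl r : ℝ} (hCa : 1 ≤ Ca) (hCb : 1 ≤ Cb) (hSk : 0 ≤ Sk) (hSl : 0 ≤ Sl)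
    (hrr : r ^ 2 = Sk * Sl) : Ca * δ ^ 2 * (T * Sk) * ((2 * Cb + 4) * (T * Sl)) ≤
      (Ca * (2 * Cb + 4) * (δ * (T * r))) ^ 2 := by
  have h := sqb (K := Ca * (2 * Cb + 4)) (s := δ ^ 2 * (T ^ 2 * (Sk * Sl))) (by nlinarith)
    (by positivity)
  calc Ca * δ ^ 2 * (T * Sk) * ((2 * Cb + 4) * (T * Sl)) =
      Ca * (2 * Cb + 4) * (δ ^ 2 * (T ^ 2 * (Sk * Sl))) := by ring
    _ ≤ (Ca * (2 * Cb + 4)) ^ 2 * (δ ^ 2 * (T ^ 2 * (Sk * Sl))) := h
    _ = (Ca * (2 * Cb + 4) * (δ * (T * r))) ^ 2 := by rw [← hrr]; ring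

theorem n2 {Cb δ T Sk Sl r : ℝ} (hCb : 1 ≤ Cb) (hSk : 0 ≤ Sk) (hSl : 0 ≤ Sl)
    (hrr : r ^ 2 = Sk * Sl) : 2 * (T * Sk) * (Cb * δ ^ 2 * (T * Sl)) ≤
      (2 * Cb * (δ * (T * r))) ^ 2 := by
  have h := sqb (K := 2 * Cb) (s := δ ^ 2 * (T ^ 2 * (Sk * Sl))) (by linarith)
    (by positivity)
  calc 2 * (T * Sk) * (Cb * δ ^ 2 * (T * Sl)) = 2 * Cb * (δ ^ 2 * (T ^ 2 * (Sk * Sl))) := by ring
    _ ≤ (2 * Cb) ^ 2 * (δ ^ 2 * (T ^ 2 * (Sk * Sl))) := h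
    _ = (2 * Cb * (δ * (T * r))) ^ 2 := by rw [← hrr]; ring

theorem n3 {n Cc Cd δ T Sk Sl r : ℝ} (hCc : 1 ≤ Cc) (hCd : 1 ≤ Cd) (hSk : 0 ≤ Sk) (hSl : 0 ≤ Sl)
    (hrr : r ^ 2 = Sk * Sl) : n * (Cc * δ * (T * Sk)) * (n * (Cd * δ * (T * Sl))) ≤
      (n * (Cc * Cd) * (δ * (T * r))) ^ 2 := by
  have h := sqb (K := Cc * Cd) (s := n ^ 2 * (δ ^ 2 * (T ^ 2 * (Sk * Sl)))) (by nlinarith)
    (by positivity)
  calc n * (Cc * δ * (T * Sk)) * (n * (Cd * δ * (T * Sl))) =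
      Cc * Cd * (n ^ 2 * (δ ^ 2 * (T ^ 2 * (Sk * Sl)))) := by ring
    _ ≤ (Cc * Cd) ^ 2 * (n ^ 2 * (δ ^ 2 * (T ^ 2 * (Sk * Sl)))) := h
    _ = (n * (Cc * Cd) * (δ * (T * r))) ^ 2 := by rw [← hrr]; ring

theorem floor_bound {T : ℝ} (hT : 4 ≤ T) : 2 * (⌊T ^ (1 / 200 : ℝ)⌋₊ : ℝ) ^ 2 ≤ T := by
  have h1 : 1 ≤ T ^ (1 / 200 : ℝ) := Real.one_le_rpow (by linarith) (by norm_num)
  have h2 : (⌊T ^ (1 / 200 : ℝ)⌋₊ : ℝ) ≤ T ^ (1 / 200 : ℝ) := Nat.floor_le (by linarith)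
  have h3 : T ^ (1 / 200 : ℝ) ≤ T ^ (1 / 4 : ℝ) :=
    Real.rpow_le_rpow_of_exponent_le (by linarith) (by norm_num)
  have h4 : (T ^ (1 / 4 : ℝ)) ^ 4 = T := by
    rw [← Real.rpow_natCast, ← Real.rpow_mul (by linarith)]
    norm_num
  set u : ℝ := T ^ (1 / 4 : ℝ) with hu
  have hu0 : 0 ≤ u := by positivity
  have h5 : 2 ≤ u ^ 2 := by nlinarith
  have h6 : (⌊T ^ (1 / 200 : ℝ)⌋₊ : ℝ) ^ 2 ≤ u ^ 2 :=
    pow_le_pow_left₀ (Nat.cast_nonneg _) (h2.trans h3) 2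
  nlinarith

theorem ms_Ex {k : ℕ} {T A C : ℝ} (hZ : MeasurableSet (Zs T A C)) (x : Fin k → ℝ) :
    MeasurableSet (Ex T A C x) := by
  have e : Ex T A C x = Icc 0 T ∩ ⋂ j, (fun t : ℝ => t + x j) ⁻¹' Zs T A C := by
    ext t
    simp only [Ex, mem_ofPred_eq, mem_inter_iff, mem_Icc, mem_iInter, mem_preimage]
    tauto
  rw [e]
  refine measurableSet_Icc.inter (MeasurableSet.iInter fun j => ?_)
  exact (measurable_id.add measurable_const) hZ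

theorem ms_B {T A C : ℝ} (hZ : MeasurableSet (Zs T A C)) (w : ℝ) :
    MeasurableSet {t : ℝ | 0 ≤ t ∧ t ≤ T ∧ t + w ∉ Zs T A C} := by
  have e : {t : ℝ | 0 ≤ t ∧ t ≤ T ∧ t + w ∉ Zs T A C} =
      Icc 0 T ∩ ((fun t : ℝ => t + w) ⁻¹' Zs T A C)ᶜ := by
    ext t
    simp only [mem_ofPred_eq, mem_inter_iff, mem_Icc, mem_compl_iff, mem_preimage]
    tauto
  rw [e]
  exact measurableSet_Icc.inter ((measurable_id.add measurable_const) hZ).compl

end AuxShF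

open AuxShF in
/-- **Item ShF**: the formula for shifted moments. -/
theorem ShF_pf (h1 : S_ApX) (h2 : S_CmX) (h3 : S_MnX) (h4 : S_PxD) (h5 : S_ZsI) (h6 : S_SSb) :
    S_ShF := by
  intro k l hk hl C₀ hC₀
  obtain ⟨c₁, Ca, Ta, hc₁, hCa, hTa, HA⟩ := h1 k hk C₀ hC₀
  obtain ⟨c₂, Cb, Tb, hc₂, hCb, hTb, HB⟩ := h1 l hl C₀ hC₀
  obtain ⟨Cc, Tc, hCc, hTc, HC⟩ := h2 k hk
  obtain ⟨Cd, Td, hCd, hTd, HD⟩ := h2 l hl
  obtain ⟨Ce, Te, hCe, hTe, HE⟩ := h3 k l hk hl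
  obtain ⟨Cf, hCf, HF⟩ := h4 k
  obtain ⟨Cg, hCg, HG⟩ := h4 l
  obtain ⟨Ch, hCh, HSk⟩ := h6 k
  obtain ⟨Ci, hCi, HSl⟩ := h6 l
  set K₁ : ℝ := Ca * (2 * Cb + 4) with hK₁
  set K₂ : ℝ := 2 * Cb with hK₂
  set K₃ : ℝ := ((k : ℝ) + l) * (Cc * Cd) with hK₃
  have hK₁0 : 1 ≤ K₁ := one_le_mul_of_one_le_of_one_le hCa (by linarith)
  have hK₂0 : 1 ≤ K₂ := by rw [hK₂]; linarith
  have hkl : (0 : ℝ) ≤ (k : ℝ) + l := by positivity
  have hCcd : 1 ≤ Cc * Cd := one_le_mul_of_one_le_of_one_le hCc hCd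
  have hK₃0 : 0 ≤ K₃ := mul_nonneg hkl (by linarith)
  refine ⟨min 1 (min c₁ c₂), K₁ + K₂ + K₃ + Ce,
    max (max Ta Tb) (max (max Tc Td) (max Te 4)), lt_min one_pos (lt_min hc₁ hc₂), by linarith,
    hTa.trans ((le_max_left _ _).trans (le_max_left _ _)), ?_⟩
  intro T hT σ A hσ hA hAX hAL x y hx hy
  have hTa' : Ta ≤ T := ((le_max_left _ _).trans (le_max_left _ _)).trans hT
  have hTb' : Tb ≤ T := ((le_max_right _ _).trans (le_max_left _ _)).trans hT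
  have hT2 : max (max Tc Td) (max Te 4) ≤ T := (le_max_right _ _).trans hT
  have hTc' : Tc ≤ T := ((le_max_left _ _).trans (le_max_left _ _)).trans hT2
  have hTd' : Td ≤ T := ((le_max_right _ _).trans (le_max_left _ _)).trans hT2
  have hTe' : Te ≤ T := ((le_max_left _ _).trans (le_max_right _ _)).trans hT2
  have hT4 : 4 ≤ T := ((le_max_right _ _).trans (le_max_right _ _)).trans hT2
  have hT0 : 0 < T := by linarith
  have hlog : 0 < Real.log T := Real.log_pos (by linarith)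
  have hc0 : 0 < min 1 (min c₁ c₂) := lt_min one_pos (lt_min hc₁ hc₂)
  have hη0 : 0 < σ - 1 / 2 := by
    by_contra hcon
    have e1 : (σ - 1 / 2) * Real.log T ≤ 0 :=
      mul_nonpos_of_nonpos_of_nonneg (not_lt.1 hcon) hlog.le
    have e2 := mul_nonpos_of_nonneg_of_nonpos hc0.le e1
    linarith
  have hX0 : 0 < (σ - 1 / 2) * Real.log T := mul_pos hη0 hlog
  have hLL : 0 < Real.log T / Real.log (Real.log T) := by
    by_contra hcon
    have := mul_nonpos_of_nonneg_of_nonpos hc0.le (not_lt.1 hcon)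
    linarith
  have m0 : min 1 (min c₁ c₂) ≤ 1 := min_le_left _ _
  have m1 : min 1 (min c₁ c₂) ≤ c₁ := (min_le_right _ _).trans (min_le_left _ _)
  have m2 : min 1 (min c₁ c₂) ≤ c₂ := (min_le_right _ _).trans (min_le_right _ _)
  have aX : A ≤ (σ - 1 / 2) * Real.log T := by
    have := mul_le_mul_of_nonneg_right m0 hX0.le
    linarith
  have aX1 : A ≤ c₁ * ((σ - 1 / 2) * Real.log T) := hAX.trans (mul_le_mul_of_nonneg_right m1 hX0.le)
  have aX2 : A ≤ c₂ * ((σ - 1 / 2) * Real.log T) := hAX.trans (mul_le_mul_of_nonneg_right m2 hX0.le)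
  have aL1 : A ≤ c₁ * (Real.log T / Real.log (Real.log T)) :=
    hAL.trans (mul_le_mul_of_nonneg_right m1 hLL.le)
  have aL2 : A ≤ c₂ * (Real.log T / Real.log (Real.log T)) :=
    hAL.trans (mul_le_mul_of_nonneg_right m2 hLL.le)
  have aM1 : A ≤ c₁ * min ((σ - 1 / 2) * Real.log T) (Real.log T / Real.log (Real.log T)) := by
    rw [mul_min_of_nonneg _ _ hc₁.le]
    exact le_min aX1 aL1
  have aM2 : A ≤ c₂ * min ((σ - 1 / 2) * Real.log T) (Real.log T / Real.log (Real.log T)) := by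
    rw [mul_min_of_nonneg _ _ hc₂.le]
    exact le_min aX2 aL2
  have hη8 : σ - 1 / 2 ≤ 1 / 8 := by linarith
  have aLog : A ≤ Real.log T := by
    have := mul_le_mul_of_nonneg_right hη8 hlog.le
    linarith
  -- the series
  have eS : ∀ m : ℕ, SS m (σ - 1 / 2) = ∑' n : ℕ, dk m n ^ 2 * (n : ℝ) ^ (-(2 * σ)) := by
    intro m
    unfold SS
    refine tsum_congr fun n => ?_
    have : -(1 + 2 * (σ - 1 / 2)) = -(2 * σ) := by ring
    rw [this]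
  have hSk := (HSk (σ - 1 / 2) hη0 hη8).2.1
  have hSl := (HSl (σ - 1 / 2) hη0 hη8).2.1
  rw [eS k] at hSk
  rw [eS l] at hSl
  have HA' := HA T hTa' σ A hσ hA aX1 aL1 x hx
  have HB' := HB T hTb' σ A hσ hA aX2 aL2 y hy
  have HC' := fun w hw => HC C₀ hC₀ T hTc' σ A (by linarith) hσ hA aLog x w hw
  have HD' := fun w hw => HD C₀ hC₀ T hTd' σ A (by linarith) hσ hA aLog y w hw
  have HE' := HE T hTe' σ A hσ hA aX x y
  have HF' := (HF (σ - 1 / 2) hη0 hη8 T (by linarith) x 0 T hT0.le).1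
  have HG' := (HG (σ - 1 / 2) hη0 hη8 T (by linarith) y 0 T hT0.le).1
  have hσe : 1 / 2 + (σ - 1 / 2) = σ := by ring
  rw [hσe, eS k] at HF'
  rw [hσe, eS l] at HG'
  set Sk : ℝ := ∑' n : ℕ, dk k n ^ 2 * (n : ℝ) ^ (-(2 * σ)) with hSkd
  set Sl : ℝ := ∑' n : ℕ, dk l n ^ 2 * (n : ℝ) ^ (-(2 * σ)) with hSld
  have hfb := floor_bound hT4
  -- the functions
  set p : ℝ → ℂ := fun t => PX T σ x t with hp
  set q : ℝ → ℂ := fun t => PX T σ y t with hq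
  set z : ℝ → ℂ := fun t => ∏ j, riemannZeta (σ + (t + x j : ℝ) * Complex.I) with hz
  set w : ℝ → ℂ := fun t => ∏ j, riemannZeta (σ + (t + y j : ℝ) * Complex.I) with hw
  have cp : Continuous p := cPX T σ x
  have cq : Continuous q := cPX T σ y
  have cz : Continuous z := zcp σ hσ x
  have cw : Continuous w := zcp σ hσ y
  set δ : ℝ := Real.exp (-(A / 400)) with hδ
  have hδ0 : 0 < δ := Real.exp_pos _
  have hδ1 : δ ≤ 1 := Real.exp_le_one_iff.2 (by linarith)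
  have hδe : ∀ c' M : ℝ, A ≤ c' * M → Real.exp (-(c' * M)) ≤ δ ^ 2 := by
    intro c' M h
    rw [hδ, ← Real.exp_nat_mul]
    apply Real.exp_le_exp.2
    push_cast
    linarith
  have hZ : MeasurableSet (Zs T A C₀) := h5.1 T A C₀ (by linarith)
  set E : Set ℝ := Ex T A C₀ x ∩ Ex T A C₀ y with hE
  have hEm : MeasurableSet E := (ms_Ex hZ x).inter (ms_Ex hZ y)
  have hExT : Ex T A C₀ x ⊆ Icc 0 T := fun t ht => ⟨ht.1, ht.2.1⟩
  have hEyT : Ex T A C₀ y ⊆ Icc 0 T := fun t ht => ⟨ht.1, ht.2.1⟩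
  have hET : E ⊆ Icc 0 T := fun t ht => hExT ht.1
  set r : ℝ := Real.sqrt (Sk * Sl) with hr
  have hr0 : 0 ≤ r := Real.sqrt_nonneg _
  have hrr : r ^ 2 = Sk * Sl := Real.sq_sqrt (mul_nonneg (by linarith) (by linarith))
  -- the four mean squares
  have hTSl : 0 ≤ T * Sl := mul_nonneg hT0.le (by linarith)
  have hTSk : 0 ≤ T * Sk := mul_nonneg hT0.le (by linarith)
  have q1 : ∫ t in E, ‖z t - p t‖ ^ 2 ≤ Ca * δ ^ 2 * (T * Sk) := by
    refine ((monoE (cz.sub cp) hExT inter_subset_left).trans HA').trans ?_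
    exact mul_le_mul_of_nonneg_right (mul_le_mul_of_nonneg_left (hδe _ _ aM1) (by linarith)) hTSk
  have q2 : ∫ t in E, ‖w t - q t‖ ^ 2 ≤ Cb * δ ^ 2 * (T * Sl) := by
    refine ((monoE (cw.sub cq) hEyT inter_subset_right).trans HB').trans ?_
    exact mul_le_mul_of_nonneg_right (mul_le_mul_of_nonneg_left (hδe _ _ aM2) (by linarith)) hTSl
  have q3 : ∫ t in E, ‖p t‖ ^ 2 ≤ 2 * (T * Sk) :=
    ((toE hT0.le cp hET).trans HF').trans (tw hfb (by linarith))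
  have q4 : ∫ t in E, ‖q t‖ ^ 2 ≤ 2 * (T * Sl) :=
    ((toE hT0.le cq hET).trans HG').trans (tw hfb (by linarith))
  have q5 : ∫ t in E, ‖w t‖ ^ 2 ≤ (2 * Cb + 4) * (T * Sl) := by
    have e1 := dbl cw cq hEm hET
    have e4 : Cb * δ ^ 2 * (T * Sl) ≤ Cb * (T * Sl) := by
      have h7 : δ ^ 2 ≤ 1 := pow_le_one₀ hδ0.le hδ1
      have h8 : Cb * δ ^ 2 ≤ Cb * 1 := mul_le_mul_of_nonneg_left h7 (by linarith)
      rw [mul_one] at h8
      exact mul_le_mul_of_nonneg_right h8 hTSl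
    linarith
  -- the first two differences
  have hR : 0 ≤ δ * (T * r) := mul_nonneg hδ0.le (mul_nonneg hT0.le hr0)
  have d1 : ‖∫ t in E, (z t - p t) * (starRingEnd ℂ) (w t)‖ ≤ K₁ * (δ * (T * r)) :=
    cs hET (cz.sub cp) cw (mul_nonneg (by linarith) hR) q1 q5
      (n1 hCa hCb (by linarith) (by linarith) hrr)
  have d2 : ‖∫ t in E, p t * (starRingEnd ℂ) (w t - q t)‖ ≤ K₂ * (δ * (T * r)) :=
    cs hET cp (cw.sub cq) (mul_nonneg (by linarith) hR) q3 q2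
      (n2 hCb (by linarith) (by linarith) hrr)
  -- the complement
  set D : Set ℝ := Icc 0 T \ E with hDd
  have hDm : MeasurableSet D := measurableSet_Icc.diff hEm
  have hDT : D ⊆ Icc 0 T := fun t ht => ht.1
  set B : Fin k ⊕ Fin l → Set ℝ := fun i =>
    {t : ℝ | 0 ≤ t ∧ t ≤ T ∧ t + Sum.elim x y i ∉ Zs T A C₀} with hB
  have hxy : ∀ i : Fin k ⊕ Fin l, |Sum.elim x y i| ≤ Real.sqrt T := by
    rintro (j | j)
    · exact hx j
    · exact hy j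
  have hcov : ∀ t ∈ D, ∃ i ∈ (Finset.univ : Finset (Fin k ⊕ Fin l)), t ∈ B i := by
    intro t ht
    obtain ⟨ht1, ht2⟩ := ht
    by_contra hcon
    push Not at hcon
    apply ht2
    refine ⟨⟨ht1.1, ht1.2, fun j => ?_⟩, ⟨ht1.1, ht1.2, fun j => ?_⟩⟩
    · by_contra h
      exact hcon (Sum.inl j) (Finset.mem_univ _) ⟨ht1.1, ht1.2, h⟩
    · by_contra h
      exact hcon (Sum.inr j) (Finset.mem_univ _) ⟨ht1.1, ht1.2, h⟩
  have hBm : ∀ i ∈ (Finset.univ : Finset (Fin k ⊕ Fin l)), MeasurableSet (B i) :=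
    fun i _ => ms_B hZ _
  have hBT : ∀ i ∈ (Finset.univ : Finset (Fin k ⊕ Fin l)), B i ⊆ Icc 0 T :=
    fun i _ t ht => ⟨ht.1, ht.2.1⟩
  have hcard : ((Finset.univ : Finset (Fin k ⊕ Fin l)).card : ℝ) = (k : ℝ) + l := by
    rw [Finset.card_univ, Fintype.card_sum, Fintype.card_fin, Fintype.card_fin]
    push_cast
    ring
  have q6 : ∫ t in D, ‖p t‖ ^ 2 ≤ ((k : ℝ) + l) * (Cc * δ * (T * Sk)) := by
    refine (cover _ hDm hDT hBm hBT hcov (cp.norm.pow 2) (fun t => sq_nonneg _)).trans ?_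
    refine (Finset.sum_le_card_nsmul _ _ (Cc * δ * (T * Sk)) fun i _ => HC' _ (hxy i)).trans ?_
    rw [nsmul_eq_mul, hcard]
  have q7 : ∫ t in D, ‖q t‖ ^ 2 ≤ ((k : ℝ) + l) * (Cd * δ * (T * Sl)) := by
    refine (cover _ hDm hDT hBm hBT hcov (cq.norm.pow 2) (fun t => sq_nonneg _)).trans ?_
    refine (Finset.sum_le_card_nsmul _ _ (Cd * δ * (T * Sl)) fun i _ => HD' _ (hxy i)).trans ?_
    rw [nsmul_eq_mul, hcard]
  have d3 : ‖∫ t in D, p t * (starRingEnd ℂ) (q t)‖ ≤ K₃ * (δ * (T * r)) :=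
    cs hDT cp cq (mul_nonneg hK₃0 hR) q6 q7 (n3 hCc hCd (by linarith) (by linarith) hrr)
  show ‖(∫ t in E, z t * (starRingEnd ℂ) (w t)) -
      T * ∑' n : ℕ, dx x n * (starRingEnd ℂ) (dx y n) * (((n : ℝ) ^ (-(2 * σ)) : ℝ) : ℂ)‖ ≤
    (K₁ + K₂ + K₃ + Ce) * δ * (T * r)
  rw [deco hT0.le cp cq cz cw hEm hET]
  have HE'' : ‖(∫ t in (0 : ℝ)..T, p t * (starRingEnd ℂ) (q t)) -
      T * ∑' n : ℕ, dx x n * (starRingEnd ℂ) (dx y n) * (((n : ℝ) ^ (-(2 * σ)) : ℝ) : ℂ)‖ ≤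
      Ce * δ * (T * r) := HE'
  refine (norm_add_le _ _).trans ?_
  have n1 := norm_sub_le ((∫ t in E, (z t - p t) * (starRingEnd ℂ) (w t)) +
      (∫ t in E, p t * (starRingEnd ℂ) (w t - q t))) (∫ t in D, p t * (starRingEnd ℂ) (q t))
  have n2 := norm_add_le (∫ t in E, (z t - p t) * (starRingEnd ℂ) (w t))
      (∫ t in E, p t * (starRingEnd ℂ) (w t - q t))
  have e9 : (K₁ + K₂ + K₃ + Ce) * δ * (T * r) = K₁ * (δ * (T * r)) + K₂ * (δ * (T * r)) +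
      K₃ * (δ * (T * r)) + Ce * δ * (T * r) := by ring
  rw [e9]
  linarith

end Pool.Agent.Work.MP_56b8f5_nt.HN
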