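import Pool.Agent.Work.MP_56b8f5_nt.HN.StmtsW
import Pool.Agent.Work.MP_56b8f5_nt.HN.I_ShF

/-!
MP_56b8f5_nt, block HN, item ShW: the formula for moments at complex points.
-/

set_option autoImplicit false

open MeasureTheory Set Filter Topology

noncomputable section

namespace Pool.Agent.Work.MP_56b8f5_nt.HN

open Pool.Agent.Work.MP_56b8f5_nt.EM Pool.Agent.Work.MP_56b8f5_nt.WM Pool.Agent.Work.MP_56b8f5_nt.SH
open Pool.Agent.Work.MP_56b8f5_nt.HZ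

namespace AuxShW

theorem zc (s : ℂ) (hs : s.re ≤ 5 / 8) : Continuous fun t : ℝ => riemannZeta (s + t * Complex.I) := by
  rw [continuous_iff_continuousAt]
  intro t
  have h : s + t * Complex.I ≠ 1 := by
    intro h
    have h1 := congrArg Complex.re h
    simp at h1
    linarith
  have hc : Continuous fun t : ℝ => s + t * Complex.I := by fun_prop
  exact (differentiableAt_riemannZeta h).continuousAt.comp
    (f := fun t : ℝ => s + t * Complex.I) hc.continuousAt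

theorem zcp {k : ℕ} (s : Fin k → ℂ) (hs : ∀ j, (s j).re ≤ 5 / 8) :
    Continuous fun t : ℝ => ∏ j, riemannZeta (s j + t * Complex.I) :=
  continuous_finsetProd _ fun j _ => zc (s j) (hs j)

theorem cPW {k : ℕ} (T : ℝ) (s : Fin k → ℂ) : Continuous fun t : ℝ => PW T s t := by
  unfold PW
  refine continuous_finsetSum _ fun n hn => ?_
  have hn1 : (n : ℂ) ≠ 0 := by
    have := (Finset.mem_Icc.1 hn).1
    exact_mod_cast (by omega : n ≠ 0)
  have h1 : Continuous fun t : ℝ => -((t : ℂ) * Complex.I) := by fun_prop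
  exact continuous_const.mul (h1.const_cpow (Or.inl hn1))

theorem ms_Ew {k : ℕ} {T A C : ℝ} (hZ : MeasurableSet (Zs T A C)) (s : Fin k → ℂ) :
    MeasurableSet (Ew T A C s) := by
  have e : Ew T A C s = Icc 0 T ∩ ⋂ j, (fun t : ℝ => t + (s j).im) ⁻¹' Zs T A C := by
    ext t
    simp only [Ew, mem_ofPred_eq, mem_inter_iff, mem_Icc, mem_iInter, mem_preimage]
    tauto
  rw [e]
  refine measurableSet_Icc.inter (MeasurableSet.iInter fun j => ?_)
  exact (measurable_id.add measurable_const) hZ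

end AuxShW

open AuxShF AuxShW in
/-- **Item ShW**: the formula for moments at complex points. -/
theorem ShW_pf (h1 : S_ApW) (h2 : S_CmW) (h3 : S_MnW) (h4 : S_PwD) (h5 : S_ZsI) (h6 : S_SSb) :
    S_ShW := by
  intro k l hk hl C₀ hC₀
  obtain ⟨c₁, Ca, Ta, hc₁, hCa, hTa, HA⟩ := h1 k hk C₀ hC₀
  obtain ⟨c₂, Cb, Tb, hc₂, hCb, hTb, HB⟩ := h1 l hl C₀ hC₀
  obtain ⟨Cc, Tc, hCc, hTc, HC⟩ := h2 k hk
  obtain ⟨Cd, Td, hCd, hTd, HD⟩ := h2 l hl
  obtain ⟨Ce, Te, hCe, hTe, HE⟩ := h3 k l hk hl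
  obtain ⟨Cf, hCf, HF⟩ := h4 k
  obtain ⟨Cg, hCg, HG⟩ := h4 l
  obtain ⟨Ch, hCh, HSk⟩ := h6 k
  obtain ⟨Ci, hCi, HSl⟩ := h6 l
  set K₁ : ℝ := Ca * (2 * Cb + 4) with hK₁
  set K₂ : ℝ := 2 * Cb with hK₂
  set K₃ : ℝ := ((k : ℝ) + l) * (Cc * Cd) with hK₃
  have hK₁0 : 1 ≤ K₁ := one_le_mul_of_one_le_of_one_le hCa (by linarith)
  have hK₂0 : 1 ≤ K₂ := by rw [hK₂]; linarith
  have hkl : (0 : ℝ) ≤ (k : ℝ) + l := by positivity
  have hCcd : 1 ≤ Cc * Cd := one_le_mul_of_one_le_of_one_le hCc hCd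
  have hK₃0 : 0 ≤ K₃ := mul_nonneg hkl (by linarith)
  refine ⟨min 1 (min c₁ c₂), K₁ + K₂ + K₃ + Ce,
    max (max Ta Tb) (max (max Tc Td) (max Te 4)), lt_min one_pos (lt_min hc₁ hc₂), by linarith,
    hTa.trans ((le_max_left _ _).trans (le_max_left _ _)), ?_⟩
  intro T hT σ A hσ hA hAX hAL s₁ s₂ hr₁ hr₂ hx hy
  set x : Fin k → ℝ := fun j => (s₁ j).im with hxd
  set y : Fin l → ℝ := fun j => (s₂ j).im with hyd
  have hb₁ : ∀ j, σ ≤ (s₁ j).re := fun j => by linarith [(hr₁ j).1]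
  have hb₂ : ∀ j, σ ≤ (s₂ j).re := fun j => by linarith [(hr₂ j).1]
  have hTa' : Ta ≤ T := ((le_max_left _ _).trans (le_max_left _ _)).trans hT
  have hTb' : Tb ≤ T := ((le_max_right _ _).trans (le_max_left _ _)).trans hT
  have hT2 : max (max Tc Td) (max Te 4) ≤ T := (le_max_right _ _).trans hT
  have hTc' : Tc ≤ T := ((le_max_left _ _).trans (le_max_left _ _)).trans hT2
  have hTd' : Td ≤ T := ((le_max_right _ _).trans (le_max_left _ _)).trans hT2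
  have hTe' : Te ≤ T := ((le_max_left _ _).trans (le_max_right _ _)).trans hT2
  have hT4 : 4 ≤ T := ((le_max_right _ _).trans (le_max_right _ _)).trans hT2
  have hT0 : 0 < T := by linarith
  have hlog : 0 < Real.log T := Real.log_pos (by linarith)
  have hc0 : 0 < min 1 (min c₁ c₂) := lt_min one_pos (lt_min hc₁ hc₂)
  have hη0 : 0 < σ - 1 / 2 := by
    by_contra hcon
    have e1 : (σ - 1 / 2) * Real.log T ≤ 0 :=
      mul_nonpos_of_nonpos_of_nonneg (not_lt.1 hcon) hlog.le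
    have e2 := mul_nonpos_of_nonneg_of_nonpos hc0.le e1
    linarith
  have hX0 : 0 < (σ - 1 / 2) * Real.log T := mul_pos hη0 hlog
  have hLL : 0 < Real.log T / Real.log (Real.log T) := by
    by_contra hcon
    have := mul_nonpos_of_nonneg_of_nonpos hc0.le (not_lt.1 hcon)
    linarith
  have m0 : min 1 (min c₁ c₂) ≤ 1 := min_le_left _ _
  have m1 : min 1 (min c₁ c₂) ≤ c₁ := (min_le_right _ _).trans (min_le_left _ _)
  have m2 : min 1 (min c₁ c₂) ≤ c₂ := (min_le_right _ _).trans (min_le_right _ _)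
  have aX : A ≤ (σ - 1 / 2) * Real.log T := by
    have := mul_le_mul_of_nonneg_right m0 hX0.le
    linarith
  have aX1 : A ≤ c₁ * ((σ - 1 / 2) * Real.log T) := hAX.trans (mul_le_mul_of_nonneg_right m1 hX0.le)
  have aX2 : A ≤ c₂ * ((σ - 1 / 2) * Real.log T) := hAX.trans (mul_le_mul_of_nonneg_right m2 hX0.le)
  have aL1 : A ≤ c₁ * (Real.log T / Real.log (Real.log T)) :=
    hAL.trans (mul_le_mul_of_nonneg_right m1 hLL.le)
  have aL2 : A ≤ c₂ * (Real.log T / Real.log (Real.log T)) :=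
    hAL.trans (mul_le_mul_of_nonneg_right m2 hLL.le)
  have aM1 : A ≤ c₁ * min ((σ - 1 / 2) * Real.log T) (Real.log T / Real.log (Real.log T)) := by
    rw [mul_min_of_nonneg _ _ hc₁.le]
    exact le_min aX1 aL1
  have aM2 : A ≤ c₂ * min ((σ - 1 / 2) * Real.log T) (Real.log T / Real.log (Real.log T)) := by
    rw [mul_min_of_nonneg _ _ hc₂.le]
    exact le_min aX2 aL2
  have hη8 : σ - 1 / 2 ≤ 1 / 8 := by linarith
  have aLog : A ≤ Real.log T := by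
    have := mul_le_mul_of_nonneg_right hη8 hlog.le
    linarith
  -- the series
  have eS : ∀ m : ℕ, SS m (σ - 1 / 2) = ∑' n : ℕ, dk m n ^ 2 * (n : ℝ) ^ (-(2 * σ)) := by
    intro m
    unfold SS
    refine tsum_congr fun n => ?_
    have : -(1 + 2 * (σ - 1 / 2)) = -(2 * σ) := by ring
    rw [this]
  have hSk := (HSk (σ - 1 / 2) hη0 hη8).2.1
  have hSl := (HSl (σ - 1 / 2) hη0 hη8).2.1
  rw [eS k] at hSk
  rw [eS l] at hSl
  have HA' := HA T hTa' σ A hσ hA aX1 aL1 s₁ hr₁ hx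
  have HB' := HB T hTb' σ A hσ hA aX2 aL2 s₂ hr₂ hy
  have HC' := fun w hw => HC C₀ hC₀ T hTc' σ A (by linarith) hσ hA aLog s₁ w hb₁ hw
  have HD' := fun w hw => HD C₀ hC₀ T hTd' σ A (by linarith) hσ hA aLog s₂ w hb₂ hw
  have HE' := HE T hTe' σ A hσ hA aX s₁ s₂ hb₁ hb₂
  have HF' := (HF (σ - 1 / 2) hη0 hη8 T (by linarith) s₁ (fun j => (hr₁ j).1) 0 T hT0.le).1
  have HG' := (HG (σ - 1 / 2) hη0 hη8 T (by linarith) s₂ (fun j => (hr₂ j).1) 0 T hT0.le).1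
  rw [eS k] at HF'
  rw [eS l] at HG'
  set Sk : ℝ := ∑' n : ℕ, dk k n ^ 2 * (n : ℝ) ^ (-(2 * σ)) with hSkd
  set Sl : ℝ := ∑' n : ℕ, dk l n ^ 2 * (n : ℝ) ^ (-(2 * σ)) with hSld
  have hfb := floor_bound hT4
  -- the functions
  set p : ℝ → ℂ := fun t => PW T s₁ t with hp
  set q : ℝ → ℂ := fun t => PW T s₂ t with hq
  set z : ℝ → ℂ := fun t => ∏ j, riemannZeta (s₁ j + t * Complex.I) with hz
  set w : ℝ → ℂ := fun t => ∏ j, riemannZeta (s₂ j + t * Complex.I) with hw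
  have cp : Continuous p := cPW T s₁
  have cq : Continuous q := cPW T s₂
  have cz : Continuous z := AuxShW.zcp s₁ fun j => (hr₁ j).2
  have cw : Continuous w := AuxShW.zcp s₂ fun j => (hr₂ j).2
  set δ : ℝ := Real.exp (-(A / 400)) with hδ
  have hδ0 : 0 < δ := Real.exp_pos _
  have hδ1 : δ ≤ 1 := Real.exp_le_one_iff.2 (by linarith)
  have hδe : ∀ c' M : ℝ, A ≤ c' * M → Real.exp (-(c' * M)) ≤ δ ^ 2 := by
    intro c' M h
    rw [hδ, ← Real.exp_nat_mul]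
    apply Real.exp_le_exp.2
    push_cast
    linarith
  have hZ : MeasurableSet (Zs T A C₀) := h5.1 T A C₀ (by linarith)
  set E : Set ℝ := Ew T A C₀ s₁ ∩ Ew T A C₀ s₂ with hE
  have hEm : MeasurableSet E := (ms_Ew hZ s₁).inter (ms_Ew hZ s₂)
  have hExT : Ew T A C₀ s₁ ⊆ Icc 0 T := fun t ht => ⟨ht.1, ht.2.1⟩
  have hEyT : Ew T A C₀ s₂ ⊆ Icc 0 T := fun t ht => ⟨ht.1, ht.2.1⟩
  have hET : E ⊆ Icc 0 T := fun t ht => hExT ht.1
  set r : ℝ := Real.sqrt (Sk * Sl) with hr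
  have hr0 : 0 ≤ r := Real.sqrt_nonneg _
  have hrr : r ^ 2 = Sk * Sl := Real.sq_sqrt (mul_nonneg (by linarith) (by linarith))
  -- the four mean squares
  have hTSl : 0 ≤ T * Sl := mul_nonneg hT0.le (by linarith)
  have hTSk : 0 ≤ T * Sk := mul_nonneg hT0.le (by linarith)
  have q1 : ∫ t in E, ‖z t - p t‖ ^ 2 ≤ Ca * δ ^ 2 * (T * Sk) := by
    refine ((monoE (cz.sub cp) hExT inter_subset_left).trans HA').trans ?_
    exact mul_le_mul_of_nonneg_right (mul_le_mul_of_nonneg_left (hδe _ _ aM1) (by linarith)) hTSk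
  have q2 : ∫ t in E, ‖w t - q t‖ ^ 2 ≤ Cb * δ ^ 2 * (T * Sl) := by
    refine ((monoE (cw.sub cq) hEyT inter_subset_right).trans HB').trans ?_
    exact mul_le_mul_of_nonneg_right (mul_le_mul_of_nonneg_left (hδe _ _ aM2) (by linarith)) hTSl
  have q3 : ∫ t in E, ‖p t‖ ^ 2 ≤ 2 * (T * Sk) :=
    ((toE hT0.le cp hET).trans HF').trans (tw hfb (by linarith))
  have q4 : ∫ t in E, ‖q t‖ ^ 2 ≤ 2 * (T * Sl) :=
    ((toE hT0.le cq hET).trans HG').trans (tw hfb (by linarith))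
  have q5 : ∫ t in E, ‖w t‖ ^ 2 ≤ (2 * Cb + 4) * (T * Sl) := by
    have e1 := dbl cw cq hEm hET
    have e4 : Cb * δ ^ 2 * (T * Sl) ≤ Cb * (T * Sl) := by
      have h7 : δ ^ 2 ≤ 1 := pow_le_one₀ hδ0.le hδ1
      have h8 : Cb * δ ^ 2 ≤ Cb * 1 := mul_le_mul_of_nonneg_left h7 (by linarith)
      rw [mul_one] at h8
      exact mul_le_mul_of_nonneg_right h8 hTSl
    linarith
  -- the first two differences
  have hR : 0 ≤ δ * (T * r) := mul_nonneg hδ0.le (mul_nonneg hT0.le hr0)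
  have d1 : ‖∫ t in E, (z t - p t) * (starRingEnd ℂ) (w t)‖ ≤ K₁ * (δ * (T * r)) :=
    cs hET (cz.sub cp) cw (mul_nonneg (by linarith) hR) q1 q5
      (n1 hCa hCb (by linarith) (by linarith) hrr)
  have d2 : ‖∫ t in E, p t * (starRingEnd ℂ) (w t - q t)‖ ≤ K₂ * (δ * (T * r)) :=
    cs hET cp (cw.sub cq) (mul_nonneg (by linarith) hR) q3 q2
      (n2 hCb (by linarith) (by linarith) hrr)
  -- the complement
  set D : Set ℝ := Icc 0 T \ E with hDd
  have hDm : MeasurableSet D := measurableSet_Icc.diff hEm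
  have hDT : D ⊆ Icc 0 T := fun t ht => ht.1
  set B : Fin k ⊕ Fin l → Set ℝ := fun i =>
    {t : ℝ | 0 ≤ t ∧ t ≤ T ∧ t + Sum.elim x y i ∉ Zs T A C₀} with hB
  have hxy : ∀ i : Fin k ⊕ Fin l, |Sum.elim x y i| ≤ Real.sqrt T := by
    rintro (j | j)
    · exact hx j
    · exact hy j
  have hcov : ∀ t ∈ D, ∃ i ∈ (Finset.univ : Finset (Fin k ⊕ Fin l)), t ∈ B i := by
    intro t ht
    obtain ⟨ht1, ht2⟩ := ht
    by_contra hcon
    push Not at hcon
    apply ht2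
    refine ⟨⟨ht1.1, ht1.2, fun j => ?_⟩, ⟨ht1.1, ht1.2, fun j => ?_⟩⟩
    · by_contra h
      exact hcon (Sum.inl j) (Finset.mem_univ _) ⟨ht1.1, ht1.2, h⟩
    · by_contra h
      exact hcon (Sum.inr j) (Finset.mem_univ _) ⟨ht1.1, ht1.2, h⟩
  have hBm : ∀ i ∈ (Finset.univ : Finset (Fin k ⊕ Fin l)), MeasurableSet (B i) :=
    fun i _ => ms_B hZ _
  have hBT : ∀ i ∈ (Finset.univ : Finset (Fin k ⊕ Fin l)), B i ⊆ Icc 0 T :=
    fun i _ t ht => ⟨ht.1, ht.2.1⟩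
  have hcard : ((Finset.univ : Finset (Fin k ⊕ Fin l)).card : ℝ) = (k : ℝ) + l := by
    rw [Finset.card_univ, Fintype.card_sum, Fintype.card_fin, Fintype.card_fin]
    push_cast
    ring
  have q6 : ∫ t in D, ‖p t‖ ^ 2 ≤ ((k : ℝ) + l) * (Cc * δ * (T * Sk)) := by
    refine (cover _ hDm hDT hBm hBT hcov (cp.norm.pow 2) (fun t => sq_nonneg _)).trans ?_
    refine (Finset.sum_le_card_nsmul _ _ (Cc * δ * (T * Sk)) fun i _ => HC' _ (hxy i)).trans ?_
    rw [nsmul_eq_mul, hcard]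
  have q7 : ∫ t in D, ‖q t‖ ^ 2 ≤ ((k : ℝ) + l) * (Cd * δ * (T * Sl)) := by
    refine (cover _ hDm hDT hBm hBT hcov (cq.norm.pow 2) (fun t => sq_nonneg _)).trans ?_
    refine (Finset.sum_le_card_nsmul _ _ (Cd * δ * (T * Sl)) fun i _ => HD' _ (hxy i)).trans ?_
    rw [nsmul_eq_mul, hcard]
  have d3 : ‖∫ t in D, p t * (starRingEnd ℂ) (q t)‖ ≤ K₃ * (δ * (T * r)) :=
    cs hDT cp cq (mul_nonneg hK₃0 hR) q6 q7 (n3 hCc hCd (by linarith) (by linarith) hrr)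
  show ‖(∫ t in E, z t * (starRingEnd ℂ) (w t)) -
      T * ∑' n : ℕ, dw s₁ n * (starRingEnd ℂ) (dw s₂ n)‖ ≤
    (K₁ + K₂ + K₃ + Ce) * δ * (T * r)
  rw [deco hT0.le cp cq cz cw hEm hET]
  have HE'' : ‖(∫ t in (0 : ℝ)..T, p t * (starRingEnd ℂ) (q t)) -
      T * ∑' n : ℕ, dw s₁ n * (starRingEnd ℂ) (dw s₂ n)‖ ≤
      Ce * δ * (T * r) := HE'
  refine (norm_add_le _ _).trans ?_
  have n1 := norm_sub_le ((∫ t in E, (z t - p t) * (starRingEnd ℂ) (w t)) +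
      (∫ t in E, p t * (starRingEnd ℂ) (w t - q t))) (∫ t in D, p t * (starRingEnd ℂ) (q t))
  have n2 := norm_add_le (∫ t in E, (z t - p t) * (starRingEnd ℂ) (w t))
      (∫ t in E, p t * (starRingEnd ℂ) (w t - q t))
  have e9 : (K₁ + K₂ + K₃ + Ce) * δ * (T * r) = K₁ * (δ * (T * r)) + K₂ * (δ * (T * r)) +
      K₃ * (δ * (T * r)) + Ce * δ * (T * r) := by ring
  rw [e9]
  linarith

end Pool.Agent.Work.MP_56b8f5_nt.HN
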