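import Pool.Agent.Work.MP_56b8f5_nt.HN.StmtsX
import Pool.Agent.Work.MP_56b8f5_nt.HN.I_DyF

/-!
MP_56b8f5_nt, block HN, item SmX (helper2): the small heights.
-/

set_option autoImplicit false

open MeasureTheory Set Filter Topology

noncomputable section

namespace Pool.Agent.Work.MP_56b8f5_nt.HN

open Pool.Agent.Work.MP_56b8f5_nt.EM Pool.Agent.Work.MP_56b8f5_nt.WM Pool.Agent.Work.MP_56b8f5_nt.SH
open Pool.Agent.Work.MP_56b8f5_nt.HZ

namespace AuxSmX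

theorem zeta_neg (σ u : ℝ) :
    ‖riemannZeta (σ + ((-u : ℝ) : ℂ) * Complex.I)‖ = ‖riemannZeta (σ + u * Complex.I)‖ := by
  have h : (σ : ℂ) + ((-u : ℝ) : ℂ) * Complex.I =
      (starRingEnd ℂ) ((σ : ℂ) + u * Complex.I) := by
    rw [map_add, map_mul, Complex.conj_I, Complex.conj_ofReal, Complex.conj_ofReal]
    push_cast
    ring
  rw [h, riemannZeta_conj, Complex.norm_conj]

theorem refl_int (f : ℝ → ℝ) (hf : ∀ u, f (-u) = f u) (Z : Set ℝ) (hZ : ∀ u, u ∈ Z → -u ∈ Z)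
    (V : ℝ) : ∫ u in Z ∩ Icc (-V) 0, f u = ∫ u in Z ∩ Icc 0 V, f u := by
  have h := (Measure.measurePreserving_neg (volume : Measure ℝ)).setIntegral_preimage_emb
    (MeasurableEquiv.neg ℝ).measurableEmbedding f (Z ∩ Icc (-V) 0)
  rw [← h]
  have hs : Neg.neg ⁻¹' (Z ∩ Icc (-V) 0) = Z ∩ Icc 0 V := by
    ext u
    simp only [mem_preimage, mem_inter_iff, mem_Icc]
    constructor
    · rintro ⟨h1, h2, h3⟩
      refine ⟨?_, by linarith, by linarith⟩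
      have := hZ _ h1
      rwa [neg_neg] at this
    · rintro ⟨h1, h2, h3⟩
      exact ⟨hZ _ h1, by linarith, by linarith⟩
  rw [hs]
  simp only [hf]

theorem split (f : ℝ → ℝ) (hf : Continuous f) (hf0 : ∀ t, 0 ≤ f t) (Z : Set ℝ)
    (hZ : MeasurableSet Z) (V : ℝ) (hV : 0 ≤ V) :
    ∫ u in Z ∩ Icc (-V) V, f u ≤ (∫ u in Z ∩ Icc (-V) 0, f u) + ∫ u in Z ∩ Icc 0 V, f u := by
  have hI : ∀ a b : ℝ, IntegrableOn f (Z ∩ Icc a b) := fun a b =>
    (hf.integrableOn_Icc).mono_set inter_subset_right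
  have heq : Z ∩ Icc (-V) V = (Z ∩ Ico (-V) 0) ∪ (Z ∩ Icc 0 V) := by
    rw [← inter_union_distrib_left]
    congr 1
    ext u
    simp only [mem_union, mem_Icc, mem_Ico]
    constructor
    · rintro ⟨h1, h2⟩
      rcases lt_or_ge u 0 with h | h
      · exact Or.inl ⟨h1, h⟩
      · exact Or.inr ⟨h, h2⟩
    · rintro (⟨h1, h2⟩ | ⟨h1, h2⟩)
      · exact ⟨h1, by linarith⟩
      · exact ⟨by linarith, h2⟩
  have hdis : Disjoint (Z ∩ Ico (-V) 0) (Z ∩ Icc 0 V) := by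
    rw [Set.disjoint_left]
    rintro t h h'
    exact absurd h.2.2 (not_lt.2 h'.2.1)
  have hI2 : IntegrableOn f (Z ∩ Ico (-V) 0) :=
    (hI (-V) 0).mono_set (inter_subset_inter_right _ Ico_subset_Icc_self)
  rw [heq, setIntegral_union hdis (hZ.inter measurableSet_Icc) hI2 (hI 0 V)]
  have h1 : ∫ u in Z ∩ Ico (-V) 0, f u ≤ ∫ u in Z ∩ Icc (-V) 0, f u :=
    setIntegral_mono_set (hI (-V) 0) (ae_of_all _ hf0)
      (LE.le.eventuallyLE (inter_subset_inter_right _ Ico_subset_Icc_self))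
  linarith

end AuxSmX

open AuxSmX in
/-- **Item SmX.** -/
theorem SmX_pf (h1 : S_DyF) (h2 : S_ZsI) : S_SmX := by
  intro k hk C₀ hC₀
  obtain ⟨c₂, C₂, T₂, hc₂, hC₂, hT₂, H2⟩ := h1 k hk C₀ hC₀
  obtain ⟨hM, -, hSym, -, hI⟩ := h2
  have hl2 : 0 ≤ Real.log 2 := Real.log_nonneg (by norm_num)
  obtain ⟨W, hW⟩ : ∃ W : ℝ, W = 1 + C₀ * Real.log 2 := ⟨_, rfl⟩
  have hCl : 0 ≤ C₀ * Real.log 2 := mul_nonneg (by linarith) hl2
  have hW1 : 1 ≤ W := by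
    rw [hW]
    linarith
  have h2W : 0 < 2 * W := by positivity
  obtain ⟨c, hc⟩ : ∃ c : ℝ, c = c₂ / (2 * W) := ⟨_, rfl⟩
  have hc0 : 0 < c := by
    rw [hc]
    exact div_pos hc₂ h2W
  have hcc : c * (2 * W) ≤ c₂ := by
    rw [hc, div_mul_cancel₀ _ h2W.ne']
  refine ⟨c, 6 * (1 + C₂), T₂ ^ 2, hc0, by linarith, by nlinarith, ?_⟩
  intro T hT σ A hσ hA hA1 hA2
  have hT9 : 9 ≤ T := by nlinarith
  have hT0 : 0 < T := by linarith
  have hlT : 0 < Real.log T := Real.log_pos (by linarith)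
  have hη : 0 < σ - 1 / 2 := by
    by_contra hcon
    have e1 : (σ - 1 / 2) * Real.log T ≤ 0 :=
      mul_nonpos_of_nonpos_of_nonneg (not_lt.1 hcon) hlT.le
    have e2 : c * ((σ - 1 / 2) * Real.log T) ≤ 0 := mul_nonpos_of_nonneg_of_nonpos hc0.le e1
    linarith
  obtain ⟨S, hS⟩ : ∃ S : ℝ, S = ∑' n : ℕ, dk k n ^ 2 * (n : ℝ) ^ (-(2 * σ)) := ⟨_, rfl⟩
  have hS0 : 0 ≤ S := by
    rw [hS]
    exact tsum_nonneg fun n => mul_nonneg (sq_nonneg _) (Real.rpow_nonneg (Nat.cast_nonneg _) _)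
  obtain ⟨Y, hY⟩ : ∃ Y : ℝ, Y = Real.sqrt T := ⟨_, rfl⟩
  have hY0 : 0 < Y := hY ▸ Real.sqrt_pos.2 hT0
  have hYY : Y * Y = T := by
    rw [hY]
    exact Real.mul_self_sqrt hT0.le
  have hYT₂ : T₂ ≤ Y := by
    by_contra hcon
    push Not at hcon
    nlinarith
  have hY3 : 3 ≤ Y := by linarith
  have hlY : Real.log T = 2 * Real.log Y := by
    rw [← hYY, Real.log_mul hY0.ne' hY0.ne']
    ring
  obtain ⟨V, hV⟩ : ∃ V : ℝ, V = 3 * Y := ⟨_, rfl⟩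
  have hV0 : 0 < V := by linarith
  have hVY : Y ≤ V := by linarith
  have hVT : V ≤ T := by nlinarith
  have hlV : Real.log T ≤ 2 * Real.log V := by
    rw [hlY]
    exact mul_le_mul_of_nonneg_left (Real.log_le_log hY0 hVY) (by norm_num)
  rw [← hY, ← hS, ← hV]
  obtain ⟨A', hA'⟩ : ∃ A' : ℝ, A' = A + C₀ * Real.log 2 := ⟨_, rfl⟩
  have hA'W : A' ≤ W * A := by
    rw [hA', hW]
    nlinarith
  have hsub := (hI T V A C₀ (by linarith) hVT hlV (by linarith) (by linarith)).2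
  rw [← hA'] at hsub
  obtain ⟨q1, q2⟩ := AuxDyF.logU T V 2 c c₂ (σ - 1 / 2) A A' (by linarith) (by linarith) hVT
    hη hlV hc0 hW1 hcc hA'W hA1 hA2
  have a1 := H2 V (by linarith) σ A' hσ (by linarith) q1 q2
  rw [← hS] at a1
  have a2 := (abs_le.1 a1).2
  obtain ⟨f, hf⟩ : ∃ f : ℝ → ℝ, f = fun u : ℝ => ‖riemannZeta (σ + u * Complex.I)‖ ^ (2 * k) :=
    ⟨_, rfl⟩
  have hfc : Continuous f := by
    rw [hf]
    exact (AuxDyF.zc σ hσ).norm.pow _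
  have hf0 : ∀ t, 0 ≤ f t := by
    intro t
    rw [hf]
    positivity
  have hfn : ∀ t, f (-t) = f t := by
    intro t
    simp only [hf]
    rw [zeta_neg]
  have hgoal : ∫ u in Zs T A C₀ ∩ Icc (-V) V, ‖riemannZeta (σ + u * Complex.I)‖ ^ (2 * k) =
      ∫ u in Zs T A C₀ ∩ Icc (-V) V, f u := by
    rw [hf]
  have hint : ∫ t in G0 V A' C₀, ‖riemannZeta (σ + t * Complex.I)‖ ^ (2 * k) =
      ∫ t in G0 V A' C₀, f t := by
    rw [hf]
  rw [hint] at a2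
  rw [hgoal]
  have hG0 : G0 V A' C₀ ⊆ Icc 0 V := fun t ht => ⟨ht.1, ht.2.1⟩
  have b1 : ∫ u in Zs T A C₀ ∩ Icc 0 V, f u ≤ ∫ u in G0 V A' C₀, f u :=
    setIntegral_mono_set ((hfc.integrableOn_Icc).mono_set hG0) (ae_of_all _ hf0)
      (LE.le.eventuallyLE hsub)
  have b2 := split f hfc hf0 (Zs T A C₀) (hM T A C₀ (by linarith)) V hV0.le
  rw [refl_int f hfn (Zs T A C₀) (hSym T A C₀) V] at b2
  have b3 : C₂ * Real.exp (-(A' / 400)) * (V * S) ≤ C₂ * 1 * (V * S) := by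
    refine mul_le_mul_of_nonneg_right (mul_le_mul_of_nonneg_left ?_ (by linarith)) (by positivity)
    rw [Real.exp_le_one_iff]
    linarith
  calc ∫ u in Zs T A C₀ ∩ Icc (-V) V, f u ≤ 2 * (V * S + C₂ * 1 * (V * S)) := by linarith
    _ = 6 * (1 + C₂) * Y * S := by
      rw [hV]
      ring

end Pool.Agent.Work.MP_56b8f5_nt.HN
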