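import Pool.Agent.Work.MP_56b8f5_nt.HN.StmtsY
import Pool.Agent.Work.MP_56b8f5_nt.HN.I_DyF
import Pool.Agent.Work.MP_56b8f5_nt.HN.I_SmX

/-!
MP_56b8f5_nt, block HN, item YSm: the small heights, with the only condition `1 ≤ A ≤ c X`.
-/

set_option autoImplicit false

open MeasureTheory Set Filter Topology

noncomputable section

namespace Pool.Agent.Work.MP_56b8f5_nt.HN

open Pool.Agent.Work.MP_56b8f5_nt.EM Pool.Agent.Work.MP_56b8f5_nt.WM Pool.Agent.Work.MP_56b8f5_nt.SH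
open Pool.Agent.Work.MP_56b8f5_nt.HZ

/-- **Item YSm**: the small heights. -/
theorem YSm_pf (h1 : S_YUp) (h2 : S_DyI) (h3 : S_DyB) (h4 : S_DyS) (h5 : S_ZsI) (h6 : S_SSb) :
    S_YSm := by
  intro k hk C₀ hC₀
  obtain ⟨c₁, C₁, T₁, hc₁, hC₁, hT₁, H1⟩ := h1 k hk C₀ hC₀
  obtain ⟨CS, hCS, HS⟩ := h6 k
  obtain ⟨CB, hCB, HB⟩ := h3
  obtain ⟨-, -, hI3⟩ := h2
  obtain ⟨hM, hGZ, hSym, -, -⟩ := h5
  obtain ⟨n, hn⟩ : ∃ n : ℕ, n = 2 * k + 1 := ⟨_, rfl⟩
  obtain ⟨R, hR⟩ : ∃ R : ℝ, R = ((4 * n : ℕ) : ℝ) := ⟨_, rfl⟩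
  have hR2 : 2 ≤ R := by
    rw [hR]
    have : 2 ≤ 4 * n := by omega
    exact_mod_cast this
  have hlR : 0 ≤ Real.log R := Real.log_nonneg (by linarith)
  have hCl : 0 ≤ C₀ * Real.log R := mul_nonneg hC₀ hlR
  obtain ⟨W, hW⟩ : ∃ W : ℝ, W = 1 + C₀ * Real.log R := ⟨_, rfl⟩
  have hW1 : 1 ≤ W := by linarith
  have hRW : 0 < R * W := by positivity
  obtain ⟨c, hc⟩ : ∃ c : ℝ, c = c₁ / (R * W) := ⟨_, rfl⟩
  have hc0 : 0 < c := by
    rw [hc]
    exact div_pos hc₁ hRW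
  have hcc : c * (R * W) ≤ c₁ := by
    rw [hc, div_mul_cancel₀ _ hRW.ne']
  obtain ⟨D, hD⟩ : ∃ D : ℝ, D = 2 * (3 * CB) ^ (2 * k) := ⟨_, rfl⟩
  have hD0 : 0 ≤ D := by
    rw [hD]
    positivity
  refine ⟨c, 6 * C₁ + 2 * D, max (T₁ ^ (4 * n)) 9, hc0, by linarith,
    le_trans (by norm_num) (le_max_right _ _), ?_⟩
  intro T hT σ A hσ hA hA1
  have hTT₁ : T₁ ^ (4 * n) ≤ T := (le_max_left _ _).trans hT
  have hT9 : 9 ≤ T := (le_max_right _ _).trans hT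
  have hT0 : 0 < T := by linarith
  have hlT : 0 < Real.log T := Real.log_pos (by linarith)
  have hη : 0 < σ - 1 / 2 := by
    by_contra hcon
    have e1 : (σ - 1 / 2) * Real.log T ≤ 0 :=
      mul_nonpos_of_nonpos_of_nonneg (not_lt.1 hcon) hlT.le
    have e2 : c * ((σ - 1 / 2) * Real.log T) ≤ 0 := mul_nonpos_of_nonneg_of_nonpos hc0.le e1
    linarith
  have es : ∀ t : ℝ, sp (σ - 1 / 2) t = (σ : ℂ) + t * Complex.I := by
    intro t
    unfold sp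
    congr 2
    ring
  have eS : SS k (σ - 1 / 2) = ∑' n : ℕ, dk k n ^ 2 * (n : ℝ) ^ (-(2 * σ)) := by
    unfold SS
    refine tsum_congr fun n => ?_
    have : -(1 + 2 * (σ - 1 / 2)) = -(2 * σ) := by ring
    rw [this]
  have hS1 : 1 ≤ SS k (σ - 1 / 2) := (HS _ hη (by linarith)).2.1
  obtain ⟨S, hS⟩ : ∃ S : ℝ, S = ∑' n : ℕ, dk k n ^ 2 * (n : ℝ) ^ (-(2 * σ)) := ⟨_, rfl⟩
  rw [eS, ← hS] at hS1
  rw [← hS]
  -- the thresholds
  have hn0 : 4 * n ≠ 0 := by omega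
  obtain ⟨Y, hY⟩ : ∃ Y : ℝ, Y = T ^ (((4 * n : ℕ) : ℝ)⁻¹) := ⟨_, rfl⟩
  have hY0 : 0 < Y := by
    rw [hY]
    exact Real.rpow_pos_of_pos hT0 _
  have hYp : Y ^ (4 * n) = T := by
    rw [hY]
    exact Real.rpow_inv_natCast_pow hT0.le hn0
  have hYT₁ : T₁ ≤ Y := by
    have e1 : (T₁ ^ (4 * n)) ^ (((4 * n : ℕ) : ℝ)⁻¹) = T₁ :=
      Real.pow_rpow_inv_natCast (by linarith) hn0
    rw [hY, ← e1]
    exact Real.rpow_le_rpow (by positivity) hTT₁ (by positivity)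
  have hlY : Real.log T = R * Real.log Y := by
    rw [← hYp, Real.log_pow, hR]
  obtain ⟨s, hs⟩ : ∃ s : ℝ, s = Y ^ n := ⟨_, rfl⟩
  have hs1 : 1 ≤ s := by
    rw [hs]
    exact one_le_pow₀ (by linarith)
  obtain ⟨q, hq⟩ : ∃ q : ℝ, q = Real.sqrt T := ⟨_, rfl⟩
  have hq0 : 0 < q := hq ▸ Real.sqrt_pos.2 hT0
  have hqq : q * q = T := by
    rw [hq]
    exact Real.mul_self_sqrt hT0.le
  have hss : s * s = q := by
    have e1 : (s * s) * (s * s) = T := by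
      rw [hs, ← pow_add, ← pow_add, ← hYp]
      congr 1
      ring
    rw [hq, ← e1, Real.sqrt_mul_self (by positivity)]
  have hsq : s ≤ q := by nlinarith
  have hq3 : 3 ≤ q := by
    by_contra hcon
    push Not at hcon
    nlinarith
  obtain ⟨V, hV⟩ : ∃ V : ℝ, V = 3 * q := ⟨_, rfl⟩
  have hV0 : 0 < V := by linarith
  have hVT : V ≤ T := by nlinarith
  rw [← hq, ← hV]
  -- the function
  obtain ⟨f, hf⟩ : ∃ f : ℝ → ℝ, f = fun t : ℝ => ‖riemannZeta (σ + t * Complex.I)‖ ^ (2 * k) :=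
    ⟨_, rfl⟩
  have hfc : Continuous f := by
    rw [hf]
    exact (AuxDyF.zc σ hσ).norm.pow _
  have hf0 : ∀ t, 0 ≤ f t := by
    intro t
    rw [hf]
    positivity
  have hfn : ∀ t, f (-t) = f t := by
    intro t
    simp only [hf]
    rw [AuxSmX.zeta_neg]
  have hgoal : ∫ u in Zs T A C₀ ∩ Icc (-V) V, ‖riemannZeta (σ + u * Complex.I)‖ ^ (2 * k) =
      ∫ u in Zs T A C₀ ∩ Icc (-V) V, f u := by
    rw [hf]
  rw [hgoal]
  have hZm : MeasurableSet (Zs T A C₀) := hM T A C₀ (by linarith)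
  have hup : ∫ t in Zs T A C₀ ∩ Icc 0 V, f t ≤ (C₁ * S) * V + D * s := by
    refine AuxDyF.upper_abs h4 f hfc hf0 (Zs T A C₀ ∩ Icc 0 V) V Y (C₁ * S) (D * s)
      (hZm.inter measurableSet_Icc) inter_subset_right hV0 hY0 (by positivity) ?_ ?_
    · intro U hYU hUV
      have hU3 : 3 ≤ U := by linarith
      have hU0 : 0 < U := by linarith
      have hUT : 2 * U ≤ T := hUV.trans hVT
      have hlog : Real.log T ≤ R * Real.log U := by
        rw [hlY]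
        exact mul_le_mul_of_nonneg_left (Real.log_le_log hY0 hYU) (by linarith)
      obtain ⟨A', hA'⟩ : ∃ A' : ℝ, A' = A + C₀ * Real.log R := ⟨_, rfl⟩
      have hsub0 := hI3 T U A C₀ R (by linarith) hUT (by linarith) hlog (by linarith) hC₀
      rw [← hA', (hGZ T A C₀).1] at hsub0
      have hsub : Zs T A C₀ ∩ Icc 0 V ∩ Icc U (2 * U) ⊆ GG U A' C₀ := fun t ht =>
        hsub0 ⟨⟨⟨ht.1.2.1, ht.1.2.2.trans hVT⟩, ht.1.1⟩, ht.2⟩
      have hA'W : A' ≤ W * A := by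
        rw [hA', hW]
        nlinarith
      have q1 : A' ≤ c₁ * ((σ - 1 / 2) * Real.log U) := by
        have hlU : 0 < Real.log U := Real.log_pos (by linarith)
        calc A' ≤ W * A := hA'W
          _ ≤ W * (c * ((σ - 1 / 2) * Real.log T)) := mul_le_mul_of_nonneg_left hA1 (by linarith)
          _ ≤ W * (c * ((σ - 1 / 2) * (R * Real.log U))) := by
              refine mul_le_mul_of_nonneg_left ?_ (by linarith)
              refine mul_le_mul_of_nonneg_left ?_ hc0.le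
              exact mul_le_mul_of_nonneg_left hlog hη.le
          _ = c * (R * W) * ((σ - 1 / 2) * Real.log U) := by ring
          _ ≤ c₁ * ((σ - 1 / 2) * Real.log U) := mul_le_mul_of_nonneg_right hcc (by positivity)
      have hmain := H1 U (by linarith) (σ - 1 / 2) A' (by linarith) (by linarith) q1
      simp only [es] at hmain
      rw [eS, ← hS] at hmain
      have hGGI : GG U A' C₀ ⊆ Icc U (2 * U) := fun t ht => ⟨ht.1, ht.2.1⟩
      have h8 : ∫ t in Zs T A C₀ ∩ Icc 0 V ∩ Icc U (2 * U), f t ≤ ∫ t in GG U A' C₀, f t :=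
        setIntegral_mono_set ((hfc.integrableOn_Icc).mono_set hGGI) (ae_of_all _ hf0)
          (LE.le.eventuallyLE hsub)
      refine h8.trans ?_
      rw [hf]
      calc ∫ t in GG U A' C₀, ‖riemannZeta (σ + t * Complex.I)‖ ^ (2 * k)
          ≤ C₁ * (U * S) := hmain
        _ = C₁ * S * U := by ring
    · intro a ha haY
      rw [hf, hD, hs, hn]
      exact AuxDyF.small k CB σ (by linarith) hσ hCB HB Y a (by linarith) ha haY
  have b2 := AuxSmX.split f hfc hf0 (Zs T A C₀) hZm V hV0.le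
  rw [AuxSmX.refl_int f hfn (Zs T A C₀) (hSym T A C₀) V] at b2
  have b3 : D * s ≤ D * (q * S) := by
    refine mul_le_mul_of_nonneg_left ?_ hD0
    nlinarith
  calc ∫ u in Zs T A C₀ ∩ Icc (-V) V, f u ≤ 2 * ((C₁ * S) * V + D * (q * S)) := by linarith
    _ = (6 * C₁ + 2 * D) * q * S := by
      rw [hV]
      ring

end Pool.Agent.Work.MP_56b8f5_nt.HN
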