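import Pool.Agent.Work.MP_56b8f5_nt.HN.StmtsY
import Pool.Agent.Work.MP_56b8f5_nt.HN.I_Upp

/-!
MP_56b8f5_nt, block HN, item YUp: upper bound for the moments of zeta on `GG`, only condition `1 ≤ A ≤ cX`.
-/

set_option autoImplicit false

open MeasureTheory Set Filter Topology

noncomputable section

namespace Pool.Agent.Work.MP_56b8f5_nt.HN

open Pool.Agent.Work.MP_56b8f5_nt.EM Pool.Agent.Work.MP_56b8f5_nt.WM Pool.Agent.Work.MP_56b8f5_nt.SH
open Pool.Agent.Work.MP_56b8f5_nt.HZ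

namespace AuxYUp

theorem split (z d : ℂ) (k : ℕ) :
    ‖z‖ ^ (2 * k) ≤ 4 ^ k * ‖z - d‖ ^ (2 * k) + 4 ^ k * ‖d‖ ^ (2 * k) := by
  have h1 : ‖z‖ ≤ ‖z - d‖ + ‖d‖ := by
    calc ‖z‖ = ‖(z - d) + d‖ := by rw [sub_add_cancel]
      _ ≤ _ := norm_add_le _ _
  have h2 : (‖z - d‖ + ‖d‖) ^ (2 * k) ≤
      2 ^ (2 * k - 1) * (‖z - d‖ ^ (2 * k) + ‖d‖ ^ (2 * k)) :=
    add_pow_le (norm_nonneg _) (norm_nonneg _) _
  have h3 : (2 : ℝ) ^ (2 * k - 1) ≤ 4 ^ k := by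
    calc (2 : ℝ) ^ (2 * k - 1) ≤ 2 ^ (2 * k) := pow_le_pow_right₀ (by norm_num) (Nat.sub_le _ _)
      _ = 4 ^ k := by rw [pow_mul]; norm_num
  calc ‖z‖ ^ (2 * k) ≤ (‖z - d‖ + ‖d‖) ^ (2 * k) := pow_le_pow_left₀ (norm_nonneg _) h1 _
    _ ≤ 2 ^ (2 * k - 1) * (‖z - d‖ ^ (2 * k) + ‖d‖ ^ (2 * k)) := h2
    _ ≤ 4 ^ k * (‖z - d‖ ^ (2 * k) + ‖d‖ ^ (2 * k)) :=
        mul_le_mul_of_nonneg_right h3 (by positivity)
    _ = _ := by ring

end AuxYUp

theorem YUp_pf (h1 : S_YAp) (h2 : S_NNp) (h3 : S_DkM) : S_YUp := by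
  intro k hk C₀ hC₀
  obtain ⟨j, rfl⟩ : ∃ j, k = j + 1 := ⟨k - 1, by omega⟩
  obtain ⟨c, C, T₀, hc, hC, hT₀, H⟩ := h1 j C₀ hC₀
  refine ⟨c, 4 ^ (j + 1) * (C + 3), T₀, hc, ?_, hT₀, ?_⟩
  · have : (1 : ℝ) ≤ 4 ^ (j + 1) := one_le_pow₀ (by norm_num)
    nlinarith
  intro T hT η A hη1 hA1 hAX
  have hT3 : 3 ≤ T := hT₀.trans hT
  have hT0 : 0 < T := by linarith
  have hL0 : 0 < Real.log T := Real.log_pos (by linarith)
  have hη : 0 < η := by
    by_contra hcon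
    have : η * Real.log T ≤ 0 := mul_nonpos_of_nonpos_of_nonneg (not_lt.1 hcon) hL0.le
    have : c * (η * Real.log T) ≤ 0 := mul_nonpos_of_nonneg_of_nonpos hc.le this
    linarith
  obtain ⟨N, hN1, hN2, hN3⟩ := h2 (j + 1) (by omega) T hT3
  have hN4 : (N : ℝ) ^ (-η) ≤ 2 * Real.exp (-(η * Real.log T / (200 * (j + 1)))) := by
    refine (hN3 η hη.le (by linarith)).trans ?_
    apply mul_le_mul_of_nonneg_left _ (by norm_num)
    apply Real.exp_le_exp.2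
    apply neg_le_neg
    push_cast
    have : (0 : ℝ) < (j : ℝ) + 1 := by positivity
    apply div_le_div_of_nonneg_left (by positivity) (by positivity)
    linarith
  have g1 := H T hT η A hη1 hA1 hAX N hN1 hN2 hN4
  have hSS : 0 ≤ SS (j + 1) η := by
    unfold SS
    exact tsum_nonneg fun n => by positivity
  have g2 := h3 (j + 1) N η T (2 * T) hN1 hη hη1 (by linarith)
  have hNk : (1 : ℝ) ≤ ((N ^ (j + 1) : ℕ) : ℝ) := by
    exact_mod_cast Nat.one_le_pow _ _ hN1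
  have hN5 : ((N ^ (j + 1) : ℕ) : ℝ) ^ 2 ≤ T :=
    (pow_le_pow_right₀ hNk (by norm_num)).trans hN2
  have g3 : ∫ t in T..(2 * T), ‖DN N η t‖ ^ (2 * (j + 1)) ≤ 3 * (T * SS (j + 1) η) := by
    refine g2.trans ?_
    have : (2 * T - T + 2 * ((N ^ (j + 1) : ℕ) : ℝ) ^ 2) * SS (j + 1) η ≤ (3 * T) * SS (j + 1) η :=
      mul_le_mul_of_nonneg_right (by linarith) hSS
    linarith
  have hsub : GG T A C₀ ⊆ Icc T (2 * T) := fun t ht => ⟨ht.1, ht.2.1⟩
  have cz : Continuous fun t : ℝ => riemannZeta (sp η t) := AuxUpp.zeta_cont hη1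
  have cd : Continuous fun t : ℝ => DN N η t := AuxUpp.DN_cont N η
  have i0 : IntegrableOn (fun t : ℝ => ‖riemannZeta (sp η t)‖ ^ (2 * (j + 1))) (GG T A C₀) :=
    ((cz.norm.pow _).integrableOn_Icc).mono_set hsub
  have i1 : IntegrableOn (fun t : ℝ => ‖riemannZeta (sp η t) - DN N η t‖ ^ (2 * (j + 1)))
      (GG T A C₀) := (((cz.sub cd).norm.pow _).integrableOn_Icc).mono_set hsub
  have i2 : IntegrableOn (fun t : ℝ => ‖DN N η t‖ ^ (2 * (j + 1))) (Icc T (2 * T)) :=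
    (cd.norm.pow _).integrableOn_Icc
  have i3 : IntegrableOn (fun t : ℝ => ‖DN N η t‖ ^ (2 * (j + 1))) (GG T A C₀) := i2.mono_set hsub
  have g4 : ∫ t in GG T A C₀, ‖DN N η t‖ ^ (2 * (j + 1)) ≤ 3 * (T * SS (j + 1) η) := by
    calc ∫ t in GG T A C₀, ‖DN N η t‖ ^ (2 * (j + 1))
        ≤ ∫ t in Icc T (2 * T), ‖DN N η t‖ ^ (2 * (j + 1)) :=
          setIntegral_mono_set i2 (Eventually.of_forall fun t => by positivity)
            (HasSubset.Subset.eventuallyLE hsub)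
      _ = ∫ t in T..(2 * T), ‖DN N η t‖ ^ (2 * (j + 1)) := by
          rw [intervalIntegral.integral_of_le (by linarith), integral_Icc_eq_integral_Ioc]
      _ ≤ _ := g3
  have hexp : Real.exp (-(c * (η * Real.log T))) ≤ 1 := by
    apply Real.exp_le_one_iff.2
    have : 0 ≤ c * (η * Real.log T) := by positivity
    linarith
  have g5 : C * Real.exp (-(c * (η * Real.log T))) * (T * SS (j + 1) η) ≤ C * (T * SS (j + 1) η) := by
    apply mul_le_mul_of_nonneg_right _ (by positivity)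
    have : C * Real.exp (-(c * (η * Real.log T))) ≤ C * 1 := mul_le_mul_of_nonneg_left hexp (by linarith)
    linarith
  calc ∫ t in GG T A C₀, ‖riemannZeta (sp η t)‖ ^ (2 * (j + 1))
      ≤ ∫ t in GG T A C₀, (4 ^ (j + 1) * ‖riemannZeta (sp η t) - DN N η t‖ ^ (2 * (j + 1)) +
          4 ^ (j + 1) * ‖DN N η t‖ ^ (2 * (j + 1))) :=
        setIntegral_mono i0 ((i1.const_mul _).add (i3.const_mul _))
          (fun t => AuxYUp.split _ _ _)
    _ = 4 ^ (j + 1) * (∫ t in GG T A C₀, ‖riemannZeta (sp η t) - DN N η t‖ ^ (2 * (j + 1))) +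
          4 ^ (j + 1) * ∫ t in GG T A C₀, ‖DN N η t‖ ^ (2 * (j + 1)) := by
        rw [integral_add (i1.const_mul _) (i3.const_mul _), integral_const_mul,
          integral_const_mul]
    _ ≤ 4 ^ (j + 1) * (C * (T * SS (j + 1) η)) + 4 ^ (j + 1) * (3 * (T * SS (j + 1) η)) := by
        apply add_le_add
        · exact mul_le_mul_of_nonneg_left (g1.trans g5) (by positivity)
        · exact mul_le_mul_of_nonneg_left g4 (by positivity)
    _ = 4 ^ (j + 1) * (C + 3) * (T * SS (j + 1) η) := by ring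

end Pool.Agent.Work.MP_56b8f5_nt.HN
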