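import Pool.Agent.Work.MP_56b8f5_nt.HN.AllX
import Pool.Agent.Work.MP_56b8f5_nt.HN.I_YPm
import Pool.Agent.Work.MP_56b8f5_nt.HN.I_YDx
import Pool.Agent.Work.MP_56b8f5_nt.HN.I_YBd
import Pool.Agent.Work.MP_56b8f5_nt.HN.I_YHQ
import Pool.Agent.Work.MP_56b8f5_nt.HN.I_YAp
import Pool.Agent.Work.MP_56b8f5_nt.HN.I_YAv
import Pool.Agent.Work.MP_56b8f5_nt.HN.I_YUp
import Pool.Agent.Work.MP_56b8f5_nt.HN.I_YSm
import Pool.Agent.Work.MP_56b8f5_nt.HN.I_YAw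
import Pool.Agent.Work.MP_56b8f5_nt.HN.I_YSh
import Pool.Agent.Work.MP_56b8f5_nt.HN.I_FinY

/-!
MP_56b8f5_nt, block HN, part Y: the assembly. `all_FinY : S_FinY`.
-/

set_option autoImplicit false

noncomputable section

namespace Pool.Agent.Work.MP_56b8f5_nt.HN

open Pool.Agent.Work.MP_56b8f5_nt.EM Pool.Agent.Work.MP_56b8f5_nt.WM Pool.Agent.Work.MP_56b8f5_nt.SH
open Pool.Agent.Work.MP_56b8f5_nt.HZ

theorem all_YDx : S_YDx := YDx_pf WM.Mert_pf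
theorem all_YBd : S_YBd := YBd_pf (YPm_pf MvN_pf) all_YDx
theorem all_YHQ : S_YHQ := YHQ_pf all_PWU all_YBd all_YDx
theorem all_YAp : S_YAp := YAp_pf all_ApR all_YHQ DeR_pf all_MnE all_TwA all_Dpw all_SSb GGm_pf
theorem all_YAv : S_YAv := YAv_pf all_YAp ZsI_pf DyS_pf
theorem all_YUp : S_YUp := YUp_pf all_YAp NNp_pf all_DkM
theorem all_YSm : S_YSm := YSm_pf all_YUp DyI_pf (DyB_pf Zgr_pf) DyS_pf ZsI_pf all_SSb
theorem all_YAw : S_YAw := YAw_pf all_PrJ all_PwD all_DkM all_YAv all_YSm all_SSb ZsI_pf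
theorem all_YSh : S_YSh := YSh_pf all_YAw all_CmW all_MnW all_PwD ZsI_pf all_SSb
theorem all_FinY : S_FinY := FinY_pf all_DyM ZsI_pf all_YSh all_akS all_SSb all_dwB

end Pool.Agent.Work.MP_56b8f5_nt.HN
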