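import Pool.Agent.Work.MP_56b8f5_nt.HN.StmtsB
import Pool.Agent.Work.MP_56b8f5_nt.HZ.B_N2M

/-!
MP_56b8f5_nt, block HN, part (III): item CoC (coefficients of a product with coprime supports).
-/

set_option autoImplicit false

open MeasureTheory Set Filter Topology

noncomputable section

namespace Pool.Agent.Work.MP_56b8f5_nt.HN

open Pool.Agent.Work.MP_56b8f5_nt.SH Pool.Agent.Work.MP_56b8f5_nt.HZ Pool.Agent.Work.MP_56b8f5_nt.HZB

theorem CoC_pf : S_CoC := by
  intro S S' η α β hd hα hβ h1 h2 n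
  by_cases hn : n ∈ (α * β).coeff.support
  · obtain ⟨a, ha, b, hb, rfl⟩ := Finset.mem_mul.1 (MonoidAlgebra.support_coeff_mul_subset α β hn)
    rw [AuxN2M.coeff_eq hd hα hβ ha hb]
    obtain ⟨x, hx0, hx1, hx2⟩ := h1 a
    obtain ⟨y, hy0, hy1, hy2⟩ := h2 b
    refine ⟨x * y, mul_nonneg hx0 hy0, ?_, ?_⟩
    · calc x * y ≤ pe1 η a * pe1 η b := mul_le_mul hx1 hy1 hy0 (hx0.trans hx1)
        _ = pe1 η (a * b) := by
          unfold pe1
          rw [Nat.cast_mul, Real.mul_rpow (Nat.cast_nonneg a) (Nat.cast_nonneg b)]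
    · rw [hx2, hy2]
      push_cast
      rfl
  · refine ⟨0, le_rfl, Real.rpow_nonneg (Nat.cast_nonneg n) _, ?_⟩
    rw [Finsupp.notMem_support_iff.1 hn]
    simp

end Pool.Agent.Work.MP_56b8f5_nt.HN
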