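import Pool.Agent.Work.MP_56b8f5_nt.HZ.Defs
import Pool.Agent.Work.MP_56b8f5_nt.HZ.BDefs

/-!
MP_56b8f5_nt (eighth moment of the Riemann zeta function), block HN (asymptotic formula for the moments
on all lines up to the distance `Φ/log T` from the critical line, over the set `GG T A C` of block HZ): definitions.
Paper proof: note 4699 of helper54.

`L` always means `log T`, `η` is the distance from the critical line. The Dirichlet polynomials are evaluated on
the line `1/2`, the shift to the line `1/2 + η` is in the coefficients (a factor `n^{-η}`).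
-/

set_option autoImplicit false

open MeasureTheory Set Filter Topology

noncomputable section

namespace Pool.Agent.Work.MP_56b8f5_nt.HN

open Pool.Agent.Work.MP_56b8f5_nt.EM Pool.Agent.Work.MP_56b8f5_nt.WM Pool.Agent.Work.MP_56b8f5_nt.SH
open Pool.Agent.Work.MP_56b8f5_nt.HZ

/-- `d_k(n)`, the number of ordered factorisations of `n` into `k` factors (`0` for `n = 0`; `d_0(n) = 1` only for `n = 1`). -/
def dk (k n : ℕ) : ℝ := (((ArithmeticFunction.zeta : ArithmeticFunction ℕ) ^ k) n : ℝ)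

/-- `S_k(η) = ∑ d_k(n)² n^{-1-2η}`. -/
def SS (k : ℕ) (η : ℝ) : ℝ := ∑' n : ℕ, dk k n ^ 2 * (n : ℝ) ^ (-(1 + 2 * η))

/-- The point `1/2 + η + it`. -/
def sp (η t : ℝ) : ℂ := ((1 / 2 + η : ℝ) : ℂ) + t * Complex.I

/-- Coefficients `0 ≤ q(n) ≤ d_k(n) n^{-η}` of a Dirichlet polynomial of length `N ≤ T^{1/100}`. -/
structure IsDk (k : ℕ) (η T : ℝ) (N : ℕ) (q : ℕ → ℝ) : Prop where
  nonneg : ∀ n, 0 ≤ q n
  le : ∀ n, q n ≤ dk k n * (n : ℝ) ^ (-η)
  supp : ∀ n, q n ≠ 0 → 1 ≤ n ∧ n ≤ N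
  one : 1 ≤ N
  len : (N : ℝ) ^ 100 ≤ T

/-- The value at `1/2 + it` of the Dirichlet polynomial with real coefficients `q`. -/
def De (N : ℕ) (q : ℕ → ℝ) (t : ℝ) : ℂ := Ds N (fun n => (q n : ℂ)) (1 / 2 + t * Complex.I)

/-- `∑_{n ≤ N} n^{-s}`, `s = 1/2 + η + it`. -/
def DN (N : ℕ) (η t : ℝ) : ℂ := Ds N (fun _ => 1) (sp η t)

/-- The pointwise upper bound for a function `z` on the set `E`, by Dirichlet polynomials of every length `x` between `log T` and
`T^b₀`, with error `K log T/log x` in the exponent (`HZB.Hyp` is the case `z t = |zeta(1/2+it)|`). -/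
def HypN (v : ℝ → ℕ → ℝ) (K b₀ T : ℝ) (E : Set ℝ) (z : ℝ → ℝ) : Prop :=
  ∀ t ∈ E, ∀ x : ℝ, Real.log T ≤ x → x ≤ T ^ b₀ →
    z t ≤ Real.exp ((∑ n ∈ Finset.Icc 1 ⌊x⌋₊,
        ((ArithmeticFunction.vonMangoldt n / Real.log n * v x n : ℝ) : ℂ) * chi t n).re +
        K * (Real.log T / Real.log x))

end Pool.Agent.Work.MP_56b8f5_nt.HN
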