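import Pool.Agent.Work.MP_56b8f5_nt.HN.StmtsM

/-!
MP_56b8f5_nt, block HN, item NNp: the length.
-/

set_option autoImplicit false

open MeasureTheory Set Filter Topology

noncomputable section

namespace Pool.Agent.Work.MP_56b8f5_nt.HN

open Pool.Agent.Work.MP_56b8f5_nt.EM Pool.Agent.Work.MP_56b8f5_nt.WM Pool.Agent.Work.MP_56b8f5_nt.SH
open Pool.Agent.Work.MP_56b8f5_nt.HZ

theorem NNp_pf : S_NNp := by
  intro k hk T hT
  have hk0 : (0 : ℝ) < k := by exact_mod_cast hk
  have hT0 : (0 : ℝ) < T := by linarith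
  have hL : 0 ≤ Real.log T / (100 * k) :=
    div_nonneg (Real.log_nonneg (by linarith)) (by positivity)
  set y : ℝ := Real.exp (Real.log T / (100 * k)) with hy
  have hy1 : 1 ≤ y := Real.one_le_exp hL
  have hy0 : 0 < y := by linarith
  have hN1 : 1 ≤ ⌊y⌋₊ := Nat.le_floor (by exact_mod_cast hy1)
  have hN1' : (1 : ℝ) ≤ (⌊y⌋₊ : ℝ) := by exact_mod_cast hN1
  have hNy : (⌊y⌋₊ : ℝ) ≤ y := Nat.floor_le hy0.le
  have hyN : y < (⌊y⌋₊ : ℝ) + 1 := Nat.lt_floor_add_one y
  refine ⟨⌊y⌋₊, hN1, ?_, ?_⟩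
  · rw [Nat.cast_pow, ← pow_mul]
    calc (⌊y⌋₊ : ℝ) ^ (k * 100) ≤ y ^ (k * 100) := pow_le_pow_left₀ (by positivity) hNy _
      _ = T := by
          rw [hy, ← Real.exp_nat_mul]
          have h1 : ((k * 100 : ℕ) : ℝ) * (Real.log T / (100 * k)) = Real.log T := by
            push_cast
            field_simp
          rw [h1, Real.exp_log hT0]
  · intro η hη0 hη1
    have hN0 : (0 : ℝ) < (⌊y⌋₊ : ℝ) := by linarith
    rw [Real.rpow_def_of_pos hN0]
    have h2 : Real.log y ≤ Real.log 2 + Real.log (⌊y⌋₊ : ℝ) := by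
      rw [← Real.log_mul (by norm_num) hN0.ne']
      exact Real.log_le_log hy0 (by linarith)
    have h3 : Real.log y = Real.log T / (100 * k) := by rw [hy, Real.log_exp]
    have h4 : 0 ≤ Real.log 2 := Real.log_nonneg (by norm_num)
    have h5 : Real.log (⌊y⌋₊ : ℝ) * -η ≤ Real.log 2 + -(η * Real.log T / (100 * k)) := by
      have h6 : η * Real.log y ≤ η * (Real.log 2 + Real.log (⌊y⌋₊ : ℝ)) :=
        mul_le_mul_of_nonneg_left h2 hη0
      have h7 : η * Real.log 2 ≤ 1 * Real.log 2 := mul_le_mul_of_nonneg_right hη1 h4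
      have h8 : η * Real.log y = η * Real.log T / (100 * k) := by rw [h3]; ring
      rw [← h8]
      linarith
    refine (Real.exp_le_exp.2 h5).trans (le_of_eq ?_)
    rw [Real.exp_add, Real.exp_log (by norm_num)]

end Pool.Agent.Work.MP_56b8f5_nt.HN
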