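import Pool.Agent.Work.MP_56b8f5_nt.HN.StmtsX
import Pool.Agent.Work.MP_56b8f5_nt.HN.I_NNp
import Pool.Agent.Work.MP_56b8f5_nt.HN.I_Low
import Pool.Agent.Work.MP_56b8f5_nt.HN.I_ApK

/-!
MP_56b8f5_nt, block HN, item ApX: approximation of a product of shifted zetas in the mean square.
-/

set_option autoImplicit false

open MeasureTheory Set Filter Topology

noncomputable section

namespace Pool.Agent.Work.MP_56b8f5_nt.HN

open Pool.Agent.Work.MP_56b8f5_nt.EM Pool.Agent.Work.MP_56b8f5_nt.WM Pool.Agent.Work.MP_56b8f5_nt.SH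
open Pool.Agent.Work.MP_56b8f5_nt.HZ

namespace AuxApX

theorem powexp (m : ℕ) (a X : ℝ) (ha : 0 < a) (hX : 0 ≤ X) :
    X ^ m * Real.exp (-(2 * a * X)) ≤ (m.factorial / a ^ m) * Real.exp (-(a * X)) := by
  have h := Real.pow_div_factorial_le_exp (a * X) (by positivity) m
  rw [div_le_iff₀ (by positivity), mul_pow] at h
  have h1 : X ^ m ≤ m.factorial / a ^ m * Real.exp (a * X) := by
    rw [div_mul_eq_mul_div, le_div_iff₀ (by positivity)]
    linarith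
  calc X ^ m * Real.exp (-(2 * a * X)) ≤
      (m.factorial / a ^ m * Real.exp (a * X)) * Real.exp (-(2 * a * X)) :=
        mul_le_mul_of_nonneg_right h1 (Real.exp_pos _).le
    _ = (m.factorial / a ^ m) * Real.exp (-(a * X)) := by
        rw [mul_assoc, ← Real.exp_add]
        congr 2
        ring

theorem shift (g : ℝ → ℝ) (hg : Continuous g) (h0 : ∀ u, 0 ≤ g u) (E F : Set ℝ)
    (hE : MeasurableSet E) (hF : MeasurableSet F) (a p q : ℝ) (hFs : F ⊆ Icc p q)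
    (hEF : ∀ t ∈ E, t + a ∈ F) : ∫ t in E, g (t + a) ≤ ∫ u in F, g u := by
  have hint : Integrable (F.indicator g) :=
    (integrable_indicator_iff hF).2 ((hg.integrableOn_Icc).mono_set hFs)
  rw [← integral_indicator hE, ← integral_indicator hF,
    ← integral_add_right_eq_self (F.indicator g) a]
  refine integral_mono_of_nonneg (Eventually.of_forall fun t => ?_) (hint.comp_add_right a)
    (Eventually.of_forall fun t => ?_)
  · exact indicator_nonneg (fun u _ => h0 _) t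
  · show E.indicator (fun t => g (t + a)) t ≤ F.indicator g (t + a)
    by_cases ht : t ∈ E
    · rw [indicator_of_mem ht, indicator_of_mem (hEF t ht)]
    · rw [indicator_of_notMem ht]
      exact indicator_nonneg (fun u _ => h0 _) _

theorem prod_sq (k : ℕ) (hk : 1 ≤ k) (z : Fin k → ℂ) :
    ‖∏ j, z j‖ ^ 2 ≤ ∑ i, ‖z i‖ ^ (2 * k) := by
  have : Nonempty (Fin k) := ⟨⟨0, hk⟩⟩
  obtain ⟨i, -, hi⟩ := Finset.exists_max_image (Finset.univ : Finset (Fin k)) (fun j => ‖z j‖)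
    Finset.univ_nonempty
  have h1 : ‖∏ j, z j‖ ≤ ‖z i‖ ^ k := by
    rw [norm_prod]
    calc ∏ j, ‖z j‖ ≤ ∏ _j : Fin k, ‖z i‖ :=
          Finset.prod_le_prod (fun j _ => norm_nonneg _) (fun j hj => hi j hj)
      _ = ‖z i‖ ^ k := by rw [Finset.prod_const, Finset.card_univ, Fintype.card_fin]
  calc ‖∏ j, z j‖ ^ 2 ≤ (‖z i‖ ^ k) ^ 2 := pow_le_pow_left₀ (norm_nonneg _) h1 2
    _ = ‖z i‖ ^ (2 * k) := by rw [← pow_mul, mul_comm]
    _ ≤ ∑ i, ‖z i‖ ^ (2 * k) :=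
        Finset.single_le_sum (f := fun i => ‖z i‖ ^ (2 * k)) (fun j _ => by positivity)
          (Finset.mem_univ i)

theorem cont_PX {k : ℕ} (T σ : ℝ) (x : Fin k → ℝ) : Continuous fun t : ℝ => PX T σ x t := by
  unfold PX
  refine continuous_finsetSum _ fun n hn => ?_
  have hn1 : (n : ℂ) ≠ 0 := by
    have := (Finset.mem_Icc.1 hn).1
    exact_mod_cast (by omega : n ≠ 0)
  have h1 : Continuous fun t : ℝ => -((σ : ℂ) + t * Complex.I) := by
    fun_prop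
  exact continuous_const.mul (h1.const_cpow (Or.inl hn1))

theorem Ex_meas {k : ℕ} (h8 : S_ZsI) (T A C : ℝ) (hT : 1 ≤ T) (x : Fin k → ℝ) :
    MeasurableSet (Ex T A C x) := by
  have h1 : Ex T A C x = Icc 0 T ∩ ⋂ j, (fun t : ℝ => t + x j) ⁻¹' Zs T A C := by
    ext t
    simp only [Ex, mem_ofPred_eq, mem_inter_iff, mem_Icc, mem_iInter, mem_preimage]
    tauto
  rw [h1]
  exact measurableSet_Icc.inter (MeasurableSet.iInter fun j =>
    (h8.1 T A C hT).preimage (measurable_id.add_const (x j)))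

/-- integral of a nonnegative continuous function over a part of an interval -/
theorem sub_int (f : ℝ → ℝ) (hf : Continuous f) (h0 : ∀ t, 0 ≤ f t) (E : Set ℝ) (a b : ℝ)
    (hab : a ≤ b) (hE : E ⊆ Icc a b) : ∫ t in E, f t ≤ ∫ t in a..b, f t := by
  rw [intervalIntegral.integral_of_le hab, ← integral_Icc_eq_integral_Ioc]
  exact setIntegral_mono_set hf.integrableOn_Icc (Eventually.of_forall fun t => h0 t)
    (Eventually.of_forall hE)

/-- the length `N₂` -/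
theorem N2 (T : ℝ) (hT : 16 ≤ T) : 2 * (⌊T ^ (1 / 200 : ℝ)⌋₊ : ℝ) ^ 2 ≤ Real.sqrt T := by
  have hT0 : 0 < T := by linarith
  have h1 : (⌊T ^ (1 / 200 : ℝ)⌋₊ : ℝ) ≤ T ^ (1 / 200 : ℝ) := Nat.floor_le (by positivity)
  have h2 : (⌊T ^ (1 / 200 : ℝ)⌋₊ : ℝ) ^ 2 ≤ T ^ (1 / 100 : ℝ) := by
    calc (⌊T ^ (1 / 200 : ℝ)⌋₊ : ℝ) ^ 2 ≤ (T ^ (1 / 200 : ℝ)) ^ 2 :=
          pow_le_pow_left₀ (Nat.cast_nonneg _) h1 2
      _ = T ^ (1 / 100 : ℝ) := by
          rw [← Real.rpow_natCast, ← Real.rpow_mul hT0.le]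
          norm_num
  have h3 : (2 : ℝ) ≤ T ^ (49 / 100 : ℝ) := by
    have e1 : (16 : ℝ) ^ (1 / 4 : ℝ) = 2 := by
      rw [show (16 : ℝ) = 2 ^ (4 : ℝ) by norm_num, ← Real.rpow_mul (by norm_num)]
      norm_num
    calc (2 : ℝ) = 16 ^ (1 / 4 : ℝ) := e1.symm
      _ ≤ T ^ (1 / 4 : ℝ) := Real.rpow_le_rpow (by norm_num) hT (by norm_num)
      _ ≤ T ^ (49 / 100 : ℝ) := Real.rpow_le_rpow_of_exponent_le (by linarith) (by norm_num)
  calc 2 * (⌊T ^ (1 / 200 : ℝ)⌋₊ : ℝ) ^ 2 ≤ T ^ (49 / 100 : ℝ) * T ^ (1 / 100 : ℝ) :=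
        mul_le_mul h3 h2 (by positivity) (by positivity)
    _ = Real.sqrt T := by
        rw [← Real.rpow_add hT0, Real.sqrt_eq_rpow]
        norm_num

/-- small heights -/
theorem part2 (k : ℕ) (hk : 1 ≤ k) (h2 : S_PxD) (T A C₀ η CS : ℝ) (hT : 16 ≤ T) (hη : 0 < η)
    (hη1 : η ≤ 1 / 8) (x : Fin k → ℝ) (hx : ∀ j, |x j| ≤ Real.sqrt T)
    (hZ : MeasurableSet (Zs T A C₀)) (E : Set ℝ) (hE : MeasurableSet E)
    (hE0 : ∀ t ∈ E, 0 ≤ t ∧ t ≤ 2 * Real.sqrt T ∧ ∀ j, t + x j ∈ Zs T A C₀)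
    (hS : ∫ u in Zs T A C₀ ∩ Icc (-(3 * Real.sqrt T)) (3 * Real.sqrt T),
      ‖riemannZeta (sp η u)‖ ^ (2 * k) ≤ CS * Real.sqrt T * SS k η)
    (hSS : 0 ≤ SS k η) :
    ∫ t in E, ‖(∏ j, riemannZeta (sp η (t + x j))) - PX T (1 / 2 + η) x t‖ ^ 2 ≤
      (2 * (k * CS) + 6) * (Real.sqrt T * SS k η) := by
  obtain ⟨CP, hCP, hP⟩ := h2 k
  have hs0 : 0 ≤ Real.sqrt T := Real.sqrt_nonneg T
  have hEI : E ⊆ Icc 0 (2 * Real.sqrt T) := fun t ht => ⟨(hE0 t ht).1, (hE0 t ht).2.1⟩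
  have hI : ∀ f : ℝ → ℝ, Continuous f → IntegrableOn f E := fun f hf =>
    (hf.integrableOn_Icc).mono_set hEI
  have cz : Continuous fun u : ℝ => riemannZeta (sp η u) := AuxLow.cont_zeta hη1
  have czj : ∀ j, Continuous fun t : ℝ => riemannZeta (sp η (t + x j)) := fun j =>
    cz.comp (continuous_add_const (x j))
  have cprod : Continuous fun t : ℝ => ∏ j, riemannZeta (sp η (t + x j)) :=
    continuous_finsetProd _ fun j _ => czj j
  have cP := cont_PX (k := k) T (1 / 2 + η) x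
  have ca : ∀ i, Continuous fun t : ℝ => ‖riemannZeta (sp η (t + x i))‖ ^ (2 * k) := fun i =>
    (czj i).norm.pow _
  have cb : Continuous fun t : ℝ => ‖PX T (1 / 2 + η) x t‖ ^ 2 := cP.norm.pow _
  have cf : Continuous fun t : ℝ =>
      ‖(∏ j, riemannZeta (sp η (t + x j))) - PX T (1 / 2 + η) x t‖ ^ 2 :=
    (cprod.sub cP).norm.pow _
  have cs : Continuous fun t : ℝ => ∑ i, ‖riemannZeta (sp η (t + x i))‖ ^ (2 * k) :=
    continuous_finsetSum _ fun i _ => ca i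
  have hpt : ∀ t : ℝ, ‖(∏ j, riemannZeta (sp η (t + x j))) - PX T (1 / 2 + η) x t‖ ^ 2 ≤
      2 * (∑ i, ‖riemannZeta (sp η (t + x i))‖ ^ (2 * k)) + 2 * ‖PX T (1 / 2 + η) x t‖ ^ 2 := by
    intro t
    have e1 := AuxApK.sq_add (∏ j, riemannZeta (sp η (t + x j))) (PX T (1 / 2 + η) x t) 0
    rw [sub_zero, sub_zero] at e1
    have e2 := prod_sq k hk (fun j => riemannZeta (sp η (t + x j)))
    linarith
  have h3 : ∫ t in E, ‖(∏ j, riemannZeta (sp η (t + x j))) - PX T (1 / 2 + η) x t‖ ^ 2 ≤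
      2 * (∑ i, ∫ t in E, ‖riemannZeta (sp η (t + x i))‖ ^ (2 * k)) +
      2 * ∫ t in E, ‖PX T (1 / 2 + η) x t‖ ^ 2 := by
    rw [← integral_finsetSum _ (fun i _ => hI _ (ca i)), ← integral_const_mul,
      ← integral_const_mul, ← integral_add ((hI _ cs).const_mul 2) ((hI _ cb).const_mul 2)]
    exact setIntegral_mono (hI _ cf) (((hI _ cs).const_mul 2).add ((hI _ cb).const_mul 2)) hpt
  have h4 : ∀ i, ∫ t in E, ‖riemannZeta (sp η (t + x i))‖ ^ (2 * k) ≤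
      CS * Real.sqrt T * SS k η := by
    intro i
    refine le_trans (shift (fun u => ‖riemannZeta (sp η u)‖ ^ (2 * k)) (cz.norm.pow _)
      (fun u => by positivity) E (Zs T A C₀ ∩ Icc (-(3 * Real.sqrt T)) (3 * Real.sqrt T)) hE
      (hZ.inter measurableSet_Icc) (x i) (-(3 * Real.sqrt T)) (3 * Real.sqrt T)
      inter_subset_right ?_) hS
    intro t ht
    obtain ⟨a1, a2, a3⟩ := hE0 t ht
    obtain ⟨b1, b2⟩ := abs_le.1 (hx i)
    exact ⟨a3 i, by constructor <;> linarith⟩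
  have h5 : ∫ t in E, ‖PX T (1 / 2 + η) x t‖ ^ 2 ≤ 3 * Real.sqrt T * SS k η := by
    have e1 := sub_int _ cb (fun t => by positivity) E 0 (2 * Real.sqrt T) (by positivity) hEI
    have e2 := (hP η hη hη1 T (by linarith) x 0 (2 * Real.sqrt T) (by positivity)).1
    have e3 := N2 T hT
    refine (e1.trans e2).trans (mul_le_mul_of_nonneg_right ?_ hSS)
    linarith
  have h6 : ∑ i, ∫ t in E, ‖riemannZeta (sp η (t + x i))‖ ^ (2 * k) ≤
      k * (CS * Real.sqrt T * SS k η) := by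
    calc ∑ i, ∫ t in E, ‖riemannZeta (sp η (t + x i))‖ ^ (2 * k) ≤
        ∑ _i : Fin k, CS * Real.sqrt T * SS k η := Finset.sum_le_sum fun i _ => h4 i
      _ = k * (CS * Real.sqrt T * SS k η) := by
          rw [Finset.sum_const, Finset.card_univ, Fintype.card_fin, nsmul_eq_mul]
  calc ∫ t in E, ‖(∏ j, riemannZeta (sp η (t + x j))) - PX T (1 / 2 + η) x t‖ ^ 2 ≤
      2 * (k * (CS * Real.sqrt T * SS k η)) + 2 * (3 * Real.sqrt T * SS k η) := by linarith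
    _ = (2 * (k * CS) + 6) * (Real.sqrt T * SS k η) := by ring

/-- large heights -/
theorem part1 (k : ℕ) (h1 : S_PrI) (hk : 1 ≤ k) (T A C₀ η V W P : ℝ) (N : ℕ) (hT : 16 ≤ T)
    (hη : 0 ≤ η) (hη1 : η ≤ 1 / 8) (x : Fin k → ℝ) (hx : ∀ j, |x j| ≤ Real.sqrt T)
    (hZ : MeasurableSet (Zs T A C₀)) (E : Set ℝ) (hE : MeasurableSet E)
    (hE0 : ∀ t ∈ E, 2 * Real.sqrt T ≤ t ∧ t ≤ T ∧ ∀ j, t + x j ∈ Zs T A C₀)
    (hV : ∫ u in Zs T A C₀ ∩ Icc (Real.sqrt T) (2 * T),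
      ‖riemannZeta (sp η u) - DN N η u‖ ^ (2 * k) ≤ V)
    (hW : ∀ y : ℝ, ∫ u in (Real.sqrt T)..(2 * T), ‖riemannZeta (sp η u) - DN N η u‖ ^ 2 *
      ‖DN N η (u + y)‖ ^ (2 * (k - 1)) ≤ W)
    (hP : ∫ t in (0 : ℝ)..T, ‖(∏ j, DN N η (t + x j)) - PX T (1 / 2 + η) x t‖ ^ 2 ≤ P) :
    ∫ t in E, ‖(∏ j, riemannZeta (sp η (t + x j))) - PX T (1 / 2 + η) x t‖ ^ 2 ≤
      4 * 4 ^ k * (k * V + k * (k * W)) + 2 * P := by
  have hs0 : 0 ≤ Real.sqrt T := Real.sqrt_nonneg T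
  have hsT : Real.sqrt T ≤ T := by
    have h3 := Real.sq_sqrt (show 0 ≤ T by linarith)
    have h4 : 1 ≤ Real.sqrt T := by
      rw [show (1 : ℝ) = Real.sqrt 1 by simp]
      exact Real.sqrt_le_sqrt (by linarith)
    nlinarith
  have hEI : E ⊆ Icc 0 T := fun t ht => ⟨by linarith [(hE0 t ht).1], (hE0 t ht).2.1⟩
  have hI : ∀ f : ℝ → ℝ, Continuous f → IntegrableOn f E := fun f hf =>
    (hf.integrableOn_Icc).mono_set hEI
  have cz : Continuous fun u : ℝ => riemannZeta (sp η u) := AuxLow.cont_zeta hη1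
  have cD : Continuous fun u : ℝ => DN N η u := AuxLow.cont_DN N η
  have czj : ∀ j, Continuous fun t : ℝ => riemannZeta (sp η (t + x j)) := fun j =>
    cz.comp (continuous_add_const (x j))
  have cDj : ∀ j, Continuous fun t : ℝ => DN N η (t + x j) := fun j =>
    cD.comp (continuous_add_const (x j))
  have cprod : Continuous fun t : ℝ => ∏ j, riemannZeta (sp η (t + x j)) :=
    continuous_finsetProd _ fun j _ => czj j
  have cprodD : Continuous fun t : ℝ => ∏ j, DN N η (t + x j) :=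
    continuous_finsetProd _ fun j _ => cDj j
  have cP := cont_PX (k := k) T (1 / 2 + η) x
  have ca : ∀ i, Continuous fun t : ℝ =>
      ‖riemannZeta (sp η (t + x i)) - DN N η (t + x i)‖ ^ (2 * k) := fun i =>
    ((czj i).sub (cDj i)).norm.pow _
  have cb : ∀ i j, Continuous fun t : ℝ =>
      ‖riemannZeta (sp η (t + x i)) - DN N η (t + x i)‖ ^ 2 * ‖DN N η (t + x j)‖ ^ (2 * (k - 1)) :=
    fun i j => (((czj i).sub (cDj i)).norm.pow _).mul ((cDj j).norm.pow _)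
  have cc : Continuous fun t : ℝ => ‖(∏ j, DN N η (t + x j)) - PX T (1 / 2 + η) x t‖ ^ 2 :=
    (cprodD.sub cP).norm.pow _
  have cf : Continuous fun t : ℝ =>
      ‖(∏ j, riemannZeta (sp η (t + x j))) - PX T (1 / 2 + η) x t‖ ^ 2 :=
    (cprod.sub cP).norm.pow _
  have csa : Continuous fun t : ℝ =>
      ∑ i, ‖riemannZeta (sp η (t + x i)) - DN N η (t + x i)‖ ^ (2 * k) :=
    continuous_finsetSum _ fun i _ => ca i
  have csb : Continuous fun t : ℝ => ∑ i, ∑ j,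
      ‖riemannZeta (sp η (t + x i)) - DN N η (t + x i)‖ ^ 2 * ‖DN N η (t + x j)‖ ^ (2 * (k - 1)) :=
    continuous_finsetSum _ fun i _ => continuous_finsetSum _ fun j _ => cb i j
  have csab : Continuous fun t : ℝ =>
      (∑ i, ‖riemannZeta (sp η (t + x i)) - DN N η (t + x i)‖ ^ (2 * k)) + ∑ i, ∑ j,
      ‖riemannZeta (sp η (t + x i)) - DN N η (t + x i)‖ ^ 2 * ‖DN N η (t + x j)‖ ^ (2 * (k - 1)) :=
    csa.add csb
  have hpt : ∀ t : ℝ, ‖(∏ j, riemannZeta (sp η (t + x j))) - PX T (1 / 2 + η) x t‖ ^ 2 ≤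
      4 * 4 ^ k * ((∑ i, ‖riemannZeta (sp η (t + x i)) - DN N η (t + x i)‖ ^ (2 * k)) +
        ∑ i, ∑ j, ‖riemannZeta (sp η (t + x i)) - DN N η (t + x i)‖ ^ 2 *
          ‖DN N η (t + x j)‖ ^ (2 * (k - 1))) +
      2 * ‖(∏ j, DN N η (t + x j)) - PX T (1 / 2 + η) x t‖ ^ 2 := by
    intro t
    have e1 := AuxApK.sq_add (∏ j, riemannZeta (sp η (t + x j))) (PX T (1 / 2 + η) x t)
      (∏ j, DN N η (t + x j))
    have e2 := h1 k hk (fun j => riemannZeta (sp η (t + x j))) (fun j => DN N η (t + x j))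
    rw [norm_sub_rev (PX T (1 / 2 + η) x t)] at e1
    linarith
  have h3 : ∫ t in E, ‖(∏ j, riemannZeta (sp η (t + x j))) - PX T (1 / 2 + η) x t‖ ^ 2 ≤
      4 * 4 ^ k * ((∑ i, ∫ t in E,
          ‖riemannZeta (sp η (t + x i)) - DN N η (t + x i)‖ ^ (2 * k)) +
        ∑ i, ∑ j, ∫ t in E, ‖riemannZeta (sp η (t + x i)) - DN N η (t + x i)‖ ^ 2 *
          ‖DN N η (t + x j)‖ ^ (2 * (k - 1))) +
      2 * ∫ t in E, ‖(∏ j, DN N η (t + x j)) - PX T (1 / 2 + η) x t‖ ^ 2 := by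
    have e1 : ∑ i, ∑ j, ∫ t in E, ‖riemannZeta (sp η (t + x i)) - DN N η (t + x i)‖ ^ 2 *
          ‖DN N η (t + x j)‖ ^ (2 * (k - 1)) =
        ∫ t in E, ∑ i, ∑ j, ‖riemannZeta (sp η (t + x i)) - DN N η (t + x i)‖ ^ 2 *
          ‖DN N η (t + x j)‖ ^ (2 * (k - 1)) := by
      rw [integral_finsetSum _ (fun i _ => hI _ (continuous_finsetSum _ fun j _ => cb i j))]
      refine Finset.sum_congr rfl fun i _ => ?_
      rw [integral_finsetSum _ (fun j _ => hI _ (cb i j))]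
    rw [e1, ← integral_finsetSum _ (fun i _ => hI _ (ca i)), ← integral_add (hI _ csa) (hI _ csb),
      ← integral_const_mul, ← integral_const_mul,
      ← integral_add ((hI _ csab).const_mul (4 * 4 ^ k)) ((hI _ cc).const_mul 2)]
    exact setIntegral_mono (hI _ cf)
      (((hI _ csab).const_mul (4 * 4 ^ k)).add ((hI _ cc).const_mul 2)) hpt
  have hshift : ∀ i : Fin k, ∀ t ∈ E, t + x i ∈ Zs T A C₀ ∧ Real.sqrt T ≤ t + x i ∧
      t + x i ≤ 2 * T := by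
    intro i t ht
    obtain ⟨a1, a2, a3⟩ := hE0 t ht
    obtain ⟨b1, b2⟩ := abs_le.1 (hx i)
    exact ⟨a3 i, by linarith, by linarith⟩
  have h4 : ∀ i, ∫ t in E, ‖riemannZeta (sp η (t + x i)) - DN N η (t + x i)‖ ^ (2 * k) ≤ V := by
    intro i
    refine le_trans (shift (fun u => ‖riemannZeta (sp η u) - DN N η u‖ ^ (2 * k))
      ((cz.sub cD).norm.pow _) (fun u => by positivity) E
      (Zs T A C₀ ∩ Icc (Real.sqrt T) (2 * T)) hE
      (hZ.inter measurableSet_Icc) (x i) (Real.sqrt T) (2 * T) inter_subset_right ?_) hV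
    intro t ht
    obtain ⟨a1, a2, a3⟩ := hshift i t ht
    exact ⟨a1, a2, a3⟩
  have h5 : ∀ i j, ∫ t in E, ‖riemannZeta (sp η (t + x i)) - DN N η (t + x i)‖ ^ 2 *
      ‖DN N η (t + x j)‖ ^ (2 * (k - 1)) ≤ W := by
    intro i j
    have e1 := shift (fun u => ‖riemannZeta (sp η u) - DN N η u‖ ^ 2 *
      ‖DN N η (u + (x j - x i))‖ ^ (2 * (k - 1)))
      (((cz.sub cD).norm.pow _).mul ((cD.comp (continuous_add_const (x j - x i))).norm.pow _))
      (fun u => by positivity) E (Icc (Real.sqrt T) (2 * T)) hE measurableSet_Icc (x i)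
      (Real.sqrt T) (2 * T) Subset.rfl (fun t ht => (hshift i t ht).2)
    have e2 : ∀ t : ℝ, t + x i + (x j - x i) = t + x j := fun t => by ring
    simp only [e2] at e1
    refine e1.trans ?_
    have e3 := hW (x j - x i)
    rw [intervalIntegral.integral_of_le (by linarith), ← integral_Icc_eq_integral_Ioc] at e3
    exact e3
  have h6 : ∫ t in E, ‖(∏ j, DN N η (t + x j)) - PX T (1 / 2 + η) x t‖ ^ 2 ≤ P :=
    (sub_int _ cc (fun t => by positivity) E 0 T (by linarith) hEI).trans hP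
  have h7 : ∑ i, ∫ t in E, ‖riemannZeta (sp η (t + x i)) - DN N η (t + x i)‖ ^ (2 * k) ≤ k * V := by
    calc ∑ i, ∫ t in E, ‖riemannZeta (sp η (t + x i)) - DN N η (t + x i)‖ ^ (2 * k) ≤
        ∑ _i : Fin k, V := Finset.sum_le_sum fun i _ => h4 i
      _ = k * V := by rw [Finset.sum_const, Finset.card_univ, Fintype.card_fin, nsmul_eq_mul]
  have h8 : ∑ i, ∑ j, ∫ t in E, ‖riemannZeta (sp η (t + x i)) - DN N η (t + x i)‖ ^ 2 *
      ‖DN N η (t + x j)‖ ^ (2 * (k - 1)) ≤ k * (k * W) := by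
    calc ∑ i, ∑ j, ∫ t in E, ‖riemannZeta (sp η (t + x i)) - DN N η (t + x i)‖ ^ 2 *
          ‖DN N η (t + x j)‖ ^ (2 * (k - 1)) ≤ ∑ _i : Fin k, ∑ _j : Fin k, W :=
          Finset.sum_le_sum fun i _ => Finset.sum_le_sum fun j _ => h5 i j
      _ = k * (k * W) := by
          simp only [Finset.sum_const, Finset.card_univ, Fintype.card_fin, nsmul_eq_mul]
  have h9 : (4 : ℝ) * 4 ^ k * ((∑ i, ∫ t in E,
          ‖riemannZeta (sp η (t + x i)) - DN N η (t + x i)‖ ^ (2 * k)) +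
        ∑ i, ∑ j, ∫ t in E, ‖riemannZeta (sp η (t + x i)) - DN N η (t + x i)‖ ^ 2 *
          ‖DN N η (t + x j)‖ ^ (2 * (k - 1))) ≤ 4 * 4 ^ k * (k * V + k * (k * W)) :=
    mul_le_mul_of_nonneg_left (add_le_add h7 h8) (by positivity)
  linarith

end AuxApX

open AuxApX in
theorem ApX_pf (h1 : S_PrI) (h2 : S_PxD) (h3 : S_CfX) (h4 : S_ApV) (h5 : S_TwV) (h6 : S_SmX)
    (h7 : S_SSb) (h8 : S_ZsI) : S_ApX := by
  intro k hk C₀ hC₀
  obtain ⟨CP, hCP, hP⟩ := h2 k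
  obtain ⟨cV, CV, TV, hcV, hCV, hTV, hV⟩ := h4 k hk C₀ (by linarith)
  obtain ⟨CW, TW, hCW, hTW, hW⟩ := h5 (k - 1)
  obtain ⟨cS, CS, TS, hcS, hCS, hTS, hS⟩ := h6 k hk C₀ hC₀
  obtain ⟨CB, hCB, hB⟩ := h7 k
  have hk0 : (0 : ℝ) < k := by exact_mod_cast hk
  obtain ⟨γ, hγ⟩ : ∃ γ : ℝ, γ = 1 / (400 * (k : ℝ)) := ⟨_, rfl⟩
  have hγ0 : 0 < γ := by rw [hγ]; positivity
  obtain ⟨Ce, hCe⟩ : ∃ Ce : ℝ, Ce = ((k ^ 2).factorial : ℝ) / γ ^ (k ^ 2) := ⟨_, rfl⟩
  have hCe0 : 0 < Ce := by rw [hCe]; positivity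
  obtain ⟨c, hc⟩ : ∃ c : ℝ, c = min (min cV cS) (min γ 1) := ⟨_, rfl⟩
  have hc0 : 0 < c := by rw [hc]; exact lt_min (lt_min hcV hcS) (lt_min hγ0 one_pos)
  have hc1 : c ≤ cV := by rw [hc]; exact (min_le_left _ _).trans (min_le_left _ _)
  have hc2 : c ≤ cS := by rw [hc]; exact (min_le_left _ _).trans (min_le_right _ _)
  have hc3 : c ≤ γ := by rw [hc]; exact (min_le_right _ _).trans (min_le_left _ _)
  have hc4 : c ≤ 1 := by rw [hc]; exact (min_le_right _ _).trans (min_le_right _ _)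
  refine ⟨c, 4 * 4 ^ k * (k * CV + k * (k * (2 * CW * CB * Ce))) + 2 * (4 * CP) +
    (2 * (k * CS) + 6), max (max TV TW) (max TS 16), hc0, ?_, ?_, ?_⟩
  · have e1 : (0 : ℝ) ≤ 4 * 4 ^ k * (k * CV + k * (k * (2 * CW * CB * Ce))) := by positivity
    have e2 : (0 : ℝ) ≤ k * CS := by positivity
    linarith
  · exact hTV.trans ((le_max_left _ _).trans (le_max_left _ _))
  intro T hT σ A hσ hA1 hA2 hA3 x hx
  obtain ⟨η, rfl⟩ : ∃ η : ℝ, σ = 1 / 2 + η := ⟨σ - 1 / 2, by ring⟩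
  have eη : (1 / 2 + η : ℝ) - 1 / 2 = η := by ring
  rw [eη] at hA2 ⊢
  have hη1 : η ≤ 1 / 8 := by linarith
  have hTV' : TV ≤ T := ((le_max_left _ _).trans (le_max_left _ _)).trans hT
  have hTW' : TW ≤ T := ((le_max_right _ _).trans (le_max_left _ _)).trans hT
  have hTS' : TS ≤ T := ((le_max_left _ _).trans (le_max_right _ _)).trans hT
  have hT16 : 16 ≤ T := ((le_max_right _ _).trans (le_max_right _ _)).trans hT
  have hT0 : 0 < T := by linarith
  have hL0 : 0 < Real.log T := Real.log_pos (by linarith)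
  have hX0 : 0 < η * Real.log T := by
    by_contra hcon
    have := mul_nonpos_of_nonneg_of_nonpos hc0.le (not_lt.1 hcon)
    linarith
  have hη0 : 0 < η := by
    by_contra hcon
    have := mul_nonpos_of_nonpos_of_nonneg (not_lt.1 hcon) hL0.le
    linarith
  have hY0 : 0 < Real.log T / Real.log (Real.log T) := by
    by_contra hcon
    have := mul_nonpos_of_nonneg_of_nonpos hc0.le (not_lt.1 hcon)
    linarith
  obtain ⟨M, hM⟩ : ∃ M : ℝ, M = min (η * Real.log T) (Real.log T / Real.log (Real.log T)) :=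
    ⟨_, rfl⟩
  have hM0 : 0 < M := by rw [hM]; exact lt_min hX0 hY0
  have hMX : M ≤ η * Real.log T := by rw [hM]; exact min_le_left _ _
  have hVV := hV T hTV' η A hη1 hA1 (hA2.trans (mul_le_mul_of_nonneg_right hc1 hX0.le))
    (hA3.trans (mul_le_mul_of_nonneg_right hc1 hY0.le))
  have hSS' := hS T hTS' (1 / 2 + η) A hσ hA1
    (by rw [eη]; exact hA2.trans (mul_le_mul_of_nonneg_right hc2 hX0.le))
    (hA3.trans (mul_le_mul_of_nonneg_right hc2 hY0.le))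
  have eS : ∑' n : ℕ, dk k n ^ 2 * (n : ℝ) ^ (-(2 * (1 / 2 + η))) = SS k η := by
    unfold SS
    refine tsum_congr fun n => ?_
    have : -(2 * (1 / 2 + η)) = -(1 + 2 * η) := by ring
    rw [this]
  rw [eS] at hSS' ⊢
  rw [← hM] at hVV ⊢
  obtain ⟨hsum, hSS1, hSSη, -⟩ := hB η hη0 hη1
  have hSS0 : 0 ≤ SS k η := by linarith
  have hs0 : 0 ≤ Real.sqrt T := Real.sqrt_nonneg T
  have hs4 : 4 ≤ Real.sqrt T := by
    rw [show (4 : ℝ) = Real.sqrt 16 by
      rw [show (16 : ℝ) = 4 ^ 2 by norm_num]; exact (Real.sqrt_sq (by norm_num)).symm]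
    exact Real.sqrt_le_sqrt hT16
  have hsq : Real.sqrt T ^ 2 = T := Real.sq_sqrt hT0.le
  -- the length
  obtain ⟨N, n1, n2, n3⟩ := NNp_pf k hk (Real.sqrt T) (by linarith)
  have n3' : (N : ℝ) ^ (-η) ≤ 2 * Real.exp (-(2 * γ * (η * Real.log T))) := by
    refine (n3 η hη0.le (by linarith)).trans (le_of_eq ?_)
    rw [Real.log_sqrt hT0.le, hγ]
    congr 2
    field_simp
    ring
  have n3'' : (N : ℝ) ^ (-η) ≤ 2 * Real.exp (-(η * Real.log T / (200 * k))) := by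
    refine n3'.trans (le_of_eq ?_)
    rw [hγ]
    congr 2
    field_simp
    ring
  have n4 : ((N ^ k : ℕ) : ℝ) ^ 200 ≤ T := by
    calc ((N ^ k : ℕ) : ℝ) ^ 200 = (((N ^ k : ℕ) : ℝ) ^ 100) ^ 2 := by rw [← pow_mul]
      _ ≤ Real.sqrt T ^ 2 := pow_le_pow_left₀ (by positivity) n2 2
      _ = T := hsq
  have n5 : N ^ k ≤ ⌊T ^ (1 / 200 : ℝ)⌋₊ := by
    refine Nat.le_floor ?_
    have e1 : (((N ^ k : ℕ) : ℝ) ^ 200) ^ (((200 : ℕ) : ℝ)⁻¹) = ((N ^ k : ℕ) : ℝ) :=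
      Real.pow_rpow_inv_natCast (Nat.cast_nonneg _) (by norm_num)
    have e2 : (((200 : ℕ) : ℝ)⁻¹) = (1 / 200 : ℝ) := by norm_num
    rw [e2] at e1
    rw [← e1]
    exact Real.rpow_le_rpow (by positivity) n4 (by norm_num)
  have n6 : (N : ℝ) ^ 200 ≤ T := by
    refine le_trans (pow_le_pow_left₀ (Nat.cast_nonneg _) ?_ 200) n4
    exact_mod_cast Nat.le_self_pow (by omega) N
  have n7 : ((N ^ (k - 1) : ℕ) : ℝ) ^ 100 ≤ Real.sqrt T := by
    refine le_trans (pow_le_pow_left₀ (Nat.cast_nonneg _) ?_ 100) n2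
    exact_mod_cast Nat.pow_le_pow_right n1 (by omega)
  have hVV := hVV N n1 n4 n3''
  -- the mixed integrals
  have hWW : ∀ y : ℝ, ∫ u in (Real.sqrt T)..(2 * T), ‖riemannZeta (sp η u) - DN N η u‖ ^ 2 *
      ‖DN N η (u + y)‖ ^ (2 * (k - 1)) ≤
      (2 * CW * CB * Ce) * Real.exp (-(c * M)) * (T * SS k η) := by
    intro y
    obtain ⟨q, q1, q2, -⟩ := h3 (k - 1) N η (Real.sqrt T) (fun _ => y) n1 hη0.le n7
    have e1 := hW T hTW' η hη0.le hη1 N n1 n6 (N ^ (k - 1)) q q1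
    have e2 : ∀ u : ℝ, ‖DN N η (u + y)‖ ^ (2 * (k - 1)) = ‖Dc (N ^ (k - 1)) q u‖ ^ 2 := by
      intro u
      have e3 := q2 u
      rw [Finset.prod_const, Finset.card_univ, Fintype.card_fin] at e3
      rw [← e3, norm_pow, ← pow_mul, mul_comm (k - 1) 2]
    simp only [e2]
    refine e1.trans ?_
    have hkk : k - 1 + 1 = k := by omega
    rw [hkk]
    have e4 : Real.log T ^ k ^ 2 = (η * Real.log T) ^ k ^ 2 * (1 / η) ^ k ^ 2 := by
      rw [← mul_pow]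
      congr 1
      field_simp
    have e5 : Real.log T ^ k ^ 2 ≤ (η * Real.log T) ^ k ^ 2 * (CB * SS k η) := by
      rw [e4]
      exact mul_le_mul_of_nonneg_left hSSη (by positivity)
    have e6 := powexp (k ^ 2) γ (η * Real.log T) hγ0 hX0.le
    rw [← hCe] at e6
    have e7 : Real.exp (-(γ * (η * Real.log T))) ≤ Real.exp (-(c * M)) := by
      refine Real.exp_le_exp.2 (neg_le_neg ?_)
      exact mul_le_mul hc3 hMX hM0.le hγ0.le
    calc CW * (T * Real.log T ^ k ^ 2) * (N : ℝ) ^ (-η) ≤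
        CW * (T * ((η * Real.log T) ^ k ^ 2 * (CB * SS k η))) *
          (2 * Real.exp (-(2 * γ * (η * Real.log T)))) := by
          refine mul_le_mul (mul_le_mul_of_nonneg_left
            (mul_le_mul_of_nonneg_left e5 hT0.le) (by linarith)) n3' (by positivity)
            (by positivity)
      _ = (2 * CW * CB) * ((η * Real.log T) ^ k ^ 2 *
            Real.exp (-(2 * γ * (η * Real.log T)))) * (T * SS k η) := by ring
      _ ≤ (2 * CW * CB) * (Ce * Real.exp (-(c * M))) * (T * SS k η) := by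
          refine mul_le_mul_of_nonneg_right (mul_le_mul_of_nonneg_left
            (e6.trans (mul_le_mul_of_nonneg_left e7 hCe0.le)) (by positivity)) (by positivity)
      _ = (2 * CW * CB * Ce) * Real.exp (-(c * M)) * (T * SS k η) := by ring
  -- the polynomial
  have hN2 := N2 T hT16
  have hsT : Real.sqrt T ≤ T := by nlinarith
  have hPP : ∫ t in (0 : ℝ)..T, ‖(∏ j, DN N η (t + x j)) - PX T (1 / 2 + η) x t‖ ^ 2 ≤
      (4 * CP) * Real.exp (-(c * M)) * (T * SS k η) := by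
    have e1 := (hP η hη0 hη1 T (by linarith) x 0 T hT0.le).2.1 N n1 n5
    refine e1.trans ?_
    have e7 : Real.exp (-(2 * γ * (η * Real.log T))) ≤ Real.exp (-(c * M)) := by
      refine Real.exp_le_exp.2 (neg_le_neg ?_)
      exact mul_le_mul (by linarith) hMX hM0.le (by positivity)
    have e2 : T - 0 + 2 * (⌊T ^ (1 / 200 : ℝ)⌋₊ : ℝ) ^ 2 ≤ 2 * T := by linarith
    calc (T - 0 + 2 * (⌊T ^ (1 / 200 : ℝ)⌋₊ : ℝ) ^ 2) * (CP * (N : ℝ) ^ (-η) * SS k η) ≤
        (2 * T) * (CP * (2 * Real.exp (-(c * M))) * SS k η) := by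
          refine mul_le_mul e2 (mul_le_mul_of_nonneg_right (mul_le_mul_of_nonneg_left
            (n3'.trans (by linarith)) (by linarith)) hSS0) (by positivity) (by positivity)
      _ = (4 * CP) * Real.exp (-(c * M)) * (T * SS k η) := by ring
  have hVV2 : ∫ u in Zs T A C₀ ∩ Icc (Real.sqrt T) (2 * T),
      ‖riemannZeta (sp η u) - DN N η u‖ ^ (2 * k) ≤ CV * Real.exp (-(c * M)) * (T * SS k η) := by
    refine hVV.trans (mul_le_mul_of_nonneg_right (mul_le_mul_of_nonneg_left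
      (Real.exp_le_exp.2 (neg_le_neg (mul_le_mul_of_nonneg_right hc1 hM0.le))) (by linarith))
      (by positivity))
  -- the sets
  have hEx := Ex_meas h8 T A C₀ (by linarith) x
  have hZ := h8.1 T A C₀ (by linarith)
  have hP1 := part1 k h1 hk T A C₀ η _ _ _ N hT16 hη0.le hη1 x hx hZ
    (Ex T A C₀ x ∩ Ici (2 * Real.sqrt T)) (hEx.inter measurableSet_Ici)
    (fun t ht => ⟨ht.2, ht.1.2.1, ht.1.2.2⟩) hVV2 hWW hPP
  have hP2 := part2 k hk h2 T A C₀ η CS hT16 hη0 hη1 x hx hZ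
    (Ex T A C₀ x \ Ici (2 * Real.sqrt T)) (hEx.diff measurableSet_Ici)
    (fun t ht => ⟨ht.1.1, (not_le.1 ht.2).le, ht.1.2.2⟩) hSS' hSS0
  have hcont : Continuous fun t : ℝ =>
      ‖(∏ j, riemannZeta (sp η (t + x j))) - PX T (1 / 2 + η) x t‖ ^ 2 := by
    have czj : ∀ j, Continuous fun t : ℝ => riemannZeta (sp η (t + x j)) := fun j =>
      (AuxLow.cont_zeta hη1).comp (continuous_add_const (x j))
    exact ((continuous_finsetProd _ fun j _ => czj j).sub (cont_PX T (1 / 2 + η) x)).norm.pow _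
  have hint : IntegrableOn (fun t : ℝ =>
      ‖(∏ j, riemannZeta (sp η (t + x j))) - PX T (1 / 2 + η) x t‖ ^ 2) (Ex T A C₀ x) :=
    (hcont.integrableOn_Icc (a := 0) (b := T)).mono_set fun t ht => ⟨ht.1, ht.2.1⟩
  have hsplit := integral_inter_add_diff (μ := volume)
    (measurableSet_Ici (a := 2 * Real.sqrt T)) hint
  -- the square root of `T`
  have hroot : Real.sqrt T ≤ T * Real.exp (-(c * M)) := by
    have e1 : Real.sqrt T = Real.exp (Real.log T / 2) := by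
      rw [← Real.log_sqrt hT0.le, Real.exp_log (by linarith)]
    have e2 : T * Real.exp (-(c * M)) = Real.exp (Real.log T + -(c * M)) := by
      rw [Real.exp_add, Real.exp_log hT0]
    rw [e1, e2]
    refine Real.exp_le_exp.2 ?_
    have e3 : c * M ≤ 1 * M := mul_le_mul_of_nonneg_right hc4 hM0.le
    have e4 : η * Real.log T ≤ 1 / 8 * Real.log T := mul_le_mul_of_nonneg_right hη1 hL0.le
    linarith
  have hP2' : ∫ t in Ex T A C₀ x \ Ici (2 * Real.sqrt T),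
      ‖(∏ j, riemannZeta (sp η (t + x j))) - PX T (1 / 2 + η) x t‖ ^ 2 ≤
      (2 * (k * CS) + 6) * Real.exp (-(c * M)) * (T * SS k η) := by
    refine hP2.trans ?_
    have e1 : (0 : ℝ) ≤ 2 * (k * CS) + 6 := by positivity
    calc (2 * (k * CS) + 6) * (Real.sqrt T * SS k η) ≤
        (2 * (k * CS) + 6) * (T * Real.exp (-(c * M)) * SS k η) :=
          mul_le_mul_of_nonneg_left (mul_le_mul_of_nonneg_right hroot hSS0) e1
      _ = (2 * (k * CS) + 6) * Real.exp (-(c * M)) * (T * SS k η) := by ring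
  show ∫ t in Ex T A C₀ x,
    ‖(∏ j, riemannZeta (sp η (t + x j))) - PX T (1 / 2 + η) x t‖ ^ 2 ≤ _
  rw [← hsplit]
  refine (add_le_add hP1 hP2').trans (le_of_eq ?_)
  ring

end Pool.Agent.Work.MP_56b8f5_nt.HN
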