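import Pool.Agent.Work.MP_56b8f5_nt.HN.StmtsW
import Pool.Agent.Work.MP_56b8f5_nt.HN.I_ApX

/-!
MP_56b8f5_nt, block HN, item ApW: approximation of a product of zetas at complex points in the mean square
(model: `I_ApX.lean`).
-/

set_option autoImplicit false

open MeasureTheory Set Filter Topology

noncomputable section

namespace Pool.Agent.Work.MP_56b8f5_nt.HN

open Pool.Agent.Work.MP_56b8f5_nt.EM Pool.Agent.Work.MP_56b8f5_nt.WM Pool.Agent.Work.MP_56b8f5_nt.SH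
open Pool.Agent.Work.MP_56b8f5_nt.HZ

namespace AuxApW

open AuxApX

theorem cont_PW {k : ℕ} (T : ℝ) (s : Fin k → ℂ) : Continuous fun t : ℝ => PW T s t := by
  unfold PW
  refine continuous_finsetSum _ fun n hn => ?_
  have hn1 : (n : ℂ) ≠ 0 := by
    have := (Finset.mem_Icc.1 hn).1
    exact_mod_cast (by omega : n ≠ 0)
  have h1 : Continuous fun t : ℝ => -((t : ℂ) * Complex.I) := by
    fun_prop
  exact continuous_const.mul (h1.const_cpow (Or.inl hn1))

theorem sp_eq (s : ℂ) (t : ℝ) : s + t * Complex.I = sp (s.re - 1 / 2) (t + s.im) := by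
  unfold sp
  apply Complex.ext
  · simp
  · simp
    ring

/-- `SS` is antitone -/
theorem SS_le (h7 : S_SSb) (k : ℕ) (η e : ℝ) (hη : 0 < η) (he : η ≤ e) (he1 : e ≤ 1 / 8) :
    SS k e ≤ SS k η := by
  obtain ⟨CB, hCB, hB⟩ := h7 k
  unfold SS
  refine (hB e (by linarith) he1).1.tsum_le_tsum (fun n => ?_) (hB η hη (by linarith)).1
  refine mul_le_mul_of_nonneg_left ?_ (sq_nonneg _)
  rcases Nat.eq_zero_or_pos n with h0 | h0
  · rw [h0, Nat.cast_zero, Real.zero_rpow (by linarith), Real.zero_rpow (by linarith)]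
  · exact Real.rpow_le_rpow_of_exponent_le (by exact_mod_cast h0) (by linarith)

/-- small heights -/
theorem part2 (k : ℕ) (hk : 1 ≤ k) (T A C₀ B B2 : ℝ) (x e : Fin k → ℝ) (he : ∀ j, e j ≤ 1 / 8)
    (hx : ∀ j, |x j| ≤ Real.sqrt T) (hZ : MeasurableSet (Zs T A C₀)) (E : Set ℝ)
    (hE : MeasurableSet E)
    (hE0 : ∀ t ∈ E, 0 ≤ t ∧ t ≤ 2 * Real.sqrt T ∧ ∀ j, t + x j ∈ Zs T A C₀)
    (P : ℝ → ℂ) (cP : Continuous P)
    (hS : ∀ j, ∫ u in Zs T A C₀ ∩ Icc (-(3 * Real.sqrt T)) (3 * Real.sqrt T),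
      ‖riemannZeta (sp (e j) u)‖ ^ (2 * k) ≤ B)
    (hP : ∫ t in (0 : ℝ)..(2 * Real.sqrt T), ‖P t‖ ^ 2 ≤ B2) :
    ∫ t in E, ‖(∏ j, riemannZeta (sp (e j) (t + x j))) - P t‖ ^ 2 ≤ 2 * (k * B) + 2 * B2 := by
  have hs0 : 0 ≤ Real.sqrt T := Real.sqrt_nonneg T
  have hEI : E ⊆ Icc 0 (2 * Real.sqrt T) := fun t ht => ⟨(hE0 t ht).1, (hE0 t ht).2.1⟩
  have hI : ∀ f : ℝ → ℝ, Continuous f → IntegrableOn f E := fun f hf =>
    (hf.integrableOn_Icc).mono_set hEI
  have cz : ∀ j, Continuous fun u : ℝ => riemannZeta (sp (e j) u) := fun j =>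
    AuxLow.cont_zeta (he j)
  have czj : ∀ j, Continuous fun t : ℝ => riemannZeta (sp (e j) (t + x j)) := fun j =>
    (cz j).comp (continuous_add_const (x j))
  have cprod : Continuous fun t : ℝ => ∏ j, riemannZeta (sp (e j) (t + x j)) :=
    continuous_finsetProd _ fun j _ => czj j
  have ca : ∀ i, Continuous fun t : ℝ => ‖riemannZeta (sp (e i) (t + x i))‖ ^ (2 * k) := fun i =>
    (czj i).norm.pow _
  have cb : Continuous fun t : ℝ => ‖P t‖ ^ 2 := cP.norm.pow _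
  have cf : Continuous fun t : ℝ => ‖(∏ j, riemannZeta (sp (e j) (t + x j))) - P t‖ ^ 2 :=
    (cprod.sub cP).norm.pow _
  have cs : Continuous fun t : ℝ => ∑ i, ‖riemannZeta (sp (e i) (t + x i))‖ ^ (2 * k) :=
    continuous_finsetSum _ fun i _ => ca i
  have hpt : ∀ t : ℝ, ‖(∏ j, riemannZeta (sp (e j) (t + x j))) - P t‖ ^ 2 ≤
      2 * (∑ i, ‖riemannZeta (sp (e i) (t + x i))‖ ^ (2 * k)) + 2 * ‖P t‖ ^ 2 := by
    intro t
    have e1 := AuxApK.sq_add (∏ j, riemannZeta (sp (e j) (t + x j))) (P t) 0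
    rw [sub_zero, sub_zero] at e1
    have e2 := prod_sq k hk (fun j => riemannZeta (sp (e j) (t + x j)))
    linarith
  have h3 : ∫ t in E, ‖(∏ j, riemannZeta (sp (e j) (t + x j))) - P t‖ ^ 2 ≤
      2 * (∑ i, ∫ t in E, ‖riemannZeta (sp (e i) (t + x i))‖ ^ (2 * k)) +
      2 * ∫ t in E, ‖P t‖ ^ 2 := by
    rw [← integral_finsetSum _ (fun i _ => hI _ (ca i)), ← integral_const_mul,
      ← integral_const_mul, ← integral_add ((hI _ cs).const_mul 2) ((hI _ cb).const_mul 2)]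
    exact setIntegral_mono (hI _ cf) (((hI _ cs).const_mul 2).add ((hI _ cb).const_mul 2)) hpt
  have h4 : ∀ i, ∫ t in E, ‖riemannZeta (sp (e i) (t + x i))‖ ^ (2 * k) ≤ B := by
    intro i
    refine le_trans (shift (fun u => ‖riemannZeta (sp (e i) u)‖ ^ (2 * k)) ((cz i).norm.pow _)
      (fun u => by positivity) E (Zs T A C₀ ∩ Icc (-(3 * Real.sqrt T)) (3 * Real.sqrt T)) hE
      (hZ.inter measurableSet_Icc) (x i) (-(3 * Real.sqrt T)) (3 * Real.sqrt T)
      inter_subset_right ?_) (hS i)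
    intro t ht
    obtain ⟨a1, a2, a3⟩ := hE0 t ht
    obtain ⟨b1, b2⟩ := abs_le.1 (hx i)
    exact ⟨a3 i, by constructor <;> linarith⟩
  have h5 : ∫ t in E, ‖P t‖ ^ 2 ≤ B2 :=
    (sub_int _ cb (fun t => by positivity) E 0 (2 * Real.sqrt T) (by positivity) hEI).trans hP
  have h6 : ∑ i, ∫ t in E, ‖riemannZeta (sp (e i) (t + x i))‖ ^ (2 * k) ≤ k * B := by
    calc ∑ i, ∫ t in E, ‖riemannZeta (sp (e i) (t + x i))‖ ^ (2 * k) ≤
        ∑ _i : Fin k, B := Finset.sum_le_sum fun i _ => h4 i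
      _ = k * B := by rw [Finset.sum_const, Finset.card_univ, Fintype.card_fin, nsmul_eq_mul]
  linarith

/-- large heights -/
theorem part1 (k : ℕ) (h1 : S_PrJ) (hk : 1 ≤ k) (T A C₀ μ V W Q : ℝ) (N : ℕ) (hT : 16 ≤ T)
    (hμ0 : 0 < μ) (hμ1 : μ ≤ 1) (x e : Fin k → ℝ) (he : ∀ j, e j ≤ 1 / 8)
    (hx : ∀ j, |x j| ≤ Real.sqrt T) (hZ : MeasurableSet (Zs T A C₀)) (E : Set ℝ)
    (hE : MeasurableSet E)
    (hE0 : ∀ t ∈ E, 2 * Real.sqrt T ≤ t ∧ t ≤ T ∧ ∀ j, t + x j ∈ Zs T A C₀)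
    (P : ℝ → ℂ) (cP : Continuous P)
    (hV : ∀ j, ∫ u in Zs T A C₀ ∩ Icc (Real.sqrt T) (2 * T),
      ‖riemannZeta (sp (e j) u) - DN N (e j) u‖ ^ (2 * k) ≤ V)
    (hW : ∀ j, ∫ u in (Real.sqrt T)..(2 * T), ‖DN N (e j) u‖ ^ (2 * k) ≤ W)
    (hQ : ∫ t in (0 : ℝ)..T, ‖(∏ j, DN N (e j) (t + x j)) - P t‖ ^ 2 ≤ Q) :
    ∫ t in E, ‖(∏ j, riemannZeta (sp (e j) (t + x j))) - P t‖ ^ 2 ≤
      2 * (2 * 4 ^ k * (k + 1)) * ((1 / μ) ^ (k * (k - 1)) * (k * V) + μ ^ k * (k * W)) + 2 * Q := by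
  have hs0 : 0 ≤ Real.sqrt T := Real.sqrt_nonneg T
  have hsT : Real.sqrt T ≤ T := by
    have h3 := Real.sq_sqrt (show 0 ≤ T by linarith)
    have h4 : 1 ≤ Real.sqrt T := by
      rw [show (1 : ℝ) = Real.sqrt 1 by simp]
      exact Real.sqrt_le_sqrt (by linarith)
    nlinarith
  have hEI : E ⊆ Icc 0 T := fun t ht => ⟨by linarith [(hE0 t ht).1], (hE0 t ht).2.1⟩
  have hI : ∀ f : ℝ → ℝ, Continuous f → IntegrableOn f E := fun f hf =>
    (hf.integrableOn_Icc).mono_set hEI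
  have cz : ∀ j, Continuous fun u : ℝ => riemannZeta (sp (e j) u) := fun j =>
    AuxLow.cont_zeta (he j)
  have cD : ∀ j, Continuous fun u : ℝ => DN N (e j) u := fun j => AuxLow.cont_DN N (e j)
  have czj : ∀ j, Continuous fun t : ℝ => riemannZeta (sp (e j) (t + x j)) := fun j =>
    (cz j).comp (continuous_add_const (x j))
  have cDj : ∀ j, Continuous fun t : ℝ => DN N (e j) (t + x j) := fun j =>
    (cD j).comp (continuous_add_const (x j))
  have cprod : Continuous fun t : ℝ => ∏ j, riemannZeta (sp (e j) (t + x j)) :=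
    continuous_finsetProd _ fun j _ => czj j
  have cprodD : Continuous fun t : ℝ => ∏ j, DN N (e j) (t + x j) :=
    continuous_finsetProd _ fun j _ => cDj j
  have ca : ∀ i, Continuous fun t : ℝ =>
      ‖riemannZeta (sp (e i) (t + x i)) - DN N (e i) (t + x i)‖ ^ (2 * k) := fun i =>
    ((czj i).sub (cDj i)).norm.pow _
  have cb : ∀ i, Continuous fun t : ℝ => ‖DN N (e i) (t + x i)‖ ^ (2 * k) := fun i =>
    (cDj i).norm.pow _
  have cc : Continuous fun t : ℝ => ‖(∏ j, DN N (e j) (t + x j)) - P t‖ ^ 2 :=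
    (cprodD.sub cP).norm.pow _
  have cf : Continuous fun t : ℝ => ‖(∏ j, riemannZeta (sp (e j) (t + x j))) - P t‖ ^ 2 :=
    (cprod.sub cP).norm.pow _
  have csa : Continuous fun t : ℝ =>
      ∑ i, ‖riemannZeta (sp (e i) (t + x i)) - DN N (e i) (t + x i)‖ ^ (2 * k) :=
    continuous_finsetSum _ fun i _ => ca i
  have csb : Continuous fun t : ℝ => ∑ i, ‖DN N (e i) (t + x i)‖ ^ (2 * k) :=
    continuous_finsetSum _ fun i _ => cb i
  obtain ⟨α, hα⟩ : ∃ α : ℝ, α = (1 / μ) ^ (k * (k - 1)) := ⟨_, rfl⟩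
  obtain ⟨β, hβ⟩ : ∃ β : ℝ, β = μ ^ k := ⟨_, rfl⟩
  obtain ⟨κ, hκ⟩ : ∃ κ : ℝ, κ = 2 * 4 ^ k * (k + 1) := ⟨_, rfl⟩
  have hα0 : 0 ≤ α := by rw [hα]; positivity
  have hβ0 : 0 ≤ β := by rw [hβ]; positivity
  have hκ0 : 0 ≤ κ := by rw [hκ]; positivity
  rw [← hα, ← hβ, ← hκ]
  have csab : Continuous fun t : ℝ =>
      α * (∑ i, ‖riemannZeta (sp (e i) (t + x i)) - DN N (e i) (t + x i)‖ ^ (2 * k)) +
      β * ∑ i, ‖DN N (e i) (t + x i)‖ ^ (2 * k) :=
    (continuous_const.mul csa).add (continuous_const.mul csb)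
  have hpt : ∀ t : ℝ, ‖(∏ j, riemannZeta (sp (e j) (t + x j))) - P t‖ ^ 2 ≤
      2 * κ * (α * (∑ i, ‖riemannZeta (sp (e i) (t + x i)) - DN N (e i) (t + x i)‖ ^ (2 * k)) +
        β * ∑ i, ‖DN N (e i) (t + x i)‖ ^ (2 * k)) +
      2 * ‖(∏ j, DN N (e j) (t + x j)) - P t‖ ^ 2 := by
    intro t
    have e1 := AuxApK.sq_add (∏ j, riemannZeta (sp (e j) (t + x j))) (P t)
      (∏ j, DN N (e j) (t + x j))
    have e2 := h1 k hk μ (fun j => riemannZeta (sp (e j) (t + x j)))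
      (fun j => DN N (e j) (t + x j)) hμ0 hμ1
    rw [← hα, ← hβ, ← hκ] at e2
    rw [norm_sub_rev (P t)] at e1
    linarith
  have h3 : ∫ t in E, ‖(∏ j, riemannZeta (sp (e j) (t + x j))) - P t‖ ^ 2 ≤
      2 * κ * (α * (∑ i, ∫ t in E,
          ‖riemannZeta (sp (e i) (t + x i)) - DN N (e i) (t + x i)‖ ^ (2 * k)) +
        β * ∑ i, ∫ t in E, ‖DN N (e i) (t + x i)‖ ^ (2 * k)) +
      2 * ∫ t in E, ‖(∏ j, DN N (e j) (t + x j)) - P t‖ ^ 2 := by
    rw [← integral_finsetSum _ (fun i _ => hI _ (ca i)),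
      ← integral_finsetSum _ (fun i _ => hI _ (cb i)),
      ← integral_const_mul, ← integral_const_mul,
      ← integral_add ((hI _ csa).const_mul α) ((hI _ csb).const_mul β),
      ← integral_const_mul, ← integral_const_mul,
      ← integral_add ((hI _ csab).const_mul (2 * κ)) ((hI _ cc).const_mul 2)]
    exact setIntegral_mono (hI _ cf)
      (((hI _ csab).const_mul (2 * κ)).add ((hI _ cc).const_mul 2)) hpt
  have hshift : ∀ i : Fin k, ∀ t ∈ E, t + x i ∈ Zs T A C₀ ∧ Real.sqrt T ≤ t + x i ∧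
      t + x i ≤ 2 * T := by
    intro i t ht
    obtain ⟨a1, a2, a3⟩ := hE0 t ht
    obtain ⟨b1, b2⟩ := abs_le.1 (hx i)
    exact ⟨a3 i, by linarith, by linarith⟩
  have h4 : ∀ i, ∫ t in E,
      ‖riemannZeta (sp (e i) (t + x i)) - DN N (e i) (t + x i)‖ ^ (2 * k) ≤ V := by
    intro i
    refine le_trans (shift (fun u => ‖riemannZeta (sp (e i) u) - DN N (e i) u‖ ^ (2 * k))
      (((cz i).sub (cD i)).norm.pow _) (fun u => by positivity) E
      (Zs T A C₀ ∩ Icc (Real.sqrt T) (2 * T)) hE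
      (hZ.inter measurableSet_Icc) (x i) (Real.sqrt T) (2 * T) inter_subset_right ?_) (hV i)
    intro t ht
    obtain ⟨a1, a2, a3⟩ := hshift i t ht
    exact ⟨a1, a2, a3⟩
  have h5 : ∀ i, ∫ t in E, ‖DN N (e i) (t + x i)‖ ^ (2 * k) ≤ W := by
    intro i
    have e1 := shift (fun u => ‖DN N (e i) u‖ ^ (2 * k)) ((cD i).norm.pow _)
      (fun u => by positivity) E (Icc (Real.sqrt T) (2 * T)) hE measurableSet_Icc (x i)
      (Real.sqrt T) (2 * T) Subset.rfl (fun t ht => (hshift i t ht).2)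
    refine e1.trans ?_
    have e3 := hW i
    rw [intervalIntegral.integral_of_le (by linarith), ← integral_Icc_eq_integral_Ioc] at e3
    exact e3
  have h6 : ∫ t in E, ‖(∏ j, DN N (e j) (t + x j)) - P t‖ ^ 2 ≤ Q :=
    (sub_int _ cc (fun t => by positivity) E 0 T (by linarith) hEI).trans hQ
  have h7 : ∑ i, ∫ t in E,
      ‖riemannZeta (sp (e i) (t + x i)) - DN N (e i) (t + x i)‖ ^ (2 * k) ≤ k * V := by
    calc ∑ i, ∫ t in E,
        ‖riemannZeta (sp (e i) (t + x i)) - DN N (e i) (t + x i)‖ ^ (2 * k) ≤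
        ∑ _i : Fin k, V := Finset.sum_le_sum fun i _ => h4 i
      _ = k * V := by rw [Finset.sum_const, Finset.card_univ, Fintype.card_fin, nsmul_eq_mul]
  have h8 : ∑ i, ∫ t in E, ‖DN N (e i) (t + x i)‖ ^ (2 * k) ≤ k * W := by
    calc ∑ i, ∫ t in E, ‖DN N (e i) (t + x i)‖ ^ (2 * k) ≤
        ∑ _i : Fin k, W := Finset.sum_le_sum fun i _ => h5 i
      _ = k * W := by rw [Finset.sum_const, Finset.card_univ, Fintype.card_fin, nsmul_eq_mul]
  have h9 : 2 * κ * (α * (∑ i, ∫ t in E,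
          ‖riemannZeta (sp (e i) (t + x i)) - DN N (e i) (t + x i)‖ ^ (2 * k)) +
        β * ∑ i, ∫ t in E, ‖DN N (e i) (t + x i)‖ ^ (2 * k)) ≤
      2 * κ * (α * (k * V) + β * (k * W)) :=
    mul_le_mul_of_nonneg_left (add_le_add (mul_le_mul_of_nonneg_left h7 hα0)
      (mul_le_mul_of_nonneg_left h8 hβ0)) (by positivity)
  linarith

/-- the choice of `μ` -/
theorem mu_bd (k : ℕ) (hk : 1 ≤ k) (a : ℝ) (ha : 0 ≤ a) :
    (1 / Real.exp (-(a / (2 * k ^ 2)))) ^ (k * (k - 1)) * Real.exp (-a) ≤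
        Real.exp (-(a / (2 * k))) ∧
      Real.exp (-(a / (2 * k ^ 2))) ^ k = Real.exp (-(a / (2 * k))) := by
  have hk0 : (0 : ℝ) < k := by exact_mod_cast hk
  have hk1 : (1 : ℝ) ≤ k := by exact_mod_cast hk
  constructor
  · rw [one_div, ← Real.exp_neg, neg_neg, ← Real.exp_nat_mul, ← Real.exp_add]
    refine Real.exp_le_exp.2 ?_
    have e1 : (((k * (k - 1) : ℕ)) : ℝ) = k * (k - 1) := by
      push_cast [Nat.cast_sub hk]
      ring
    rw [e1]
    have e2 : (k : ℝ) * (k - 1) * (a / (2 * k ^ 2)) = a / 2 - a / (2 * k) := by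
      field_simp
    rw [e2]
    have e3 : a / (2 * k) ≤ a / 2 := div_le_div_of_nonneg_left ha (by norm_num) (by linarith)
    linarith
  · rw [← Real.exp_nat_mul]
    congr 1
    field_simp

end AuxApW

open AuxApX AuxApW in
theorem ApW_pf (h1 : S_PrJ) (h2 : S_PwD) (h3 : S_DkM) (h4 : S_ApV) (h6 : S_SmX) (h7 : S_SSb)
    (h8 : S_ZsI) : S_ApW := by
  intro k hk C₀ hC₀
  obtain ⟨CP, hCP, hP⟩ := h2 k
  obtain ⟨cV, CV, TV, hcV, hCV, hTV, hV⟩ := h4 k hk C₀ (by linarith)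
  obtain ⟨cS, CS, TS, hcS, hCS, hTS, hS⟩ := h6 k hk C₀ hC₀
  obtain ⟨CB, hCB, hB⟩ := h7 k
  have hk0 : (0 : ℝ) < k := by exact_mod_cast hk
  have hk1 : (1 : ℝ) ≤ k := by exact_mod_cast hk
  obtain ⟨γ, hγ⟩ : ∃ γ : ℝ, γ = 1 / (400 * (k : ℝ)) := ⟨_, rfl⟩
  have hγ0 : 0 < γ := by rw [hγ]; positivity
  obtain ⟨c, hc⟩ : ∃ c : ℝ, c = min (min (cV / (2 * k)) cS) (min γ 1) := ⟨_, rfl⟩
  have hc0 : 0 < c := by
    rw [hc]; exact lt_min (lt_min (by positivity) hcS) (lt_min hγ0 one_pos)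
  have hc1' : c ≤ cV / (2 * k) := by rw [hc]; exact (min_le_left _ _).trans (min_le_left _ _)
  have hc1 : c ≤ cV := hc1'.trans (div_le_self hcV.le (by linarith))
  have hc2 : c ≤ cS := by rw [hc]; exact (min_le_left _ _).trans (min_le_right _ _)
  have hc3 : c ≤ γ := by rw [hc]; exact (min_le_right _ _).trans (min_le_left _ _)
  have hc4 : c ≤ 1 := by rw [hc]; exact (min_le_right _ _).trans (min_le_right _ _)
  refine ⟨c, 2 * (2 * 4 ^ k * (k + 1)) * (k * CV + k * 4) + 2 * (4 * CP) +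
    (2 * (k * CS) + 6), max TV (max TS 16), hc0, ?_, ?_, ?_⟩
  · have e1 : (0 : ℝ) ≤ 2 * (2 * 4 ^ k * (k + 1)) * (k * CV + k * 4) := by positivity
    have e2 : (0 : ℝ) ≤ k * CS := by positivity
    linarith
  · exact hTV.trans (le_max_left _ _)
  intro T hT σ A hσ hA1 hA2 hA3 s hs hx
  obtain ⟨η, rfl⟩ : ∃ η : ℝ, σ = 1 / 2 + η := ⟨σ - 1 / 2, by ring⟩
  have eη : (1 / 2 + η : ℝ) - 1 / 2 = η := by ring
  rw [eη] at hA2 hs ⊢
  have hη1 : η ≤ 1 / 8 := by linarith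
  have hTV' : TV ≤ T := (le_max_left _ _).trans hT
  have hTS' : TS ≤ T := ((le_max_left _ _).trans (le_max_right _ _)).trans hT
  have hT16 : 16 ≤ T := ((le_max_right _ _).trans (le_max_right _ _)).trans hT
  have hT0 : 0 < T := by linarith
  have hL0 : 0 < Real.log T := Real.log_pos (by linarith)
  have hX0 : 0 < η * Real.log T := by
    by_contra hcon
    have := mul_nonpos_of_nonneg_of_nonpos hc0.le (not_lt.1 hcon)
    linarith
  have hη0 : 0 < η := by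
    by_contra hcon
    have := mul_nonpos_of_nonpos_of_nonneg (not_lt.1 hcon) hL0.le
    linarith
  have hY0 : 0 < Real.log T / Real.log (Real.log T) := by
    by_contra hcon
    have := mul_nonpos_of_nonneg_of_nonpos hc0.le (not_lt.1 hcon)
    linarith
  obtain ⟨M, hM⟩ : ∃ M : ℝ, M = min (η * Real.log T) (Real.log T / Real.log (Real.log T)) :=
    ⟨_, rfl⟩
  have hM0 : 0 < M := by rw [hM]; exact lt_min hX0 hY0
  have hMX : M ≤ η * Real.log T := by rw [hM]; exact min_le_left _ _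
  have hMY : M ≤ Real.log T / Real.log (Real.log T) := by rw [hM]; exact min_le_right _ _
  -- the points
  obtain ⟨e, he⟩ : ∃ e : Fin k → ℝ, e = fun j => (s j).re - 1 / 2 := ⟨_, rfl⟩
  obtain ⟨x, hxe⟩ : ∃ x : Fin k → ℝ, x = fun j => (s j).im := ⟨_, rfl⟩
  have heη : ∀ j, η ≤ e j := fun j => by
    have := (hs j).1
    rw [he]
    simp only
    linarith
  have he1 : ∀ j, e j ≤ 1 / 8 := fun j => by
    have := (hs j).2
    rw [he]
    simp only
    linarith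
  have hx' : ∀ j, |x j| ≤ Real.sqrt T := fun j => by rw [hxe]; exact hx j
  have hs' : ∀ j, 1 / 2 + η ≤ (s j).re := fun j => (hs j).1
  have hXj : ∀ j, η * Real.log T ≤ e j * Real.log T := fun j =>
    mul_le_mul_of_nonneg_right (heη j) hL0.le
  have hSSj : ∀ j, SS k (e j) ≤ SS k η := fun j => SS_le h7 k η (e j) hη0 (heη j) (he1 j)
  have eS : ∀ δ : ℝ, ∑' n : ℕ, dk k n ^ 2 * (n : ℝ) ^ (-(2 * (1 / 2 + δ))) = SS k δ := by
    intro δ
    unfold SS
    refine tsum_congr fun n => ?_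
    have : -(2 * (1 / 2 + δ)) = -(1 + 2 * δ) := by ring
    rw [this]
  rw [eS η, ← hM]
  obtain ⟨hsum, hSS1, hSSη, -⟩ := hB η hη0 hη1
  have hSS0 : 0 ≤ SS k η := by linarith
  have hs0 : 0 ≤ Real.sqrt T := Real.sqrt_nonneg T
  have hs4 : 4 ≤ Real.sqrt T := by
    rw [show (4 : ℝ) = Real.sqrt 16 by
      rw [show (16 : ℝ) = 4 ^ 2 by norm_num]; exact (Real.sqrt_sq (by norm_num)).symm]
    exact Real.sqrt_le_sqrt hT16
  have hsq : Real.sqrt T ^ 2 = T := Real.sq_sqrt hT0.le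
  -- the length
  obtain ⟨N, n1, n2, n3⟩ := NNp_pf k hk (Real.sqrt T) (by linarith)
  have n3' : (N : ℝ) ^ (-η) ≤ 2 * Real.exp (-(2 * γ * (η * Real.log T))) := by
    refine (n3 η hη0.le (by linarith)).trans (le_of_eq ?_)
    rw [Real.log_sqrt hT0.le, hγ]
    congr 2
    field_simp
    ring
  have n3'' : ∀ j, (N : ℝ) ^ (-(e j)) ≤ 2 * Real.exp (-(e j * Real.log T / (200 * k))) := by
    intro j
    have h0 := heη j
    have h0' := he1 j
    refine (n3 (e j) (by linarith) (by linarith)).trans (le_of_eq ?_)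
    rw [Real.log_sqrt hT0.le]
    congr 2
    field_simp
    ring
  have n4 : ((N ^ k : ℕ) : ℝ) ^ 200 ≤ T := by
    calc ((N ^ k : ℕ) : ℝ) ^ 200 = (((N ^ k : ℕ) : ℝ) ^ 100) ^ 2 := by rw [← pow_mul]
      _ ≤ Real.sqrt T ^ 2 := pow_le_pow_left₀ (by positivity) n2 2
      _ = T := hsq
  have n5 : N ^ k ≤ ⌊T ^ (1 / 200 : ℝ)⌋₊ := by
    refine Nat.le_floor ?_
    have e1 : (((N ^ k : ℕ) : ℝ) ^ 200) ^ (((200 : ℕ) : ℝ)⁻¹) = ((N ^ k : ℕ) : ℝ) :=
      Real.pow_rpow_inv_natCast (Nat.cast_nonneg _) (by norm_num)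
    have e2 : (((200 : ℕ) : ℝ)⁻¹) = (1 / 200 : ℝ) := by norm_num
    rw [e2] at e1
    rw [← e1]
    exact Real.rpow_le_rpow (by positivity) n4 (by norm_num)
  have hN2 := N2 T hT16
  have hsT : Real.sqrt T ≤ T := by nlinarith
  -- the moments of `ζ - D`
  have hVV : ∀ j, ∫ u in Zs T A C₀ ∩ Icc (Real.sqrt T) (2 * T),
      ‖riemannZeta (sp (e j) u) - DN N (e j) u‖ ^ (2 * k) ≤
      CV * Real.exp (-(cV * M)) * (T * SS k η) := by
    intro j
    have hAj : A ≤ cV * (e j * Real.log T) :=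
      hA2.trans ((mul_le_mul_of_nonneg_right hc1 hX0.le).trans
        (mul_le_mul_of_nonneg_left (hXj j) hcV.le))
    have h0 := hV T hTV' (e j) A (he1 j) hA1 hAj
      (hA3.trans (mul_le_mul_of_nonneg_right hc1 hY0.le)) N n1 n4 (n3'' j)
    refine h0.trans ?_
    have e1 : Real.exp (-(cV * min (e j * Real.log T) (Real.log T / Real.log (Real.log T)))) ≤
        Real.exp (-(cV * M)) := by
      refine Real.exp_le_exp.2 (neg_le_neg (mul_le_mul_of_nonneg_left ?_ hcV.le))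
      exact le_min (hMX.trans (hXj j)) hMY
    have e2 : T * SS k (e j) ≤ T * SS k η := mul_le_mul_of_nonneg_left (hSSj j) hT0.le
    have e3 : 0 ≤ T * SS k η := by positivity
    calc CV * Real.exp (-(cV * min (e j * Real.log T) (Real.log T / Real.log (Real.log T)))) *
        (T * SS k (e j)) ≤
        CV * Real.exp (-(cV * min (e j * Real.log T) (Real.log T / Real.log (Real.log T)))) *
        (T * SS k η) := mul_le_mul_of_nonneg_left e2 (by positivity)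
      _ ≤ CV * Real.exp (-(cV * M)) * (T * SS k η) :=
        mul_le_mul_of_nonneg_right (mul_le_mul_of_nonneg_left e1 (by linarith)) e3
  -- the moments of `D`
  have hNk : 2 * ((N ^ k : ℕ) : ℝ) ^ 2 ≤ Real.sqrt T := by
    refine le_trans ?_ hN2
    have : ((N ^ k : ℕ) : ℝ) ≤ (⌊T ^ (1 / 200 : ℝ)⌋₊ : ℝ) := by exact_mod_cast n5
    have h0 := pow_le_pow_left₀ (Nat.cast_nonneg _) this 2
    linarith
  have hWW : ∀ j, ∫ u in (Real.sqrt T)..(2 * T), ‖DN N (e j) u‖ ^ (2 * k) ≤ 4 * (T * SS k η) := by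
    intro j
    have h0 := h3 k N (e j) (Real.sqrt T) (2 * T) n1 (hη0.trans_le (heη j)) (he1 j) (by linarith)
    refine h0.trans ?_
    have e1 : 2 * T - Real.sqrt T + 2 * ((N ^ k : ℕ) : ℝ) ^ 2 ≤ 4 * T := by linarith
    have e2 : 0 ≤ SS k (e j) := by
      have := (hB (e j) (hη0.trans_le (heη j)) (he1 j)).2.1
      linarith
    calc (2 * T - Real.sqrt T + 2 * ((N ^ k : ℕ) : ℝ) ^ 2) * SS k (e j) ≤
        (4 * T) * SS k (e j) := mul_le_mul_of_nonneg_right e1 e2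
      _ ≤ (4 * T) * SS k η := mul_le_mul_of_nonneg_left (hSSj j) (by linarith)
      _ = 4 * (T * SS k η) := by ring
  -- the polynomial
  have hPP : ∫ t in (0 : ℝ)..T, ‖(∏ j, DN N (e j) (t + x j)) - PW T s t‖ ^ 2 ≤
      (4 * CP) * Real.exp (-(c * M)) * (T * SS k η) := by
    have e1 := (hP η hη0 hη1 T (by linarith) s hs' 0 T hT0.le).2.1 N n1 n5
    rw [he, hxe]
    refine e1.trans ?_
    have e7 : Real.exp (-(2 * γ * (η * Real.log T))) ≤ Real.exp (-(c * M)) := by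
      refine Real.exp_le_exp.2 (neg_le_neg ?_)
      exact mul_le_mul (by linarith) hMX hM0.le (by positivity)
    have e2 : T - 0 + 2 * (⌊T ^ (1 / 200 : ℝ)⌋₊ : ℝ) ^ 2 ≤ 2 * T := by linarith
    calc (T - 0 + 2 * (⌊T ^ (1 / 200 : ℝ)⌋₊ : ℝ) ^ 2) * (CP * (N : ℝ) ^ (-η) * SS k η) ≤
        (2 * T) * (CP * (2 * Real.exp (-(c * M))) * SS k η) := by
          refine mul_le_mul e2 (mul_le_mul_of_nonneg_right (mul_le_mul_of_nonneg_left
            (n3'.trans (by linarith)) (by linarith)) hSS0) (by positivity) (by positivity)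
      _ = (4 * CP) * Real.exp (-(c * M)) * (T * SS k η) := by ring
  -- the parameter
  obtain ⟨μ, hμ⟩ : ∃ μ : ℝ, μ = Real.exp (-(cV * M / (2 * k ^ 2))) := ⟨_, rfl⟩
  have hμ0 : 0 < μ := by rw [hμ]; exact Real.exp_pos _
  have hμ1 : μ ≤ 1 := by
    rw [hμ]
    refine Real.exp_le_one_iff.2 (neg_nonpos.2 ?_)
    positivity
  obtain ⟨m1, m2⟩ := mu_bd k hk (cV * M) (by positivity)
  rw [← hμ] at m1 m2
  have m3 : Real.exp (-(cV * M / (2 * k))) ≤ Real.exp (-(c * M)) := by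
    refine Real.exp_le_exp.2 (neg_le_neg ?_)
    calc c * M ≤ cV / (2 * k) * M := mul_le_mul_of_nonneg_right hc1' hM0.le
      _ = cV * M / (2 * k) := by ring
  -- the sets
  have hEx : MeasurableSet (Ew T A C₀ s) := Ex_meas h8 T A C₀ (by linarith) (fun j => (s j).im)
  have hZ := h8.1 T A C₀ (by linarith)
  have hP1 := part1 k h1 hk T A C₀ μ _ _ _ N hT16 hμ0 hμ1 x e he1 hx' hZ
    (Ew T A C₀ s ∩ Ici (2 * Real.sqrt T)) (hEx.inter measurableSet_Ici)
    (fun t ht => ⟨ht.2, ht.1.2.1, fun j => by rw [hxe]; exact ht.1.2.2 j⟩) (PW T s)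
    (cont_PW T s) hVV hWW hPP
  have hSj : ∀ j, ∫ u in Zs T A C₀ ∩ Icc (-(3 * Real.sqrt T)) (3 * Real.sqrt T),
      ‖riemannZeta (sp (e j) u)‖ ^ (2 * k) ≤ CS * Real.sqrt T * SS k η := by
    intro j
    have e0 : (1 / 2 + e j : ℝ) - 1 / 2 = e j := by ring
    have h0 := hS T hTS' (1 / 2 + e j) A (by linarith [he1 j]) hA1
      (by
        rw [e0]
        exact hA2.trans ((mul_le_mul_of_nonneg_right hc2 hX0.le).trans
          (mul_le_mul_of_nonneg_left (hXj j) hcS.le)))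
      (hA3.trans (mul_le_mul_of_nonneg_right hc2 hY0.le))
    rw [eS (e j)] at h0
    exact h0.trans (mul_le_mul_of_nonneg_left (hSSj j) (by positivity))
  have hPs : ∫ t in (0 : ℝ)..(2 * Real.sqrt T), ‖PW T s t‖ ^ 2 ≤ 3 * Real.sqrt T * SS k η := by
    have e2 := (hP η hη0 hη1 T (by linarith) s hs' 0 (2 * Real.sqrt T) (by positivity)).1
    refine e2.trans (mul_le_mul_of_nonneg_right ?_ hSS0)
    linarith
  have hP2 := part2 k hk T A C₀ _ _ x e he1 hx' hZ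
    (Ew T A C₀ s \ Ici (2 * Real.sqrt T)) (hEx.diff measurableSet_Ici)
    (fun t ht => ⟨ht.1.1, (not_le.1 ht.2).le, fun j => by rw [hxe]; exact ht.1.2.2 j⟩) (PW T s)
    (cont_PW T s) hSj hPs
  have hcont : Continuous fun t : ℝ =>
      ‖(∏ j, riemannZeta (sp (e j) (t + x j))) - PW T s t‖ ^ 2 := by
    have czj : ∀ j, Continuous fun t : ℝ => riemannZeta (sp (e j) (t + x j)) := fun j =>
      (AuxLow.cont_zeta (he1 j)).comp (continuous_add_const (x j))
    exact ((continuous_finsetProd _ fun j _ => czj j).sub (cont_PW T s)).norm.pow _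
  have hint : IntegrableOn (fun t : ℝ =>
      ‖(∏ j, riemannZeta (sp (e j) (t + x j))) - PW T s t‖ ^ 2) (Ew T A C₀ s) :=
    (hcont.integrableOn_Icc (a := 0) (b := T)).mono_set fun t ht => ⟨ht.1, ht.2.1⟩
  have hsplit := integral_inter_add_diff (μ := volume)
    (measurableSet_Ici (a := 2 * Real.sqrt T)) hint
  -- the square root of `T`
  have hroot : Real.sqrt T ≤ T * Real.exp (-(c * M)) := by
    have e1 : Real.sqrt T = Real.exp (Real.log T / 2) := by
      rw [← Real.log_sqrt hT0.le, Real.exp_log (by linarith)]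
    have e2 : T * Real.exp (-(c * M)) = Real.exp (Real.log T + -(c * M)) := by
      rw [Real.exp_add, Real.exp_log hT0]
    rw [e1, e2]
    refine Real.exp_le_exp.2 ?_
    have e3 : c * M ≤ 1 * M := mul_le_mul_of_nonneg_right hc4 hM0.le
    have e4 : η * Real.log T ≤ 1 / 8 * Real.log T := mul_le_mul_of_nonneg_right hη1 hL0.le
    linarith
  have hTS0 : 0 ≤ T * SS k η := by positivity
  have hP1' : ∫ t in Ew T A C₀ s ∩ Ici (2 * Real.sqrt T),
      ‖(∏ j, riemannZeta (sp (e j) (t + x j))) - PW T s t‖ ^ 2 ≤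
      (2 * (2 * 4 ^ k * (k + 1)) * (k * CV + k * 4) + 2 * (4 * CP)) * Real.exp (-(c * M)) *
        (T * SS k η) := by
    refine hP1.trans ?_
    have q1 : (1 / μ) ^ (k * (k - 1)) * (k * (CV * Real.exp (-(cV * M)) * (T * SS k η))) ≤
        k * CV * Real.exp (-(c * M)) * (T * SS k η) := by
      calc (1 / μ) ^ (k * (k - 1)) * (k * (CV * Real.exp (-(cV * M)) * (T * SS k η))) =
          ((1 / μ) ^ (k * (k - 1)) * Real.exp (-(cV * M))) * (k * CV * (T * SS k η)) := by ring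
        _ ≤ Real.exp (-(c * M)) * (k * CV * (T * SS k η)) :=
          mul_le_mul_of_nonneg_right (m1.trans m3) (by positivity)
        _ = k * CV * Real.exp (-(c * M)) * (T * SS k η) := by ring
    have q2 : μ ^ k * (k * (4 * (T * SS k η))) ≤ k * 4 * Real.exp (-(c * M)) * (T * SS k η) := by
      rw [m2]
      calc Real.exp (-(cV * M / (2 * k))) * (k * (4 * (T * SS k η))) ≤
          Real.exp (-(c * M)) * (k * (4 * (T * SS k η))) :=
          mul_le_mul_of_nonneg_right m3 (by positivity)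
        _ = k * 4 * Real.exp (-(c * M)) * (T * SS k η) := by ring
    have q3 := mul_le_mul_of_nonneg_left (add_le_add q1 q2)
      (show (0 : ℝ) ≤ 2 * (2 * 4 ^ k * (k + 1)) by positivity)
    refine (add_le_add q3 le_rfl).trans (le_of_eq ?_)
    ring
  have hP2' : ∫ t in Ew T A C₀ s \ Ici (2 * Real.sqrt T),
      ‖(∏ j, riemannZeta (sp (e j) (t + x j))) - PW T s t‖ ^ 2 ≤
      (2 * (k * CS) + 6) * Real.exp (-(c * M)) * (T * SS k η) := by
    refine hP2.trans ?_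
    have e1 : (0 : ℝ) ≤ 2 * (k * CS) + 6 := by positivity
    calc 2 * (k * (CS * Real.sqrt T * SS k η)) + 2 * (3 * Real.sqrt T * SS k η) =
        (2 * (k * CS) + 6) * (Real.sqrt T * SS k η) := by ring
      _ ≤ (2 * (k * CS) + 6) * (T * Real.exp (-(c * M)) * SS k η) :=
          mul_le_mul_of_nonneg_left (mul_le_mul_of_nonneg_right hroot hSS0) e1
      _ = (2 * (k * CS) + 6) * Real.exp (-(c * M)) * (T * SS k η) := by ring
  have hfun : ∀ t : ℝ, (∏ j, riemannZeta (s j + t * Complex.I)) =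
      ∏ j, riemannZeta (sp (e j) (t + x j)) := by
    intro t
    refine Finset.prod_congr rfl fun j _ => ?_
    rw [sp_eq, he, hxe]
  simp only [hfun]
  rw [← hsplit]
  refine (add_le_add hP1' hP2').trans (le_of_eq ?_)
  ring

end Pool.Agent.Work.MP_56b8f5_nt.HN
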