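import Pool.Agent.Work.MP_56b8f5_nt.HN.StmtsX

/-!
MP_56b8f5_nt, block HN, item CfX: the coefficients of the products of `DN`.
-/

set_option autoImplicit false

open MeasureTheory Set Filter Topology

noncomputable section

namespace Pool.Agent.Work.MP_56b8f5_nt.HN

open Pool.Agent.Work.MP_56b8f5_nt.EM Pool.Agent.Work.MP_56b8f5_nt.WM Pool.Agent.Work.MP_56b8f5_nt.SH
open Pool.Agent.Work.MP_56b8f5_nt.HZ

namespace AuxCfX

/-- The coefficients of `DN` at `t + x`, on the line `1/2`. -/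
def g (N : ℕ) (η x : ℝ) (n : ℕ) : ℂ := if 1 ≤ n ∧ n ≤ N then ex x n * (((n : ℝ) ^ (-η) : ℝ) : ℂ) else 0

lemma ex_apply (x : ℝ) {n : ℕ} (hn : n ≠ 0) : ex x n = (n : ℂ) ^ (-(x * Complex.I)) := by
  show (if n = 0 then 0 else (n : ℂ) ^ (-(x * Complex.I))) = _
  exact if_neg hn

lemma norm_ex (x : ℝ) (n : ℕ) : ‖ex x n‖ ≤ 1 := by
  rcases Nat.eq_zero_or_pos n with rfl | hn
  · simp
  · rw [ex_apply x hn.ne', Complex.norm_natCast_cpow_of_pos hn]
    simp

lemma g_supp (N : ℕ) (η x : ℝ) (n : ℕ) (h : g N η x n ≠ 0) : 1 ≤ n ∧ n ≤ N := by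
  by_contra hc
  exact h (if_neg hc)

lemma norm_g_le (N : ℕ) (η x : ℝ) (n : ℕ) : ‖g N η x n‖ ≤ (n : ℝ) ^ (-η) := by
  unfold g
  split_ifs
  · rw [norm_mul, Complex.norm_real, Real.norm_of_nonneg (by positivity)]
    exact mul_le_of_le_one_left (by positivity) (norm_ex x n)
  · rw [norm_zero]
    positivity

lemma DN_eq (N : ℕ) (η t x : ℝ) : DN N η (t + x) = Dc N (g N η x) t := by
  unfold DN Dc Ds
  refine Finset.sum_congr rfl fun n hn => ?_
  rw [Finset.mem_Icc] at hn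
  have hn0 : (n : ℂ) ≠ 0 := Nat.cast_ne_zero.2 (by omega)
  have hf : g N η x n = ex x n * (((n : ℝ) ^ (-η) : ℝ) : ℂ) := if_pos hn
  rw [hf, ex_apply x (by omega), Complex.ofReal_cpow (by positivity), one_mul, Complex.ofReal_natCast,
    ← Complex.cpow_add _ _ hn0, ← Complex.cpow_add _ _ hn0]
  congr 1
  unfold sp
  push_cast
  ring

lemma rpow_div {n d : ℕ} (η : ℝ) (hd : d ∣ n) :
    (d : ℝ) ^ (-η) * ((n / d : ℕ) : ℝ) ^ (-η) = (n : ℝ) ^ (-η) := by
  rw [← Real.mul_rpow (by positivity) (by positivity), ← Nat.cast_mul, Nat.mul_div_cancel' hd]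

/-- The recursion for `dx`. -/
lemma dx_succ {k : ℕ} (x : Fin (k + 1) → ℝ) (n : ℕ) :
    dx x n = ∑ d ∈ n.divisors, dx (fun j : Fin k => x j.succ) d * ex (x 0) (n / d) := by
  unfold dx
  rw [Fin.prod_univ_succ, mul_comm, ArithmeticFunction.mul_apply,
    Nat.sum_divisorsAntidiagonal (fun a b => (∏ j : Fin k, ex (x j.succ)) a * ex (x 0) b)]

lemma core (h1 : S_dkB) (h2 : HZ.S_DsM) (N : ℕ) (η : ℝ) : ∀ (k : ℕ) (x : Fin k → ℝ),
    ∃ q : ℕ → ℂ, (∀ n, ‖q n‖ ≤ dk k n * (n : ℝ) ^ (-η)) ∧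
      (∀ n, q n ≠ 0 → 1 ≤ n ∧ n ≤ N ^ k) ∧ (∀ t : ℝ, ∏ j, DN N η (t + x j) = Dc (N ^ k) q t) ∧
      ∀ n : ℕ, 1 ≤ n → n ≤ N → q n = dx x n * (((n : ℝ) ^ (-η) : ℝ) : ℂ) := by
  obtain ⟨hb0, hbn, hbz, -, hbs, -⟩ := h1
  intro k
  induction k with
  | zero =>
    intro x
    have hdx : ∀ n, dx x n = if n = 1 then 1 else 0 := by
      intro n
      unfold dx
      rw [Finset.univ_eq_empty, Finset.prod_empty, ArithmeticFunction.one_apply]
    refine ⟨fun n => if n = 1 then 1 else 0, ?_, ?_, ?_, ?_⟩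
    · intro n
      dsimp only
      rw [hbz]
      split_ifs with h
      · subst h
        simp
      · simp
    · intro n hn
      by_cases h : n = 1
      · subst h
        simp
      · exact absurd (if_neg h) hn
    · intro t
      simp [Dc, Ds]
    · intro n _ _
      dsimp only
      rw [hdx]
      split_ifs with h
      · subst h
        simp
      · simp
  | succ k ih =>
    intro x
    obtain ⟨q, qle, qs, qD, qe⟩ := ih (fun j => x j.succ)
    have hsupp : ∀ n, (∑ d ∈ n.divisors, q d * g N η (x 0) (n / d)) ≠ 0 → 1 ≤ n ∧ n ≤ N ^ (k + 1) := by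
      intro n hn
      obtain ⟨d, hd, hne⟩ := Finset.exists_ne_zero_of_sum_ne_zero hn
      have hq : q d ≠ 0 := fun h => hne (by simp [h])
      have hf : g N η (x 0) (n / d) ≠ 0 := fun h => hne (by simp [h])
      have h3 := qs d hq
      have h4 := g_supp N η _ _ hf
      have hdn := Nat.dvd_of_mem_divisors hd
      have hmul : d * (n / d) = n := Nat.mul_div_cancel' hdn
      constructor
      · rw [← hmul]
        exact Nat.mul_pos h3.1 h4.1
      · rw [← hmul, pow_succ]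
        exact Nat.mul_le_mul h3.2 h4.2
    refine ⟨fun n => ∑ d ∈ n.divisors, q d * g N η (x 0) (n / d), ?_, hsupp, ?_, ?_⟩
    · intro n
      rcases Nat.eq_zero_or_pos n with rfl | hn
      · simp [(hb0 (k + 1)).1]
      · have hn0 : n ≠ 0 := by omega
        dsimp only
        rw [hbs k n hn0, Finset.sum_mul]
        refine (norm_sum_le _ _).trans (Finset.sum_le_sum fun d hd => ?_)
        have hdn := Nat.dvd_of_mem_divisors hd
        rw [norm_mul]
        calc ‖q d‖ * ‖g N η (x 0) (n / d)‖ ≤ (dk k d * (d : ℝ) ^ (-η)) * ((n / d : ℕ) : ℝ) ^ (-η) :=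
              mul_le_mul (qle d) (norm_g_le N η _ _) (norm_nonneg _)
                (mul_nonneg (hbn k d) (by positivity))
          _ = dk k d * (n : ℝ) ^ (-η) := by
              rw [mul_assoc, rpow_div η hdn]
    · intro t
      rw [Fin.prod_univ_succ, mul_comm, qD t, DN_eq]
      unfold Dc
      rw [h2.1 (N ^ k) N q (g N η (x 0)) qs (g_supp N η (x 0)) _, pow_succ]
      rfl
    · intro n hn hnN
      have hn0 : n ≠ 0 := by omega
      dsimp only
      rw [dx_succ, Finset.sum_mul]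
      refine Finset.sum_congr rfl fun d hd => ?_
      have hdn := Nat.dvd_of_mem_divisors hd
      have hd1 : 1 ≤ d := Nat.pos_of_mem_divisors hd
      have hdl : d ≤ n := Nat.divisor_le hd
      have he1 : 1 ≤ n / d := Nat.div_pos hdl hd1
      have hel : n / d ≤ N := (Nat.div_le_self n d).trans hnN
      have hf : g N η (x 0) (n / d) = ex (x 0) (n / d) * ((((n / d : ℕ) : ℝ) ^ (-η) : ℝ) : ℂ) :=
        if_pos ⟨he1, hel⟩
      rw [qe d hd1 (hdl.trans hnN), hf, ← rpow_div η hdn]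
      push_cast
      ring

end AuxCfX

theorem CfX_pf (h1 : S_dkB) (h2 : S_dxB) (h3 : HZ.S_DsM) : S_CfX := by
  clear h2
  intro k N η T x hN _ hT
  obtain ⟨q, qle, qs, qD, qe⟩ := AuxCfX.core h1 h3 N η k x
  exact ⟨q, ⟨qle, qs, Nat.one_le_pow k N hN, hT⟩, qD, qe⟩

end Pool.Agent.Work.MP_56b8f5_nt.HN
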