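import Pool.Agent.Work.MP_56b8f5_nt.HN.StmtsX

/-!
MP_56b8f5_nt, block HN, item CmX: the exceptional set of the shifted moments.
-/

set_option autoImplicit false

open MeasureTheory Set Filter Topology

noncomputable section

namespace Pool.Agent.Work.MP_56b8f5_nt.HN

open Pool.Agent.Work.MP_56b8f5_nt.EM Pool.Agent.Work.MP_56b8f5_nt.WM Pool.Agent.Work.MP_56b8f5_nt.SH
open Pool.Agent.Work.MP_56b8f5_nt.HZ

namespace AuxCmX

theorem cont_Dc (N : ℕ) (q : ℕ → ℂ) : Continuous fun t : ℝ => Dc N q t := by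
  unfold Dc Ds
  refine continuous_finsetSum _ fun n hn => ?_
  have hn1 : (n : ℂ) ≠ 0 := by
    have := (Finset.mem_Icc.1 hn).1
    exact_mod_cast (by omega : n ≠ 0)
  have h1 : Continuous fun t : ℝ => -((1 : ℂ) / 2 + t * Complex.I) := by
    fun_prop
  exact continuous_const.mul (h1.const_cpow (Or.inl hn1))

theorem floor_bounds {T s : ℝ} (hT : 1 ≤ T) (hs : 0 < s) (hss : s * s = T) :
    1 ≤ ⌊T ^ (1 / 200 : ℝ)⌋₊ ∧ ((⌊T ^ (1 / 200 : ℝ)⌋₊ : ℕ) : ℝ) ^ 2 ≤ s := by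
  have h1 : 1 ≤ T ^ (1 / 200 : ℝ) := Real.one_le_rpow hT (by norm_num)
  have h2 : 1 ≤ ⌊T ^ (1 / 200 : ℝ)⌋₊ := by
    rw [Nat.one_le_floor_iff]
    exact h1
  have h3 : (T ^ (1 / 200 : ℝ)) ^ 100 = s := by
    have e1 : T = s ^ (2 : ℝ) := by
      rw [← hss]
      norm_cast
      ring
    rw [← Real.rpow_natCast, ← Real.rpow_mul (by linarith), e1, ← Real.rpow_mul hs.le]
    norm_num
  have h4 : ((⌊T ^ (1 / 200 : ℝ)⌋₊ : ℕ) : ℝ) ^ 100 ≤ s := by
    rw [← h3]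
    exact pow_le_pow_left₀ (Nat.cast_nonneg _) (Nat.floor_le (by linarith)) 100
  refine ⟨h2, le_trans ?_ h4⟩
  have h5 : (1 : ℝ) ≤ ((⌊T ^ (1 / 200 : ℝ)⌋₊ : ℕ) : ℝ) := by exact_mod_cast h2
  exact pow_le_pow_right₀ h5 (by norm_num)

theorem shift_int (f : ℝ → ℝ) (w : ℝ) (B : Set ℝ) (hB : MeasurableSet B) :
    ∫ t in (fun t : ℝ => t + w) ⁻¹' B, f t = ∫ u in B, f (u - w) := by
  have hB' : MeasurableSet ((fun t : ℝ => t + w) ⁻¹' B) :=
    (measurable_id.add_const w) hB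
  rw [← integral_indicator hB', ← integral_indicator hB,
    ← integral_add_right_eq_self (B.indicator fun u => f (u - w)) w]
  refine integral_congr_ae (ae_of_all _ fun t => ?_)
  by_cases ht : t + w ∈ B
  · rw [Set.indicator_of_mem (show t ∈ (fun t : ℝ => t + w) ⁻¹' B from ht)]
    show f t = B.indicator (fun u => f (u - w)) (t + w)
    rw [Set.indicator_of_mem ht, add_sub_cancel_right]
  · rw [Set.indicator_of_notMem (show t ∉ (fun t : ℝ => t + w) ⁻¹' B from ht)]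
    show 0 = B.indicator (fun u => f (u - w)) (t + w)
    rw [Set.indicator_of_notMem ht]

theorem union_le (f : ℝ → ℝ) (hf : Continuous f) (hf0 : ∀ t, 0 ≤ f t) (E : Set ℝ) (a w lo hi : ℝ)
    (B : Set ℝ) (hB : MeasurableSet B) (hBi : B ⊆ Icc lo hi)
    (hE : E ⊆ Icc 0 a ∪ (fun t : ℝ => t + w) ⁻¹' B) :
    ∫ t in E, f t ≤ (∫ t in Icc 0 a, f t) + ∫ u in B, f (u - w) := by
  have hB' : MeasurableSet ((fun t : ℝ => t + w) ⁻¹' B) :=
    (measurable_id.add_const w) hB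
  have hBi' : (fun t : ℝ => t + w) ⁻¹' B ⊆ Icc (lo - w) (hi - w) := by
    intro t ht
    have := hBi ht
    exact ⟨by linarith [this.1], by linarith [this.2]⟩
  have i1 : IntegrableOn f (Icc 0 a) := hf.integrableOn_Icc
  have i2 : IntegrableOn f ((fun t : ℝ => t + w) ⁻¹' B) :=
    (hf.integrableOn_Icc).mono_set hBi'
  have i3 : IntegrableOn f ((fun t : ℝ => t + w) ⁻¹' B \ Icc 0 a) := i2.mono_set sdiff_subset
  calc ∫ t in E, f t ≤ ∫ t in Icc 0 a ∪ ((fun t : ℝ => t + w) ⁻¹' B \ Icc 0 a), f t := by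
        refine setIntegral_mono_set (i1.union i3) (ae_of_all _ hf0) (LE.le.eventuallyLE ?_)
        intro t ht
        rcases hE ht with h | h
        · exact Or.inl h
        · by_cases h' : t ∈ Icc 0 a
          · exact Or.inl h'
          · exact Or.inr ⟨h, h'⟩
    _ = (∫ t in Icc 0 a, f t) + ∫ t in (fun t : ℝ => t + w) ⁻¹' B \ Icc 0 a, f t :=
        setIntegral_union disjoint_sdiff_right (hB'.diff measurableSet_Icc) i1 i3
    _ ≤ (∫ t in Icc 0 a, f t) + ∫ t in (fun t : ℝ => t + w) ⁻¹' B, f t := by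
        exact add_le_add le_rfl
          (setIntegral_mono_set i2 (ae_of_all _ hf0) (LE.le.eventuallyLE sdiff_subset))
    _ = (∫ t in Icc 0 a, f t) + ∫ u in B, f (u - w) := by rw [shift_int f w B hB]

end AuxCmX

open AuxCmX in
/-- **Item CmX**: the exceptional set carries little of the mean square of `PX`. -/
theorem CmX_pf (h1 : S_PxD) (h2 : S_CmV) (h3 : S_SSb) (h4 : S_ZsI) : S_CmX := by
  intro k hk
  obtain ⟨CD, hCD, H1⟩ := h1 k
  obtain ⟨C₁, T₁, hC₁, hT₁, H2⟩ := h2 k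
  obtain ⟨CS, hCS, HS⟩ := h3 k
  obtain ⟨hZm, -⟩ := h4
  refine ⟨C₁ + 6, T₁ ^ 2, by linarith, by nlinarith, ?_⟩
  intro C₀ hC₀ T hT σ A hσ0 hσ hA hAL x w hw
  have hT9 : 9 ≤ T := by nlinarith
  have hTT₁ : T₁ ≤ T := by nlinarith
  have hT0 : 0 < T := by linarith
  have hη : 0 < σ - 1 / 2 := by linarith
  have hη8 : σ - 1 / 2 ≤ 1 / 8 := by linarith
  have eS : SS k (σ - 1 / 2) = ∑' n : ℕ, dk k n ^ 2 * (n : ℝ) ^ (-(2 * σ)) := by
    unfold SS
    refine tsum_congr fun n => ?_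
    have : -(1 + 2 * (σ - 1 / 2)) = -(2 * σ) := by ring
    rw [this]
  have hS1 : 1 ≤ SS k (σ - 1 / 2) := (HS _ hη hη8).2.1
  rw [← eS]
  have eσ : 1 / 2 + (σ - 1 / 2) = σ := by ring
  -- the square root
  obtain ⟨s, hs⟩ : ∃ s : ℝ, s = Real.sqrt T := ⟨_, rfl⟩
  have hs0 : 0 < s := by
    rw [hs]
    exact Real.sqrt_pos.2 hT0
  have hss : s * s = T := by
    rw [hs]
    exact Real.mul_self_sqrt hT0.le
  have hs3 : 3 ≤ s := by
    by_contra hcon
    push Not at hcon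
    nlinarith
  have hsT : s ≤ T := by nlinarith
  have hls : Real.log T = 2 * Real.log s := by
    rw [← hss, Real.log_mul hs0.ne' hs0.ne']
    ring
  obtain ⟨E, hE⟩ : ∃ E : ℝ, E = Real.exp (-(A / 400)) := ⟨_, rfl⟩
  have hE0 : 0 < E := hE ▸ Real.exp_pos _
  have hsE : s ≤ E * T := by
    have e1 : E * T = Real.exp (Real.log T - A / 400) := by
      rw [Real.exp_sub, Real.exp_log hT0, hE, Real.exp_neg]
      ring
    rw [e1, ← Real.log_le_iff_le_exp hs0]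
    have : 0 ≤ Real.log s := Real.log_nonneg (by linarith)
    linarith
  obtain ⟨hN1, hN3⟩ := floor_bounds (by linarith : 1 ≤ T) hs0 hss
  have hP := H1 (σ - 1 / 2) hη hη8 T (by linarith) x
  rw [eσ] at hP
  obtain ⟨p0, -, hp0⟩ := (hP 0 0 le_rfl).2.2 0
  obtain ⟨p, hp, hpu⟩ := (hP 0 0 le_rfl).2.2 w
  have hmain := fun hA2 : 2 ≤ A => H2 T hTT₁ (σ - 1 / 2) hη hη8 _ p hp A C₀ hA2 hC₀
  rw [← hs] at hmain hw
  rw [← hE] at hmain ⊢
  obtain ⟨f, hf⟩ : ∃ f : ℝ → ℝ, f = fun t : ℝ => ‖PX T σ x t‖ ^ 2 := ⟨_, rfl⟩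
  have hf' : f = fun t : ℝ => ‖Dc ⌊T ^ (1 / 200 : ℝ)⌋₊ p0 t‖ ^ 2 := by
    rw [hf]
    funext t
    rw [← hp0 t, sub_zero]
  have hfc : Continuous f := by
    rw [hf']
    exact (cont_Dc _ p0).norm.pow _
  have hf0 : ∀ t, 0 ≤ f t := by
    intro t
    rw [hf]
    positivity
  have hfw : ∀ u, f (u - w) = ‖Dc ⌊T ^ (1 / 200 : ℝ)⌋₊ p u‖ ^ 2 := by
    intro u
    rw [hf, ← hpu u]
  have hint : ∀ a : ℝ, 0 ≤ a → ∫ t in Icc 0 a, f t ≤
      (a + 2 * (⌊T ^ (1 / 200 : ℝ)⌋₊ : ℝ) ^ 2) * SS k (σ - 1 / 2) := by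
    intro a ha
    rw [integral_Icc_eq_integral_Ioc, ← intervalIntegral.integral_of_le ha, hf]
    have := (hP 0 a ha).1
    rwa [sub_zero] at this
  obtain ⟨S, hS⟩ : ∃ S : ℝ, S = SS k (σ - 1 / 2) := ⟨_, rfl⟩
  rw [← hS] at hS1 hmain hint ⊢
  obtain ⟨n2, hn2⟩ : ∃ n2 : ℝ, n2 = (⌊T ^ (1 / 200 : ℝ)⌋₊ : ℝ) ^ 2 := ⟨_, rfl⟩
  rw [← hn2] at hN3 hint
  have hgoal : ∫ t in {t : ℝ | 0 ≤ t ∧ t ≤ T ∧ t + w ∉ Zs T A C₀}, f t ≤ (C₁ + 6) * E * (T * S) := by
    have pE : 0 ≤ E * (T * S) := by positivity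
    have pC₁ : 0 ≤ C₁ * (E * (T * S)) := by positivity
    have e6 : (C₁ + 6) * E * (T * S) = C₁ * (E * (T * S)) + 6 * (E * (T * S)) := by ring
    rcases lt_or_ge A 2 with hA' | hA'
    · have e1 : 1 / 2 ≤ E := by
        rw [hE]
        have := Real.add_one_le_exp (-(A / 400))
        linarith
      have e2 : T * S ≤ 2 * (E * (T * S)) := by
        have : 0 ≤ T * S := by positivity
        nlinarith
      have e3 : ∫ t in {t : ℝ | 0 ≤ t ∧ t ≤ T ∧ t + w ∉ Zs T A C₀}, f t ≤ ∫ t in Icc 0 T, f t :=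
        setIntegral_mono_set hfc.integrableOn_Icc (ae_of_all _ hf0)
          (LE.le.eventuallyLE fun t ht => ⟨ht.1, ht.2.1⟩)
      have e4 := hint T hT0.le
      have e5 : (T + 2 * n2) * S ≤ (3 * T) * S :=
        mul_le_mul_of_nonneg_right (by linarith) (by linarith)
      linarith
    · have hZ : MeasurableSet (Zs T A C₀) := hZm T A C₀ (by linarith)
      have hB : MeasurableSet (Icc s (2 * T) \ Zs T A C₀) := measurableSet_Icc.diff hZ
      have hwa := abs_le.1 hw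
      have e1 := union_le f hfc hf0 {t : ℝ | 0 ≤ t ∧ t ≤ T ∧ t + w ∉ Zs T A C₀} (2 * s) w s (2 * T)
        (Icc s (2 * T) \ Zs T A C₀) hB sdiff_subset (by
          rintro t ⟨h0, h1, h2⟩
          by_cases h3 : t ≤ 2 * s
          · exact Or.inl ⟨h0, h3⟩
          · push Not at h3
            exact Or.inr ⟨⟨show s ≤ t + w by linarith, show t + w ≤ 2 * T by linarith⟩, h2⟩)
      have e2 := hint (2 * s) (by linarith)
      have e3 : ∫ u in Icc s (2 * T) \ Zs T A C₀, f (u - w) ≤ C₁ * E * (T * S) := by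
        simp only [hfw]
        exact hmain hA'
      have e4 : (2 * s + 2 * n2) * S ≤ (4 * s) * S :=
        mul_le_mul_of_nonneg_right (by linarith) (by linarith)
      have e5 : s * S ≤ E * (T * S) := by
        calc s * S ≤ (E * T) * S := mul_le_mul_of_nonneg_right hsE (by linarith)
          _ = E * (T * S) := by ring
      have e7 : C₁ * E * (T * S) = C₁ * (E * (T * S)) := by ring
      linarith
  rw [hf] at hgoal
  exact hgoal

end Pool.Agent.Work.MP_56b8f5_nt.HN
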