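import Pool.Agent.Work.MP_56b8f5_nt.HN.StmtsD
import Pool.Agent.Work.MP_56b8f5_nt.HN.I_DeU
import Pool.Agent.Work.MP_56b8f5_nt.HN.I_UpE

/-!
MP_56b8f5_nt, block HN, item DeM: decomposition, mean square.
-/

set_option autoImplicit false

open MeasureTheory Set Filter Topology

noncomputable section

namespace Pool.Agent.Work.MP_56b8f5_nt.HN

open Pool.Agent.Work.MP_56b8f5_nt.EM Pool.Agent.Work.MP_56b8f5_nt.WM Pool.Agent.Work.MP_56b8f5_nt.SH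
open Pool.Agent.Work.MP_56b8f5_nt.HZ

namespace AuxDeM

theorem powdiff (δ : ℝ) (z D : ℂ) (hδ : 0 ≤ δ) (hc : ‖z - D‖ ≤ δ * ‖D‖) (n : ℕ) :
    ‖z ^ n - D ^ n‖ ≤ ((1 + δ) ^ n - 1) * ‖D‖ ^ n := by
  have hz : ‖z‖ ≤ (1 + δ) * ‖D‖ := by
    have := norm_add_le (z - D) D
    rw [sub_add_cancel] at this
    linarith
  induction n with
  | zero => simp
  | succ n ih =>
    have e : z ^ (n + 1) - D ^ (n + 1) = z ^ n * (z - D) + (z ^ n - D ^ n) * D := by ring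
    have h1 : ‖z ^ n * (z - D)‖ ≤ ((1 + δ) * ‖D‖) ^ n * (δ * ‖D‖) := by
      rw [norm_mul, norm_pow]
      exact mul_le_mul (pow_le_pow_left₀ (norm_nonneg _) hz _) hc (norm_nonneg _) (by positivity)
    have h2 : ‖(z ^ n - D ^ n) * D‖ ≤ ((1 + δ) ^ n - 1) * ‖D‖ ^ n * ‖D‖ := by
      rw [norm_mul]
      exact mul_le_mul_of_nonneg_right ih (norm_nonneg _)
    calc ‖z ^ (n + 1) - D ^ (n + 1)‖ ≤ ‖z ^ n * (z - D)‖ + ‖(z ^ n - D ^ n) * D‖ := by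
          rw [e]
          exact norm_add_le _ _
      _ ≤ ((1 + δ) * ‖D‖) ^ n * (δ * ‖D‖) + ((1 + δ) ^ n - 1) * ‖D‖ ^ n * ‖D‖ := add_le_add h1 h2
      _ = ((1 + δ) ^ (n + 1) - 1) * ‖D‖ ^ (n + 1) := by
          rw [mul_pow]
          ring

/-- The pointwise inequality. -/
theorem pw (k : ℕ) (δ : ℝ) (z D : ℂ) (hδ : 0 < δ) (hδ1 : δ ≤ 1) :
    ‖z ^ (k + 1) - D ^ (k + 1)‖ ^ 2 ≤ (2 ^ (k + 1) * δ) ^ 2 * ‖D ^ (k + 1)‖ ^ 2 ∨
    (‖z‖ ≤ (1 + 1 / δ) * ‖z - D‖ ∧ ‖z ^ (k + 1) - D ^ (k + 1)‖ ^ 2 ≤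
      2 * ‖z‖ ^ (2 * (k + 1)) + 2 * ((1 / δ) ^ 2 * (‖z - D‖ ^ 2 * ‖D ^ k‖ ^ 2))) := by
  rcases le_or_gt ‖z - D‖ (δ * ‖D‖) with hc | hc
  · left
    have h1 := powdiff δ z D hδ.le hc (k + 1)
    have h2 : ((1 + δ) ^ (k + 1) - 1) * ‖D‖ ^ (k + 1) ≤ 2 ^ (k + 1) * δ * ‖D‖ ^ (k + 1) := by
      refine mul_le_mul_of_nonneg_right ?_ (by positivity)
      have := AuxUpE.one_add_pow hδ.le hδ1 (k + 1)
      linarith
    calc ‖z ^ (k + 1) - D ^ (k + 1)‖ ^ 2 ≤ (2 ^ (k + 1) * δ * ‖D‖ ^ (k + 1)) ^ 2 :=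
          pow_le_pow_left₀ (norm_nonneg _) (h1.trans h2) 2
      _ = (2 ^ (k + 1) * δ) ^ 2 * ‖D ^ (k + 1)‖ ^ 2 := by rw [norm_pow]; ring
  · right
    have h6 : ‖D‖ ≤ 1 / δ * ‖z - D‖ := by
      rw [div_mul_eq_mul_div, one_mul, le_div_iff₀ hδ]
      linarith
    have hz : ‖z‖ ≤ ‖z - D‖ + ‖D‖ := by
      have := norm_add_le (z - D) D
      rwa [sub_add_cancel] at this
    refine ⟨by linarith, ?_⟩
    have h1 : ‖z ^ (k + 1) - D ^ (k + 1)‖ ≤ ‖z ^ (k + 1)‖ + ‖D ^ (k + 1)‖ := norm_sub_le _ _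
    have h2 : ‖z ^ (k + 1)‖ ^ 2 = ‖z‖ ^ (2 * (k + 1)) := by
      rw [norm_pow, ← pow_mul, mul_comm]
    have h3 : ‖D ^ (k + 1)‖ ^ 2 ≤ (1 / δ) ^ 2 * (‖z - D‖ ^ 2 * ‖D ^ k‖ ^ 2) := by
      calc ‖D ^ (k + 1)‖ ^ 2 = ‖D‖ ^ 2 * ‖D ^ k‖ ^ 2 := by
            have e0 : D ^ (k + 1) = D ^ k * D := pow_succ D k
            rw [e0, norm_mul, mul_pow, mul_comm]
        _ ≤ (1 / δ * ‖z - D‖) ^ 2 * ‖D ^ k‖ ^ 2 :=
          mul_le_mul_of_nonneg_right (pow_le_pow_left₀ (norm_nonneg _) h6 2) (by positivity)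
        _ = (1 / δ) ^ 2 * (‖z - D‖ ^ 2 * ‖D ^ k‖ ^ 2) := by rw [mul_pow, mul_assoc]
    have h4 : 0 ≤ ‖z ^ (k + 1) - D ^ (k + 1)‖ := norm_nonneg _
    rw [← h2]
    nlinarith [sq_nonneg (‖z ^ (k + 1)‖ - ‖D ^ (k + 1)‖), norm_nonneg (z ^ (k + 1)),
      norm_nonneg (D ^ (k + 1))]

end AuxDeM

open AuxDeM in
theorem DeM_pf : S_DeM := by
  intro k δ T M z D Q E F hδ hδ1 hT hM hz hD hQ hEm hE hFm h
  have hcz : Continuous fun t => ‖z t‖ ^ (2 * (k + 1)) := hz.norm.pow _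
  have hcL : Continuous fun t => ‖z t ^ (k + 1) - D t ^ (k + 1)‖ ^ 2 :=
    ((hz.pow _).sub (hD.pow _)).norm.pow _
  have hcD : Continuous fun t => ‖D t ^ (k + 1)‖ ^ 2 := (hD.pow _).norm.pow _
  have hcQ : Continuous fun t => ‖z t - D t‖ ^ 2 * ‖Q t‖ ^ 2 :=
    ((hz.sub hD).norm.pow _).mul (hQ.norm.pow _)
  have hcR : Continuous fun t => ‖z t - D t‖ ^ 2 * ‖D t ^ k‖ ^ 2 :=
    ((hz.sub hD).norm.pow _).mul ((hD.pow _).norm.pow _)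
  have hI : ∀ f : ℝ → ℝ, Continuous f → IntegrableOn f E := fun f hf =>
    hf.integrableOn_Icc.mono_set hE
  have e : ∀ f : ℝ → ℝ, ∫ t in E, F.indicator f t = ∫ t in E ∩ F, f t := fun f =>
    setIntegral_indicator hFm
  have h1 : ∫ t in E, ‖z t ^ (k + 1) - D t ^ (k + 1)‖ ^ 2 ≤
      ∫ t in E, ((2 ^ (k + 1) * δ) ^ 2 * ‖D t ^ (k + 1)‖ ^ 2 +
        2 * (M * (1 + 1 / δ) ^ 2) * (‖z t - D t‖ ^ 2 * ‖Q t‖ ^ 2) +
        2 * (1 / δ) ^ 2 * (‖z t - D t‖ ^ 2 * ‖D t ^ k‖ ^ 2) +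
        2 * F.indicator (fun t => ‖z t‖ ^ (2 * (k + 1))) t) := by
    refine setIntegral_mono_on (hI _ hcL) ?_ hEm ?_
    · exact ((((hI _ hcD).const_mul _).add ((hI _ hcQ).const_mul _)).add
        ((hI _ hcR).const_mul _)).add (((hI _ hcz).indicator hFm).const_mul _)
    · intro t ht
      have g1 : 0 ≤ (2 ^ (k + 1) * δ) ^ 2 * ‖D t ^ (k + 1)‖ ^ 2 := by positivity
      have g2 : 0 ≤ 2 * (M * (1 + 1 / δ) ^ 2) * (‖z t - D t‖ ^ 2 * ‖Q t‖ ^ 2) := by positivity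
      have g3 : 0 ≤ 2 * (1 / δ) ^ 2 * (‖z t - D t‖ ^ 2 * ‖D t ^ k‖ ^ 2) := by positivity
      have g4 : 0 ≤ F.indicator (fun t => ‖z t‖ ^ (2 * (k + 1))) t :=
        indicator_nonneg (fun t _ => by positivity) t
      rcases pw k δ (z t) (D t) hδ hδ1 with hp | ⟨hp1, hp2⟩
      · linarith
      · by_cases hF : t ∈ F
        · rw [indicator_of_mem hF]
          linarith
        · rw [indicator_of_notMem hF]
          have h4 : ‖z t‖ ^ 2 ≤ ((1 + 1 / δ) * ‖z t - D t‖) ^ 2 :=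
            pow_le_pow_left₀ (norm_nonneg _) hp1 _
          have h5 : ‖z t‖ ^ (2 * (k + 1)) = ‖z t‖ ^ (2 * k) * ‖z t‖ ^ 2 := by
            rw [← pow_add]
            congr 1
          have h6 : ‖z t‖ ^ (2 * k) * ‖z t‖ ^ 2 ≤
              (M * ‖Q t‖ ^ 2) * ((1 + 1 / δ) * ‖z t - D t‖) ^ 2 :=
            mul_le_mul (h t ht hF) h4 (by positivity) (by positivity)
          have h7 : 2 * ((M * ‖Q t‖ ^ 2) * ((1 + 1 / δ) * ‖z t - D t‖) ^ 2) =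
              2 * (M * (1 + 1 / δ) ^ 2) * (‖z t - D t‖ ^ 2 * ‖Q t‖ ^ 2) := by ring
          linarith
  rw [integral_add, integral_add, integral_add, integral_const_mul, integral_const_mul,
    integral_const_mul, integral_const_mul, e] at h1
  · have h2 := AuxDeU.part _ hcD (fun t => by positivity) T hT E hE
    have h3 := AuxDeU.part _ hcQ (fun t => by positivity) T hT E hE
    have h3' := AuxDeU.part _ hcR (fun t => by positivity) T hT E hE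
    have h4 : (2 ^ (k + 1) * δ) ^ 2 * (∫ t in E, ‖D t ^ (k + 1)‖ ^ 2) ≤
        (2 ^ (k + 1) * δ) ^ 2 * (∫ t in T..(2 * T), ‖D t ^ (k + 1)‖ ^ 2) :=
      mul_le_mul_of_nonneg_left h2 (by positivity)
    have h5 : 2 * (M * (1 + 1 / δ) ^ 2) * (∫ t in E, ‖z t - D t‖ ^ 2 * ‖Q t‖ ^ 2) ≤
        2 * (M * (1 + 1 / δ) ^ 2) * (∫ t in T..(2 * T), ‖z t - D t‖ ^ 2 * ‖Q t‖ ^ 2) :=
      mul_le_mul_of_nonneg_left h3 (by positivity)
    have h6 : 2 * (1 / δ) ^ 2 * (∫ t in E, ‖z t - D t‖ ^ 2 * ‖D t ^ k‖ ^ 2) ≤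
        2 * (1 / δ) ^ 2 * (∫ t in T..(2 * T), ‖z t - D t‖ ^ 2 * ‖D t ^ k‖ ^ 2) :=
      mul_le_mul_of_nonneg_left h3' (by positivity)
    linarith
  · exact (hI _ hcD).const_mul _
  · exact (hI _ hcQ).const_mul _
  · exact ((hI _ hcD).const_mul _).add ((hI _ hcQ).const_mul _)
  · exact (hI _ hcR).const_mul _
  · exact (((hI _ hcD).const_mul _).add ((hI _ hcQ).const_mul _)).add ((hI _ hcR).const_mul _)
  · exact ((hI _ hcz).indicator hFm).const_mul _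

end Pool.Agent.Work.MP_56b8f5_nt.HN
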