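import Pool.Agent.Work.MP_56b8f5_nt.HN.StmtsT
import Pool.Agent.Work.MP_56b8f5_nt.HZ.I_FoB

/-!
MP_56b8f5_nt, block HN, part T, item FbN: the form of `M Q` for divisor bounded coefficients.
-/

set_option autoImplicit false

open MeasureTheory Set Filter Topology

noncomputable section

namespace Pool.Agent.Work.MP_56b8f5_nt.HN

open Pool.Agent.Work.MP_56b8f5_nt.EM Pool.Agent.Work.MP_56b8f5_nt.WM Pool.Agent.Work.MP_56b8f5_nt.SH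
open Pool.Agent.Work.MP_56b8f5_nt.HZ
open Pool.Agent.Work.MP_56b8f5_nt.HZG

namespace AuxFbN

open Pool.Agent.Work.MP_56b8f5_nt.HZ.I_FoB (cp_nonneg cp_le cp_cont fp_nonneg fp_le int_bdd cs muP_ne exp_eq
  int_exp exp_bd)

/-! ### The majorant -/

/-- The majorant. -/
def hh (Y : ℝ) (g : ℕ → ℝ) (τ : ℝ) (n : ℕ) : ℝ :=
  ∑ d ∈ n.divisors, fp (cp Y τ) d * g (n / d)

/-- The divisor weight. -/
def gd (k : ℕ) (η : ℝ) (n : ℕ) : ℝ := dk k n * (n : ℝ) ^ (-η)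

lemma gd_nonneg (h7 : S_dkB) (k : ℕ) (η : ℝ) (n : ℕ) : 0 ≤ gd k η n :=
  mul_nonneg (h7.2.1 k n) (Real.rpow_nonneg (Nat.cast_nonneg _) _)

lemma hh_nonneg {Y : ℝ} (hY : 1 < Y) {g : ℕ → ℝ} (hg : ∀ n, 0 ≤ g n) (τ : ℝ) (n : ℕ) :
    0 ≤ hh Y g τ n :=
  Finset.sum_nonneg fun d _ => mul_nonneg (fp_nonneg (cp_nonneg hY τ) d) (hg _)

/-- A bound for the majorant. -/
def hb (g : ℕ → ℝ) (n : ℕ) : ℝ :=
  ∑ d ∈ n.divisors, 2 ^ d.primeFactors.card * g (n / d)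

lemma hh_le {Y : ℝ} (hY : 1 < Y) {g : ℕ → ℝ} (hg : ∀ n, 0 ≤ g n) (τ : ℝ) (n : ℕ) :
    hh Y g τ n ≤ hb g n :=
  Finset.sum_le_sum fun d _ => mul_le_mul_of_nonneg_right
    (fp_le (fun p => ⟨cp_nonneg hY τ p, cp_le Y τ p⟩) d) (hg _)

lemma hh_cont (Y : ℝ) (g : ℕ → ℝ) (n : ℕ) : Continuous (fun τ => hh Y g τ n) := by
  unfold hh fp
  exact continuous_finsetSum _ fun d _ =>
    (continuous_finsetProd _ fun p _ => cp_cont Y p).mul continuous_const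

/-! ### The coefficients -/

lemma D_ne {P : ℝ → ℝ} (hP : IsP P) {Y : ℝ} {q : ℕ → ℂ} {Nq N : ℕ}
    (hY : 3 ≤ Y) (hqs : ∀ n, q n ≠ 0 → 1 ≤ n ∧ n ≤ Nq) (hNq : (Nq : ℝ) ≤ Y)
    (hN : Y * Nq ≤ N) (n : ℕ) (h : cvl (muP P Y) q n ≠ 0) : n ≤ N ∧ Smo ⌊Y⌋₊ n := by
  have hY0 : 0 ≤ Y := by linarith
  obtain ⟨d, hd, hne⟩ := Finset.exists_ne_zero_of_sum_ne_zero h
  have h1 : muP P Y d ≠ 0 := left_ne_zero_of_mul hne
  have h2 : q (n / d) ≠ 0 := right_ne_zero_of_mul hne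
  obtain ⟨hd1, hn0⟩ := Nat.mem_divisors.1 hd
  obtain ⟨hd0, hdY⟩ := muP_ne hP (by linarith) h1
  obtain ⟨h3, h4⟩ := hqs _ h2
  have hnd : d * (n / d) = n := Nat.mul_div_cancel' hd1
  refine ⟨?_, hn0, fun p hp hpn => ?_⟩
  · have : (n : ℝ) ≤ N := by
      calc (n : ℝ) = (d : ℝ) * ((n / d : ℕ) : ℝ) := by exact_mod_cast hnd.symm
        _ ≤ Y * Nq := mul_le_mul hdY (by exact_mod_cast h4) (Nat.cast_nonneg _) hY0
        _ ≤ N := hN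
    exact_mod_cast this
  · rw [← hnd] at hpn
    rcases (Nat.Prime.dvd_mul hp).1 hpn with hpd | hpd
    · exact Nat.le_floor ((Nat.cast_le.2 (Nat.le_of_dvd (Nat.pos_of_ne_zero hd0) hpd)).trans hdY)
    · have h5 : p ≤ Nq := (Nat.le_of_dvd (by omega) hpd).trans h4
      exact Nat.le_floor ((Nat.cast_le.2 h5).trans hNq)

/-! ### The representation -/

lemma rep (hDv : HZ.S_Dv) {P : ℝ → ℝ} {ω : ℝ → ℂ} (hc : Continuous ω)
    (hi : Integrable (fun τ => ‖ω τ‖))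
    (hω : ∀ ξ : ℝ, (P ξ : ℂ) = ∫ τ : ℝ, ω τ * Complex.exp (-((1 + τ * Complex.I) * ξ)))
    {Y R : ℝ} {g : ℕ → ℝ} {q : ℕ → ℂ} (hY : 3 ≤ Y) (hg : ∀ n, 0 ≤ g n)
    (hq : ∀ n, ‖q n‖ ≤ R * g n) {n : ℕ} (hn : n ≠ 0) :
    ‖∑ d ∈ n.divisors, cvl (muP P Y) q d‖ ≤ R * ∫ τ, ‖ω τ‖ * hh Y g τ n := by
  have hY1 : 1 < Y := by linarith
  rw [hDv.2.1 (muP P Y) q n hn]
  have e1 : cvl (fun m => ∑ d ∈ m.divisors, muP P Y d) q n =
      ∫ τ : ℝ, ∑ e ∈ n.divisors, ∑ d ∈ e.divisors,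
        ω τ * Complex.exp (-((1 + τ * Complex.I) * ((Real.log d / Real.log Y : ℝ) : ℂ))) *
          (((ArithmeticFunction.moebius d : ℤ) : ℂ) * q (n / e)) := by
    rw [integral_finsetSum _ fun e _ => integrable_finsetSum _ fun d _ => int_exp hc hi _ _]
    unfold cvl
    refine Finset.sum_congr rfl fun e _ => ?_
    rw [integral_finsetSum _ fun d _ => int_exp hc hi _ _, Finset.sum_mul]
    refine Finset.sum_congr rfl fun d _ => ?_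
    rw [integral_mul_const, ← hω]
    unfold muP
    ring
  have e2 : ∀ τ : ℝ, ∑ e ∈ n.divisors, ∑ d ∈ e.divisors,
        ω τ * Complex.exp (-((1 + τ * Complex.I) * ((Real.log d / Real.log Y : ℝ) : ℂ))) *
          (((ArithmeticFunction.moebius d : ℤ) : ℂ) * q (n / e)) =
      ω τ * ∑ e ∈ n.divisors,
        (∏ p ∈ e.primeFactors, (1 - (p : ℂ) ^ (-((1 + τ * Complex.I) / Real.log Y)))) *
          q (n / e) := by
    intro τ
    rw [Finset.mul_sum]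
    refine Finset.sum_congr rfl fun e he => ?_
    have he0 : e ≠ 0 := (Nat.pos_of_mem_divisors he).ne'
    rw [← hDv.1 e _ he0, Finset.sum_mul, Finset.mul_sum]
    refine Finset.sum_congr rfl fun d hd => ?_
    rw [exp_eq τ (Nat.pos_of_mem_divisors hd).ne']
    ring
  rw [e1, ← integral_const_mul]
  refine norm_integral_le_of_norm_le ?_ (ae_of_all _ fun τ => ?_)
  · refine Integrable.const_mul ?_ R
    exact int_bdd hc.norm hi (hh_cont Y g n) (K := hb g n) fun τ => by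
      rw [abs_of_nonneg (hh_nonneg hY1 hg τ n)]
      exact hh_le hY1 hg τ n
  · rw [e2 τ, norm_mul]
    calc ‖ω τ‖ * ‖∑ e ∈ n.divisors,
          (∏ p ∈ e.primeFactors, (1 - (p : ℂ) ^ (-((1 + τ * Complex.I) / Real.log Y)))) *
            q (n / e)‖ ≤ ‖ω τ‖ * (R * hh Y g τ n) := by
          refine mul_le_mul_of_nonneg_left ?_ (norm_nonneg _)
          refine (norm_sum_le _ _).trans ?_
          unfold hh
          rw [Finset.mul_sum]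
          refine Finset.sum_le_sum fun e _ => ?_
          rw [norm_mul, norm_prod]
          have h1 : ∏ p ∈ e.primeFactors,
              ‖1 - (p : ℂ) ^ (-((1 + τ * Complex.I) / Real.log Y))‖ ≤ fp (cp Y τ) e :=
            Finset.prod_le_prod (fun p _ => norm_nonneg _) fun p hp =>
              hDv.2.2 Y τ p hY1 (Nat.prime_of_mem_primeFactors hp).one_lt.le
          calc _ ≤ fp (cp Y τ) e * (R * g (n / e)) :=
                mul_le_mul h1 (hq _) (norm_nonneg _) (fp_nonneg (cp_nonneg hY1 τ) _)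
            _ = _ := by ring
      _ = _ := by ring

/-! ### The bound for the finite sums -/

open Classical in
lemma fin_bd {k : ℕ} {CE CM CU : ℝ} (hCE : 1 ≤ CE)
    (hE : ∀ (Y : ℕ) (c : ℕ → ℝ) (η : ℝ), 0 ≤ η → (∀ p, 0 ≤ c p ∧ c p ≤ 2) →
      Summable (fun n : ℕ => (if Smo Y n then
        (∑ d ∈ n.divisors, fp c d * (dk k (n / d) * ((n / d : ℕ) : ℝ) ^ (-η))) ^ 2 / (n : ℝ) else 0)) ∧
      ∑' n : ℕ, (if Smo Y n then
        (∑ d ∈ n.divisors, fp c d * (dk k (n / d) * ((n / d : ℕ) : ℝ) ^ (-η))) ^ 2 / (n : ℝ) else 0) ≤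
        CE * Real.exp ((k : ℝ) ^ 2 * ∑ p ∈ pr Y, (p : ℝ) ^ (-(1 + 2 * η)) +
          (2 + 2 * k) * ∑ p ∈ pr Y, c p / (p : ℝ)))
    (hM : ∀ Y τ : ℝ, 3 ≤ Y → ∑ p ∈ pr ⌊Y⌋₊, cp Y τ p / (p : ℝ) ≤ CM + 2 * Real.log (2 + |τ|))
    (hU : ∀ η : ℝ, 0 < η → η ≤ 1 / 8 → ∀ Y : ℕ,
      Real.exp ((k : ℝ) ^ 2 * ∑ p ∈ pr Y, (p : ℝ) ^ (-(1 + 2 * η))) ≤ CU * SS k η)
    {Y η : ℝ} (hY : 3 ≤ Y) (hη : 0 < η) (hη1 : η ≤ 1 / 8) (τ : ℝ) (F : Finset ℕ) :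
    ∑ n ∈ F, (if Smo ⌊Y⌋₊ n then hh Y (gd k η) τ n ^ 2 / (n : ℝ) else 0) ≤
      CE * Real.exp ((2 + 2 * (k : ℝ)) * CM) * 2 ^ ⌈4 + 4 * (k : ℝ)⌉₊ *
        (CU * SS k η) * (1 + |τ|) ^ ⌈4 + 4 * (k : ℝ)⌉₊ := by
  have hY1 : 1 < Y := by linarith
  have hk : (0 : ℝ) ≤ (k : ℝ) := Nat.cast_nonneg _
  obtain ⟨h1, h2⟩ := hE ⌊Y⌋₊ (cp Y τ) η hη.le (fun p => ⟨cp_nonneg hY1 τ p, cp_le Y τ p⟩)
  have h3 : ∑ n ∈ F, (if Smo ⌊Y⌋₊ n then hh Y (gd k η) τ n ^ 2 / (n : ℝ) else 0) ≤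
      ∑' n : ℕ, (if Smo ⌊Y⌋₊ n then (∑ d ∈ n.divisors, fp (cp Y τ) d *
        (dk k (n / d) * ((n / d : ℕ) : ℝ) ^ (-η))) ^ 2 / (n : ℝ) else 0) :=
    h1.sum_le_tsum F fun n _ => by
      split_ifs
      · positivity
      · exact le_rfl
  refine (h3.trans h2).trans ?_
  rw [Real.exp_add]
  have h4 := exp_bd hk τ (hM Y τ hY)
  have h5 : 0 ≤ CE * Real.exp ((k : ℝ) ^ 2 * ∑ p ∈ pr ⌊Y⌋₊, (p : ℝ) ^ (-(1 + 2 * η))) :=
    mul_nonneg (by linarith) (Real.exp_nonneg _)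
  have h6 := hU η hη hη1 ⌊Y⌋₊
  have hCE0 : 0 ≤ CE := by linarith
  have h7 : 0 ≤ Real.exp ((2 + 2 * (k : ℝ)) * CM) * 2 ^ ⌈4 + 4 * (k : ℝ)⌉₊ *
      (1 + |τ|) ^ ⌈4 + 4 * (k : ℝ)⌉₊ := by
    have : 0 ≤ 1 + |τ| := by positivity
    positivity
  calc CE * (Real.exp ((k : ℝ) ^ 2 * ∑ p ∈ pr ⌊Y⌋₊, (p : ℝ) ^ (-(1 + 2 * η))) *
        Real.exp ((2 + 2 * (k : ℝ)) * ∑ p ∈ pr ⌊Y⌋₊, cp Y τ p / (p : ℝ))) =
      CE * Real.exp ((k : ℝ) ^ 2 * ∑ p ∈ pr ⌊Y⌋₊, (p : ℝ) ^ (-(1 + 2 * η))) *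
        Real.exp ((2 + 2 * (k : ℝ)) * ∑ p ∈ pr ⌊Y⌋₊, cp Y τ p / (p : ℝ)) := by ring
    _ ≤ CE * Real.exp ((k : ℝ) ^ 2 * ∑ p ∈ pr ⌊Y⌋₊, (p : ℝ) ^ (-(1 + 2 * η))) *
        (Real.exp ((2 + 2 * (k : ℝ)) * CM) * 2 ^ ⌈4 + 4 * (k : ℝ)⌉₊ *
          (1 + |τ|) ^ ⌈4 + 4 * (k : ℝ)⌉₊) :=
        mul_le_mul_of_nonneg_left h4 h5
    _ ≤ CE * (CU * SS k η) *
        (Real.exp ((2 + 2 * (k : ℝ)) * CM) * 2 ^ ⌈4 + 4 * (k : ℝ)⌉₊ *
          (1 + |τ|) ^ ⌈4 + 4 * (k : ℝ)⌉₊) :=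
        mul_le_mul_of_nonneg_right (mul_le_mul_of_nonneg_left h6 hCE0) h7
    _ = _ := by ring

end AuxFbN

open AuxFbN in
open Pool.Agent.Work.MP_56b8f5_nt.HZ.I_FoB (int_bdd cs) in
/-- The form of `M Q`. -/
theorem FbN_pf (h1 : HZ.S_FoV) (h2 : HZ.S_Om) (h3 : HZ.S_Dv) (h4 : S_EmN) (h5 : HZ.S_Msu)
    (h6 : S_EuN) (h7 : S_dkB) : S_FbN := by
  classical
  intro k P hP
  obtain ⟨ω, hc, hint, hω⟩ := h2 P hP.smooth hP.supp
  obtain ⟨CE, hCE1, hE⟩ := h4 k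
  obtain ⟨CM, hCM1, hM1, hM2⟩ := h5
  obtain ⟨CU, hCU1, hU⟩ := h6 k
  have hi : Integrable (fun τ => ‖ω τ‖) := by
    have := hint 0
    simpa using this
  have hiA := hint ⌈4 + 4 * (k : ℝ)⌉₊
  set A0 : ℝ := ∫ τ, ‖ω τ‖ with hA0
  set A1 : ℝ := ∫ τ : ℝ, (1 + |τ|) ^ ⌈4 + 4 * (k : ℝ)⌉₊ * ‖ω τ‖ with hA1
  have hA0' : 0 ≤ A0 := integral_nonneg fun τ => norm_nonneg _
  have hA1' : 0 ≤ A1 := integral_nonneg fun τ => mul_nonneg
    (pow_nonneg (add_nonneg zero_le_one (abs_nonneg _)) _) (norm_nonneg _)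
  set K0 : ℝ := CE * Real.exp ((2 + 2 * (k : ℝ)) * CM) * 2 ^ ⌈4 + 4 * (k : ℝ)⌉₊ with hK0
  have hK0' : 0 ≤ K0 := by
    have : 0 ≤ CE := by linarith
    positivity
  refine ⟨max 1 (A0 * (K0 * CU * A1) * CM), le_max_left _ _, ?_⟩
  intro Y R η q Nq N hY hR hη hη1 hq hqs hNq hN
  have hY1 : 1 < Y := by linarith
  have hlY : 0 < Real.log Y := Real.log_pos hY1
  have hg := gd_nonneg h7 k η
  have hq' : ∀ n, ‖q n‖ ≤ R * gd k η n := hq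
  obtain ⟨hV, hsum⟩ := h1 ⌊Y⌋₊ N (cvl (muP P Y) q)
    (fun n hn => D_ne hP hY hqs hNq hN n hn)
  have hE0 : 0 < CU * SS k η := (Real.exp_pos _).trans_le (hU η hη hη1 0)
  have hS0 : 0 ≤ SS k η := by
    by_contra hneg
    push Not at hneg
    nlinarith
  set E : ℝ := CU * SS k η with hEdef
  have hint1 : ∀ n, Integrable (fun τ => ‖ω τ‖ * hh Y (gd k η) τ n) := fun n =>
    int_bdd hc.norm hi (hh_cont Y (gd k η) n) (K := hb (gd k η) n) fun τ => by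
      rw [abs_of_nonneg (hh_nonneg hY1 hg τ n)]
      exact hh_le hY1 hg τ n
  have hint2 : ∀ n, Integrable (fun τ => ‖ω τ‖ * hh Y (gd k η) τ n ^ 2) := fun n =>
    int_bdd hc.norm hi ((hh_cont Y (gd k η) n).pow 2) (K := hb (gd k η) n ^ 2) fun τ => by
      rw [abs_of_nonneg (sq_nonneg _)]
      exact pow_le_pow_left₀ (hh_nonneg hY1 hg τ n) (hh_le hY1 hg τ n) 2
  have hint3 : ∀ n : ℕ, Integrable (fun τ => ‖ω τ‖ *
      (if Smo ⌊Y⌋₊ n then hh Y (gd k η) τ n ^ 2 / (n : ℝ) else 0)) := by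
    intro n
    split_ifs
    · have e : (fun τ => ‖ω τ‖ * (hh Y (gd k η) τ n ^ 2 / (n : ℝ))) =
          fun τ => ‖ω τ‖ * hh Y (gd k η) τ n ^ 2 / (n : ℝ) := by
        funext τ
        ring
      rw [e]
      exact (hint2 n).div_const _
    · simp
  have key : Fo N (cvl (muP P Y) q) / VV ⌊Y⌋₊ ≤ R ^ 2 * A0 * (K0 * E * A1) := by
    refine hasSum_le_of_sum_le hsum fun F => ?_
    calc _ ≤ ∑ n ∈ F, R ^ 2 * A0 * ∫ τ, ‖ω τ‖ *
          (if Smo ⌊Y⌋₊ n then hh Y (gd k η) τ n ^ 2 / (n : ℝ) else 0) := by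
          refine Finset.sum_le_sum fun n _ => ?_
          split_ifs with hs
          · have h1 := rep h3 hc hi hω hY hg hq' hs.1
            have h2 := pow_le_pow_left₀ (norm_nonneg _) h1 2
            have h3 := cs (fun τ => norm_nonneg (ω τ)) hi (hint1 n) (hint2 n)
            have h4 : ∫ τ, ‖ω τ‖ * (hh Y (gd k η) τ n ^ 2 / (n : ℝ)) =
                (∫ τ, ‖ω τ‖ * hh Y (gd k η) τ n ^ 2) / (n : ℝ) := by
              rw [← integral_div]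
              congr 1
              funext τ
              ring
            rw [h4]
            calc _ ≤ (R * ∫ τ, ‖ω τ‖ * hh Y (gd k η) τ n) ^ 2 / (n : ℝ) :=
                  div_le_div_of_nonneg_right h2 (Nat.cast_nonneg _)
              _ = R ^ 2 * (∫ τ, ‖ω τ‖ * hh Y (gd k η) τ n) ^ 2 / (n : ℝ) := by rw [mul_pow]
              _ ≤ R ^ 2 * (A0 * ∫ τ, ‖ω τ‖ * hh Y (gd k η) τ n ^ 2) / (n : ℝ) :=
                  div_le_div_of_nonneg_right (mul_le_mul_of_nonneg_left h3 (sq_nonneg _))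
                    (Nat.cast_nonneg _)
              _ = _ := by ring
          · simp
      _ = R ^ 2 * A0 * ∫ τ, ‖ω τ‖ *
          ∑ n ∈ F, (if Smo ⌊Y⌋₊ n then hh Y (gd k η) τ n ^ 2 / (n : ℝ) else 0) := by
          rw [← Finset.mul_sum, ← integral_finsetSum _ fun n _ => hint3 n]
          congr 2
          funext τ
          rw [Finset.mul_sum]
      _ ≤ R ^ 2 * A0 * (K0 * E * A1) := by
          refine mul_le_mul_of_nonneg_left ?_ (by positivity)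
          rw [hA1, ← integral_const_mul]
          refine integral_mono ?_ (hiA.const_mul _) fun τ => ?_
          · have e : (fun τ => ‖ω τ‖ * ∑ n ∈ F,
                (if Smo ⌊Y⌋₊ n then hh Y (gd k η) τ n ^ 2 / (n : ℝ) else 0)) =
                fun τ => ∑ n ∈ F, ‖ω τ‖ *
                  (if Smo ⌊Y⌋₊ n then hh Y (gd k η) τ n ^ 2 / (n : ℝ) else 0) := by
              funext τ
              rw [Finset.mul_sum]
            rw [e]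
            exact integrable_finsetSum _ fun n _ => hint3 n
          · have h8 := fin_bd hCE1 hE hM1 hU hY hη hη1 τ F
            calc _ ≤ ‖ω τ‖ * (K0 * E * (1 + |τ|) ^ ⌈4 + 4 * (k : ℝ)⌉₊) :=
                  mul_le_mul_of_nonneg_left h8 (norm_nonneg _)
              _ = K0 * E * ((1 + |τ|) ^ ⌈4 + 4 * (k : ℝ)⌉₊ * ‖ω τ‖) := by ring
  have hV2 := hM2 Y hY
  have hX : 0 ≤ R ^ 2 * A0 * (K0 * E * A1) := by positivity
  calc Fo N (cvl (muP P Y) q) = Fo N (cvl (muP P Y) q) / VV ⌊Y⌋₊ * VV ⌊Y⌋₊ := by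
        rw [div_mul_cancel₀ _ hV.ne']
    _ ≤ R ^ 2 * A0 * (K0 * E * A1) * VV ⌊Y⌋₊ := mul_le_mul_of_nonneg_right key hV.le
    _ ≤ R ^ 2 * A0 * (K0 * E * A1) * (CM / Real.log Y) := mul_le_mul_of_nonneg_left hV2 hX
    _ = A0 * (K0 * CU * A1) * CM * (R ^ 2 / Real.log Y * SS k η) := by
        rw [hEdef]
        ring
    _ ≤ max 1 (A0 * (K0 * CU * A1) * CM) * (R ^ 2 / Real.log Y * SS k η) :=
        mul_le_mul_of_nonneg_right (le_max_right _ _) (by positivity)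
    _ = _ := by ring

end Pool.Agent.Work.MP_56b8f5_nt.HN
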