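import Pool.Agent.Work.MP_56b8f5_nt.HN.StmtsK

/-!
MP_56b8f5_nt, block HN, item Fph: fixed distance `φ/log T` from the line.
-/

set_option autoImplicit false

open MeasureTheory Set Filter Topology

noncomputable section

namespace Pool.Agent.Work.MP_56b8f5_nt.HN

open Pool.Agent.Work.MP_56b8f5_nt.EM Pool.Agent.Work.MP_56b8f5_nt.WM Pool.Agent.Work.MP_56b8f5_nt.SH
open Pool.Agent.Work.MP_56b8f5_nt.HZ

namespace AuxFph

theorem algebra {I T S y a C E : ℝ} (hT : 0 < T) (hy : 0 < y) (ha : 0 ≤ a) (hC : 1 ≤ C) (hE0 : 0 ≤ E)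
    (hE : E ≤ 1) (h1 : |I - T * S| ≤ C * E * (T * S)) (h2 : |S / y - a| ≤ E) :
    |(1 / T) * I - a * y| ≤ (C * (a + 1) + 1) * E * y := by
  have e1 : |(1 / T) * I - S| ≤ C * E * S := by
    have : (1 / T) * I - S = (1 / T) * (I - T * S) := by field_simp
    rw [this, abs_mul, abs_of_pos (by positivity)]
    calc 1 / T * |I - T * S| ≤ 1 / T * (C * E * (T * S)) :=
          mul_le_mul_of_nonneg_left h1 (by positivity)
      _ = C * E * S := by field_simp
  have e2 : |S - a * y| ≤ E * y := by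
    have : S - a * y = (S / y - a) * y := by field_simp
    rw [this, abs_mul, abs_of_pos hy]
    exact mul_le_mul_of_nonneg_right h2 hy.le
  have e3 : S ≤ (a + 1) * y := by
    have := (abs_le.1 e2).2
    nlinarith
  have e4 : C * E * S ≤ C * E * ((a + 1) * y) := mul_le_mul_of_nonneg_left e3 (by positivity)
  calc |(1 / T) * I - a * y| = |((1 / T) * I - S) + (S - a * y)| := by ring_nf
    _ ≤ |(1 / T) * I - S| + |S - a * y| := abs_add_le _ _
    _ ≤ C * E * ((a + 1) * y) + E * y := by linarith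
    _ = (C * (a + 1) + 1) * E * y := by ring

end AuxFph

theorem Fph_pf (h1 : S_HNF) (h2 : S_LoL) : S_Fph := by
  intro k hk C₀ hC₀
  obtain ⟨c, C, T₀, hc, hC, hT₀, H⟩ := h1 k hk C₀ hC₀
  obtain ⟨hak, hlim⟩ := h2 k hk
  refine ⟨c, C * (ak k + 1) + 1, hc, by nlinarith, fun A φ hA hφ => ?_⟩
  have hφ0 : 0 < φ := by
    by_contra hcon
    have := mul_nonpos_of_nonneg_of_nonpos hc.le (not_lt.1 hcon)
    linarith
  obtain ⟨E, hE⟩ : ∃ E : ℝ, E = Real.exp (-(A / 200)) := ⟨_, rfl⟩
  have hE0 : 0 < E := by rw [hE]; exact Real.exp_pos _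
  have hE1 : E ≤ 1 := by
    rw [hE]
    exact Real.exp_le_one_iff.2 (by linarith)
  -- eventual conditions on `T`
  have t1 : Tendsto (fun T : ℝ => φ / Real.log T) atTop (𝓝[>] 0) := by
    refine tendsto_nhdsWithin_iff.2 ⟨Real.tendsto_log_atTop.const_div_atTop φ, ?_⟩
    filter_upwards [eventually_gt_atTop 1] with T hT
    exact div_pos hφ0 (Real.log_pos hT)
  have t2 := (hlim.comp t1).eventually (Metric.ball_mem_nhds (ak k) hE0)
  have t3 : Tendsto (fun L : ℝ => L / Real.log L) atTop atTop := by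
    have h3 := (Real.isLittleO_log_id_atTop)
    have h4 : Tendsto (fun x : ℝ => Real.log x / x) atTop (𝓝[>] 0) := by
      refine tendsto_nhdsWithin_iff.2 ⟨?_, ?_⟩
      · exact h3.tendsto_div_nhds_zero
      · filter_upwards [eventually_gt_atTop 1] with x hx
        exact div_pos (Real.log_pos hx) (by linarith)
    have h5 := h4.inv_tendsto_nhdsGT_zero
    refine h5.congr fun x => ?_
    simp [inv_div]
  have t4 : Tendsto (fun T : ℝ => c * (Real.log T / Real.log (Real.log T))) atTop atTop :=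
    (t3.comp Real.tendsto_log_atTop).const_mul_atTop hc
  have t5 := t4.eventually_ge_atTop A
  have t6 := Real.tendsto_log_atTop.eventually_ge_atTop (max 1 (8 * φ))
  obtain ⟨T₁, hT₁⟩ := eventually_atTop.1 (t2.and (t5.and t6))
  refine ⟨max T₁ T₀, hT₀.trans (le_max_right _ _), fun T hT => ?_⟩
  obtain ⟨g2, g5, g6⟩ := hT₁ T ((le_max_left _ _).trans hT)
  have hTT₀ : T₀ ≤ T := (le_max_right _ _).trans hT
  have hT0 : 0 < T := by linarith
  have hL1 : 1 ≤ Real.log T := (le_max_left _ _).trans g6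
  have hL0 : 0 < Real.log T := by linarith
  have hL8 : 8 * φ ≤ Real.log T := (le_max_right _ _).trans g6
  have hη : φ / Real.log T ≤ 1 / 8 := by
    rw [div_le_iff₀ hL0]
    linarith
  have hh := H T hTT₀ (1 / 2 + φ / Real.log T) A (by linarith) hA (by
    have : (1 / 2 + φ / Real.log T - 1 / 2) * Real.log T = φ := by
      field_simp
      ring
    rw [this]
    exact hφ) g5
  have eS : (∑' n : ℕ, dk k n ^ 2 * (n : ℝ) ^ (-(2 * (1 / 2 + φ / Real.log T)))) =
      SS k (φ / Real.log T) := by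
    unfold SS
    refine tsum_congr fun n => ?_
    have : -(2 * (1 / 2 + φ / Real.log T)) = -(1 + 2 * (φ / Real.log T)) := by ring
    rw [this]
  rw [eS, ← hE] at hh
  rw [← hE]
  have hy : 0 < (Real.log T / (2 * φ)) ^ k ^ 2 := by positivity
  refine AuxFph.algebra hT0 hy hak.le hC hE0.le hE1 hh ?_
  have g2' : |(2 * (φ / Real.log T)) ^ k ^ 2 * SS k (φ / Real.log T) - ak k| < E := by
    simpa [Real.dist_eq] using g2
  refine le_of_eq_of_le ?_ g2'.le
  congr 1
  have e7 : (2 * (φ / Real.log T)) ^ k ^ 2 = ((Real.log T / (2 * φ)) ^ k ^ 2)⁻¹ := by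
    rw [← inv_pow]
    congr 1
    rw [inv_div]
    ring
  rw [e7, div_eq_mul_inv]
  ring

end Pool.Agent.Work.MP_56b8f5_nt.HN
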