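import Pool.Agent.Work.MP_56b8f5_nt.HN.StmtsM

/-!
MP_56b8f5_nt, block HN: the final statement from the upper and the lower bound.
-/

set_option autoImplicit false

open MeasureTheory Set Filter Topology

noncomputable section

namespace Pool.Agent.Work.MP_56b8f5_nt.HN

open Pool.Agent.Work.MP_56b8f5_nt.EM Pool.Agent.Work.MP_56b8f5_nt.WM Pool.Agent.Work.MP_56b8f5_nt.SH
open Pool.Agent.Work.MP_56b8f5_nt.HZ

theorem HNm_pf (hU : S_Upp) (hL : S_Low) : S_HNm := by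
  intro k hk ε hε
  obtain ⟨k, rfl⟩ : ∃ j, k = j + 1 := ⟨k - 1, by omega⟩
  obtain ⟨A₀, hA₀, hL⟩ := hL k ε hε
  refine ⟨A₀, fun A hA C₀ hC₀ => ?_⟩
  obtain ⟨Φ₁, T₁, hΦ₁, hT₁, h1⟩ := hL A hA C₀ hC₀
  obtain ⟨Φ₂, T₂, hΦ₂, hT₂, h2⟩ := hU k ε hε A C₀ (by linarith) (by linarith)
  refine ⟨max Φ₁ Φ₂, max T₁ T₂, lt_of_lt_of_le one_pos (hΦ₁.trans (le_max_left _ _)),
    hT₁.trans (le_max_left _ _), fun T hT σ hσ hσ' => ?_⟩
  have hTT₁ : T₁ ≤ T := (le_max_left _ _).trans hT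
  have hTT₂ : T₂ ≤ T := (le_max_right _ _).trans hT
  have hlog : 0 ≤ Real.log T := Real.log_nonneg (by linarith)
  have e1 : Φ₁ / Real.log T ≤ σ - 1 / 2 := by
    have : Φ₁ / Real.log T ≤ max Φ₁ Φ₂ / Real.log T :=
      div_le_div_of_nonneg_right (le_max_left _ _) hlog
    linarith
  have e2 : Φ₂ / Real.log T ≤ σ - 1 / 2 := by
    have : Φ₂ / Real.log T ≤ max Φ₁ Φ₂ / Real.log T :=
      div_le_div_of_nonneg_right (le_max_right _ _) hlog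
    linarith
  have e3 : σ - 1 / 2 ≤ 1 / 8 := by linarith
  have a1 := h1 T hTT₁ (σ - 1 / 2) e1 e3
  have a2 := h2 T hTT₂ (σ - 1 / 2) e2 e3
  have es : ∀ t : ℝ, sp (σ - 1 / 2) t = (σ : ℂ) + t * Complex.I := by
    intro t
    unfold sp
    congr 2
    ring
  have eS : SS (k + 1) (σ - 1 / 2) = ∑' n : ℕ, dk (k + 1) n ^ 2 * (n : ℝ) ^ (-(2 * σ)) := by
    unfold SS
    refine tsum_congr fun n => ?_
    have : -(1 + 2 * (σ - 1 / 2)) = -(2 * σ) := by ring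
    rw [this]
  simp only [es] at a1 a2
  rw [eS] at a1 a2
  rw [abs_le]
  constructor <;> nlinarith

end Pool.Agent.Work.MP_56b8f5_nt.HN
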