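import Pool.Agent.Work.MP_56b8f5_nt.HN.StmtsP
import Pool.Agent.Work.MP_56b8f5_nt.HZ.I_PW

/-!
MP_56b8f5_nt, block HN, item PWc: the final statement of part P (copy of item PW of block HZ).
-/

set_option autoImplicit false

open MeasureTheory Set Filter Topology

noncomputable section

namespace Pool.Agent.Work.MP_56b8f5_nt.HN

open Pool.Agent.Work.MP_56b8f5_nt.EM Pool.Agent.Work.MP_56b8f5_nt.WM Pool.Agent.Work.MP_56b8f5_nt.SH
open Pool.Agent.Work.MP_56b8f5_nt.HZ

namespace AuxPWc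

open HZ.I_PW

lemma cont_Dx (κ : ℝ → ℝ) (X x t η : ℝ) :
    Continuous fun a : ℝ => (Dx (wk κ X (a + η)) x t).re :=
  (HZ.I_PW.cont_Dx κ X x t).comp (continuous_id.add continuous_const)

lemma Dx_cc (κ : ℝ → ℝ) (lam x t η : ℝ) (hx : 0 < Real.log x) :
    Dx (fun n => cc κ lam x n * (n : ℝ) ^ (-η)) x t =
      Dx (wk κ (Real.log x) (lam / Real.log x + η)) x t := by
  unfold Dx
  refine Finset.sum_congr rfl fun n hn => ?_
  have hn1 : 1 ≤ n := (Finset.mem_Icc.1 hn).1
  have hn0 : (0 : ℝ) < n := by exact_mod_cast hn1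
  have h : cc κ lam x n * (n : ℝ) ^ (-η) = wk κ (Real.log x) (lam / Real.log x + η) n := by
    unfold HZ.I_PW.cc
    rw [if_neg]
    · unfold wk
      rw [neg_add, Real.rpow_add hn0, mul_assoc]
    · rw [not_or]
      exact ⟨by omega, not_le.2 hx⟩
  beta_reduce
  rw [h]

end AuxPWc

open AuxPWc

theorem PWc_pf (h1 : S_PWb) (h2 : HZ.S_Kex) (h3 : HZ.S_KS1) (h4 : HZ.S_Kkt) : S_PWc := by
  obtain ⟨κ, hκ⟩ := h2
  obtain ⟨c, C, hC1, hC⟩ := h3 κ hκ
  obtain ⟨lam, hlam, hmain⟩ := h1 κ c C hκ hC1 hC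
  refine ⟨HZ.I_PW.cc κ lam, HZ.I_PW.cc_mem h4 hκ hlam, fun A C₀ hA hC₀ => ?_⟩
  obtain ⟨m₀, T₀, K, hm₀, hT₀, hK, hmain⟩ := hmain A C₀ hA hC₀
  refine ⟨m₀, T₀, K, hm₀, hT₀, hK, fun T hT t ht η hη0 hη1 x hx1 hx2 => ?_⟩
  by_cases hz : riemannZeta (sp η t) = 0
  · rw [hz, norm_zero]
    exact (Real.exp_pos _).le
  have hT3 : 3 ≤ T := hT₀.trans hT
  have hT0 : 0 < T := by linarith
  have hlog3 : 1 < Real.log T := by
    rw [Real.lt_log_iff_exp_lt hT0]
    exact lt_of_lt_of_le (Real.exp_one_lt_d9.trans (by norm_num)) hT3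
  have hx0 : 0 < x := by linarith
  have hx3 : 1 < x := by linarith
  obtain ⟨X, hX⟩ : ∃ X, X = Real.log x := ⟨_, rfl⟩
  have hX0 : 0 < X := by rw [hX]; exact Real.log_pos hx3
  have hexp : Real.exp X = x := by rw [hX, Real.exp_log hx0]
  have hXL : Real.log (Real.log T) ≤ X := by
    rw [hX]
    exact Real.log_le_log (by linarith) hx1
  have hm0 : 0 < m₀ := by linarith
  have hmX : m₀ * X ≤ Real.log T := by
    have h1 : X ≤ 1 / m₀ * Real.log T := by
      rw [hX, ← Real.log_rpow hT0]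
      exact Real.log_le_log hx0 hx2
    calc m₀ * X ≤ m₀ * (1 / m₀ * Real.log T) := mul_le_mul_of_nonneg_left h1 hm0.le
      _ = Real.log T := by field_simp
  obtain ⟨a₀, ha₀⟩ : ∃ a₀, a₀ = lam / X := ⟨_, rfl⟩
  have hlamX : 0 < lam / X := by positivity
  have hkey : Real.log ‖riemannZeta (sp η t)‖ ≤
      (Dx (wk κ X (a₀ + η)) (Real.exp X) t).re + K * (Real.log T / X) := by
    have hcont : Tendsto
        (fun a : ℝ => (Dx (wk κ X (a + η)) (Real.exp X) t).re + K * (Real.log T / X))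
        (𝓝[>] a₀) (𝓝 ((Dx (wk κ X (a₀ + η)) (Real.exp X) t).re + K * (Real.log T / X))) := by
      have h1 : Continuous (fun a : ℝ => (Dx (wk κ X (a + η)) (Real.exp X) t).re +
          K * (Real.log T / X)) := (AuxPWc.cont_Dx κ X (Real.exp X) t η).add continuous_const
      exact (h1.tendsto a₀).mono_left nhdsWithin_le_nhds
    refine ge_of_tendsto hcont ?_
    have hne : (sp η t + (a₀ : ℂ) : ℂ) ≠ 1 := by
      intro h
      have h1 := congrArg Complex.im h
      unfold sp at h1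
      simp only [Complex.add_im, Complex.mul_im, Complex.ofReal_re, Complex.ofReal_im,
        Complex.I_re, Complex.I_im, Complex.one_im] at h1
      have h3 : t = 0 := by linarith
      have h4 := ht.1
      linarith
    have hmap : Tendsto (fun a : ℝ => (sp η t + (a : ℂ) : ℂ)) (𝓝[>] a₀)
        (𝓝[≠] (sp η t + (a₀ : ℂ))) := by
      refine tendsto_nhdsWithin_iff.2 ⟨?_, ?_⟩
      · have h1 : Continuous fun a : ℝ => (sp η t + (a : ℂ) : ℂ) := by fun_prop
        exact (h1.tendsto a₀).mono_left nhdsWithin_le_nhds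
      · filter_upwards [self_mem_nhdsWithin] with a ha
        intro h
        have h1 : (a : ℂ) = (a₀ : ℂ) := add_left_cancel h
        have h2 : a = a₀ := by exact_mod_cast h1
        exact absurd h2 (ne_of_gt ha)
    have hlt : a₀ < 2 * lam / X := by
      rw [ha₀, mul_div_assoc]
      linarith
    filter_upwards [hmap.eventually (HZ.I_PW.ev_ne hne), self_mem_nhdsWithin,
      nhdsWithin_le_nhds (Iic_mem_nhds hlt)] with a h1 h2 h3
    refine hmain T hT t ht η hη0 hη1 hz X a hXL hmX ?_ h3 h1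
    rw [← ha₀]
    exact le_of_lt h2
  have hpos : 0 < ‖riemannZeta (sp η t)‖ := norm_pos_iff.2 hz
  rw [Real.log_le_iff_le_exp hpos] at hkey
  rw [AuxPWc.Dx_cc κ lam x t η (by rw [← hX]; exact hX0), ← hX, ← ha₀]
  rw [hexp] at hkey
  exact hkey

end Pool.Agent.Work.MP_56b8f5_nt.HN
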