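import Pool.Agent.Work.MP_56b8f5_nt.HN.StmtsP
import Pool.Agent.Work.MP_56b8f5_nt.HZ.I_Pair

/-!
MP_56b8f5_nt, block HN, item PairN: a pair of zeros contributes at most `0`.
-/

set_option autoImplicit false

open MeasureTheory Set Filter Topology

noncomputable section

namespace Pool.Agent.Work.MP_56b8f5_nt.HN

open Pool.Agent.Work.MP_56b8f5_nt.EM Pool.Agent.Work.MP_56b8f5_nt.WM Pool.Agent.Work.MP_56b8f5_nt.SH
open Pool.Agent.Work.MP_56b8f5_nt.HZ

namespace AuxPairN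

/-- the gain -/
theorem gain (p q p' q' s : ℝ) (hp : 0 < p) (hq : 0 < q) (hp' : 0 < p') (hq' : 0 < q')
    (hs0 : 0 ≤ s) (hs1 : s ≤ 1) (h : p * q * (1 + s) ≤ p' * q') :
    Real.log p / 2 + Real.log q / 2 + s / 4 ≤ Real.log p' / 2 + Real.log q' / 2 := by
  have h1 : s / 2 ≤ Real.log (1 + s) := by
    have h2 := Real.one_sub_inv_le_log_of_pos (show 0 < 1 + s by linarith)
    have h3 : s / 2 ≤ 1 - (1 + s)⁻¹ := by
      have h4 : 1 - (1 + s)⁻¹ = s / (1 + s) := by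
        field_simp
        ring
      rw [h4]
      exact div_le_div_of_nonneg_left hs0 (by linarith) (by linarith)
    exact h3.trans h2
  have h5 := Real.log_le_log (by positivity) h
  rw [Real.log_mul (by positivity) (by linarith), Real.log_mul hp.ne' hq.ne',
    Real.log_mul hp'.ne' hq'.ne'] at h5
  linarith

/-- the statement from bounds of `S1` -/
theorem concl (κ : ℝ → ℝ) (c X a η y v s : ℝ) (hX : 0 < X) (hz1 : 0 < (y - η) ^ 2 + v ^ 2)
    (hz2 : 0 < (-y - η) ^ 2 + v ^ 2) (hs0 : 0 ≤ s)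
    (hs1 : s ≤ 1) (hP1 : 0 < (y - η - a) ^ 2 + v ^ 2) (hP2 : 0 < (-y - η - a) ^ 2 + v ^ 2)
    (h : ((y - η) ^ 2 + v ^ 2) * ((-y - η) ^ 2 + v ^ 2) * (1 + s) ≤
      ((y - η - a) ^ 2 + v ^ 2) * ((-y - η - a) ^ 2 + v ^ 2))
    (hS : S1 κ c (X * ((((y - η : ℝ) : ℂ) + v * Complex.I) - a)) +
      S1 κ c (X * ((((-y - η : ℝ) : ℂ) + v * Complex.I) - a)) ≤ s / 4) :
    2 * (Real.log X - c) + (Hh κ (X * (((y - η : ℝ) : ℂ) + v * Complex.I - a))).re +
    (Hh κ (X * (((-y - η : ℝ) : ℂ) + v * Complex.I - a))).re +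
    Real.log ‖((y - η : ℝ) : ℂ) + v * Complex.I‖ +
    Real.log ‖((-y - η : ℝ) : ℂ) + v * Complex.I‖ ≤ 0 := by
  have h1 := gain _ _ _ _ s hz1 hz2 hP1 hP2 hs0 hs1 h
  have h2 := I_Pair.Hh_eq κ c X a (y - η) v hX hP1
  have h3 := I_Pair.Hh_eq κ c X a (-y - η) v hX hP2
  rw [h2, h3, I_Pair.norm_pq, I_Pair.norm_pq]
  linarith

theorem prod_id (y v a η : ℝ) : ((y - η - a) ^ 2 + v ^ 2) * ((-y - η - a) ^ 2 + v ^ 2) =
    ((y - η) ^ 2 + v ^ 2) * ((-y - η) ^ 2 + v ^ 2) +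
      a * (a + 2 * η) * ((η + a) ^ 2 + η ^ 2 + 2 * v ^ 2 - 2 * y ^ 2) := by
  ring

theorem prod_eq (y v η : ℝ) : ((y - η) ^ 2 + v ^ 2) * ((-y - η) ^ 2 + v ^ 2) =
    (y ^ 2 - η ^ 2) ^ 2 + 2 * v ^ 2 * (y ^ 2 + η ^ 2) + v ^ 4 := by
  ring

/-- Case 1 -/
theorem case1 (κ : ℝ → ℝ) (c C : ℝ) (hC : 1 ≤ C) (hI : IsC κ c C) (lam X a η y v : ℝ)
    (hlam : 2 ≤ lam) (hlamC : 18 * C ≤ lam ^ 2) (hX : 1 ≤ X) (ha : lam ≤ X * a) (hη : 0 ≤ η)
    (hy0 : 0 ≤ y) (hy : y ≤ (η + a) / 4) (hz1 : 0 < (y - η) ^ 2 + v ^ 2)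
    (hz2 : 0 < (-y - η) ^ 2 + v ^ 2) :
    2 * (Real.log X - c) + (Hh κ (X * (((y - η : ℝ) : ℂ) + v * Complex.I - a))).re +
    (Hh κ (X * (((-y - η : ℝ) : ℂ) + v * Complex.I - a))).re +
    Real.log ‖((y - η : ℝ) : ℂ) + v * Complex.I‖ +
    Real.log ‖((-y - η : ℝ) : ℂ) + v * Complex.I‖ ≤ 0 := by
  have hXp : 0 < X := by linarith
  have ha0 : 0 < a := by
    by_contra h
    have : X * a ≤ 0 := mul_nonpos_of_nonneg_of_nonpos hXp.le (not_lt.mp h)
    linarith
  obtain ⟨b, hb⟩ : ∃ b : ℝ, b = η + a := ⟨_, rfl⟩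
  rw [← hb] at hy
  have hab : a ≤ b := by linarith
  have hb0 : 0 < b := by linarith
  have hηb : η ≤ b := by linarith
  have hQ : 0 < b ^ 2 + v ^ 2 := by positivity
  have hsub1 : y - η - a = y - b := by rw [hb]; ring
  have hsub2 : -y - η - a = -y - b := by rw [hb]; ring
  have hv2 := sq_nonneg v
  have hP1 : 9 / 16 * (b ^ 2 + v ^ 2) ≤ (y - b) ^ 2 + v ^ 2 := by nlinarith
  have hP2 : 9 / 16 * (b ^ 2 + v ^ 2) ≤ (-y - b) ^ 2 + v ^ 2 := by nlinarith
  have hP1' : 0 < (y - η - a) ^ 2 + v ^ 2 := by rw [hsub1]; linarith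
  have hP2' : 0 < (-y - η - a) ^ 2 + v ^ 2 := by rw [hsub2]; linarith
  have hab2 : a * b ≤ b ^ 2 := by nlinarith
  have hab0 : 0 ≤ a * b := by positivity
  set s := 4 / 5 * (a * b / (b ^ 2 + v ^ 2)) with hs
  have hfr : a * b / (b ^ 2 + v ^ 2) ≤ 1 := by
    rw [div_le_one hQ]
    linarith
  have hfr0 : 0 ≤ a * b / (b ^ 2 + v ^ 2) := by positivity
  refine concl κ c X a η y v s hXp hz1 hz2 (by positivity) (by linarith) hP1' hP2' ?_ ?_
  · have hy2 : y ^ 2 ≤ b ^ 2 / 16 := by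
      have h1 : y ^ 2 ≤ (b / 4) ^ 2 := pow_le_pow_left₀ hy0 hy 2
      linarith [h1]
    have hη2 : η ^ 2 ≤ b ^ 2 := pow_le_pow_left₀ hη hηb 2
    have hy20 := sq_nonneg y
    have hη20 := sq_nonneg η
    have hf : ((y - η) ^ 2 + v ^ 2) * ((-y - η) ^ 2 + v ^ 2) ≤ 17 / 16 * (b ^ 2 + v ^ 2) ^ 2 := by
      rw [prod_eq]
      have h1 : (y ^ 2 - η ^ 2) ^ 2 ≤ (b ^ 2) ^ 2 :=
        sq_le_sq' (by linarith) (by linarith)
      have h2 : 2 * v ^ 2 * (y ^ 2 + η ^ 2) ≤ 2 * v ^ 2 * (17 / 16 * b ^ 2) :=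
        mul_le_mul_of_nonneg_left (by linarith) (by positivity)
      have h3 : 0 ≤ (b ^ 2) ^ 2 := sq_nonneg _
      have h4 : 0 ≤ v ^ 4 := by positivity
      have h5 : 17 / 16 * (b ^ 2 + v ^ 2) ^ 2 =
          17 / 16 * (b ^ 2) ^ 2 + 2 * v ^ 2 * (17 / 16 * b ^ 2) + 17 / 16 * v ^ 4 := by ring
      rw [h5]
      linarith
    have h1 : ((y - η) ^ 2 + v ^ 2) * ((-y - η) ^ 2 + v ^ 2) * s ≤
        a * (a + 2 * η) * ((η + a) ^ 2 + η ^ 2 + 2 * v ^ 2 - 2 * y ^ 2) := by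
      have h3 : ((y - η) ^ 2 + v ^ 2) * ((-y - η) ^ 2 + v ^ 2) * s ≤
          17 / 16 * (b ^ 2 + v ^ 2) ^ 2 * s := mul_le_mul_of_nonneg_right hf (by positivity)
      have h4 : 17 / 16 * (b ^ 2 + v ^ 2) ^ 2 * s = 17 / 20 * (a * b) * (b ^ 2 + v ^ 2) := by
        rw [hs]
        field_simp
        ring
      have h5 : 7 / 8 * (b ^ 2 + v ^ 2) ≤ (η + a) ^ 2 + η ^ 2 + 2 * v ^ 2 - 2 * y ^ 2 := by
        rw [← hb]
        linarith
      have h6 : a * b * (7 / 8 * (b ^ 2 + v ^ 2)) ≤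
          a * (a + 2 * η) * ((η + a) ^ 2 + η ^ 2 + 2 * v ^ 2 - 2 * y ^ 2) := by
        have h7 : a * b ≤ a * (a + 2 * η) := mul_le_mul_of_nonneg_left (by linarith) ha0.le
        have h8 : 0 ≤ 7 / 8 * (b ^ 2 + v ^ 2) := by positivity
        calc a * b * (7 / 8 * (b ^ 2 + v ^ 2)) ≤ a * (a + 2 * η) * (7 / 8 * (b ^ 2 + v ^ 2)) :=
              mul_le_mul_of_nonneg_right h7 h8
          _ ≤ _ := mul_le_mul_of_nonneg_left h5 (hab0.trans h7)
      have h9 : 17 / 20 * (a * b) * (b ^ 2 + v ^ 2) ≤ a * b * (7 / 8 * (b ^ 2 + v ^ 2)) := by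
        have h10 : 0 ≤ a * b * (b ^ 2 + v ^ 2) := by positivity
        linarith
      linarith
    rw [prod_id, mul_one_add]
    linarith
  · have key : ∀ p : ℝ, p - a ≤ -(3 / 4 * b) → 9 / 16 * (b ^ 2 + v ^ 2) ≤ (p - a) ^ 2 + v ^ 2 →
        S1 κ c (X * (((p : ℂ) + v * Complex.I) - a)) ≤ s / 8 := by
      intro p hp hP
      have hXb : lam ≤ X * b := ha.trans (mul_le_mul_of_nonneg_left hab hXp.le)
      have h1 : ((X : ℂ) * (((p : ℂ) + v * Complex.I) - a)).re ≤ -1 := by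
        rw [I_Pair.w_re]
        have h2 : X * (p - a) ≤ X * (-(3 / 4 * b)) := mul_le_mul_of_nonneg_left hp hXp.le
        have h3 : X * (-(3 / 4 * b)) = -(3 / 4 * (X * b)) := by ring
        linarith
      have h2 := (hI (X * (((p : ℂ) + v * Complex.I) - a))).2.1 h1
      set w := (X : ℂ) * (((p : ℂ) + v * Complex.I) - a) with hw
      have h3 : 1 ≤ ‖w‖ := by
        have := Complex.abs_re_le_norm w
        rw [abs_of_nonpos (by linarith)] at this
        linarith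
      have h3p : 0 < ‖w‖ := by linarith
      have h4 : C / ‖w‖ ^ 3 ≤ C / ‖w‖ ^ 2 := by
        apply div_le_div_of_nonneg_left (by linarith) (by positivity)
        exact pow_le_pow_right₀ h3 (by norm_num)
      have h5 : ‖w‖ ^ 2 = X ^ 2 * ((p - a) ^ 2 + v ^ 2) := I_Pair.w_norm X a p v
      have h6 : C / ‖w‖ ^ 2 ≤ s / 8 := by
        rw [h5, hs]
        have h7 : 4 / 5 * (a * b / (b ^ 2 + v ^ 2)) / 8 = (a * b) / (10 * (b ^ 2 + v ^ 2)) := by
          field_simp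
          ring
        have hPp : 0 < (p - a) ^ 2 + v ^ 2 := lt_of_lt_of_le (by positivity) hP
        rw [h7, div_le_div_iff₀ (by positivity) (by positivity)]
        have h8 : lam ^ 2 ≤ X ^ 2 * (a * b) := by
          have h9 : lam * lam ≤ (X * a) * (X * b) := mul_le_mul ha hXb (by linarith)
            (by positivity)
          calc lam ^ 2 = lam * lam := by ring
            _ ≤ (X * a) * (X * b) := h9
            _ = X ^ 2 * (a * b) := by ring
        have h9 : 18 * C * (b ^ 2 + v ^ 2) ≤ X ^ 2 * (a * b) * (b ^ 2 + v ^ 2) :=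
          mul_le_mul_of_nonneg_right (hlamC.trans h8) hQ.le
        have h10 : X ^ 2 * (a * b) * (9 / 16 * (b ^ 2 + v ^ 2)) ≤
            X ^ 2 * (a * b) * ((p - a) ^ 2 + v ^ 2) :=
          mul_le_mul_of_nonneg_left hP (by positivity)
        have h11 : 0 ≤ C * (b ^ 2 + v ^ 2) := by positivity
        have e1 : a * b * (X ^ 2 * ((p - a) ^ 2 + v ^ 2)) =
            X ^ 2 * (a * b) * ((p - a) ^ 2 + v ^ 2) := by ring
        have e2 : X ^ 2 * (a * b) * (9 / 16 * (b ^ 2 + v ^ 2)) =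
            9 / 16 * (X ^ 2 * (a * b) * (b ^ 2 + v ^ 2)) := by ring
        have e3 : C * (10 * (b ^ 2 + v ^ 2)) = 10 * (C * (b ^ 2 + v ^ 2)) := by ring
        have e4 : 18 * C * (b ^ 2 + v ^ 2) = 18 * (C * (b ^ 2 + v ^ 2)) := by ring
        rw [e1, e3]
        rw [e2] at h10
        rw [e4] at h9
        linarith
      exact (le_abs_self _).trans (h2.trans (h4.trans h6))
    have h1 := key (y - η) (by rw [hsub1]; linarith) (by rw [hsub1]; exact hP1)
    have h2 := key (-y - η) (by rw [hsub2]; linarith) (by rw [hsub2]; exact hP2)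
    linarith

/-- Case 2 -/
theorem case2 (κ : ℝ → ℝ) (c C : ℝ) (hC : 1 ≤ C) (hI : IsC κ c C) (lam A C₀ X a η y v L m₀ : ℝ)
    (hlam : 2 ≤ lam) (hA : 0 ≤ A) (hC₀ : 0 ≤ C₀)
    (hm₀ : m₀ = 1 + 4 * (A + 4 * C₀) * (2 + 8 * (A + 4 * C₀) + 12 * C * Real.exp A) + 4 * C₀)
    (hX : 1 ≤ X) (hL : m₀ * X ≤ L) (ha : lam ≤ X * a) (ha2 : X * a ≤ 2 * lam) (hη : 0 ≤ η)
    (hyη : (η + a) / 4 < y) (hyL : y * L ≤ A + C₀ * Real.log (1 + |v| * L)) :
    2 * (Real.log X - c) + (Hh κ (X * (((y - η : ℝ) : ℂ) + v * Complex.I - a))).re +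
    (Hh κ (X * (((-y - η : ℝ) : ℂ) + v * Complex.I - a))).re +
    Real.log ‖((y - η : ℝ) : ℂ) + v * Complex.I‖ +
    Real.log ‖((-y - η : ℝ) : ℂ) + v * Complex.I‖ ≤ 0 := by
  have hXp : 0 < X := by linarith
  have ha0 : 0 < a := by
    by_contra h
    have : X * a ≤ 0 := mul_nonpos_of_nonneg_of_nonpos hXp.le (not_lt.mp h)
    linarith
  have hy : a / 4 < y := by linarith
  have hB0 : 0 ≤ A + 4 * C₀ := by positivity
  have heA : 1 ≤ Real.exp A := Real.one_le_exp hA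
  set B := A + 4 * C₀ with hB
  set u₀ := 2 + 8 * B + 12 * C * Real.exp A with hu₀
  have hCe : 0 ≤ 12 * C * Real.exp A := by positivity
  have hu₀2 : 2 ≤ u₀ := by linarith
  have hBu₀ : 0 ≤ B * u₀ := by positivity
  have hm2 : m₀ = 1 + 4 * (B * u₀) + 4 * C₀ := by rw [hm₀]; ring
  have hm1 : 1 ≤ m₀ := by linarith
  have hmC : 4 * C₀ ≤ m₀ := by linarith
  have hLp : 0 < L := lt_of_lt_of_le (by positivity) hL
  have hv0 : 0 ≤ |v| := abs_nonneg v
  set r := |v| * L with hr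
  have hr0 : 0 ≤ r := by positivity
  set u := Real.sqrt (Real.sqrt (1 + r)) with hu
  have hu4 : u ^ 4 = 1 + r := by
    have h1 : u ^ 2 = Real.sqrt (1 + r) := Real.sq_sqrt (Real.sqrt_nonneg _)
    calc u ^ 4 = (u ^ 2) ^ 2 := by ring
      _ = 1 + r := by rw [h1, Real.sq_sqrt (by linarith)]
  have hu1 : 1 ≤ u := by
    rw [hu]
    rw [Real.one_le_sqrt, Real.one_le_sqrt]
    linarith
  have hup : 0 < u := by linarith
  have hlog : Real.log (1 + r) = 4 * Real.log u := by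
    rw [← hu4, Real.log_pow]
    push_cast
    ring
  have hlogu : Real.log u ≤ u := (Real.log_le_sub_one_of_pos hup).trans (by linarith)
  have hlogu0 : 0 ≤ Real.log u := Real.log_nonneg hu1
  rw [hlog] at hyL
  have hD : y * L ≤ B * u := by
    refine hyL.trans ?_
    rw [hB]
    have h1 : C₀ * Real.log u ≤ C₀ * u := mul_le_mul_of_nonneg_left hlogu hC₀
    have h2 : A * 1 ≤ A * u := mul_le_mul_of_nonneg_left hu1 hA
    linarith
  have hy0 : 0 < y := by linarith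
  -- `u` is large
  have hm4 : m₀ ≤ 4 * (y * L) := by
    have h1 : lam * m₀ ≤ X * a * m₀ := mul_le_mul_of_nonneg_right ha (by linarith)
    have h2 : a * (m₀ * X) ≤ a * L := mul_le_mul_of_nonneg_left hL ha0.le
    have h3 : a * L ≤ 4 * y * L := mul_le_mul_of_nonneg_right (by linarith) hLp.le
    have h4 : 1 * m₀ ≤ lam * m₀ := mul_le_mul_of_nonneg_right (by linarith) (by linarith)
    have h5 : X * a * m₀ = a * (m₀ * X) := by ring
    linarith
  have huu : u₀ < u := by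
    by_contra h
    have h1 : B * u ≤ B * u₀ := mul_le_mul_of_nonneg_left (not_lt.mp h) hB0
    have h2 : m₀ = 1 + 4 * (B * u₀) + 4 * C₀ := by rw [hm₀]; ring
    linarith
  have hu2 : 2 ≤ u := by linarith
  have hu8 : 8 * B ≤ u := by linarith
  have hur : u ^ 4 ≤ 2 * r := by
    have h1 : (2 : ℝ) ^ 4 ≤ u ^ 4 := pow_le_pow_left₀ (by norm_num) hu2 4
    have h2 : (2 : ℝ) ^ 4 = 16 := by norm_num
    linarith
  -- `V = X |v|`
  set V := X * |v| with hV
  have hV0 : 0 ≤ V := by positivity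
  have hVu : lam * u ^ 2 ≤ V := by
    have h1 : lam * L ≤ 4 * X * (y * L) := by
      have h2 : X * a * L ≤ X * (4 * y) * L := by
        have : X * a ≤ X * (4 * y) := mul_le_mul_of_nonneg_left (by linarith) hXp.le
        exact mul_le_mul_of_nonneg_right this hLp.le
      have h3 : lam * L ≤ X * a * L := mul_le_mul_of_nonneg_right ha hLp.le
      have h4 : X * (4 * y) * L = 4 * X * (y * L) := by ring
      linarith
    have h4 : lam * r ≤ 4 * V * (B * u) := by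
      have h5 : lam * L * |v| ≤ 4 * X * (y * L) * |v| := mul_le_mul_of_nonneg_right h1 hv0
      have h6 : 4 * V * (y * L) ≤ 4 * V * (B * u) := mul_le_mul_of_nonneg_left hD (by positivity)
      have h7 : lam * r = lam * L * |v| := by rw [hr]; ring
      have h8 : 4 * X * (y * L) * |v| = 4 * V * (y * L) := by rw [hV]; ring
      linarith
    have h9 : lam * u ^ 4 ≤ lam * (2 * r) := mul_le_mul_of_nonneg_left hur (by linarith)
    have h10 : lam * u ^ 4 ≤ V * u * u := by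
      have h11 : V * u * (8 * B) ≤ V * u * u := mul_le_mul_of_nonneg_left hu8 (by positivity)
      have e1 : lam * (2 * r) = 2 * (lam * r) := by ring
      have e2 : V * u * (8 * B) = 2 * (4 * V * (B * u)) := by ring
      linarith
    have h12 : (lam * u ^ 2) * (u ^ 2) ≤ V * u ^ 2 := by
      have e1 : (lam * u ^ 2) * (u ^ 2) = lam * u ^ 4 := by ring
      have e2 : V * u ^ 2 = V * u * u := by ring
      linarith
    exact le_of_mul_le_mul_right h12 (by positivity)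
  have hVu2 : u ^ 2 ≤ V := by
    have h1 : 1 * u ^ 2 ≤ lam * u ^ 2 := mul_le_mul_of_nonneg_right (by linarith) (sq_nonneg u)
    linarith
  have hu22 : 4 ≤ u ^ 2 := by
    have h1 : (2 : ℝ) ^ 2 ≤ u ^ 2 := pow_le_pow_left₀ (by norm_num) hu2 2
    linarith
  have hV1 : 1 ≤ V := by linarith
  have hvp : 0 < |v| := by
    rcases hv0.lt_or_eq with h | h
    · exact h
    · rw [hV, ← h, mul_zero] at hV1
      linarith
  have hy10 : 10 * y ≤ |v| := by
    have h1 : 10 * (B * u) ≤ r := by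
      have h2 : 8 * B * u ≤ u * u := mul_le_mul_of_nonneg_right hu8 hup.le
      have h3 : 4 * (u * u) ≤ u ^ 4 := by
        have h4 : 4 * u ^ 2 ≤ u ^ 2 * u ^ 2 :=
          mul_le_mul_of_nonneg_right hu22 (sq_nonneg u)
        calc 4 * (u * u) = 4 * u ^ 2 := by ring
          _ ≤ u ^ 2 * u ^ 2 := h4
          _ = u ^ 4 := by ring
      linarith
    have h4 : 10 * y * L ≤ |v| * L := by linarith
    exact le_of_mul_le_mul_right h4 hLp
  have hav : 2 * a ≤ |v| := by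
    have h1 : X * (2 * a) ≤ X * |v| := by
      have h2 : lam * 4 ≤ lam * u ^ 2 := mul_le_mul_of_nonneg_left hu22 (by linarith)
      have h3 : X * (2 * a) = 2 * (X * a) := by ring
      linarith
    exact le_of_mul_le_mul_left h1 hXp
  have hvv : |v| ^ 2 = v ^ 2 := sq_abs v
  have hv2 : 0 < v ^ 2 := by rw [← hvv]; positivity
  have hyv : 100 * y ^ 2 ≤ v ^ 2 := by
    have h1 : (10 * y) ^ 2 ≤ |v| ^ 2 := pow_le_pow_left₀ (by linarith) hy10 2
    rw [hvv] at h1
    linarith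
  have hηv : η ^ 2 ≤ 4 / 25 * v ^ 2 := by
    have h1 : (5 / 2 * η) ^ 2 ≤ |v| ^ 2 := pow_le_pow_left₀ (by linarith) (by linarith) 2
    rw [hvv] at h1
    linarith
  have hav2 : 4 * a ^ 2 ≤ v ^ 2 := by
    have h1 : (2 * a) ^ 2 ≤ |v| ^ 2 := pow_le_pow_left₀ (by linarith) hav 2
    rw [hvv] at h1
    linarith
  set s := 7 / 5 * (a ^ 2 / v ^ 2) with hs
  have hs1 : a ^ 2 / v ^ 2 ≤ 1 / 4 := by
    rw [div_le_div_iff₀ hv2 (by norm_num)]
    linarith
  have hs0 : 0 ≤ a ^ 2 / v ^ 2 := by positivity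
  refine concl κ c X a η y v s hXp (by positivity) (by positivity) (by positivity) (by linarith)
    (by positivity) (by positivity) ?_ ?_
  · have hf : ((y - η) ^ 2 + v ^ 2) * ((-y - η) ^ 2 + v ^ 2) ≤ 137 / 100 * (v ^ 2) ^ 2 := by
      rw [prod_eq]
      have hy20 := sq_nonneg y
      have hη20 := sq_nonneg η
      have h1 : (y ^ 2 - η ^ 2) ^ 2 ≤ (4 / 25 * v ^ 2) ^ 2 :=
        sq_le_sq' (by linarith) (by linarith)
      have h2 : 2 * v ^ 2 * (y ^ 2 + η ^ 2) ≤ 2 * v ^ 2 * (17 / 100 * v ^ 2) :=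
        mul_le_mul_of_nonneg_left (by linarith) (by positivity)
      have h3 : 0 ≤ (v ^ 2) ^ 2 := sq_nonneg _
      have h4 : v ^ 4 = (v ^ 2) ^ 2 := by ring
      have h5 : (4 / 25 * v ^ 2) ^ 2 = 16 / 625 * (v ^ 2) ^ 2 := by ring
      have h6 : 2 * v ^ 2 * (17 / 100 * v ^ 2) = 34 / 100 * (v ^ 2) ^ 2 := by ring
      rw [h4]
      rw [h5] at h1
      rw [h6] at h2
      linarith
    have h1 : ((y - η) ^ 2 + v ^ 2) * ((-y - η) ^ 2 + v ^ 2) * s ≤
        a * (a + 2 * η) * ((η + a) ^ 2 + η ^ 2 + 2 * v ^ 2 - 2 * y ^ 2) := by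
      have h3 : ((y - η) ^ 2 + v ^ 2) * ((-y - η) ^ 2 + v ^ 2) * s ≤
          137 / 100 * (v ^ 2) ^ 2 * s := mul_le_mul_of_nonneg_right hf (by positivity)
      have h4 : 137 / 100 * (v ^ 2) ^ 2 * s = 137 / 100 * (7 / 5) * (a ^ 2 * v ^ 2) := by
        rw [hs]
        field_simp
      have h5 : (137 / 100 : ℝ) * (7 / 5) * v ^ 2 ≤
          (η + a) ^ 2 + η ^ 2 + 2 * v ^ 2 - 2 * y ^ 2 := by
        nlinarith [sq_nonneg (η + a), sq_nonneg η]
      have h7 : a ^ 2 ≤ a * (a + 2 * η) := by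
        have : 0 ≤ a * η := by positivity
        nlinarith
      have h8 : a ^ 2 * ((137 / 100 : ℝ) * (7 / 5) * v ^ 2) ≤
          a * (a + 2 * η) * ((137 / 100 : ℝ) * (7 / 5) * v ^ 2) :=
        mul_le_mul_of_nonneg_right h7 (by positivity)
      have h9 : a * (a + 2 * η) * ((137 / 100 : ℝ) * (7 / 5) * v ^ 2) ≤
          a * (a + 2 * η) * ((η + a) ^ 2 + η ^ 2 + 2 * v ^ 2 - 2 * y ^ 2) :=
        mul_le_mul_of_nonneg_left h5 (by positivity)
      linarith
    rw [prod_id, mul_one_add]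
    linarith
  · have hexp : Real.exp (X * y) ≤ Real.exp A * u := by
      have h1 : m₀ * (X * y) ≤ A + C₀ * (4 * Real.log u) := by
        have h2 : m₀ * X * y ≤ L * y := mul_le_mul_of_nonneg_right hL hy0.le
        linarith
      have h3 : X * y ≤ A + Real.log u := by
        have h4 : A + C₀ * (4 * Real.log u) ≤ m₀ * (A + Real.log u) := by
          have h5 : 4 * C₀ * Real.log u ≤ m₀ * Real.log u :=
            mul_le_mul_of_nonneg_right hmC hlogu0
          have h6 : 1 * A ≤ m₀ * A := mul_le_mul_of_nonneg_right hm1 hA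
          linarith
        exact le_of_mul_le_mul_left (h1.trans h4) (by linarith)
      calc Real.exp (X * y) ≤ Real.exp (A + Real.log u) := Real.exp_le_exp.2 h3
        _ = Real.exp A * u := by rw [Real.exp_add, Real.exp_log hup]
    have key : ∀ p : ℝ, p ≤ y → S1 κ c (X * (((p : ℂ) + v * Complex.I) - a)) ≤
        2 * C * Real.exp A * u / V ^ 3 := by
      intro p hp
      have him : |((X : ℂ) * (((p : ℂ) + v * Complex.I) - a)).im| = V := by
        rw [I_Pair.w_im, abs_mul, abs_of_pos hXp]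
      have h1 := (hI (X * (((p : ℂ) + v * Complex.I) - a))).1 (by rw [him]; exact hV1)
      rw [him, I_Pair.w_re] at h1
      refine (le_abs_self _).trans (h1.trans ?_)
      apply div_le_div_of_nonneg_right _ (by positivity)
      have h2 : Real.exp (X * (p - a)) ≤ Real.exp A * u := by
        refine le_trans (Real.exp_le_exp.2 ?_) hexp
        exact mul_le_mul_of_nonneg_left (by linarith) hXp.le
      have h3 : 1 ≤ Real.exp A * u := one_le_mul_of_one_le_of_one_le heA hu1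
      have h4 : C * (1 + Real.exp (X * (p - a))) ≤ C * (2 * (Real.exp A * u)) :=
        mul_le_mul_of_nonneg_left (by linarith) (by linarith)
      linarith
    have h1 := key (y - η) (by linarith)
    have h2 := key (-y - η) (by linarith)
    have h3 : 2 * (2 * C * Real.exp A * u / V ^ 3) ≤ s / 4 := by
      have h4 : lam ^ 2 / V ^ 2 ≤ a ^ 2 / v ^ 2 := by
        rw [hV, mul_pow, hvv, div_le_div_iff₀ (by positivity) hv2]
        have h5 : lam ^ 2 ≤ X ^ 2 * a ^ 2 := by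
          have h6 : lam ^ 2 ≤ (X * a) ^ 2 := pow_le_pow_left₀ (by linarith) ha 2
          rwa [mul_pow] at h6
        have h7 : lam ^ 2 * v ^ 2 ≤ X ^ 2 * a ^ 2 * v ^ 2 := mul_le_mul_of_nonneg_right h5 hv2.le
        linarith
      have h6 : 2 * (2 * C * Real.exp A * u / V ^ 3) ≤ 7 / 20 * (lam ^ 2 / V ^ 2) := by
        have h7 : 2 * (2 * C * Real.exp A * u / V ^ 3) = (4 * C * Real.exp A * u) / V ^ 3 := by ring
        have h8 : 7 / 20 * (lam ^ 2 / V ^ 2) = (7 / 20 * lam ^ 2 * V) / V ^ 3 := by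
          field_simp
        rw [h7, h8]
        apply div_le_div_of_nonneg_right _ (by positivity)
        have h9 : 12 * C * Real.exp A * u ≤ u * u :=
          mul_le_mul_of_nonneg_right (by linarith) hup.le
        have h10 : 1 * V ≤ lam ^ 2 * V := by
          have h11 : (1 : ℝ) ^ 2 ≤ lam ^ 2 := pow_le_pow_left₀ (by norm_num) (by linarith) 2
          exact mul_le_mul_of_nonneg_right (by linarith) hV0
        have h12 : 12 * C * Real.exp A * u ≤ lam ^ 2 * V := by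
          have h13 : u * u = u ^ 2 := by ring
          linarith
        have h14 : 7 / 20 * lam ^ 2 * V = 7 / 20 * (lam ^ 2 * V) := by ring
        have h15 : 0 ≤ lam ^ 2 * V := by positivity
        rw [h14]
        linarith
      have h11 : 7 / 20 * (lam ^ 2 / V ^ 2) ≤ 7 / 20 * (a ^ 2 / v ^ 2) :=
        mul_le_mul_of_nonneg_left h4 (by norm_num)
      rw [hs]
      linarith
    linarith

end AuxPairN

open AuxPairN in
/-- a pair of zeros contributes at most `0` -/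
theorem PairN_pf : S_PairN := by
  intro κ c C hκ hC hI
  refine ⟨18 * C, by linarith, fun lam hlam A C₀ hA hC₀ => ?_⟩
  set m₀ := 1 + 4 * (A + 4 * C₀) * (2 + 8 * (A + 4 * C₀) + 12 * C * Real.exp A) + 4 * C₀ with hm₀
  have hm1 : 1 ≤ m₀ := by
    have : 0 ≤ 4 * (A + 4 * C₀) * (2 + 8 * (A + 4 * C₀) + 12 * C * Real.exp A) := by positivity
    linarith
  refine ⟨m₀, hm1, fun L X a η y v hX hL hη0 hη1 ha ha2 hyL hne => ?_⟩
  have hXp : 0 < X := by linarith
  have ha' : lam ≤ X * a := by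
    rw [div_le_iff₀ hXp] at ha
    linarith
  have ha2' : X * a ≤ 2 * lam := by
    rw [le_div_iff₀ hXp] at ha2
    linarith
  have hlam2 : 2 ≤ lam := by linarith
  have hlamC : 18 * C ≤ lam ^ 2 := by nlinarith
  -- the statement for `y ≥ 0`
  have main : ∀ y : ℝ, 0 ≤ y → |y| * L ≤ A + C₀ * Real.log (1 + |v| * L) →
      ¬(|y| = η ∧ v = 0) →
      2 * (Real.log X - c) + (Hh κ (X * (((y - η : ℝ) : ℂ) + v * Complex.I - a))).re +
      (Hh κ (X * (((-y - η : ℝ) : ℂ) + v * Complex.I - a))).re +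
      Real.log ‖((y - η : ℝ) : ℂ) + v * Complex.I‖ +
      Real.log ‖((-y - η : ℝ) : ℂ) + v * Complex.I‖ ≤ 0 := by
    intro y hy0 hyL hne
    rw [abs_of_nonneg hy0] at hyL hne
    rcases le_or_gt y ((η + a) / 4) with h | h
    · have hsq : ∀ p : ℝ, ¬(p = 0 ∧ v = 0) → 0 < p ^ 2 + v ^ 2 := by
        intro p hp
        by_contra h0
        have h1 : p ^ 2 + v ^ 2 = 0 := le_antisymm (not_lt.mp h0) (by positivity)
        have h2 : p ^ 2 = 0 := by nlinarith [sq_nonneg v, sq_nonneg p]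
        have h3 : v ^ 2 = 0 := by nlinarith [sq_nonneg v, sq_nonneg p]
        exact hp ⟨pow_eq_zero_iff (two_ne_zero) |>.1 h2, pow_eq_zero_iff (two_ne_zero) |>.1 h3⟩
      refine case1 κ c C hC hI lam X a η y v hlam2 hlamC hX ha' hη0 hy0 h
        (hsq _ fun h1 => hne ⟨by linarith [h1.1], h1.2⟩)
        (hsq _ fun h1 => hne ⟨by linarith [h1.1], h1.2⟩)
    · exact case2 κ c C hC hI lam A C₀ X a η y v L m₀ hlam2 hA hC₀ hm₀ hX hL ha' ha2' hη0 h hyL
  rcases le_total 0 y with h | h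
  · exact main y h hyL hne
  · have h1 := main (-y) (by linarith) (by rw [abs_neg]; exact hyL)
      (by rw [abs_neg]; exact hne)
    rw [neg_neg] at h1
    linarith

end Pool.Agent.Work.MP_56b8f5_nt.HN
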