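import Pool.Agent.Work.MP_56b8f5_nt.HN.StmtsX

/-!
# MP_56b8f5_nt, block HN, item PrI (helper4): products
-/

set_option autoImplicit false

namespace Pool.Agent.Work.MP_56b8f5_nt.HN

open Finset

namespace AuxPrI

theorem prod_sub (R B : ℝ) (hR : 0 ≤ R) (hB : 0 ≤ B) : ∀ (k : ℕ) (z D : Fin k → ℂ),
    (∀ i, ‖z i - D i‖ ≤ R) → (∀ i, ‖D i‖ ≤ B) →
    ‖(∏ j, z j) - ∏ j, D j‖ ≤ (B + R) ^ k - B ^ k := by
  intro k
  induction k with
  | zero =>
    intro z D _ _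
    simp
  | succ k ih =>
    intro z D h1 h2
    have h3 := ih (fun i => z i.succ) (fun i => D i.succ) (fun i => h1 _) (fun i => h2 _)
    have h4 : ‖z 0‖ ≤ B + R := by
      calc ‖z 0‖ = ‖D 0 + (z 0 - D 0)‖ := by congr 1; ring
        _ ≤ ‖D 0‖ + ‖z 0 - D 0‖ := norm_add_le _ _
        _ ≤ B + R := add_le_add (h2 0) (h1 0)
    have h5 : ‖∏ j : Fin k, D j.succ‖ ≤ B ^ k := by
      rw [norm_prod]
      calc ∏ j : Fin k, ‖D j.succ‖ ≤ ∏ _j : Fin k, B :=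
            Finset.prod_le_prod (fun _ _ => norm_nonneg _) (fun j _ => h2 _)
        _ = B ^ k := by simp
    rw [Fin.prod_univ_succ, Fin.prod_univ_succ]
    have h6 : z 0 * ∏ i : Fin k, z i.succ - D 0 * ∏ i : Fin k, D i.succ =
        z 0 * ((∏ i : Fin k, z i.succ) - ∏ i : Fin k, D i.succ) +
        (z 0 - D 0) * ∏ i : Fin k, D i.succ := by ring
    rw [h6]
    calc ‖z 0 * ((∏ i : Fin k, z i.succ) - ∏ i : Fin k, D i.succ) +
        (z 0 - D 0) * ∏ i : Fin k, D i.succ‖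
        ≤ ‖z 0‖ * ‖(∏ i : Fin k, z i.succ) - ∏ i : Fin k, D i.succ‖ +
          ‖z 0 - D 0‖ * ‖∏ i : Fin k, D i.succ‖ := by
          rw [← norm_mul, ← norm_mul]
          exact norm_add_le _ _
      _ ≤ (B + R) * ((B + R) ^ k - B ^ k) + R * B ^ k := by
          apply add_le_add
          · exact mul_le_mul h4 h3 (norm_nonneg _) (by positivity)
          · exact mul_le_mul (h1 0) h5 (norm_nonneg _) hR
      _ = (B + R) ^ (k + 1) - B ^ (k + 1) := by ring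

theorem pow_small (R B : ℝ) (hR : 0 ≤ R) (h : R ≤ B) : ∀ k : ℕ,
    (B + R) ^ (k + 1) - B ^ (k + 1) ≤ (2 ^ (k + 1) - 1) * (R * B ^ k) := by
  have hB : 0 ≤ B := hR.trans h
  intro k
  induction k with
  | zero =>
    norm_num
  | succ k ih =>
    have h1 : (B + R) ^ (k + 1 + 1) - B ^ (k + 1 + 1) =
        (B + R) * ((B + R) ^ (k + 1) - B ^ (k + 1)) + R * B ^ (k + 1) := by ring
    rw [h1]
    have h2 : (B + R) * ((B + R) ^ (k + 1) - B ^ (k + 1)) ≤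
        (2 * B) * ((2 ^ (k + 1) - 1) * (R * B ^ k)) := by
      apply mul_le_mul (by linarith) ih
      · have : B ^ (k + 1) ≤ (B + R) ^ (k + 1) := pow_le_pow_left₀ hB (by linarith) _
        linarith
      · linarith
    calc (B + R) * ((B + R) ^ (k + 1) - B ^ (k + 1)) + R * B ^ (k + 1)
        ≤ (2 * B) * ((2 ^ (k + 1) - 1) * (R * B ^ k)) + R * B ^ (k + 1) := by linarith
      _ = (2 ^ (k + 1 + 1) - 1) * (R * B ^ (k + 1)) := by ring

end AuxPrI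

open AuxPrI in
theorem PrI_pf : S_PrI := by
  intro k hk z D
  have : Nonempty (Fin k) := ⟨⟨0, hk⟩⟩
  obtain ⟨i₀, hi₀⟩ := Finite.exists_max (fun i => ‖z i - D i‖)
  obtain ⟨j₀, hj₀⟩ := Finite.exists_max (fun i => ‖D i‖)
  set R := ‖z i₀ - D i₀‖ with hRd
  set B := ‖D j₀‖ with hBd
  have hR : 0 ≤ R := norm_nonneg _
  have hB : 0 ≤ B := norm_nonneg _
  have h1 := prod_sub R B hR hB k z D hi₀ hj₀
  obtain ⟨m, rfl⟩ : ∃ m, k = m + 1 := ⟨k - 1, by omega⟩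
  have hs1 : R ^ (2 * (m + 1)) ≤ ∑ i, ‖z i - D i‖ ^ (2 * (m + 1)) :=
    Finset.single_le_sum (f := fun i => ‖z i - D i‖ ^ (2 * (m + 1)))
      (fun i _ => by positivity) (Finset.mem_univ i₀)
  have hs2 : R ^ 2 * B ^ (2 * (m + 1 - 1)) ≤
      ∑ i, ∑ j, ‖z i - D i‖ ^ 2 * ‖D j‖ ^ (2 * (m + 1 - 1)) := by
    calc R ^ 2 * B ^ (2 * (m + 1 - 1)) ≤ ∑ j, ‖z i₀ - D i₀‖ ^ 2 * ‖D j‖ ^ (2 * (m + 1 - 1)) :=
          Finset.single_le_sum (f := fun j => ‖z i₀ - D i₀‖ ^ 2 * ‖D j‖ ^ (2 * (m + 1 - 1)))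
            (fun j _ => by positivity) (Finset.mem_univ j₀)
      _ ≤ _ := Finset.single_le_sum
            (f := fun i => ∑ j, ‖z i - D i‖ ^ 2 * ‖D j‖ ^ (2 * (m + 1 - 1)))
            (fun i _ => Finset.sum_nonneg fun j _ => by positivity) (Finset.mem_univ i₀)
  have hp1 : 0 ≤ R ^ (2 * (m + 1)) := by positivity
  have hp2 : 0 ≤ R ^ 2 * B ^ (2 * (m + 1 - 1)) := by positivity
  have h4 : (0 : ℝ) ≤ 4 ^ (m + 1) := by positivity
  have key : ‖(∏ j, z j) - ∏ j, D j‖ ^ 2 ≤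
      4 ^ (m + 1) * (R ^ (2 * (m + 1)) + R ^ 2 * B ^ (2 * (m + 1 - 1))) := by
    rcases le_total R B with h | h
    · have h2 := pow_small R B hR h m
      have h3 : ‖(∏ j, z j) - ∏ j, D j‖ ≤ 2 ^ (m + 1) * (R * B ^ m) := by
        have : (0 : ℝ) ≤ R * B ^ m := by positivity
        nlinarith [h1, h2]
      calc ‖(∏ j, z j) - ∏ j, D j‖ ^ 2 ≤ (2 ^ (m + 1) * (R * B ^ m)) ^ 2 :=
            pow_le_pow_left₀ (norm_nonneg _) h3 2
        _ = 4 ^ (m + 1) * (R ^ 2 * B ^ (2 * (m + 1 - 1))) := by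
            rw [Nat.add_sub_cancel, mul_pow, mul_pow, ← pow_mul, ← pow_mul,
              show (4 : ℝ) = 2 ^ 2 by norm_num, ← pow_mul, mul_comm (m + 1) 2, mul_comm m 2]
        _ ≤ _ := mul_le_mul_of_nonneg_left (by linarith) h4
    · have h3 : ‖(∏ j, z j) - ∏ j, D j‖ ≤ 2 ^ (m + 1) * R ^ (m + 1) := by
        have h5 : (B + R) ^ (m + 1) ≤ (2 * R) ^ (m + 1) :=
          pow_le_pow_left₀ (by linarith) (by linarith) _
        rw [mul_pow] at h5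
        have h6 : 0 ≤ B ^ (m + 1) := by positivity
        linarith
      calc ‖(∏ j, z j) - ∏ j, D j‖ ^ 2 ≤ (2 ^ (m + 1) * R ^ (m + 1)) ^ 2 :=
            pow_le_pow_left₀ (norm_nonneg _) h3 2
        _ = 4 ^ (m + 1) * R ^ (2 * (m + 1)) := by
            rw [mul_pow, ← pow_mul, ← pow_mul, show (4 : ℝ) = 2 ^ 2 by norm_num, ← pow_mul,
              mul_comm (m + 1) 2]
        _ ≤ _ := mul_le_mul_of_nonneg_left (by linarith) h4
  refine key.trans ?_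
  rw [mul_assoc 2]
  nlinarith [mul_nonneg h4 (add_nonneg hp1 hp2), mul_le_mul_of_nonneg_left (add_le_add hs1 hs2) h4]

end Pool.Agent.Work.MP_56b8f5_nt.HN
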