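import Pool.Agent.Work.MP_56b8f5_nt.HN.StmtsX
import Pool.Agent.Work.MP_56b8f5_nt.HN.I_ApK

/-!
MP_56b8f5_nt, block HN, item PxD: the Dirichlet polynomial of the shifted product in the mean square (helper14).
-/

set_option autoImplicit false

open MeasureTheory Set Filter Topology

noncomputable section

namespace Pool.Agent.Work.MP_56b8f5_nt.HN

open Pool.Agent.Work.MP_56b8f5_nt.EM Pool.Agent.Work.MP_56b8f5_nt.WM Pool.Agent.Work.MP_56b8f5_nt.SH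
open Pool.Agent.Work.MP_56b8f5_nt.HZ

namespace AuxPxD

theorem dk_nonneg (k n : ℕ) : 0 ≤ dk k n := by
  unfold dk
  exact Nat.cast_nonneg _

/-- the mean value theorem as an upper bound -/
theorem upper (h1 : S_MvC) (a b : ℝ) (N : ℕ) (r : ℕ → ℂ) (E : ℝ) (hab : a ≤ b)
    (hE : ∑ n ∈ Finset.Icc 1 N, ‖r n‖ ^ 2 / (n : ℝ) ≤ E) :
    (∫ t in a..b, ‖Dc N r t‖ ^ 2) ≤ (b - a + 2 * (N : ℝ) ^ 2) * E := by
  have h2 := (abs_le.1 (h1 a b N r r hab).2).2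
  have h3 : (b - a + 2 * (N : ℝ) ^ 2) * ∑ n ∈ Finset.Icc 1 N, ‖r n‖ ^ 2 / (n : ℝ) ≤
      (b - a + 2 * (N : ℝ) ^ 2) * E :=
    mul_le_mul_of_nonneg_left hE (by have := sub_nonneg.2 hab; positivity)
  linarith

theorem Dc_ext {P N : ℕ} (hPN : P ≤ N) (q : ℕ → ℂ) (hq : ∀ n, q n ≠ 0 → 1 ≤ n ∧ n ≤ P) (t : ℝ) :
    Dc P q t = Dc N q t := by
  unfold Dc Ds
  refine Finset.sum_subset (Finset.Icc_subset_Icc_right hPN) fun n _ hn => ?_
  have h1 : q n = 0 := by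
    by_contra h
    exact hn (Finset.mem_Icc.2 (hq n h))
  rw [h1]
  simp

theorem Dc_sub (N : ℕ) (q r : ℕ → ℂ) (t : ℝ) :
    Dc N q t - Dc N r t = Dc N (fun n => q n - r n) t := by
  unfold Dc Ds
  rw [← Finset.sum_sub_distrib]
  refine Finset.sum_congr rfl fun n _ => ?_
  ring

/-- the twisted coefficients of `PX` -/
def pc {k : ℕ} (x : Fin k → ℝ) (η w : ℝ) (N : ℕ) (n : ℕ) : ℂ :=
  if 1 ≤ n ∧ n ≤ N then dx x n * (((n : ℝ) ^ (-η) : ℝ) : ℂ) * (n : ℂ) ^ ((w : ℂ) * Complex.I) else 0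

theorem norm_tw {n : ℕ} (hn : 1 ≤ n) (w : ℝ) : ‖(n : ℂ) ^ ((w : ℂ) * Complex.I)‖ = 1 := by
  rw [Complex.norm_natCast_cpow_of_pos (by omega)]
  simp

theorem pc_le (h3 : S_dxB) {k : ℕ} (x : Fin k → ℝ) (η w : ℝ) (N n : ℕ) :
    ‖pc x η w N n‖ ≤ dk k n * (n : ℝ) ^ (-η) := by
  unfold pc
  split_ifs with h
  · rw [norm_mul, norm_mul, norm_tw h.1, mul_one, Complex.norm_real,
      Real.norm_of_nonneg (Real.rpow_nonneg (Nat.cast_nonneg _) _)]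
    exact mul_le_mul_of_nonneg_right (h3.1 k x n) (Real.rpow_nonneg (Nat.cast_nonneg _) _)
  · rw [norm_zero]
    exact mul_nonneg (dk_nonneg k n) (Real.rpow_nonneg (Nat.cast_nonneg _) _)

theorem pc_supp {k : ℕ} (x : Fin k → ℝ) (η w : ℝ) (N n : ℕ) (h : pc x η w N n ≠ 0) :
    1 ≤ n ∧ n ≤ N := by
  by_contra hc
  exact h (if_neg hc)

theorem PX_eq {k : ℕ} (x : Fin k → ℝ) (η T u w : ℝ) :
    PX T (1 / 2 + η) x (u - w) =
      Dc ⌊T ^ (1 / 200 : ℝ)⌋₊ (pc x η w ⌊T ^ (1 / 200 : ℝ)⌋₊) u := by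
  unfold PX Dc Ds
  refine Finset.sum_congr rfl fun n hn => ?_
  rw [Finset.mem_Icc] at hn
  have hn0 : (n : ℂ) ≠ 0 := Nat.cast_ne_zero.2 (by omega)
  have e : (n : ℂ) ^ (-(((1 / 2 + η : ℝ) : ℂ) + ((u - w : ℝ) : ℂ) * Complex.I)) =
      (((n : ℝ) ^ (-η) : ℝ) : ℂ) * (n : ℂ) ^ ((w : ℂ) * Complex.I) *
        (n : ℂ) ^ (-(1 / 2 + u * Complex.I)) := by
    rw [Complex.ofReal_cpow (by positivity), Complex.ofReal_natCast, ← Complex.cpow_add _ _ hn0,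
      ← Complex.cpow_add _ _ hn0]
    congr 1
    push_cast
    ring
  rw [e]
  unfold pc
  rw [if_pos hn]
  ring

theorem len (T : ℝ) (hT : 1 ≤ T) :
    1 ≤ ⌊T ^ (1 / 200 : ℝ)⌋₊ ∧ ((⌊T ^ (1 / 200 : ℝ)⌋₊ : ℕ) : ℝ) ^ 100 ≤ Real.sqrt T := by
  have hT0 : 0 ≤ T := by linarith
  have h1 : 1 ≤ T ^ (1 / 200 : ℝ) := Real.one_le_rpow hT (by norm_num)
  refine ⟨Nat.le_floor (by simpa using h1), ?_⟩
  have h2 : ((⌊T ^ (1 / 200 : ℝ)⌋₊ : ℕ) : ℝ) ≤ T ^ (1 / 200 : ℝ) := Nat.floor_le (by positivity)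
  calc ((⌊T ^ (1 / 200 : ℝ)⌋₊ : ℕ) : ℝ) ^ 100 ≤ (T ^ (1 / 200 : ℝ)) ^ 100 :=
        pow_le_pow_left₀ (Nat.cast_nonneg _) h2 100
    _ = Real.sqrt T := by
        rw [← Real.rpow_natCast, ← Real.rpow_mul hT0, Real.sqrt_eq_rpow]
        norm_num

end AuxPxD

open AuxPxD in
theorem PxD_pf (h1 : S_MvC) (h2 : S_SSb) (h3 : S_dxB) (h4 : S_CfX) : S_PxD := by
  intro k
  obtain ⟨C, hC1, hC⟩ := h2 k
  refine ⟨4 * C, by linarith, fun η hη0 hη1 T hT x a b hab => ?_⟩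
  obtain ⟨hsum, hSS1, -, hlow⟩ := hC η hη0 hη1
  obtain ⟨hN1, hNl⟩ := len T hT
  obtain ⟨N₂, hN₂⟩ : ∃ N₂ : ℕ, N₂ = ⌊T ^ (1 / 200 : ℝ)⌋₊ := ⟨_, rfl⟩
  have hPX : ∀ u w : ℝ, PX T (1 / 2 + η) x (u - w) = Dc N₂ (pc x η w N₂) u := by
    intro u w
    rw [hN₂]
    exact PX_eq x η T u w
  rw [← hN₂] at hN1 hNl ⊢
  have hPX0 : ∀ t : ℝ, PX T (1 / 2 + η) x t = Dc N₂ (pc x η 0 N₂) t := by
    intro t
    have := hPX t 0
    rwa [sub_zero] at this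
  refine ⟨?_, ?_, ?_⟩
  · have hfun : (fun t : ℝ => ‖PX T (1 / 2 + η) x t‖ ^ 2) =
        fun t : ℝ => ‖Dc N₂ (pc x η 0 N₂) t‖ ^ 2 := by
      funext t
      rw [hPX0]
    rw [hfun]
    refine upper h1 a b N₂ _ _ hab ?_
    refine AuxApK.tail k η _ 0 N₂ (fun n => ‖pc x η 0 N₂ n‖) hsum ?_ ?_ ?_
    · simp
    · intro n a1 a2
      omega
    · intro n
      exact ⟨norm_nonneg _, pc_le h3 x η 0 N₂ n⟩
  · intro N hN hNk
    obtain ⟨q, hq, hprod, heq⟩ := h4 k N η (((N ^ k : ℕ) : ℝ) ^ 100) x hN hη0.le le_rfl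
    have hfun : (fun t : ℝ => ‖(∏ j, DN N η (t + x j)) - PX T (1 / 2 + η) x t‖ ^ 2) =
        fun t : ℝ => ‖Dc N₂ (fun n => q n - pc x η 0 N₂ n) t‖ ^ 2 := by
      funext t
      rw [hPX0, hprod, Dc_ext hNk q hq.supp t, Dc_sub]
    rw [hfun]
    refine upper h1 a b N₂ _ _ hab ?_
    have htail := AuxApK.tail k η _ N N₂ (fun n => ‖q n - pc x η 0 N₂ n‖ / 2) hsum (hlow N hN)
      (by
        intro n a1 a2
        show ‖q n - pc x η 0 N₂ n‖ / 2 = 0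
        have e : q n = pc x η 0 N₂ n := by
          by_cases hc : n ≤ N₂
          · rw [heq n a1 a2]
            unfold pc
            rw [if_pos ⟨a1, hc⟩]
            simp
          · have e1 : q n = 0 := by
              by_contra hcon
              have := (hq.supp n hcon).2
              omega
            have e2 : pc x η 0 N₂ n = 0 := if_neg (fun h => hc h.2)
            rw [e1, e2]
        rw [e, sub_self, norm_zero, zero_div])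
      (by
        intro n
        refine ⟨by positivity, ?_⟩
        show ‖q n - pc x η 0 N₂ n‖ / 2 ≤ _
        have b1 := norm_sub_le (q n) (pc x η 0 N₂ n)
        have b2 := hq.le n
        have b3 := pc_le h3 x η 0 N₂ n
        linarith)
    have e4 : ∑ n ∈ Finset.Icc 1 N₂, ‖q n - pc x η 0 N₂ n‖ ^ 2 / (n : ℝ) =
        4 * ∑ n ∈ Finset.Icc 1 N₂, (‖q n - pc x η 0 N₂ n‖ / 2) ^ 2 / (n : ℝ) := by
      rw [Finset.mul_sum]
      refine Finset.sum_congr rfl fun n _ => ?_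
      ring
    show ∑ n ∈ Finset.Icc 1 N₂, ‖q n - pc x η 0 N₂ n‖ ^ 2 / (n : ℝ) ≤ _
    rw [e4]
    calc 4 * ∑ n ∈ Finset.Icc 1 N₂, (‖q n - pc x η 0 N₂ n‖ / 2) ^ 2 / (n : ℝ) ≤
          4 * (C * (N : ℝ) ^ (-η) * SS k η) := mul_le_mul_of_nonneg_left htail (by norm_num)
      _ = 4 * C * (N : ℝ) ^ (-η) * SS k η := by ring
  · intro w
    exact ⟨pc x η w N₂, ⟨fun n => pc_le h3 x η w N₂ n, fun n hn => pc_supp x η w N₂ n hn, hN1, hNl⟩,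
      fun u => hPX u w⟩

end Pool.Agent.Work.MP_56b8f5_nt.HN
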