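import Pool.Agent.Work.MP_56b8f5_nt.HN.StmtsP
import Pool.Agent.Work.MP_56b8f5_nt.HZ.I_TL

/-!
MP_56b8f5_nt, block HN, item TLN: the other cut-off terms, on the line `1/2 + η`.
-/

set_option autoImplicit false

open MeasureTheory Set Filter Topology

noncomputable section

namespace Pool.Agent.Work.MP_56b8f5_nt.HN

open Pool.Agent.Work.MP_56b8f5_nt.EM Pool.Agent.Work.MP_56b8f5_nt.WM Pool.Agent.Work.MP_56b8f5_nt.SH
open Pool.Agent.Work.MP_56b8f5_nt.HZ

namespace AuxTLN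

open Pool.Agent.Work.MP_56b8f5_nt.HZ.I_TL

theorem box_intN {C₁ : ℝ} (hZ : ∀ t : ℝ, 4 ≤ |t| →
    IntegrableOn (fun s : ℂ => Real.log ‖riemannZeta s‖)
      {s : ℂ | 1 / 5 ≤ s.re ∧ s.re ≤ 4 ∧ |s.im - t| ≤ 1 / 2} ∧
    ∫ s in {s : ℂ | 1 / 5 ≤ s.re ∧ s.re ≤ 4 ∧ |s.im - t| ≤ 1 / 2}, |Real.log ‖riemannZeta s‖| ≤
      C₁ * Real.log |t|) (t η : ℝ) (k : ℤ) (hη0 : 0 ≤ η) (hη1 : η ≤ 1 / 10) (h : 4 ≤ |t + k|) :
    IntegrableOn (fun z : ℂ => |Real.log ‖riemannZeta (sp η t + z)‖|) (Box k) ∧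
    ∫ z in Box k, |Real.log ‖riemannZeta (sp η t + z)‖| ≤ C₁ * Real.log |t + k| := by
  obtain ⟨h1, h2⟩ := hZ (t + k) h
  obtain ⟨s₁, hs₁⟩ : ∃ s₁ : ℂ, s₁ = sp η t := ⟨_, rfl⟩
  have hre : s₁.re = 1 / 2 + η := by
    rw [hs₁]
    simp [sp]
  have him : s₁.im = t := by
    rw [hs₁]
    simp [sp]
  rw [← hs₁]
  have hpre : Box k ⊆ (fun z : ℂ => s₁ + z) ⁻¹'
      {s : ℂ | 1 / 5 ≤ s.re ∧ s.re ≤ 4 ∧ |s.im - (t + k)| ≤ 1 / 2} := by
    rintro z ⟨a1, a2, a3⟩
    have e1 : (s₁ + z).im - (t + k) = z.im - k := by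
      rw [Complex.add_im, him]
      ring
    refine ⟨?_, ?_, ?_⟩
    · rw [Complex.add_re, hre]
      linarith
    · rw [Complex.add_re, hre]
      linarith
    · rw [e1]
      exact a3
  have hmp : MeasurePreserving (fun z : ℂ => s₁ + z) volume volume :=
    measurePreserving_add_left volume s₁
  have hme : MeasurableEmbedding (fun z : ℂ => s₁ + z) := measurableEmbedding_addLeft s₁
  have hI : IntegrableOn (fun z : ℂ => |Real.log ‖riemannZeta (s₁ + z)‖|)
      ((fun z : ℂ => s₁ + z) ⁻¹'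
      {s : ℂ | 1 / 5 ≤ s.re ∧ s.re ≤ 4 ∧ |s.im - (t + k)| ≤ 1 / 2}) :=
    (hmp.integrableOn_comp_preimage hme (f := fun s : ℂ => |Real.log ‖riemannZeta s‖|)).2
      h1.norm
  refine ⟨hI.mono_set hpre, ?_⟩
  calc ∫ z in Box k, |Real.log ‖riemannZeta (s₁ + z)‖|
      ≤ ∫ z in ((fun z : ℂ => s₁ + z) ⁻¹'
          {s : ℂ | 1 / 5 ≤ s.re ∧ s.re ≤ 4 ∧ |s.im - (t + k)| ≤ 1 / 2}),
          |Real.log ‖riemannZeta (s₁ + z)‖| :=
        setIntegral_mono_set hI (Eventually.of_forall fun z => abs_nonneg _)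
          (LE.le.eventuallyLE hpre)
    _ ≤ C₁ * Real.log |t + k| := by
        rw [hmp.setIntegral_preimage_emb hme (fun s : ℂ => |Real.log ‖riemannZeta s‖|)]
        exact h2

end AuxTLN

open Pool.Agent.Work.MP_56b8f5_nt.HZ.I_TL AuxTLN in
theorem TLN_pf (hZl1 : S_Zl3) : S_TLN := by
  intro κ c C _ hC
  obtain ⟨D, hD1, hD⟩ := W_bd hC
  obtain ⟨C₁, hC₁, hZ⟩ := hZl1
  set S : ℝ := ∑' k : ℤ, 1 / (1 + |(k : ℝ)|) ^ 3 with hS
  have hS0 : 0 ≤ S := tsum_nonneg fun k => by positivity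
  have hC' : 1 ≤ 2 * C₁ * D * (8 * S + 1) := by
    have h1 : 1 ≤ C₁ * D := one_le_mul_of_one_le_of_one_le hC₁ hD1
    nlinarith
  refine ⟨2 * C₁ * D * (8 * S + 1), hC', ?_⟩
  intro X a H t η hX ha ha2 hH ht hη0 hη1
  have hX0 : 0 < X := by linarith
  have hH0 : 0 < H := by linarith
  have ht40 : 40 ≤ t := by linarith
  have hlogt : 0 < Real.log t := Real.log_pos (by linarith)
  set N : ℕ := ⌈2 * H⌉₊ + 1 with hN
  have hN1 : 2 * H + 1 ≤ N := by
    rw [hN]; push_cast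
    have := Nat.le_ceil (2 * H)
    linarith
  have hN2 : (N : ℝ) ≤ 2 * H + 2 := by
    rw [hN]; push_cast
    have := Nat.ceil_lt_add_one (by positivity : 0 ≤ 2 * H)
    linarith
  set E : ℝ := (1 + Real.exp (5 / 2 * X)) / (X * H) ^ 3 with hE
  have hE0 : 0 ≤ E := by positivity
  set P : ℝ := 1 / X ^ 3 + a with hP
  have hP0 : 0 ≤ P := by positivity
  set β : ℤ → ℝ := fun k => D * (8 * P * (1 / (1 + |(k : ℝ)|) ^ 3) + E) with hβ
  have hβ0 : ∀ k, 0 ≤ β k := fun k => by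
    rw [hβ]
    have : 0 ≤ D := by linarith
    positivity
  have hkabs : ∀ k ∈ Finset.Icc (-(N : ℤ)) N, |(k : ℝ)| ≤ N := by
    intro k hk
    rw [Finset.mem_Icc] at hk
    rw [abs_le]
    constructor
    · have : ((-(N : ℤ) : ℤ) : ℝ) ≤ (k : ℝ) := by exact_mod_cast hk.1
      simpa using this
    · exact_mod_cast hk.2
  have h1 := int_bd (f := fun z => Real.log ‖riemannZeta (sp η t + z)‖)
    (W := fun z => Cu κ c X a H z - Cr κ c X a H z) (N := N) (β := β)
    (B := C₁ * (2 * Real.log t)) hβ0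
    (by
      intro k hk
      have hk' := abs_le.1 (hkabs k hk)
      have hpos : 30 ≤ t + k := by linarith
      have h4 : 4 ≤ |t + k| := by rw [abs_of_pos (by linarith)]; linarith
      obtain ⟨h5, h6⟩ := box_intN hZ t η k hη0 hη1 h4
      refine ⟨h5, h6.trans (mul_le_mul_of_nonneg_left ?_ (by linarith))⟩
      rw [abs_of_pos (by linarith)]
      have h7 : t + k ≤ t ^ 2 := by nlinarith
      calc Real.log (t + k) ≤ Real.log (t ^ 2) := Real.log_le_log (by linarith) h7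
        _ = 2 * Real.log t := by rw [Real.log_pow]; norm_num)
    (by
      intro z
      by_cases hz : z.re < -3 / 10 ∨ 5 / 2 < z.re ∨ 2 * H < |z.im|
      · left; exact W_zero hH hz
      right
      push Not at hz
      obtain ⟨hz1, hz2, hz3⟩ := hz
      have hr := abs_sub_round z.im
      have hr2 : |((round z.im : ℤ) : ℝ)| ≤ 2 * H + 1 / 2 := by
        have h3 : ((round z.im : ℤ) : ℝ) = z.im - (z.im - (round z.im : ℤ)) := by ring
        rw [h3]
        exact (abs_sub _ _).trans (by linarith)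
      have hr3 := abs_le.1 hr2
      refine ⟨round z.im, ?_, ⟨hz1, hz2, hr⟩, ?_⟩
      · rw [Finset.mem_Icc]
        constructor
        · have : (-(N : ℝ)) ≤ (round z.im : ℤ) := by linarith
          exact_mod_cast this
        · have : ((round z.im : ℤ) : ℝ) ≤ N := by linarith
          exact_mod_cast this
      · refine (hD X a H hX ha ha2 hH z).trans ?_
        have hD0 : 0 ≤ D := by linarith
        show _ ≤ D * (8 * P * (1 / (1 + |((round z.im : ℤ) : ℝ)|) ^ 3) + E)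
        refine mul_le_mul_of_nonneg_left (add_le_add ?_ le_rfl) hD0
        have hv0 := abs_nonneg z.im
        have hk0 := abs_nonneg ((round z.im : ℤ) : ℝ)
        have h3 : (1 + |((round z.im : ℤ) : ℝ)|) / 2 ≤ 1 + |z.im| := by
          have h4 : |((round z.im : ℤ) : ℝ)| ≤ |z.im| + 1 / 2 := by
            have h5 : ((round z.im : ℤ) : ℝ) = z.im - (z.im - (round z.im : ℤ)) := by ring
            rw [h5]
            exact (abs_sub _ _).trans (by linarith)
          linarith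
        have h6 : (1 + |((round z.im : ℤ) : ℝ)|) ^ 3 / 8 ≤ (1 + |z.im|) ^ 3 := by
          calc (1 + |((round z.im : ℤ) : ℝ)|) ^ 3 / 8 =
              ((1 + |((round z.im : ℤ) : ℝ)|) / 2) ^ 3 := by ring
            _ ≤ _ := pow_le_pow_left₀ (by positivity) h3 3
        calc (1 / X ^ 3 + a) / (1 + |z.im|) ^ 3
            ≤ (1 / X ^ 3 + a) / ((1 + |((round z.im : ℤ) : ℝ)|) ^ 3 / 8) :=
              div_le_div_of_nonneg_left (by positivity) (by positivity) h6
          _ = 8 * P * (1 / (1 + |((round z.im : ℤ) : ℝ)|) ^ 3) := by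
              rw [hP]; field_simp)
  refine h1.trans ?_
  rw [← Finset.sum_mul]
  have hsum : ∑ k ∈ Finset.Icc (-(N : ℤ)) N, β k ≤
      D * ((8 * S + 1) * (P + Real.exp (5 / 2 * X) / H ^ 2)) := by
    have hD0 : 0 ≤ D := by linarith
    rw [hβ, ← Finset.mul_sum]
    refine mul_le_mul_of_nonneg_left ?_ hD0
    rw [Finset.sum_add_distrib, ← Finset.mul_sum, Finset.sum_const, nsmul_eq_mul]
    have h2 : ∑ k ∈ Finset.Icc (-(N : ℤ)) N, 1 / (1 + |(k : ℝ)|) ^ 3 ≤ S :=
      summ.sum_le_tsum _ fun k _ => by positivity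
    have h3 : ((Finset.Icc (-(N : ℤ)) N).card : ℝ) = 2 * N + 1 := by
      rw [Int.card_Icc]
      have : ((N : ℤ) + 1 - -(N : ℤ)).toNat = 2 * N + 1 := by omega
      rw [this]; push_cast; ring
    rw [h3]
    have hex : 1 ≤ Real.exp (5 / 2 * X) := Real.one_le_exp (by positivity)
    have hEe : (2 * N + 1) * E ≤ Real.exp (5 / 2 * X) / H ^ 2 := by
      have h4 : E ≤ 2 * Real.exp (5 / 2 * X) / (125 * H ^ 3) := by
        rw [hE]
        refine div_le_div₀ (by positivity) (by linarith) (by positivity) ?_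
        rw [mul_pow]
        have : (125 : ℝ) ≤ X ^ 3 := by
          calc (125 : ℝ) = 5 ^ 3 := by norm_num
            _ ≤ X ^ 3 := pow_le_pow_left₀ (by norm_num) hX 3
        exact mul_le_mul_of_nonneg_right this (by positivity)
      calc (2 * N + 1) * E ≤ (6 * H) * (2 * Real.exp (5 / 2 * X) / (125 * H ^ 3)) := by
            refine mul_le_mul (by linarith) h4 hE0 (by positivity)
        _ = (12 / 125) * (Real.exp (5 / 2 * X) / H ^ 2) := by field_simp; ring
        _ ≤ 1 * (Real.exp (5 / 2 * X) / H ^ 2) :=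
            mul_le_mul_of_nonneg_right (by norm_num) (by positivity)
        _ = _ := one_mul _
    set R : ℝ := Real.exp (5 / 2 * X) / H ^ 2 with hR
    have hR0 : 0 ≤ R := by positivity
    have h5 : 8 * P * ∑ k ∈ Finset.Icc (-(N : ℤ)) N, 1 / (1 + |(k : ℝ)|) ^ 3 ≤ 8 * P * S :=
      mul_le_mul_of_nonneg_left h2 (by positivity)
    nlinarith [mul_nonneg hS0 hR0, hP0]
  calc (∑ k ∈ Finset.Icc (-(N : ℤ)) N, β k) * (C₁ * (2 * Real.log t))
      ≤ (D * ((8 * S + 1) * (P + Real.exp (5 / 2 * X) / H ^ 2))) * (C₁ * (2 * Real.log t)) :=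
        mul_le_mul_of_nonneg_right hsum (by positivity)
    _ = 2 * C₁ * D * (8 * S + 1) * Real.log t * (1 / X ^ 3 + a + Real.exp (5 / 2 * X) / H ^ 2) := by
        rw [hP]; ring


end Pool.Agent.Work.MP_56b8f5_nt.HN
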