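import Pool.Agent.Work.MP_56b8f5_nt.HN.StmtsP
import Pool.Agent.Work.MP_56b8f5_nt.HZ.I_TR

/-!
MP_56b8f5_nt, block HN, item TRN: the right part is the Dirichlet polynomial, on the line `1/2 + η`.
-/

set_option autoImplicit false

open MeasureTheory Set Filter Topology

noncomputable section

namespace Pool.Agent.Work.MP_56b8f5_nt.HN

open Pool.Agent.Work.MP_56b8f5_nt.EM Pool.Agent.Work.MP_56b8f5_nt.WM Pool.Agent.Work.MP_56b8f5_nt.SH
open Pool.Agent.Work.MP_56b8f5_nt.HZ

namespace AuxTRN

open Pool.Agent.Work.MP_56b8f5_nt.HZ.I_TR (gg Cr_eq cut_nonneg cut_le_one cut_one cut_contDiff gg_zero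
  gg_zero' gg_bound maj maj_int cpow_eq b_zero)

theorem sp_re (η t : ℝ) : (sp η t).re = 1 / 2 + η := by
  unfold sp
  simp

theorem exp_sp (ω η t : ℝ) : (Complex.exp (-((ω : ℂ) * sp η t))).re =
    Real.exp (-(ω * η)) * (Complex.exp (-((ω : ℂ) * (1 / 2 + t * Complex.I)))).re := by
  have h1 : Complex.exp (-((ω : ℂ) * sp η t)) = ((Real.exp (-(ω * η)) : ℝ) : ℂ) *
      Complex.exp (-((ω : ℂ) * (1 / 2 + t * Complex.I))) := by
    rw [Complex.ofReal_exp, ← Complex.exp_add]
    congr 1
    unfold sp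
    push_cast
    ring
  rw [h1, Complex.re_ofReal_mul]

/-- the terms of the series for `log |zeta|` -/
def rr (η t : ℝ) (n : ℕ) (z : ℂ) : ℝ := ArithmeticFunction.vonMangoldt n / Real.log n *
  (Complex.exp (-((Real.log n : ℝ) * (sp η t + z)))).re

theorem rr_eq (η t : ℝ) (n : ℕ) (z : ℂ) : rr η t n z =
    (((ArithmeticFunction.vonMangoldt n / Real.log n : ℝ) : ℂ) * (n : ℂ) ^ (-(sp η t + z))).re := by
  unfold rr
  rw [Complex.re_ofReal_mul]
  by_cases hn : n = 0
  · subst hn
    simp
  · rw [cpow_eq n hn]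

theorem rr_bound (hZeu : S_Zeu) (η t : ℝ) (hη : 0 ≤ η) (n : ℕ) (z : ℂ) (hz : 3 / 2 ≤ z.re) :
    |rr η t n z| ≤ ((n : ℝ) ^ 2)⁻¹ := by
  by_cases hn : 2 ≤ n
  · have hn0 : 0 < n := by omega
    rw [rr_eq]
    refine (Complex.abs_re_le_norm _).trans ?_
    rw [norm_mul, Complex.norm_real, Real.norm_of_nonneg (hZeu.1 n).1,
      Complex.norm_natCast_cpow_of_pos hn0]
    have h1 : (n : ℝ) ^ (-(sp η t + z)).re ≤ ((n : ℝ) ^ 2)⁻¹ := by
      rw [← Real.rpow_natCast, ← Real.rpow_neg (by positivity)]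
      apply Real.rpow_le_rpow_of_exponent_le (by exact_mod_cast hn0)
      rw [Complex.neg_re, Complex.add_re, sp_re]
      push_cast
      linarith
    calc _ ≤ 1 * (n : ℝ) ^ (-(sp η t + z)).re :=
          mul_le_mul_of_nonneg_right (hZeu.1 n).2 (by positivity)
      _ ≤ _ := by rw [one_mul]; exact h1
  · unfold rr
    rw [b_zero n hn]
    simp

theorem rr_cont (η t : ℝ) (n : ℕ) : Continuous (rr η t n) := by
  unfold rr
  fun_prop

/-- the series -/
theorem log_series (hZeu : S_Zeu) (η t : ℝ) (hη : 0 ≤ η) (z : ℂ) (hz : 3 / 2 ≤ z.re) :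
    HasSum (fun n => rr η t n z) (Real.log ‖riemannZeta (sp η t + z)‖) := by
  have h2 : 2 ≤ (sp η t + z).re := by
    rw [Complex.add_re, sp_re]
    linarith
  obtain ⟨h3, h4, _⟩ := hZeu.2 _ h2
  have h5 := Complex.hasSum_re h3.of_norm.hasSum
  rw [← h4] at h5
  refine h5.congr_fun ?_
  intro n
  rw [rr_eq]

theorem log_le (hZeu : S_Zeu) (η t : ℝ) (hη : 0 ≤ η) (z : ℂ) (hz : 3 / 2 ≤ z.re) :
    |Real.log ‖riemannZeta (sp η t + z)‖| ≤ 1 := by
  have h2 : 2 ≤ (sp η t + z).re := by
    rw [Complex.add_re, sp_re]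
    linarith
  exact (hZeu.2 _ h2).2.2

theorem log_meas (η t : ℝ) (hη : 0 ≤ η) : AEStronglyMeasurable
    ({z : ℂ | 3 / 2 ≤ z.re}.indicator fun z => Real.log ‖riemannZeta (sp η t + z)‖) := by
  have hs : MeasurableSet {z : ℂ | 3 / 2 ≤ z.re} :=
    (isClosed_le continuous_const Complex.continuous_re).measurableSet
  rw [aestronglyMeasurable_indicator_iff hs]
  apply ContinuousOn.aestronglyMeasurable _ hs
  intro z hz
  have hz' : 3 / 2 ≤ z.re := hz
  have h2 : 2 ≤ (sp η t + z).re := by
    rw [Complex.add_re, sp_re]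
    linarith
  have h3 : riemannZeta (sp η t + z) ≠ 0 :=
    riemannZeta_ne_zero_of_one_le_re (by linarith)
  have h4 : (sp η t + z) ≠ 1 := by
    intro h
    rw [h] at h2
    norm_num at h2
  have h5 : ContinuousAt (fun z : ℂ => riemannZeta (sp η t + z)) z :=
    ContinuousAt.comp (g := riemannZeta) (f := fun z : ℂ => sp η t + z)
      (differentiableAt_riemannZeta h4).continuousAt (by fun_prop)
  exact (h5.norm.log (norm_ne_zero_iff.2 h3)).continuousWithinAt

end AuxTRN

open AuxTRN
open Pool.Agent.Work.MP_56b8f5_nt.HZ.I_TR (gg Cr_eq cut_nonneg cut_le_one cut_one cut_contDiff gg_zero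
  gg_zero' gg_bound maj maj_int cpow_eq b_zero)

theorem TRN_pf (hZeu : S_Zeu) (hKkt : S_Kkt) (hKDn : S_KDn) : S_TRN := by
  intro κ c C hκ hC
  obtain ⟨M, hM, hMb⟩ := I_TR.cy_bound
  have hpi := Real.pi_pos
  refine ⟨1 + 12 * Real.pi * M * |C|, by
    have : 0 ≤ 12 * Real.pi * M * |C| := by positivity
    linarith, ?_⟩
  intro X a H t η hX ha ha2 hH ht hη _hη2
  have hX0 : 0 < X := by linarith
  have hH0 : 0 < H := by linarith
  have ha1 : a ≤ 1 := by linarith
  obtain ⟨hKk1, hKk2, hKk3, hKk4, hKk5⟩ := hKkt κ hκ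
  have hgi : Integrable (gg κ c X a) :=
    (hKDn κ c C hκ hC X a 1 (sp η t) hX ha ha1 one_pos).1
  -- the function with the indicator
  set ell : ℂ → ℝ := {z : ℂ | 3 / 2 ≤ z.re}.indicator
    fun z => Real.log ‖riemannZeta (sp η t + z)‖ with hell
  have hell1 : ∀ z, |ell z| ≤ 1 := by
    intro z
    by_cases hz : 3 / 2 ≤ z.re
    · rw [hell, indicator_of_mem (show z ∈ {z : ℂ | 3 / 2 ≤ z.re} from hz)]
      exact log_le hZeu η t hη z hz
    · rw [hell, indicator_of_notMem (show z ∉ {z : ℂ | 3 / 2 ≤ z.re} from hz)]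
      simp
  have hellg : ∀ z, Real.log ‖riemannZeta (sp η t + z)‖ * gg κ c X a z = ell z * gg κ c X a z := by
    intro z
    by_cases hz : 3 / 2 ≤ z.re
    · rw [hell, indicator_of_mem (show z ∈ {z : ℂ | 3 / 2 ≤ z.re} from hz)]
    · rw [gg_zero' κ c X a z hz, mul_zero, mul_zero]
  have hcvm : Continuous (fun z : ℂ => cv H z.im) := by
    unfold cv
    exact cut_contDiff.continuous.comp (Complex.continuous_im.div_const H)
  have hcv0 : ∀ v, 0 ≤ cv H v := fun v => cut_nonneg _
  have hcv1 : ∀ v, cv H v ≤ 1 := fun v => cut_le_one _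
  have hI1 : Integrable (fun z => ell z * gg κ c X a z) := by
    refine hgi.bdd_mul (log_meas η t hη) (c := 1) (Eventually.of_forall fun z => ?_)
    rw [Real.norm_eq_abs]
    exact hell1 z
  have hI2 : Integrable (fun z : ℂ => cv H z.im * (ell z * gg κ c X a z)) := by
    refine hI1.bdd_mul hcvm.aestronglyMeasurable (c := 1) (Eventually.of_forall fun z => ?_)
    rw [Real.norm_eq_abs, abs_of_nonneg (hcv0 _)]
    exact hcv1 _
  have hCr : (fun z => Real.log ‖riemannZeta (sp η t + z)‖ * Cr κ c X a H z) =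
      fun z : ℂ => cv H z.im * (ell z * gg κ c X a z) := by
    funext z
    rw [Cr_eq, ← hellg z]
    ring
  -- the error
  set K : ℝ := 12 * M * |C| * Real.exp (5 / 2 * X) / H ^ 3 with hK
  have hK0 : 0 ≤ K := by positivity
  obtain ⟨hm1, hm2⟩ := maj_int H hH0
  have herr : ∀ z : ℂ, ‖cv H z.im * (ell z * gg κ c X a z) - ell z * gg κ c X a z‖ ≤ K * maj H z := by
    intro z
    have hmaj : 0 ≤ maj H z := by
      unfold maj
      exact mul_nonneg (indicator_nonneg (fun _ _ => zero_le_one) _) (by positivity)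
    by_cases h1 : 3 / 2 ≤ z.re
    swap
    · rw [gg_zero' κ c X a z h1]
      simp only [mul_zero, sub_zero, norm_zero]
      positivity
    by_cases h2 : z.re ≤ 5 / 2
    swap
    · rw [gg_zero κ c X a z (not_le.1 h2)]
      simp only [mul_zero, sub_zero, norm_zero]
      positivity
    by_cases h3 : |z.im| ≤ H
    · have : cv H z.im = 1 := by
        unfold cv
        apply cut_one
        rw [abs_div, abs_of_pos hH0]
        exact (div_le_one hH0).2 h3
      rw [this, one_mul, sub_self, norm_zero]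
      positivity
    · have h3' : H < |z.im| := not_le.1 h3
      have hv1 : 1 ≤ |z.im| := by linarith
      have hb := (hMb z.re).resolve_right (fun h => h ⟨h1, h2⟩)
      have hg := gg_bound hC hM hX ha z h1 h2 hv1 hb.1 hb.2
      have e1 : cv H z.im * (ell z * gg κ c X a z) - ell z * gg κ c X a z =
          (cv H z.im - 1) * (ell z * gg κ c X a z) := by ring
      rw [e1, Real.norm_eq_abs, abs_mul, abs_mul]
      have e2 : |cv H z.im - 1| ≤ 1 := by
        rw [abs_le]
        constructor <;> linarith [hcv0 z.im, hcv1 z.im]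
      have e3 : |ell z| * |gg κ c X a z| ≤ 1 * |gg κ c X a z| :=
        mul_le_mul_of_nonneg_right (hell1 z) (abs_nonneg _)
      have e4 : |cv H z.im - 1| * (|ell z| * |gg κ c X a z|) ≤ 1 * |gg κ c X a z| := by
        calc _ ≤ 1 * (|ell z| * |gg κ c X a z|) := mul_le_mul_of_nonneg_right e2 (by positivity)
          _ ≤ _ := by rw [one_mul]; exact e3
      refine e4.trans ?_
      rw [one_mul]
      refine hg.trans ?_
      have e5 : maj H z = (1 + (z.im / H) ^ 2)⁻¹ := by
        unfold maj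
        rw [indicator_of_mem (show z.re ∈ Icc (3 / 2 : ℝ) (5 / 2) from ⟨h1, h2⟩), one_mul]
      rw [e5, hK]
      have e6 : 1 / |z.im| ^ 3 ≤ 2 / H ^ 3 * (1 + (z.im / H) ^ 2)⁻¹ := by
        set u := |z.im| / H with hu
        have hu1 : 1 ≤ u := (one_le_div hH0).2 h3'.le
        have hu2 : (z.im / H) ^ 2 = u ^ 2 := by
          rw [hu, div_pow, div_pow, sq_abs]
        have hu3 : |z.im| = u * H := by
          rw [hu]
          field_simp
        rw [hu2, hu3, mul_pow, ← div_eq_mul_inv, div_div, div_le_div_iff₀ (by positivity) (by positivity)]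
        have hu4 : 1 + u ^ 2 ≤ 2 * u ^ 3 := by nlinarith [mul_nonneg (sub_nonneg.2 hu1) (sq_nonneg u), sq_nonneg (u - 1)]
        have hH3 : 0 < H ^ 3 := by positivity
        nlinarith
      calc 6 * M * |C| * Real.exp (5 / 2 * X) / |z.im| ^ 3
          = 6 * M * |C| * Real.exp (5 / 2 * X) * (1 / |z.im| ^ 3) := by ring
        _ ≤ 6 * M * |C| * Real.exp (5 / 2 * X) * (2 / H ^ 3 * (1 + (z.im / H) ^ 2)⁻¹) :=
          mul_le_mul_of_nonneg_left e6 (by positivity)
        _ = _ := by ring
  have hE : |(∫ z : ℂ, cv H z.im * (ell z * gg κ c X a z)) - ∫ z, ell z * gg κ c X a z| ≤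
      12 * Real.pi * M * |C| * Real.exp (5 / 2 * X) / H ^ 2 := by
    rw [← integral_sub hI2 hI1, ← Real.norm_eq_abs]
    refine (norm_integral_le_of_norm_le (hm1.const_mul K) (Eventually.of_forall herr)).trans ?_
    rw [integral_const_mul, hm2, hK]
    apply le_of_eq
    field_simp
  -- the main term
  have hF1 : ∀ n, Integrable (fun z => rr η t n z * gg κ c X a z) ∧
      ∫ z, ‖rr η t n z * gg κ c X a z‖ ≤ ((n : ℝ) ^ 2)⁻¹ * ∫ z, ‖gg κ c X a z‖ := by
    intro n
    have hb : ∀ z, ‖rr η t n z * gg κ c X a z‖ ≤ ((n : ℝ) ^ 2)⁻¹ * ‖gg κ c X a z‖ := by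
      intro z
      by_cases hz : 3 / 2 ≤ z.re
      · rw [norm_mul]
        exact mul_le_mul_of_nonneg_right (rr_bound hZeu η t hη n z hz) (norm_nonneg _)
      · rw [gg_zero' κ c X a z hz]
        simp
    have hi : Integrable (fun z => rr η t n z * gg κ c X a z) := by
      refine Integrable.mono' (hgi.norm.const_mul ((n : ℝ) ^ 2)⁻¹) ?_ (Eventually.of_forall hb)
      exact (rr_cont η t n).aestronglyMeasurable.mul hgi.aestronglyMeasurable
    refine ⟨hi, ?_⟩
    rw [← integral_const_mul]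
    exact integral_mono hi.norm (hgi.norm.const_mul _) hb
  have hsum : Summable (fun n : ℕ => ∫ z, ‖rr η t n z * gg κ c X a z‖) := by
    refine Summable.of_nonneg_of_le (fun n => integral_nonneg fun z => norm_nonneg _)
      (fun n => (hF1 n).2) ?_
    exact (Real.summable_nat_pow_inv.2 (by norm_num)).mul_right _
  have hmain := hasSum_integral_of_summable_integral_norm (fun n => (hF1 n).1) hsum
  have hser : ∀ z, ∑' n, rr η t n z * gg κ c X a z = ell z * gg κ c X a z := by
    intro z
    by_cases hz : 3 / 2 ≤ z.re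
    · rw [tsum_mul_right, (log_series hZeu η t hη z hz).tsum_eq, hellg]
    · rw [gg_zero' κ c X a z hz]
      simp
  simp only [hser] at hmain
  have hterm : ∀ n : ℕ, ∫ z, rr η t n z * gg κ c X a z =
      -(2 * Real.pi) * ((((ArithmeticFunction.vonMangoldt n / Real.log n * wk κ X (a + η) n : ℝ) : ℂ) *
        (n : ℂ) ^ (-(1 / 2 + t * Complex.I))).re) := by
    intro n
    by_cases hn : 2 ≤ n
    · have hn0 : n ≠ 0 := by omega
      have hn1 : (1 : ℝ) < n := by exact_mod_cast hn
      have hlog : 0 < Real.log n := Real.log_pos hn1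
      have h1 := (hKDn κ c C hκ hC X a (Real.log n) (sp η t) hX ha ha1 hlog).2
      have h2 : ∫ z, rr η t n z * gg κ c X a z = ArithmeticFunction.vonMangoldt n / Real.log n *
          ∫ z : ℂ, (if 3 / 2 ≤ z.re then deriv (deriv cy) z.re * S1 κ c (X * (z - a)) +
      2 * (deriv cy z.re * (kt κ (X * (z - a)) / (z - a)).re) else 0) *
        (Complex.exp (-((Real.log n : ℝ) * (sp η t + z)))).re := by
        rw [← integral_const_mul]
        refine integral_congr_ae (Eventually.of_forall fun z => ?_)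
        simp only [rr, gg]
        ring
      rw [h2, h1, Complex.re_ofReal_mul, cpow_eq n hn0]
      unfold wk
      have h3 : (n : ℝ) ^ (-(a + η)) = Real.exp (-(Real.log n * a)) * Real.exp (-(Real.log n * η)) := by
        rw [Real.rpow_def_of_pos (by linarith), ← Real.exp_add]
        congr 1
        ring
      rw [h3, exp_sp]
      ring
    · have h1 : ∀ z, rr η t n z = 0 := by
        intro z
        unfold rr
        rw [b_zero n hn, zero_mul]
      simp only [h1, zero_mul, integral_zero]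
      rw [b_zero n hn]
      simp
  simp only [hterm] at hmain
  have hfin : ∫ z, ell z * gg κ c X a z = -(2 * Real.pi) * (Dx (wk κ X (a + η)) (Real.exp X) t).re := by
    rw [← hmain.tsum_eq]
    rw [tsum_eq_sum (s := Finset.Icc 1 ⌊Real.exp X⌋₊)]
    · unfold Dx
      rw [Complex.re_sum, Finset.mul_sum]
    · intro n hn
      rw [Finset.mem_Icc, not_and_or] at hn
      rcases hn with hn | hn
      · rw [b_zero n (by omega)]
        simp
      · have h1 : Real.exp X < n := by
          rw [not_le] at hn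
          exact (Nat.floor_lt (Real.exp_pos X).le).1 hn
        have h2 : X < Real.log n := by
          rw [Real.lt_log_iff_exp_lt (lt_trans (Real.exp_pos X) h1)]
          exact h1
        have h3 : kk κ (Real.log n / X) = 0 := by
          apply hKk5
          rw [le_div_iff₀ hX0]
          linarith
        unfold wk
        rw [h3]
        simp
  rw [hCr]
  refine ⟨hI2, ?_⟩
  rw [hfin] at hE
  have e1 : (∫ z : ℂ, cv H z.im * (ell z * gg κ c X a z)) + 2 * Real.pi * (Dx (wk κ X (a + η)) (Real.exp X) t).re =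
      (∫ z : ℂ, cv H z.im * (ell z * gg κ c X a z)) - -(2 * Real.pi) * (Dx (wk κ X (a + η)) (Real.exp X) t).re := by
    ring
  rw [e1]
  refine hE.trans ?_
  rw [add_mul, add_div, one_mul]
  have e2 : 0 ≤ Real.exp (5 / 2 * X) / H ^ 2 := by positivity
  linarith

end Pool.Agent.Work.MP_56b8f5_nt.HN
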