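import Pool.Agent.Work.MP_56b8f5_nt.HN.StmtsX

/-!
MP_56b8f5_nt, block HN, item TwC: the twisted approximation in the mean with complex coefficients.
-/

set_option autoImplicit false

open MeasureTheory Set Filter Topology

noncomputable section

namespace Pool.Agent.Work.MP_56b8f5_nt.HN

open Pool.Agent.Work.MP_56b8f5_nt.EM Pool.Agent.Work.MP_56b8f5_nt.WM Pool.Agent.Work.MP_56b8f5_nt.SH
open Pool.Agent.Work.MP_56b8f5_nt.HZ

namespace AuxTwC

theorem cont_Ds (N : ℕ) (D : ℕ → ℂ) : Continuous (Ds N D) := by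
  unfold Ds
  refine continuous_finsetSum _ fun n hn => ?_
  have hn1 : (n : ℂ) ≠ 0 := by
    have := (Finset.mem_Icc.mp hn).1
    exact_mod_cast (by omega : n ≠ 0)
  exact continuous_const.mul (continuous_neg.const_cpow (Or.inl hn1))

theorem dk_nonneg (k n : ℕ) : 0 ≤ dk k n := by
  unfold dk
  exact_mod_cast Nat.zero_le _

/-- the shifted coefficients -/
def bb (η : ℝ) (q : ℕ → ℂ) (n : ℕ) : ℂ := q n * (((n : ℝ) ^ η : ℝ) : ℂ)

theorem bb_is {k N : ℕ} {η T : ℝ} {q : ℕ → ℂ} (hq : IsDc k η T N q) : IsDc k 0 T N (bb η q) where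
  le n := by
    rw [neg_zero, Real.rpow_zero, mul_one]
    rcases Nat.eq_zero_or_pos n with h | h
    · have h0 : q n = 0 := by
        by_contra h1
        have := (hq.supp n h1).1
        omega
      unfold bb
      rw [h0, zero_mul, norm_zero]
      exact dk_nonneg k n
    · have hn : (0 : ℝ) < n := by exact_mod_cast h
      have h1 := mul_le_mul_of_nonneg_right (hq.le n) (Real.rpow_nonneg hn.le η)
      rw [mul_assoc, ← Real.rpow_add hn, neg_add_cancel, Real.rpow_zero, mul_one] at h1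
      unfold bb
      rw [norm_mul, Complex.norm_real, Real.norm_of_nonneg (Real.rpow_nonneg hn.le η)]
      exact h1
  supp n hn := hq.supp n (left_ne_zero_of_mul hn)
  one := hq.one
  len := hq.len

theorem Ds_bb (N : ℕ) (η t : ℝ) (q : ℕ → ℂ) :
    Ds N (bb η q) (sp η t) = Dc N q t := by
  unfold Dc Ds
  refine Finset.sum_congr rfl fun n hn => ?_
  have hn1 : 1 ≤ n := (Finset.mem_Icc.mp hn).1
  have hn0 : (n : ℂ) ≠ 0 := by exact_mod_cast (by omega : n ≠ 0)
  have h1 : bb η q n = q n * (n : ℂ) ^ (η : ℂ) := by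
    unfold bb
    rw [Complex.ofReal_cpow (Nat.cast_nonneg n)]
    push_cast
    rfl
  show bb η q n * (n : ℂ) ^ (-(sp η t)) = q n * (n : ℂ) ^ (-(1 / 2 + t * Complex.I))
  rw [h1, mul_assoc, ← Complex.cpow_add _ _ hn0]
  congr 2
  unfold sp
  push_cast
  ring

/-- the final computation -/
theorem calc_final {C₅ A B T X η n J₁ J₂ : ℝ} (hC₅ : 1 ≤ C₅) (hA : 1 ≤ A) (hB : 1 ≤ B)
    (hT : 1 ≤ T) (hX : 1 ≤ X) (hη : 0 ≤ η) (hη' : η ≤ 1 / 8) (hn : 1 ≤ n)
    (hJ₁0 : 0 ≤ J₁) (hJ₂0 : 0 ≤ J₂) (hJ₁ : J₁ ≤ A * (T * X)) (hJ₂ : J₂ ≤ B * (T * (n ^ 2)⁻¹)) :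
    C₅ * (J₁ ^ (1 - η / (3 / 2) : ℝ) * J₂ ^ (η / (3 / 2) : ℝ)) ≤
      C₅ * A * B * (T * X) * n ^ (-η) := by
  set θ : ℝ := η / (3 / 2) with hθ
  have hθ0 : 0 ≤ θ := by positivity
  have hθ1 : θ ≤ 1 := by
    rw [hθ, div_le_one (by norm_num)]
    linarith
  have hT0 : 0 < T := by linarith
  have hn0 : 0 < n := by linarith
  have one_rpow : ∀ x e : ℝ, 1 ≤ x → 0 ≤ e → e ≤ 1 → x ^ e ≤ x := by
    intro x e hx he he'
    calc x ^ e ≤ x ^ (1 : ℝ) := Real.rpow_le_rpow_of_exponent_le hx he'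
      _ = x := Real.rpow_one x
  have h1 : J₁ ^ (1 - θ) ≤ A * (T ^ (1 - θ) * X) := by
    have h2 : J₁ ^ (1 - θ) ≤ (A * (T * X)) ^ (1 - θ) :=
      Real.rpow_le_rpow hJ₁0 hJ₁ (by linarith)
    refine h2.trans ?_
    rw [Real.mul_rpow (by positivity) (by positivity), Real.mul_rpow (by positivity) (by positivity)]
    have h3 := one_rpow A (1 - θ) hA (by linarith) (by linarith)
    have h4 := one_rpow X (1 - θ) hX (by linarith) (by linarith)
    gcongr
  have h2 : J₂ ^ θ ≤ B * (T ^ θ * n ^ (-(2 * θ))) := by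
    have h2 : J₂ ^ θ ≤ (B * (T * (n ^ 2)⁻¹)) ^ θ := Real.rpow_le_rpow hJ₂0 hJ₂ hθ0
    refine h2.trans ?_
    rw [Real.mul_rpow (by positivity) (by positivity), Real.mul_rpow (by positivity) (by positivity)]
    have h3 := one_rpow B θ hB hθ0 hθ1
    have h4 : ((n ^ 2)⁻¹ : ℝ) ^ θ = n ^ (-(2 * θ)) := by
      rw [← Real.rpow_natCast n 2, ← Real.rpow_neg hn0.le, ← Real.rpow_mul hn0.le]
      congr 1
      push_cast
      ring
    rw [h4]
    gcongr
  have h3 : J₁ ^ (1 - θ) * J₂ ^ θ ≤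
      (A * (T ^ (1 - θ) * X)) * (B * (T ^ θ * n ^ (-(2 * θ)))) :=
    mul_le_mul h1 h2 (Real.rpow_nonneg hJ₂0 _) (by positivity)
  have h4 : T ^ (1 - θ) * T ^ θ = T := by
    rw [← Real.rpow_add hT0, sub_add_cancel, Real.rpow_one]
  have h5 : n ^ (-(2 * θ)) ≤ n ^ (-η) := by
    refine Real.rpow_le_rpow_of_exponent_le hn ?_
    rw [hθ]
    linarith
  calc C₅ * (J₁ ^ (1 - θ) * J₂ ^ θ)
      ≤ C₅ * ((A * (T ^ (1 - θ) * X)) * (B * (T ^ θ * n ^ (-(2 * θ))))) := by
        gcongr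
    _ = C₅ * A * B * ((T ^ (1 - θ) * T ^ θ) * X) * n ^ (-(2 * θ)) := by ring
    _ = C₅ * A * B * (T * X) * n ^ (-(2 * θ)) := by rw [h4]
    _ ≤ C₅ * A * B * (T * X) * n ^ (-η) := by gcongr

end AuxTwC

open AuxTwC

theorem TwC_pf (h1 : S_XT1) (h2 : S_XT2) (h3 : S_XT3) (h4 : S_XT4) (h5 : HZG.S_G1) : S_TwC := by
  intro k
  obtain ⟨C₁, T₁, hC₁, hT₁, H1⟩ := h1 k
  obtain ⟨C₂, T₂, hC₂, hT₂, H2⟩ := h2 k
  obtain ⟨C₃, hC₃, H3⟩ := h3 k
  obtain ⟨T₄, hT₄, H4⟩ := h4 k
  obtain ⟨C₅, T₅, hC₅, hT₅, H5⟩ := h5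
  refine ⟨C₅ * (2 * C₁ + 2 * C₂ + 1) * (C₃ + 1), max (max T₁ T₂) (max T₄ T₅), ?_,
    hT₁.trans ((le_max_left _ _).trans (le_max_left _ _)), ?_⟩
  · have a1 : 1 ≤ C₅ * (2 * C₁ + 2 * C₂ + 1) := by nlinarith
    nlinarith
  intro T hT η hη hη' N hN hNT N' q hq
  have hT1 : T₁ ≤ T := ((le_max_left _ _).trans (le_max_left _ _)).trans hT
  have hT2 : T₂ ≤ T := ((le_max_right _ _).trans (le_max_left _ _)).trans hT
  have hT4 : T₄ ≤ T := ((le_max_left _ _).trans (le_max_right _ _)).trans hT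
  have hT5 : T₅ ≤ T := ((le_max_right _ _).trans (le_max_right _ _)).trans hT
  have hT3 : 3 ≤ T := hT₁.trans hT1
  have hb := bb_is hq
  obtain ⟨H, hHd, hHb, hHF⟩ := H4 T hT4 N' (bb η q) hb N hN hNT
  set F : ℂ → ℂ := fun s => (riemannZeta s - Ds N (fun _ => 1) s) *
    Ds N' (bb η q) s with hF
  set X : ℝ := Real.log T ^ (k + 1) ^ 2 with hX
  have hL1 : 1 ≤ Real.log T := by
    rw [Real.le_log_iff_exp_le (by linarith)]
    have := Real.exp_one_lt_d9
    linarith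
  have hX1 : 1 ≤ X := one_le_pow₀ hL1
  have hσ : (1 / 2 + η - 1 / 2) / (3 / 2) = η / (3 / 2) := by ring
  have key := H5 T hT5 F H hHd.diffContOnCl hHb (by
    intro s _ _ g1 _
    refine hHF s ?_
    rintro rfl
    rw [Complex.one_im] at g1
    linarith) (1 / 2 + η) (by linarith) (by linarith)
  rw [hσ] at key
  -- continuity of F on the lines
  have hcF : ∀ (x a b : ℝ), 0 < a → a ≤ b →
      ContinuousOn (fun v : ℝ => F ((x : ℂ) + (v : ℂ) * Complex.I)) (uIcc a b) := by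
    intro x a b ha hab
    have hne : ∀ v ∈ uIcc a b, ((x : ℂ) + (v : ℂ) * Complex.I) ≠ 1 := by
      intro v hv h
      rw [uIcc_of_le hab] at hv
      have := congrArg Complex.im h
      simp at this
      linarith [hv.1]
    have g1 : ContinuousOn (fun v : ℝ => H ((x : ℂ) + (v : ℂ) * Complex.I) /
        (((x : ℂ) + (v : ℂ) * Complex.I) - 1)) (uIcc a b) := by
      refine ContinuousOn.div ?_ (by fun_prop) fun v hv => sub_ne_zero.mpr (hne v hv)
      exact (hHd.continuous.comp (by fun_prop)).continuousOn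
    refine g1.congr fun v hv => ?_
    exact hHF _ (hne v hv)
  -- the left side
  have hleft : ∫ t in T..(2 * T), ‖riemannZeta (sp η t) - DN N η t‖ ^ 2 * ‖Dc N' q t‖ ^ 2 ≤
      HZG.MS F (1 / 2 + η) (T / 3) (4 * T) := by
    have e1 : ∫ t in T..(2 * T), ‖riemannZeta (sp η t) - DN N η t‖ ^ 2 * ‖Dc N' q t‖ ^ 2 =
        ∫ t in T..(2 * T), ‖F (((1 / 2 + η : ℝ) : ℂ) + (t : ℂ) * Complex.I)‖ ^ 2 := by
      refine intervalIntegral.integral_congr fun v _ => ?_
      show _ = ‖F (sp η v)‖ ^ 2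
      simp only [hF]
      rw [Ds_bb, norm_mul, mul_pow]
      rfl
    rw [e1]
    unfold HZG.MS
    refine intervalIntegral.integral_mono_interval (by linarith) (by linarith) (by linarith) ?_ ?_
    · exact Filter.Eventually.of_forall fun v => by positivity
    · exact ((hcF (1 / 2 + η) (T / 3) (4 * T) (by linarith) (by linarith)).norm.pow 2).intervalIntegrable
  refine hleft.trans (key.trans ?_)
  have hMS0 : ∀ x : ℝ, 0 ≤ HZG.MS F x (T / 4) (5 * T) := by
    intro x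
    unfold HZG.MS
    exact intervalIntegral.integral_nonneg (by linarith) fun v _ => by positivity
  have hTi : (T ^ 50)⁻¹ ≤ 1 := inv_le_one_of_one_le₀ (one_le_pow₀ (by linarith))
  have hTi0 : 0 ≤ (T ^ 50)⁻¹ := by positivity
  have hN1 : (1 : ℝ) ≤ N := by exact_mod_cast hN
  refine calc_final hC₅ (by linarith) (by linarith) (by linarith) hX1 hη hη' hN1
    (by linarith [hMS0 (1 / 2)]) (by linarith [hMS0 2]) ?_ ?_
  · -- the line one half
    have hI1 := H1 T hT1 N' (bb η q) hb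
    have hI2 := H2 T hT2 N' (bb η q) hb N hN hNT
    set f : ℝ → ℂ := fun v => F (1 / 2 + v * Complex.I) with hf
    set g : ℝ → ℂ := fun v => DN N 0 v * Dc N' (bb η q) v with hg
    have hcg : Continuous g := by
      have g1 : Continuous fun v : ℝ => DN N 0 v := by
        unfold DN sp
        exact (cont_Ds _ _).comp (by fun_prop)
      have g2 : Continuous fun v : ℝ => Dc N' (bb η q) v := by
        unfold Dc
        exact (cont_Ds _ _).comp (by fun_prop)
      exact g1.mul g2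
    have hcf : ContinuousOn f (uIcc (T / 4) (5 * T)) := by
      refine (hcF (1 / 2) (T / 4) (5 * T) (by linarith) (by linarith)).congr fun v _ => ?_
      simp only [hf]
      push_cast
      rfl
    have hsp : ∀ v : ℝ, sp 0 v = 1 / 2 + v * Complex.I := by
      intro v
      unfold sp
      push_cast
      ring
    have hfg : ∀ v : ℝ, riemannZeta (1 / 2 + v * Complex.I) * Dc N' (bb η q) v = f v + g v := by
      intro v
      simp only [hf, hg, hF]
      unfold Dc DN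
      rw [hsp]
      ring
    have e1 : HZG.MS F (1 / 2) (T / 4) (5 * T) = ∫ v in (T / 4)..(5 * T), ‖f v‖ ^ 2 := by
      unfold HZG.MS
      refine intervalIntegral.integral_congr fun v _ => ?_
      simp only [hf]
      push_cast
      rfl
    have e2 : ∫ v in (T / 4)..(5 * T), ‖f v‖ ^ 2 ≤
        ∫ v in (T / 4)..(5 * T), (2 * ‖f v + g v‖ ^ 2 + 2 * ‖g v‖ ^ 2) := by
      refine intervalIntegral.integral_mono_on (by linarith) ?_ ?_ fun v _ => ?_
      · exact (hcf.norm.pow 2).intervalIntegrable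
      · exact ((((hcf.add hcg.continuousOn).norm.pow 2).const_smul (2 : ℝ)).add
          ((hcg.norm.pow 2).continuousOn.const_smul (2 : ℝ))).intervalIntegrable
      · have g1 : ‖f v‖ ≤ ‖f v + g v‖ + ‖g v‖ := by
          have := norm_sub_le (f v + g v) (g v)
          rwa [add_sub_cancel_right] at this
        have g2 : 0 ≤ ‖f v‖ := norm_nonneg _
        nlinarith [sq_nonneg (‖f v + g v‖ - ‖g v‖)]
    have i1 : IntervalIntegrable (fun v => ‖f v + g v‖ ^ 2) volume (T / 4) (5 * T) :=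
      ((hcf.add hcg.continuousOn).norm.pow 2).intervalIntegrable
    have i2 : IntervalIntegrable (fun v => ‖g v‖ ^ 2) volume (T / 4) (5 * T) :=
      (hcg.norm.pow 2).intervalIntegrable _ _
    rw [intervalIntegral.integral_add (i1.const_mul 2) (i2.const_mul 2),
      intervalIntegral.integral_const_mul, intervalIntegral.integral_const_mul] at e2
    have e3 : ∫ v in (T / 4)..(5 * T), ‖f v + g v‖ ^ 2 ≤ C₁ * (T * X) := by
      refine le_trans (le_of_eq ?_) hI1
      refine intervalIntegral.integral_congr fun v _ => ?_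
      show ‖f v + g v‖ ^ 2 = ‖riemannZeta (1 / 2 + v * Complex.I)‖ ^ 2 * ‖Dc N' (bb η q) v‖ ^ 2
      rw [← hfg, norm_mul, mul_pow]
    have e4 : ∫ v in (T / 4)..(5 * T), ‖g v‖ ^ 2 ≤ C₂ * (T * X) := by
      refine le_trans (le_of_eq ?_) hI2
      refine intervalIntegral.integral_congr fun v _ => ?_
      show ‖g v‖ ^ 2 = ‖DN N 0 v‖ ^ 2 * ‖Dc N' (bb η q) v‖ ^ 2
      rw [← mul_pow, ← norm_mul]
    rw [e1]
    have e5 : 1 ≤ T * X := one_le_mul_of_one_le_of_one_le (by linarith) hX1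
    have e6 : (2 * C₁ + 2 * C₂ + 1) * (T * X) = 2 * (C₁ * (T * X)) + 2 * (C₂ * (T * X)) + T * X := by
      ring
    rw [e6]
    linarith
  · -- the line two
    have hI := H3 T (by linarith) N' (bb η q) hb N hN
    have e1 : HZG.MS F 2 (T / 4) (5 * T) ≤ C₃ * T * ((N : ℝ) ^ 2)⁻¹ := by
      refine le_trans (le_of_eq ?_) hI
      unfold HZG.MS
      refine intervalIntegral.integral_congr fun v _ => ?_
      simp only [hF]
      push_cast
      rfl
    have e2 : 1 ≤ T * ((N : ℝ) ^ 2)⁻¹ := by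
      have g1 : (N : ℝ) ^ 2 ≤ T := (pow_le_pow_right₀ hN1 (by norm_num)).trans hNT
      rw [← div_eq_mul_inv, le_div_iff₀ (by positivity), one_mul]
      exact g1
    have e6 : (C₃ + 1) * (T * ((N : ℝ) ^ 2)⁻¹) = C₃ * T * ((N : ℝ) ^ 2)⁻¹ + T * ((N : ℝ) ^ 2)⁻¹ := by
      ring
    rw [e6]
    linarith

end Pool.Agent.Work.MP_56b8f5_nt.HN
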