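import Pool.Agent.Work.MP_56b8f5_nt.HN.StmtsX
import Pool.Agent.Work.MP_56b8f5_nt.HN.I_DyF

/-!
MP_56b8f5_nt, block HN, item TwV: the twisted approximation on `[√T, 2T]`.
-/

set_option autoImplicit false

open MeasureTheory Set Filter Topology

noncomputable section

namespace Pool.Agent.Work.MP_56b8f5_nt.HN

open Pool.Agent.Work.MP_56b8f5_nt.EM Pool.Agent.Work.MP_56b8f5_nt.WM Pool.Agent.Work.MP_56b8f5_nt.SH
open Pool.Agent.Work.MP_56b8f5_nt.HZ

namespace AuxTwV

/-- the sum over the dyadic blocks of `[Y, T]` -/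
theorem blocks (hS : S_DyS) (f : ℝ → ℝ) (hf : Continuous f) (hf0 : ∀ t, 0 ≤ f t)
    (T Y K : ℝ) (hY : 0 < Y) (hYT : 2 * Y ≤ T) (hK : 0 ≤ K)
    (h1 : ∀ U : ℝ, Y ≤ U → 2 * U ≤ T → ∫ t in Icc U (2 * U), f t ≤ K * U) :
    ∫ t in Icc Y T, f t ≤ K * T + K * Y := by
  have hT : 0 < T := by linarith
  obtain ⟨J, hJ1, hJ2⟩ := AuxDyF.dyadic T Y hY
  have hG : MeasurableSet (Icc Y T) := measurableSet_Icc
  have h3 := (hS f (Icc Y T) T K hf hG hT J).1 fun j hj => by
    have e1 := hJ1 j hj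
    have e2 := AuxDyF.two_T T hT j
    rw [inter_eq_right.2 (Icc_subset_Icc e1 e2)]
    exact h1 _ e1 e2
  have ha : 0 ≤ T / 2 ^ J := by positivity
  have heq : Icc Y T = (Icc Y T ∩ Icc 0 (T / 2 ^ J)) ∪ (Icc Y T ∩ Ioc (T / 2 ^ J) T) := by
    refine Subset.antisymm (fun t ht => ?_) ?_
    · rcases le_or_gt t (T / 2 ^ J) with h | h
      · exact Or.inl ⟨ht, hY.le.trans ht.1, h⟩
      · exact Or.inr ⟨ht, h, ht.2⟩
    · rintro t (h | h)
      · exact h.1
      · exact h.1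
  have hint : IntegrableOn f (Icc Y T) := hf.integrableOn_Icc
  have hdis : Disjoint (Icc Y T ∩ Icc 0 (T / 2 ^ J)) (Icc Y T ∩ Ioc (T / 2 ^ J) T) := by
    rw [Set.disjoint_left]
    rintro t h h'
    exact absurd h.2.2 (not_le.2 h'.2.1)
  have hsplit : ∫ t in Icc Y T, f t =
      (∫ t in Icc Y T ∩ Icc 0 (T / 2 ^ J), f t) + ∫ t in Icc Y T ∩ Ioc (T / 2 ^ J) T, f t := by
    have := setIntegral_union hdis (hG.inter measurableSet_Ioc)
      (hint.mono_set inter_subset_left) (hint.mono_set inter_subset_left) (μ := volume) (f := f)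
    rw [← heq] at this
    exact this
  have h4 : ∫ t in Icc Y T ∩ Icc 0 (T / 2 ^ J), f t ≤ ∫ t in Icc Y (2 * Y), f t := by
    refine setIntegral_mono_set hf.integrableOn_Icc (ae_of_all _ hf0)
      (LE.le.eventuallyLE ?_)
    rintro t ⟨h, h'⟩
    exact ⟨h.1, h'.2.trans hJ2⟩
  have h5 := h1 Y le_rfl hYT
  have h6 : K * (T - T / 2 ^ J) ≤ K * T := mul_le_mul_of_nonneg_left (by linarith) hK
  rw [hsplit]
  linarith

theorem cont_Ds (N : ℕ) (q : ℕ → ℂ) (σ : ℝ) :
    Continuous fun t : ℝ => Ds N q ((σ : ℂ) + t * Complex.I) := by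
  unfold Ds
  refine continuous_finsetSum _ fun n hn => ?_
  have hn1 : (n : ℂ) ≠ 0 := by
    have := (Finset.mem_Icc.1 hn).1
    exact_mod_cast (by omega : n ≠ 0)
  have h1 : Continuous fun t : ℝ => -((σ : ℂ) + t * Complex.I) := by
    fun_prop
  exact continuous_const.mul (h1.const_cpow (Or.inl hn1))

theorem cont (N N' : ℕ) (q : ℕ → ℂ) (η : ℝ) (hη : η ≤ 1 / 8) :
    Continuous fun t : ℝ => ‖riemannZeta (sp η t) - DN N η t‖ ^ 2 * ‖Dc N' q t‖ ^ 2 := by
  have h1 : Continuous fun t : ℝ => riemannZeta (sp η t) :=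
    AuxDyF.zc (1 / 2 + η) (by linarith)
  have h2 : Continuous fun t : ℝ => DN N η t := cont_Ds N (fun _ => 1) (1 / 2 + η)
  have h3 : Continuous fun t : ℝ => Dc N' q t := by
    have := cont_Ds N' q (1 / 2)
    refine this.congr fun t => ?_
    unfold Dc
    congr 2
    push_cast
    rfl
  exact ((h1.sub h2).norm.pow 2).mul (h3.norm.pow 2)

end AuxTwV

open AuxTwV in
/-- **Item TwV**: TwC on `[√T, 2T]`. -/
theorem TwV_pf (h1 : S_TwC) (h3 : S_DyS) : S_TwV := by
  intro k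
  obtain ⟨C, T₁, hC, hT₁, h⟩ := h1 k
  refine ⟨3 * C, T₁ ^ 2, by linarith, by nlinarith, ?_⟩
  intro T hT η hη0 hη N hN hNT N' q hq
  have hT1 : 1 ≤ T := by nlinarith
  have hTpos : 0 < T := by linarith
  set s := Real.sqrt T with hs
  have hs0 : 0 ≤ s := Real.sqrt_nonneg T
  have hss : s * s = T := Real.mul_self_sqrt hTpos.le
  have hsT : T₁ ≤ s := by
    rw [hs]
    exact Real.le_sqrt_of_sq_le hT
  have hs1 : 1 ≤ s := by linarith
  have hsleT : s ≤ T := by nlinarith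
  have hNs : (N : ℝ) ^ 100 ≤ s := by
    rw [hs]
    refine Real.le_sqrt_of_sq_le ?_
    rw [← pow_mul]
    exact hNT
  have hlT : 0 ≤ Real.log T := Real.log_nonneg hT1
  have hNη : 0 ≤ (N : ℝ) ^ (-η) := Real.rpow_nonneg (Nat.cast_nonneg _) _
  set K := C * Real.log T ^ (k + 1) ^ 2 * (N : ℝ) ^ (-η) with hKdef
  have hK : 0 ≤ K := by positivity
  have hb := blocks h3 _ (cont N N' q η hη) (fun t => by positivity) (2 * T) s K (by linarith)
    (by linarith) hK (fun U hU1 hU2 => by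
      have hU : T₁ ≤ U := hsT.trans hU1
      have hU0 : 0 < U := by linarith
      have e1 := h U hU η hη0 hη N hN (hNs.trans hU1) N' q
        ⟨hq.le, hq.supp, hq.one, hq.len.trans hU1⟩
      rw [intervalIntegral.integral_of_le (by linarith), ← integral_Icc_eq_integral_Ioc] at e1
      refine e1.trans ?_
      have e2 : Real.log U ≤ Real.log T := Real.log_le_log hU0 (by linarith)
      have e3 : Real.log U ^ (k + 1) ^ 2 ≤ Real.log T ^ (k + 1) ^ 2 :=
        pow_le_pow_left₀ (Real.log_nonneg (by linarith)) e2 _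
      calc C * (U * Real.log U ^ (k + 1) ^ 2) * (N : ℝ) ^ (-η)
          ≤ C * (U * Real.log T ^ (k + 1) ^ 2) * (N : ℝ) ^ (-η) := by
            gcongr
        _ = K * U := by rw [hKdef]; ring)
  rw [intervalIntegral.integral_of_le (by linarith), ← integral_Icc_eq_integral_Ioc]
  refine hb.trans ?_
  calc K * (2 * T) + K * s ≤ K * (2 * T) + K * T := by
        have := mul_le_mul_of_nonneg_left hsleT hK
        linarith
    _ = 3 * C * (T * Real.log T ^ (k + 1) ^ 2) * (N : ℝ) ^ (-η) := by rw [hKdef]; ring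

end Pool.Agent.Work.MP_56b8f5_nt.HN
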