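import Pool.Agent.Work.MP_56b8f5_nt.HN.StmtsX

/-!
MP_56b8f5_nt, block HN, item XT2: `DN` times a divisor bounded polynomial with complex coefficients on the line `1/2`,
in the mean square (complex version of Tw2).
-/

set_option autoImplicit false

open MeasureTheory Set Filter Topology

noncomputable section

namespace Pool.Agent.Work.MP_56b8f5_nt.HN

open Pool.Agent.Work.MP_56b8f5_nt.EM Pool.Agent.Work.MP_56b8f5_nt.WM Pool.Agent.Work.MP_56b8f5_nt.SH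
open Pool.Agent.Work.MP_56b8f5_nt.HZ

namespace AuxXT2

/-- The indicator of `[1,N]`. -/
def g (N n : ℕ) : ℂ := if 1 ≤ n ∧ n ≤ N then 1 else 0

lemma g_le (N n : ℕ) : ‖g N n‖ ≤ 1 := by
  unfold g
  split_ifs
  · simp
  · simp

lemma g_supp (N n : ℕ) (h : g N n ≠ 0) : 1 ≤ n ∧ n ≤ N := by
  by_contra hc
  exact h (if_neg hc)

lemma DN_eq (N : ℕ) (t : ℝ) : DN N 0 t = Dc N (g N) t := by
  unfold DN Dc Ds
  refine Finset.sum_congr rfl fun n hn => ?_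
  rw [Finset.mem_Icc] at hn
  have hf : g N n = 1 := if_pos hn
  have hs : sp 0 t = 1 / 2 + t * Complex.I := by
    unfold sp
    push_cast
    ring
  simp only [hf, hs]

/-- The product of the two polynomials. -/
lemma prod_eq (h4 : HZ.S_DsM) {T : ℝ} {k N N' : ℕ} {b : ℕ → ℂ} (hb : IsDc k 0 T N' b) (t : ℝ) :
    DN N 0 t * Dc N' b t = Dc (N * N') (cvl (g N) b) t := by
  rw [DN_eq]
  unfold Dc
  exact h4.1 N N' (g N) b (fun n hn => g_supp N n hn) (fun n hn => hb.supp n hn) _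

lemma e_le (h2 : S_dkB) {T : ℝ} {k N N' : ℕ} {b : ℕ → ℂ} (hb : IsDc k 0 T N' b) {n : ℕ}
    (hn : 1 ≤ n) : ‖cvl (g N) b n‖ ≤ dk (k + 1) n := by
  obtain ⟨-, hbn, -, -, -, hbs, -⟩ := h2
  rw [hbs k n (by omega)]
  unfold cvl
  refine (norm_sum_le _ _).trans (Finset.sum_le_sum fun d _ => ?_)
  have h1 : ‖b (n / d)‖ ≤ dk k (n / d) := by
    have := hb.le (n / d)
    rwa [neg_zero, Real.rpow_zero, mul_one] at this
  rw [norm_mul]
  calc ‖g N d‖ * ‖b (n / d)‖ ≤ 1 * ‖b (n / d)‖ :=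
        mul_le_mul_of_nonneg_right (g_le N d) (norm_nonneg _)
    _ = ‖b (n / d)‖ := one_mul _
    _ ≤ dk k (n / d) := h1

/-- `(N N')^2 ≤ T`, `N N' ≤ T`. -/
lemma small {x y T : ℝ} (hx : 1 ≤ x) (hy : 1 ≤ y) (hxT : x ^ 100 ≤ T) (hyT : y ^ 100 ≤ T) :
    (x * y) ^ 2 ≤ T ∧ x * y ≤ T := by
  have hT1 : 1 ≤ T := (one_le_pow₀ hx).trans hxT
  have h0 : 0 ≤ x * y := by positivity
  have h1 : 1 ≤ x * y := one_le_mul_of_one_le_of_one_le hx hy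
  have h2 : (x * y) ^ 100 ≤ T ^ 2 := by
    rw [mul_pow, sq]
    exact mul_le_mul hxT hyT (by positivity) (by linarith)
  have h3 : (x * y) ^ 50 ≤ T := by
    have h4 : ((x * y) ^ 50) ^ 2 ≤ T ^ 2 := by
      rw [← pow_mul]
      exact h2
    exact le_of_sq_le_sq h4 (by linarith)
  have h5 : (x * y) ^ 2 ≤ (x * y) ^ 50 := pow_le_pow_right₀ h1 (by norm_num)
  have h6 : (x * y) ^ 1 ≤ (x * y) ^ 50 := pow_le_pow_right₀ h1 (by norm_num)
  rw [pow_one] at h6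
  exact ⟨h5.trans h3, h6.trans h3⟩

/-- The diagonal sum. -/
lemma diag {k M : ℕ} {C T : ℝ} {c : ℕ → ℂ} (hT : 3 ≤ T) (hM : (M : ℝ) ≤ T) (hC : 1 ≤ C)
    (h3 : ∀ Y : ℕ, 2 ≤ Y →
      Summable (fun n : ℕ => (open Classical in if Smo Y n then dk k n ^ 2 / (n : ℝ) else 0)) ∧
      ∑' n : ℕ, (open Classical in if Smo Y n then dk k n ^ 2 / (n : ℝ) else 0) ≤
        C * Real.log Y ^ k ^ 2)
    (hc : ∀ n, 1 ≤ n → ‖c n‖ ≤ dk k n) :
    ∑ n ∈ Finset.Icc 1 M, ‖c n‖ ^ 2 / (n : ℝ) ≤ C * Real.log T ^ k ^ 2 := by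
  classical
  have hY2 : 2 ≤ ⌊T⌋₊ := Nat.le_floor (by norm_num; linarith)
  obtain ⟨hs, hle⟩ := h3 ⌊T⌋₊ hY2
  have hMY : M ≤ ⌊T⌋₊ := Nat.le_floor hM
  have hYT : (⌊T⌋₊ : ℝ) ≤ T := Nat.floor_le (by linarith)
  have hY0 : (1 : ℝ) ≤ (⌊T⌋₊ : ℝ) := by exact_mod_cast (show 1 ≤ ⌊T⌋₊ by omega)
  have h1 : ∑ n ∈ Finset.Icc 1 M, ‖c n‖ ^ 2 / (n : ℝ) ≤
      ∑ n ∈ Finset.Icc 1 M, (open Classical in if Smo ⌊T⌋₊ n then dk k n ^ 2 / (n : ℝ) else 0) := by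
    refine Finset.sum_le_sum fun n hn => ?_
    rw [Finset.mem_Icc] at hn
    have hsm : Smo ⌊T⌋₊ n := by
      refine ⟨by omega, fun p _ hd => ?_⟩
      have hpn : p ≤ n := Nat.le_of_dvd (by omega) hd
      omega
    rw [if_pos hsm]
    exact div_le_div_of_nonneg_right (pow_le_pow_left₀ (norm_nonneg _) (hc n hn.1) 2)
      (Nat.cast_nonneg _)
  refine h1.trans ((hs.sum_le_tsum _ fun n _ => ?_).trans (hle.trans ?_))
  · split_ifs
    · positivity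
    · exact le_rfl
  · have hl : Real.log (⌊T⌋₊ : ℝ) ≤ Real.log T := Real.log_le_log (by linarith) hYT
    have hl0 : 0 ≤ Real.log (⌊T⌋₊ : ℝ) := Real.log_nonneg hY0
    exact mul_le_mul_of_nonneg_left (pow_le_pow_left₀ hl0 hl _) (by linarith)

end AuxXT2

open AuxXT2 in
theorem XT2_pf (h1 : S_MvC) (h2 : S_dkB) (h3 : S_SmN) (h4 : HZ.S_DsM) : S_XT2 := by
  intro k
  obtain ⟨C, hC, hS⟩ := h3.2 (k + 1)
  refine ⟨7 * C, 3, by linarith, le_rfl, ?_⟩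
  intro T hT N' b hb N hN hNT
  have hN1 : (1 : ℝ) ≤ N := by exact_mod_cast hN
  have hN1' : (1 : ℝ) ≤ N' := by exact_mod_cast hb.one
  obtain ⟨s1, s2⟩ := small hN1 hN1' hNT hb.len
  have hI : (∫ v in (T / 4)..(5 * T), ‖DN N 0 v‖ ^ 2 * ‖Dc N' b v‖ ^ 2) =
      ∫ v in (T / 4)..(5 * T), ‖Dc (N * N') (cvl (g N) b) v‖ ^ 2 := by
    refine intervalIntegral.integral_congr fun v _ => ?_
    rw [← prod_eq h4 hb v, norm_mul, mul_pow]
  rw [hI]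
  have hM := (abs_le.1 (h1 (T / 4) (5 * T) (N * N') (cvl (g N) b) (cvl (g N) b)
    (by linarith)).2).2
  have hcast : ((N * N' : ℕ) : ℝ) = N * N' := by push_cast; rfl
  rw [hcast] at hM
  have hd := diag (c := cvl (g N) b) (M := N * N') hT (by rw [hcast]; exact s2) hC hS
    (fun n hn => e_le h2 hb hn)
  set Q : ℝ := ∑ n ∈ Finset.Icc 1 (N * N'), ‖cvl (g N) b n‖ ^ 2 / (n : ℝ) with hQd
  have hQ0 : 0 ≤ Q := Finset.sum_nonneg fun n _ => by positivity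
  have hT0 : 0 < T := by linarith
  have a1 : ((N : ℝ) * N') ^ 2 * Q ≤ T * Q := mul_le_mul_of_nonneg_right s1 hQ0
  have a2 : T * Q ≤ T * (C * Real.log T ^ (k + 1) ^ 2) := mul_le_mul_of_nonneg_left hd hT0.le
  have a3 : 0 ≤ T * Q := mul_nonneg hT0.le hQ0
  nlinarith [a1, a2, a3, hM]

end Pool.Agent.Work.MP_56b8f5_nt.HN
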