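import Pool.Agent.Work.MP_56b8f5_nt.HN.StmtsX
import Pool.Agent.Work.MP_56b8f5_nt.HN.I_Tw3

/-!
MP_56b8f5_nt, block HN, item XT3: the mean square on the line `2`, complex coefficients.
-/

set_option autoImplicit false

open MeasureTheory Set Filter Topology

noncomputable section

namespace Pool.Agent.Work.MP_56b8f5_nt.HN

open Pool.Agent.Work.MP_56b8f5_nt.EM Pool.Agent.Work.MP_56b8f5_nt.WM Pool.Agent.Work.MP_56b8f5_nt.SH
open Pool.Agent.Work.MP_56b8f5_nt.HZ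

namespace AuxXT3

theorem poly_le (h1 : S_dkS) {k N' : ℕ} {T : ℝ} {b : ℕ → ℂ} (hb : IsDc k 0 T N' b) (v : ℝ) :
    ‖Ds N' b (2 + v * Complex.I)‖ ≤ 2 ^ k := by
  refine le_trans ?_ (h1 k N' hb.one).2
  rw [Ds]
  refine (norm_sum_le _ _).trans (Finset.sum_le_sum fun n hn => ?_)
  have hn1 : 0 < n := (Finset.mem_Icc.1 hn).1
  rw [norm_mul, I_Lt.norm_neg_pow hn1, div_eq_mul_inv]
  refine mul_le_mul_of_nonneg_right ?_ (by positivity)
  have h2 := hb.le n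
  rwa [neg_zero, Real.rpow_zero, mul_one] at h2

end AuxXT3

/-- **Item XT3**. -/
theorem XT3_pf (h : S_dkS) : S_XT3 := by
  intro k
  refine ⟨5 * (2 ^ k) ^ 2, ?_, ?_⟩
  · have h2 : (1 : ℝ) ≤ 2 ^ k := one_le_pow₀ (by norm_num)
    nlinarith
  intro T hT N' b hb N hN
  have hN0 : (0 : ℝ) < N := by exact_mod_cast hN
  have hpt : ∀ v : ℝ, ‖(riemannZeta (2 + v * Complex.I) -
      Ds N (fun _ => 1) (2 + v * Complex.I)) *
        Ds N' b (2 + v * Complex.I)‖ ^ 2 ≤ ((N : ℝ)⁻¹ * 2 ^ k) ^ 2 := by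
    intro v
    refine pow_le_pow_left₀ (norm_nonneg _) ?_ 2
    rw [norm_mul]
    exact mul_le_mul (AuxTw3.diff_le hN v) (AuxXT3.poly_le h hb v) (norm_nonneg _)
      (by positivity)
  have hint := intervalIntegral.norm_integral_le_of_norm_le_const (a := T / 4) (b := 5 * T)
    (f := fun v : ℝ => ‖(riemannZeta (2 + v * Complex.I) -
      Ds N (fun _ => 1) (2 + v * Complex.I)) *
        Ds N' b (2 + v * Complex.I)‖ ^ 2)
    (C := ((N : ℝ)⁻¹ * 2 ^ k) ^ 2)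
    (fun v _ => by
      rw [Real.norm_eq_abs, abs_of_nonneg (sq_nonneg _)]
      exact hpt v)
  refine (le_abs_self _).trans (hint.trans ?_)
  rw [abs_of_nonneg (by linarith)]
  have h3 : ((N : ℝ)⁻¹ * 2 ^ k) ^ 2 = (2 ^ k) ^ 2 * ((N : ℝ) ^ 2)⁻¹ := by
    rw [mul_pow, inv_pow, mul_comm]
  rw [h3]
  have h4 : 0 ≤ ((2 : ℝ) ^ k) ^ 2 * ((N : ℝ) ^ 2)⁻¹ := by positivity
  calc (2 ^ k) ^ 2 * ((N : ℝ) ^ 2)⁻¹ * (5 * T - T / 4)
      ≤ (2 ^ k) ^ 2 * ((N : ℝ) ^ 2)⁻¹ * (5 * T) :=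
        mul_le_mul_of_nonneg_left (by linarith) h4
    _ = 5 * (2 ^ k) ^ 2 * T * ((N : ℝ) ^ 2)⁻¹ := by ring

end Pool.Agent.Work.MP_56b8f5_nt.HN
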