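import Pool.Agent.Work.MP_56b8f5_nt.HN.StmtsY
import Pool.Agent.Work.MP_56b8f5_nt.HN.I_NNp
import Pool.Agent.Work.MP_56b8f5_nt.HN.I_Low
import Pool.Agent.Work.MP_56b8f5_nt.HN.I_ApK

/-!
MP_56b8f5_nt, block HN, item YAw: approximation of a product of zetas at complex points in the mean square.
-/

set_option autoImplicit false

open MeasureTheory Set Filter Topology

noncomputable section

namespace Pool.Agent.Work.MP_56b8f5_nt.HN

open Pool.Agent.Work.MP_56b8f5_nt.EM Pool.Agent.Work.MP_56b8f5_nt.WM Pool.Agent.Work.MP_56b8f5_nt.SH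
open Pool.Agent.Work.MP_56b8f5_nt.HZ

namespace AuxYAw

theorem shift (g : ℝ → ℝ) (hg : Continuous g) (h0 : ∀ u, 0 ≤ g u) (E F : Set ℝ)
    (hE : MeasurableSet E) (hF : MeasurableSet F) (a p q : ℝ) (hFs : F ⊆ Icc p q)
    (hEF : ∀ t ∈ E, t + a ∈ F) : ∫ t in E, g (t + a) ≤ ∫ u in F, g u := by
  have hint : Integrable (F.indicator g) :=
    (integrable_indicator_iff hF).2 ((hg.integrableOn_Icc).mono_set hFs)
  rw [← integral_indicator hE, ← integral_indicator hF,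
    ← integral_add_right_eq_self (F.indicator g) a]
  refine integral_mono_of_nonneg (Eventually.of_forall fun t => ?_) (hint.comp_add_right a)
    (Eventually.of_forall fun t => ?_)
  · exact indicator_nonneg (fun u _ => h0 _) t
  · show E.indicator (fun t => g (t + a)) t ≤ F.indicator g (t + a)
    by_cases ht : t ∈ E
    · rw [indicator_of_mem ht, indicator_of_mem (hEF t ht)]
    · rw [indicator_of_notMem ht]
      exact indicator_nonneg (fun u _ => h0 _) _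

theorem prod_sq (k : ℕ) (hk : 1 ≤ k) (z : Fin k → ℂ) :
    ‖∏ j, z j‖ ^ 2 ≤ ∑ i, ‖z i‖ ^ (2 * k) := by
  have : Nonempty (Fin k) := ⟨⟨0, hk⟩⟩
  obtain ⟨i, -, hi⟩ := Finset.exists_max_image (Finset.univ : Finset (Fin k)) (fun j => ‖z j‖)
    Finset.univ_nonempty
  have h1 : ‖∏ j, z j‖ ≤ ‖z i‖ ^ k := by
    rw [norm_prod]
    calc ∏ j, ‖z j‖ ≤ ∏ _j : Fin k, ‖z i‖ :=
          Finset.prod_le_prod (fun j _ => norm_nonneg _) (fun j hj => hi j hj)
      _ = ‖z i‖ ^ k := by rw [Finset.prod_const, Finset.card_univ, Fintype.card_fin]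
  calc ‖∏ j, z j‖ ^ 2 ≤ (‖z i‖ ^ k) ^ 2 := pow_le_pow_left₀ (norm_nonneg _) h1 2
    _ = ‖z i‖ ^ (2 * k) := by rw [← pow_mul, mul_comm]
    _ ≤ ∑ i, ‖z i‖ ^ (2 * k) :=
        Finset.single_le_sum (f := fun i => ‖z i‖ ^ (2 * k)) (fun j _ => by positivity)
          (Finset.mem_univ i)

theorem cont_PW {k : ℕ} (T : ℝ) (s : Fin k → ℂ) : Continuous fun t : ℝ => PW T s t := by
  unfold PW
  refine continuous_finsetSum _ fun n hn => ?_
  have hn1 : (n : ℂ) ≠ 0 := by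
    have := (Finset.mem_Icc.1 hn).1
    exact_mod_cast (by omega : n ≠ 0)
  have h1 : Continuous fun t : ℝ => -((t : ℂ) * Complex.I) := by
    fun_prop
  exact continuous_const.mul (h1.const_cpow (Or.inl hn1))

theorem Ew_meas {k : ℕ} (h8 : S_ZsI) (T A C : ℝ) (hT : 1 ≤ T) (s : Fin k → ℂ) :
    MeasurableSet (Ew T A C s) := by
  have h1 : Ew T A C s = Icc 0 T ∩ ⋂ j, (fun t : ℝ => t + (s j).im) ⁻¹' Zs T A C := by
    ext t
    simp only [Ew, mem_ofPred_eq, mem_inter_iff, mem_Icc, mem_iInter, mem_preimage]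
    tauto
  rw [h1]
  exact measurableSet_Icc.inter (MeasurableSet.iInter fun j =>
    (h8.1 T A C hT).preimage (measurable_id.add_const (s j).im))

/-- integral of a nonnegative continuous function over a part of an interval -/
theorem sub_int (f : ℝ → ℝ) (hf : Continuous f) (h0 : ∀ t, 0 ≤ f t) (E : Set ℝ) (a b : ℝ)
    (hab : a ≤ b) (hE : E ⊆ Icc a b) : ∫ t in E, f t ≤ ∫ t in a..b, f t := by
  rw [intervalIntegral.integral_of_le hab, ← integral_Icc_eq_integral_Ioc]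
  exact setIntegral_mono_set hf.integrableOn_Icc (Eventually.of_forall fun t => h0 t)
    (Eventually.of_forall hE)

/-- the length `N₂` -/
theorem N2 (T : ℝ) (hT : 16 ≤ T) : 2 * (⌊T ^ (1 / 200 : ℝ)⌋₊ : ℝ) ^ 2 ≤ Real.sqrt T := by
  have hT0 : 0 < T := by linarith
  have h1 : (⌊T ^ (1 / 200 : ℝ)⌋₊ : ℝ) ≤ T ^ (1 / 200 : ℝ) := Nat.floor_le (by positivity)
  have h2 : (⌊T ^ (1 / 200 : ℝ)⌋₊ : ℝ) ^ 2 ≤ T ^ (1 / 100 : ℝ) := by
    calc (⌊T ^ (1 / 200 : ℝ)⌋₊ : ℝ) ^ 2 ≤ (T ^ (1 / 200 : ℝ)) ^ 2 :=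
          pow_le_pow_left₀ (Nat.cast_nonneg _) h1 2
      _ = T ^ (1 / 100 : ℝ) := by
          rw [← Real.rpow_natCast, ← Real.rpow_mul hT0.le]
          norm_num
  have h3 : (2 : ℝ) ≤ T ^ (49 / 100 : ℝ) := by
    have e1 : (16 : ℝ) ^ (1 / 4 : ℝ) = 2 := by
      rw [show (16 : ℝ) = 2 ^ (4 : ℝ) by norm_num, ← Real.rpow_mul (by norm_num)]
      norm_num
    calc (2 : ℝ) = 16 ^ (1 / 4 : ℝ) := e1.symm
      _ ≤ T ^ (1 / 4 : ℝ) := Real.rpow_le_rpow (by norm_num) hT (by norm_num)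
      _ ≤ T ^ (49 / 100 : ℝ) := Real.rpow_le_rpow_of_exponent_le (by linarith) (by norm_num)
  calc 2 * (⌊T ^ (1 / 200 : ℝ)⌋₊ : ℝ) ^ 2 ≤ T ^ (49 / 100 : ℝ) * T ^ (1 / 100 : ℝ) :=
        mul_le_mul h3 h2 (by positivity) (by positivity)
    _ = Real.sqrt T := by
        rw [← Real.rpow_add hT0, Real.sqrt_eq_rpow]
        norm_num

theorem SS_mono (k : ℕ) (η η' : ℝ) (h0 : 0 < η) (h : η ≤ η')
    (hs : Summable (fun n : ℕ => dk k n ^ 2 * (n : ℝ) ^ (-(1 + 2 * η)))) : SS k η' ≤ SS k η := by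
  have hle : ∀ n : ℕ, dk k n ^ 2 * (n : ℝ) ^ (-(1 + 2 * η')) ≤
      dk k n ^ 2 * (n : ℝ) ^ (-(1 + 2 * η)) := by
    intro n
    refine mul_le_mul_of_nonneg_left ?_ (by positivity)
    rcases Nat.eq_zero_or_pos n with rfl | hn
    · rw [Nat.cast_zero, Real.zero_rpow (by linarith), Real.zero_rpow (by linarith)]
    · exact Real.rpow_le_rpow_of_exponent_le (by exact_mod_cast hn) (by linarith)
  have hs' : Summable (fun n : ℕ => dk k n ^ 2 * (n : ℝ) ^ (-(1 + 2 * η'))) :=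
    Summable.of_nonneg_of_le (fun n => by positivity) hle hs
  exact hs'.tsum_le_tsum hle hs

theorem SS_eq (k : ℕ) (η : ℝ) :
    ∑' n : ℕ, dk k n ^ 2 * (n : ℝ) ^ (-(2 * (1 / 2 + η))) = SS k η := by
  unfold SS
  refine tsum_congr fun n => ?_
  have : -(2 * (1 / 2 + η)) = -(1 + 2 * η) := by ring
  rw [this]

theorem zeq (s : ℂ) (t : ℝ) : s + t * Complex.I = sp (s.re - 1 / 2) (t + s.im) := by
  unfold sp
  apply Complex.ext <;> simp <;> ring

/-- small heights -/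
theorem part2 (k : ℕ) (hk : 1 ≤ k) (T A C₀ CS S : ℝ) (y : Fin k → ℝ) (hy1 : ∀ j, y j ≤ 1 / 8)
    (x : Fin k → ℝ) (hx : ∀ j, |x j| ≤ Real.sqrt T) (P : ℝ → ℂ) (cP : Continuous P)
    (hZ : MeasurableSet (Zs T A C₀)) (E : Set ℝ) (hE : MeasurableSet E)
    (hE0 : ∀ t ∈ E, 0 ≤ t ∧ t ≤ 2 * Real.sqrt T ∧ ∀ j, t + x j ∈ Zs T A C₀)
    (hS : ∀ j, ∫ u in Zs T A C₀ ∩ Icc (-(3 * Real.sqrt T)) (3 * Real.sqrt T),
      ‖riemannZeta (sp (y j) u)‖ ^ (2 * k) ≤ CS * Real.sqrt T * S)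
    (hP : ∫ t in (0 : ℝ)..(2 * Real.sqrt T), ‖P t‖ ^ 2 ≤ 3 * Real.sqrt T * S) :
    ∫ t in E, ‖(∏ j, riemannZeta (sp (y j) (t + x j))) - P t‖ ^ 2 ≤
      (2 * (k * CS) + 6) * (Real.sqrt T * S) := by
  have hs0 : 0 ≤ Real.sqrt T := Real.sqrt_nonneg T
  have hEI : E ⊆ Icc 0 (2 * Real.sqrt T) := fun t ht => ⟨(hE0 t ht).1, (hE0 t ht).2.1⟩
  have hI : ∀ f : ℝ → ℝ, Continuous f → IntegrableOn f E := fun f hf =>
    (hf.integrableOn_Icc).mono_set hEI
  have cz : ∀ j, Continuous fun u : ℝ => riemannZeta (sp (y j) u) := fun j =>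
    AuxLow.cont_zeta (hy1 j)
  have czj : ∀ j, Continuous fun t : ℝ => riemannZeta (sp (y j) (t + x j)) := fun j =>
    (cz j).comp (continuous_add_const (x j))
  have cprod : Continuous fun t : ℝ => ∏ j, riemannZeta (sp (y j) (t + x j)) :=
    continuous_finsetProd _ fun j _ => czj j
  have ca : ∀ i, Continuous fun t : ℝ => ‖riemannZeta (sp (y i) (t + x i))‖ ^ (2 * k) := fun i =>
    (czj i).norm.pow _
  have cb : Continuous fun t : ℝ => ‖P t‖ ^ 2 := cP.norm.pow _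
  have cf : Continuous fun t : ℝ =>
      ‖(∏ j, riemannZeta (sp (y j) (t + x j))) - P t‖ ^ 2 :=
    (cprod.sub cP).norm.pow _
  have cs : Continuous fun t : ℝ => ∑ i, ‖riemannZeta (sp (y i) (t + x i))‖ ^ (2 * k) :=
    continuous_finsetSum _ fun i _ => ca i
  have hpt : ∀ t : ℝ, ‖(∏ j, riemannZeta (sp (y j) (t + x j))) - P t‖ ^ 2 ≤
      2 * (∑ i, ‖riemannZeta (sp (y i) (t + x i))‖ ^ (2 * k)) + 2 * ‖P t‖ ^ 2 := by
    intro t
    have e1 := AuxApK.sq_add (∏ j, riemannZeta (sp (y j) (t + x j))) (P t) 0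
    rw [sub_zero, sub_zero] at e1
    have e2 := prod_sq k hk (fun j => riemannZeta (sp (y j) (t + x j)))
    linarith
  have h3 : ∫ t in E, ‖(∏ j, riemannZeta (sp (y j) (t + x j))) - P t‖ ^ 2 ≤
      2 * (∑ i, ∫ t in E, ‖riemannZeta (sp (y i) (t + x i))‖ ^ (2 * k)) +
      2 * ∫ t in E, ‖P t‖ ^ 2 := by
    rw [← integral_finsetSum _ (fun i _ => hI _ (ca i)), ← integral_const_mul,
      ← integral_const_mul, ← integral_add ((hI _ cs).const_mul 2) ((hI _ cb).const_mul 2)]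
    exact setIntegral_mono (hI _ cf) (((hI _ cs).const_mul 2).add ((hI _ cb).const_mul 2)) hpt
  have h4 : ∀ i, ∫ t in E, ‖riemannZeta (sp (y i) (t + x i))‖ ^ (2 * k) ≤
      CS * Real.sqrt T * S := by
    intro i
    refine le_trans (shift (fun u => ‖riemannZeta (sp (y i) u)‖ ^ (2 * k)) ((cz i).norm.pow _)
      (fun u => by positivity) E (Zs T A C₀ ∩ Icc (-(3 * Real.sqrt T)) (3 * Real.sqrt T)) hE
      (hZ.inter measurableSet_Icc) (x i) (-(3 * Real.sqrt T)) (3 * Real.sqrt T)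
      inter_subset_right ?_) (hS i)
    intro t ht
    obtain ⟨a1, a2, a3⟩ := hE0 t ht
    obtain ⟨b1, b2⟩ := abs_le.1 (hx i)
    exact ⟨a3 i, by constructor <;> linarith⟩
  have h5 : ∫ t in E, ‖P t‖ ^ 2 ≤ 3 * Real.sqrt T * S :=
    (sub_int _ cb (fun t => by positivity) E 0 (2 * Real.sqrt T) (by positivity) hEI).trans hP
  have h6 : ∑ i, ∫ t in E, ‖riemannZeta (sp (y i) (t + x i))‖ ^ (2 * k) ≤
      k * (CS * Real.sqrt T * S) := by
    calc ∑ i, ∫ t in E, ‖riemannZeta (sp (y i) (t + x i))‖ ^ (2 * k) ≤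
        ∑ _i : Fin k, CS * Real.sqrt T * S := Finset.sum_le_sum fun i _ => h4 i
      _ = k * (CS * Real.sqrt T * S) := by
          rw [Finset.sum_const, Finset.card_univ, Fintype.card_fin, nsmul_eq_mul]
  calc ∫ t in E, ‖(∏ j, riemannZeta (sp (y j) (t + x j))) - P t‖ ^ 2 ≤
      2 * (k * (CS * Real.sqrt T * S)) + 2 * (3 * Real.sqrt T * S) := by linarith
    _ = (2 * (k * CS) + 6) * (Real.sqrt T * S) := by ring

/-- large heights -/
theorem part1 (k : ℕ) (h1 : S_PrJ) (hk : 1 ≤ k) (T A C₀ V W Q μ : ℝ) (N : ℕ) (hT : 16 ≤ T)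
    (y : Fin k → ℝ) (hy1 : ∀ j, y j ≤ 1 / 8) (x : Fin k → ℝ) (hx : ∀ j, |x j| ≤ Real.sqrt T)
    (P : ℝ → ℂ) (cP : Continuous P) (hμ0 : 0 < μ) (hμ1 : μ ≤ 1)
    (hZ : MeasurableSet (Zs T A C₀)) (E : Set ℝ) (hE : MeasurableSet E)
    (hE0 : ∀ t ∈ E, 2 * Real.sqrt T ≤ t ∧ t ≤ T ∧ ∀ j, t + x j ∈ Zs T A C₀)
    (hV : ∀ j, ∫ u in Zs T A C₀ ∩ Icc (Real.sqrt T) (2 * T),
      ‖riemannZeta (sp (y j) u) - DN N (y j) u‖ ^ (2 * k) ≤ V)
    (hW : ∀ j, ∫ u in (Real.sqrt T)..(2 * T), ‖DN N (y j) u‖ ^ (2 * k) ≤ W)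
    (hP : ∫ t in (0 : ℝ)..T, ‖(∏ j, DN N (y j) (t + x j)) - P t‖ ^ 2 ≤ Q) :
    ∫ t in E, ‖(∏ j, riemannZeta (sp (y j) (t + x j))) - P t‖ ^ 2 ≤
      2 * (2 * 4 ^ k * (k + 1) * ((1 / μ) ^ (k * (k - 1)) * (k * V) + μ ^ k * (k * W))) +
        2 * Q := by
  have hs0 : 0 ≤ Real.sqrt T := Real.sqrt_nonneg T
  have hsT : Real.sqrt T ≤ T := by
    have h3 := Real.sq_sqrt (show 0 ≤ T by linarith)
    have h4 : 1 ≤ Real.sqrt T := by
      rw [show (1 : ℝ) = Real.sqrt 1 by simp]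
      exact Real.sqrt_le_sqrt (by linarith)
    nlinarith
  have hEI : E ⊆ Icc 0 T := fun t ht => ⟨by linarith [(hE0 t ht).1], (hE0 t ht).2.1⟩
  have hI : ∀ f : ℝ → ℝ, Continuous f → IntegrableOn f E := fun f hf =>
    (hf.integrableOn_Icc).mono_set hEI
  have cz : ∀ j, Continuous fun u : ℝ => riemannZeta (sp (y j) u) := fun j =>
    AuxLow.cont_zeta (hy1 j)
  have cD : ∀ j, Continuous fun u : ℝ => DN N (y j) u := fun j => AuxLow.cont_DN N (y j)
  have czj : ∀ j, Continuous fun t : ℝ => riemannZeta (sp (y j) (t + x j)) := fun j =>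
    (cz j).comp (continuous_add_const (x j))
  have cDj : ∀ j, Continuous fun t : ℝ => DN N (y j) (t + x j) := fun j =>
    (cD j).comp (continuous_add_const (x j))
  have cprod : Continuous fun t : ℝ => ∏ j, riemannZeta (sp (y j) (t + x j)) :=
    continuous_finsetProd _ fun j _ => czj j
  have cprodD : Continuous fun t : ℝ => ∏ j, DN N (y j) (t + x j) :=
    continuous_finsetProd _ fun j _ => cDj j
  have ca : ∀ i, Continuous fun t : ℝ =>
      ‖riemannZeta (sp (y i) (t + x i)) - DN N (y i) (t + x i)‖ ^ (2 * k) := fun i =>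
    ((czj i).sub (cDj i)).norm.pow _
  have cb : ∀ i, Continuous fun t : ℝ => ‖DN N (y i) (t + x i)‖ ^ (2 * k) :=
    fun i => (cDj i).norm.pow _
  have cc : Continuous fun t : ℝ => ‖(∏ j, DN N (y j) (t + x j)) - P t‖ ^ 2 :=
    (cprodD.sub cP).norm.pow _
  have cf : Continuous fun t : ℝ =>
      ‖(∏ j, riemannZeta (sp (y j) (t + x j))) - P t‖ ^ 2 :=
    (cprod.sub cP).norm.pow _
  have csa : Continuous fun t : ℝ =>
      ∑ i, ‖riemannZeta (sp (y i) (t + x i)) - DN N (y i) (t + x i)‖ ^ (2 * k) :=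
    continuous_finsetSum _ fun i _ => ca i
  have csb : Continuous fun t : ℝ => ∑ i, ‖DN N (y i) (t + x i)‖ ^ (2 * k) :=
    continuous_finsetSum _ fun i _ => cb i
  obtain ⟨K, hK⟩ : ∃ K : ℝ, K = 2 * (2 * 4 ^ k * (k + 1)) * (1 / μ) ^ (k * (k - 1)) := ⟨_, rfl⟩
  obtain ⟨K', hK'⟩ : ∃ K' : ℝ, K' = 2 * (2 * 4 ^ k * (k + 1)) * μ ^ k := ⟨_, rfl⟩
  have hK0 : 0 ≤ K := by rw [hK]; positivity
  have hK'0 : 0 ≤ K' := by rw [hK']; positivity
  have hpt : ∀ t : ℝ, ‖(∏ j, riemannZeta (sp (y j) (t + x j))) - P t‖ ^ 2 ≤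
      (K * (∑ i, ‖riemannZeta (sp (y i) (t + x i)) - DN N (y i) (t + x i)‖ ^ (2 * k)) +
        K' * ∑ i, ‖DN N (y i) (t + x i)‖ ^ (2 * k)) +
      2 * ‖(∏ j, DN N (y j) (t + x j)) - P t‖ ^ 2 := by
    intro t
    have e1 := AuxApK.sq_add (∏ j, riemannZeta (sp (y j) (t + x j))) (P t)
      (∏ j, DN N (y j) (t + x j))
    have e2 := h1 k hk μ (fun j => riemannZeta (sp (y j) (t + x j)))
      (fun j => DN N (y j) (t + x j)) hμ0 hμ1
    rw [norm_sub_rev (P t)] at e1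
    rw [hK, hK']
    linarith
  have cG : Continuous fun t : ℝ =>
      K * (∑ i, ‖riemannZeta (sp (y i) (t + x i)) - DN N (y i) (t + x i)‖ ^ (2 * k)) +
        K' * ∑ i, ‖DN N (y i) (t + x i)‖ ^ (2 * k) :=
    (continuous_const.mul csa).add (continuous_const.mul csb)
  have h3 : ∫ t in E, ‖(∏ j, riemannZeta (sp (y j) (t + x j))) - P t‖ ^ 2 ≤
      (K * (∑ i, ∫ t in E,
          ‖riemannZeta (sp (y i) (t + x i)) - DN N (y i) (t + x i)‖ ^ (2 * k)) +
        K' * ∑ i, ∫ t in E, ‖DN N (y i) (t + x i)‖ ^ (2 * k)) +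
      2 * ∫ t in E, ‖(∏ j, DN N (y j) (t + x j)) - P t‖ ^ 2 := by
    rw [← integral_finsetSum _ (fun i _ => hI _ (ca i)),
      ← integral_finsetSum _ (fun i _ => hI _ (cb i)),
      ← integral_const_mul, ← integral_const_mul, ← integral_const_mul,
      ← integral_add ((hI _ csa).const_mul K) ((hI _ csb).const_mul K'),
      ← integral_add (hI _ cG) ((hI _ cc).const_mul 2)]
    exact setIntegral_mono (hI _ cf) ((hI _ cG).add ((hI _ cc).const_mul 2)) hpt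
  have hshift : ∀ i : Fin k, ∀ t ∈ E, t + x i ∈ Zs T A C₀ ∧ Real.sqrt T ≤ t + x i ∧
      t + x i ≤ 2 * T := by
    intro i t ht
    obtain ⟨a1, a2, a3⟩ := hE0 t ht
    obtain ⟨b1, b2⟩ := abs_le.1 (hx i)
    exact ⟨a3 i, by linarith, by linarith⟩
  have h4 : ∀ i, ∫ t in E, ‖riemannZeta (sp (y i) (t + x i)) - DN N (y i) (t + x i)‖ ^ (2 * k) ≤
      V := by
    intro i
    refine le_trans (shift (fun u => ‖riemannZeta (sp (y i) u) - DN N (y i) u‖ ^ (2 * k))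
      (((cz i).sub (cD i)).norm.pow _) (fun u => by positivity) E
      (Zs T A C₀ ∩ Icc (Real.sqrt T) (2 * T)) hE
      (hZ.inter measurableSet_Icc) (x i) (Real.sqrt T) (2 * T) inter_subset_right ?_) (hV i)
    intro t ht
    obtain ⟨a1, a2, a3⟩ := hshift i t ht
    exact ⟨a1, a2, a3⟩
  have h5 : ∀ i, ∫ t in E, ‖DN N (y i) (t + x i)‖ ^ (2 * k) ≤ W := by
    intro i
    have e1 := shift (fun u => ‖DN N (y i) u‖ ^ (2 * k)) ((cD i).norm.pow _)
      (fun u => by positivity) E (Icc (Real.sqrt T) (2 * T)) hE measurableSet_Icc (x i)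
      (Real.sqrt T) (2 * T) Subset.rfl (fun t ht => (hshift i t ht).2)
    refine e1.trans ?_
    have e3 := hW i
    rw [intervalIntegral.integral_of_le (by linarith), ← integral_Icc_eq_integral_Ioc] at e3
    exact e3
  have h6 : ∫ t in E, ‖(∏ j, DN N (y j) (t + x j)) - P t‖ ^ 2 ≤ Q :=
    (sub_int _ cc (fun t => by positivity) E 0 T (by linarith) hEI).trans hP
  have h7 : ∑ i, ∫ t in E,
      ‖riemannZeta (sp (y i) (t + x i)) - DN N (y i) (t + x i)‖ ^ (2 * k) ≤ k * V := by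
    calc ∑ i, ∫ t in E, ‖riemannZeta (sp (y i) (t + x i)) - DN N (y i) (t + x i)‖ ^ (2 * k) ≤
        ∑ _i : Fin k, V := Finset.sum_le_sum fun i _ => h4 i
      _ = k * V := by rw [Finset.sum_const, Finset.card_univ, Fintype.card_fin, nsmul_eq_mul]
  have h8 : ∑ i, ∫ t in E, ‖DN N (y i) (t + x i)‖ ^ (2 * k) ≤ k * W := by
    calc ∑ i, ∫ t in E, ‖DN N (y i) (t + x i)‖ ^ (2 * k) ≤ ∑ _i : Fin k, W :=
          Finset.sum_le_sum fun i _ => h5 i
      _ = k * W := by rw [Finset.sum_const, Finset.card_univ, Fintype.card_fin, nsmul_eq_mul]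
  have h9 := mul_le_mul_of_nonneg_left h7 hK0
  have h10 := mul_le_mul_of_nonneg_left h8 hK'0
  calc ∫ t in E, ‖(∏ j, riemannZeta (sp (y j) (t + x j))) - P t‖ ^ 2 ≤
      (K * (k * V) + K' * (k * W)) + 2 * Q := by linarith
    _ = 2 * (2 * 4 ^ k * (k + 1) * ((1 / μ) ^ (k * (k - 1)) * (k * V) + μ ^ k * (k * W))) +
        2 * Q := by rw [hK, hK']; ring

end AuxYAw

open AuxYAw in
theorem YAw_pf (h1 : S_PrJ) (h2 : S_PwD) (h3 : S_DkM) (h4 : S_YAv) (h6 : S_YSm) (h7 : S_SSb)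
    (h8 : S_ZsI) : S_YAw := by
  intro k hk C₀ hC₀
  obtain ⟨CP, hCP, hP⟩ := h2 k
  obtain ⟨cV, CV, TV, hcV, hCV, hTV, hV⟩ := h4 k hk C₀ (by linarith)
  obtain ⟨cS, CS, TS, hcS, hCS, hTS, hS⟩ := h6 k hk C₀ (by linarith)
  obtain ⟨CB, hCB, hB⟩ := h7 k
  have hk0 : (0 : ℝ) < k := by exact_mod_cast hk
  have hk1 : (1 : ℝ) ≤ k := by exact_mod_cast hk
  obtain ⟨γ, hγ⟩ : ∃ γ : ℝ, γ = 1 / (400 * (k : ℝ)) := ⟨_, rfl⟩
  have hγ0 : 0 < γ := by rw [hγ]; positivity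
  have hcV2 : 0 < cV / (2 * k) := by positivity
  obtain ⟨c, hc⟩ : ∃ c : ℝ, c = min (min (cV / (2 * k)) cS) (min γ 1) := ⟨_, rfl⟩
  have hc0 : 0 < c := by rw [hc]; exact lt_min (lt_min hcV2 hcS) (lt_min hγ0 one_pos)
  have hc1 : c ≤ cV / (2 * k) := by rw [hc]; exact (min_le_left _ _).trans (min_le_left _ _)
  have hc2 : c ≤ cS := by rw [hc]; exact (min_le_left _ _).trans (min_le_right _ _)
  have hc3 : c ≤ γ := by rw [hc]; exact (min_le_right _ _).trans (min_le_left _ _)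
  have hc4 : c ≤ 1 := by rw [hc]; exact (min_le_right _ _).trans (min_le_right _ _)
  have hc5 : c ≤ cV / 2 := by
    refine hc1.trans ?_
    exact div_le_div_of_nonneg_left hcV.le (by norm_num) (by linarith)
  have hc6 : c ≤ cV := by linarith
  refine ⟨c, 2 * (2 * 4 ^ k * (k + 1) * (k * CV + k * 4)) + 2 * (4 * CP) +
    (2 * (k * CS) + 6), max TV (max TS 16), hc0, ?_, ?_, ?_⟩
  · have e1 : (0 : ℝ) ≤ 2 * (2 * 4 ^ k * (k + 1) * (k * CV + k * 4)) := by positivity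
    have e2 : (0 : ℝ) ≤ k * CS := by positivity
    linarith
  · exact hTV.trans (le_max_left _ _)
  intro T hT σ A hσ hA1 hA2 s hs hx
  obtain ⟨η, rfl⟩ : ∃ η : ℝ, σ = 1 / 2 + η := ⟨σ - 1 / 2, by ring⟩
  have eη : (1 / 2 + η : ℝ) - 1 / 2 = η := by ring
  rw [eη] at hA2 hs ⊢
  have hη1 : η ≤ 1 / 8 := by linarith
  have hTV' : TV ≤ T := (le_max_left _ _).trans hT
  have hTS' : TS ≤ T := ((le_max_left _ _).trans (le_max_right _ _)).trans hT
  have hT16 : 16 ≤ T := ((le_max_right _ _).trans (le_max_right _ _)).trans hT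
  have hT0 : 0 < T := by linarith
  have hL0 : 0 < Real.log T := Real.log_pos (by linarith)
  have hX0 : 0 < η * Real.log T := by
    by_contra hcon
    have := mul_nonpos_of_nonneg_of_nonpos hc0.le (not_lt.1 hcon)
    linarith
  have hη0 : 0 < η := by
    by_contra hcon
    have := mul_nonpos_of_nonpos_of_nonneg (not_lt.1 hcon) hL0.le
    linarith
  obtain ⟨X, hX⟩ : ∃ X : ℝ, X = η * Real.log T := ⟨_, rfl⟩
  rw [← hX] at hX0 hA2 ⊢
  rw [SS_eq]
  obtain ⟨hsum, hSS1, -, -⟩ := hB η hη0 hη1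
  have hSS0 : 0 ≤ SS k η := by linarith
  -- the real parts
  have hy0 : ∀ j, η ≤ (s j).re - 1 / 2 := fun j => by linarith [(hs j).1]
  have hy1 : ∀ j, (s j).re - 1 / 2 ≤ 1 / 8 := fun j => by linarith [(hs j).2]
  have hXj : ∀ j, X ≤ ((s j).re - 1 / 2) * Real.log T := fun j => by
    rw [hX]
    exact mul_le_mul_of_nonneg_right (hy0 j) hL0.le
  have hSj : ∀ j, SS k ((s j).re - 1 / 2) ≤ SS k η := fun j => SS_mono k η _ hη0 (hy0 j) hsum
  have hs0 : 0 ≤ Real.sqrt T := Real.sqrt_nonneg T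
  have hs4 : 4 ≤ Real.sqrt T := by
    rw [show (4 : ℝ) = Real.sqrt 16 by
      rw [show (16 : ℝ) = 4 ^ 2 by norm_num]; exact (Real.sqrt_sq (by norm_num)).symm]
    exact Real.sqrt_le_sqrt hT16
  have hsq : Real.sqrt T ^ 2 = T := Real.sq_sqrt hT0.le
  have hsT : Real.sqrt T ≤ T := by nlinarith
  -- the length
  obtain ⟨N, n1, n2, n3⟩ := NNp_pf k hk (Real.sqrt T) (by linarith)
  have n3' : (N : ℝ) ^ (-η) ≤ 2 * Real.exp (-(2 * γ * X)) := by
    refine (n3 η hη0.le (by linarith)).trans (le_of_eq ?_)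
    rw [Real.log_sqrt hT0.le, hγ, hX]
    congr 2
    field_simp
    ring
  have n3'' : ∀ j, (N : ℝ) ^ (-((s j).re - 1 / 2)) ≤
      2 * Real.exp (-(((s j).re - 1 / 2) * Real.log T / (200 * k))) := by
    intro j
    refine (n3 ((s j).re - 1 / 2) (hη0.le.trans (hy0 j)) (by linarith [hy1 j])).trans
      (le_of_eq ?_)
    rw [Real.log_sqrt hT0.le]
    congr 2
    field_simp
    ring
  have n4 : ((N ^ k : ℕ) : ℝ) ^ 200 ≤ T := by
    calc ((N ^ k : ℕ) : ℝ) ^ 200 = (((N ^ k : ℕ) : ℝ) ^ 100) ^ 2 := by rw [← pow_mul]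
      _ ≤ Real.sqrt T ^ 2 := pow_le_pow_left₀ (by positivity) n2 2
      _ = T := hsq
  have n5 : N ^ k ≤ ⌊T ^ (1 / 200 : ℝ)⌋₊ := by
    refine Nat.le_floor ?_
    have e1 : (((N ^ k : ℕ) : ℝ) ^ 200) ^ (((200 : ℕ) : ℝ)⁻¹) = ((N ^ k : ℕ) : ℝ) :=
      Real.pow_rpow_inv_natCast (Nat.cast_nonneg _) (by norm_num)
    have e2 : (((200 : ℕ) : ℝ)⁻¹) = (1 / 200 : ℝ) := by norm_num
    rw [e2] at e1
    rw [← e1]
    exact Real.rpow_le_rpow (by positivity) n4 (by norm_num)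
  have n6 : ((N ^ k : ℕ) : ℝ) ^ 2 ≤ T := by
    have e1 : (1 : ℝ) ≤ ((N ^ k : ℕ) : ℝ) := by
      exact_mod_cast Nat.one_le_pow k N n1
    exact (pow_le_pow_right₀ e1 (by norm_num)).trans n4
  -- the moments
  have hVV : ∀ j, ∫ u in Zs T A C₀ ∩ Icc (Real.sqrt T) (2 * T),
      ‖riemannZeta (sp ((s j).re - 1 / 2) u) - DN N ((s j).re - 1 / 2) u‖ ^ (2 * k) ≤
      CV * Real.exp (-(cV * X)) * (T * SS k η) := by
    intro j
    have e0 : c * X ≤ cV * (((s j).re - 1 / 2) * Real.log T) :=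
      mul_le_mul hc6 (hXj j) hX0.le hcV.le
    refine (hV T hTV' _ A (hy1 j) hA1 (hA2.trans e0) N n1 n4 (n3'' j)).trans ?_
    have e1 : Real.exp (-(cV * (((s j).re - 1 / 2) * Real.log T))) ≤ Real.exp (-(cV * X)) :=
      Real.exp_le_exp.2 (neg_le_neg (mul_le_mul_of_nonneg_left (hXj j) hcV.le))
    have e2 : T * SS k ((s j).re - 1 / 2) ≤ T * SS k η :=
      mul_le_mul_of_nonneg_left (hSj j) hT0.le
    have e3 : 0 ≤ T * SS k η := mul_nonneg hT0.le hSS0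
    calc CV * Real.exp (-(cV * (((s j).re - 1 / 2) * Real.log T))) *
          (T * SS k ((s j).re - 1 / 2)) ≤
        CV * Real.exp (-(cV * (((s j).re - 1 / 2) * Real.log T))) * (T * SS k η) :=
          mul_le_mul_of_nonneg_left e2 (by positivity)
      _ ≤ CV * Real.exp (-(cV * X)) * (T * SS k η) :=
          mul_le_mul_of_nonneg_right (mul_le_mul_of_nonneg_left e1 (by linarith)) e3
  have hWW : ∀ j, ∫ u in (Real.sqrt T)..(2 * T), ‖DN N ((s j).re - 1 / 2) u‖ ^ (2 * k) ≤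
      4 * (T * SS k η) := by
    intro j
    refine (h3 k N ((s j).re - 1 / 2) (Real.sqrt T) (2 * T) n1 (lt_of_lt_of_le hη0 (hy0 j))
      (hy1 j) (by linarith)).trans ?_
    have e1 : 2 * T - Real.sqrt T + 2 * ((N ^ k : ℕ) : ℝ) ^ 2 ≤ 4 * T := by linarith
    have e2 : 0 ≤ 2 * T - Real.sqrt T + 2 * ((N ^ k : ℕ) : ℝ) ^ 2 := by
      have : 0 ≤ ((N ^ k : ℕ) : ℝ) ^ 2 := by positivity
      linarith
    calc (2 * T - Real.sqrt T + 2 * ((N ^ k : ℕ) : ℝ) ^ 2) * SS k ((s j).re - 1 / 2) ≤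
        (2 * T - Real.sqrt T + 2 * ((N ^ k : ℕ) : ℝ) ^ 2) * SS k η :=
          mul_le_mul_of_nonneg_left (hSj j) e2
      _ ≤ (4 * T) * SS k η := mul_le_mul_of_nonneg_right e1 hSS0
      _ = 4 * (T * SS k η) := by ring
  -- the polynomial
  have hN2 := N2 T hT16
  have hPP : ∫ t in (0 : ℝ)..T,
      ‖(∏ j, DN N ((s j).re - 1 / 2) (t + (s j).im)) - PW T s t‖ ^ 2 ≤
      (4 * CP) * Real.exp (-(c * X)) * (T * SS k η) := by
    have e1 := (hP η hη0 hη1 T (by linarith) s (fun j => (hs j).1) 0 T hT0.le).2.1 N n1 n5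
    refine e1.trans ?_
    have e7 : Real.exp (-(2 * γ * X)) ≤ Real.exp (-(c * X)) := by
      refine Real.exp_le_exp.2 (neg_le_neg ?_)
      exact mul_le_mul_of_nonneg_right (by linarith) hX0.le
    have e2 : T - 0 + 2 * (⌊T ^ (1 / 200 : ℝ)⌋₊ : ℝ) ^ 2 ≤ 2 * T := by linarith
    calc (T - 0 + 2 * (⌊T ^ (1 / 200 : ℝ)⌋₊ : ℝ) ^ 2) * (CP * (N : ℝ) ^ (-η) * SS k η) ≤
        (2 * T) * (CP * (2 * Real.exp (-(c * X))) * SS k η) := by
          refine mul_le_mul e2 (mul_le_mul_of_nonneg_right (mul_le_mul_of_nonneg_left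
            (n3'.trans (by linarith)) (by linarith)) hSS0) (by positivity) (by positivity)
      _ = (4 * CP) * Real.exp (-(c * X)) * (T * SS k η) := by ring
  have hPS : ∫ t in (0 : ℝ)..(2 * Real.sqrt T), ‖PW T s t‖ ^ 2 ≤
      3 * Real.sqrt T * SS k η := by
    have e2 := (hP η hη0 hη1 T (by linarith) s (fun j => (hs j).1) 0 (2 * Real.sqrt T)
      (by positivity)).1
    refine e2.trans (mul_le_mul_of_nonneg_right ?_ hSS0)
    linarith
  -- small heights of zeta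
  have hSS' : ∀ j, ∫ u in Zs T A C₀ ∩ Icc (-(3 * Real.sqrt T)) (3 * Real.sqrt T),
      ‖riemannZeta (sp ((s j).re - 1 / 2) u)‖ ^ (2 * k) ≤ CS * Real.sqrt T * SS k η := by
    intro j
    have e0 : c * X ≤ cS * (((s j).re - 1 / 2) * Real.log T) :=
      mul_le_mul hc2 (hXj j) hX0.le hcS.le
    have e1 := hS T hTS' (1 / 2 + ((s j).re - 1 / 2)) A (by linarith [hy1 j]) hA1
      (by rw [show 1 / 2 + ((s j).re - 1 / 2) - 1 / 2 = (s j).re - 1 / 2 by ring]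
          exact hA2.trans e0)
    rw [SS_eq] at e1
    exact e1.trans (mul_le_mul_of_nonneg_left (hSj j) (by positivity))
  -- the parameter
  obtain ⟨μ, hμ⟩ : ∃ μ : ℝ, μ = Real.exp (-(cV * X / (2 * k ^ 2))) := ⟨_, rfl⟩
  have hμ0 : 0 < μ := by rw [hμ]; exact Real.exp_pos _
  have hμ1 : μ ≤ 1 := by
    rw [hμ]
    refine Real.exp_le_one_iff.2 (neg_nonpos.2 ?_)
    positivity
  have hμk : μ ^ k ≤ Real.exp (-(c * X)) := by
    rw [hμ, ← Real.exp_nat_mul]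
    refine Real.exp_le_exp.2 ?_
    have e1 : (k : ℝ) * -(cV * X / (2 * k ^ 2)) = -(cV / (2 * k) * X) := by
      field_simp
    rw [e1]
    exact neg_le_neg (mul_le_mul_of_nonneg_right hc1 hX0.le)
  have hμi : (1 / μ) ^ (k * (k - 1)) ≤ Real.exp (cV * X / 2) := by
    rw [hμ, one_div, ← Real.exp_neg, neg_neg, ← Real.exp_nat_mul]
    refine Real.exp_le_exp.2 ?_
    have e1 : ((k * (k - 1) : ℕ) : ℝ) ≤ (k : ℝ) ^ 2 := by
      have : k * (k - 1) ≤ k ^ 2 := by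
        rw [pow_two]
        exact Nat.mul_le_mul_left k (Nat.sub_le k 1)
      exact_mod_cast this
    calc ((k * (k - 1) : ℕ) : ℝ) * (cV * X / (2 * k ^ 2)) ≤ (k : ℝ) ^ 2 * (cV * X / (2 * k ^ 2)) :=
          mul_le_mul_of_nonneg_right e1 (by positivity)
      _ = cV * X / 2 := by field_simp
  -- the sets
  have hEw := Ew_meas h8 T A C₀ (by linarith) s
  have hZ := h8.1 T A C₀ (by linarith)
  have hP1 := part1 k h1 hk T A C₀ _ _ _ μ N hT16 (fun j => (s j).re - 1 / 2) hy1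
    (fun j => (s j).im) hx (fun t => PW T s t) (cont_PW T s) hμ0 hμ1 hZ
    (Ew T A C₀ s ∩ Ici (2 * Real.sqrt T)) (hEw.inter measurableSet_Ici)
    (fun t ht => ⟨ht.2, ht.1.2.1, ht.1.2.2⟩) hVV hWW hPP
  have hP2 := part2 k hk T A C₀ CS (SS k η) (fun j => (s j).re - 1 / 2) hy1
    (fun j => (s j).im) hx (fun t => PW T s t) (cont_PW T s) hZ
    (Ew T A C₀ s \ Ici (2 * Real.sqrt T)) (hEw.diff measurableSet_Ici)
    (fun t ht => ⟨ht.1.1, (not_le.1 ht.2).le, ht.1.2.2⟩) hSS' hPS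
  have hcont : Continuous fun t : ℝ =>
      ‖(∏ j, riemannZeta (sp ((s j).re - 1 / 2) (t + (s j).im))) - PW T s t‖ ^ 2 := by
    have czj : ∀ j, Continuous fun t : ℝ =>
        riemannZeta (sp ((s j).re - 1 / 2) (t + (s j).im)) := fun j =>
      (AuxLow.cont_zeta (hy1 j)).comp (continuous_add_const (s j).im)
    exact ((continuous_finsetProd _ fun j _ => czj j).sub (cont_PW T s)).norm.pow _
  have hint : IntegrableOn (fun t : ℝ =>
      ‖(∏ j, riemannZeta (sp ((s j).re - 1 / 2) (t + (s j).im))) - PW T s t‖ ^ 2)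
      (Ew T A C₀ s) :=
    (hcont.integrableOn_Icc (a := 0) (b := T)).mono_set fun t ht => ⟨ht.1, ht.2.1⟩
  have hsplit := integral_inter_add_sdiff (μ := volume)
    (measurableSet_Ici (a := 2 * Real.sqrt T)) hint
  -- the square root of `T`
  have hroot : Real.sqrt T ≤ T * Real.exp (-(c * X)) := by
    have e1 : Real.sqrt T = Real.exp (Real.log T / 2) := by
      rw [← Real.log_sqrt hT0.le, Real.exp_log (by linarith)]
    have e2 : T * Real.exp (-(c * X)) = Real.exp (Real.log T + -(c * X)) := by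
      rw [Real.exp_add, Real.exp_log hT0]
    rw [e1, e2]
    refine Real.exp_le_exp.2 ?_
    have e3 : c * X ≤ 1 * X := mul_le_mul_of_nonneg_right hc4 hX0.le
    have e4 : η * Real.log T ≤ 1 / 8 * Real.log T := mul_le_mul_of_nonneg_right hη1 hL0.le
    linarith
  have hTS0 : 0 ≤ T * SS k η := mul_nonneg hT0.le hSS0
  have hP1' : ∫ t in Ew T A C₀ s ∩ Ici (2 * Real.sqrt T),
      ‖(∏ j, riemannZeta (sp ((s j).re - 1 / 2) (t + (s j).im))) - PW T s t‖ ^ 2 ≤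
      (2 * (2 * 4 ^ k * (k + 1) * (k * CV + k * 4)) + 2 * (4 * CP)) *
        (Real.exp (-(c * X)) * (T * SS k η)) := by
    refine hP1.trans ?_
    have e1 : (1 / μ) ^ (k * (k - 1)) * (k * (CV * Real.exp (-(cV * X)) * (T * SS k η))) ≤
        k * CV * (Real.exp (-(c * X)) * (T * SS k η)) := by
      have e2 : Real.exp (cV * X / 2) * Real.exp (-(cV * X)) ≤ Real.exp (-(c * X)) := by
        rw [← Real.exp_add]
        refine Real.exp_le_exp.2 ?_
        have := mul_le_mul_of_nonneg_right hc5 hX0.le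
        linarith
      calc (1 / μ) ^ (k * (k - 1)) * (k * (CV * Real.exp (-(cV * X)) * (T * SS k η))) ≤
          Real.exp (cV * X / 2) * (k * (CV * Real.exp (-(cV * X)) * (T * SS k η))) :=
            mul_le_mul_of_nonneg_right hμi (by positivity)
        _ = k * CV * ((Real.exp (cV * X / 2) * Real.exp (-(cV * X))) * (T * SS k η)) := by ring
        _ ≤ k * CV * (Real.exp (-(c * X)) * (T * SS k η)) :=
            mul_le_mul_of_nonneg_left (mul_le_mul_of_nonneg_right e2 hTS0) (by positivity)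
    have e3 : μ ^ k * (k * (4 * (T * SS k η))) ≤
        k * 4 * (Real.exp (-(c * X)) * (T * SS k η)) := by
      calc μ ^ k * (k * (4 * (T * SS k η))) ≤
          Real.exp (-(c * X)) * (k * (4 * (T * SS k η))) :=
            mul_le_mul_of_nonneg_right hμk (by positivity)
        _ = k * 4 * (Real.exp (-(c * X)) * (T * SS k η)) := by ring
    have e4 := mul_le_mul_of_nonneg_left (add_le_add e1 e3)
      (show (0 : ℝ) ≤ 2 * 4 ^ k * (k + 1) by positivity)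
    refine (add_le_add (mul_le_mul_of_nonneg_left e4 (by norm_num : (0 : ℝ) ≤ 2)) le_rfl).trans
      (le_of_eq ?_)
    ring
  have hP2' : ∫ t in Ew T A C₀ s \ Ici (2 * Real.sqrt T),
      ‖(∏ j, riemannZeta (sp ((s j).re - 1 / 2) (t + (s j).im))) - PW T s t‖ ^ 2 ≤
      (2 * (k * CS) + 6) * (Real.exp (-(c * X)) * (T * SS k η)) := by
    refine hP2.trans ?_
    have e1 : (0 : ℝ) ≤ 2 * (k * CS) + 6 := by positivity
    calc (2 * (k * CS) + 6) * (Real.sqrt T * SS k η) ≤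
        (2 * (k * CS) + 6) * (T * Real.exp (-(c * X)) * SS k η) :=
          mul_le_mul_of_nonneg_left (mul_le_mul_of_nonneg_right hroot hSS0) e1
      _ = (2 * (k * CS) + 6) * (Real.exp (-(c * X)) * (T * SS k η)) := by ring
  have hfun : ∀ t : ℝ, ‖(∏ j, riemannZeta (s j + t * Complex.I)) - PW T s t‖ ^ 2 =
      ‖(∏ j, riemannZeta (sp ((s j).re - 1 / 2) (t + (s j).im))) - PW T s t‖ ^ 2 := by
    intro t
    have e1 : ∏ j, riemannZeta (s j + t * Complex.I) =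
        ∏ j, riemannZeta (sp ((s j).re - 1 / 2) (t + (s j).im)) :=
      Finset.prod_congr rfl fun j _ => by rw [zeq]
    rw [e1]
  simp only [hfun]
  rw [← hsplit]
  refine (add_le_add hP1' hP2').trans (le_of_eq ?_)
  ring

end Pool.Agent.Work.MP_56b8f5_nt.HN
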