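import Pool.Agent.Work.MP_56b8f5_nt.HN.StmtsP

/-!
MP_56b8f5_nt, block HN, item ZNN: near zeros.
-/

set_option autoImplicit false

open MeasureTheory Set Filter Topology

noncomputable section

namespace Pool.Agent.Work.MP_56b8f5_nt.HN

open Pool.Agent.Work.MP_56b8f5_nt.EM Pool.Agent.Work.MP_56b8f5_nt.WM Pool.Agent.Work.MP_56b8f5_nt.SH
open Pool.Agent.Work.MP_56b8f5_nt.HZ

namespace AuxZNN

theorem cut_one {u : ℝ} (h : |u| ≤ 1) : cut u = 1 := by
  have := abs_le.1 h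
  unfold cut
  rw [Real.smoothTransition.one_of_one_le (by linarith),
    Real.smoothTransition.one_of_one_le (by linarith), one_mul]

theorem cy_one {y : ℝ} (h : |y| ≤ 1 / 8) : cy y = 1 := by
  have := abs_le.1 h
  unfold cy
  rw [Real.smoothTransition.one_of_one_le (by linarith),
    Real.smoothTransition.one_of_one_le (by linarith), one_mul]

theorem Phi_eq {κ : ℝ → ℝ} {c X a H : ℝ} {z : ℂ} (hy : |z.re| ≤ 1 / 8) (hv : |z.im| ≤ 1 / 8)
    (hH : 1 ≤ H) :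
    Phi κ c X a H z = (Hh κ (X * (z - a))).re + Real.log X - c + Real.log ‖z‖ := by
  have h1 : |z.im / H| ≤ 1 := by
    rw [abs_div, abs_of_pos (show (0 : ℝ) < H by linarith),
      div_le_one (show (0 : ℝ) < H by linarith)]
    linarith
  have h2 : |8 * z.re| ≤ 1 := by
    rw [abs_mul, abs_of_pos (show (0 : ℝ) < 8 by norm_num)]
    linarith
  have h3 : |8 * z.im| ≤ 1 := by
    rw [abs_mul, abs_of_pos (show (0 : ℝ) < 8 by norm_num)]
    linarith
  unfold Phi cv cn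
  rw [cy_one hy, cut_one h1, cut_one h2, cut_one h3]
  ring

theorem log_small (A C₀ : ℝ) (hC : 0 ≤ C₀) : ∃ L₀ : ℝ, 1 ≤ L₀ ∧ ∀ L, L₀ ≤ L →
    A + C₀ * Real.log (1 + L) ≤ L / 40 := by
  obtain ⟨δ, hδ⟩ : ∃ δ : ℝ, δ = 1 / (80 * (C₀ + 1)) := ⟨_, rfl⟩
  have hδ0 : 0 < δ := by rw [hδ]; positivity
  refine ⟨max 1 (80 * (A + 1 / 80 + C₀ * |Real.log δ|)), le_max_left _ _, fun L hL => ?_⟩
  have h1 : 1 ≤ L := (le_max_left _ _).trans hL
  have h2 := (le_max_right _ _).trans hL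
  have h3 : Real.log (1 + L) ≤ δ * (1 + L) - 1 - Real.log δ := by
    have := Real.log_le_sub_one_of_pos (show 0 < δ * (1 + L) by positivity)
    rw [Real.log_mul hδ0.ne' (by positivity)] at this
    linarith
  have h4 : C₀ * δ ≤ 1 / 80 := by
    rw [hδ, mul_one_div, div_le_div_iff₀ (by positivity) (by norm_num)]
    linarith
  have h5 : C₀ * Real.log (1 + L) ≤ C₀ * (δ * (1 + L) - 1 - Real.log δ) :=
    mul_le_mul_of_nonneg_left h3 hC
  have h6 : C₀ * δ * (1 + L) ≤ 1 / 80 * (1 + L) := mul_le_mul_of_nonneg_right h4 (by linarith)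
  have h7 : C₀ * (-Real.log δ) ≤ C₀ * |Real.log δ| :=
    mul_le_mul_of_nonneg_left (neg_le_abs _) hC
  have h8 : C₀ * (δ * (1 + L) - 1 - Real.log δ) = C₀ * δ * (1 + L) - C₀ + C₀ * (-Real.log δ) := by
    ring
  linarith

theorem sp_re (η t : ℝ) : (sp η t).re = 1 / 2 + η := by
  simp [sp]

theorem sp_im (η t : ℝ) : (sp η t).im = t := by
  simp [sp]

end AuxZNN

theorem ZNN_pf (h1 : S_PairN) (h2 : HZ.S_Zsy) : S_ZNN := by
  intro κ c C hκ hC hIC
  obtain ⟨lam₀, hl0, hlam⟩ := h1 κ c C hκ hC hIC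
  refine ⟨lam₀, hl0, fun lam hl A C₀ hA hC₀ => ?_⟩
  obtain ⟨m₀, hm₀, hpair⟩ := hlam lam hl A C₀ hA hC₀
  obtain ⟨L₀, hL₀, hsmall⟩ := AuxZNN.log_small A C₀ hC₀
  refine ⟨m₀, max 3 (Real.exp L₀), hm₀, le_max_left _ _,
    fun T hT t ht η hη0 hη1 hne X a hX hmX hla hal Z hZZ => ?_⟩
  have hT3 : 3 ≤ T := (le_max_left _ _).trans hT
  have hTp : 0 < T := by linarith
  have hTL : L₀ ≤ Real.log T := (Real.le_log_iff_exp_le hTp).2 ((le_max_right _ _).trans hT)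
  have hH : 1 ≤ Real.sqrt T := Real.one_le_sqrt.2 (by linarith)
  have hLp : 0 < Real.log T := by linarith
  have hre : ∀ ρ : ℂ, (1 - (starRingEnd ℂ) ρ).re = 1 - ρ.re := fun ρ => by simp
  have him : ∀ ρ : ℂ, (1 - (starRingEnd ℂ) ρ).im = ρ.im := fun ρ => by simp
  have hfact : ∀ ρ ∈ Z, 0 < ρ.re ∧ ρ.re < 1 ∧
      |ρ.re - 1 / 2| * Real.log T ≤ A + C₀ * Real.log (1 + |ρ.im - t| * Real.log T) ∧
      |ρ.re - 1 / 2| ≤ 1 / 40 ∧ |ρ.im - t| ≤ 1 / 8 := by
    intro ρ hρ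
    obtain ⟨h1, h3, h4⟩ := (hZZ ρ).1 hρ
    have hr0 : 0 < ρ.re := by linarith
    have hr1 : ρ.re < 1 := by
      by_contra hcon
      exact riemannZeta_ne_zero_of_one_le_re (not_lt.1 hcon) h1
    have g1 := ht.2.2 ρ h1 hr0 hr1
    have g2 := ht.2.2 (1 - (starRingEnd ℂ) ρ) ((h2 ρ hr0 hr1).2.1 h1)
      (by rw [hre]; linarith) (by rw [hre]; linarith)
    rw [hre, him] at g2
    have g3 : |ρ.re - 1 / 2| * Real.log T ≤
        A + C₀ * Real.log (1 + |ρ.im - t| * Real.log T) := by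
      rcases abs_cases (ρ.re - 1 / 2) with ⟨h, _⟩ | ⟨h, _⟩
      · rw [h]; exact g1
      · rw [h]
        have : -(ρ.re - 1 / 2) * Real.log T = (1 - ρ.re - 1 / 2) * Real.log T := by ring
        rw [this]; exact g2
    refine ⟨hr0, hr1, g3, ?_, h4⟩
    have g4 : Real.log (1 + |ρ.im - t| * Real.log T) ≤ Real.log (1 + Real.log T) := by
      refine Real.log_le_log (by positivity) ?_
      have : |ρ.im - t| * Real.log T ≤ 1 * Real.log T :=
        mul_le_mul_of_nonneg_right (by linarith) hLp.le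
      linarith
    have g5 := hsmall _ hTL
    have g6 := mul_le_mul_of_nonneg_left g4 hC₀
    have g7 : |ρ.re - 1 / 2| * Real.log T ≤ 1 / 40 * Real.log T := by linarith
    exact le_of_mul_le_mul_right g7 hLp
  have hσ : ∀ ρ ∈ Z, 1 - (starRingEnd ℂ) ρ ∈ Z := by
    intro ρ hρ
    obtain ⟨f1, f2, f3, f4, f5⟩ := hfact ρ hρ
    rw [hZZ]
    refine ⟨(h2 ρ f1 f2).2.1 ((hZZ ρ).1 hρ).1, ?_, ?_⟩
    · have := abs_le.1 f4
      rw [hre]
      linarith
    · rw [him]; exact f5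
  have hsum : ∑ ρ ∈ Z, mz ρ * Phi κ c X a (Real.sqrt T) (ρ - sp η t) =
      ∑ ρ ∈ Z, mz ρ * Phi κ c X a (Real.sqrt T)
        (1 - (starRingEnd ℂ) ρ - sp η t) := by
    refine Finset.sum_nbij' (fun ρ => 1 - (starRingEnd ℂ) ρ) (fun ρ => 1 - (starRingEnd ℂ) ρ)
      hσ hσ (fun ρ _ => by simp) (fun ρ _ => by simp) ?_
    intro ρ hρ
    obtain ⟨f1, f2, f3, f4, f5⟩ := hfact ρ hρ
    have : 1 - (starRingEnd ℂ) (1 - (starRingEnd ℂ) ρ) = ρ := by simp
    rw [this, (h2 ρ f1 f2).1]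
  have hle : ∑ ρ ∈ Z, mz ρ * Phi κ c X a (Real.sqrt T) (ρ - sp η t) +
      ∑ ρ ∈ Z, mz ρ * Phi κ c X a (Real.sqrt T)
        (1 - (starRingEnd ℂ) ρ - sp η t) ≤ 0 := by
    rw [← Finset.sum_add_distrib]
    refine Finset.sum_nonpos fun ρ hρ => ?_
    rw [← mul_add]
    refine mul_nonpos_of_nonneg_of_nonpos (Nat.cast_nonneg _) ?_
    obtain ⟨f1, f2, f3, f4, f5⟩ := hfact ρ hρ
    have e1 : ρ - sp η t =
        ((ρ.re - 1 / 2 - η : ℝ) : ℂ) + ((ρ.im - t : ℝ) : ℂ) * Complex.I := by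
      apply Complex.ext
      · rw [Complex.sub_re, AuxZNN.sp_re]
        simp
        ring
      · rw [Complex.sub_im, AuxZNN.sp_im]
        simp
    have e2 : 1 - (starRingEnd ℂ) ρ - sp η t =
        ((-(ρ.re - 1 / 2) - η : ℝ) : ℂ) + ((ρ.im - t : ℝ) : ℂ) * Complex.I := by
      apply Complex.ext
      · rw [Complex.sub_re, AuxZNN.sp_re]
        simp
        ring
      · rw [Complex.sub_im, AuxZNN.sp_im]
        simp
    have hnz : ¬(|ρ.re - 1 / 2| = η ∧ ρ.im - t = 0) := by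
      rintro ⟨u1, u2⟩
      apply hne
      have hz := ((hZZ ρ).1 hρ).1
      rcases abs_cases (ρ.re - 1 / 2) with ⟨h, _⟩ | ⟨h, _⟩
      · have e3 : ρ - sp η t = 0 := by
          rw [e1, u2, show ρ.re - 1 / 2 - η = 0 by linarith]
          simp
        rw [← sub_eq_zero.1 e3]
        exact hz
      · have e3 : 1 - (starRingEnd ℂ) ρ - sp η t = 0 := by
          rw [e2, u2, show -(ρ.re - 1 / 2) - η = 0 by linarith]
          simp
        rw [← sub_eq_zero.1 e3]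
        exact (h2 ρ f1 f2).2.1 hz
    have hp := hpair (Real.log T) X a η (ρ.re - 1 / 2) (ρ.im - t) hX hmX hη0 hη1 hla hal f3 hnz
    have f4' := abs_le.1 f4
    have r1 : |(ρ - sp η t).re| ≤ 1 / 8 := by
      rw [Complex.sub_re, AuxZNN.sp_re, abs_le]
      constructor <;> linarith
    have r2 : |(1 - (starRingEnd ℂ) ρ - sp η t).re| ≤ 1 / 8 := by
      rw [Complex.sub_re, hre, AuxZNN.sp_re, abs_le]
      constructor <;> linarith
    have r3 : |(ρ - sp η t).im| ≤ 1 / 8 := by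
      rw [Complex.sub_im, AuxZNN.sp_im]
      exact f5
    have r4 : |(1 - (starRingEnd ℂ) ρ - sp η t).im| ≤ 1 / 8 := by
      rw [Complex.sub_im, him, AuxZNN.sp_im]
      exact f5
    rw [AuxZNN.Phi_eq r1 r3 hH, AuxZNN.Phi_eq r2 r4 hH, e1, e2]
    linarith
  linarith

end Pool.Agent.Work.MP_56b8f5_nt.HN
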