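import Pool.Agent.Work.MP_56b8f5_nt.HN.StmtsP

/-!
MP_56b8f5_nt, block HN, item Zl3: the logarithm of zeta in the mean on wider boxes.
-/

set_option autoImplicit false

open MeasureTheory Set Filter Topology

noncomputable section

namespace Pool.Agent.Work.MP_56b8f5_nt.HN

open Pool.Agent.Work.MP_56b8f5_nt.EM Pool.Agent.Work.MP_56b8f5_nt.WM Pool.Agent.Work.MP_56b8f5_nt.SH
open Pool.Agent.Work.MP_56b8f5_nt.HZ

namespace AuxZl3

/-- the right part of the box -/
def Bd (t : ℝ) : Set ℂ := {s : ℂ | 3 < s.re ∧ s.re ≤ 4 ∧ |s.im - t| ≤ 1 / 2}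

lemma Bd_meas (t : ℝ) : MeasurableSet (Bd t) := by
  have h1 : MeasurableSet {s : ℂ | 3 < s.re} := measurableSet_lt measurable_const Complex.measurable_re
  have h2 : MeasurableSet {s : ℂ | s.re ≤ 4} := measurableSet_le Complex.measurable_re measurable_const
  have h3 : MeasurableSet {s : ℂ | |s.im - t| ≤ 1 / 2} :=
    measurableSet_le (Complex.measurable_im.sub_const t).abs measurable_const
  exact h1.inter (h2.inter h3)

lemma Bd_vol (t : ℝ) : volume (Bd t) ≤ ENNReal.ofReal 16 := by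
  have hsub : Bd t ⊆ Metric.ball (3 + t * Complex.I) 2 := by
    rintro s ⟨h1, h2, h3⟩
    rw [Metric.mem_ball, dist_eq_norm]
    have h4 : ‖s - (3 + t * Complex.I)‖ ^ 2 < 2 ^ 2 := by
      rw [← Complex.normSq_eq_norm_sq, Complex.normSq_apply, Complex.sub_re, Complex.sub_im]
      have hre : (3 + t * Complex.I : ℂ).re = 3 := by simp
      have him : (3 + t * Complex.I : ℂ).im = t := by simp
      rw [hre, him]
      have h5 : (s.im - t) * (s.im - t) ≤ 1 / 4 := by
        rw [abs_le] at h3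
        nlinarith
      nlinarith
    exact lt_of_pow_lt_pow_left₀ 2 (by norm_num) h4
  refine (measure_mono hsub).trans ?_
  rw [Complex.volume_ball, ← ENNReal.ofReal_pow (by norm_num), ENNReal.ofReal_coe_nnreal.symm,
    ← ENNReal.ofReal_mul (by norm_num), NNReal.coe_real_pi]
  apply ENNReal.ofReal_le_ofReal
  have := Real.pi_le_four
  linarith

lemma zeta_meas : Measurable fun s : ℂ => Real.log ‖riemannZeta s‖ := by
  have h1 : Measurable riemannZeta := by
    refine measurable_of_continuousOn_compl_singleton 1 fun z hz => ?_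
    exact (differentiableAt_riemannZeta hz).continuousAt.continuousWithinAt
  exact h1.norm.log

end AuxZl3

open AuxZl3

theorem Zl3_pf (h1 : HZ.S_Zl1) (h2 : HZ.S_Zeu) : S_Zl3 := by
  obtain ⟨C, hC, h⟩ := h1
  refine ⟨C + 16, by linarith, fun t ht => ?_⟩
  obtain ⟨hi, hb⟩ := h t ht
  have hL : 1 ≤ Real.log |t| := by
    rw [Real.le_log_iff_exp_le (by linarith)]
    have := Real.exp_one_lt_d9
    linarith
  have hB : {s : ℂ | 1 / 5 ≤ s.re ∧ s.re ≤ 4 ∧ |s.im - t| ≤ 1 / 2} =
      {s : ℂ | 1 / 5 ≤ s.re ∧ s.re ≤ 3 ∧ |s.im - t| ≤ 1 / 2} ∪ Bd t := by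
    ext s
    simp only [Bd, mem_union, mem_setOf_eq]
    constructor
    · rintro ⟨h3, h4, h5⟩
      rcases le_or_gt s.re 3 with h6 | h6
      · exact Or.inl ⟨h3, h6, h5⟩
      · exact Or.inr ⟨h6, h4, h5⟩
    · rintro (⟨h3, h4, h5⟩ | ⟨h3, h4, h5⟩)
      · exact ⟨h3, by linarith, h5⟩
      · exact ⟨by linarith, h4, h5⟩
  have hdis : Disjoint {s : ℂ | 1 / 5 ≤ s.re ∧ s.re ≤ 3 ∧ |s.im - t| ≤ 1 / 2} (Bd t) := by
    rw [Set.disjoint_left]
    rintro s ⟨-, h3, -⟩ ⟨h4, -⟩
    linarith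
  have hbd : ∀ s ∈ Bd t, |Real.log ‖riemannZeta s‖| ≤ 1 := by
    rintro s ⟨h3, -⟩
    exact (h2.2 s (by linarith)).2.2
  have hvol : volume (Bd t) < ⊤ := (Bd_vol t).trans_lt ENNReal.ofReal_lt_top
  have hi2 : IntegrableOn (fun s : ℂ => Real.log ‖riemannZeta s‖) (Bd t) := by
    refine Measure.integrableOn_of_bounded (M := 1) hvol.ne zeta_meas.aestronglyMeasurable ?_
    rw [ae_restrict_iff' (Bd_meas t)]
    exact Filter.Eventually.of_forall fun s hs => by
      rw [Real.norm_eq_abs]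
      exact hbd s hs
  rw [hB]
  refine ⟨hi.union hi2, ?_⟩
  rw [setIntegral_union hdis (Bd_meas t) hi.abs hi2.abs]
  have h3 : ∫ s in Bd t, |Real.log ‖riemannZeta s‖| ≤ 16 := by
    have h4 := norm_setIntegral_le_of_norm_le_const (μ := volume) (s := Bd t)
      (f := fun s : ℂ => |Real.log ‖riemannZeta s‖|) (C := 1) hvol (fun s hs => by
        rw [Real.norm_eq_abs, abs_abs]
        exact hbd s hs)
    rw [one_mul] at h4
    refine (Real.le_norm_self _).trans (h4.trans ?_)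
    rw [measureReal_def]
    exact ENNReal.toReal_le_of_le_ofReal (by norm_num) (Bd_vol t)
  rw [add_mul]
  nlinarith

end Pool.Agent.Work.MP_56b8f5_nt.HN
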