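import Pool.Agent.Work.MP_56b8f5_nt.HN.StmtsX

/-!
MP_56b8f5_nt, block HN, item dxB: the coefficients of shifted products (helper64).
-/

set_option autoImplicit false

open MeasureTheory Set Filter Topology

noncomputable section

namespace Pool.Agent.Work.MP_56b8f5_nt.HN

open Pool.Agent.Work.MP_56b8f5_nt.EM Pool.Agent.Work.MP_56b8f5_nt.WM Pool.Agent.Work.MP_56b8f5_nt.SH
open Pool.Agent.Work.MP_56b8f5_nt.HZ

namespace AuxdxB

theorem ex_apply (x : ℝ) (n : ℕ) :
    ex x n = if n = 0 then 0 else (n : ℂ) ^ (-(x * Complex.I)) := rfl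

theorem ex_norm (x : ℝ) (n : ℕ) : ‖ex x n‖ ≤ 1 := by
  rw [ex_apply]
  split_ifs with h
  · simp
  · have hn : (0 : ℝ) < n := by
      have : 0 < n := Nat.pos_of_ne_zero h
      exact_mod_cast this
    have e : ((n : ℂ)) = ((n : ℝ) : ℂ) := by push_cast; rfl
    rw [e, Complex.norm_cpow_eq_rpow_re_of_pos hn]
    simp

theorem ex_zero (n : ℕ) : ex 0 n = ((ArithmeticFunction.zeta n : ℕ) : ℂ) := by
  rw [ex_apply]
  rcases Nat.eq_zero_or_pos n with h | h
  · rw [if_pos h, h, ArithmeticFunction.map_zero, Nat.cast_zero]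
  · rw [if_neg h.ne', ArithmeticFunction.zeta_apply_ne h.ne']
    simp

theorem pow_ex (k n : ℕ) : ((ex 0) ^ k) n =
    ((((ArithmeticFunction.zeta : ArithmeticFunction ℕ) ^ k) n : ℕ) : ℂ) := by
  induction k generalizing n with
  | zero =>
    rw [pow_zero, pow_zero, ArithmeticFunction.one_apply, ArithmeticFunction.one_apply]
    split_ifs <;> simp
  | succ k ih =>
    rw [pow_succ, pow_succ, ArithmeticFunction.mul_apply, ArithmeticFunction.mul_apply]
    push_cast
    refine Finset.sum_congr rfl fun d _ => ?_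
    rw [ih, ex_zero]

end AuxdxB

open AuxdxB in
theorem dxB_pf (h : S_dkB) : S_dxB := by
  constructor
  · intro k
    induction k with
    | zero =>
      intro x n
      unfold dx
      rw [h.2.2.1 n, Finset.univ_eq_empty, Finset.prod_empty, ArithmeticFunction.one_apply]
      split_ifs <;> simp
    | succ k ih =>
      intro x n
      rcases Nat.eq_zero_or_pos n with h0 | h0
      · rw [h0, (h.1 (k + 1)).1]
        unfold dx
        rw [ArithmeticFunction.map_zero, norm_zero]
      · unfold dx
        rw [Fin.prod_univ_succ, ArithmeticFunction.mul_apply, h.2.2.2.2.1 k n h0.ne']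
        refine (norm_sum_le _ _).trans ?_
        have h1 : ∀ d ∈ n.divisorsAntidiagonal,
            ‖ex (x 0) d.1 * (∏ j : Fin k, ex (x j.succ)) d.2‖ ≤ dk k d.2 := by
          intro d _
          rw [norm_mul]
          have h2 := ih (fun j => x j.succ) d.2
          unfold dx at h2
          calc ‖ex (x 0) d.1‖ * ‖(∏ j : Fin k, ex (x j.succ)) d.2‖ ≤ 1 * dk k d.2 :=
                mul_le_mul (ex_norm _ _) h2 (norm_nonneg _) zero_le_one
            _ = dk k d.2 := one_mul _
        refine (Finset.sum_le_sum h1).trans (le_of_eq ?_)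
        exact Nat.sum_divisorsAntidiagonal' (f := fun _ b => dk k b)
  · intro k n
    unfold dx dk
    rw [Finset.prod_const, Finset.card_univ, Fintype.card_fin, pow_ex]
    push_cast
    rfl

end Pool.Agent.Work.MP_56b8f5_nt.HN
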