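import Pool.Agent.Work.MP_56b8f5_nt.HN.StmtsE

/-!
MP_56b8f5_nt, block HN, part A: the twisted approximation of zeta by `∑_{n ≤ N} n^{-s}` in the mean (no condition on zeros). Every docstring is the
complete proof; an item may assume the statements of all EARLIER items, of StmtsE, and all landed facts of blocks HZ, WM, SH, EM.

`IsDk k 0 T N b` means: `0 ≤ b n ≤ dk k n` (`n^{-0} = 1`), `b` lives on `1 ≤ n ≤ N`, `N^100 ≤ T`.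
-/

set_option autoImplicit false

open MeasureTheory Set Filter Topology

noncomputable section

namespace Pool.Agent.Work.MP_56b8f5_nt.HN

open Pool.Agent.Work.MP_56b8f5_nt.EM Pool.Agent.Work.MP_56b8f5_nt.WM Pool.Agent.Work.MP_56b8f5_nt.SH
open Pool.Agent.Work.MP_56b8f5_nt.HZ

/-- **Fob, the form of a divisor bounded polynomial.** `Y = ⌊T^{1/100}⌋ ≥ N'` (so all `n ≤ N'` are `Y`-smooth). `HZ.S_FoV`: `Fo N' D = VV Y ∑_{n smooth} ‖∑_{d ∣ n} D d‖²/n`, and `‖∑_{d ∣ n} D d‖ ≤ ∑_{d ∣ n} dk k d = dk (k+1) n`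
(dkB), so `Fo ≤ VV Y · C (log Y)^{(k+1)²}` (SmN, `k+1`), `VV Y ≤ C/log(T^{1/100}) = 100 C/log T` (second part of `HZ.S_Msu`), `log Y ≤ log T`. (`T ≥ 3^{100}` so that `Y ≥ 3`.) USES: S_dkB, S_SmN, HZ.S_FoV, HZ.S_Msu. EASY-MEDIUM. -/
def S_Fob : Prop := ∀ k : ℕ, ∃ C T₀ : ℝ, 1 ≤ C ∧ 3 ≤ T₀ ∧ ∀ T : ℝ, T₀ ≤ T → ∀ (N' : ℕ) (D : ℕ → ℂ), 1 ≤ N' → (N' : ℝ) ^ 100 ≤ T →
  (∀ n, ‖D n‖ ≤ dk k n) → (∀ n, D n ≠ 0 → 1 ≤ n ∧ n ≤ N') → Real.log T * Fo N' D ≤ C * Real.log T ^ (k + 1) ^ 2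

/-- **Tw1, zeta times a polynomial on the line `1/2`** (model: first part of `HZ/I_Lh.lean`, lemma `scale`). `HZ.S_Wt` gives a weight `w` which is `1` on `[1/24, 5/6]`; at scale `6T`:
`∫_{T/4}^{5T} ≤ 6T ∫ w(u) (az(6Tu)² ‖Ds N' b (1/2+6Tu i)‖²) du`, `HZ.S_Q2` (scale `6T`, `L = log T`, `(N')^8 ≤ 6T`): `≤ 6T [C (log 6T + log T) (Fo N' b + Fo N' b₁) + C (∑ |b|)²]`, `b₁ n = (1 - log n/log T) b n`, `|b₁| ≤ |b|` for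
`1 ≤ n ≤ N' ≤ T`. Fob twice; `∑ b ≤ 2^k N'² ≤ 2^k T^{1/50}` (dkS), and the last term of Q2 is `C (6T)^{-1/4} 4^k T^{1/25} ≤ C 4^k`. `log T ≥ 1`. USES: S_Fob, S_dkS, HZ.S_Q2, HZ.S_Wt. MEDIUM. -/
def S_Tw1 : Prop := ∀ k : ℕ, ∃ C T₀ : ℝ, 1 ≤ C ∧ 3 ≤ T₀ ∧ ∀ T : ℝ, T₀ ≤ T → ∀ (N' : ℕ) (b : ℕ → ℝ), IsDk k 0 T N' b →
  ∫ v in (T / 4)..(5 * T), ‖riemannZeta (1 / 2 + v * Complex.I)‖ ^ 2 * ‖De N' b v‖ ^ 2 ≤ C * (T * Real.log T ^ (k + 1) ^ 2)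

/-- **Tw2, `DN` times a polynomial on the line `1/2`.** `DN N 0 v = De N 1 v` (`sp 0 v = 1/2 + iv`); the product `DN N 0 v · De N' b v` is `De (N N') e v`, `e n = ∑_{d ∣ n, d ≤ N} b(n/d)` (`HZ.S_DsM`, first part; `cvl`), `0 ≤ e n ≤ dk (k+1) n` (dkB). MvN on `[T/4, 5T]`:
`≤ (5T + 2 (N N')²) ∑_{n ≤ N N'} dk (k+1) n ^ 2/n`, `(N N')² ≤ T^{1/25} ≤ T`, and all `n ≤ N N' ≤ T^{1/50}` are `⌊T⌋`-smooth: SmN. USES: S_MvN, S_dkB, S_SmN, HZ.S_DsM. EASY-MEDIUM. -/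
def S_Tw2 : Prop := ∀ k : ℕ, ∃ C T₀ : ℝ, 1 ≤ C ∧ 3 ≤ T₀ ∧ ∀ T : ℝ, T₀ ≤ T → ∀ (N' : ℕ) (b : ℕ → ℝ), IsDk k 0 T N' b →
  ∀ N : ℕ, 1 ≤ N → (N : ℝ) ^ 100 ≤ T →
  ∫ v in (T / 4)..(5 * T), ‖DN N 0 v‖ ^ 2 * ‖De N' b v‖ ^ 2 ≤ C * (T * Real.log T ^ (k + 1) ^ 2)

/-- **Tw3, the line `2`** (model: `HZ/I_Lt.lean`). `ζ(2+iv) = ∑ n^{-2-iv}`, so `‖ζ(2+iv) - Ds N 1 (2+iv)‖ ≤ ∑_{n > N} n^{-2} ≤ 1/N`; `‖Ds N' b (2+iv)‖ ≤ ∑ dk k n/n² ≤ 2^k` (dkS). The interval has length at most `5T`. USES: S_dkS. EASY-MEDIUM. -/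
def S_Tw3 : Prop := ∀ k : ℕ, ∃ C : ℝ, 1 ≤ C ∧ ∀ T : ℝ, 1 ≤ T → ∀ (N' : ℕ) (b : ℕ → ℝ), IsDk k 0 T N' b → ∀ N : ℕ, 1 ≤ N →
  ∫ v in (T / 4)..(5 * T), ‖(riemannZeta (2 + v * Complex.I) - Ds N (fun _ => 1) (2 + v * Complex.I)) *
      Ds N' (fun n => (b n : ℂ)) (2 + v * Complex.I)‖ ^ 2 ≤ C * T * ((N : ℝ) ^ 2)⁻¹

/-- **Tw4, growth** (model: `HZ/I_Gro.lean`). `H(s) = (E(s) - (s-1) Ds N 1 s) Ds N' b s`, `E(s) = (s-1) ζ(s)` (entire, `1` at `s = 1`), `|E(s)| ≤ C (1+|Im s|)²` on `1/2 ≤ Re s ≤ 2` (`HZ.S_Zgr` and compactness, see lemma `z1_norm`), `‖Ds N 1 s‖ ≤ N ≤ T`,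
`‖Ds N' b s‖ ≤ ∑ b ≤ 2^k N'² ≤ 2^k T`, `|s-1| ≤ 2 (1+|Im s|)`. USES: S_dkS, HZ.S_Zgr (if needed). EASY-MEDIUM. -/
def S_Tw4 : Prop := ∀ k : ℕ, ∃ T₀ : ℝ, 3 ≤ T₀ ∧ ∀ T : ℝ, T₀ ≤ T → ∀ (N' : ℕ) (b : ℕ → ℝ), IsDk k 0 T N' b → ∀ N : ℕ, 1 ≤ N → (N : ℝ) ^ 100 ≤ T →
  ∃ H : ℂ → ℂ, Differentiable ℂ H ∧ (∀ s : ℂ, 1 / 2 ≤ s.re → s.re ≤ 2 → ‖H s‖ ≤ T ^ 10 * (1 + |s.im|) ^ 10) ∧
  ∀ s : ℂ, s ≠ 1 → (riemannZeta s - Ds N (fun _ => 1) s) * Ds N' (fun n => (b n : ℂ)) s = H s / (s - 1)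

/-- **TwB, conclusion:** the interface `S_TwA` of StmtsM (model: `HZ/I_Yb.lean`). Let `b n = q n n^η` for `n ≥ 1`, `b 0 = 0`: `IsDk k 0 T N' b`, and `Ds N' b (sp η t) = De N' q t`. G1 (`HZG.S_G1`) for `F(s) = (ζ(s) - Ds N 1 s) Ds N' b s`, `H` from Tw4, `σ = 1/2 + η`, `θ = η/(3/2)`:
`MS F σ (T/3) (4T) ≤ C (J(1/2) + T^{-50})^{1-θ} (J(2) + T^{-50})^θ`, `J(1/2) ≤ 2 Tw1 + 2 Tw2 ≤ C T X`, `X = (log T)^{(k+1)²} ≥ 1`, `J(2) ≤ C T N^{-2}` (Tw3), `T^{-50} ≤ T N^{-2}`; so the mean square over `[T,2T] ⊆ [T/3,4T]` is at most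
`C (T X)^{1-θ} (T N^{-2})^θ ≤ C T X N^{-2θ} = C T X N^{-(4/3)η} ≤ C T X N^{-η}`. USES: S_Tw1, S_Tw2, S_Tw3, S_Tw4, HZG.S_G1. MEDIUM. -/
def S_TwB : Prop := S_TwA

end Pool.Agent.Work.MP_56b8f5_nt.HN
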