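import Pool.Agent.Work.MP_56b8f5_nt.HN.StmtsM
import Pool.Agent.Work.MP_56b8f5_nt.HZ.StmtsB

/-!
MP_56b8f5_nt, block HN, part (III) (captain helper77): Harper's splitting for an abstract function `z`, with the dependence on `b` made
explicit, proof of `S_HN3`. All definitions of `HZ/BDefs.lean` are used with a function `v` such that `0 ≤ v x n ≤ n^{-η}`
(in particular `0 ≤ v x n ≤ 1` for `n ≥ 1`).

Every docstring is the complete proof. All items are independent (hypotheses). Models: the files `HZ/B_*.lean`.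
-/

set_option autoImplicit false

open MeasureTheory Set Filter Topology

noncomputable section

namespace Pool.Agent.Work.MP_56b8f5_nt.HN

open Pool.Agent.Work.MP_56b8f5_nt.SH Pool.Agent.Work.MP_56b8f5_nt.HZ Pool.Agent.Work.MP_56b8f5_nt.HZB

/-- All coefficients are real numbers with `0 ≤ α_n ≤ f n`. -/
def Co (f : ℕ → ℝ) (α : DA) : Prop := ∀ n, ∃ x : ℝ, 0 ≤ x ∧ x ≤ f n ∧ α.coeff n = (x : ℂ)

/-- The function `n ↦ n^{-η}`. -/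
def pe1 (η : ℝ) (n : ℕ) : ℝ := (n : ℝ) ^ (-η)

/-- Admissible coefficients: `0 ≤ a_p ≤ p^{-η}`, `0 ≤ b_p ≤ p^{-2η}/2`. -/
def Cfe (η : ℝ) (a b : ℕ → ℝ) : Prop :=
  ∀ p, 0 ≤ a p ∧ a p ≤ pe1 η p ∧ 0 ≤ b p ∧ b p ≤ pe1 η (p ^ 2) / 2

/-! ### Group 1: coefficients -/

/-- **CoL, one prime.** As in `HZB.S_Loc` (`B_Loc.lean`): `tx l 1 (a q + b q²) = ∑_e c_e q^e` with `∑_e c_e X^e = ∑_{m ≤ l} (a X + b X²)^m/m!`, all `c_e ≥ 0`. With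
`y = q^{-η}` we have `a ≤ y`, `b ≤ y²/2`, so `c_e ≤ y^e d_e(l)`, where `P_l(X) = ∑_{m ≤ l} (X + X²/2)^m/m! = ∑_e d_e(l) X^e`; and `y^e = pe1 η (q^e)`. Claim: `d_e(l) ≤ 1`
for all `e, l`. Indeed `d_0(l) = 1` (and `P_0 = 1`), and for `l ≥ 1`: `P_l' = (1 + X) P_{l-1}`, so `e d_e(l) = d_{e-1}(l-1) + d_{e-2}(l-1) ≤ 2` for `e ≥ 2`,
`d_1(l) = d_0(l-1) = 1`; induction on `l`. MEDIUM. -/
def S_CoL : Prop := ∀ (q l : ℕ) (η a b : ℝ), q.Prime → 0 ≤ a → a ≤ pe1 η q → 0 ≤ b → b ≤ pe1 η (q ^ 2) / 2 →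
  Co (pe1 η) (tx l 1 (MonoidAlgebra.single q (a : ℂ) + MonoidAlgebra.single (q ^ 2) (b : ℂ)))

/-- **CoC, coprime supports.** The coefficient of `α β` at `n` is the sum of `α_a β_b` over the pairs with `a b = n`, `a ∈ supp α`, `b ∈ supp β`, and there is at most
one such pair (`a b = a' b'`: `a` is prime to `b'`, so `a ∣ a'`, and `a' ∣ a`, see `B_N2M.lean`). If there is none, the coefficient is `0`; if there is one, it is
`α_a β_b ≤ a^{-η} b^{-η} = n^{-η}`. EASY-MEDIUM. -/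
def S_CoC : Prop := ∀ (S S' : Finset ℕ) (η : ℝ) (α β : DA), Disjoint S S' → Sup S α → Sup S' β →
  Co (pe1 η) α → Co (pe1 η) β → Co (pe1 η) (α * β)

/-- **CoS, one level.** Induction on `S` as in `HZB.S_N2E` (`B_N2E.lean`). `S = ∅`: `tx l 1 0 = 1` (coefficient `1` at `n = 1`, `1 ≤ 1^{-η}`). Step: `pw a b (insert q S) = (a_q q + b_q q²) + pw a b S`; by
the last part of `HZB.S_MjL` `tx` of the sum is majorised by the product of the two `tx`, whose supports are coprime (`HZB.S_SupL`), so CoL, the induction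
hypothesis and CoC; a polynomial majorised by one with `Co f` has `Co f`. USES: S_CoL, S_CoC, HZB.S_MjL, HZB.S_SupL. EASY. -/
def S_CoS : Prop := ∀ (S : Finset ℕ) (l : ℕ) (η : ℝ) (a b : ℕ → ℝ), (∀ p ∈ S, p.Prime) → Cfe η a b →
  Co (pe1 η) (tx l 1 (pw a b S))

/-- **CoP, powers.** Induction on `k`. `k = 0`: `α^0 = 1`, `dk 0 n` is `1` for `n = 1` and `0` otherwise. Step: the coefficient of `α^{k+1} = α^k α` at `n` is the sum of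
`(α^k)_a α_b` over the pairs `a b = n` in the supports (so `a, b ≠ 0`, as `α_0 = 0`, hence `0` for `n = 0`), and for `n ≥ 1` this is at most
`∑_{ab = n} dk k a a^{-η} b^{-η} = n^{-η} ∑_{a ∣ n} dk k a = n^{-η} dk (k+1) n` (`ζ^{k+1} = ζ^k * ζ` as arithmetic functions). EASY-MEDIUM. -/
def S_CoP : Prop := ∀ (k : ℕ) (η : ℝ) (α : DA), α.coeff 0 = 0 → Co (pe1 η) α →
  Co (fun n => dk k n * pe1 η n) (α ^ k)

/-- **CoT, integer exponents.** Induction on `k`. `k = 0`: `tx l 0 α = 1`. Step: `tx l (k+1) α = tx l 1 (k α + α)`, by the last part of `HZB.S_MjL` (with `k = 1`) it is majorised by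
`tx l 1 (k α) * tx l 1 α = tx l k α * tx l 1 α` (`tx l 1 (c α) = tx l c α`), then the induction hypothesis and parts 2, 3, 5 of `HZB.S_MjL`. Here `Mj (c α) (c α)`
for `c ≥ 0`. USES: HZB.S_MjL. EASY. -/
def S_CoT : Prop := ∀ (l k : ℕ) (α : DA), Mj α α → Mj (tx l (k : ℝ) α) (tx l 1 α ^ k)

/-! ### Group 2: lengths and levels -/

/-- **LnQ.** `HZB.S_NmL` with `k' = 27.5 (k+1) - 1`: `lv k T i ≤ 10 (k+1) V_i + 1 ≤ 11 (k+1) V_i = (1/25) · 10 (k'+1) V_i ≤ lv k' T i/25` (`1 ≤ V_i` for `i < M`: `HZB.S_LevB`), so the sum is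
at most `(1/25) (log T)/4`. USES: HZB.S_NmL, HZB.S_LevB. EASY. -/
def S_LnQ : Prop := ∀ k : ℝ, 0 ≤ k → ∃ b₁ : ℝ, 0 < b₁ ∧ b₁ ≤ 1 ∧ ∀ (T b : ℝ) (M : ℕ), 0 < b → b ≤ b₁ →
  Lev T b M → ∑ i ∈ Finset.range M, 2 * (lv k T i : ℝ) * yv T i ≤ Real.log T / 100

/-- **LevU.** As HZB.S_LevE; see the proof in `HZ/U_HarV.lean` (`AuxLevE.first`). EASY. -/
def S_LevU : Prop := ∀ T b : ℝ, Big T → b ≤ 1 → Real.log (Real.log T) ≤ b * Real.log T → ∃ M : ℕ, Lev T b M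

/-- **NmB, the sum over the bad levels.** `HZB.S_NmS` with `K' = K + 1/(40k)`: `exp (2k K'/be T j) = exp (2k K/be T j) exp (1/(20 be T j))`, and
`20 be T j = be T (j+1) ≤ b` for `j + 1 < M` (`HZB.S_LevB`), so the last factor is at least `exp (1/b)`. USES: HZB.S_NmS, HZB.S_LevB. EASY. -/
def S_NmB : Prop := ∀ k K C₁ : ℝ, 0 < k → 0 ≤ K → 1 ≤ C₁ → ∃ b₁ : ℝ, 0 < b₁ ∧ b₁ ≤ 1 ∧
  ∀ (T b : ℝ) (M : ℕ), 0 < b → b ≤ b₁ → Lev T b M →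
  ∑ j ∈ Finset.range (M - 1), ∑ _l ∈ Finset.Ico (j + 1) M, Real.exp (2 * k * (K / be T j)) *
    (2 * 4 ^ nv T (j + 1) * ((nv T (j + 1)).factorial * C₁ ^ nv T (j + 1)) /
      Vv T (j + 1) ^ (2 * nv T (j + 1))) ≤ 8 * Real.exp (-(1 / b))

/-- **PwN, from the hypothesis to the levels.** The proof of `HZB.S_PwZ` (`B_PwZ.lean`, same constant `C₀`) with `z t` in place of `|zeta(1/2+it)|`: nothing about zeta is used there.
USES: HZB.S_SpS. EASY (copy). -/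
def S_PwN : Prop := ∃ C₀ : ℝ, 0 ≤ C₀ ∧ ∀ (v : ℝ → ℕ → ℝ), (∀ x n, 0 ≤ v x n ∧ v x n ≤ 1) →
  ∀ (K b₀ T : ℝ) (E : Set ℝ) (z : ℝ → ℝ), Big T → HypN v K b₀ T E z →
  ∀ l : ℕ, be T l ≤ b₀ → ∀ t ∈ E, z t ≤
    Real.exp ((∑ i ∈ Finset.range (l + 1), ev t (Pv v T i l)).re + C₀ + K / be T l)

/-! ### Group 3: the splitting -/

/-- The bad set: some polynomial of a level `j + 1 < M` exceeds the barrier. -/
def Fb (v : ℝ → ℕ → ℝ) (T : ℝ) (M : ℕ) : Set ℝ :=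
  {t | ∃ j, j + 1 < M ∧ ∃ l, j + 1 ≤ l ∧ l < M ∧ Vv T (j + 1) < ‖ev t (Pv v T (j + 1) l)‖}

/-- **FbM.** `Fb` is open: a finite union of sets `{c < f}`, `f` continuous (`HZB.AuxHarT.continuous_ev`). EASY. -/
def S_FbM : Prop := ∀ (v : ℝ → ℕ → ℝ) (T : ℝ) (M : ℕ), MeasurableSet (Fb v T M)

/-- **SpB, the splitting on the bad set and outside.** `HZB.AuxSpl.main` (`B_Spl.lean`) and the two cases in `HZB.pf_Spl`. For `k = 0` the first part reads `1 ≤ Gt v 0 K C₀ T (M-1) t`: `exp 0 = 1`,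
`1 ≤ (1 + 2 e^{-lv})²` and `tx l 0 α = 1`. USES: HZB.S_EvT, HZB.S_LevB, HZB.S_Tay. EASY. -/
def S_SpB : Prop := ∀ (v : ℝ → ℕ → ℝ) (K C₀ T b : ℝ) (M : ℕ) (t z : ℝ), Lev T b M → b ≤ 1 →
  (∀ l < M, ‖ev t (Pv v T 0 l)‖ ≤ Vv T 0) → 0 ≤ z →
  (∀ l < M, z ≤ Real.exp ((∑ i ∈ Finset.range (l + 1), ev t (Pv v T i l)).re + C₀ + K / be T l)) →
  (t ∉ Fb v T M → ∀ k : ℝ, 0 ≤ k → z ^ (2 * k) ≤ Gt v k K C₀ T (M - 1) t) ∧
  (t ∈ Fb v T M → ∀ k : ℝ, 0 < k → z ^ (2 * k) ≤ ∑ j ∈ Finset.range (M - 1), ∑ l ∈ Finset.Ico (j + 1) M,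
    Gt v k K C₀ T j t * (‖ev t (Pv v T (j + 1) l)‖ / Vv T (j + 1)) ^ (2 * nv T (j + 1)))

/-- **QDk, the Dirichlet polynomial.** `Q = ∏_{i < M} tx (l i) k (pw a b (S i))`. Coefficients: by CoT every factor is majorised by `(tx (l i) 1 (pw a b (S i)))^k`, so `Q` is majorised by `R^k`,
`R = ∏_{i < M} tx (l i) 1 (pw a b (S i))` (`HZB.S_MjL`), and `Co (pe1 η) R` by CoS and CoC (induction on `M`, supports by `HZB.S_SupL`), so `Co (dk k · pe1 η) (R^k)` by CoP (`R_0 = 0` as `R` has a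
support without `0`). Hence `Co (dk k · pe1 η) Q`. Length: `HZB.S_LnL`: `Ln (∑_{i<M} 2 l_i y_i) Q`. Put `N = ⌊T^{1/100}⌋`, `q n = Re Q_n`: for `n` in the support
`log n ≤ (log T)/100`, so `n ≤ T^{1/100}`, `n ≤ N`; `N^100 ≤ T`, `1 ≤ N`. Finally `ev t Q = ∑_n Q_n chi t n` (`MonoidAlgebra.lift_apply`) `= De N q t`. USES: S_CoS, S_CoC, S_CoP, S_CoT,
HZB.S_MjL, HZB.S_SupL, HZB.S_LnL. MEDIUM. -/
def S_QDk : Prop := ∀ (k M : ℕ) (η T : ℝ) (S : ℕ → Finset ℕ) (l : ℕ → ℕ) (a b : ℕ → ℝ) (y : ℕ → ℝ), 1 ≤ T →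
  (∀ i < M, 0 ≤ y i ∧ ∀ p ∈ S i, p.Prime ∧ Real.log p ≤ y i) →
  (∀ i < M, ∀ i' < M, i ≠ i' → Disjoint (S i) (S i')) → Cfe η a b →
  ∑ i ∈ Finset.range M, 2 * (l i : ℝ) * y i ≤ Real.log T / 100 →
  ∃ (N : ℕ) (q : ℕ → ℝ), IsDk k η T N q ∧
    ∀ t : ℝ, ev t (∏ i ∈ Finset.range M, tx (l i) (k : ℝ) (pw a b (S i))) = De N q t

/-! ### Assembly: `S_HN3`

`C₀` from PwN, `C₁` from `HZB.S_Mer`, `b₁` the minimum of `b₀`, `1` and the `b₁` of LnQ (for `k`), `HZB.S_NmL` (for `k+1`) and NmB (for `k+1`); `T₀` from `HZB.S_Fst` and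
`e ≤ log T`. `M` from LevU. `F = Fb v T M`. Outside `F`: SpB with `k`, and `Gt v k K C₀ T (M-1) t ≤ exp (2k (C₀ + 20K/b)) e⁴ ∏ ‖ev t (tx ..)‖²` (`HZB.S_NmP`), the last product is
`‖De N q t‖²` by QDk (`a = av v T (M-1)`, `b = bv v T (M-1)`, `Cfe η a b` from the hypothesis on `v`). On `E ∩ F`: SpB with `k + 1`, `HZB.AuxHarT.intG` and NmB.
-/

end Pool.Agent.Work.MP_56b8f5_nt.HN
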