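import Pool.Agent.Work.MP_56b8f5_nt.HN.StmtsM
import Pool.Agent.Work.MP_56b8f5_nt.HZ.StmtsC

/-!
MP_56b8f5_nt, block HN, part E: divisor functions and Euler products. Every docstring is the complete proof; an item may
assume the statements of all other EARLIER items (hypotheses), and all landed facts of blocks HZ, WM, SH.
-/

set_option autoImplicit false

open MeasureTheory Set Filter Topology

noncomputable section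

namespace Pool.Agent.Work.MP_56b8f5_nt.HN

open Pool.Agent.Work.MP_56b8f5_nt.EM Pool.Agent.Work.MP_56b8f5_nt.WM Pool.Agent.Work.MP_56b8f5_nt.SH
open Pool.Agent.Work.MP_56b8f5_nt.HZ

/-- **dkB, divisor functions.** `ArithmeticFunction.zeta ^ (k+1) = zeta ^ k * zeta`, `ArithmeticFunction.coe_mul_zeta_apply` / `mul_apply` and `Nat.sum_divisorsAntidiagonal`;
powers of `zeta` are multiplicative (`isMultiplicative_zeta`, `IsMultiplicative.mul`); prime powers: induction on `k`, `∑_{j ≤ ν} C(j+k, k) = C(ν+k+1, k+1)`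
(hockey stick, `Nat.sum_range_choose_mul..`/`Finset.sum_range_choose..`, or induction on `ν`). `dk k p = k`: `dk (k+1) p = dk k 1 + dk k p`. Last part: the divisor `n` in the sum. EASY-MEDIUM. -/
def S_dkB : Prop :=
  (∀ k, dk k 0 = 0 ∧ dk k 1 = 1) ∧ (∀ k n, 0 ≤ dk k n) ∧
  (∀ n, dk 0 n = if n = 1 then 1 else 0) ∧ (∀ n, n ≠ 0 → dk 1 n = 1) ∧
  (∀ k n, n ≠ 0 → dk (k + 1) n = ∑ d ∈ n.divisors, dk k d) ∧
  (∀ k n, n ≠ 0 → dk (k + 1) n = ∑ d ∈ n.divisors, dk k (n / d)) ∧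
  (∀ k m n, Nat.Coprime m n → dk k (m * n) = dk k m * dk k n) ∧
  (∀ k p ν, p.Prime → dk (k + 1) (p ^ ν) = ((ν + k).choose k : ℝ)) ∧
  (∀ k p, p.Prime → dk k p = k) ∧ ∀ k n, dk k n ≤ dk (k + 1) n

/-- **dkS, sums of divisor functions.** Induction on `k` (`k = 0`: both sums are `1`). `∑_{n ≤ N} dk (k+1) n = ∑_{n ≤ N} ∑_{e ∣ n} dk k (n/e) = ∑_{e ≤ N} ∑_{m ≤ N/e} dk k m ≤ ∑_e 2^k (N/e)² ≤ 2^{k+1} N²`
(`∑ 1/e² ≤ 2`). In the same way `∑_{n ≤ N} dk (k+1) n/n² ≤ (∑_e 1/e²)(∑_m dk k m/m²)`. USES: S_dkB. EASY-MEDIUM. -/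
def S_dkS : Prop := ∀ k N : ℕ, 1 ≤ N → ∑ n ∈ Finset.Icc 1 N, dk k n ≤ 2 ^ k * (N : ℝ) ^ 2 ∧
  ∑ n ∈ Finset.Icc 1 N, dk k n / (n : ℝ) ^ 2 ≤ 2 ^ k

/-- **EmN, Euler product for the majorant** (copy of `HZ.S_Em`, file `I_Em.lean`, with `dk k n n^{-η}` in place of `pe`). `h = fp c * (dk k (·) (·)^{-η})` (Dirichlet convolution) is multiplicative; `∑_{n smooth} h(n)²/n =
∏_{p ≤ Y} ∑_ν h(p^ν)² p^{-ν}`; `h(1) = 1`, `h(p) = c_p + k p^{-η}`, `0 ≤ h(p^ν) ≤ 2 ∑_{j ≤ ν} dk k (p^j) = 2 dk (k+1) (p^ν) ≤ 2 (ν+1)^k` (`c_p ≤ 2`, `p^{-η} ≤ 1`); so the terms `ν ≥ 2` contribute at most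
`4 ∑_{ν ≥ 2} (ν+1)^{2k} p^{-ν} ≤ C/p²`, `C = 4 ∑_{ν ≥ 2} (ν+1)^{2k} 2^{-(ν-2)}`. Each factor is at most `1 + (c_p + k p^{-η})²/p + C/p² ≤ exp(k² p^{-1-2η} + (2+2k) c_p/p + C/p²)` (`c_p² ≤ 2 c_p`,
`p^{-η} ≤ 1`), and `∑ 1/p² ≤ 2`. USES: S_dkB. MEDIUM. -/
def S_EmN : Prop := ∀ k : ℕ, ∃ C : ℝ, 1 ≤ C ∧ ∀ (Y : ℕ) (c : ℕ → ℝ) (η : ℝ), 0 ≤ η → (∀ p, 0 ≤ c p ∧ c p ≤ 2) →
  Summable (fun n : ℕ => (open Classical in if Smo Y n then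
    (∑ d ∈ n.divisors, fp c d * (dk k (n / d) * ((n / d : ℕ) : ℝ) ^ (-η))) ^ 2 / (n : ℝ) else 0)) ∧
  ∑' n : ℕ, (open Classical in if Smo Y n then
    (∑ d ∈ n.divisors, fp c d * (dk k (n / d) * ((n / d : ℕ) : ℝ) ^ (-η))) ^ 2 / (n : ℝ) else 0) ≤
    C * Real.exp ((k : ℝ) ^ 2 * ∑ p ∈ pr Y, (p : ℝ) ^ (-(1 + 2 * η)) + (2 + 2 * k) * ∑ p ∈ pr Y, c p / (p : ℝ))

/-- **SmN, smooth numbers.** EmN with `c = 0` (`fp 0 d = 0` for `d > 1`, `fp 0 1 = 1`: the inner sum is `dk k n n^{-η}`). First part: any `η ≥ 0`. Second part: `η = 0`, `∑_{p ∈ pr Y} p^{-1} = S1 Y`,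
`exp (k² S1 Y) = (exp (S1 Y))^{k²} ≤ (C log Y)^{k²}` (WM.S_Mert). USES: S_EmN, WM.S_Mert. EASY-MEDIUM. -/
def S_SmN : Prop := (∀ k : ℕ, ∃ C : ℝ, 1 ≤ C ∧ ∀ (Y : ℕ) (η : ℝ), 0 ≤ η →
    Summable (fun n : ℕ => (open Classical in if Smo Y n then (dk k n * (n : ℝ) ^ (-η)) ^ 2 / (n : ℝ) else 0)) ∧
    ∑' n : ℕ, (open Classical in if Smo Y n then (dk k n * (n : ℝ) ^ (-η)) ^ 2 / (n : ℝ) else 0) ≤
      C * Real.exp ((k : ℝ) ^ 2 * ∑ p ∈ pr Y, (p : ℝ) ^ (-(1 + 2 * η)))) ∧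
  ∀ k : ℕ, ∃ C : ℝ, 1 ≤ C ∧ ∀ Y : ℕ, 2 ≤ Y →
    Summable (fun n : ℕ => (open Classical in if Smo Y n then dk k n ^ 2 / (n : ℝ) else 0)) ∧
    ∑' n : ℕ, (open Classical in if Smo Y n then dk k n ^ 2 / (n : ℝ) else 0) ≤ C * Real.log Y ^ k ^ 2

/-- **Pri, the prime zeta function.** `∑_p p^{-(1+u)} ` for `0 < u = 2η ≤ 1/5`: summable (`Nat.Primes.summable_rpow`), `log ζ(1+u) = -∑_p log(1 - p^{-(1+u)})` (`riemannZeta_eulerProduct_exp_log` or the Euler product for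
the real series `∑ n^{-(1+u)}`), `x ≤ -log(1-x) ≤ x + x²` for `0 ≤ x ≤ 1/2`, `∑_p p^{-2} ≤ 1`, so `|∑_p p^{-(1+u)} - log ζ(1+u)| ≤ 1`; and `1/u ≤ ζ(1+u) ≤ 1 + 1/u ≤ 2/u` (comparison with `∫_1^∞ x^{-1-u} dx`, or
`ZetaAsymp` in Mathlib); finally `log(1/u) = log(1/η) - log 2`. MEDIUM. -/
def S_Pri : Prop := ∃ C : ℝ, 1 ≤ C ∧ ∀ η : ℝ, 0 < η → η ≤ 1 / 8 →
  Summable (fun p : Nat.Primes => ((p : ℕ) : ℝ) ^ (-(1 + 2 * η))) ∧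
  |(∑' p : Nat.Primes, ((p : ℕ) : ℝ) ^ (-(1 + 2 * η))) - Real.log (1 / η)| ≤ C

/-- **SSu, upper bound.** A finite partial sum of `dk k n ^ 2 n^{-(1+2η)} = (dk k n n^{-η})²/n` (`n ≥ 1`; the term `n = 0` vanishes) is at most the sum over the `Y`-smooth numbers for large `Y`, so by SmN at most
`C exp(k² ∑_{p ∈ pr Y} p^{-(1+2η)}) ≤ C exp(k² ∑'_p p^{-(1+2η)}) ≤ C exp(k² (log(1/η) + C'))` (Pri). The partial sums are bounded, so the series converges. USES: S_SmN, S_Pri. EASY-MEDIUM. -/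
def S_SSu : Prop := ∀ k : ℕ, ∃ C : ℝ, 1 ≤ C ∧ ∀ η : ℝ, 0 < η → η ≤ 1 / 8 →
  Summable (fun n : ℕ => dk k n ^ 2 * (n : ℝ) ^ (-(1 + 2 * η))) ∧ SS k η ≤ C * (1 / η) ^ k ^ 2

/-- **EuN, lower bound.** The sum over all `n` is at least the sum over the `Y`-smooth numbers, `= ∏_{p ≤ Y} ∑_ν dk k (p^ν)² p^{-ν(1+2η)}` (Euler product, `n ↦ dk k n ^ 2 n^{-(1+2η)}` is multiplicative and summable:
`EulerProduct.summable_and_hasSum_smoothNumbers_prod_primesBelow_tsum`), `≥ ∏_{p ≤ Y} (1 + k² x_p)`, `x_p = p^{-(1+2η)} ≤ 1/p`; `1 + u ≥ exp(u - u²/2)` for `u ≥ 0` (or `1 + u ≥ exp(u - u²)`), `∑ x_p² ≤ ∑ 1/p² ≤ 2`. USES: S_dkB, S_SSu (summability).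
MEDIUM. -/
def S_EuN : Prop := ∀ k : ℕ, ∃ C : ℝ, 1 ≤ C ∧ ∀ η : ℝ, 0 < η → η ≤ 1 / 8 → ∀ Y : ℕ,
  Real.exp ((k : ℝ) ^ 2 * ∑ p ∈ pr Y, (p : ℝ) ^ (-(1 + 2 * η))) ≤ C * SS k η

/-- **SSc, conclusion:** the interface `S_SSb` of StmtsM. Summable: SSu. `1 ≤ SS`: the term `n = 1`. `(1/η)^{k²} = exp(k² log(1/η)) ≤ exp(k² (∑'_p + C'))` (Pri) and `∑'_p` is the supremum of the sums over `pr Y`, so it is `≤ C SS`
(EuN). Last part: `SS - ∑_{n ≤ N} = ∑_{n > N} dk² n^{-(1+2η)} ≤ N^{-η} ∑ dk² n^{-(1+η)} = N^{-η} SS k (η/2) ≤ N^{-η} C (2/η)^{k²} ≤ C' N^{-η} SS k η` (`n^{-2η} ≤ N^{-η} n^{-η}` for `n > N`; SSu at `η/2`).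
USES: S_SSu, S_EuN, S_Pri. MEDIUM. -/
def S_SSc : Prop := S_SSb

end Pool.Agent.Work.MP_56b8f5_nt.HN
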