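import Pool.Agent.Work.MP_56b8f5_nt.HN.StmtsF
import Pool.Agent.Work.MP_56b8f5_nt.HN.StmtsE

/-!
MP_56b8f5_nt, block HN, part K: the arithmetic factor `a_k` of Q1 as the limit of `(2η)^{k²} S_k(η)`, and the final theorem for fixed
distance `φ/log T`. Every docstring is the complete proof.
-/

set_option autoImplicit false

open MeasureTheory Set Filter Topology

noncomputable section

namespace Pool.Agent.Work.MP_56b8f5_nt.HN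

open Pool.Agent.Work.MP_56b8f5_nt.EM Pool.Agent.Work.MP_56b8f5_nt.WM Pool.Agent.Work.MP_56b8f5_nt.SH
open Pool.Agent.Work.MP_56b8f5_nt.HZ

/-- The local factor `(1-x)^{k²} ∑_m C(m+k-1,m)² x^m`. -/
def lo (k : ℕ) (x : ℝ) : ℝ := (1 - x) ^ k ^ 2 * ∑' m : ℕ, (((m + k - 1).choose m : ℕ) : ℝ) ^ 2 * x ^ m

/-- The arithmetic factor `a_k` of the problem. -/
def ak (k : ℕ) : ℝ := ∏' p : Nat.Primes, lo k (1 / ((p : ℕ) : ℝ))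

/-- **LoB, the local factor.** `k ≥ 1`, `c_m = C(m+k-1,m)²`, `c_0 = 1`, `c_1 = k²`, `0 ≤ c_m ≤ (m+k)^{2k}`: the power series converges for `|x| < 1`, `g(x) = ∑ c_m x^m = 1 + k² x + x² r(x)`, `0 ≤ r(x) ≤ R = ∑_{m ≥ 2} c_m 2^{-(m-2)}` on `[0,1/2]`, and `g` is continuous there
(`Summable` bound `c_m 2^{-m}`, `continuousOn_tsum`). `g ≥ 1`, so `lo k x ≥ (1/2)^{k²} > 0`. `(1-x)^n ≥ 1 - nx` and `(1-x)^n ≤ e^{-nx} ≤ 1 - nx + n²x²` (`n = k²`, `x ≥ 0`), so `|(1-x)^n (1+nx) - 1| ≤ C x²` and `|lo k x - 1| ≤ C' x²`. Finally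
`|log y| ≤ |y-1|/min(y,1) ≤ 2^{k²} |y-1|` for `y = lo k x`. EASY-MEDIUM. -/
def S_LoB : Prop := ∀ k : ℕ, 1 ≤ k → ContinuousOn (lo k) (Icc 0 (1 / 2)) ∧ ∃ C : ℝ, 1 ≤ C ∧ ∀ x : ℝ, 0 ≤ x → x ≤ 1 / 2 →
  Summable (fun m : ℕ => (((m + k - 1).choose m : ℕ) : ℝ) ^ 2 * x ^ m) ∧ 0 < lo k x ∧ |Real.log (lo k x)| ≤ C * x ^ 2

/-- **LoZ, Euler product.** `x_p = p^{-(1+2η)} ≤ 1/2`. `n ↦ dk k n ^ 2 n^{-(1+2η)}` is multiplicative and summable (SSb), its Euler factor at `p` is `∑_m dk k (p^m)² x_p^m = ∑_m C(m+k-1,m)² x_p^m` (dkB with `k = j + 1`: `C(m+j, j) = C(m+j, m)`), so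
`SS k η = ∏_p ∑_m C(m+k-1,m)² x_p^m` (`EulerProduct.eulerProduct_hasProd`); the same for `k = 1`: `∑ n^{-(1+2η)} = ∏_p (1-x_p)^{-1}`. Take logarithms: all factors are positive and `∑_p log (factor)` converges absolutely (`log lo k (x_p) = O(x_p²)` by LoB, `-log(1-x_p) = O(x_p)`, `∑_p x_p < ∞`).
USES: S_dkB, S_SSb, S_LoB. MEDIUM. -/
def S_LoZ : Prop := ∀ k : ℕ, 1 ≤ k → ∀ η : ℝ, 0 < η → η ≤ 1 / 8 →
  Summable (fun p : Nat.Primes => Real.log (lo k (((p : ℕ) : ℝ) ^ (-(1 + 2 * η))))) ∧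
  Real.log (SS k η) = (k : ℝ) ^ 2 * Real.log (∑' n : ℕ, 1 / (n : ℝ) ^ (1 + 2 * η)) +
    ∑' p : Nat.Primes, Real.log (lo k (((p : ℕ) : ℝ) ^ (-(1 + 2 * η))))

/-- **LoL, the limit.** `ak k = exp(∑'_p log lo k (1/p))` (`Real.rexp_tsum_eq_tprod`; summable by LoB, `∑ 1/p²`), in particular `ak k > 0`. By LoZ `(2η)^{k²} SS k η = (2η ∑ n^{-(1+2η)})^{k²} exp(∑'_p log lo k (p^{-(1+2η)}))`; the first factor tends to `1`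
(`tendsto_sub_mul_tsum_nat_rpow`), the sum tends to `∑'_p log lo k (1/p)` by dominated convergence (`tendsto_tsum_of_dominated_convergence`, bound `C/p²`, continuity of `lo k` and of `η ↦ p^{-(1+2η)}`). USES: S_LoB, S_LoZ, S_SSb. EASY-MEDIUM. -/
def S_LoL : Prop := ∀ k : ℕ, 1 ≤ k → 0 < ak k ∧ Tendsto (fun η : ℝ => (2 * η) ^ k ^ 2 * SS k η) (𝓝[>] 0) (𝓝 (ak k))

/-- **Fph, fixed distance.** `σ = 1/2 + φ/log T`: HNF applies for `T ≥ T₁` (`A ≤ c φ`; `log T/log log T → ∞`); `(2φ/L)^{k²} SS k (φ/L) → ak k` (LoL), so `|(2φ/L)^{k²} SS - ak k| ≤ e^{-A/200}` for `T ≥ T₁`. -/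
def S_Fph : Prop := ∀ k : ℕ, 1 ≤ k → ∀ C₀ : ℝ, 400 ≤ C₀ → ∃ c C : ℝ, 0 < c ∧ 1 ≤ C ∧
  ∀ A φ : ℝ, 1 ≤ A → A ≤ c * φ → ∃ T₁ : ℝ, 3 ≤ T₁ ∧ ∀ T : ℝ, T₁ ≤ T →
    |(1 / T) * (∫ t in GG T A C₀, ‖riemannZeta ((1 / 2 + φ / Real.log T : ℝ) + t * Complex.I)‖ ^ (2 * k)) -
      ak k * (Real.log T / (2 * φ)) ^ k ^ 2| ≤ C * Real.exp (-(A / 200)) * (Real.log T / (2 * φ)) ^ k ^ 2

end Pool.Agent.Work.MP_56b8f5_nt.HN
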