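import Pool.Agent.Work.MP_56b8f5_nt.HN.Defs

/-!
MP_56b8f5_nt, block HN: the interfaces between the parts and the final statement, with the proof of the final statement
from the interfaces.
-/

set_option autoImplicit false

open MeasureTheory Set Filter Topology

noncomputable section

namespace Pool.Agent.Work.MP_56b8f5_nt.HN

open Pool.Agent.Work.MP_56b8f5_nt.EM Pool.Agent.Work.MP_56b8f5_nt.WM Pool.Agent.Work.MP_56b8f5_nt.SH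
open Pool.Agent.Work.MP_56b8f5_nt.HZ

/-- **TwA, interface of part (I): twisted approximation in the mean.** For all `t`, no condition on zeros. -/
def S_TwA : Prop := ∀ k : ℕ, ∃ C T₀ : ℝ, 1 ≤ C ∧ 3 ≤ T₀ ∧ ∀ T : ℝ, T₀ ≤ T → ∀ η : ℝ, 0 ≤ η → η ≤ 1 / 8 →
  ∀ N : ℕ, 1 ≤ N → (N : ℝ) ^ 100 ≤ T → ∀ (N' : ℕ) (q : ℕ → ℝ), IsDk k η T N' q →
  ∫ t in T..(2 * T), ‖riemannZeta (sp η t) - DN N η t‖ ^ 2 * ‖De N' q t‖ ^ 2 ≤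
    C * (T * Real.log T ^ (k + 1) ^ 2) * (N : ℝ) ^ (-η)

/-- **PWN, interface of part (II): the pointwise inequality** on `GG T A C₀` on the lines `1/2 + η`. -/
def S_PWN : Prop := ∃ c : ℝ → ℕ → ℝ, (∀ x n, 0 ≤ c x n ∧ c x n ≤ 1) ∧ ∀ A C₀ : ℝ, 0 ≤ A → 0 ≤ C₀ →
  ∃ m₀ T₀ K : ℝ, 1 ≤ m₀ ∧ 3 ≤ T₀ ∧ 0 ≤ K ∧ ∀ T : ℝ, T₀ ≤ T → ∀ t ∈ GG T A C₀, ∀ η : ℝ, 0 ≤ η → η ≤ 1 / 8 →
    ∀ x : ℝ, Real.log T ≤ x → x ≤ T ^ (1 / m₀) →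
    ‖riemannZeta (sp η t)‖ ≤
      Real.exp ((Dx (fun n => c x n * (n : ℝ) ^ (-η)) x t).re + K * (Real.log T / Real.log x))

/-- **HN3, interface of part (III): Harper's splitting** for an abstract function `z`. Outside the bad set `F` the power `z^{2k}` is at most
`e^{C₂/b}` times the square of one Dirichlet polynomial, and the bad set contributes at most `e^{-1/b}` to the moment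
`2(k+1)`. -/
def S_HN3 : Prop := ∀ (k : ℕ) (K b₀ : ℝ), 0 ≤ K → 0 < b₀ → ∃ C₂ b₁ T₀ : ℝ, 1 ≤ C₂ ∧ 0 < b₁ ∧ 3 ≤ T₀ ∧
  ∀ T : ℝ, T₀ ≤ T → ∀ b : ℝ, Real.log (Real.log T) / Real.log T ≤ b → b ≤ b₁ → ∀ η : ℝ, 0 ≤ η → η ≤ 1 / 8 →
  ∀ v : ℝ → ℕ → ℝ, (∀ x n, 0 ≤ v x n ∧ v x n ≤ (n : ℝ) ^ (-η)) → ∀ z : ℝ → ℝ, Continuous z → (∀ t, 0 ≤ z t) →
  ∀ E : Set ℝ, MeasurableSet E → E ⊆ Icc T (2 * T) → HypN v K b₀ T E z →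
  ∃ (N' : ℕ) (q : ℕ → ℝ) (F : Set ℝ), IsDk k η T N' q ∧ MeasurableSet F ∧
    (∀ t ∈ E, t ∉ F → z t ^ (2 * k) ≤ Real.exp (C₂ / b) * ‖De N' q t‖ ^ 2) ∧
    ∫ t in E ∩ F, z t ^ (2 * (k + 1)) ≤ C₂ * Real.exp (-(1 / b)) * (T * Real.log T ^ (k + 1) ^ 2)

/-- **CmN, interface of part (V): the complement of** `GG T A 400` in the measure tilted by a Dirichlet polynomial. -/
def S_CmN : Prop := ∀ k : ℕ, ∃ C T₀ : ℝ, 1 ≤ C ∧ 3 ≤ T₀ ∧ ∀ T : ℝ, T₀ ≤ T → ∀ η : ℝ, 0 < η → η ≤ 1 / 8 →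
  ∀ (N : ℕ) (q : ℕ → ℝ), IsDk k η T N q → ∀ A : ℝ, 1 ≤ A →
  ∫ t in Icc T (2 * T) \ GG T A 400, ‖De N q t‖ ^ 2 ≤ C * Real.exp (-(A / 200)) * (T * SS k η)

/-- **MvN, mean value theorem.** Expand `‖De N c t‖² = ∑_{m,n} c_m c_n (mn)^{-1/2} (n/m)^{it}`. Diagonal: `(b-a) ∑ c_n²/n`. For `m ≠ n`:
`|∫_a^b e^{itλ} dt| ≤ 2/|λ|`, `|λ| = |log(n/m)| ≥ 1/N`, so the rest is at most `2N (∑ |c_n| n^{-1/2})² ≤ 2N² ∑ c_n²/n`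
(Cauchy-Schwarz). See `HZB.S_MVa` (`B_MVa.lean`) and `I_Lh.lean` for similar computations. -/
def S_MvN : Prop := ∀ (a b : ℝ) (N : ℕ) (c : ℕ → ℝ), a ≤ b →
  |(∫ t in a..b, ‖De N c t‖ ^ 2) - (b - a) * ∑ n ∈ Finset.Icc 1 N, c n ^ 2 / (n : ℝ)| ≤
    2 * (N : ℝ) ^ 2 * ∑ n ∈ Finset.Icc 1 N, c n ^ 2 / (n : ℝ)

/-- **Dpw, powers of `DN`.** The coefficients of `DN^k` (as a polynomial on the line `1/2`) are `n^{-η}` times the number of factorisations `n = n_1 ⋯ n_k` with all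
`n_i ≤ N`; this number is at most `d_k(n)`, with equality for `n ≤ N`. Induction on `k`: `DN^{k+1} = DN^k · DN`, the coefficients are multiplied by Dirichlet
convolution (`HZ.S_DsM`, first part), `dk (k+1) n = ∑_{d ∣ n} dk k d` (S_dkB). For `k = 0`: `q 1 = 1`, `q n = 0` otherwise. USES: S_dkB (of StmtsE), HZ.S_DsM. -/
def S_Dpw : Prop := ∀ (k N : ℕ) (η T : ℝ), 1 ≤ N → 0 ≤ η → ((N ^ k : ℕ) : ℝ) ^ 100 ≤ T →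
  ∃ q : ℕ → ℝ, IsDk k η T (N ^ k) q ∧ (∀ t : ℝ, DN N η t ^ k = De (N ^ k) q t) ∧
    ∀ n : ℕ, 1 ≤ n → n ≤ N → q n = dk k n * (n : ℝ) ^ (-η)

/-- **SSb, the size of `SS`** (interface of StmtsE). -/
def S_SSb : Prop := ∀ k : ℕ, ∃ C : ℝ, 1 ≤ C ∧ ∀ η : ℝ, 0 < η → η ≤ 1 / 8 →
  Summable (fun n : ℕ => dk k n ^ 2 * (n : ℝ) ^ (-(1 + 2 * η))) ∧ 1 ≤ SS k η ∧ (1 / η) ^ k ^ 2 ≤ C * SS k η ∧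
  ∀ N : ℕ, 1 ≤ N → SS k η ≤ (∑ n ∈ Finset.Icc 1 N, dk k n ^ 2 * (n : ℝ) ^ (-(1 + 2 * η))) + C * (N : ℝ) ^ (-η) * SS k η

/-! ### Decomposition -/

/-- **DeU, decomposition, upper bound.** Split `E` into: (a) `‖z-D‖ ≤ δ‖D‖`: `‖z‖ ≤ (1+δ)‖D‖`; (b) `‖z-D‖ > δ‖D‖`, `t ∉ F`: `‖z‖ ≤ ‖z-D‖ + ‖D‖ ≤ (1+1/δ)‖z-D‖`, so
`‖z‖^{2(k+1)} = ‖z‖^{2k} ‖z‖² ≤ M ‖Q‖² (1+1/δ)² ‖z-D‖²`; (c) `‖z-D‖ > δ‖D‖`, `t ∈ F`: part of `E ∩ F`. Pointwise: the indicator of `E` times `‖z‖^{2(k+1)}` is at most the sum of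
the three integrands; everything is continuous and `E ⊆ [T,2T]`. -/
def S_DeU : Prop := ∀ (k : ℕ) (δ T M : ℝ) (z D Q : ℝ → ℂ) (E F : Set ℝ), 0 < δ → 1 ≤ T → 0 ≤ M →
  Continuous z → Continuous D → Continuous Q → MeasurableSet E → E ⊆ Icc T (2 * T) → MeasurableSet F →
  (∀ t ∈ E, t ∉ F → ‖z t‖ ^ (2 * k) ≤ M * ‖Q t‖ ^ 2) →
  ∫ t in E, ‖z t‖ ^ (2 * (k + 1)) ≤ (1 + δ) ^ (2 * (k + 1)) * (∫ t in T..(2 * T), ‖D t ^ (k + 1)‖ ^ 2) +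
    M * (1 + 1 / δ) ^ 2 * (∫ t in T..(2 * T), ‖z t - D t‖ ^ 2 * ‖Q t‖ ^ 2) +
    ∫ t in E ∩ F, ‖z t‖ ^ (2 * (k + 1))

/-- **DeL, decomposition, lower bound.** Where `‖z-D‖ ≤ δ‖D‖`: `‖z‖ ≥ (1-δ)‖D‖`; elsewhere `‖D‖^{2(k+1)} = ‖D‖² ‖D^k‖² ≤ δ^{-2} ‖z-D‖² ‖D^k‖²`. So on `E`:
`‖z‖^{2(k+1)} ≥ (1-δ)^{2(k+1)} (‖D‖^{2(k+1)} - δ^{-2} ‖z-D‖² ‖D^k‖²)`. Integrate over `E`; `∫_E ‖D‖^{2(k+1)} = ∫_{[T,2T]} - ∫_{[T,2T] ∖ E}`. -/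
def S_DeL : Prop := ∀ (k : ℕ) (δ T : ℝ) (z D : ℝ → ℂ) (E : Set ℝ), 0 < δ → δ ≤ 1 → 1 ≤ T →
  Continuous z → Continuous D → MeasurableSet E → E ⊆ Icc T (2 * T) →
  (1 - δ) ^ (2 * (k + 1)) * ((∫ t in T..(2 * T), ‖D t ^ (k + 1)‖ ^ 2) -
      (∫ t in Icc T (2 * T) \ E, ‖D t ^ (k + 1)‖ ^ 2) -
      (1 / δ) ^ 2 * (∫ t in T..(2 * T), ‖z t - D t‖ ^ 2 * ‖D t ^ k‖ ^ 2)) ≤
    ∫ t in E, ‖z t‖ ^ (2 * (k + 1))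

/-! ### The final statement -/

/-- **NNp, the length.** `N = ⌊T^{1/(100 k)}⌋` (`k ≥ 1`): `(N^k)^100 ≤ T`, `1 ≤ N`, `N ≥ T^{1/(100k)}/2`, so `N^{-η} ≤ 2 T^{-η/(100k)} = 2 exp(-η log T/(100k))` (`η ≤ 1`). -/
def S_NNp : Prop := ∀ k : ℕ, 1 ≤ k → ∀ T : ℝ, 3 ≤ T → ∃ N : ℕ, 1 ≤ N ∧ ((N ^ k : ℕ) : ℝ) ^ 100 ≤ T ∧ ∀ η : ℝ, 0 ≤ η → η ≤ 1 →
  (N : ℝ) ^ (-η) ≤ 2 * Real.exp (-(η * Real.log T / (100 * k)))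

/-- **MnD, the mean of `‖DN^{k+1}‖²`.** `N` with `(N^{k+1})^100 ≤ T`: Dpw with `k+1`: `DN^{k+1} = De (N^{k+1}) q`, `q n ^ 2/n ≤ dk² n^{-(1+2η)}` for all `n ≥ 1`, with equality for `n ≤ N`. MvN on
`[T,2T]`: the error factor `2 (N^{k+1})² ≤ 2 T^{1/50} ≤ δ T` for `T ≥ T₀(δ)`. Upper bound: `∑_{n ≤ N^{k+1}} q(n)²/n ≤ SS` (SSb: summable, nonnegative terms). Lower bound:
`∑_{n ≤ N^{k+1}} q(n)²/n ≥ ∑_{n ≤ N} dk² n^{-(1+2η)} ≥ SS - C N^{-η} SS` (SSb). USES: S_Dpw, S_MvN, S_SSb. -/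
def S_MnD : Prop := ∀ k : ℕ, ∃ C : ℝ, 1 ≤ C ∧ ∀ δ : ℝ, 0 < δ → δ ≤ 1 → ∃ T₀ : ℝ, 3 ≤ T₀ ∧ ∀ T : ℝ, T₀ ≤ T → ∀ η : ℝ, 0 < η → η ≤ 1 / 8 →
  ∀ N : ℕ, 1 ≤ N → ((N ^ (k + 1) : ℕ) : ℝ) ^ 100 ≤ T →
  (∫ t in T..(2 * T), ‖DN N η t ^ (k + 1)‖ ^ 2) ≤ (1 + δ) * (T * SS (k + 1) η) ∧
  (1 - δ - C * (N : ℝ) ^ (-η)) * (T * SS (k + 1) η) ≤ ∫ t in T..(2 * T), ‖DN N η t ^ (k + 1)‖ ^ 2

/-- **Upp, the upper bound.** Given `k, ε, A, C₀`. `δ` with `(1+δ)^{2(k+1)} (1+δ) + 2δ ≤ 1+ε`. PWN: `c`, `m₀, K`; HN3 with `b₀ = 1/m₀`, `v x n = c x n n^{-η}`, `z t = ‖ζ(sp η t)‖`, `E = GG T A C₀` (measurable: HZ.S_GGm; HypN is PWN,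
`Dx` and `HypN` are the same sum, `chi t n = n^{-(1/2+it)}`): `C₂, b₁`. Let `X = η log T ≥ Φ ≥ 1`, `1/b = R + 2(k+1)² log X`, `R ≥ 1/b₁`. As `X ≤ log T`, `1/b ≤ R + 2(k+1)² log log T ≤ log T/log log T` for `T ≥ T₀`. HN3 gives `N', q, F`.
`N` from NNp (with `k+1`); DeU with `D = DN N η`, `Q = De N' q`, `M = e^{C₂/b}`. First term: MnD, at most `(1+δ)^{2(k+1)} (1+δ) T SS`. Second term: TwA (`N^100 ≤ (N^{k+1})^100 ≤ T`), with `log T = X/η`,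
`(1/η)^{(k+1)²} ≤ C SS` (SSb), `N^{-η} ≤ 2e^{-X/(100(k+1))}` and `e^{C₂/b} = e^{C₂ R} X^{2(k+1)² C₂}`: at most
`C(δ,R) X^{(k+1)² + 2(k+1)² C₂} e^{-X/(100(k+1))} T SS ≤ δ T SS` for `X ≥ Φ`. Third term: `C₂ e^{-R} X^{-2(k+1)²} T (X/η)^{(k+1)²} ≤ C₂ C e^{-R} T SS ≤ δ T SS` for large `R`.
USES: S_TwA, S_PWN, S_HN3, S_SSb, S_DeU, S_NNp, S_MnD, HZ.S_GGm. -/
def S_Upp : Prop := ∀ (k : ℕ) (ε : ℝ), 0 < ε → ∀ A C₀ : ℝ, 0 ≤ A → 0 ≤ C₀ → ∃ Φ T₀ : ℝ, 1 ≤ Φ ∧ 3 ≤ T₀ ∧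
  ∀ T : ℝ, T₀ ≤ T → ∀ η : ℝ, Φ / Real.log T ≤ η → η ≤ 1 / 8 →
    ∫ t in GG T A C₀, ‖riemannZeta (sp η t)‖ ^ (2 * (k + 1)) ≤ (1 + ε) * (T * SS (k + 1) η)

/-- **Low, the lower bound.** `δ` with `(1-δ)^{2(k+1)} (1 - 4δ) ≥ 1-ε`, `A₀` with `C e^{-A₀/200} ≤ δ` (CmN with `k+1`). `GG T A 400 ⊆ GG T A C₀` for `C₀ ≥ 400` (`log(1+..) ≥ 0`), so the complement of `GG T A C₀` in `[T,2T]` is contained in the complement of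
`GG T A 400`. DeL with `D = DN N η` (`N` from NNp with `k+1`), `E = GG T A C₀`. First integral: MnD, at least `(1 - δ - C N^{-η}) T SS`, `C N^{-η} ≤ 2C e^{-X/(100(k+1))} ≤ δ`. Second: CmN with `q` from Dpw (`k+1`), at most `δ T SS`. Third: TwA
with `q` from Dpw (exponent `k`, `(N^k)^100 ≤ T`), at most `δ^{-2} C T (X/η)^{(k+1)²} 2e^{-X/(100(k+1))} ≤ δ T SS` for `X = η log T ≥ Φ` (SSb). USES: S_TwA, S_CmN, S_SSb, S_DeL, S_NNp, S_MnD, S_Dpw, HZ.S_GGm. -/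
def S_Low : Prop := ∀ (k : ℕ) (ε : ℝ), 0 < ε → ∃ A₀ : ℝ, 1 ≤ A₀ ∧ ∀ A : ℝ, A₀ ≤ A → ∀ C₀ : ℝ, 400 ≤ C₀ → ∃ Φ T₀ : ℝ, 1 ≤ Φ ∧
  3 ≤ T₀ ∧ ∀ T : ℝ, T₀ ≤ T → ∀ η : ℝ, Φ / Real.log T ≤ η → η ≤ 1 / 8 →
    (1 - ε) * (T * SS (k + 1) η) ≤ ∫ t in GG T A C₀, ‖riemannZeta (sp η t)‖ ^ (2 * (k + 1))

/-- **HNm, THE FINAL STATEMENT.** From Upp and Low. -/
def S_HNm : Prop := ∀ k : ℕ, 1 ≤ k → ∀ ε : ℝ, 0 < ε → ∃ A₀ : ℝ, ∀ A : ℝ, A₀ ≤ A → ∀ C₀ : ℝ, 400 ≤ C₀ → ∃ Φ T₀ : ℝ, 0 < Φ ∧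
  3 ≤ T₀ ∧ ∀ T : ℝ, T₀ ≤ T → ∀ σ : ℝ, 1 / 2 + Φ / Real.log T ≤ σ → σ ≤ 5 / 8 →
    |(∫ t in GG T A C₀, ‖riemannZeta (σ + t * Complex.I)‖ ^ (2 * k)) - T * ∑' n : ℕ, dk k n ^ 2 * (n : ℝ) ^ (-(2 * σ))| ≤
      ε * (T * ∑' n : ℕ, dk k n ^ 2 * (n : ℝ) ^ (-(2 * σ)))

end Pool.Agent.Work.MP_56b8f5_nt.HN
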