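import Pool.Agent.Work.MP_56b8f5_nt.HN.StmtsM
import Pool.Agent.Work.MP_56b8f5_nt.HZ.StmtsA

/-!
MP_56b8f5_nt, block HN, part P: the pointwise inequality on `G(T;A,C)` on the lines `Re s = 1/2 + η`, `0 ≤ η ≤ 1/10`. All items are COPIES of
the landed items Idn, TR, TL, Pair, ZN, ZF, PWa, PW of block HZ (files `HZ/I_*.lean`) with `s₁ = 1/2 + it` replaced by `sp η t = 1/2 + η + it`. The docstrings say what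
changes. The functions `Phi`, `Cu`, `Cr`, `Hh`, `kt`, `wk`, `S1` and the predicates `IsKer`, `IsC` are those of HZ.
An item may assume the statements of all EARLIER items and all landed facts of block HZ.
-/

set_option autoImplicit false

open MeasureTheory Set Filter Topology

noncomputable section

namespace Pool.Agent.Work.MP_56b8f5_nt.HN

open Pool.Agent.Work.MP_56b8f5_nt.EM Pool.Agent.Work.MP_56b8f5_nt.WM Pool.Agent.Work.MP_56b8f5_nt.SH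
open Pool.Agent.Work.MP_56b8f5_nt.HZ

/-- **IdnN** (copy of `HZ.S_Idn`, file `I_Idn.lean`). Green's formula for `f(z) = ζ(sp η t + z)`; nothing changes: the pole `1 - sp η t` has imaginary part `-t`, `t ≥ 10 H`, so it is outside the ball of radius `3H`;
`analyticOrderNatAt f (ρ - sp η t) = mz ρ`. MEDIUM (copy). -/
def S_IdnN : Prop := ∀ κ : ℝ → ℝ, IsKer κ → ∀ c X a H t η : ℝ, 0 < X → 0 < a → a ≤ 1 / 16 → 4 ≤ H → 10 * H ≤ t → 0 ≤ η → η ≤ 1 / 10 →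
  riemannZeta (sp η t) ≠ 0 → riemannZeta (sp η t + a) ≠ 0 →
  ∀ Z : Finset ℂ, (∀ ρ, ρ ∈ Z ↔ riemannZeta ρ = 0 ∧ ‖ρ - sp η t‖ ≤ 3 * H) →
  Integrable (fun z => Real.log ‖riemannZeta (sp η t + z)‖ * Cu κ c X a H z) ∧
  Real.log ‖riemannZeta (sp η t)‖ =
    ∑ ρ ∈ Z, mz ρ * Phi κ c X a H (ρ - sp η t) -
      1 / (2 * Real.pi) * ∫ z, Real.log ‖riemannZeta (sp η t + z)‖ * Cu κ c X a H z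

/-- **TRN** (copy of `HZ.S_TR`, file `I_TR.lean`). On the support of `Cr` still `Re (sp η t + z) ≥ 2`. `HZ.S_KDn` with `ω = log n`, `s = sp η t`: `-2π kk(log n/X) n^{-a} Re n^{-sp η t}` and `n^{-sp η t} = n^{-η} n^{-(1/2+it)}`, so the weights are
`kk(log n/X) n^{-a} n^{-η} = wk κ X (a+η) n`. MEDIUM (copy). -/
def S_TRN : Prop := ∀ (κ : ℝ → ℝ) (c C : ℝ), IsKer κ → IsC κ c C → ∃ C' : ℝ, 1 ≤ C' ∧ ∀ X a H t η : ℝ, 1 ≤ X →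
  0 < a → a ≤ 1 / 16 → 4 ≤ H → 10 * H ≤ t → 0 ≤ η → η ≤ 1 / 10 →
  Integrable (fun z => Real.log ‖riemannZeta (sp η t + z)‖ * Cr κ c X a H z) ∧
  |(∫ z, Real.log ‖riemannZeta (sp η t + z)‖ * Cr κ c X a H z) +
    2 * Real.pi * (Dx (wk κ X (a + η)) (Real.exp X) t).re| ≤ C' * Real.exp (5 / 2 * X) / H ^ 2

/-- **Zl3, `log|ζ|` in the mean on wider boxes.** As `HZ.S_Zl1` for `1/5 ≤ Re ≤ 4`: the part `Re ≤ 3` is `HZ.S_Zl1`; for `Re ≥ 2` the integrand is at most `1` (last part of `HZ.S_Zeu`) and continuous. `1 ≤ log |t|`. EASY. -/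
def S_Zl3 : Prop := ∃ C : ℝ, 1 ≤ C ∧ ∀ t : ℝ, 4 ≤ |t| →
  IntegrableOn (fun s : ℂ => Real.log ‖riemannZeta s‖) {s : ℂ | 1 / 5 ≤ s.re ∧ s.re ≤ 4 ∧ |s.im - t| ≤ 1 / 2} ∧
  ∫ s in {s : ℂ | 1 / 5 ≤ s.re ∧ s.re ≤ 4 ∧ |s.im - t| ≤ 1 / 2}, |Real.log ‖riemannZeta s‖| ≤
    C * Real.log |t|

/-- **TLN** (copy of `HZ.S_TL`, file `I_TL.lean`). The bounds for `Cu - Cr` are the same. The support `-3/10 ≤ y ≤ 5/2` is `1/5 ≤ Re s ≤ 31/10` for `s = sp η t + z`, so use Zl3 instead of `HZ.S_Zl1`. MEDIUM (copy). -/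
def S_TLN : Prop := ∀ (κ : ℝ → ℝ) (c C : ℝ), IsKer κ → IsC κ c C → ∃ C' : ℝ, 1 ≤ C' ∧ ∀ X a H t η : ℝ, 5 ≤ X →
  0 < a → a ≤ 1 / 16 → 4 ≤ H → 10 * H ≤ t → 0 ≤ η → η ≤ 1 / 10 →
  |∫ z, Real.log ‖riemannZeta (sp η t + z)‖ * (Cu κ c X a H z - Cr κ c X a H z)| ≤
    C' * Real.log t * (1 / X ^ 3 + a + Real.exp (5 / 2 * X) / H ^ 2)

/-- **PairN, a pair of zeros** `sp η t + z`, `z = ±y - η + iv` (symmetric to each other in the line `1/2`), contributes at most `0`. By symmetry `y ≥ 0`. Let `h = η`, `h' = η + a`, `f(h) = ((y-h)²+v²)((y+h)²+v²) = (y²-h²)² + 2v²(y²+h²) + v⁴`, so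
`f(h') - f(h) = (h'²-h²)(h'²+h²+2v²-2y²)` and `h'²-h² = a(a+2η)`. For `z ≠ a` each term is `S1(X(z-a)) - log|z-a| + log|z|`, the logarithms of the pair give `-½ log(f(h')/f(h))`.
Case 1, `y ≤ h'/4`: `f(h) ≤ (17/16)(h'²+v²)²`, `h'²+h²+2v²-2y² ≥ (7/8)(h'²+v²)`, so `f(h')/f(h) ≥ 1 + s`, `s = (4/5) a h'/(h'²+v²) ≤ 1` (`a+2η ≥ h'`), `log(1+s) ≥ s/2`: gain `≥ (1/5) a h'/(h'²+v²)`. Loss: `Re w ≤ -(3/4) X h' ≤ -(3/4) λ ≤ -1`,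
`‖w‖² ≥ X² (9/16)(h'²+v²)`, both `|S1| ≤ C/‖w‖³ ≤ (64/27) C/(X³ (h'²+v²)^{3/2}) ≤ (64/27) C/(X³ h' (h'²+v²))`, and `X³ h'² a ≥ λ³`: fine for `λ³ ≥ 24 C`.
Case 2, `y > h'/4 ≥ a/4`: put `r = |v| L`. `A + C₀ log(1+r) ≥ yL > aL/4 ≥ λL/(4X) ≥ λm₀/4`, so `r ≥ r₀(m₀)` is large (impossible if `C₀ = 0`), `X|v| = rX/L ≥ λr/(4(A+C₀ log(1+r))) ≥ max(1, (1+r)^{1/2})`,
`y ≤ |v|(A+C₀ log(1+r))/r ≤ |v|/10`, so `h' < 4y ≤ (2/5)|v|`. Gain: `f(h')/f(h) ≥ 1 + a(a+2η)(1.98 v²)/(1.37 v⁴) ≥ 1 + a²/v²`, `½ log ≥ ¼ a²/v² ≥ ¼ λ²/(X|v|)²` (`a²/v² ≤ 1`). Loss (`Re w ≤ Xy` for both): `|S1| ≤ C(1+e^{Xy})/(X|v|)³`,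
`e^{Xy} ≤ exp((X/L)(A+C₀ log(1+r))) ≤ e^A (1+r)^{1/4}` (`m₀ ≥ 4C₀`, `m₀ ≥ 1`). Fine if `16 C e^A (1+r)^{1/4} ≤ λ² (1+r)^{1/2}`. Model: `HZ.S_Pair`, file `I_Pair.lean` (the case `η = 0`). MEDIUM (copy). -/
def S_PairN : Prop := ∀ (κ : ℝ → ℝ) (c C : ℝ), IsKer κ → 1 ≤ C → IsC κ c C → ∃ lam₀ : ℝ, 1 ≤ lam₀ ∧ ∀ lam : ℝ,
  lam₀ ≤ lam → ∀ A C₀ : ℝ, 0 ≤ A → 0 ≤ C₀ → ∃ m₀ : ℝ, 1 ≤ m₀ ∧ ∀ L X a η y v : ℝ, 1 ≤ X → m₀ * X ≤ L → 0 ≤ η → η ≤ 1 / 10 →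
  lam / X ≤ a → a ≤ 2 * lam / X → |y| * L ≤ A + C₀ * Real.log (1 + |v| * L) → ¬(|y| = η ∧ v = 0) →
  2 * (Real.log X - c) + (Hh κ (X * (((y - η : ℝ) : ℂ) + v * Complex.I - a))).re +
    (Hh κ (X * (((-y - η : ℝ) : ℂ) + v * Complex.I - a))).re + Real.log ‖((y - η : ℝ) : ℂ) + v * Complex.I‖ +
    Real.log ‖((-y - η : ℝ) : ℂ) + v * Complex.I‖ ≤ 0

/-- **ZNN, near zeros** (copy of `HZ.S_ZN`, file `I_ZN.lean`), `|Im ρ - t| ≤ 1/8`. `y = Re ρ - 1/2`: `|y| L ≤ A + C₀ log(1+|v|L)` gives `|y| ≤ 1/40` for `T ≥ T₀`, so `z = ρ - sp η t = y - η + iv` has `|Re z| ≤ 1/10 + 1/40 = 1/8` and all cut-offs are `1`: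
`Phi(z) = Re Hh(X(z-a)) + log X - c + log‖z‖`. The set of near zeros is stable under `ρ ↦ 1 - conj ρ`, i.e. `y - η + iv ↦ -y - η + iv`, with the same multiplicities (`HZ.S_Zsy`): `∑ m Φ = ½ ∑ m (Φ(z) + Φ(z'))  ≤ 0` by PairN (`z ≠ 0`, `z' ≠ 0` as
`ζ(sp η t) ≠ 0`: `|y| = η, v = 0` would make `ρ` or `1 - conj ρ` equal to `sp η t`). USES: S_PairN, HZ.S_Zsy. EASY-MEDIUM (copy). -/
def S_ZNN : Prop := ∀ (κ : ℝ → ℝ) (c C : ℝ), IsKer κ → 1 ≤ C → IsC κ c C → ∃ lam₀ : ℝ, 1 ≤ lam₀ ∧ ∀ lam : ℝ,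
  lam₀ ≤ lam → ∀ A C₀ : ℝ, 0 ≤ A → 0 ≤ C₀ → ∃ m₀ T₀ : ℝ, 1 ≤ m₀ ∧ 3 ≤ T₀ ∧ ∀ T : ℝ, T₀ ≤ T → ∀ t ∈ GG T A C₀, ∀ η : ℝ, 0 ≤ η → η ≤ 1 / 10 →
  riemannZeta (sp η t) ≠ 0 → ∀ X a : ℝ, 1 ≤ X → m₀ * X ≤ Real.log T → lam / X ≤ a →
  a ≤ 2 * lam / X → ∀ Z : Finset ℂ,
    (∀ ρ, ρ ∈ Z ↔ riemannZeta ρ = 0 ∧ 1 / 5 ≤ ρ.re ∧ |ρ.im - t| ≤ 1 / 8) →
    ∑ ρ ∈ Z, mz ρ * Phi κ c X a (Real.sqrt T) (ρ - sp η t) ≤ 0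

/-- **ZFN, far zeros** (copy of `HZ.S_ZF`, file `I_ZF.lean`), `|v| > 1/8`. `z = ρ - sp η t = y - η + iv`, `Re z ≤ y`, so `e^{X Re z} ≤ e^{Xy}` and all bounds are the same; the zeros with `cy (Re z) ≠ 0` have `Re ρ ≥ 1/2 + η - 3/10 ≥ 1/5`, those with
`cn (Re z) ≠ 0` have `Re ρ ≥ 1/4`. MEDIUM (copy). -/
def S_ZFN : Prop := ∀ (κ : ℝ → ℝ) (c C : ℝ), IsKer κ → 1 ≤ C → IsC κ c C → ∀ A C₀ : ℝ, 0 ≤ A → 0 ≤ C₀ →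
  ∃ m₀ T₀ C' : ℝ, 1 ≤ m₀ ∧ 3 ≤ T₀ ∧ 1 ≤ C' ∧ ∀ T : ℝ, T₀ ≤ T → ∀ t ∈ GG T A C₀, ∀ η : ℝ, 0 ≤ η → η ≤ 1 / 10 → ∀ X a : ℝ, 8 ≤ X →
  m₀ * X ≤ Real.log T → 0 < a → a ≤ 1 / 16 → ∀ Z : Finset ℂ,
    (∀ ρ ∈ Z, riemannZeta ρ = 0 ∧ 1 / 8 < |ρ.im - t|) →
    ∑ ρ ∈ Z, mz ρ * |Phi κ c X a (Real.sqrt T) (ρ - sp η t)| ≤
      C' * Real.log T * (a + 1 / X)

/-- **PWb** (copy of `HZ.S_PWa`, file `I_PWa.lean`). The inequality for almost all `a`: IdnN with `H = √T`, TRN, TLN, ZNN, ZFN. Zeros in the ball with `Re ρ < 1/5` have `Re z < -3/10`, so `Phi = 0`. USES: S_IdnN, S_TRN, S_TLN, S_ZNN, S_ZFN. MEDIUM (copy). -/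
def S_PWb : Prop := ∀ (κ : ℝ → ℝ) (c C : ℝ), IsKer κ → 1 ≤ C → IsC κ c C → ∃ lam : ℝ, 1 ≤ lam ∧
  ∀ A C₀ : ℝ, 0 ≤ A → 0 ≤ C₀ → ∃ m₀ T₀ K : ℝ, 1 ≤ m₀ ∧ 3 ≤ T₀ ∧ 0 ≤ K ∧ ∀ T : ℝ, T₀ ≤ T → ∀ t ∈ GG T A C₀, ∀ η : ℝ, 0 ≤ η → η ≤ 1 / 10 →
  riemannZeta (sp η t) ≠ 0 → ∀ X a : ℝ, Real.log (Real.log T) ≤ X → m₀ * X ≤ Real.log T →
  lam / X ≤ a → a ≤ 2 * lam / X → riemannZeta (sp η t + a) ≠ 0 →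
    Real.log ‖riemannZeta (sp η t)‖ ≤ (Dx (wk κ X (a + η)) (Real.exp X) t).re + K * (Real.log T / X)

/-- **PWc, conclusion:** the interface `S_PWN` of StmtsM for `η ≤ 1/10` (copy of `HZ.S_PW`, file `I_PW.lean`). `HZ.S_Kex`, `HZ.S_KS1`, PWb with `X = log x`; `c x n = wk κ (log x) (λ/log x) n` (`0` for `n = 0`), `wk κ X (λ/X + η) n = c x n n^{-η}` for `n ≥ 1`; the terms
`n ≤ x` only. If `ζ(sp η t) = 0` trivial. Otherwise PWb holds for all `a ∈ (λ/X, 2λ/X)` except finitely many; both sides are continuous in `a`, let `a → λ/X`. USES: S_PWb, HZ.S_Kex, HZ.S_KS1, HZ.S_Kkt. MEDIUM (copy). -/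
def S_PWc : Prop := ∃ c : ℝ → ℕ → ℝ, (∀ x n, 0 ≤ c x n ∧ c x n ≤ 1) ∧ ∀ A C₀ : ℝ, 0 ≤ A → 0 ≤ C₀ →
  ∃ m₀ T₀ K : ℝ, 1 ≤ m₀ ∧ 3 ≤ T₀ ∧ 0 ≤ K ∧ ∀ T : ℝ, T₀ ≤ T → ∀ t ∈ GG T A C₀, ∀ η : ℝ, 0 ≤ η → η ≤ 1 / 10 →
    ∀ x : ℝ, Real.log T ≤ x → x ≤ T ^ (1 / m₀) →
    ‖riemannZeta (sp η t)‖ ≤
      Real.exp ((Dx (fun n => c x n * (n : ℝ) ^ (-η)) x t).re + K * (Real.log T / Real.log x))

end Pool.Agent.Work.MP_56b8f5_nt.HN
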