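import Pool.Agent.Work.MP_56b8f5_nt.HN.StmtsK

/-!
MP_56b8f5_nt, block HN, part Q: the quantitative form of the limit `(2η)^{k²} S_k(η) → a_k` (helper77).
-/

set_option autoImplicit false

open MeasureTheory Set Filter Topology

noncomputable section

namespace Pool.Agent.Work.MP_56b8f5_nt.HN

open Pool.Agent.Work.MP_56b8f5_nt.EM Pool.Agent.Work.MP_56b8f5_nt.WM Pool.Agent.Work.MP_56b8f5_nt.SH
open Pool.Agent.Work.MP_56b8f5_nt.HZ

/-- **akS, the limit with a rate.** `|log lo k x - log lo k y| ≤ C y (y-x)` for `0 ≤ x ≤ y ≤ 1/2`, so with `x = p^{-(1+2η)}`, `y = 1/p`, `y - x ≤ (2η log p)/p`: the sums over the primes differ by `≤ C η ∑ log p/p²`; and `|2η ∑ n^{-(1+2η)} - 1| ≤ C η`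
(`ZetaAsymptotics.zeta_limit_aux1`, `ZetaAsymptotics.continuousOn_termTSum`). USES: S_LoB, S_LoZ, S_SSb. -/
def S_akS : Prop := ∀ k : ℕ, 1 ≤ k → 0 < ak k ∧ ∃ C : ℝ, 1 ≤ C ∧ ∀ η : ℝ, 0 < η → η ≤ 1 / 8 →
  |(2 * η) ^ k ^ 2 * SS k η - ak k| ≤ C * η

end Pool.Agent.Work.MP_56b8f5_nt.HN
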