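import Pool.Agent.Work.MP_56b8f5_nt.HN.StmtsE

/-!
MP_56b8f5_nt, block HN, part T: the tilted measure of the complement of `G(T;A,400)`, for an arbitrary tilt `De N q` with divisor bounded coefficients
(`IsDk k η T N q`). All items are COPIES of the landed items FoB, Lh, Lt, Gro, Yb, Kap, Cmp of block HZ (files `HZ/I_*.lean`), with `Nb M S l β t` replaced by `‖De N q t‖`
and `exp(β² st)` by `SS k η`. The docstrings say what changes. An item may assume the statements of all EARLIER items, of StmtsE, and all landed facts of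
blocks HZ, WM, SH, EM.
-/

set_option autoImplicit false

open MeasureTheory Set Filter Topology

noncomputable section

namespace Pool.Agent.Work.MP_56b8f5_nt.HN

open Pool.Agent.Work.MP_56b8f5_nt.EM Pool.Agent.Work.MP_56b8f5_nt.WM Pool.Agent.Work.MP_56b8f5_nt.SH
open Pool.Agent.Work.MP_56b8f5_nt.HZ

/-- **FbN, the form of `M Q`** (copy of `HZ.S_FoB`, file `I_FoB.lean`). `D = cvl (muP P Y) q`; `D(n) ≠ 0` implies `n ≤ N` and that all primes of `n` are `≤ Y` (`muP` lives on `n < Y`, `q` on `n ≤ Nq ≤ Y`). As in FoB, with `h_τ = fp (cp Y τ) * (dk k (·) (·)^{-η})` in place of `fp (cp Y τ) * pe`: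
`Fo N D = VV ∑_n |(1*D)(n)|²/n ≤ VV R² (∫ ‖ω‖) ∫ ‖ω(τ)‖ ∑_n h_τ(n)²/n dτ`, EmN and `HZ.S_Msu`: `∑_n h_τ²/n ≤ C exp(k² ∑_{p ∈ pr ⌊Y⌋} p^{-(1+2η)}) e^{(2+2k)C'} (2+|τ|)^{4+4k}`, and `exp(k² ∑_{p ∈ pr ⌊Y⌋} p^{-(1+2η)}) ≤ C SS k η` (EuN); `VV ≤ C/log Y`.
USES: S_dkB, S_EmN, S_EuN, HZ.S_FoV, HZ.S_Om, HZ.S_Dv, HZ.S_Msu. MEDIUM (copy). -/
def S_FbN : Prop := ∀ k : ℕ, ∀ P : ℝ → ℝ, IsP P → ∃ C : ℝ, 1 ≤ C ∧ ∀ (Y R η : ℝ) (q : ℕ → ℂ) (Nq N : ℕ), 3 ≤ Y → 0 ≤ R → 0 < η → η ≤ 1 / 8 →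
  (∀ n, ‖q n‖ ≤ R * (dk k n * (n : ℝ) ^ (-η))) → (∀ n, q n ≠ 0 → 1 ≤ n ∧ n ≤ Nq) → (Nq : ℝ) ≤ Y → Y * Nq ≤ N →
  Fo N (cvl (muP P Y) q) ≤ C * R ^ 2 / Real.log Y * SS k η

/-- **LhN, the line `1/2`** (copy of `HZ.S_Lh`, file `I_Lh.lean`). `Y = T^{1/10}`, `R = N^b` (`‖qt q b τ n‖ = q(n) n^b ≤ R dk k n n^{-η}`), `R² ≤ T^{b/50}` (`N ≤ T^{1/100}`), `N ≤ Y`. First integral: as in Lh with FbN in place of FoB; last term of Q2: `∑ ‖D‖ ≤ (∑_{n ≤ Y} |muP|)(∑ ‖qt‖) ≤ C T^{1/10} R ∑_{n ≤ N} dk k n ≤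
C T^{1/10} R 2^k T^{1/50}` (dkS), its square times `(6T)^{-1/4}` is `≤ C R²`. `SS k η ≥ 1` (SSb). Second integral: MvN-like for complex coefficients, i.e. the lemma `mv` of `I_Lh.lean`: `≤ C T ∑ |qt n|²/n ≤ C T R² ∑ dk k n ^ 2 n^{-(1+2η)} ≤ C T R² SS k η` (SSb: summable).
USES: S_FbN, S_dkS, S_SSb, HZ.S_FoP, HZ.S_Q2, HZ.S_Wt, HZ.S_DsM. MEDIUM (copy). -/
def S_LhN : Prop := ∀ k : ℕ, ∀ P : ℝ → ℝ, IsP P → ∃ C T₀ : ℝ, 1 ≤ C ∧ 3 ≤ T₀ ∧ ∀ T : ℝ, T₀ ≤ T → ∀ η : ℝ, 0 < η → η ≤ 1 / 8 →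
  ∀ (N : ℕ) (q : ℕ → ℝ), IsDk k η T N q → ∀ b τ : ℝ, 0 ≤ b → b ≤ 3 / 2 →
  (∫ v in (T / 4)..(5 * T), ‖riemannZeta (1 / 2 + v * Complex.I) * MM P (T ^ (1 / 10 : ℝ)) (1 / 2 + v * Complex.I) *
      Ds N (qt q b τ) (1 / 2 + v * Complex.I)‖ ^ 2 ≤ C * T ^ (1 + b / 50 : ℝ) * SS k η) ∧
  ∫ v in (T / 4)..(5 * T), ‖Ds N (qt q b τ) (1 / 2 + v * Complex.I)‖ ^ 2 ≤ C * T ^ (1 + b / 50 : ℝ) * SS k η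

/-- **LtN, the line `2`** (copy of `HZ.S_Lt`, file `I_Lt.lean`). `|ζM - 1| ≤ C T^{-1/20}` as there; `|Qt(2+iv)| ≤ ∑ q(n) n^{b-2} ≤ ∑_{n ≤ N} dk k n ≤ 2^k N² ≤ 2^k T^{1/50}` (dkS; `n^{-η} ≤ 1`, `b ≤ 3/2`). USES: S_dkS. EASY-MEDIUM (copy). -/
def S_LtN : Prop := ∀ k : ℕ, ∀ P : ℝ → ℝ, IsP P → (∀ ξ : ℝ, 0 ≤ ξ → ξ ≤ 1 / 2 → P ξ = 1) → ∃ C T₀ : ℝ, 1 ≤ C ∧
  3 ≤ T₀ ∧ ∀ T : ℝ, T₀ ≤ T → ∀ η : ℝ, 0 < η → η ≤ 1 / 8 → ∀ (N : ℕ) (q : ℕ → ℝ), IsDk k η T N q → ∀ b τ : ℝ, 0 ≤ b → b ≤ 3 / 2 →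
  ∫ v in (T / 4)..(5 * T), ‖(riemannZeta (2 + v * Complex.I) * MM P (T ^ (1 / 10 : ℝ)) (2 + v * Complex.I) - 1) *
      Ds N (qt q b τ) (2 + v * Complex.I)‖ ^ 2 ≤ C * T ^ (94 / 100 : ℝ)

/-- **GrN, growth** (copy of `HZ.S_Gro`, file `I_Gro.lean`). `|Qt| ≤ ∑ q(n) n^b ≤ N^{3/2} 2^k N² ≤ T` for `T ≥ T₀(k)` (dkS). USES: S_dkS. EASY (copy). -/
def S_GrN : Prop := ∀ k : ℕ, ∀ P : ℝ → ℝ, IsP P → ∃ T₀ : ℝ, 3 ≤ T₀ ∧ ∀ T : ℝ, T₀ ≤ T → ∀ η : ℝ, 0 < η → η ≤ 1 / 8 →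
  ∀ (N : ℕ) (q : ℕ → ℝ), IsDk k η T N q → ∀ b τ : ℝ, 0 ≤ b → b ≤ 3 / 2 → ∃ H : ℂ → ℂ, Differentiable ℂ H ∧
  (∀ s : ℂ, 1 / 2 ≤ s.re → s.re ≤ 2 → ‖H s‖ ≤ T ^ 10 * (1 + |s.im|) ^ 10) ∧
  ∀ s : ℂ, s ≠ 1 → (riemannZeta s * MM P (T ^ (1 / 10 : ℝ)) s - 1) * Ds N (qt q b τ) s = H s / (s - 1)

/-- **YbN, between the lines** (copy of `HZ.S_Yb`, file `I_Yb.lean`). On the line `1/2 + b`: `‖Ds N (qt q b τ)‖ = ‖De N q (v+τ)‖` (`HZ.S_DsM`, second part). The computation with `X = SS k η ≥ 1` (SSb) in place of `exp(β² st)` is the same (lemma `calc_final`). USES: S_LhN, S_LtN, S_GrN, S_SSb, HZG.S_G1, HZ.S_DsM.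
EASY-MEDIUM (copy). -/
def S_YbN : Prop := ∀ k : ℕ, ∃ P : ℝ → ℝ, IsP P ∧ (∀ ξ : ℝ, 0 ≤ ξ → ξ ≤ 1 / 2 → P ξ = 1) ∧ ∃ C T₀ : ℝ,
  1 ≤ C ∧ 3 ≤ T₀ ∧ ∀ T : ℝ, T₀ ≤ T → ∀ η : ℝ, 0 < η → η ≤ 1 / 8 → ∀ (N : ℕ) (q : ℕ → ℝ), IsDk k η T N q → ∀ b τ : ℝ, 0 ≤ b → b ≤ 3 / 2 →
  ∫ v in (T / 3)..(4 * T), ‖riemannZeta ((1 / 2 + b : ℝ) + v * Complex.I) *
      MM P (T ^ (1 / 10 : ℝ)) ((1 / 2 + b : ℝ) + v * Complex.I) - 1‖ ^ 2 * ‖De N q (v + τ)‖ ^ 2 ≤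
    C * T * SS k η * Real.exp (-(b * Real.log T / 50))

/-- **KpN, one dyadic range** (copy of `HZ.S_Kap`, file `I_Kap.lean`): `Nb β ^ 2` becomes `‖De N q t‖ ^ 2`. USES: S_YbN, HZG.S_G2. EASY-MEDIUM (copy). -/
def S_KpN : Prop := ∀ k : ℕ, ∃ C T₀ : ℝ, 1 ≤ C ∧ 3 ≤ T₀ ∧ ∀ T : ℝ, T₀ ≤ T → ∀ η : ℝ, 0 < η → η ≤ 1 / 8 → ∀ (N : ℕ) (q : ℕ → ℝ), IsDk k η T N q →
  ∀ κ : ℝ, 1 ≤ κ → κ ≤ Real.log T / 2 →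
  ∫ t in {t : ℝ | T ≤ t ∧ t ≤ 2 * T ∧ ∃ ρ : ℂ, riemannZeta ρ = 0 ∧ ρ.re < 1 ∧
      κ < (ρ.re - 1 / 2) * Real.log T ∧ (ρ.re - 1 / 2) * Real.log T ≤ 2 * κ ∧
      |t - ρ.im| ≤ Real.exp (κ / 200) / Real.log T}, ‖De N q t‖ ^ 2 ≤
    C * Real.exp (-(κ / 200)) * (T * SS k η)

/-- **CpN, conclusion:** the interface `S_CmN` of StmtsM (copy of `HZ.S_Cmp`, file `I_Cmp.lean`). `SS k η ≥ 0`. USES: S_KpN. EASY (copy). -/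
def S_CpN : Prop := S_CmN

end Pool.Agent.Work.MP_56b8f5_nt.HN
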