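import Pool.Agent.Work.MP_56b8f5_nt.HN.StmtsX

/-!
MP_56b8f5_nt, block HN, part W: moments at ARBITRARY COMPLEX POINTS to the right of the line `Re s = σ`. Every docstring is the complete
proof; an item may assume the statements of all earlier items and all landed facts of blocks HN, HZ, WM, SH. Models: the items of part X (`I_dxB`, `I_CfX`, `I_PxD`,
`I_ApX`, `I_CmX`, `I_MnX`, `I_ShF`), which are the case `s_j = σ + i x_j`.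

THEOREM SHW. For `k, l ≥ 1` and complex `s_j, w_j` with real parts in `[σ, 5/8]` and imaginary parts at most `√T`, over the `t` in `[0,T]` such that all `t + Im s_j`, `t + Im w_j` are good heights:
`∫ ∏ ζ(s_j + it) ∏ conj ζ(w_j + it) dt = T ∑ d_s(n) conj d_w(n) + O(e^{-A/400} T (S_k(σ) S_l(σ))^{1/2})`, `d_s(n) = ∑_{n_1 ⋯ n_k = n} n_1^{-s_1} ⋯ n_k^{-s_k}`.
-/

set_option autoImplicit false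

open MeasureTheory Set Filter Topology

noncomputable section

namespace Pool.Agent.Work.MP_56b8f5_nt.HN

open Pool.Agent.Work.MP_56b8f5_nt.EM Pool.Agent.Work.MP_56b8f5_nt.WM Pool.Agent.Work.MP_56b8f5_nt.SH
open Pool.Agent.Work.MP_56b8f5_nt.HZ

/-- The arithmetic function `n ↦ n^{-s}`. -/
def es (s : ℂ) : ArithmeticFunction ℂ := ⟨fun n => if n = 0 then 0 else (n : ℂ) ^ (-s), by simp⟩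

/-- `d_s(n) = ∑_{n_1 ⋯ n_k = n} n_1^{-s_1} ⋯ n_k^{-s_k}`. -/
def dw {k : ℕ} (s : Fin k → ℂ) (n : ℕ) : ℂ := (∏ j, es (s j)) n

/-- The `t` in `[0,T]` such that all `t + Im s_j` are good. -/
def Ew {k : ℕ} (T A C : ℝ) (s : Fin k → ℂ) : Set ℝ := {t | 0 ≤ t ∧ t ≤ T ∧ ∀ j, t + (s j).im ∈ Zs T A C}

/-- `∑_{n ≤ T^{1/200}} d_s(n) n^{-it}`. -/
def PW {k : ℕ} (T : ℝ) (s : Fin k → ℂ) (t : ℝ) : ℂ :=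
  ∑ n ∈ Finset.Icc 1 ⌊T ^ (1 / 200 : ℝ)⌋₊, dw s n * (n : ℂ) ^ (-(t * Complex.I))

/-- The real parts are in `[1/2 + η, 5/8]`. -/
def InR {k : ℕ} (η : ℝ) (s : Fin k → ℂ) : Prop := ∀ j, 1 / 2 + η ≤ (s j).re ∧ (s j).re ≤ 5 / 8

/-- **dwB, the coefficients** (as `S_dxB`, file `I_dxB.lean`). Induction on `k` (`Fin.prod_univ_succ`): `‖es s n‖ = n^{-Re s} ≤ n^{-(1/2+η)}` for `n ≥ 1`, and `dk (k+1) n = ∑_{d ∣ n} dk k (n/d)`, `d^{-(1/2+η)} (n/d)^{-(1/2+η)} = n^{-(1/2+η)}`. For `n = 0` both sides are `0` (`dk k 0 = 0`). Second part: induction. EASY. -/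
def S_dwB : Prop := (∀ (k : ℕ) (η : ℝ) (s : Fin k → ℂ) (n : ℕ), (∀ j, 1 / 2 + η ≤ (s j).re) → ‖dw s n‖ ≤ dk k n * (n : ℝ) ^ (-(1 / 2 + η))) ∧
  ∀ (k n : ℕ) (σ : ℝ), 1 ≤ n → dw (fun _ : Fin k => (σ : ℂ)) n = (dk k n * (n : ℝ) ^ (-σ) : ℝ)

/-- **CfW, products of `DN`** (as `S_CfX`, file `I_CfX.lean`). The factor `DN N (Re s_j - 1/2) (t + Im s_j) = ∑_{n ≤ N} n^{-s_j} n^{-it}`. The coefficients (as a polynomial on the line `1/2`) are `n^{1/2} ∑ ∏ n_j^{-s_j}` over the factorisations with all `n_j ≤ N`. USES: S_dkB, S_dwB, HZ.S_DsM. MEDIUM (copy). -/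
def S_CfW : Prop := ∀ (k N : ℕ) (η T : ℝ) (s : Fin k → ℂ), 1 ≤ N → (∀ j, 1 / 2 + η ≤ (s j).re) → ((N ^ k : ℕ) : ℝ) ^ 100 ≤ T →
  ∃ q : ℕ → ℂ, IsDc k η T (N ^ k) q ∧ (∀ t : ℝ, ∏ j, DN N ((s j).re - 1 / 2) (t + (s j).im) = Dc (N ^ k) q t) ∧
    ∀ n : ℕ, 1 ≤ n → n ≤ N → q n = dw s n * (((n : ℝ) ^ (1 / 2 : ℝ) : ℝ) : ℂ)

/-- **PwD** (as `S_PxD`, file `I_PxD.lean`; `PW T s t = Dc N₂ p t` with `p n = dw s n n^{1/2}` for `1 ≤ n ≤ N₂`). USES: S_MvC, S_SSb, S_dwB, S_CfW. MEDIUM (copy). -/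
def S_PwD : Prop := ∀ k : ℕ, ∃ C : ℝ, 1 ≤ C ∧ ∀ η : ℝ, 0 < η → η ≤ 1 / 8 → ∀ T : ℝ, 1 ≤ T → ∀ s : Fin k → ℂ, (∀ j, 1 / 2 + η ≤ (s j).re) → ∀ (a b : ℝ), a ≤ b →
  (∫ t in a..b, ‖PW T s t‖ ^ 2) ≤ (b - a + 2 * (⌊T ^ (1 / 200 : ℝ)⌋₊ : ℝ) ^ 2) * SS k η ∧
  (∀ N : ℕ, 1 ≤ N → N ^ k ≤ ⌊T ^ (1 / 200 : ℝ)⌋₊ →
    (∫ t in a..b, ‖(∏ j, DN N ((s j).re - 1 / 2) (t + (s j).im)) - PW T s t‖ ^ 2) ≤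
      (b - a + 2 * (⌊T ^ (1 / 200 : ℝ)⌋₊ : ℝ) ^ 2) * (C * (N : ℝ) ^ (-η) * SS k η)) ∧
  ∀ v : ℝ, ∃ p : ℕ → ℂ, IsDc k η (Real.sqrt T) ⌊T ^ (1 / 200 : ℝ)⌋₊ p ∧ ∀ u : ℝ, PW T s (u - v) = Dc ⌊T ^ (1 / 200 : ℝ)⌋₊ p u

/-- **PrJ, products, with a parameter.** From PrI and `a b^{k-1} ≤ μ^{-k(k-1)} a^k + μ^k b^k` for `a, b ≥ 0` (`x y^{k-1} ≤ x^k + y^k` with `x = a μ^{-(k-1)}`, `y = μ b`), `a = ‖z_i - D_i‖²`, `b = ‖D_j‖²`; `μ^{-k(k-1)} ≥ 1`. USES: S_PrI. EASY. -/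
def S_PrJ : Prop := ∀ k : ℕ, 1 ≤ k → ∀ (μ : ℝ) (z D : Fin k → ℂ), 0 < μ → μ ≤ 1 → ‖(∏ j, z j) - ∏ j, D j‖ ^ 2 ≤
  2 * 4 ^ k * (k + 1) * ((1 / μ) ^ (k * (k - 1)) * (∑ i, ‖z i - D i‖ ^ (2 * k)) + μ ^ k * ∑ j, ‖D j‖ ^ (2 * k))

/-- **DkM, the `2k`-th moment of `DN`.** Dpw (with `T := (N^k)^100`): `DN^k = De (N^k) q`, MvN, `q(n)²/n ≤ dk k n ^ 2 n^{-(1+2η)}`, SSb (summable). USES: S_Dpw, S_MvN, S_SSb. EASY. -/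
def S_DkM : Prop := ∀ (k N : ℕ) (η a b : ℝ), 1 ≤ N → 0 < η → η ≤ 1 / 8 → a ≤ b →
  ∫ t in a..b, ‖DN N η t‖ ^ (2 * k) ≤ (b - a + 2 * ((N ^ k : ℕ) : ℝ) ^ 2) * SS k η

/-- **ApW, approximation of `∏ ζ(s_j + it)`.** As `S_ApX` (file `I_ApX.lean`), with PrJ in place of PrI. `η = σ - 1/2`, `η_j = Re s_j - 1/2 ≥ η`, `x_j = Im s_j`, `M = min(η log T, log T/log log T)`, `S = SS k η`, `N = ⌊T^{1/(200k)}⌋` (`N ≥ 1`, `(N^k)^200 ≤ T`, `N^k ≤ ⌊T^{1/200}⌋`, `N ≥ T^{1/(200k)}/2`, so `N^{-η_j} ≤ 2e^{-η_j log T/(200k)}`; also for `η`).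
`z_j(t) = ζ(s_j + it) = ζ(sp η_j (t+x_j))`, `D_j(t) = DN N η_j (t+x_j)`. `SS k η_j ≤ SS k η` (termwise). (1) `t ≥ 2√T`: ApV (at `η_j`; constants `c₁, C₁`; `min(η_j log T, ..) ≥ M`): `∫ ‖z_j - D_j‖^{2k} ≤ C₁ e^{-c₁M} T S` (`u = t+x_j ∈ Zs ∩ [√T, 2T]`); DkM: `∫ ‖D_j‖^{2k} ≤ 4 T S`. PrJ with `μ = e^{-c₁M/(2k²)}`:
`μ^{-k(k-1)} ≤ e^{c₁M/2}`, so the integral of `‖∏ z - ∏ D‖²` is `≤ C (e^{-c₁M/2} + e^{-c₁M/(2k)}) T S`. PwD, second part. (2) `t ≤ 2√T`: `‖∏ z - P‖² ≤ 2‖∏ z‖² + 2‖P‖²`, `‖∏ z‖² ≤ ∑_j ‖z_j‖^{2k}`, SmX (at `Re s_j`) and PwD (first part). USES: S_PrJ, S_PwD, S_DkM, S_ApV, S_SmX, S_SSb, S_ZsI. MEDIUM. -/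
def S_ApW : Prop := ∀ k : ℕ, 1 ≤ k → ∀ C₀ : ℝ, 800 ≤ C₀ → ∃ c C T₀ : ℝ, 0 < c ∧ 1 ≤ C ∧ 3 ≤ T₀ ∧
  ∀ T : ℝ, T₀ ≤ T → ∀ σ A : ℝ, σ ≤ 5 / 8 → 1 ≤ A → A ≤ c * ((σ - 1 / 2) * Real.log T) → A ≤ c * (Real.log T / Real.log (Real.log T)) →
  ∀ s : Fin k → ℂ, InR (σ - 1 / 2) s → (∀ j, |(s j).im| ≤ Real.sqrt T) →
    ∫ t in Ew T A C₀ s, ‖(∏ j, riemannZeta (s j + t * Complex.I)) - PW T s t‖ ^ 2 ≤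
      C * Real.exp (-(c * min ((σ - 1 / 2) * Real.log T) (Real.log T / Real.log (Real.log T)))) *
        (T * ∑' n : ℕ, dk k n ^ 2 * (n : ℝ) ^ (-(2 * σ)))

/-- **CmW, the exceptional set** (as `S_CmX`, file `I_CmX.lean`, with PwD). USES: S_PwD, S_CmV, S_SSb, S_ZsI. EASY-MEDIUM (copy). -/
def S_CmW : Prop := ∀ k : ℕ, 1 ≤ k → ∃ C T₀ : ℝ, 1 ≤ C ∧ 3 ≤ T₀ ∧ ∀ C₀ : ℝ, 800 ≤ C₀ → ∀ T : ℝ, T₀ ≤ T →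
  ∀ σ A : ℝ, 1 / 2 < σ → σ ≤ 5 / 8 → 1 ≤ A → A ≤ Real.log T → ∀ (s : Fin k → ℂ) (v : ℝ), (∀ j, σ ≤ (s j).re) → |v| ≤ Real.sqrt T →
    ∫ t in {t : ℝ | 0 ≤ t ∧ t ≤ T ∧ t + v ∉ Zs T A C₀}, ‖PW T s t‖ ^ 2 ≤
      C * Real.exp (-(A / 400)) * (T * ∑' n : ℕ, dk k n ^ 2 * (n : ℝ) ^ (-(2 * σ)))

/-- **MnW, the mean of `P_s conj P_w`** (as `S_MnX`, file `I_MnX.lean`; `‖dw s n‖ ≤ dk k n n^{-σ}`). USES: S_MvC, S_SSb, S_SSu, S_dwB. MEDIUM (copy). -/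
def S_MnW : Prop := ∀ k l : ℕ, 1 ≤ k → 1 ≤ l → ∃ C T₀ : ℝ, 1 ≤ C ∧ 3 ≤ T₀ ∧ ∀ T : ℝ, T₀ ≤ T →
  ∀ σ A : ℝ, σ ≤ 5 / 8 → 1 ≤ A → A ≤ (σ - 1 / 2) * Real.log T → ∀ (s : Fin k → ℂ) (w : Fin l → ℂ),
    (∀ j, σ ≤ (s j).re) → (∀ j, σ ≤ (w j).re) →
    ‖(∫ t in (0 : ℝ)..T, PW T s t * (starRingEnd ℂ) (PW T w t)) - T * ∑' n : ℕ, dw s n * (starRingEnd ℂ) (dw w n)‖ ≤
      C * Real.exp (-(A / 400)) * (T * Real.sqrt ((∑' n : ℕ, dk k n ^ 2 * (n : ℝ) ^ (-(2 * σ))) *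
        ∑' n : ℕ, dk l n ^ 2 * (n : ℝ) ^ (-(2 * σ))))

/-- **ShW, THE FORMULA AT COMPLEX POINTS** (as `S_ShF`, file `I_ShF.lean`). USES: S_ApW, S_CmW, S_MnW, S_PwD, S_ZsI, S_SSb. MEDIUM (copy). -/
def S_ShW : Prop := ∀ k l : ℕ, 1 ≤ k → 1 ≤ l → ∀ C₀ : ℝ, 800 ≤ C₀ → ∃ c C T₀ : ℝ, 0 < c ∧ 1 ≤ C ∧ 3 ≤ T₀ ∧
  ∀ T : ℝ, T₀ ≤ T → ∀ σ A : ℝ, σ ≤ 5 / 8 → 1 ≤ A → A ≤ c * ((σ - 1 / 2) * Real.log T) → A ≤ c * (Real.log T / Real.log (Real.log T)) →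
  ∀ (s : Fin k → ℂ) (w : Fin l → ℂ), InR (σ - 1 / 2) s → InR (σ - 1 / 2) w →
    (∀ j, |(s j).im| ≤ Real.sqrt T) → (∀ j, |(w j).im| ≤ Real.sqrt T) →
    ‖(∫ t in Ew T A C₀ s ∩ Ew T A C₀ w, (∏ j, riemannZeta (s j + t * Complex.I)) *
        (starRingEnd ℂ) (∏ j, riemannZeta (w j + t * Complex.I))) -
      T * ∑' n : ℕ, dw s n * (starRingEnd ℂ) (dw w n)‖ ≤
      C * Real.exp (-(A / 400)) * (T * Real.sqrt ((∑' n : ℕ, dk k n ^ 2 * (n : ℝ) ^ (-(2 * σ))) *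
        ∑' n : ℕ, dk l n ^ 2 * (n : ℝ) ^ (-(2 * σ))))

end Pool.Agent.Work.MP_56b8f5_nt.HN
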