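import Pool.Agent.Work.MP_56b8f5_nt.HN.StmtsZ
import Pool.Agent.Work.MP_56b8f5_nt.HN.StmtsA
import Pool.Agent.Work.MP_56b8f5_nt.HN.StmtsT

/-!
MP_56b8f5_nt, block HN, part X: SHIFTED MOMENTS. Every docstring is the complete proof; an item may assume the statements of all
earlier items and all landed facts of blocks HN, HZ, WM, SH.

THEOREM SHF. For `k, l ≥ 1`, real shifts `|x_j|, |y_j| ≤ √T`, over the `t` in `[0,T]` such that all `t + x_j`, `t + y_j` are good heights: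
`∫ ∏ ζ(σ+i(t+x_j)) ∏ conj ζ(σ+i(t+y_j)) dt = T ∑ d_x(n) conj d_y(n) n^{-2σ} + O(e^{-A/400} T (S_k S_l)^{1/2})`.
-/

set_option autoImplicit false

open MeasureTheory Set Filter Topology

noncomputable section

namespace Pool.Agent.Work.MP_56b8f5_nt.HN

open Pool.Agent.Work.MP_56b8f5_nt.EM Pool.Agent.Work.MP_56b8f5_nt.WM Pool.Agent.Work.MP_56b8f5_nt.SH
open Pool.Agent.Work.MP_56b8f5_nt.HZ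

/-! ### Definitions -/

/-- Complex coefficients with `‖q(n)‖ ≤ d_k(n) n^{-η}` (complex version of `IsDk`). -/
structure IsDc (k : ℕ) (η T : ℝ) (N : ℕ) (q : ℕ → ℂ) : Prop where
  le : ∀ n, ‖q n‖ ≤ dk k n * (n : ℝ) ^ (-η)
  supp : ∀ n, q n ≠ 0 → 1 ≤ n ∧ n ≤ N
  one : 1 ≤ N
  len : (N : ℝ) ^ 100 ≤ T

/-- The value at `1/2 + it` of the Dirichlet polynomial with complex coefficients `q`. -/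
def Dc (N : ℕ) (q : ℕ → ℂ) (t : ℝ) : ℂ := Ds N q (1 / 2 + t * Complex.I)

/-- The twisted coefficients `q(n) n^{b - iτ}` (complex version of `HZ.qt`). -/
def qc (q : ℕ → ℂ) (b τ : ℝ) (n : ℕ) : ℂ := q n * (n : ℂ) ^ ((b : ℂ) - τ * Complex.I)

/-- The set of all good real heights: `GG T A C` and `G0 T A C` without the condition on the interval. -/
def Zs (T A C : ℝ) : Set ℝ := {u | ∀ ρ : ℂ, riemannZeta ρ = 0 → 0 < ρ.re → ρ.re < 1 →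
  (ρ.re - 1 / 2) * Real.log T ≤ A + C * Real.log (1 + |ρ.im - u| * Real.log T)}

/-- The `t` in `[0,T]` such that all `t + x_j` are good. -/
def Ex {k : ℕ} (T A C : ℝ) (x : Fin k → ℝ) : Set ℝ := {t | 0 ≤ t ∧ t ≤ T ∧ ∀ j, t + x j ∈ Zs T A C}

/-- The arithmetic function `n ↦ n^{-ix}`. -/
def ex (x : ℝ) : ArithmeticFunction ℂ := ⟨fun n => if n = 0 then 0 else (n : ℂ) ^ (-(x * Complex.I)), by simp⟩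

/-- `d_x(n) = ∑_{n_1 ⋯ n_k = n} n_1^{-i x_1} ⋯ n_k^{-i x_k}`. -/
def dx {k : ℕ} (x : Fin k → ℝ) (n : ℕ) : ℂ := (∏ j, ex (x j)) n

/-- `∑_{n ≤ T^{1/200}} d_x(n) n^{-σ-it}`. -/
def PX {k : ℕ} (T σ : ℝ) (x : Fin k → ℝ) (t : ℝ) : ℂ :=
  ∑ n ∈ Finset.Icc 1 ⌊T ^ (1 / 200 : ℝ)⌋₊, dx x n * (n : ℂ) ^ (-((σ : ℂ) + t * Complex.I))

/-! ### Group 1: the twisted approximation with complex coefficients (copies of part A, files `I_Tw1` - `I_Tw4`, `I_TwB`) -/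

/-- **XT1** (copy of `S_Tw1`, file `I_Tw1.lean`; Fob and Q2 are for complex coefficients, only `b` becomes complex). -/
def S_XT1 : Prop := ∀ k : ℕ, ∃ C T₀ : ℝ, 1 ≤ C ∧ 3 ≤ T₀ ∧ ∀ T : ℝ, T₀ ≤ T → ∀ (N' : ℕ) (b : ℕ → ℂ), IsDc k 0 T N' b →
  ∫ v in (T / 4)..(5 * T), ‖riemannZeta (1 / 2 + v * Complex.I)‖ ^ 2 * ‖Dc N' b v‖ ^ 2 ≤ C * (T * Real.log T ^ (k + 1) ^ 2)

/-- **MvC, mean value theorem, complex coefficients** (as `S_MvN`, file `I_MvN.lean`). Diagonal: `(b-a) ∑ c_n conj d_n/n`; for `m ≠ n`: `|∫_a^b e^{itλ} dt| ≤ 2/|λ| ≤ 2N`, so the rest is at most `2N (∑ |c_n| n^{-1/2})(∑ |d_n| n^{-1/2}) ≤ 2N² (∑ |c_n|²/n)^{1/2} (∑ |d_n|²/n)^{1/2} ≤ N² (∑ |c_n|²/n + ∑ |d_n|²/n)`. The second part is the case `c = d`. EASY-MEDIUM. -/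
def S_MvC : Prop := ∀ (a b : ℝ) (N : ℕ) (c d : ℕ → ℂ), a ≤ b →
  ‖(∫ t in a..b, Dc N c t * (starRingEnd ℂ) (Dc N d t)) - (b - a) * ∑ n ∈ Finset.Icc 1 N, c n * (starRingEnd ℂ) (d n) / (n : ℂ)‖ ≤
    (N : ℝ) ^ 2 * (∑ n ∈ Finset.Icc 1 N, ‖c n‖ ^ 2 / (n : ℝ) + ∑ n ∈ Finset.Icc 1 N, ‖d n‖ ^ 2 / (n : ℝ)) ∧
  |(∫ t in a..b, ‖Dc N c t‖ ^ 2) - (b - a) * ∑ n ∈ Finset.Icc 1 N, ‖c n‖ ^ 2 / (n : ℝ)| ≤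
    2 * (N : ℝ) ^ 2 * ∑ n ∈ Finset.Icc 1 N, ‖c n‖ ^ 2 / (n : ℝ)

/-- **XT2** (copy of `S_Tw2`, file `I_Tw2.lean`, with MvC in place of MvN; `e n = ∑_{d ∣ n, d ≤ N} b(n/d)` is complex, `‖e n‖ ≤ dk (k+1) n`). USES: S_MvC, S_dkB, S_SmN, HZ.S_DsM. -/
def S_XT2 : Prop := ∀ k : ℕ, ∃ C T₀ : ℝ, 1 ≤ C ∧ 3 ≤ T₀ ∧ ∀ T : ℝ, T₀ ≤ T → ∀ (N' : ℕ) (b : ℕ → ℂ), IsDc k 0 T N' b →
  ∀ N : ℕ, 1 ≤ N → (N : ℝ) ^ 100 ≤ T →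
  ∫ v in (T / 4)..(5 * T), ‖DN N 0 v‖ ^ 2 * ‖Dc N' b v‖ ^ 2 ≤ C * (T * Real.log T ^ (k + 1) ^ 2)

/-- **XT3** (copy of `S_Tw3`, file `I_Tw3.lean`). USES: S_dkS. -/
def S_XT3 : Prop := ∀ k : ℕ, ∃ C : ℝ, 1 ≤ C ∧ ∀ T : ℝ, 1 ≤ T → ∀ (N' : ℕ) (b : ℕ → ℂ), IsDc k 0 T N' b → ∀ N : ℕ, 1 ≤ N →
  ∫ v in (T / 4)..(5 * T), ‖(riemannZeta (2 + v * Complex.I) - Ds N (fun _ => 1) (2 + v * Complex.I)) *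
      Ds N' b (2 + v * Complex.I)‖ ^ 2 ≤ C * T * ((N : ℝ) ^ 2)⁻¹

/-- **XT4** (copy of `S_Tw4`, file `I_Tw4.lean`). USES: S_dkS. -/
def S_XT4 : Prop := ∀ k : ℕ, ∃ T₀ : ℝ, 3 ≤ T₀ ∧ ∀ T : ℝ, T₀ ≤ T → ∀ (N' : ℕ) (b : ℕ → ℂ), IsDc k 0 T N' b → ∀ N : ℕ, 1 ≤ N → (N : ℝ) ^ 100 ≤ T →
  ∃ H : ℂ → ℂ, Differentiable ℂ H ∧ (∀ s : ℂ, 1 / 2 ≤ s.re → s.re ≤ 2 → ‖H s‖ ≤ T ^ 10 * (1 + |s.im|) ^ 10) ∧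
  ∀ s : ℂ, s ≠ 1 → (riemannZeta s - Ds N (fun _ => 1) s) * Ds N' b s = H s / (s - 1)

/-- **TwC** (copy of `S_TwB`, file `I_TwB.lean`), complex coefficients. USES: S_XT1, S_XT2, S_XT3, S_XT4, HZG.S_G1. -/
def S_TwC : Prop := ∀ k : ℕ, ∃ C T₀ : ℝ, 1 ≤ C ∧ 3 ≤ T₀ ∧ ∀ T : ℝ, T₀ ≤ T → ∀ η : ℝ, 0 ≤ η → η ≤ 1 / 8 →
  ∀ N : ℕ, 1 ≤ N → (N : ℝ) ^ 100 ≤ T → ∀ (N' : ℕ) (q : ℕ → ℂ), IsDc k η T N' q →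
  ∫ t in T..(2 * T), ‖riemannZeta (sp η t) - DN N η t‖ ^ 2 * ‖Dc N' q t‖ ^ 2 ≤
    C * (T * Real.log T ^ (k + 1) ^ 2) * (N : ℝ) ^ (-η)

/-! ### Group 2: the complement of `G` with complex coefficients (copies of part T, files `I_LhN`, `I_LtN`, `I_GrN`, `I_YbN`, `I_KpN`, `I_CpN`; `HZ.qt q` becomes `qc q`, `De` becomes `Dc`;
`Ds N (qc q b τ) (1/2 + b + iv) = Dc N q (v + τ)` as in `HZ/I_DsM.lean`) -/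

/-- **XLh** (copy of `S_LhN`, file `I_LhN.lean`; FbN is for complex coefficients). USES: S_FbN, S_dkS, S_SSb, HZ.S_FoP, HZ.S_Q2, HZ.S_Wt, HZ.S_DsM. -/
def S_XLh : Prop := ∀ k : ℕ, ∀ P : ℝ → ℝ, IsP P → ∃ C T₀ : ℝ, 1 ≤ C ∧ 3 ≤ T₀ ∧ ∀ T : ℝ, T₀ ≤ T → ∀ η : ℝ, 0 < η → η ≤ 1 / 8 →
  ∀ (N : ℕ) (q : ℕ → ℂ), IsDc k η T N q → ∀ b τ : ℝ, 0 ≤ b → b ≤ 3 / 2 →
  (∫ v in (T / 4)..(5 * T), ‖riemannZeta (1 / 2 + v * Complex.I) * MM P (T ^ (1 / 10 : ℝ)) (1 / 2 + v * Complex.I) *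
      Ds N (qc q b τ) (1 / 2 + v * Complex.I)‖ ^ 2 ≤ C * T ^ (1 + b / 50 : ℝ) * SS k η) ∧
  ∫ v in (T / 4)..(5 * T), ‖Ds N (qc q b τ) (1 / 2 + v * Complex.I)‖ ^ 2 ≤ C * T ^ (1 + b / 50 : ℝ) * SS k η

/-- **XLt** (copy of `S_LtN`, file `I_LtN.lean`). USES: S_dkS. -/
def S_XLt : Prop := ∀ k : ℕ, ∀ P : ℝ → ℝ, IsP P → (∀ ξ : ℝ, 0 ≤ ξ → ξ ≤ 1 / 2 → P ξ = 1) → ∃ C T₀ : ℝ, 1 ≤ C ∧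
  3 ≤ T₀ ∧ ∀ T : ℝ, T₀ ≤ T → ∀ η : ℝ, 0 < η → η ≤ 1 / 8 → ∀ (N : ℕ) (q : ℕ → ℂ), IsDc k η T N q → ∀ b τ : ℝ, 0 ≤ b → b ≤ 3 / 2 →
  ∫ v in (T / 4)..(5 * T), ‖(riemannZeta (2 + v * Complex.I) * MM P (T ^ (1 / 10 : ℝ)) (2 + v * Complex.I) - 1) *
      Ds N (qc q b τ) (2 + v * Complex.I)‖ ^ 2 ≤ C * T ^ (94 / 100 : ℝ)

/-- **XGr** (copy of `S_GrN`, file `I_GrN.lean`). USES: S_dkS. -/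
def S_XGr : Prop := ∀ k : ℕ, ∀ P : ℝ → ℝ, IsP P → ∃ T₀ : ℝ, 3 ≤ T₀ ∧ ∀ T : ℝ, T₀ ≤ T → ∀ η : ℝ, 0 < η → η ≤ 1 / 8 →
  ∀ (N : ℕ) (q : ℕ → ℂ), IsDc k η T N q → ∀ b τ : ℝ, 0 ≤ b → b ≤ 3 / 2 → ∃ H : ℂ → ℂ, Differentiable ℂ H ∧
  (∀ s : ℂ, 1 / 2 ≤ s.re → s.re ≤ 2 → ‖H s‖ ≤ T ^ 10 * (1 + |s.im|) ^ 10) ∧
  ∀ s : ℂ, s ≠ 1 → (riemannZeta s * MM P (T ^ (1 / 10 : ℝ)) s - 1) * Ds N (qc q b τ) s = H s / (s - 1)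

/-- **XYb** (copy of `S_YbN`, file `I_YbN.lean`). USES: S_XLh, S_XLt, S_XGr, S_SSb, HZG.S_G1. -/
def S_XYb : Prop := ∀ k : ℕ, ∃ P : ℝ → ℝ, IsP P ∧ (∀ ξ : ℝ, 0 ≤ ξ → ξ ≤ 1 / 2 → P ξ = 1) ∧ ∃ C T₀ : ℝ,
  1 ≤ C ∧ 3 ≤ T₀ ∧ ∀ T : ℝ, T₀ ≤ T → ∀ η : ℝ, 0 < η → η ≤ 1 / 8 → ∀ (N : ℕ) (q : ℕ → ℂ), IsDc k η T N q → ∀ b τ : ℝ, 0 ≤ b → b ≤ 3 / 2 →
  ∫ v in (T / 3)..(4 * T), ‖riemannZeta ((1 / 2 + b : ℝ) + v * Complex.I) *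
      MM P (T ^ (1 / 10 : ℝ)) ((1 / 2 + b : ℝ) + v * Complex.I) - 1‖ ^ 2 * ‖Dc N q (v + τ)‖ ^ 2 ≤
    C * T * SS k η * Real.exp (-(b * Real.log T / 50))

/-- **XKp** (copy of `S_KpN`, file `I_KpN.lean`). USES: S_XYb, HZG.S_G2. -/
def S_XKp : Prop := ∀ k : ℕ, ∃ C T₀ : ℝ, 1 ≤ C ∧ 3 ≤ T₀ ∧ ∀ T : ℝ, T₀ ≤ T → ∀ η : ℝ, 0 < η → η ≤ 1 / 8 → ∀ (N : ℕ) (q : ℕ → ℂ), IsDc k η T N q →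
  ∀ κ : ℝ, 1 ≤ κ → κ ≤ Real.log T / 2 →
  ∫ t in {t : ℝ | T ≤ t ∧ t ≤ 2 * T ∧ ∃ ρ : ℂ, riemannZeta ρ = 0 ∧ ρ.re < 1 ∧
      κ < (ρ.re - 1 / 2) * Real.log T ∧ (ρ.re - 1 / 2) * Real.log T ≤ 2 * κ ∧
      |t - ρ.im| ≤ Real.exp (κ / 200) / Real.log T}, ‖Dc N q t‖ ^ 2 ≤
    C * Real.exp (-(κ / 200)) * (T * SS k η)

/-- **XCm** (copy of `S_CpN`, file `I_CpN.lean`). USES: S_XKp. -/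
def S_XCm : Prop := ∀ k : ℕ, ∃ C T₀ : ℝ, 1 ≤ C ∧ 3 ≤ T₀ ∧ ∀ T : ℝ, T₀ ≤ T → ∀ η : ℝ, 0 < η → η ≤ 1 / 8 →
  ∀ (N : ℕ) (q : ℕ → ℂ), IsDc k η T N q → ∀ A : ℝ, 1 ≤ A →
  ∫ t in Icc T (2 * T) \ GG T A 400, ‖Dc N q t‖ ^ 2 ≤ C * Real.exp (-(A / 200)) * (T * SS k η)

/-! ### Group 3: the `2k`-th moment of `ζ - DN` -/

/-- **DeR, decomposition** (as `S_DeM`, file `I_DeM.lean`, or `I_DeU.lean`). On `E`: (a) `‖z-D‖ ≤ δ‖D‖`: `‖z-D‖^{2(k+1)} ≤ δ² ‖D^{k+1}‖²` (`δ ≤ 1`). (b) otherwise `‖z-D‖^{2(k+1)} ≤ 4^{k+1} (‖z‖^{2(k+1)} + ‖D‖^{2(k+1)})` (`(a+b)^m ≤ 2^m (a^m + b^m)`),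
`‖D‖^{2(k+1)} ≤ δ^{-2} ‖z-D‖² ‖D^k‖²`, `‖z‖^{2(k+1)} ≤ M ‖Q‖² (1+1/δ)² ‖z-D‖²` for `t ∉ F`; for `t ∈ F` it is part of `E ∩ F`. EASY-MEDIUM. -/
def S_DeR : Prop := ∀ (k : ℕ) (δ T M : ℝ) (z D Q : ℝ → ℂ) (E F : Set ℝ), 0 < δ → δ ≤ 1 → 1 ≤ T → 0 ≤ M →
  Continuous z → Continuous D → Continuous Q → MeasurableSet E → E ⊆ Icc T (2 * T) → MeasurableSet F →
  (∀ t ∈ E, t ∉ F → ‖z t‖ ^ (2 * k) ≤ M * ‖Q t‖ ^ 2) →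
  ∫ t in E, ‖z t - D t‖ ^ (2 * (k + 1)) ≤ δ ^ 2 * (∫ t in T..(2 * T), ‖D t ^ (k + 1)‖ ^ 2) +
    4 ^ (k + 1) * (M * (1 + 1 / δ) ^ 2 * (∫ t in T..(2 * T), ‖z t - D t‖ ^ 2 * ‖Q t‖ ^ 2)) +
    4 ^ (k + 1) * ((1 / δ) ^ 2 * (∫ t in T..(2 * T), ‖z t - D t‖ ^ 2 * ‖D t ^ k‖ ^ 2)) +
    4 ^ (k + 1) * ∫ t in E ∩ F, ‖z t‖ ^ (2 * (k + 1))

/-- **ApR, the `2(k+1)`-th moment of `ζ - DN`** (copy of `S_ApD`, file `I_ApD.lean`, with DeR in place of DeM and `a = 1/(200(k+1))` in place of `1/(100(k+1))`). USES: S_TwA, S_PWU, S_HN4, S_SSb, S_DeR, S_MnE, S_Dpw, HZ.S_GGm. MEDIUM (copy). -/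
def S_ApR : Prop := ∀ (k : ℕ) (C₀ : ℝ), 0 ≤ C₀ → ∃ c C T₀ : ℝ, 0 < c ∧ 1 ≤ C ∧ 3 ≤ T₀ ∧
  ∀ T : ℝ, T₀ ≤ T → ∀ η A : ℝ, η ≤ 1 / 8 → 1 ≤ A → A ≤ c * (η * Real.log T) → A ≤ c * (Real.log T / Real.log (Real.log T)) →
  ∀ N : ℕ, 1 ≤ N → ((N ^ (k + 1) : ℕ) : ℝ) ^ 100 ≤ T → (N : ℝ) ^ (-η) ≤ 2 * Real.exp (-(η * Real.log T / (200 * (k + 1)))) →
    ∫ t in GG T A C₀, ‖riemannZeta (sp η t) - DN N η t‖ ^ (2 * (k + 1)) ≤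
      C * Real.exp (-(c * min (η * Real.log T) (Real.log T / Real.log (Real.log T)))) * (T * SS (k + 1) η)

/-! ### Group 4: sets and blocks -/

/-- **ZsI, inclusions.** Measurable: `HZ/I_GGm.lean`. `G0 = [0,T] ∩ Zs`, `GG = [T,2T] ∩ Zs` by definition. Symmetry: `ρ ↦ conj ρ` (`riemannZeta_conj` or `HZ.S_Zsy`). The inclusions are those of `S_DyI` (file `I_DyI.lean`) with `U ≤ T`: `(β-1/2) log U ≤ (β-1/2) log T` for `β > 1/2`, and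
`1+|γ-u| log T ≤ 2 (1+|γ-u| log U)`. EASY. -/
def S_ZsI : Prop := (∀ T A C : ℝ, 1 ≤ T → MeasurableSet (Zs T A C)) ∧
  (∀ T A C : ℝ, G0 T A C = Icc 0 T ∩ Zs T A C ∧ GG T A C = Icc T (2 * T) ∩ Zs T A C) ∧
  (∀ T A C u : ℝ, u ∈ Zs T A C → -u ∈ Zs T A C) ∧
  (∀ T U A C : ℝ, 1 ≤ U → U ≤ T → Real.log T ≤ 2 * Real.log U → 0 ≤ A → 0 ≤ C → GG U (A / 2) (C / 2) ⊆ Zs T A C) ∧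
  ∀ T U A C : ℝ, 1 < U → U ≤ T → Real.log T ≤ 2 * Real.log U → 0 ≤ A → 0 ≤ C →
    Zs T A C ∩ Icc U (2 * U) ⊆ GG U (A + C * Real.log 2) C ∧ Zs T A C ∩ Icc 0 U ⊆ G0 U (A + C * Real.log 2) C

/-- **ApV, ApR on `[√T, 2T]`.** Blocks `U = T/2^j`, `U ≥ √T`, cover `[√T, 2T]` up to one more block (`U/2 < √T ≤ U` gives `[√T, 2T] ⊆ [U, 2T] ∪ [√T, 2√T]`; take also the block `U = √T`): `log T ≤ 2 log U`, `U ≤ T`; ZsI: `Zs T A C₀ ∩ [U,2U] ⊆ GG U A' C₀`, `A' = A + C₀ log 2 ≤ (1+C₀) A`; ApR (`k = j+1`) at `U`, the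
conditions on `N`: `(N^k)^100 ≤ √T ≤ U`, `N^{-η} ≤ 2e^{-η log T/(200k)} ≤ 2e^{-η log U/(200k)}`. Sum: `∑ U ≤ 4T`; or DyS for the interval `[0, 2T]` (file `I_DyF.lean`: `AuxDyF.upper_abs`). See `I_ApZ.lean`. USES: S_ApR, S_ZsI, S_DyS, S_SSb. MEDIUM. -/
def S_ApV : Prop := ∀ k : ℕ, 1 ≤ k → ∀ C₀ : ℝ, 0 ≤ C₀ → ∃ c C T₀ : ℝ, 0 < c ∧ 1 ≤ C ∧ 3 ≤ T₀ ∧
  ∀ T : ℝ, T₀ ≤ T → ∀ η A : ℝ, η ≤ 1 / 8 → 1 ≤ A → A ≤ c * (η * Real.log T) → A ≤ c * (Real.log T / Real.log (Real.log T)) →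
  ∀ N : ℕ, 1 ≤ N → ((N ^ k : ℕ) : ℝ) ^ 200 ≤ T → (N : ℝ) ^ (-η) ≤ 2 * Real.exp (-(η * Real.log T / (200 * k))) →
    ∫ t in Zs T A C₀ ∩ Icc (Real.sqrt T) (2 * T), ‖riemannZeta (sp η t) - DN N η t‖ ^ (2 * k) ≤
      C * Real.exp (-(c * min (η * Real.log T) (Real.log T / Real.log (Real.log T)))) * (T * SS k η)

/-- **TwV, TwC on `[√T, 2T]`.** The same blocks `U ≥ √T`, `U ≤ T` (and `U = √T`): `N^100 ≤ √T ≤ U`, `(N')^100 ≤ √T ≤ U`, TwC at `U`, `log U ≤ log T`, `∑ U ≤ 4T`. USES: S_TwC, S_DyS. EASY-MEDIUM. -/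
def S_TwV : Prop := ∀ k : ℕ, ∃ C T₀ : ℝ, 1 ≤ C ∧ 3 ≤ T₀ ∧ ∀ T : ℝ, T₀ ≤ T → ∀ η : ℝ, 0 ≤ η → η ≤ 1 / 8 →
  ∀ N : ℕ, 1 ≤ N → (N : ℝ) ^ 200 ≤ T → ∀ (N' : ℕ) (q : ℕ → ℂ), IsDc k η (Real.sqrt T) N' q →
  ∫ t in (Real.sqrt T)..(2 * T), ‖riemannZeta (sp η t) - DN N η t‖ ^ 2 * ‖Dc N' q t‖ ^ 2 ≤
    C * (T * Real.log T ^ (k + 1) ^ 2) * (N : ℝ) ^ (-η)

/-- **CmV, XCm on `[√T, 2T]`.** The same blocks: `IsDc k η U N q` as `N^100 ≤ √T ≤ U`; ZsI: `GG U (A/2) (C₀/2) ⊆ Zs T A C₀`, and `GG U (A/2) 400 ⊆ GG U (A/2) (C₀/2)` (`AuxLow.GG_mono`), so `[U,2U] ∖ Zs T A C₀ ⊆ [U,2U] ∖ GG U (A/2) 400`: XCm with `A/2 ≥ 1`. See `I_CpZ.lean`. USES: S_XCm, S_ZsI, S_DyS, S_SSb. EASY-MEDIUM. -/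
def S_CmV : Prop := ∀ k : ℕ, ∃ C T₀ : ℝ, 1 ≤ C ∧ 3 ≤ T₀ ∧ ∀ T : ℝ, T₀ ≤ T → ∀ η : ℝ, 0 < η → η ≤ 1 / 8 →
  ∀ (N : ℕ) (q : ℕ → ℂ), IsDc k η (Real.sqrt T) N q → ∀ A C₀ : ℝ, 2 ≤ A → 800 ≤ C₀ →
  ∫ t in Icc (Real.sqrt T) (2 * T) \ Zs T A C₀, ‖Dc N q t‖ ^ 2 ≤ C * Real.exp (-(A / 400)) * (T * SS k η)

/-- **SmX, small heights.** `V = 3√T ≤ T`, `log T ≤ 2 log V`; ZsI: `Zs T A C₀ ∩ [0,V] ⊆ G0 V A' C₀`, `A' = A + C₀ log 2 ≤ (1+C₀) A`; DyF at `V`: `∫ ≤ (1 + C) V S`. The part `[-V, 0]`: `u ↦ -u` (ZsI, `|ζ(σ-iu)| = |ζ(σ+iu)|`). USES: S_DyF, S_ZsI, S_SSb. EASY-MEDIUM. -/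
def S_SmX : Prop := ∀ k : ℕ, 1 ≤ k → ∀ C₀ : ℝ, 800 ≤ C₀ → ∃ c C T₀ : ℝ, 0 < c ∧ 1 ≤ C ∧ 3 ≤ T₀ ∧
  ∀ T : ℝ, T₀ ≤ T → ∀ σ A : ℝ, σ ≤ 5 / 8 → 1 ≤ A → A ≤ c * ((σ - 1 / 2) * Real.log T) → A ≤ c * (Real.log T / Real.log (Real.log T)) →
    ∫ u in Zs T A C₀ ∩ Icc (-(3 * Real.sqrt T)) (3 * Real.sqrt T), ‖riemannZeta (σ + u * Complex.I)‖ ^ (2 * k) ≤
      C * Real.sqrt T * ∑' n : ℕ, dk k n ^ 2 * (n : ℝ) ^ (-(2 * σ))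

/-! ### Group 5: products -/

/-- **PrI, products.** `R = max ‖z_i - D_i‖`, `B = max ‖D_i‖`: `‖∏ z - ∏ D‖ ≤ ∏ (B + R) - B^k ≤ 2^k R max(R,B)^{k-1} ≤ 2^k (R^k + R B^{k-1})` (induction on `k`, `∏ z - ∏ D = z_0 (∏' z - ∏' D) + (z_0 - D_0) ∏' D`, or the binomial theorem), square: `≤ 2·4^k (R^{2k} + R² B^{2(k-1)})`, and a maximum is at most
the sum. EASY-MEDIUM. -/
def S_PrI : Prop := ∀ k : ℕ, 1 ≤ k → ∀ z D : Fin k → ℂ, ‖(∏ j, z j) - ∏ j, D j‖ ^ 2 ≤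
  2 * 4 ^ k * ((∑ i, ‖z i - D i‖ ^ (2 * k)) + ∑ i, ∑ j, ‖z i - D i‖ ^ 2 * ‖D j‖ ^ (2 * (k - 1)))

/-- **dxB, the coefficients.** Induction on `k` (`Fin.prod_univ_succ`, `ArithmeticFunction.mul_apply`, `Nat.sum_divisorsAntidiagonal`): `‖ex x n‖ ≤ 1` (`= 1` for `n ≥ 1`); `dk (k+1) n = ∑_{d ∣ n} dk k (n/d)` (dkB). For `x = 0`: `ex 0 = ζ` (cast to `ℂ`). USES: S_dkB. EASY. -/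
def S_dxB : Prop := (∀ (k : ℕ) (x : Fin k → ℝ) (n : ℕ), ‖dx x n‖ ≤ dk k n) ∧ ∀ (k n : ℕ), dx (fun _ : Fin k => (0 : ℝ)) n = (dk k n : ℂ)

/-- **CfX, products of `DN`** (as `S_Dpw`, file `I_Dpw.lean`). The coefficients of `∏_j DN N η (t + x_j)` (as a polynomial on the line `1/2`) are `n^{-η}` times `∑ ∏ n_j^{-i x_j}` over the factorisations `n = n_1 ⋯ n_k` with all `n_j ≤ N`; at most `dk k n n^{-η}` in absolute value, equal to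
`dx x n n^{-η}` for `n ≤ N`. Induction on `k` (`Fin.prod_univ_succ`, `HZ.S_DsM` first part). USES: S_dkB, S_dxB, HZ.S_DsM. MEDIUM. -/
def S_CfX : Prop := ∀ (k N : ℕ) (η T : ℝ) (x : Fin k → ℝ), 1 ≤ N → 0 ≤ η → ((N ^ k : ℕ) : ℝ) ^ 100 ≤ T →
  ∃ q : ℕ → ℂ, IsDc k η T (N ^ k) q ∧ (∀ t : ℝ, ∏ j, DN N η (t + x j) = Dc (N ^ k) q t) ∧
    ∀ n : ℕ, 1 ≤ n → n ≤ N → q n = dx x n * (((n : ℝ) ^ (-η) : ℝ) : ℂ)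

/-- **PxD.** `N₂ = ⌊T^{1/200}⌋`; `PX T (1/2+η) x t = Dc N₂ p t` with `p n = dx x n n^{-η}` for `1 ≤ n ≤ N₂`. First part: MvC, `∑ ‖p n‖²/n ≤ SS` (dxB). Second part: CfX (`T := ` anything `≥ (N^k)^100`), `N^k ≤ N₂`: the difference is `Dc N₂ r t`, `r n = 0` for `n ≤ N`, `‖r n‖ ≤ 2 dk k n n^{-η}`;
MvC, `∑_{n > N} dk k n ^ 2 n^{-(1+2η)} ≤ C N^{-η} SS` (SSb; see `AuxApK.tail`). Third part: `IsDc` of the twisted coefficients, `PX T (1/2+η) x (u - w) = Dc N₂ (p n n^{iw}) u`, `N₂^100 ≤ √T`. USES: S_MvC, S_SSb, S_dxB, S_CfX. MEDIUM. -/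
def S_PxD : Prop := ∀ k : ℕ, ∃ C : ℝ, 1 ≤ C ∧ ∀ η : ℝ, 0 < η → η ≤ 1 / 8 → ∀ T : ℝ, 1 ≤ T → ∀ (x : Fin k → ℝ) (a b : ℝ), a ≤ b →
  (∫ t in a..b, ‖PX T (1 / 2 + η) x t‖ ^ 2) ≤ (b - a + 2 * (⌊T ^ (1 / 200 : ℝ)⌋₊ : ℝ) ^ 2) * SS k η ∧
  (∀ N : ℕ, 1 ≤ N → N ^ k ≤ ⌊T ^ (1 / 200 : ℝ)⌋₊ →
    (∫ t in a..b, ‖(∏ j, DN N η (t + x j)) - PX T (1 / 2 + η) x t‖ ^ 2) ≤
      (b - a + 2 * (⌊T ^ (1 / 200 : ℝ)⌋₊ : ℝ) ^ 2) * (C * (N : ℝ) ^ (-η) * SS k η)) ∧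
  ∀ w : ℝ, ∃ p : ℕ → ℂ, IsDc k η (Real.sqrt T) ⌊T ^ (1 / 200 : ℝ)⌋₊ p ∧ ∀ u : ℝ, PX T (1 / 2 + η) x (u - w) = Dc ⌊T ^ (1 / 200 : ℝ)⌋₊ p u

/-! ### Group 6: conclusion -/

/-- **ApX, approximation of a product of shifted zetas.** `η = σ - 1/2`, `M = min(η log T, log T/log log T)`, `S = SS k η`, `N = ⌊T^{1/(200k)}⌋` (`N ≥ 1`, `(N^k)^200 ≤ T`, `N^k ≤ ⌊T^{1/200}⌋`, `N ≥ T^{1/(200k)}/2`, so `N^{-η} ≤ 2e^{-X/(200k)}`). `z_j(t) = ζ(sp η (t+x_j))`, `D_j(t) = DN N η (t+x_j)`.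
(1) `t ≥ 2√T`: PrI and PxD (second part; interval `[0,T]`). `∫ ‖z_i - D_i‖^{2k} dt`, `u = t+x_i ∈ Zs ∩ [√T, 2T]`: ApV. `∫ ‖z_i - D_i‖² ‖D_j‖^{2(k-1)} dt`, `u = t+x_i`: `D_j(t)^{k-1} = DN N η (u + (x_j - x_i))^{k-1} = Dc (N^{k-1}) q u`: Dpw (`k-1`) and the twist `q(n) n^{-i(x_j-x_i)}`, or CfX with the constant shift
`x_j - x_i` (`k-1` factors): `IsDc (k-1) η (√T) (N^{k-1}) q`; TwV (`k-1`): `≤ C T L^{k²} N^{-η} ≤ C T X^{k²} S e^{-X/(200k)} ≤ C e^{-X/(400k)} T S` (`L^{k²} = X^{k²} η^{-k²} ≤ X^{k²} C S`, SSb; `AuxUpp.powexp`).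
(2) `t ≤ 2√T`: `‖∏ z - P‖² ≤ 2‖∏ z‖² + 2‖P‖²`, `‖∏ z‖² ≤ ∑_i ‖z_i‖^{2k}`, `u = t+x_i ∈ Zs ∩ [-√T, 3√T]`: SmX; `P`: PxD (first part; `2⌊T^{1/200}⌋² ≤ √T`). Total `≤ C √T S ≤ C e^{-cM} T S` (`cM ≤ (1/8) log T`). USES: S_PrI, S_PxD, S_CfX, S_ApV, S_TwV, S_SmX, S_SSb. MEDIUM-HARD. -/
def S_ApX : Prop := ∀ k : ℕ, 1 ≤ k → ∀ C₀ : ℝ, 800 ≤ C₀ → ∃ c C T₀ : ℝ, 0 < c ∧ 1 ≤ C ∧ 3 ≤ T₀ ∧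
  ∀ T : ℝ, T₀ ≤ T → ∀ σ A : ℝ, σ ≤ 5 / 8 → 1 ≤ A → A ≤ c * ((σ - 1 / 2) * Real.log T) → A ≤ c * (Real.log T / Real.log (Real.log T)) →
  ∀ x : Fin k → ℝ, (∀ j, |x j| ≤ Real.sqrt T) →
    ∫ t in Ex T A C₀ x, ‖(∏ j, riemannZeta (σ + (t + x j : ℝ) * Complex.I)) - PX T σ x t‖ ^ 2 ≤
      C * Real.exp (-(c * min ((σ - 1 / 2) * Real.log T) (Real.log T / Real.log (Real.log T)))) *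
        (T * ∑' n : ℕ, dk k n ^ 2 * (n : ℝ) ^ (-(2 * σ)))

/-- **CmX, the exceptional set.** `η = σ - 1/2`. If `A < 2` trivial (PxD, first part, on `[0,T]`; `2⌊T^{1/200}⌋² ≤ T`). Else: `t ≥ 2√T`: `u = t+w ∈ [√T, 2T] ∖ Zs`, `PX T σ x t = PX T σ x (u - w) = Dc N₂ p u` (PxD, third part): CmV. `t ≤ 2√T`: PxD, first part: `≤ 3√T S ≤ 3 e^{-A/400} T S` (`A ≤ log T`). USES: S_PxD, S_CmV, S_SSb.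
EASY-MEDIUM. -/
def S_CmX : Prop := ∀ k : ℕ, 1 ≤ k → ∃ C T₀ : ℝ, 1 ≤ C ∧ 3 ≤ T₀ ∧ ∀ C₀ : ℝ, 800 ≤ C₀ → ∀ T : ℝ, T₀ ≤ T →
  ∀ σ A : ℝ, 1 / 2 < σ → σ ≤ 5 / 8 → 1 ≤ A → A ≤ Real.log T → ∀ (x : Fin k → ℝ) (w : ℝ), |w| ≤ Real.sqrt T →
    ∫ t in {t : ℝ | 0 ≤ t ∧ t ≤ T ∧ t + w ∉ Zs T A C₀}, ‖PX T σ x t‖ ^ 2 ≤
      C * Real.exp (-(A / 400)) * (T * ∑' n : ℕ, dk k n ^ 2 * (n : ℝ) ^ (-(2 * σ)))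

/-- **MnX, the mean of `P_x conj P_y`.** `N₂ = ⌊T^{1/200}⌋`, `η = σ - 1/2`. MvC on `[0,T]`: the main term is `T ∑_{n ≤ N₂} dx x n conj (dx y n) n^{-2σ}` (`n^{-η} n^{-η}/n = n^{-2σ}`), error `N₂² (S_k + S_l) ≤ T^{1/100} C (log T)^{k²+l²} ≤ C √T` (SSb: `S ≤ C (1/η)^{k²}`? use `S_SSu`; `1/η ≤ log T` as
`η log T ≥ 1`), and `√T ≤ e^{-A/400} T`. Tail: `∑_{n > N₂} ‖dx x n‖ ‖dx y n‖ n^{-2σ} ≤ (∑_{n > N₂} dk k² n^{-2σ})^{1/2} (∑_{n > N₂} dk l² n^{-2σ})^{1/2} ≤ C N₂^{-η} (S_k S_l)^{1/2}` (SSb, last part; summable by `ab ≤ a² + b²`), `N₂^{-η} ≤ 2e^{-X/200} ≤ 2e^{-A/400}` (`A ≤ X`). USES: S_MvC, S_SSb, S_SSu, S_dxB. MEDIUM. -/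
def S_MnX : Prop := ∀ k l : ℕ, 1 ≤ k → 1 ≤ l → ∃ C T₀ : ℝ, 1 ≤ C ∧ 3 ≤ T₀ ∧ ∀ T : ℝ, T₀ ≤ T →
  ∀ σ A : ℝ, σ ≤ 5 / 8 → 1 ≤ A → A ≤ (σ - 1 / 2) * Real.log T → ∀ (x : Fin k → ℝ) (y : Fin l → ℝ),
    ‖(∫ t in (0 : ℝ)..T, PX T σ x t * (starRingEnd ℂ) (PX T σ y t)) -
      T * ∑' n : ℕ, dx x n * (starRingEnd ℂ) (dx y n) * (((n : ℝ) ^ (-(2 * σ)) : ℝ) : ℂ)‖ ≤
      C * Real.exp (-(A / 400)) * (T * Real.sqrt ((∑' n : ℕ, dk k n ^ 2 * (n : ℝ) ^ (-(2 * σ))) *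
        ∑' n : ℕ, dk l n ^ 2 * (n : ℝ) ^ (-(2 * σ))))

/-- **ShF, THE FORMULA FOR SHIFTED MOMENTS.** `E = Ex x ∩ Ex y`, `Z_x = ∏ ζ(σ+i(t+x_j))`, `P_x = PX T σ x t`, `S_k`, `S_l` the two series. (1) `∫_E (Z_x conj Z_y - P_x conj P_y) = ∫_E (Z_x - P_x) conj Z_y + ∫_E P_x conj (Z_y - P_y)`, Cauchy-Schwarz (integrals over `E`): ApX, `∫_E ‖Z_y‖² ≤ 2 ∫_E ‖Z_y - P_y‖² + 2 ∫_0^T ‖P_y‖² ≤ C T S_l`,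
`∫_0^T ‖P_x‖² ≤ 2 T S_k` (PxD): at most `C e^{-c₁M/2} T (S_k S_l)^{1/2}`. (2) `∫_E P_x conj P_y = ∫_0^T - ∫_{[0,T] ∖ E}`, `[0,T] ∖ E` is the union of the sets of CmX for `w = x_j` and `w = y_j`: at most `C e^{-A/400} T (S_k S_l)^{1/2}` by Cauchy-Schwarz. (3) MnX. `c ≤ 200 c₁` and `c ≤ 1`. (`Ex` measurable: ZsI,
preimages under translations.) USES: S_ApX, S_CmX, S_MnX, S_PxD, S_ZsI, S_SSb. MEDIUM. -/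
def S_ShF : Prop := ∀ k l : ℕ, 1 ≤ k → 1 ≤ l → ∀ C₀ : ℝ, 800 ≤ C₀ → ∃ c C T₀ : ℝ, 0 < c ∧ 1 ≤ C ∧ 3 ≤ T₀ ∧
  ∀ T : ℝ, T₀ ≤ T → ∀ σ A : ℝ, σ ≤ 5 / 8 → 1 ≤ A → A ≤ c * ((σ - 1 / 2) * Real.log T) → A ≤ c * (Real.log T / Real.log (Real.log T)) →
  ∀ (x : Fin k → ℝ) (y : Fin l → ℝ), (∀ j, |x j| ≤ Real.sqrt T) → (∀ j, |y j| ≤ Real.sqrt T) →
    ‖(∫ t in Ex T A C₀ x ∩ Ex T A C₀ y, (∏ j, riemannZeta (σ + (t + x j : ℝ) * Complex.I)) *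
        (starRingEnd ℂ) (∏ j, riemannZeta (σ + (t + y j : ℝ) * Complex.I))) -
      T * ∑' n : ℕ, dx x n * (starRingEnd ℂ) (dx y n) * (((n : ℝ) ^ (-(2 * σ)) : ℝ) : ℂ)‖ ≤
      C * Real.exp (-(A / 400)) * (T * Real.sqrt ((∑' n : ℕ, dk k n ^ 2 * (n : ℝ) ^ (-(2 * σ))) *
        ∑' n : ℕ, dk l n ^ 2 * (n : ℝ) ^ (-(2 * σ))))

end Pool.Agent.Work.MP_56b8f5_nt.HN
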