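import Pool.Agent.Work.MP_56b8f5_nt.HN.StmtsW

/-!
MP_56b8f5_nt, block HN, part Y: the condition `A ≤ c log T/log log T` is removed, the only condition is `1 ≤ A ≤ c (σ - 1/2) log T`, and the mean square
errors become `e^{-c X}`, `X = (σ - 1/2) log T`. Every docstring is the complete proof; an item may assume the statements of all earlier items and all landed facts of
blocks HN, HZ, WM, SH.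

Idea. If `X ≤ L/log L` (`L = log T`) the old results apply. If `X ≥ L/log L`: on `GG T (cX) C₀` the pointwise inequality with `log x = (K/κ) L/X` gives `|ζ| ≤ exp(|D_x| + κX)`, `x` is at most a power of `log T`, and `|D_x| > κX` happens only on a set of measure `T exp(-c X log L)`.
-/

set_option autoImplicit false

open MeasureTheory Set Filter Topology

noncomputable section

namespace Pool.Agent.Work.MP_56b8f5_nt.HN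

open Pool.Agent.Work.MP_56b8f5_nt.EM Pool.Agent.Work.MP_56b8f5_nt.WM Pool.Agent.Work.MP_56b8f5_nt.SH
open Pool.Agent.Work.MP_56b8f5_nt.HZ

/-- The prime polynomial `∑_{p ≤ z} v(p) p^{-1/2-it}`. -/
def Pm (v : ℕ → ℝ) (z : ℕ) (t : ℝ) : ℂ := ∑ p ∈ pr z, (v p : ℂ) * (p : ℂ) ^ (-(1 / 2 + t * Complex.I))

/-! ### Group 1: the bad set for short polynomials -/

/-- **YPm, moments of the prime polynomial.** `Pm v z t ^ m = De (z^m) c t` with `c(n) = ∑ v(p_1) ⋯ v(p_m)` over the ordered `m`-tuples of primes `≤ z` with product `n` (induction on `m`). `0 ≤ c(n) ≤ m!` (the `m`-tuples of primes with a given product are permutations of one multiset; or induction: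
`m`-tuples with product `n` start with a prime `p ∣ n`, and `∑_{p ∣ n}` ... use: the number of ordered `m`-tuples of primes with product `n` is `0` unless `Ω(n) = m`, and at most `m!` by induction, since the first prime is one of the at most `m` prime divisors of `n`), and `∑_n c(n)/n = (∑_{p ≤ z} v(p)/p)^m ≤ (S1 z)^m`. MvN on
`[T,2T]` with `N = z^m`: `≤ (T + 2 z^{2m}) ∑ c(n)²/n ≤ 3T m! (S1 z)^m`. USES: S_MvN. MEDIUM. -/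
def S_YPm : Prop := ∀ (m z : ℕ) (v : ℕ → ℝ) (T : ℝ), 1 ≤ T → 1 ≤ z → (∀ n, 0 ≤ v n ∧ v n ≤ 1) → ((z ^ m : ℕ) : ℝ) ^ 2 ≤ T →
  ∫ t in T..(2 * T), ‖Pm v z t‖ ^ (2 * m) ≤ 3 * T * ((m.factorial : ℝ) * WM.S1 z ^ m)

/-- **YDx, from `Dx` to primes.** The terms of `Dx c x t` are at prime powers `n = p^j`: `Λ(n)/log n = 1/j`. Primes: `Pm v ⌊x⌋ t` with `v n = c n`. Squares: at most `∑_{p ≤ x} 1/(2p) ≤ S1 ⌊x⌋`; `j ≥ 3`: at most `∑_p ∑_{j ≥ 3} p^{-j/2} ≤ ∑_p 4 p^{-3/2} ≤ 4 ∑_{n ≥ 1} n^{-3/2} ≤ C`. And `S1 z ≤ log (C log z)` (WM.S_Mert).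
Second part (trivial bound): `Λ(n)/log n ≤ 1`, `∑_{n ≤ x} n^{-1/2} ≤ 2 √x`. USES: WM.S_Mert. EASY-MEDIUM. -/
def S_YDx : Prop := ∃ C : ℝ, 1 ≤ C ∧ ∀ (c : ℕ → ℝ) (x t : ℝ), (∀ n, 0 ≤ c n ∧ c n ≤ 1) → 2 ≤ x →
  ‖Dx c x t - Pm c ⌊x⌋₊ t‖ ≤ C * (1 + Real.log (Real.log x + 3)) ∧ WM.S1 ⌊x⌋₊ ≤ C * (1 + Real.log (Real.log x + 3)) ∧
  ‖Dx c x t‖ ≤ 2 * Real.sqrt x

/-- **YBd, the measure of the bad set.** `X ≥ L/log L`, `X ≤ L/8`, `log x = R L/X` (`R ≥ 1`), so `8R ≤ log x ≤ R log L`, `z = ⌊x⌋`, `m = ⌊L/(4 log x)⌋ = ⌊X/(4R)⌋` (`x^{2m} ≤ √T`). Chebyshev and YPm (on `[T,2T]`): the measure of the `t` with `‖Pm v z t‖ > κX/2` is at most `3T m! (S1 z)^m/(κX/2)^{2m} ≤ 3T (m S1 z · 4/(κX)²)^m`;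
`m ≤ X/(4R)` and `S1 z ≤ C (1 + log(log x + 3)) ≤ C' log log L..`, so the base is at most `C'' (1 + log (log x + 3))/(κ² R X) ≤ L^{-1/2}` for `T ≥ T₀` (`X ≥ L/log L`); `m ≥ X/(8R)` for `T ≥ T₀`; so the measure is at most `3T L^{-m/2} ≤ 3T exp(-X log L/(16R))`. And `‖Dx - Pm‖ ≤ κX/2` for `T ≥ T₀` (YDx). Take for the set in the
statement `F = {t ∈ [T,2T] : ‖Dx c x t‖ > κX}` (open in `[T,2T]`, measurable). USES: S_YPm, S_YDx. MEDIUM. -/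
def S_YBd : Prop := ∀ κ R B : ℝ, 0 < κ → 1 ≤ R → ∃ T₀ : ℝ, 3 ≤ T₀ ∧ ∀ T : ℝ, T₀ ≤ T → ∀ X : ℝ, Real.log T / Real.log (Real.log T) ≤ X →
  X ≤ Real.log T / 8 → ∀ c : ℕ → ℝ, (∀ n, 0 ≤ c n ∧ c n ≤ 1) →
  MeasurableSet {t : ℝ | t ∈ Icc T (2 * T) ∧ κ * X < ‖Dx c (Real.exp (R * (Real.log T / X))) t‖} ∧
  volume.real {t : ℝ | t ∈ Icc T (2 * T) ∧ κ * X < ‖Dx c (Real.exp (R * (Real.log T / X))) t‖} ≤ T * Real.exp (-(B * X))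

/-- **YHQ, splitting in the range `X ≥ L/log L`.** `X = ηL`. PWU (for `C₀`): `m₀, X₀, K` (enlarge `K ≥ 1`). `R = max(X₀, 1) K/κ'`.. precisely `R` with `R ≥ 1`, `8R ≥ X₀` and `K/R ≤ κ/2`; `c` small: `m₀ (1 + cX) (R L/X) ≤ L`, i.e. `m₀ R (1/X + c) ≤ 1` (`X` large, `c ≤ 1/(2 m₀ R)`). `F` the set of YBd with `κ/2` in place of `κ`, the coefficients
`c x n n^{-η}` (`x = e^{RL/X}`; for `n = 0` put `0`, the sum starts at `n = 1`) and a large `B`. Outside `F`: `‖ζ‖ ≤ exp(κX/2 + K L/log x) = exp(κX/2 + (K/R) X) ≤ e^{κX}` (PWU at `x`). On `F`: PWU at `x'`, `log x' = min(L/(m₀(1+cX)), log L)` (`≥ X₀` as `cX ≤ cL/8`, `c ≤ 2/(m₀ X₀)`, `T ≥ T₀`): `‖Dx‖ ≤ 2√x' ≤ 2√L ≤ X`,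
`K L/log x' ≤ K max(m₀ (1+cX), L/log L) ≤ K (2m₀ + 1) X`, so `‖ζ‖^{2(k+1)} ≤ e^{B'X}`, `B' = 2(k+1)(1 + K(2m₀+1))`, and with `B = B' + 1`: `∫_{GG ∩ F} ‖ζ‖^{2(k+1)} ≤ e^{B'X} T e^{-BX} = T e^{-X}`. USES: S_PWU, S_YBd, S_YDx (third part), HZ.S_GGm. MEDIUM. -/
def S_YHQ : Prop := ∀ (k : ℕ) (C₀ κ : ℝ), 0 ≤ C₀ → 0 < κ → ∃ c T₀ : ℝ, 0 < c ∧ 3 ≤ T₀ ∧ ∀ T : ℝ, T₀ ≤ T → ∀ η : ℝ, η ≤ 1 / 8 →
  Real.log T / Real.log (Real.log T) ≤ η * Real.log T →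
  ∃ F : Set ℝ, MeasurableSet F ∧
    (∀ t ∈ GG T (c * (η * Real.log T)) C₀, t ∉ F → ‖riemannZeta (sp η t)‖ ≤ Real.exp (κ * (η * Real.log T))) ∧
    ∫ t in GG T (c * (η * Real.log T)) C₀ ∩ F, ‖riemannZeta (sp η t)‖ ^ (2 * (k + 1)) ≤ T * Real.exp (-(η * Real.log T))

/-- **YAp, the `2(k+1)`-th moment of `ζ - DN`, only condition `1 ≤ A ≤ cX`.** Let `X = η log T`, `a = 1/(200(k+1))`, `L = log T`. Case `X ≤ L/log L`: ApR (`c₁ ≤ 1`: `A ≤ c₁ X ≤ c₁ L/log L`; `min = X`). Case `X ≥ L/log L`: `GG T A C₀ ⊆ GG T (cX) C₀` (`A ≤ cX`; monotone in `A`), YHQ with `κ = a/(16(k+1))`; DeR with `δ = e^{-aX/8}`, `D = DN N η`,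
`Q = De 1 q`, `q 1 = 1`, `q n = 0` otherwise (`IsDk k η T 1 q`, `dk k 1 = 1`; `De 1 q t = 1`), `M = e^{2kκX} ≤ e^{aX/8}`, `F` from YHQ: first term `e^{-aX/4} (1+2/√T) T SS` (MnE); second `4^{k+1} e^{aX/8} 4e^{aX/4} ∫ ‖ζ-DN‖² ‖Q‖² ≤ C e^{3aX/8} T L^{(k+1)²} 2e^{-aX}` (TwA), third `4^{k+1} e^{aX/4} C T L^{(k+1)²} 2e^{-aX}` (Dpw, TwA),
fourth `4^{k+1} T e^{-X}`; and `L^{(k+1)²} ≤ e^{aX/8}` for `T ≥ T₀` since `X ≥ L/log L` (lemma `AuxUpE.logs`). All are `≤ C e^{-aX/4} T SS`. USES: S_ApR, S_YHQ, S_DeR, S_MnE, S_TwA, S_Dpw, S_SSb, HZ.S_GGm. MEDIUM (model `I_ApR.lean`). -/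
def S_YAp : Prop := ∀ (k : ℕ) (C₀ : ℝ), 0 ≤ C₀ → ∃ c C T₀ : ℝ, 0 < c ∧ 1 ≤ C ∧ 3 ≤ T₀ ∧
  ∀ T : ℝ, T₀ ≤ T → ∀ η A : ℝ, η ≤ 1 / 8 → 1 ≤ A → A ≤ c * (η * Real.log T) →
  ∀ N : ℕ, 1 ≤ N → ((N ^ (k + 1) : ℕ) : ℝ) ^ 100 ≤ T → (N : ℝ) ^ (-η) ≤ 2 * Real.exp (-(η * Real.log T / (200 * (k + 1)))) →
    ∫ t in GG T A C₀, ‖riemannZeta (sp η t) - DN N η t‖ ^ (2 * (k + 1)) ≤
      C * Real.exp (-(c * (η * Real.log T))) * (T * SS (k + 1) η)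

/-! ### Group 2: the conclusion with the only condition `1 ≤ A ≤ cX` (copies) -/

/-- **YAv, YAp on `[√T, 2T]`** (copy of `S_ApV`, file `I_ApV.lean`). USES: S_YAp, S_ZsI, S_DyS, S_SSb. -/
def S_YAv : Prop := ∀ k : ℕ, 1 ≤ k → ∀ C₀ : ℝ, 0 ≤ C₀ → ∃ c C T₀ : ℝ, 0 < c ∧ 1 ≤ C ∧ 3 ≤ T₀ ∧
  ∀ T : ℝ, T₀ ≤ T → ∀ η A : ℝ, η ≤ 1 / 8 → 1 ≤ A → A ≤ c * (η * Real.log T) →
  ∀ N : ℕ, 1 ≤ N → ((N ^ k : ℕ) : ℝ) ^ 200 ≤ T → (N : ℝ) ^ (-η) ≤ 2 * Real.exp (-(η * Real.log T / (200 * k))) →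
    ∫ t in Zs T A C₀ ∩ Icc (Real.sqrt T) (2 * T), ‖riemannZeta (sp η t) - DN N η t‖ ^ (2 * k) ≤
      C * Real.exp (-(c * (η * Real.log T))) * (T * SS k η)

/-- **YUp, upper bound on `GG`.** `‖ζ‖^{2k} ≤ 4^k (‖ζ - DN‖^{2k} + ‖DN‖^{2k})`, `N` from NNp (`k`; `N^{-η} ≤ 2e^{-X/(100k)} ≤ 2e^{-X/(200k)}`), YAp (`k = j+1`), DkM. USES: S_YAp, S_NNp, S_DkM, S_SSb. EASY. -/
def S_YUp : Prop := ∀ k : ℕ, 1 ≤ k → ∀ C₀ : ℝ, 0 ≤ C₀ → ∃ c C T₀ : ℝ, 0 < c ∧ 1 ≤ C ∧ 3 ≤ T₀ ∧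
  ∀ T : ℝ, T₀ ≤ T → ∀ η A : ℝ, η ≤ 1 / 8 → 1 ≤ A → A ≤ c * (η * Real.log T) →
    ∫ t in GG T A C₀, ‖riemannZeta (sp η t)‖ ^ (2 * k) ≤ C * (T * SS k η)

/-- **YSm, small heights** (in place of `S_SmX`). The part `[-V,0]`, `V = 3√T`: symmetry (ZsI). The part `[0,V]`: `R = 4(2k+1)`, `Y = T^{1/R}`; on `[0,2Y]` growth (DyB): `2Y (C(1+2Y))^{2k} ≤ C' Y^{2k+1} = C' T^{1/4} ≤ C' √T`; blocks `U = V/2^{j+1} ≥ Y`: `log T ≤ R log U`, `Zs T A C₀ ∩ [U,2U] ⊆ GG U (A + C₀ log R) C₀` (DyI third part, `2U ≤ T`,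
with `G0 = [0,T] ∩ Zs` of ZsI), `A + C₀ log R ≤ (1 + C₀ log R) A ≤ c₁ η log U`, YUp at `U`. Sum: DyS (`AuxDyF.dyadic`, `AuxDyF.upper_abs`, `AuxDyF.small`). This is the upper bound in `I_DyF.lean`. USES: S_YUp, S_DyI, S_DyB, S_DyS, S_ZsI, S_SSb. MEDIUM (copy). -/
def S_YSm : Prop := ∀ k : ℕ, 1 ≤ k → ∀ C₀ : ℝ, 0 ≤ C₀ → ∃ c C T₀ : ℝ, 0 < c ∧ 1 ≤ C ∧ 3 ≤ T₀ ∧
  ∀ T : ℝ, T₀ ≤ T → ∀ σ A : ℝ, σ ≤ 5 / 8 → 1 ≤ A → A ≤ c * ((σ - 1 / 2) * Real.log T) →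
    ∫ u in Zs T A C₀ ∩ Icc (-(3 * Real.sqrt T)) (3 * Real.sqrt T), ‖riemannZeta (σ + u * Complex.I)‖ ^ (2 * k) ≤
      C * Real.sqrt T * ∑' n : ℕ, dk k n ^ 2 * (n : ℝ) ^ (-(2 * σ))

/-- **YAw, approximation of `∏ ζ(s_j + it)`** (copy of `S_ApW`, file `I_ApW.lean`, with YAv, YSm). USES: S_PrJ, S_PwD, S_DkM, S_YAv, S_YSm, S_SSb, S_ZsI. -/
def S_YAw : Prop := ∀ k : ℕ, 1 ≤ k → ∀ C₀ : ℝ, 800 ≤ C₀ → ∃ c C T₀ : ℝ, 0 < c ∧ 1 ≤ C ∧ 3 ≤ T₀ ∧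
  ∀ T : ℝ, T₀ ≤ T → ∀ σ A : ℝ, σ ≤ 5 / 8 → 1 ≤ A → A ≤ c * ((σ - 1 / 2) * Real.log T) →
  ∀ s : Fin k → ℂ, InR (σ - 1 / 2) s → (∀ j, |(s j).im| ≤ Real.sqrt T) →
    ∫ t in Ew T A C₀ s, ‖(∏ j, riemannZeta (s j + t * Complex.I)) - PW T s t‖ ^ 2 ≤
      C * Real.exp (-(c * ((σ - 1 / 2) * Real.log T))) * (T * ∑' n : ℕ, dk k n ^ 2 * (n : ℝ) ^ (-(2 * σ)))

/-- **YSh, THE FORMULA AT COMPLEX POINTS, only condition `1 ≤ A ≤ c (σ-1/2) log T`** (copy of `S_ShW`, file `I_ShW.lean`, with YAw). USES: S_YAw, S_CmW, S_MnW, S_PwD, S_ZsI, S_SSb. -/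
def S_YSh : Prop := ∀ k l : ℕ, 1 ≤ k → 1 ≤ l → ∀ C₀ : ℝ, 800 ≤ C₀ → ∃ c C T₀ : ℝ, 0 < c ∧ 1 ≤ C ∧ 3 ≤ T₀ ∧
  ∀ T : ℝ, T₀ ≤ T → ∀ σ A : ℝ, σ ≤ 5 / 8 → 1 ≤ A → A ≤ c * ((σ - 1 / 2) * Real.log T) →
  ∀ (s : Fin k → ℂ) (w : Fin l → ℂ), InR (σ - 1 / 2) s → InR (σ - 1 / 2) w →
    (∀ j, |(s j).im| ≤ Real.sqrt T) → (∀ j, |(w j).im| ≤ Real.sqrt T) →
    ‖(∫ t in Ew T A C₀ s ∩ Ew T A C₀ w, (∏ j, riemannZeta (s j + t * Complex.I)) *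
        (starRingEnd ℂ) (∏ j, riemannZeta (w j + t * Complex.I))) -
      T * ∑' n : ℕ, dw s n * (starRingEnd ℂ) (dw w n)‖ ≤
      C * Real.exp (-(A / 400)) * (T * Real.sqrt ((∑' n : ℕ, dk k n ^ 2 * (n : ℝ) ^ (-(2 * σ))) *
        ∑' n : ℕ, dk l n ^ 2 * (n : ℝ) ^ (-(2 * σ))))

end Pool.Agent.Work.MP_56b8f5_nt.HN
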