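import Pool.Agent.Work.MP_56b8f5_nt.HN.StmtsD
import Pool.Agent.Work.MP_56b8f5_nt.HN.StmtsQ

/-!
MP_56b8f5_nt, block HN, part Z: the mean square approximation on `[0,T]`, and the final statement of the hand-in.
Every docstring is the complete proof; an item may assume the statements of all earlier items and all landed facts of blocks HN, HZ.
-/

set_option autoImplicit false

open MeasureTheory Set Filter Topology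

noncomputable section

namespace Pool.Agent.Work.MP_56b8f5_nt.HN

open Pool.Agent.Work.MP_56b8f5_nt.EM Pool.Agent.Work.MP_56b8f5_nt.WM Pool.Agent.Work.MP_56b8f5_nt.SH
open Pool.Agent.Work.MP_56b8f5_nt.HZ

/-- The Dirichlet polynomial of the final statement, of length `T^{1/200}`. -/
def PZ (k : ℕ) (T σ t : ℝ) : ℂ :=
  ∑ n ∈ Finset.Icc 1 ⌊T ^ (1 / 200 : ℝ)⌋₊, (dk k n : ℂ) * (n : ℂ) ^ (-((σ : ℂ) + t * Complex.I))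

/-- **DKd, two lengths.** `DK k N η t = De N (dk k n n^{-η}) t` (`AuxApK.DK_eq`), the difference is `De N' r t` with `r n = 0` for `n ≤ N`, `r n = dk k n n^{-η}` for `N < n ≤ N'` (`AuxApK.De_ext`, `De_sub`). MvN on `[a,b]`: `≤ (b - a + 2N'²) ∑ r²/n`, and
`∑_{N < n ≤ N'} dk k n ^ 2 n^{-(1+2η)} ≤ C N^{-η} SS` (SSb, last part; `AuxApK.tail`). Second part: MvN, `∑_{n ≤ N'} ≤ SS`. USES: S_MvN, S_SSb. EASY. -/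
def S_DKd : Prop := ∀ k : ℕ, ∃ C : ℝ, 1 ≤ C ∧ ∀ η : ℝ, 0 < η → η ≤ 1 / 8 → ∀ (a b : ℝ) (N N' : ℕ), a ≤ b → 1 ≤ N → N ≤ N' →
  (∫ t in a..b, ‖DK k N' η t - DK k N η t‖ ^ 2) ≤ (b - a + 2 * (N' : ℝ) ^ 2) * (C * (N : ℝ) ^ (-η) * SS k η) ∧
  ∫ t in a..b, ‖DK k N' η t‖ ^ 2 ≤ (b - a + 2 * (N' : ℝ) ^ 2) * SS k η

/-- **ApZ, approximation of `ζ^k` in the mean square on `G0`.** `η = σ - 1/2 > 0`, `N = ⌊T^{1/200}⌋ ≥ 1`, `PZ k T σ t = DK k N η t`; `N ≥ T^{1/200}/2`, so `N^{-η} ≤ 2 e^{-X/200}`, `X = η log T`; `M = min(X, log T/log log T)`, `S = SS k η`. ApK: `c₁, C₁, T₁`; `c = c₁/(2(1+C₀))` (made smaller). Blocks `U = T/2^{j+1} ≥ √T`: `log T ≤ 2 log U`, DyI (third part, `R = 2`):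
`G0 ∩ [U,2U] ⊆ GG U A' C₀`, `A' = A + C₀ log 2 ≤ (1+C₀) A`; ApK at `U` with `N_U = ⌊U^{1/100}⌋` (`AuxAp0.floor_bounds`), `N ≤ N_U`; `min(η log U, log U/log log U) ≥ M/2`. DKd on `[U,2U]` (`2 N_U² ≤ U`). So `∫_{G0 ∩ [U,2U]} ‖ζ^k - P‖² ≤ 2 C₁ e^{-c₁M/2} U S + 2·2U·C·2e^{-X/200} S ≤ C' e^{-cM} U S`. Sum over the blocks: DyS, see
`AuxDyF.dyadic`, `AuxDyF.upper_abs` (file `I_DyF.lean`; `Y = √T`). The rest is in `[0, 2√T]`: `‖ζ^k - P‖² ≤ 2‖ζ‖^{2k} + 2‖P‖²`; DKd: `∫_0^{2√T} ‖P‖² ≤ (2√T + 2N²) S ≤ 4√T S`; and with `V = 2√T`, `G0 T A C₀ ∩ [0,V] ⊆ G0 V (A + C₀ log 2) C₀` (`(β-1/2) log V ≤ (β-1/2) log T`, `log T ≤ 2 log V`), so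
by DyF at `V`: `∫_{G0 ∩ [0,V]} ‖ζ‖^{2k} ≤ (1 + C) V S`. Finally `√T ≤ e^{-cM} T` (`cM ≤ X ≤ (1/8) log T`). USES: S_ApK, S_DKd, S_DyI, S_DyS, S_DyF. MEDIUM. -/
def S_ApZ : Prop := ∀ k : ℕ, 1 ≤ k → ∀ C₀ : ℝ, 800 ≤ C₀ → ∃ c C T₀ : ℝ, 0 < c ∧ 1 ≤ C ∧ 3 ≤ T₀ ∧
  ∀ T : ℝ, T₀ ≤ T → ∀ σ A : ℝ, σ ≤ 5 / 8 → 1 ≤ A → A ≤ c * ((σ - 1 / 2) * Real.log T) → A ≤ c * (Real.log T / Real.log (Real.log T)) →
    ∫ t in G0 T A C₀, ‖riemannZeta (σ + t * Complex.I) ^ k - PZ k T σ t‖ ^ 2 ≤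
      C * Real.exp (-(c * min ((σ - 1 / 2) * Real.log T) (Real.log T / Real.log (Real.log T)))) *
        (T * ∑' n : ℕ, dk k n ^ 2 * (n : ℝ) ^ (-(2 * σ)))

/-- **CpZ, the exceptional set carries little of the mean square of `PZ`.** `η = σ - 1/2 > 0`, `N = ⌊T^{1/200}⌋`, `N^100 ≤ √T`, `PZ k T σ t = De N q t`, `q n = dk k n n^{-η}` for `1 ≤ n ≤ N` (`0` otherwise), `IsDk k η U N q` for all `U ≥ √T`. If `A < 2` trivial (`∫_0^T ≤ (T + 2N²) S ≤ 3 T S`, DKd). Else: blocks `U = T/2^{j+1} ≥ √T`: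
`GG U (A/2) 400 ⊆ GG U (A/2) (C₀/2) ⊆ G0 T A C₀` (DyI, second part; `AuxLow.GG_mono`), so `∫_{[U,2U] ∖ G0} ‖P‖² ≤ C e^{-A/400} U S` by CmN (`A/2 ≥ 1`). Sum: DyS with `Gᶜ`, see `AuxDyF.dyadic`, `AuxDyF.upper_abs`. The rest is in `[0, 2√T]`: DKd, `≤ (2√T + 2N²) S ≤ 4 √T S ≤ 4 e^{-A/400} T S` (`A ≤ log T`).
USES: S_CmN, S_DKd, S_DyI, S_DyS. MEDIUM. -/
def S_CpZ : Prop := ∀ k : ℕ, 1 ≤ k → ∃ C T₀ : ℝ, 1 ≤ C ∧ 3 ≤ T₀ ∧ ∀ C₀ : ℝ, 800 ≤ C₀ → ∀ T : ℝ, T₀ ≤ T →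
  ∀ σ A : ℝ, 1 / 2 < σ → σ ≤ 5 / 8 → 1 ≤ A → A ≤ Real.log T →
    ∫ t in Icc 0 T \ G0 T A C₀, ‖PZ k T σ t‖ ^ 2 ≤ C * Real.exp (-(A / 400)) * (T * ∑' n : ℕ, dk k n ^ 2 * (n : ℝ) ^ (-(2 * σ)))

/-- **Fin, THE FINAL STATEMENT OF THE HAND-IN.** First part: DyM, DyI. `c` the minimum of the constants of DyF, ApZ and `1` (the exponential with the smaller `c` is larger; `min(..) ≥ 0`), `C` the maximum. Third inequality: from the first one and `|(2η)^{k²} S - a_k| ≤ Cη` (`η = σ - 1/2`, `2σ - 1 = 2η`;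
`|S - a_k (2η)^{-k²}| ≤ C η (2η)^{-k²}`, `S ≤ (a_k + C) (2η)^{-k²}`; see `AuxFph.algebra` in `I_Fph.lean`). USES: S_DyM, S_DyI, S_DyF, S_ApZ, S_CpZ, S_akS, S_SSb. EASY. -/
def S_Fin : Prop := (∃ C₁ : ℝ, ∀ T A K : ℝ, 3 ≤ T → 1 ≤ A → 800 ≤ K → MeasurableSet (G0 T A K) ∧
    (1 - C₁ * Real.exp (-(A / 400))) * T ≤ volume.real (G0 T A K)) ∧
  ∀ k : ℕ, 1 ≤ k → 0 < ak k ∧ ∀ K : ℝ, 800 ≤ K → ∃ c C T₀ : ℝ, 0 < c ∧ 3 ≤ T₀ ∧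
    ∀ T σ A : ℝ, T₀ ≤ T → σ ≤ 5 / 8 → 1 ≤ A → A ≤ c * ((σ - 1 / 2) * Real.log T) →
      A ≤ c * (Real.log T / Real.log (Real.log T)) →
      |(∫ t in G0 T A K, ‖riemannZeta (σ + t * Complex.I)‖ ^ (2 * k)) - T * ∑' n : ℕ, dk k n ^ 2 * (n : ℝ) ^ (-(2 * σ))| ≤
        C * Real.exp (-(A / 400)) * (T * ∑' n : ℕ, dk k n ^ 2 * (n : ℝ) ^ (-(2 * σ))) ∧
      |(1 / T) * (∫ t in G0 T A K, ‖riemannZeta (σ + t * Complex.I)‖ ^ (2 * k)) - ak k * (1 / (2 * σ - 1)) ^ k ^ 2| ≤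
        C * (Real.exp (-(A / 400)) + (σ - 1 / 2)) * (1 / (2 * σ - 1)) ^ k ^ 2 ∧
      (∫ t in G0 T A K, ‖riemannZeta (σ + t * Complex.I) ^ k - PZ k T σ t‖ ^ 2) ≤
        C * Real.exp (-(c * min ((σ - 1 / 2) * Real.log T) (Real.log T / Real.log (Real.log T)))) *
          (T * ∑' n : ℕ, dk k n ^ 2 * (n : ℝ) ^ (-(2 * σ))) ∧
      (∫ t in Icc 0 T \ G0 T A K, ‖PZ k T σ t‖ ^ 2) ≤
        C * Real.exp (-(A / 400)) * (T * ∑' n : ℕ, dk k n ^ 2 * (n : ℝ) ^ (-(2 * σ)))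

end Pool.Agent.Work.MP_56b8f5_nt.HN
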